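import Pool.Agent.W_MP_d8b8b7_gt.MainSetup
import Pool.Agent.W_MP_d8b8b7_G1.BPlus

/-!
Final assembly: the main statement for closed 4-manifolds from the main theorem on a Setup.
-/

set_option autoImplicit false

namespace Pool.Agent.W_MP_d8b8b7_gt

open MeasureTheory Set Filter Topology
open Pool.Agent.W_MP_d8b8b7_G1 (IsModel exists_setup_model not_pos_plane pb1 pb2 pb2_apply
  form2_ext smooth_pb1 smooth_pb2 isExtDeriv_pb1 closed_pb2 de)
open scoped ContDiff ENNReal Manifold

variable {N : ℕ}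

/-- strict positivity for all tangent vectors -/
theorem Setup.hb_pos_hom (S : Setup N) {β : EN N → Bil N} (h : ∀ z ∈ S.X1, 0 < S.ev β z)
    {x : EN N} (hx : x ∈ S.X) {v : EN N} (hv : S.Tan x v) (h0 : v ≠ 0) :
    0 < β x v (S.J x v) := by
  have hpos : 0 < S.om x v (S.J x v) := S.om_tame x hx v hv h0
  set r := S.om x v (S.J x v) with hr
  have hs : 0 < Real.sqrt r := Real.sqrt_pos.mpr hpos
  have hsq : (Real.sqrt r)⁻¹ * (Real.sqrt r)⁻¹ = r⁻¹ := by
    rw [← mul_inv, Real.mul_self_sqrt hpos.le]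
  have hmem : (x, (Real.sqrt r)⁻¹ • v) ∈ S.X1 := by
    refine ⟨hx, ?_, ?_⟩
    · show S.D x ((Real.sqrt r)⁻¹ • v) = (Real.sqrt r)⁻¹ • v
      rw [map_smul, show S.D x v = v from hv]
    · show S.om x ((Real.sqrt r)⁻¹ • v) (S.J x ((Real.sqrt r)⁻¹ • v)) = 1
      simp only [map_smul, Bil.smul_left, Bil.smul_right]
      rw [← mul_assoc, hsq, ← hr, inv_mul_cancel₀ hpos.ne']
  have h1 := h _ hmem
  have h2 : S.ev β (x, (Real.sqrt r)⁻¹ • v) = r⁻¹ * β x v (S.J x v) := by
    show β x ((Real.sqrt r)⁻¹ • v) (S.J x ((Real.sqrt r)⁻¹ • v)) = _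
    simp only [map_smul, Bil.smul_left, Bil.smul_right]
    rw [← mul_assoc, hsq]
  rw [h2] at h1
  exact (mul_pos_iff_of_pos_left (inv_pos.mpr hpos)).mp h1

/-- the light cone inequality from the absence of positive planes -/
theorem Setup.hb_lor (S : Setup N)
    (h : ∀ β γ : EN N → Bil N, IsForm β → IsForm γ → S.Closed β → S.Closed γ →
      ¬ ∀ s t : ℝ, (s, t) ≠ (0, 0) → 0 < S.B (S.cp (fun x => s • β x + t • γ x))
        (S.cp (fun x => s • β x + t • γ x))) : S.Lor := by
  intro β hβ hcl
  by_contra hlt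
  push Not at hlt
  have hom := S.smooth_om.continuous
  have hβc := hβ.smooth.continuous
  have hO : 0 < S.pair S.om S.om := by
    rw [S.hb_pair_om_om]
    have h1 : 0 < S.hb_V := S.hb_nu_pos
    have h2 := S.hb_A2_nonneg S.om
    linarith
  refine h S.om β S.hb_om_isForm hβ S.hb_om_closed' hcl ?_
  intro s t hst
  have e1 : S.B (S.cp (fun x => s • S.om x + t • β x)) (S.cp (fun x => s • S.om x + t • β x)) =
      s ^ 2 * S.pair S.om S.om + 2 * (s * t) * S.pair S.om β + t ^ 2 * S.pair β β := by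
    have hc1 : Continuous (s • S.om) := hom.const_smul s
    have hc2 : Continuous (t • β) := hβc.const_smul t
    have e2 : S.pair (s • S.om + t • β) (s • S.om + t • β) =
        s ^ 2 * S.pair S.om S.om + 2 * (s * t) * S.pair S.om β + t ^ 2 * S.pair β β := by
      have hc : Continuous (s • S.om + t • β) := hc1.add hc2
      rw [S.hb_pair_add_right hc1 hc2 hc, S.hb_pair_smul_right, S.hb_pair_smul_right,
        S.hb_pair_comm _ S.om, S.hb_pair_comm _ β, S.hb_pair_add_right hc1 hc2 hom,
        S.hb_pair_add_right hc1 hc2 hβc, S.hb_pair_smul_right, S.hb_pair_smul_right,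
        S.hb_pair_smul_right, S.hb_pair_smul_right, S.hb_pair_comm β S.om]
      ring
    exact e2
  rw [e1]
  rcases eq_or_ne t 0 with rfl | ht
  · have hs : s ≠ 0 := by
      rintro rfl
      exact hst rfl
    have : 0 < s ^ 2 * S.pair S.om S.om := by positivity
    simpa using this
  · have h1 : 0 < t ^ 2 * (S.pair β β * S.pair S.om S.om - S.pair S.om β ^ 2) := by
      have : 0 < t ^ 2 := by positivity
      exact mul_pos this (by linarith)
    have h2 : 0 < (s ^ 2 * S.pair S.om S.om + 2 * (s * t) * S.pair S.om β + t ^ 2 * S.pair β β) *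
        S.pair S.om S.om := by
      nlinarith [sq_nonneg (s * S.pair S.om S.om + t * S.pair S.om β)]
    exact (mul_pos_iff_of_pos_right hO).mp h2

/-- the main theorem -/
theorem main_theorem.{u} : MainStatement.{u} := by
  intro M _ _ _ _ _ Ω J hΩ hJ hT
  rcases isEmpty_or_nonempty M with hM | hM
  · refine ⟨Ω, hΩ, ⟨hT, fun x => (IsEmpty.false x).elim⟩, fun _ =>
      ⟨fun x => (IsEmpty.false x).elim, fun c => (IsEmpty.false c).elim,
        fun c => (IsEmpty.false c).elim⟩⟩
  · obtain ⟨N, S, e, hm⟩ := exists_setup_model hΩ hJ hT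
    obtain ⟨β, hβ, hcl, hanti, hpos, hcls⟩ := S.main_setup
    have hX : ∀ q, e q ∈ S.X := fun q => by
      rw [← hm.range_e]
      exact ⟨q, rfl⟩
    have happ : ∀ (q : M) (u v : EN 4), pb2 e β q ![u, v] = β (e q) (de e q u) (de e q v) :=
      fun q u v => pb2_apply e hβ.alt q u v
    have hinj : ∀ (q : M) (v : EN 4), v ≠ 0 → de e q v ≠ 0 := by
      intro q v hv h0
      have h1 := hm.om_eq q v (J q v)
      rw [h0, Bil.zero_left] at h1
      exact absurd h1 (ne_of_lt (hT q v hv))
    have htame : Tame (pb2 e β) J := by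
      intro q v hv
      have h1 := S.hb_pos_hom hpos (hX q) (hm.tan q v) (hinj q v hv)
      rw [hm.J_eq q v] at h1
      exact (happ q v (J q v)).symm ▸ h1
    have hsym : IsSymplectic (pb2 e β) := by
      refine ⟨smooth_pb2 hm.emb.smooth hβ, ?_, ?_⟩
      · rw [closed_pb2 hm.emb.smooth hβ]
        intro q u v w
        exact hcl (e q) (hX q) _ _ _ (hm.tan q u) (hm.tan q v) (hm.tan q w)
      · intro q v hv
        by_contra h0
        exact absurd (hv (J q v)) (ne_of_gt (htame q v h0))
    refine ⟨pb2 e β, hsym, ⟨htame, ?_⟩, ?_⟩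
    · intro q u v
      have h1 := hanti (e q) (hX q)
      have h2 := S.hb_anti_apply (x := e q) (hβ.alt (e q)) (de e q u) (de e q v)
      rw [h1, Bil.zero_apply, hm.J_eq q u, hm.J_eq q v] at h2
      have h3 : S.D (e q) (de e q u) = de e q u := hm.tan q u
      have h4 : S.D (e q) (de e q v) = de e q v := hm.tan q v
      rw [h3, h4] at h2
      have h5 := happ q u v
      have h6 := happ q (J q u) (J q v)
      exact h6.trans ((by linarith : β (e q) (de e q (J q u)) (de e q (J q v)) =
        β (e q) (de e q u) (de e q v)).trans h5.symm)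
    · intro hb
      have hL : S.Lor := S.hb_lor (fun β γ hβ hγ hβc hγc hp =>
        not_pos_plane hm hΩ hb β γ hβ hγ hβc hγc hp)
      obtain ⟨α, hα, hβα⟩ := hcls hL
      refine ⟨pb1 e α, smooth_pb1 hm.emb.smooth hα, ?_⟩
      have h1 : (fun x => pb2 e β x - Ω x) = pb2 e (dOne α) := by
        apply form2_ext
        intro q u v
        rw [pb2_apply e (dOne_isForm hα).alt]
        show pb2 e β q ![u, v] - Ω q ![u, v] = _
        rw [happ, ← hm.om_eq q u v, hβα]
        show (S.om (e q) (de e q u) (de e q v) + dOne α (e q) (de e q u) (de e q v)) -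
          S.om (e q) (de e q u) (de e q v) = _
        ring
      rw [h1]
      exact isExtDeriv_pb1 hm.emb.smooth hα

end Pool.Agent.W_MP_d8b8b7_gt
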