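import Mathlib

set_option autoImplicit false

/-!
# MP_d8b8b7_gt: definitions for the statement

`M` is a smooth closed 4-manifold: a compact Hausdorff space with a smooth atlas modelled on
`E4 = EuclideanSpace ℝ (Fin 4)` (model with corners `𝓘(ℝ, E4)`, so there is no boundary).
Differential forms are fields of alternating maps on the tangent spaces of Mathlib; smoothness,
the exterior derivative and closedness are expressed in the charts of the atlas.
-/

open scoped Manifold ContDiff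

namespace Pool.Agent.W_MP_d8b8b7_gt

/-- `ℝ⁴` -/
abbrev E4 := EuclideanSpace ℝ (Fin 4)

section Forms

variable (M : Type*) [TopologicalSpace M] [ChartedSpace E4 M]

/-- a field of alternating `k`-forms on the tangent spaces of `M` -/
abbrev Form (k : ℕ) := ∀ x : M, TangentSpace 𝓘(ℝ, E4) x [⋀^Fin k]→L[ℝ] ℝ

/-- a field of endomorphisms of the tangent spaces of `M` -/
abbrev EndoField := ∀ x : M, TangentSpace 𝓘(ℝ, E4) x →L[ℝ] TangentSpace 𝓘(ℝ, E4) x

variable {M}

/-- the expression of a form in the chart at `c`: its pull-back by the inverse chart -/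
noncomputable def locForm {k : ℕ} (η : Form M k) (c : M) (y : E4) : E4 [⋀^Fin k]→L[ℝ] ℝ :=
  (η ((extChartAt 𝓘(ℝ, E4) c).symm y)).compContinuousLinearMap
    (mfderiv 𝓘(ℝ, E4) 𝓘(ℝ, E4) (extChartAt 𝓘(ℝ, E4) c).symm y)

/-- the expression of a field of endomorphisms in the chart at `c` -/
noncomputable def locEndo (J : EndoField M) (c : M) (y : E4) : E4 →L[ℝ] E4 :=
  (mfderiv 𝓘(ℝ, E4) 𝓘(ℝ, E4) (extChartAt 𝓘(ℝ, E4) c) ((extChartAt 𝓘(ℝ, E4) c).symm y)).comp
    ((J ((extChartAt 𝓘(ℝ, E4) c).symm y)).comp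
      (mfderiv 𝓘(ℝ, E4) 𝓘(ℝ, E4) (extChartAt 𝓘(ℝ, E4) c).symm y))

/-- the form is smooth in every chart -/
def SmoothForm {k : ℕ} (η : Form M k) : Prop :=
  ∀ c : M, ContDiffOn ℝ ∞ (locForm η c) (extChartAt 𝓘(ℝ, E4) c).target

/-- the field of endomorphisms is smooth in every chart -/
def SmoothEndo (J : EndoField M) : Prop :=
  ∀ c : M, ContDiffOn ℝ ∞ (locEndo J c) (extChartAt 𝓘(ℝ, E4) c).target

/-- `dη = θ` (in every chart) -/
def IsExtDeriv {k : ℕ} (η : Form M k) (θ : Form M (k + 1)) : Prop :=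
  ∀ c : M, ∀ y ∈ (extChartAt 𝓘(ℝ, E4) c).target, extDeriv (locForm η c) y = locForm θ c y

/-- `dη = 0` -/
def ClosedForm {k : ℕ} (η : Form M k) : Prop := IsExtDeriv η 0

/-- symplectic form: smooth, closed and nondegenerate -/
structure IsSymplectic (Ω : Form M 2) : Prop where
  smooth : SmoothForm Ω
  closed : ClosedForm Ω
  nondeg : ∀ (x : M) (v : TangentSpace 𝓘(ℝ, E4) x),
    (∀ w : TangentSpace 𝓘(ℝ, E4) x, Ω x ![v, w] = 0) → v = 0

/-- smooth almost complex structure -/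
structure IsAlmostComplex (J : EndoField M) : Prop where
  smooth : SmoothEndo J
  sq : ∀ (x : M) (v : TangentSpace 𝓘(ℝ, E4) x), J x (J x v) = -v

/-- `J` is `Ω`-tame -/
def Tame (Ω : Form M 2) (J : EndoField M) : Prop :=
  ∀ (x : M) (v : TangentSpace 𝓘(ℝ, E4) x), v ≠ 0 → 0 < Ω x ![v, J x v]

/-- `Ω` is compatible with `J` -/
def Compatible (Ω : Form M 2) (J : EndoField M) : Prop :=
  Tame Ω J ∧ ∀ (x : M) (u v : TangentSpace 𝓘(ℝ, E4) x), Ω x ![J x u, J x v] = Ω x ![u, v]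

/-- `[Ω'] = [Ω]` in `H²(M; ℝ)`: the difference is the exterior derivative of a smooth 1-form -/
def Cohomologous (Ω' Ω : Form M 2) : Prop :=
  ∃ σ : Form M 1, SmoothForm σ ∧ IsExtDeriv σ (fun x => Ω' x - Ω x)

/-! ### the intersection form -/

/-- the value of `α ∧ β` on the standard basis of `ℝ⁴` -/
noncomputable def wedge4 (α β : E4 [⋀^Fin 2]→L[ℝ] ℝ) : ℝ :=
  let e : Fin 4 → E4 := fun i => EuclideanSpace.single i (1 : ℝ)
  α ![e 0, e 1] * β ![e 2, e 3] - α ![e 0, e 2] * β ![e 1, e 3] + α ![e 0, e 3] * β ![e 1, e 2]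
    + α ![e 1, e 2] * β ![e 0, e 3] - α ![e 1, e 3] * β ![e 0, e 2] + α ![e 2, e 3] * β ![e 0, e 1]

/-- the function `(α ∧ β) / (Ω ∧ Ω)` on `M` -/
noncomputable def wedgeRatio (Ω α β : Form M 2) (x : M) : ℝ :=
  wedge4 (α x) (β x) / wedge4 (Ω x) (Ω x)

/-- `Λ` is integration on `M` of functions against the volume form `Ω ∧ Ω` (up to a positive constant
factor on every component of `M`): a positive linear functional on smooth functions with
`∫ dσ ∧ β = 0` for all smooth 1-forms `σ` and all smooth closed 2-forms `β`.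

These functionals kill every exact 4-form: with a partition of unity it is a sum of forms
`d (f dx₁ ∧ dx₂ ∧ dx₃)` with `f` supported in a chart, and this is `dσ ∧ β` for `σ = f dx₁` and the closed
form `β = d (χ x₂ dx₃)`, `χ = 1` on the support of `f`. As `H⁴ = ℝ` for every component of `M`, they are
exactly the positive multiples, on every component, of integration for the orientation `Ω ∧ Ω`. -/
structure IsIntegral (Ω : Form M 2) (Λ : (M → ℝ) → ℝ) : Prop where
  add : ∀ f g : M → ℝ, ContMDiff 𝓘(ℝ, E4) 𝓘(ℝ) ∞ f → ContMDiff 𝓘(ℝ, E4) 𝓘(ℝ) ∞ g →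
    Λ (f + g) = Λ f + Λ g
  smul : ∀ (c : ℝ) (f : M → ℝ), ContMDiff 𝓘(ℝ, E4) 𝓘(ℝ) ∞ f → Λ (c • f) = c * Λ f
  pos : ∀ f : M → ℝ, ContMDiff 𝓘(ℝ, E4) 𝓘(ℝ) ∞ f → (∀ x, 0 ≤ f x) → (∃ x, f x ≠ 0) → 0 < Λ f
  stokes : ∀ (σ : Form M 1) (τ β : Form M 2), SmoothForm σ → IsExtDeriv σ τ →
    SmoothForm β → ClosedForm β → Λ (wedgeRatio Ω τ β) = 0

/-- `b⁺(M) ≤ 1` for the orientation given by `Ω ∧ Ω` (for a symplectic form `Ω` on a nonempty `M` this
means `b⁺(M) = 1`): there is no 2-dimensional space of closed 2-forms on which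
`α ↦ ∫ α ∧ α` is positive definite. -/
def BPlusOne (Ω : Form M 2) : Prop :=
  ∀ Λ : (M → ℝ) → ℝ, IsIntegral Ω Λ → ¬ ∃ α β : Form M 2, SmoothForm α ∧ ClosedForm α ∧
    SmoothForm β ∧ ClosedForm β ∧ ∀ s t : ℝ, (s, t) ≠ (0, 0) →
      0 < Λ (wedgeRatio Ω (fun x => s • α x + t • β x) (fun x => s • α x + t • β x))

end Forms

/-- The answer to Q1: for every closed symplectic 4-manifold `(M, Ω)` and every `Ω`-tame `J` there is
a symplectic form compatible with `J`, in the class of `Ω` if `b⁺(M) = 1`. -/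
def MainStatement.{u} : Prop :=
  ∀ (M : Type u) [TopologicalSpace M] [ChartedSpace E4 M] [IsManifold 𝓘(ℝ, E4) ∞ M]
    [CompactSpace M] [T2Space M] (Ω : Form M 2) (J : EndoField M),
    IsSymplectic Ω → IsAlmostComplex J → Tame Ω J →
    ∃ Ω' : Form M 2, IsSymplectic Ω' ∧ Compatible Ω' J ∧ (BPlusOne Ω → Cohomologous Ω' Ω)

end Pool.Agent.W_MP_d8b8b7_gt
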