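import Pool.Agent.W_MP_d8b8b7_gt.Defs

/-!
# Linear algebra of 2-forms in a unitary frame

Everything is an explicit computation with the six components (order 01 02 03 12 13 23).  Write
`r = a 1 + a 4`, `s = a 2 - a 3`.  Then `pr1 a = (a0, r/2, s/2, -s/2, r/2, a5)`,
`evc a v = a0 (v0^2+v1^2) + a5 (v2^2+v3^2) + r (v1 v2 - v0 v3) + s (v0 v2 + v1 v3)` and
`(v1 v2 - v0 v3)^2 + (v0 v2 + v1 v3)^2 = (v0^2+v1^2)(v2^2+v3^2)`.  Hence `Pos6 a` iff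
`0 ≤ a0`, `0 ≤ a5` and `r^2 + s^2 ≤ 4 a0 a5`, and
`wedge (pr1 a) (pr1 b) = a0 b5 + a5 b0 - (r r' + s s') / 2`.
-/

namespace Pool.Agent.W_MP_d8b8b7_gt

open scoped ContDiff

set_option linter.unusedSimpArgs false

/-! components -/

theorem c6_ext {a b : C6} (h0 : a 0 = b 0) (h1 : a 1 = b 1) (h2 : a 2 = b 2) (h3 : a 3 = b 3)
    (h4 : a 4 = b 4) (h5 : a 5 = b 5) : a = b := by
  ext i
  fin_cases i
  · exact h0
  · exact h1
  · exact h2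
  · exact h3
  · exact h4
  · exact h5

theorem star6_c0 (a : C6) : star6 a 0 = a 5 := rfl
theorem star6_c1 (a : C6) : star6 a 1 = - a 4 := rfl
theorem star6_c2 (a : C6) : star6 a 2 = a 3 := rfl
theorem star6_c3 (a : C6) : star6 a 3 = a 2 := rfl
theorem star6_c4 (a : C6) : star6 a 4 = - a 1 := rfl
theorem star6_c5 (a : C6) : star6 a 5 = a 0 := rfl
theorem pr1_c0 (a : C6) : pr1 a 0 = a 0 := rfl
theorem pr1_c1 (a : C6) : pr1 a 1 = (a 1 + a 4) / 2 := rfl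
theorem pr1_c2 (a : C6) : pr1 a 2 = (a 2 - a 3) / 2 := rfl
theorem pr1_c3 (a : C6) : pr1 a 3 = (a 3 - a 2) / 2 := rfl
theorem pr1_c4 (a : C6) : pr1 a 4 = (a 1 + a 4) / 2 := rfl
theorem pr1_c5 (a : C6) : pr1 a 5 = a 5 := rfl
theorem pr2_c0 (a : C6) : pr2 a 0 = 0 := rfl
theorem pr2_c1 (a : C6) : pr2 a 1 = (a 1 - a 4) / 2 := rfl
theorem pr2_c2 (a : C6) : pr2 a 2 = (a 2 + a 3) / 2 := rfl
theorem pr2_c3 (a : C6) : pr2 a 3 = (a 2 + a 3) / 2 := rfl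
theorem pr2_c4 (a : C6) : pr2 a 4 = (a 4 - a 1) / 2 := rfl
theorem pr2_c5 (a : C6) : pr2 a 5 = 0 := rfl
theorem Fc_c0 : Fc 0 = 1 := rfl
theorem Fc_c1 : Fc 1 = 0 := rfl
theorem Fc_c2 : Fc 2 = 0 := rfl
theorem Fc_c3 : Fc 3 = 0 := rfl
theorem Fc_c4 : Fc 4 = 0 := rfl
theorem Fc_c5 : Fc 5 = 1 := rfl
theorem c6_add (a b : C6) (i : Fin 6) : (a + b) i = a i + b i := rfl
theorem c6_smul (t : ℝ) (a : C6) (i : Fin 6) : (t • a) i = t * a i := rfl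
theorem c6_zero (i : Fin 6) : (0 : C6) i = 0 := rfl

theorem c6_norm_sq (a : C6) :
    ‖a‖ ^ 2 = a 0 ^ 2 + a 1 ^ 2 + a 2 ^ 2 + a 3 ^ 2 + a 4 ^ 2 + a 5 ^ 2 := by
  rw [EuclideanSpace.real_norm_sq_eq, Fin.sum_univ_six]

theorem c6_inner (a b : C6) :
    inner ℝ a b = a 0 * b 0 + a 1 * b 1 + a 2 * b 2 + a 3 * b 3 + a 4 * b 4 + a 5 * b 5 := by
  rw [PiLp.inner_apply, Fin.sum_univ_six]
  simp only [RCLike.inner_apply, conj_trivial]
  ring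

theorem wedge_comm (a b : C6) : wedge a b = wedge b a := by
  simp only [wedge]
  ring

theorem wedge_add_left (a b c : C6) : wedge (a + b) c = wedge a c + wedge b c := by
  simp only [wedge, c6_add]
  ring

theorem wedge_add_right (a b c : C6) : wedge a (b + c) = wedge a b + wedge a c := by
  simp only [wedge, c6_add]
  ring

theorem wedge_smul_left (t : ℝ) (a b : C6) : wedge (t • a) b = t * wedge a b := by
  simp only [wedge, c6_smul]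
  ring

theorem wedge_smul_right (t : ℝ) (a b : C6) : wedge a (t • b) = t * wedge a b := by
  simp only [wedge, c6_smul]
  ring

theorem wedge_star (a b : C6) : wedge a (star6 b) = inner ℝ a b := by
  rw [c6_inner]
  simp only [wedge, star6_c0, star6_c1, star6_c2, star6_c3, star6_c4, star6_c5]
  ring

theorem star6_star6 (a : C6) : star6 (star6 a) = a := by
  apply c6_ext <;> simp only [star6_c0, star6_c1, star6_c2, star6_c3, star6_c4, star6_c5, neg_neg]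

theorem norm_star6 (a : C6) : ‖star6 a‖ = ‖a‖ := by
  have h : ‖star6 a‖ ^ 2 = ‖a‖ ^ 2 := by
    rw [c6_norm_sq, c6_norm_sq]
    simp only [star6_c0, star6_c1, star6_c2, star6_c3, star6_c4, star6_c5]
    ring
  exact (sq_eq_sq₀ (norm_nonneg _) (norm_nonneg _)).1 h

theorem abs_wedge_le (a b : C6) : |wedge a b| ≤ ‖a‖ * ‖b‖ := by
  have h : wedge a b = inner ℝ a (star6 b) := by
    rw [← wedge_star, star6_star6]
  rw [h]
  refine (abs_real_inner_le_norm _ _).trans ?_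
  rw [norm_star6]

theorem star6_linear (s t : ℝ) (a b : C6) : star6 (s • a + t • b) = s • star6 a + t • star6 b := by
  apply c6_ext <;> simp only [star6_c0, star6_c1, star6_c2, star6_c3, star6_c4, star6_c5, c6_add, c6_smul, c6_zero] <;> ring

theorem pr1_linear (s t : ℝ) (a b : C6) : pr1 (s • a + t • b) = s • pr1 a + t • pr1 b := by
  apply c6_ext <;> simp only [pr1_c0, pr1_c1, pr1_c2, pr1_c3, pr1_c4, pr1_c5, c6_add, c6_smul, c6_zero] <;> ring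

theorem pr2_linear (s t : ℝ) (a b : C6) : pr2 (s • a + t • b) = s • pr2 a + t • pr2 b := by
  apply c6_ext <;> simp only [pr2_c0, pr2_c1, pr2_c2, pr2_c3, pr2_c4, pr2_c5, c6_add, c6_smul, c6_zero] <;> ring

theorem pr1_add_pr2 (a : C6) : pr1 a + pr2 a = a := by
  apply c6_ext <;> simp only [pr1_c0, pr1_c1, pr1_c2, pr1_c3, pr1_c4, pr1_c5, pr2_c0, pr2_c1, pr2_c2, pr2_c3, pr2_c4, pr2_c5, c6_add, c6_smul, c6_zero] <;> ring

theorem pr1_pr1 (a : C6) : pr1 (pr1 a) = pr1 a := by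
  apply c6_ext <;> simp only [pr1_c0, pr1_c1, pr1_c2, pr1_c3, pr1_c4, pr1_c5] <;> ring

theorem pr2_pr2 (a : C6) : pr2 (pr2 a) = pr2 a := by
  apply c6_ext <;> simp only [pr2_c0, pr2_c1, pr2_c2, pr2_c3, pr2_c4, pr2_c5] <;> ring

theorem pr1_pr2 (a : C6) : pr1 (pr2 a) = 0 := by
  apply c6_ext <;> simp only [pr1_c0, pr1_c1, pr1_c2, pr1_c3, pr1_c4, pr1_c5, pr2_c0, pr2_c1, pr2_c2, pr2_c3, pr2_c4, pr2_c5, c6_add, c6_smul, c6_zero] <;> ring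

theorem pr2_pr1 (a : C6) : pr2 (pr1 a) = 0 := by
  apply c6_ext <;> simp only [pr1_c0, pr1_c1, pr1_c2, pr1_c3, pr1_c4, pr1_c5, pr2_c0, pr2_c1, pr2_c2, pr2_c3, pr2_c4, pr2_c5, c6_add, c6_smul, c6_zero] <;> ring

theorem norm_sq_split (a : C6) : ‖a‖ ^ 2 = ‖pr1 a‖ ^ 2 + ‖pr2 a‖ ^ 2 := by
  rw [c6_norm_sq, c6_norm_sq, c6_norm_sq]
  simp only [pr1_c0, pr1_c1, pr1_c2, pr1_c3, pr1_c4, pr1_c5, pr2_c0, pr2_c1, pr2_c2, pr2_c3, pr2_c4, pr2_c5]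
  ring

theorem norm_pr1_le (a : C6) : ‖pr1 a‖ ≤ ‖a‖ := by
  have h := norm_sq_split a
  have h1 : ‖pr1 a‖ ^ 2 ≤ ‖a‖ ^ 2 := by
    have := sq_nonneg ‖pr2 a‖
    linarith
  exact (sq_le_sq₀ (norm_nonneg _) (norm_nonneg _)).1 h1

theorem norm_pr2_le (a : C6) : ‖pr2 a‖ ≤ ‖a‖ := by
  have h := norm_sq_split a
  have h1 : ‖pr2 a‖ ^ 2 ≤ ‖a‖ ^ 2 := by
    have := sq_nonneg ‖pr1 a‖
    linarith
  exact (sq_le_sq₀ (norm_nonneg _) (norm_nonneg _)).1 h1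

theorem wedge_pr1_pr2 (a b : C6) : wedge (pr1 a) (pr2 b) = 0 := by
  simp only [wedge, pr1_c0, pr1_c1, pr1_c2, pr1_c3, pr1_c4, pr1_c5, pr2_c0, pr2_c1, pr2_c2, pr2_c3, pr2_c4, pr2_c5]
  ring

theorem wedge_split (a b : C6) : wedge a b = wedge (pr1 a) (pr1 b) + wedge (pr2 a) (pr2 b) := by
  simp only [wedge, pr1_c0, pr1_c1, pr1_c2, pr1_c3, pr1_c4, pr1_c5, pr2_c0, pr2_c1, pr2_c2, pr2_c3, pr2_c4, pr2_c5]
  ring

theorem wedge_pr2_self (a : C6) : wedge (pr2 a) (pr2 a) = ‖pr2 a‖ ^ 2 := by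
  rw [c6_norm_sq]
  simp only [wedge, pr2_c0, pr2_c1, pr2_c2, pr2_c3, pr2_c4, pr2_c5]
  ring

theorem wedge_pr2_left (a b : C6) : wedge (pr2 a) b = wedge (pr2 a) (pr2 b) := by
  simp only [wedge, pr2_c0, pr2_c1, pr2_c2, pr2_c3, pr2_c4, pr2_c5]
  ring

theorem wedge_Fc (a : C6) : wedge a Fc = a 0 + a 5 := by
  simp only [wedge, Fc_c0, Fc_c1, Fc_c2, Fc_c3, Fc_c4, Fc_c5]
  ring

theorem wedge_Fc_Fc : wedge Fc Fc = 2 := by
  rw [wedge_Fc]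
  simp only [Fc_c0, Fc_c1, Fc_c2, Fc_c3, Fc_c4, Fc_c5]
  norm_num

theorem norm_Fc_sq : ‖Fc‖ ^ 2 = 2 := by
  rw [c6_norm_sq]
  simp only [Fc_c0, Fc_c1, Fc_c2, Fc_c3, Fc_c4, Fc_c5]
  norm_num

theorem pr1_Fc : pr1 Fc = Fc := by
  apply c6_ext <;> simp only [pr1_c0, pr1_c1, pr1_c2, pr1_c3, pr1_c4, pr1_c5, Fc_c0, Fc_c1, Fc_c2, Fc_c3, Fc_c4, Fc_c5] <;> norm_num

theorem pr2_Fc : pr2 Fc = 0 := by
  apply c6_ext <;> simp only [pr2_c0, pr2_c1, pr2_c2, pr2_c3, pr2_c4, pr2_c5, Fc_c0, Fc_c1, Fc_c2, Fc_c3, Fc_c4, Fc_c5, c6_zero] <;> norm_num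

/-- the self-dual part is the anti-invariant part plus the F-component -/
theorem half_add_star (a : C6) :
    (1 / 2 : ℝ) • (a + star6 a) = pr2 a + (wedge a Fc / 2) • Fc := by
  rw [wedge_Fc]
  apply c6_ext <;> simp only [star6_c0, star6_c1, star6_c2, star6_c3, star6_c4, star6_c5, pr2_c0, pr2_c1, pr2_c2, pr2_c3, pr2_c4, pr2_c5, Fc_c0, Fc_c1, Fc_c2, Fc_c3, Fc_c4, Fc_c5, c6_add, c6_smul, c6_zero] <;> ring

end Pool.Agent.W_MP_d8b8b7_gt
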