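import Pool.Agent.W_MP_d8b8b7_gt.Alg

/-!
# Linear algebra of 2-forms in a unitary frame

Everything is an explicit computation with the six components (order 01 02 03 12 13 23).  Write
`r = a 1 + a 4`, `s = a 2 - a 3`.  Then `pr1 a = (a0, r/2, s/2, -s/2, r/2, a5)`,
`evc a v = a0 (v0^2+v1^2) + a5 (v2^2+v3^2) + r (v1 v2 - v0 v3) + s (v0 v2 + v1 v3)` and
`(v1 v2 - v0 v3)^2 + (v0 v2 + v1 v3)^2 = (v0^2+v1^2)(v2^2+v3^2)`.  Hence `Pos6 a` iff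
`0 ≤ a0`, `0 ≤ a5` and `r^2 + s^2 ≤ 4 a0 a5`, and
`wedge (pr1 a) (pr1 b) = a0 b5 + a5 b0 - (r r' + s s') / 2`.
-/

namespace Pool.Agent.W_MP_d8b8b7_gt

open scoped ContDiff

theorem algPos_norm_sq4 (v : EN 4) : ‖v‖ ^ 2 = v 0 ^ 2 + v 1 ^ 2 + v 2 ^ 2 + v 3 ^ 2 := by
  rw [EuclideanSpace.real_norm_sq_eq, Fin.sum_univ_four]

theorem algPos_norm_sq6 (a : C6) :
    ‖a‖ ^ 2 = a 0 ^ 2 + a 1 ^ 2 + a 2 ^ 2 + a 3 ^ 2 + a 4 ^ 2 + a 5 ^ 2 := by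
  rw [EuclideanSpace.real_norm_sq_eq, Fin.sum_univ_six]

theorem evc_add (a b : C6) (v : EN 4) : evc (a + b) v = evc a v + evc b v := by
  simp only [evc, PiLp.add_apply]
  ring

theorem evc_smul (t : ℝ) (a : C6) (v : EN 4) : evc (t • a) v = t * evc a v := by
  simp only [evc, PiLp.smul_apply, smul_eq_mul]
  ring

theorem algPos_pr1 (a : C6) : pr1 a 0 = a 0 ∧ pr1 a 1 = (a 1 + a 4) / 2 ∧
    pr1 a 2 = (a 2 - a 3) / 2 ∧ pr1 a 3 = (a 3 - a 2) / 2 ∧ pr1 a 4 = (a 1 + a 4) / 2 ∧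
    pr1 a 5 = a 5 := by
  simp [pr1]

theorem algPos_pr2 (a : C6) : pr2 a 0 = 0 ∧ pr2 a 1 = (a 1 - a 4) / 2 ∧
    pr2 a 2 = (a 2 + a 3) / 2 ∧ pr2 a 3 = (a 2 + a 3) / 2 ∧ pr2 a 4 = (a 4 - a 1) / 2 ∧
    pr2 a 5 = 0 := by
  simp [pr2]

theorem evc_pr1 (a : C6) (v : EN 4) : evc (pr1 a) v = evc a v := by
  obtain ⟨h0, h1, h2, h3, h4, h5⟩ := algPos_pr1 a
  simp only [evc, h0, h1, h2, h3, h4, h5]
  ring

theorem evc_pr2 (a : C6) (v : EN 4) : evc (pr2 a) v = 0 := by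
  obtain ⟨h0, h1, h2, h3, h4, h5⟩ := algPos_pr2 a
  simp only [evc, h0, h1, h2, h3, h4, h5]
  ring

theorem evc_Fc (v : EN 4) : evc Fc v = ‖v‖ ^ 2 := by
  rw [algPos_norm_sq4]
  simp [evc, Fc]
  ring

/-- rank one positive form dual to v -/
noncomputable def sgv (v : EN 4) : C6 :=
  !₂[v 2 ^ 2 + v 3 ^ 2, v 0 * v 3 - v 1 * v 2, -(v 0 * v 2 + v 1 * v 3), v 0 * v 2 + v 1 * v 3,
    v 0 * v 3 - v 1 * v 2, v 0 ^ 2 + v 1 ^ 2]

theorem wedge_sgv (a : C6) (v : EN 4) : wedge a (sgv v) = evc a v := by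
  simp [wedge, sgv, evc]
  ring

theorem norm_sgv (v : EN 4) : ‖sgv v‖ = ‖v‖ ^ 2 := by
  have h : ‖sgv v‖ ^ 2 = (‖v‖ ^ 2) ^ 2 := by
    rw [algPos_norm_sq6, algPos_norm_sq4]
    simp [sgv]
    ring
  exact (sq_eq_sq₀ (norm_nonneg _) (by positivity)).1 h

theorem abs_evc_le (a : C6) (v : EN 4) : |evc a v| ≤ ‖a‖ * ‖v‖ ^ 2 := by
  rw [← wedge_sgv, ← norm_sgv]
  exact abs_wedge_le a (sgv v)

theorem continuous_evc (a : C6) : Continuous (evc a) := by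
  unfold evc
  fun_prop

theorem pos6_iff (a : C6) :
    Pos6 a ↔ 0 ≤ a 0 ∧ 0 ≤ a 5 ∧ (a 1 + a 4) ^ 2 + (a 2 - a 3) ^ 2 ≤ 4 * a 0 * a 5 := by
  constructor
  · intro h
    have h0 := h !₂[1, 0, 0, 0]
    have h5 := h !₂[0, 0, 1, 0]
    simp [evc] at h0 h5
    refine ⟨h0, h5, ?_⟩
    set r := a 1 + a 4 with hr
    set s := a 2 - a 3 with hs
    set ρ := r ^ 2 + s ^ 2 with hρ
    have hρ0 : 0 ≤ ρ := by positivity
    have h1 : ∀ t : ℝ, 0 ≤ a 0 * (t * t) + (-ρ) * t + a 5 * ρ := by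
      intro t
      have h2 := h !₂[t, 0, -s, r]
      have h3 : evc a !₂[t, 0, -s, r] = a 0 * (t * t) + (-ρ) * t + a 5 * ρ := by
        simp [evc, hρ, ← hr, ← hs]
        ring
      rw [h3] at h2
      exact h2
    have h4 := discrim_le_zero h1
    unfold discrim at h4
    rcases eq_or_lt_of_le hρ0 with h6 | h6
    · rw [← h6]
      positivity
    · have h7 : ρ * ρ ≤ ρ * (4 * a 0 * a 5) := by nlinarith
      exact le_of_mul_le_mul_left h7 h6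
  · rintro ⟨h0, h5, h⟩ v
    set r := a 1 + a 4 with hr
    set s := a 2 - a 3 with hs
    have h1 : evc a v = (a 0 * (v 0 ^ 2 + v 1 ^ 2) + a 5 * (v 2 ^ 2 + v 3 ^ 2)) +
        (r * (v 1 * v 2 - v 0 * v 3) + s * (v 0 * v 2 + v 1 * v 3)) := by
      simp only [evc, ← hr, ← hs]
      ring
    have h2 : (r * (v 1 * v 2 - v 0 * v 3) + s * (v 0 * v 2 + v 1 * v 3)) ^ 2 ≤
        (a 0 * (v 0 ^ 2 + v 1 ^ 2) + a 5 * (v 2 ^ 2 + v 3 ^ 2)) ^ 2 := by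
      have h3 : (r * (v 1 * v 2 - v 0 * v 3) + s * (v 0 * v 2 + v 1 * v 3)) ^ 2 ≤
          (r ^ 2 + s ^ 2) * ((v 0 ^ 2 + v 1 ^ 2) * (v 2 ^ 2 + v 3 ^ 2)) := by
        nlinarith [sq_nonneg (r * (v 0 * v 2 + v 1 * v 3) - s * (v 1 * v 2 - v 0 * v 3))]
      have h4 : (r ^ 2 + s ^ 2) * ((v 0 ^ 2 + v 1 ^ 2) * (v 2 ^ 2 + v 3 ^ 2)) ≤
          (4 * a 0 * a 5) * ((v 0 ^ 2 + v 1 ^ 2) * (v 2 ^ 2 + v 3 ^ 2)) := by
        gcongr
      have h5' : (4 * a 0 * a 5) * ((v 0 ^ 2 + v 1 ^ 2) * (v 2 ^ 2 + v 3 ^ 2)) ≤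
          (a 0 * (v 0 ^ 2 + v 1 ^ 2) + a 5 * (v 2 ^ 2 + v 3 ^ 2)) ^ 2 := by
        nlinarith [sq_nonneg (a 0 * (v 0 ^ 2 + v 1 ^ 2) - a 5 * (v 2 ^ 2 + v 3 ^ 2))]
      linarith
    have h6 : 0 ≤ a 0 * (v 0 ^ 2 + v 1 ^ 2) + a 5 * (v 2 ^ 2 + v 3 ^ 2) := by positivity
    have h7 := abs_le_of_sq_le_sq h2 h6
    rw [h1]
    have := (abs_le.1 h7).1
    linarith

theorem Pos6.add {a b : C6} (ha : Pos6 a) (hb : Pos6 b) : Pos6 (a + b) := by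
  intro v
  rw [evc_add]
  exact add_nonneg (ha v) (hb v)

theorem Pos6.smul {a : C6} (ha : Pos6 a) {t : ℝ} (ht : 0 ≤ t) : Pos6 (t • a) := by
  intro v
  rw [evc_smul]
  exact mul_nonneg ht (ha v)

theorem pos6_Fc : Pos6 Fc := by
  intro v
  rw [evc_Fc]
  positivity

theorem algPos_sq_le {r s r' s' A B : ℝ} (hA : r ^ 2 + s ^ 2 ≤ A) (hB : r' ^ 2 + s' ^ 2 ≤ B) :
    (r * r' + s * s') ^ 2 ≤ A * B := by
  have h1 : (r * r' + s * s') ^ 2 ≤ (r ^ 2 + s ^ 2) * (r' ^ 2 + s' ^ 2) := by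
    nlinarith [sq_nonneg (r * s' - s * r')]
  have h2 : (r ^ 2 + s ^ 2) * (r' ^ 2 + s' ^ 2) ≤ A * B := by
    have : 0 ≤ r ^ 2 + s ^ 2 := by positivity
    have : 0 ≤ r' ^ 2 + s' ^ 2 := by positivity
    gcongr
    linarith
  linarith

theorem Pos6.wedge_nonneg {a b : C6} (ha : Pos6 a) (hb : Pos6 b) :
    0 ≤ wedge (pr1 a) (pr1 b) := by
  obtain ⟨a0, a5, har⟩ := (pos6_iff a).1 ha
  obtain ⟨b0, b5, hbr⟩ := (pos6_iff b).1 hb
  have h1 : wedge (pr1 a) (pr1 b) = a 0 * b 5 + a 5 * b 0 -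
      ((a 1 + a 4) * (b 1 + b 4) + (a 2 - a 3) * (b 2 - b 3)) / 2 := by
    simp [wedge, pr1]
    ring
  have h2 := algPos_sq_le har hbr
  have h3 : ((a 1 + a 4) * (b 1 + b 4) + (a 2 - a 3) * (b 2 - b 3)) ^ 2 ≤
      (2 * (a 0 * b 5 + a 5 * b 0)) ^ 2 := by
    nlinarith [sq_nonneg (a 0 * b 5 - a 5 * b 0)]
  have h4 := abs_le_of_sq_le_sq h3 (by positivity)
  rw [h1]
  linarith [(abs_le.1 h4).2]

theorem Pos6.norm_pr1_le {a : C6} (ha : Pos6 a) : ‖pr1 a‖ ≤ wedge a Fc := by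
  obtain ⟨a0, a5, har⟩ := (pos6_iff a).1 ha
  rw [wedge_Fc]
  have h1 : ‖pr1 a‖ ^ 2 ≤ (a 0 + a 5) ^ 2 := by
    rw [algPos_norm_sq6]
    simp [pr1]
    nlinarith
  exact (pow_le_pow_iff_left₀ (norm_nonneg _) (by positivity) (by norm_num)).1 h1

/-- the form is bounded by its trace: a ≤ (trace a) F -/
theorem Pos6.le_trace {a : C6} (ha : Pos6 a) : Pos6 (wedge a Fc • Fc - a) := by
  obtain ⟨a0, a5, har⟩ := (pos6_iff a).1 ha
  rw [pos6_iff, wedge_Fc]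
  simp [Fc]
  refine ⟨a5, a0, ?_⟩
  nlinarith

/-- every component vector becomes positive after adding ‖a‖ Fc -/
theorem pos6_add_norm (a : C6) : Pos6 (a + ‖a‖ • Fc) := by
  intro v
  rw [evc_add, evc_smul, evc_Fc]
  linarith [(abs_le.1 (abs_evc_le a v)).1]

theorem pos6_sgv (v : EN 4) : Pos6 (sgv v) := by
  rw [pos6_iff]
  simp [sgv]
  refine ⟨by positivity, by positivity, ?_⟩
  nlinarith

theorem pr1_sgv (v : EN 4) : pr1 (sgv v) = sgv v := by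
  ext i
  fin_cases i <;> simp [pr1, sgv] <;> ring

/-- positivity can be tested on a dense set of vectors -/
theorem pos6_of_dense {s : Set (EN 4)} (hs : Dense s) {a : C6} (h : ∀ v ∈ s, 0 ≤ evc a v) :
    Pos6 a := by
  intro v
  have hcl : IsClosed {v : EN 4 | 0 ≤ evc a v} := isClosed_le continuous_const (continuous_evc a)
  have h1 : closure s ⊆ {v : EN 4 | 0 ≤ evc a v} := closure_minimal h hcl
  exact h1 (hs v)

/-- polarisation: h(u,w) = the symmetric J-invariant form attached to a; Cauchy-Schwarz.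
`polc a u w` is the value of the (1,1)-form with components a on the pair `(u, J w)`. -/
noncomputable def polc (a : C6) (u w : EN 4) : ℝ :=
  a 0 * (u 0 * w 0 + u 1 * w 1) + a 5 * (u 2 * w 2 + u 3 * w 3)
    + (a 1 + a 4) / 2 * (u 1 * w 2 + u 2 * w 1 - u 0 * w 3 - u 3 * w 0)
    + (a 2 - a 3) / 2 * (u 0 * w 2 + u 2 * w 0 + u 1 * w 3 + u 3 * w 1)

theorem polc_self (a : C6) (u : EN 4) : polc a u u = evc a u := by
  simp only [polc, evc]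
  ring

theorem polc_sq_le {a : C6} (ha : Pos6 a) (u w : EN 4) :
    polc a u w ^ 2 ≤ evc a u * evc a w := by
  have h1 : ∀ t : ℝ, 0 ≤ evc a w * (t * t) + (2 * polc a u w) * t + evc a u := by
    intro t
    have h2 := ha (u + t • w)
    have h3 : evc a (u + t • w) = evc a w * (t * t) + (2 * polc a u w) * t + evc a u := by
      simp only [evc, polc, PiLp.add_apply, PiLp.smul_apply, smul_eq_mul]
      ring
    rw [h3] at h2
    exact h2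
  have h4 := discrim_le_zero h1
  unfold discrim at h4
  nlinarith

end Pool.Agent.W_MP_d8b8b7_gt
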