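import Pool.Agent.W_MP_d8b8b7_gt.Currents

/-!
d ∘ d = 0 and linearity of d.
-/

namespace Pool.Agent.W_MP_d8b8b7_gt

open MeasureTheory Set Filter Topology
open scoped ContDiff ENNReal

section abstract_dd

variable {E F : Type*} [NormedAddCommGroup E] [NormedSpace ℝ E] [NormedAddCommGroup F]
  [NormedSpace ℝ F]

theorem hb_fderiv_clm_abs {E G H : Type*} [NormedAddCommGroup E] [NormedSpace ℝ E]
    [NormedAddCommGroup G] [NormedSpace ℝ G] [NormedAddCommGroup H] [NormedSpace ℝ H]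
    (L : G →L[ℝ] H) {f : E → G} {x : E} (hf : DifferentiableAt ℝ f x) (u : E) :
    fderiv ℝ (fun x => L (f x)) x u = L (fderiv ℝ f x u) := by
  have h := (L.hasFDerivAt.comp x hf.hasFDerivAt).fderiv
  have h2 : fderiv ℝ (fun x => L (f x)) x = L.comp (fderiv ℝ f x) := h
  rw [h2]
  rfl

theorem hb_differentiableAt_clm_abs {E G H : Type*} [NormedAddCommGroup E] [NormedSpace ℝ E]
    [NormedAddCommGroup G] [NormedSpace ℝ G] [NormedAddCommGroup H] [NormedSpace ℝ H]
    (L : G →L[ℝ] H) {f : E → G} {x : E} (hf : DifferentiableAt ℝ f x) :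
    DifferentiableAt ℝ (fun x => L (f x)) x :=
  (L.hasFDerivAt.comp x hf.hasFDerivAt).differentiableAt

theorem hb_fderiv_sub_abs {E G : Type*} [NormedAddCommGroup E] [NormedSpace ℝ E]
    [NormedAddCommGroup G] [NormedSpace ℝ G] {f g : E → G} {x : E} (hf : DifferentiableAt ℝ f x)
    (hg : DifferentiableAt ℝ g x) (u : E) :
    fderiv ℝ (fun x => f x - g x) x u = fderiv ℝ f x u - fderiv ℝ g x u := by
  have h : fderiv ℝ (fun x => f x - g x) x = fderiv ℝ f x - fderiv ℝ g x :=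
    (hf.hasFDerivAt.sub hg.hasFDerivAt).fderiv
  rw [h]
  rfl

/-- flip as a continuous linear map -/
noncomputable def hb_flipL (E F : Type*) [NormedAddCommGroup E] [NormedSpace ℝ E]
    [NormedAddCommGroup F] [NormedSpace ℝ F] :
    (E →L[ℝ] E →L[ℝ] F) →L[ℝ] (E →L[ℝ] E →L[ℝ] F) :=
  ((ContinuousLinearMap.flipₗᵢ ℝ E E F).toContinuousLinearEquiv : _ →L[ℝ] _)

theorem hb_fderiv_flip_abs {g : E → (E →L[ℝ] E →L[ℝ] F)} {x : E} (hg : DifferentiableAt ℝ g x)
    (u v w : E) : fderiv ℝ (fun x => (g x).flip) x u v w = fderiv ℝ g x u w v := by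
  have h := hb_fderiv_clm_abs (G := E →L[ℝ] E →L[ℝ] F) (H := E →L[ℝ] E →L[ℝ] F) (hb_flipL E F) hg u
  have h2 : fderiv ℝ (fun x => (g x).flip) x u = hb_flipL E F (fderiv ℝ g x u) := h
  rw [h2]
  rfl

theorem hb_fderiv_sub_flip {α : E → (E →L[ℝ] F)} (hα : ContDiff ℝ ∞ α) (x u v w : E) :
    fderiv ℝ (fun x => fderiv ℝ α x - (fderiv ℝ α x).flip) x u v w =
      fderiv ℝ (fderiv ℝ α) x u v w - fderiv ℝ (fderiv ℝ α) x u w v := by
  have h1 : ContDiff ℝ ∞ (fderiv ℝ α) := hα.fderiv_right (m := ∞) (by simp)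
  have h1d : DifferentiableAt ℝ (fderiv ℝ α) x := (h1.differentiable (by simp)) x
  have h2d : DifferentiableAt ℝ (fun x => (fderiv ℝ α x).flip) x :=
    hb_differentiableAt_clm_abs (G := E →L[ℝ] E →L[ℝ] F) (H := E →L[ℝ] E →L[ℝ] F) (hb_flipL E F) h1d
  have h3 := hb_fderiv_sub_abs (G := E →L[ℝ] E →L[ℝ] F) h1d h2d u
  rw [h3]
  show fderiv ℝ (fderiv ℝ α) x u v w - fderiv ℝ (fun x => (fderiv ℝ α x).flip) x u v w = _
  rw [hb_fderiv_flip_abs h1d]

theorem hb_dd_abstract {α : E → (E →L[ℝ] F)} (hα : ContDiff ℝ ∞ α) (x u v w : E) :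
    fderiv ℝ (fun x => fderiv ℝ α x - (fderiv ℝ α x).flip) x u v w
    - fderiv ℝ (fun x => fderiv ℝ α x - (fderiv ℝ α x).flip) x v u w
    + fderiv ℝ (fun x => fderiv ℝ α x - (fderiv ℝ α x).flip) x w u v = 0 := by
  rw [hb_fderiv_sub_flip hα, hb_fderiv_sub_flip hα, hb_fderiv_sub_flip hα]
  have hsym : ∀ a b, fderiv ℝ (fderiv ℝ α) x a b = fderiv ℝ (fderiv ℝ α) x b a := by
    intro a b
    have : IsSymmSndFDerivAt ℝ α x := (hα.contDiffAt).isSymmSndFDerivAt (by
      simp only [minSmoothness_of_isRCLikeNormedField]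
      exact ENat.LEInfty.out)
    exact this a b
  rw [hsym v u, hsym w u, hsym w v]
  abel

end abstract_dd

variable {N : ℕ}

theorem hb_dTwo_dOne {α : EN N → Cov N} (hα : IsOne α) (x u v w : EN N) :
    dTwo (dOne α) x u v w = 0 := hb_dd_abstract hα x u v w

theorem hb_dOne_closed (G : Geom N) {α : EN N → Cov N} (hα : IsOne α) : G.Closed (dOne α) :=
  fun x _ u v w _ _ _ => hb_dTwo_dOne hα x u v w

section abstract_lin

variable {E F : Type*} [NormedAddCommGroup E] [NormedSpace ℝ E] [NormedAddCommGroup F]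
  [NormedSpace ℝ F]

theorem hb_fderiv_add_abs {f g : E → F} (hf : ContDiff ℝ ∞ f) (hg : ContDiff ℝ ∞ g) (x : E) :
    fderiv ℝ (f + g) x = fderiv ℝ f x + fderiv ℝ g x :=
  fderiv_add ((hf.differentiable (by simp)) x) ((hg.differentiable (by simp)) x)

theorem hb_fderiv_zero_abs (x : E) : fderiv ℝ (0 : E → F) x = 0 := fderiv_const_apply (0 : F)

theorem hb_fderiv_smul_abs {f : E → F} (c : ℝ) (hf : ContDiff ℝ ∞ f) (x : E) :
    fderiv ℝ (c • f) x = c • fderiv ℝ f x :=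
  fderiv_const_smul ((hf.differentiable (by simp)) x) c

end abstract_lin

theorem hb_dTwo_add {β γ : EN N → Bil N} (hβ : ContDiff ℝ ∞ β) (hγ : ContDiff ℝ ∞ γ) (x u v w : EN N) :
    dTwo (β + γ) x u v w = dTwo β x u v w + dTwo γ x u v w := by
  unfold dTwo
  rw [hb_fderiv_add_abs hβ hγ]
  simp only [add_apply, Bil.add_apply]
  ring

theorem hb_dTwo_smul {β : EN N → Bil N} (c : ℝ) (hβ : ContDiff ℝ ∞ β) (x u v w : EN N) :
    dTwo (c • β) x u v w = c * dTwo β x u v w := by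
  unfold dTwo
  rw [hb_fderiv_smul_abs c hβ]
  simp only [smul_apply, Bil.smul_apply]
  ring

theorem hb_dOne_add {α γ : EN N → Cov N} (hα : IsOne α) (hγ : IsOne γ) :
    dOne (α + γ) = dOne α + dOne γ := by
  funext x
  ext u v
  simp only [Pi.add_apply, dOne_apply, Bil.add_apply]
  rw [hb_fderiv_add_abs hα hγ]
  simp only [add_apply]
  ring

theorem hb_dOne_smul {α : EN N → Cov N} (c : ℝ) (hα : IsOne α) : dOne (c • α) = c • dOne α := by
  funext x
  ext u v
  simp only [Pi.smul_apply, dOne_apply, Bil.smul_apply]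
  rw [hb_fderiv_smul_abs c hα]
  simp only [smul_apply, smul_eq_mul]
  ring

theorem Geom.Closed.add {G : Geom N} {β γ : EN N → Bil N} (hβ : IsForm β) (hγ : IsForm γ)
    (h : G.Closed β) (h' : G.Closed γ) : G.Closed (β + γ) := by
  intro x hx u v w hu hv hw
  rw [hb_dTwo_add hβ.smooth hγ.smooth, h x hx u v w hu hv hw, h' x hx u v w hu hv hw, add_zero]

theorem Geom.Closed.smul {G : Geom N} {β : EN N → Bil N} (c : ℝ) (hβ : IsForm β)
    (h : G.Closed β) : G.Closed (c • β) := by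
  intro x hx u v w hu hv hw
  rw [hb_dTwo_smul c hβ.smooth, h x hx u v w hu hv hw, mul_zero]

theorem Geom.closed_zero {G : Geom N} : G.Closed (0 : EN N → Bil N) := by
  intro x hx u v w hu hv hw
  have h : fderiv ℝ (0 : EN N → Bil N) x = 0 := hb_fderiv_zero_abs (F := Bil N) x
  unfold dTwo
  rw [h]
  simp

/-- the submodule of closed forms -/
def hb_ClosedForms (G : Geom N) : Submodule ℝ (EN N → Bil N) where
  carrier := {β | IsForm β ∧ G.Closed β}
  zero_mem' := ⟨isForm_zero, Geom.closed_zero⟩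
  add_mem' := fun h h' => ⟨h.1.add h'.1, Geom.Closed.add h.1 h'.1 h.2 h'.2⟩
  smul_mem' := fun c _ h => ⟨h.1.smul c, Geom.Closed.smul c h.1 h.2⟩

/-- the submodule of exact forms -/
def hb_ExactForms (N : ℕ) : Submodule ℝ (EN N → Bil N) where
  carrier := {β | ∃ α, IsOne α ∧ β = dOne α}
  zero_mem' := ⟨0, contDiff_const, by
    funext x
    ext u v
    simp only [dOne_apply]
    rw [hb_fderiv_zero_abs]
    simp⟩
  add_mem' := by
    rintro _ _ ⟨α, h, rfl⟩ ⟨γ, h', rfl⟩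
    exact ⟨α + γ, h.add h', (hb_dOne_add h h').symm⟩
  smul_mem' := by
    rintro c _ ⟨α, h, rfl⟩
    exact ⟨c • α, contDiff_const_smul' c h, (hb_dOne_smul c h).symm⟩

theorem hb_exact_le_closed (G : Geom N) : hb_ExactForms N ≤ hb_ClosedForms G := by
  rintro _ ⟨α, h, rfl⟩
  exact ⟨dOne_isForm h, hb_dOne_closed G h⟩

end Pool.Agent.W_MP_d8b8b7_gt
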