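import Pool.Agent.W_MP_d8b8b7_gt.Basic
import Pool.Agent.W_MP_d8b8b7_gt.DD

/-!
Smoothness of the anti-invariant part, the C^k seminorm.
-/

namespace Pool.Agent.W_MP_d8b8b7_gt

open MeasureTheory Set Filter Topology
open scoped ContDiff ENNReal

variable {N : ℕ}

namespace Geom

variable (G : Geom N)

theorem hb_contDiff_D : ContDiff ℝ ∞ G.D := G.smooth_rho.fderiv_right (m := ∞) (by simp)

theorem hb_contDiff_anti {β : EN N → Bil N} (hβ : ContDiff ℝ ∞ β) : ContDiff ℝ ∞ (G.anti β) := by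
  have h1 : ContDiff ℝ ∞ (fun x => Bil.pull (G.D x) (β x) - Bil.pull (G.J x) (β x)) :=
    (Bil.contDiff_pull hβ G.hb_contDiff_D).sub (Bil.contDiff_pull hβ G.smooth_J)
  have h2 : ContDiff ℝ ∞ (fun x => (Bil.pull (G.D x) (β x) - Bil.pull (G.J x) (β x)).flip) :=
    Bil.flipL.contDiff.comp h1
  exact contDiff_const_smul' _ (h1.sub h2)

theorem hb_antiB_add (x : EN N) (b c : Bil N) :
    G.antiB x (b + c) = G.antiB x b + G.antiB x c := by
  ext u v
  simp only [antiB, Bil.smul_apply, Bil.sub_apply, Bil.add_apply, Bil.flip_apply, Bil.pull_apply]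
  ring

theorem hb_antiB_smul (x : EN N) (t : ℝ) (b : Bil N) : G.antiB x (t • b) = t • G.antiB x b := by
  ext u v
  simp only [antiB, Bil.smul_apply, Bil.sub_apply, Bil.flip_apply, Bil.pull_apply]
  ring

theorem hb_anti_add (β γ : EN N → Bil N) (x : EN N) : G.anti (β + γ) x = G.anti β x + G.anti γ x :=
  G.hb_antiB_add x _ _

theorem hb_anti_smul (t : ℝ) (β : EN N → Bil N) (x : EN N) : G.anti (t • β) x = t • G.anti β x :=
  G.hb_antiB_smul x _ _

theorem hb_anti_apply {β : EN N → Bil N} {x : EN N} (hβ : ∀ v, β x v v = 0) (u v : EN N) :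
    G.anti β x u v = (1 / 2 : ℝ) * (β x (G.D x u) (G.D x v) - β x (G.J x u) (G.J x v)) := by
  have h : ∀ u w, β x u w = - β x w u := by
    intro u w
    have h := hβ (u + w)
    have h1 := hβ u
    have h2 := hβ w
    simp only [Bil.add_left, Bil.add_right, h1, h2] at h
    linarith
  show (1 / 4 : ℝ) * ((β x (G.D x u) (G.D x v) - β x (G.J x u) (G.J x v)) -
    (β x (G.D x v) (G.D x u) - β x (G.J x v) (G.J x u))) = _
  rw [h (G.D x v) (G.D x u), h (G.J x v) (G.J x u)]
  ring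

end Geom

section absnorm

variable {E F : Type*} [NormedAddCommGroup E] [NormedSpace ℝ E] [NormedAddCommGroup F]
  [NormedSpace ℝ F]

theorem hb_norm_iter_add {f g : E → F} (hf : ContDiff ℝ ∞ f) (hg : ContDiff ℝ ∞ g) (j : ℕ) (x : E) :
    ‖iteratedFDeriv ℝ j (fun y => f y + g y) x‖ ≤
      ‖iteratedFDeriv ℝ j f x‖ + ‖iteratedFDeriv ℝ j g x‖ := by
  have h : iteratedFDeriv ℝ j (fun y => f y + g y) x =
      iteratedFDeriv ℝ j f x + iteratedFDeriv ℝ j g x :=
    iteratedFDeriv_add_apply ((hf.of_le (by exact_mod_cast le_top)).contDiffAt)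
      ((hg.of_le (by exact_mod_cast le_top)).contDiffAt)
  rw [h]
  exact norm_add_le _ _

theorem hb_norm_iter_smul {f : E → F} (hf : ContDiff ℝ ∞ f) (c : ℝ) (j : ℕ) (x : E) :
    ‖iteratedFDeriv ℝ j (fun y => c • f y) x‖ = |c| * ‖iteratedFDeriv ℝ j f x‖ := by
  have h : iteratedFDeriv ℝ j (fun y => c • f y) x = c • iteratedFDeriv ℝ j f x :=
    iteratedFDeriv_const_smul_apply ((hf.of_le (by exact_mod_cast le_top)).contDiffAt)
  rw [h, norm_smul, Real.norm_eq_abs]

theorem hb_iter_bdd {f : E → F} (hf : ContDiff ℝ ∞ f) {K : Set E} (hK : IsCompact K) (j : ℕ) :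
    ∃ B, ∀ x ∈ K, ‖iteratedFDeriv ℝ j f x‖ ≤ B := by
  have h : Continuous (fun x => ‖iteratedFDeriv ℝ j f x‖) :=
    (hf.continuous_iteratedFDeriv (by exact_mod_cast le_top)).norm
  obtain ⟨B, hB⟩ := hK.exists_bound_of_continuousOn h.continuousOn
  exact ⟨B, fun x hx => by simpa using hB x hx⟩

end absnorm

theorem hb_sf_zero : ContDiff ℝ ∞ (0 : EN N → Bil N) := contDiff_const

theorem hb_sf_add {β γ : EN N → Bil N} (h : ContDiff ℝ ∞ β) (h' : ContDiff ℝ ∞ γ) :
    ContDiff ℝ ∞ (β + γ) := h.add h'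

/-- smooth fields of bilinear forms -/
def hb_SF (N : ℕ) : Submodule ℝ (EN N → Bil N) where
  carrier := {β | ContDiff ℝ ∞ β}
  zero_mem' := hb_sf_zero
  add_mem' := fun h h' => hb_sf_add h h'
  smul_mem' := fun c _ h => contDiff_const_smul' c h

/-- the group structure, from the module structure (avoids an instance problem) -/
noncomputable instance : AddCommGroup (hb_SF N) := Module.addCommMonoidToAddCommGroup ℝ

/-- the group structure, from the module structure (avoids an instance problem) -/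
noncomputable instance : AddCommGroup (Forms N) := Module.addCommMonoidToAddCommGroup ℝ

/-- the group structure, from the module structure (avoids an instance problem) -/
noncomputable instance (G : Geom N) : AddCommGroup (hb_ClosedForms G) :=
  Module.addCommMonoidToAddCommGroup ℝ

/-- the group structure, from the module structure (avoids an instance problem) -/
noncomputable instance : AddCommGroup (hb_ExactForms N) := Module.addCommMonoidToAddCommGroup ℝ

namespace Setup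

variable (S : Setup N)

theorem hb_contDiff_gg {β : EN N → Bil N} (hβ : ContDiff ℝ ∞ β) :
    ContDiff ℝ ∞ (fun y => S.anti β (S.rho y)) := (S.hb_contDiff_anti hβ).comp S.smooth_rho

/-- the family of norms -/
noncomputable def hb_nn (k : ℕ) (β : EN N → Bil N) (p : Fin (k + 1) × S.X) : ℝ :=
  ‖iteratedFDeriv ℝ p.1 (fun y => S.anti β (S.rho y)) p.2‖

theorem hb_nn_bdd (k : ℕ) {β : EN N → Bil N} (hβ : ContDiff ℝ ∞ β) :
    BddAbove (range (S.hb_nn k β)) := by
  have h : ∀ j : Fin (k + 1), ∃ B, ∀ x ∈ S.X,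
      ‖iteratedFDeriv ℝ j (fun y => S.anti β (S.rho y)) x‖ ≤ B := fun j =>
    hb_iter_bdd (F := Bil N) (S.hb_contDiff_gg hβ) S.cptX j
  choose B hB using h
  refine ⟨∑ j, |B j|, ?_⟩
  rintro _ ⟨⟨j, x⟩, rfl⟩
  calc S.hb_nn k β (j, x) ≤ B j := hB j x x.2
    _ ≤ |B j| := le_abs_self _
    _ ≤ ∑ j, |B j| := Finset.single_le_sum (f := fun j => |B j|) (fun i _ => abs_nonneg _)
        (Finset.mem_univ j)

instance : Nonempty S.X := S.neX.to_subtype

/-- the C^k norm of the anti-invariant part -/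
noncomputable def hb_antiN (k : ℕ) (β : EN N → Bil N) : ℝ := ⨆ p, S.hb_nn k β p

theorem hb_nn_le (k : ℕ) {β : EN N → Bil N} (hβ : ContDiff ℝ ∞ β) (p) : S.hb_nn k β p ≤ S.hb_antiN k β :=
  le_ciSup (S.hb_nn_bdd k hβ) p

theorem hb_antiLe_antiN (k : ℕ) {β : EN N → Bil N} (hβ : ContDiff ℝ ∞ β) :
    S.AntiLe k β (S.hb_antiN k β) := by
  intro x hx j hj
  exact S.hb_nn_le k hβ (⟨j, by omega⟩, ⟨x, hx⟩)

theorem hb_antiN_le (k : ℕ) {β : EN N → Bil N} {c : ℝ} (h : S.AntiLe k β c) : S.hb_antiN k β ≤ c := by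
  apply ciSup_le
  rintro ⟨j, x⟩
  exact h x x.2 j (by omega)

theorem hb_antiN_nonneg (k : ℕ) {β : EN N → Bil N} (hβ : ContDiff ℝ ∞ β) : 0 ≤ S.hb_antiN k β :=
  (norm_nonneg _).trans (S.hb_nn_le k hβ (0, Classical.arbitrary _))

theorem hb_antiN_add (k : ℕ) {β γ : EN N → Bil N} (hβ : ContDiff ℝ ∞ β) (hγ : ContDiff ℝ ∞ γ) :
    S.hb_antiN k (β + γ) ≤ S.hb_antiN k β + S.hb_antiN k γ := by
  apply ciSup_le
  rintro p
  have h1 : S.hb_nn k (β + γ) p ≤ S.hb_nn k β p + S.hb_nn k γ p := by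
    have h2 : (fun y => S.anti (β + γ) (S.rho y)) =
        fun y => S.anti β (S.rho y) + S.anti γ (S.rho y) := by
      funext y; exact S.hb_anti_add β γ _
    unfold hb_nn
    rw [h2]
    exact hb_norm_iter_add (F := Bil N) (S.hb_contDiff_gg hβ) (S.hb_contDiff_gg hγ) _ _
  exact h1.trans (add_le_add (S.hb_nn_le k hβ p) (S.hb_nn_le k hγ p))

theorem hb_antiN_smul_le (k : ℕ) {β : EN N → Bil N} (hβ : ContDiff ℝ ∞ β) (c : ℝ) :
    S.hb_antiN k (c • β) ≤ |c| * S.hb_antiN k β := by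
  apply ciSup_le
  rintro p
  have h1 : S.hb_nn k (c • β) p = |c| * S.hb_nn k β p := by
    have h2 : (fun y => S.anti (c • β) (S.rho y)) =
        fun y => c • S.anti β (S.rho y) := by
      funext y; exact S.hb_anti_smul c β _
    unfold hb_nn
    rw [h2]
    exact hb_norm_iter_smul (F := Bil N) (S.hb_contDiff_gg hβ) c _ _
  rw [h1]
  exact mul_le_mul_of_nonneg_left (S.hb_nn_le k hβ p) (abs_nonneg _)

theorem hb_antiN_smul (k : ℕ) {β : EN N → Bil N} (hβ : ContDiff ℝ ∞ β) (c : ℝ) :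
    S.hb_antiN k (c • β) = |c| * S.hb_antiN k β := by
  refine le_antisymm (S.hb_antiN_smul_le k hβ c) ?_
  rcases eq_or_ne c 0 with rfl | hc
  · rw [abs_zero, zero_mul]
    exact S.hb_antiN_nonneg k (contDiff_const_smul' _ hβ)
  · have h := S.hb_antiN_smul_le k (contDiff_const_smul' c hβ) c⁻¹
    have h2 : c⁻¹ • (fun x => c • β x) = β := by
      funext x
      show c⁻¹ • c • β x = β x
      rw [smul_smul, inv_mul_cancel₀ hc, one_smul]
    have h3 : (fun x => c • β x) = c • β := rfl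
    rw [h2, h3, abs_inv] at h
    have hc' : 0 < |c| := abs_pos.mpr hc
    calc |c| * S.hb_antiN k β ≤ |c| * (|c|⁻¹ * S.hb_antiN k (c • β)) := by gcongr
      _ = S.hb_antiN k (c • β) := by field_simp

/-- the seminorm K * hb_antiN on smooth fields -/
noncomputable def hb_semi (k : ℕ) (K : ℝ) (hK : 0 ≤ K) : Seminorm ℝ (hb_SF N) :=
  Seminorm.of (fun β => K * S.hb_antiN k β.1)
    (fun β γ => by
      have := S.hb_antiN_add k β.2 γ.2
      calc K * S.hb_antiN k (β + γ : hb_SF N).1 ≤ K * (S.hb_antiN k β.1 + S.hb_antiN k γ.1) :=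
            mul_le_mul_of_nonneg_left this hK
        _ = _ := by ring)
    (fun c β => by
      have := S.hb_antiN_smul k β.2 c
      calc K * S.hb_antiN k (c • β : hb_SF N).1 = K * (|c| * S.hb_antiN k β.1) := by rw [← this]; rfl
        _ = _ := by rw [Real.norm_eq_abs]; ring)

end Setup

end Pool.Agent.W_MP_d8b8b7_gt
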