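import Pool.Agent.W_MP_d8b8b7_gt.OpSmooth

/-!
# The projection antiL and the kernel of the anti-invariant part
-/

namespace Pool.Agent.W_MP_d8b8b7_gt

open MeasureTheory Set Filter Topology
open scoped ContDiff ENNReal

variable {N : ℕ}

namespace Setup

variable (S : Setup N)

/-- `antiB x` as a continuous linear map -/
noncomputable def antiL (x : EN N) : Bil N →L[ℝ] Bil N :=
  (1 / 4 : ℝ) • ((Bil.pullL (S.D x) - Bil.pullL (S.J x)) -
    Bil.flipL.comp (Bil.pullL (S.D x) - Bil.pullL (S.J x)))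

theorem antiL_apply (x : EN N) (b : Bil N) : S.antiL x b = S.antiB x b := by
  rfl

theorem smooth_antiL : ContDiff ℝ ∞ S.antiL := by
  have h1 : ContDiff ℝ ∞ (fun x => Bil.pullL (S.D x) - Bil.pullL (S.J x) :
      EN N → (Bil N →L[ℝ] Bil N)) := by
    rw [contDiff_clm_apply_iff]
    intro b
    exact (Bil.contDiff_pull contDiff_const S.smooth_D).sub
      (Bil.contDiff_pull contDiff_const S.smooth_J)
  exact (h1.sub (contDiff_const.clm_comp h1)).const_smul (1 / 4 : ℝ)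

/-- the anti-invariant part of `Op p A δ b` at `rho y` as an integral with smooth kernel
(from `Op_eq_integral`, moving the continuous linear map `antiL (rho y)` inside the integral) -/
theorem anti_Op_eq {p : EN N → ℝ} (hp : ContDiff ℝ ∞ p)
    (A : EN N → EN N → (Bil N →L[ℝ] Bil N))
    (hA : ContDiff ℝ ∞ (fun z : EN N × EN N => A z.1 z.2)) {δ : ℝ} (hδ : 0 < δ)
    {b : EN N → C6} (hb : S.L2F b) (y : EN N) :
    S.anti (S.Op p A δ b) (S.rho y) = ∫ z, ((δ⁻¹ ^ N * p (δ⁻¹ • (z - S.rho y))) •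
      (S.antiL (S.rho y)).comp (A (z - S.rho y) (S.rho y))) (S.ex b z) := by
  have h0 : S.anti (S.Op p A δ b) (S.rho y) =
      S.antiL (S.rho y) (S.Op p A δ b (S.rho y)) := rfl
  have hc : Continuous (fun z : EN N × EN N =>
      (δ⁻¹ ^ N * p (δ⁻¹ • (z.2 - z.1))) • A (z.2 - z.1) z.1) := by
    have h1 : Continuous (fun z : EN N × EN N => δ⁻¹ ^ N * p (δ⁻¹ • (z.2 - z.1))) :=
      continuous_const.mul (hp.continuous.comp (by fun_prop))
    have h2 : Continuous (fun z : EN N × EN N => A (z.2 - z.1) z.1) :=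
      hA.continuous.comp (by fun_prop : Continuous fun z : EN N × EN N => (z.2 - z.1, z.1))
    exact h1.smul h2
  have hint : Integrable (fun z : EN N => ((δ⁻¹ ^ N * p (δ⁻¹ • (z - S.rho y))) •
      A (z - S.rho y) (S.rho y)) (S.ex b z)) volume :=
    paramC_integrable (Φ := fun z : EN N × EN N =>
      (δ⁻¹ ^ N * p (δ⁻¹ • (z.2 - z.1))) • A (z.2 - z.1) z.1) hc (S.integrable_ex hb)
      S.Ud_bounded (fun y hy => S.ex_zero_of_not_mem hy) (S.rho y)
  rw [h0, S.Op_eq_integral A hδ b (S.rho y)]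
  have h3 := (S.antiL (S.rho y)).integral_comp_comm hint
  refine Eq.trans ?_ (h3.symm.trans ?_)
  · rfl
  · refine integral_congr_ae (Eventually.of_forall fun z => ?_)
    change S.antiL (S.rho y) ((δ⁻¹ ^ N * p (δ⁻¹ • (z - S.rho y))) •
      (A (z - S.rho y) (S.rho y)) (S.ex b z)) = (δ⁻¹ ^ N * p (δ⁻¹ • (z - S.rho y))) •
      S.antiL (S.rho y) ((A (z - S.rho y) (S.rho y)) (S.ex b z))
    rw [map_smul]

/-- the amplitude part has bounded derivatives for x in X and ‖z - x‖ ≤ 1 (joint smoothness,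
compactness and `norm_iteratedFDeriv_partial_le`) -/
theorem amplitude_deriv (k : ℕ) (A : EN N → EN N → (Bil N →L[ℝ] Bil N))
    (hA : ContDiff ℝ ∞ (fun z : EN N × EN N => A z.1 z.2)) :
    ∃ C : ℝ, 0 ≤ C ∧ ∀ x ∈ S.X, ∀ z : EN N, ‖z - x‖ ≤ 1 → ∀ j ≤ k,
      ‖iteratedFDeriv ℝ j (fun y => (S.antiL (S.rho y)).comp (A (z - S.rho y) (S.rho y))) x‖ ≤ C := by
  set Φ : EN N × EN N → (Bil N →L[ℝ] Bil N) := fun w =>
    (S.antiL (S.rho w.1)).comp (A (w.2 - S.rho w.1) (S.rho w.1)) with hΦdef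
  have hr : ContDiff ℝ ∞ (fun w : EN N × EN N => S.rho w.1) := S.smooth_rho.comp contDiff_fst
  have hΦ : ContDiff ℝ ∞ Φ := by
    have h1 : ContDiff ℝ ∞ (fun w : EN N × EN N => S.antiL (S.rho w.1)) :=
      S.smooth_antiL.comp hr
    have h2 : ContDiff ℝ ∞ (fun w : EN N × EN N => A (w.2 - S.rho w.1) (S.rho w.1)) :=
      hA.comp ((contDiff_snd.sub hr).prodMk hr)
    exact h1.clm_comp h2
  obtain ⟨R, hR⟩ := S.cptX.isBounded.subset_closedBall (0 : EN N)
  have hK : IsCompact (S.X ×ˢ Metric.closedBall (0 : EN N) (R + 1)) :=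
    S.cptX.prod (isCompact_closedBall _ _)
  have hj : ∀ j : ℕ, ∃ C : ℝ, ∀ w ∈ S.X ×ˢ Metric.closedBall (0 : EN N) (R + 1),
      ‖iteratedFDeriv ℝ j Φ w‖ ≤ C := fun j =>
    hK.exists_bound_of_continuousOn
      (hΦ.continuous_iteratedFDeriv (m := j) (by exact_mod_cast le_top)).continuousOn
  choose C hC using hj
  refine ⟨∑ j ∈ Finset.range (k + 1), |C j|, Finset.sum_nonneg fun _ _ => abs_nonneg _, ?_⟩
  intro x hx z hz j hjk
  have hmem : (x, z) ∈ S.X ×ˢ Metric.closedBall (0 : EN N) (R + 1) := by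
    refine ⟨hx, ?_⟩
    rw [mem_closedBall_zero_iff]
    have h1 : ‖x‖ ≤ R := mem_closedBall_zero_iff.mp (hR hx)
    have h2 : ‖z‖ ≤ ‖z - x‖ + ‖x‖ := by
      have := norm_add_le (z - x) x
      rwa [sub_add_cancel] at this
    show ‖z‖ ≤ R + 1
    linarith
  have h1 := norm_iteratedFDeriv_partial_le Φ hΦ x z j
  refine (h1.trans (hC j _ hmem)).trans ((le_abs_self _).trans ?_)
  exact Finset.single_le_sum (f := fun j => |C j|) (fun _ _ => abs_nonneg _)
    (Finset.mem_range.mpr (Nat.lt_succ_of_le hjk))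

end Setup

end Pool.Agent.W_MP_d8b8b7_gt
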