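import Pool.Agent.W_MP_d8b8b7_gt.Currents

/-!
Basic facts about a Setup: compactness of the set of unit tangent vectors, integrability,
the measure mF, components.
-/

namespace Pool.Agent.W_MP_d8b8b7_gt

open MeasureTheory Set Filter Topology
open scoped ContDiff ENNReal

variable {N : ℕ}

/-- general version (avoids slow instance problems for `Bil N`) -/
theorem hb_exists_bound_cpt {E F : Type*} [TopologicalSpace E] [NormedAddCommGroup F] {K : Set E}
    (hK : IsCompact K) {β : E → F} (hβ : Continuous β) : ∃ B, ∀ x ∈ K, ‖β x‖ ≤ B :=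
  hK.exists_bound_of_continuousOn hβ.continuousOn

namespace Setup

variable (S : Setup N)

theorem hb_ev_continuous {β : EN N → Bil N} (hβ : Continuous β) : Continuous (S.ev β) := by
  have h1 : Continuous fun z : EN N × EN N => S.J z.1 z.2 :=
    (S.smooth_J.continuous.comp continuous_fst).clm_apply continuous_snd
  exact ((hβ.comp continuous_fst).clm_apply continuous_snd).clm_apply h1

theorem hb_D_continuous : Continuous S.D := S.smooth_rho.continuous_fderiv (by simp)

theorem hb_closedX1 : IsClosed S.X1 := by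
  have h1 : IsClosed {z : EN N × EN N | z.1 ∈ S.X} := S.cptX.isClosed.preimage continuous_fst
  have h2 : IsClosed {z : EN N × EN N | S.D z.1 z.2 = z.2} :=
    isClosed_eq ((S.hb_D_continuous.comp continuous_fst).clm_apply continuous_snd) continuous_snd
  have h3 : IsClosed {z : EN N × EN N | S.om z.1 z.2 (S.J z.1 z.2) = 1} :=
    isClosed_eq (S.hb_ev_continuous S.smooth_om.continuous) continuous_const
  have : S.X1 = {z : EN N × EN N | z.1 ∈ S.X} ∩ ({z : EN N × EN N | S.D z.1 z.2 = z.2} ∩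
      {z : EN N × EN N | S.om z.1 z.2 (S.J z.1 z.2) = 1}) := by
    ext z; rfl
  rw [this]
  exact h1.inter (h2.inter h3)

theorem hb_exists_low : ∃ c > 0, ∀ x ∈ S.X, ∀ v, S.Tan x v → c * ‖v‖ ^ 2 ≤ S.om x v (S.J x v) := by
  let K : Set (EN N × EN N) := {z | z.1 ∈ S.X ∧ S.D z.1 z.2 = z.2 ∧ ‖z.2‖ = 1}
  have hKc : IsCompact K := by
    have h0 : IsCompact (S.X ×ˢ Metric.closedBall (0 : EN N) 1) :=
      S.cptX.prod (isCompact_closedBall _ _)
    refine h0.of_isClosed_subset ?_ ?_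
    · have h1 : IsClosed {z : EN N × EN N | z.1 ∈ S.X} := S.cptX.isClosed.preimage continuous_fst
      have h2 : IsClosed {z : EN N × EN N | S.D z.1 z.2 = z.2} :=
        isClosed_eq ((S.hb_D_continuous.comp continuous_fst).clm_apply continuous_snd) continuous_snd
      have h3 : IsClosed {z : EN N × EN N | ‖z.2‖ = 1} :=
        isClosed_eq continuous_snd.norm continuous_const
      exact h1.inter (h2.inter h3)
    · rintro z ⟨h1, -, h3⟩
      exact ⟨h1, by simp [h3]⟩
  have hcont : ContinuousOn (S.ev S.om) K := (S.hb_ev_continuous S.smooth_om.continuous).continuousOn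
  rcases K.eq_empty_or_nonempty with hK | hK
  · refine ⟨1, one_pos, fun x hx v hv => ?_⟩
    by_cases h0 : v = 0
    · subst h0; simp
    · exfalso
      have hn : ‖v‖ ≠ 0 := norm_ne_zero_iff.mpr h0
      have : (x, ‖v‖⁻¹ • v) ∈ K := by
        refine ⟨hx, ?_, ?_⟩
        · show S.D x (‖v‖⁻¹ • v) = ‖v‖⁻¹ • v
          rw [map_smul]; rw [show S.D x v = v from hv]
        · show ‖‖v‖⁻¹ • v‖ = 1
          rw [norm_smul, norm_inv, norm_norm, inv_mul_cancel₀ hn]
      rw [hK] at this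
      exact this
  · obtain ⟨z0, hz0, hmin⟩ := hKc.exists_isMinOn hK hcont
    have hz0v : z0.2 ≠ 0 := by
      intro h; have := hz0.2.2; rw [h, norm_zero] at this; exact zero_ne_one this
    have hpos : 0 < S.ev S.om z0 := S.om_tame z0.1 hz0.1 z0.2 hz0.2.1 hz0v
    refine ⟨S.ev S.om z0, hpos, fun x hx v hv => ?_⟩
    by_cases h0 : v = 0
    · subst h0; simp
    · have hn : ‖v‖ ≠ 0 := norm_ne_zero_iff.mpr h0
      have hmem : (x, ‖v‖⁻¹ • v) ∈ K := by
        refine ⟨hx, ?_, ?_⟩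
        · show S.D x (‖v‖⁻¹ • v) = ‖v‖⁻¹ • v
          rw [map_smul]; rw [show S.D x v = v from hv]
        · show ‖‖v‖⁻¹ • v‖ = 1
          rw [norm_smul, norm_inv, norm_norm, inv_mul_cancel₀ hn]
      have h1 := hmin hmem
      have h2 : S.ev S.om (x, ‖v‖⁻¹ • v) = ‖v‖⁻¹ ^ 2 * S.om x v (S.J x v) := by
        show S.om x (‖v‖⁻¹ • v) (S.J x (‖v‖⁻¹ • v)) = _
        simp only [map_smul, Bil.smul_left, Bil.smul_right]
        ring
      have h3 : S.ev S.om z0 ≤ ‖v‖⁻¹ ^ 2 * S.om x v (S.J x v) := by rw [← h2]; exact h1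
      calc S.ev S.om z0 * ‖v‖ ^ 2 ≤ (‖v‖⁻¹ ^ 2 * S.om x v (S.J x v)) * ‖v‖ ^ 2 :=
            mul_le_mul_of_nonneg_right h3 (sq_nonneg _)
        _ = S.om x v (S.J x v) := by field_simp

theorem hb_cptX1 : IsCompact S.X1 := by
  obtain ⟨c, hc, hlow⟩ := S.hb_exists_low
  have h0 : IsCompact (S.X ×ˢ Metric.closedBall (0 : EN N) (Real.sqrt c⁻¹)) :=
    S.cptX.prod (isCompact_closedBall _ _)
  refine h0.of_isClosed_subset S.hb_closedX1 ?_
  rintro z ⟨h1, h2, h3⟩
  refine ⟨h1, ?_⟩
  rw [mem_closedBall_zero_iff]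
  apply Real.le_sqrt_of_sq_le
  have := hlow z.1 h1 z.2 h2
  rw [h3] at this
  rw [← one_div, le_div_iff₀ hc]
  linarith

/-- `F(v, Jv) = om(v, Jv)` for tangent vectors -/
theorem hb_F_apply {x : EN N} (hx : x ∈ S.X) {v : EN N} (hv : S.Tan x v) :
    S.F x v (S.J x v) = S.om x v (S.J x v) := by
  have hv' : fderiv ℝ S.rho x v = v := hv
  have halt : ∀ u w, S.om x u w = - S.om x w u := by
    intro u w
    have h := S.om_alt x (u + w)
    have h1 := S.om_alt x u
    have h2 := S.om_alt x w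
    simp only [Bil.add_left, Bil.add_right, h1, h2] at h
    linarith
  show (1 / 2 : ℝ) * (S.om x (fderiv ℝ S.rho x v) (fderiv ℝ S.rho x (S.J x v)) +
    S.om x (S.J x v) (S.J x (S.J x v))) = _
  rw [S.D_J x hx, S.J_J x hx, hv', Bil.neg_right, halt (S.J x v) v]
  ring

theorem hb_fr_mem {x : EN N} (hx : x ∈ S.X) (a : Fin 4) : (x, S.fr a x) ∈ S.X1 := by
  refine ⟨hx, S.fr_tan x hx a, ?_⟩
  have h := S.fr_orth x hx a a
  rw [if_pos rfl] at h
  rw [← S.hb_F_apply hx (S.fr_tan x hx a)]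
  exact h

theorem hb_neX1 : S.X1.Nonempty := by
  obtain ⟨x, hx⟩ := S.neX
  exact ⟨_, S.hb_fr_mem hx 0⟩

theorem hb_exists_fr_bound : ∃ R, 0 < R ∧ ∀ x ∈ S.X, ∀ a, ‖S.fr a x‖ ≤ R := by
  obtain ⟨c, hc, hlow⟩ := S.hb_exists_low
  refine ⟨Real.sqrt c⁻¹ + 1, by positivity, fun x hx a => ?_⟩
  have h := S.hb_fr_mem hx a
  have := hlow x hx (S.fr a x) h.2.1
  rw [show S.om x (S.fr a x) (S.J x (S.fr a x)) = 1 from h.2.2] at this
  have h2 : ‖S.fr a x‖ ≤ Real.sqrt c⁻¹ := by
    apply Real.le_sqrt_of_sq_le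
    rw [← one_div, le_div_iff₀ hc]
    linarith
  linarith

theorem hb_ae_mem : ∀ᵐ x ∂S.nu, x ∈ S.X := by
  rw [ae_iff]
  exact S.nu_compl

/-- bounded measurable functions are integrable -/
theorem hb_integrable_of_bdd {f : EN N → ℝ} (hf : Measurable f) (C : ℝ) (hC : ∀ x ∈ S.X, |f x| ≤ C) :
    Integrable f S.nu := by
  refine Integrable.of_bound hf.aestronglyMeasurable C ?_
  filter_upwards [S.hb_ae_mem] with x hx
  exact hC x hx

theorem hb_measurable_comp {β : EN N → Bil N} (hβ : Continuous β) (a b : Fin 4) :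
    Measurable fun x => β x (S.fr a x) (S.fr b x) := by
  have h1 : Continuous fun p : EN N × EN N × EN N => β p.1 p.2.1 p.2.2 :=
    ((hβ.comp continuous_fst).clm_apply (continuous_fst.comp continuous_snd)).clm_apply
      (continuous_snd.comp continuous_snd)
  exact h1.measurable.comp (measurable_id.prodMk ((S.meas_fr a).prodMk (S.meas_fr b)))

theorem hb_exists_comp_bound {β : EN N → Bil N} (hβ : Continuous β) :
    ∃ C, 0 ≤ C ∧ ∀ x ∈ S.X, ∀ a b, |β x (S.fr a x) (S.fr b x)| ≤ C := by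
  obtain ⟨R, hR, hfr⟩ := S.hb_exists_fr_bound
  obtain ⟨B, hB⟩ := hb_exists_bound_cpt (F := Bil N) S.cptX hβ
  refine ⟨|B| * R * R, by positivity, fun x hx a b => ?_⟩
  calc |β x (S.fr a x) (S.fr b x)| ≤ ‖β x‖ * ‖S.fr a x‖ * ‖S.fr b x‖ := Bil.abs_apply_le _ _ _
    _ ≤ (|B| * R) * R := by
        gcongr
        · exact (hB x hx).trans (le_abs_self B)
        · exact hfr x hx a
        · exact hfr x hx b

theorem hb_cp_bound {β : EN N → Bil N} (hβ : Continuous β) :
    ∃ C, 0 ≤ C ∧ ∀ x ∈ S.X, ∀ i, |S.cp β x i| ≤ C := by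
  obtain ⟨C, h0, hC⟩ := S.hb_exists_comp_bound hβ
  refine ⟨C, h0, fun x hx i => ?_⟩
  fin_cases i
  · exact hC x hx 0 1
  · exact hC x hx 0 2
  · exact hC x hx 0 3
  · exact hC x hx 1 2
  · exact hC x hx 1 3
  · exact hC x hx 2 3

theorem hb_cp_measurable {β : EN N → Bil N} (hβ : Continuous β) (i : Fin 6) :
    Measurable fun x => S.cp β x i := by
  fin_cases i
  · exact S.hb_measurable_comp hβ 0 1
  · exact S.hb_measurable_comp hβ 0 2
  · exact S.hb_measurable_comp hβ 0 3
  · exact S.hb_measurable_comp hβ 1 2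
  · exact S.hb_measurable_comp hβ 1 3
  · exact S.hb_measurable_comp hβ 2 3

/-- products of components are integrable -/
theorem hb_integrable_mul {β γ : EN N → Bil N} (hβ : Continuous β) (hγ : Continuous γ) (i j : Fin 6) :
    Integrable (fun x => S.cp β x i * S.cp γ x j) S.nu := by
  obtain ⟨C, h0, hC⟩ := S.hb_cp_bound hβ
  obtain ⟨C', h0', hC'⟩ := S.hb_cp_bound hγ
  refine S.hb_integrable_of_bdd ((S.hb_cp_measurable hβ i).mul (S.hb_cp_measurable hγ j)) (C * C') ?_
  intro x hx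
  rw [abs_mul]
  exact mul_le_mul (hC x hx i) (hC' x hx j) (abs_nonneg _) h0

theorem hb_integrable_cp {β : EN N → Bil N} (hβ : Continuous β) (i : Fin 6) :
    Integrable (fun x => S.cp β x i) S.nu := by
  obtain ⟨C, h0, hC⟩ := S.hb_cp_bound hβ
  exact S.hb_integrable_of_bdd (S.hb_cp_measurable hβ i) C (fun x hx => hC x hx i)

theorem hb_integrable_wedge {β γ : EN N → Bil N} (hβ : Continuous β) (hγ : Continuous γ) :
    Integrable (fun x => wedge (S.cp β x) (S.cp γ x)) S.nu := by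
  unfold wedge
  exact (((((S.hb_integrable_mul hβ hγ 0 5).sub (S.hb_integrable_mul hβ hγ 1 4)).add
    (S.hb_integrable_mul hβ hγ 2 3)).add (S.hb_integrable_mul hβ hγ 3 2)).sub
    (S.hb_integrable_mul hβ hγ 4 1)).add (S.hb_integrable_mul hβ hγ 5 0)

theorem hb_cp_add (β γ : EN N → Bil N) (x : EN N) : S.cp (β + γ) x = S.cp β x + S.cp γ x := by
  ext i
  fin_cases i <;> rfl

theorem hb_cp_smul (c : ℝ) (β : EN N → Bil N) (x : EN N) : S.cp (c • β) x = c • S.cp β x := by
  ext i
  fin_cases i <;> rfl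

end Setup

theorem hb_wedge_comm (a b : C6) : wedge a b = wedge b a := by
  unfold wedge; ring

theorem hb_wedge_add_left (a b c : C6) : wedge (a + b) c = wedge a c + wedge b c := by
  unfold wedge
  simp only [PiLp.add_apply]
  ring

theorem hb_wedge_add_right (a b c : C6) : wedge a (b + c) = wedge a b + wedge a c := by
  unfold wedge
  simp only [PiLp.add_apply]
  ring

theorem hb_wedge_smul_left (t : ℝ) (a b : C6) : wedge (t • a) b = t * wedge a b := by
  unfold wedge
  simp only [PiLp.smul_apply, smul_eq_mul]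
  ring

theorem hb_wedge_smul_right (t : ℝ) (a b : C6) : wedge a (t • b) = t * wedge a b := by
  unfold wedge
  simp only [PiLp.smul_apply, smul_eq_mul]
  ring

theorem hb_wedge_Fc (b : C6) : wedge Fc b = b 0 + b 5 := by
  unfold wedge Fc
  simp
  ring

end Pool.Agent.W_MP_d8b8b7_gt
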