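import Mathlib

/-!
# Bilinear forms on R^N

`Bil N` is the space of continuous bilinear forms on `EN N = EuclideanSpace ℝ (Fin N)`.  It is a
`def` (not an abbreviation of the nested arrow type) because in the present Mathlib the class
`ContinuousENorm` (needed for `Integrable`) is not found on `E →L[ℝ] E →L[ℝ] ℝ`.
Evaluation is written `b u v`; use `Bil.app u v : Bil N →L[ℝ] ℝ` to move evaluations through
integrals and derivatives, `Bil.ext`, and the `simp` lemmas below.  `Bil.toCLM` is the identity
linear isometry with the nested arrow type.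
-/

namespace Pool.Agent.W_MP_d8b8b7_gt

open MeasureTheory Set Filter Topology
open scoped ContDiff ENNReal

/-- Euclidean space of dimension N -/
abbrev EN (N : ℕ) : Type := EuclideanSpace ℝ (Fin N)
/-- covectors -/
abbrev Cov (N : ℕ) : Type := EN N →L[ℝ] ℝ
/-- bilinear forms -/
def Bil (N : ℕ) : Type := EN N →L[ℝ] EN N →L[ℝ] ℝ

namespace Bil

variable {N M : ℕ}

noncomputable instance : NormedAddCommGroup (Bil N) :=
  inferInstanceAs (NormedAddCommGroup (EN N →L[ℝ] EN N →L[ℝ] ℝ))
noncomputable instance : NormedSpace ℝ (Bil N) :=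
  inferInstanceAs (NormedSpace ℝ (EN N →L[ℝ] EN N →L[ℝ] ℝ))
instance : FiniteDimensional ℝ (Bil N) :=
  inferInstanceAs (FiniteDimensional ℝ (EN N →L[ℝ] EN N →L[ℝ] ℝ))
noncomputable instance : MeasurableSpace (Bil N) := borel _
instance : BorelSpace (Bil N) := ⟨rfl⟩

/-- evaluation -/
noncomputable def ap (b : Bil N) (u v : EN N) : ℝ :=
  (show EN N →L[ℝ] EN N →L[ℝ] ℝ from b) u v

noncomputable instance : CoeFun (Bil N) (fun _ => EN N → EN N → ℝ) := ⟨ap⟩

/-- the identity, as a linear isometry equivalence -/
noncomputable def toCLM : Bil N ≃ₗᵢ[ℝ] (EN N →L[ℝ] EN N →L[ℝ] ℝ) :=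
  { toFun := fun b => b, invFun := fun b => b, map_add' := fun _ _ => rfl,
    map_smul' := fun _ _ => rfl, left_inv := fun _ => rfl, right_inv := fun _ => rfl,
    norm_map' := fun _ => rfl }

@[simp] theorem toCLM_apply (b : Bil N) (u v : EN N) : toCLM b u v = b u v := rfl

@[simp] theorem toCLM_symm_apply (b : EN N →L[ℝ] EN N →L[ℝ] ℝ) (u v : EN N) :
    toCLM.symm b u v = b u v := rfl

@[ext] theorem ext {a b : Bil N} (h : ∀ u v, a u v = b u v) : a = b := by
  apply toCLM.injective
  ext u v
  exact h _ _

@[simp] theorem add_apply (a b : Bil N) (u v : EN N) : (a + b) u v = a u v + b u v := rfl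
@[simp] theorem sub_apply (a b : Bil N) (u v : EN N) : (a - b) u v = a u v - b u v := rfl
@[simp] theorem neg_apply (a : Bil N) (u v : EN N) : (-a) u v = -(a u v) := rfl
@[simp] theorem zero_apply (u v : EN N) : (0 : Bil N) u v = 0 := rfl
@[simp] theorem smul_apply (c : ℝ) (a : Bil N) (u v : EN N) : (c • a) u v = c * a u v := rfl

@[simp] theorem add_left (b : Bil N) (u u' v : EN N) : b (u + u') v = b u v + b u' v :=
  congrArg (fun L : EN N →L[ℝ] ℝ => L v) ((toCLM b).map_add u u')
@[simp] theorem add_right (b : Bil N) (u v v' : EN N) : b u (v + v') = b u v + b u v' :=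
  (toCLM b u).map_add v v'
@[simp] theorem smul_left (b : Bil N) (c : ℝ) (u v : EN N) : b (c • u) v = c * b u v :=
  congrArg (fun L : EN N →L[ℝ] ℝ => L v) ((toCLM b).map_smul c u)
@[simp] theorem smul_right (b : Bil N) (c : ℝ) (u v : EN N) : b u (c • v) = c * b u v :=
  (toCLM b u).map_smul c v
@[simp] theorem neg_left (b : Bil N) (u v : EN N) : b (-u) v = -(b u v) :=
  congrArg (fun L : EN N →L[ℝ] ℝ => L v) ((toCLM b).map_neg u)
@[simp] theorem neg_right (b : Bil N) (u v : EN N) : b u (-v) = -(b u v) :=
  (toCLM b u).map_neg v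
@[simp] theorem sub_left (b : Bil N) (u u' v : EN N) : b (u - u') v = b u v - b u' v :=
  congrArg (fun L : EN N →L[ℝ] ℝ => L v) ((toCLM b).map_sub u u')
@[simp] theorem sub_right (b : Bil N) (u v v' : EN N) : b u (v - v') = b u v - b u v' :=
  (toCLM b u).map_sub v v'
@[simp] theorem zero_left (b : Bil N) (v : EN N) : b 0 v = 0 :=
  congrArg (fun L : EN N →L[ℝ] ℝ => L v) ((toCLM b).map_zero)
@[simp] theorem zero_right (b : Bil N) (u : EN N) : b u 0 = 0 :=
  (toCLM b u).map_zero

theorem sum_apply {ι : Type*} (s : Finset ι) (f : ι → Bil N) (u v : EN N) :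
    (∑ i ∈ s, f i) u v = ∑ i ∈ s, f i u v := by
  classical
  induction s using Finset.induction_on with
  | empty => simp
  | insert a s ha ih => rw [Finset.sum_insert ha, Finset.sum_insert ha, add_apply, ih]

theorem sum_left {ι : Type*} (b : Bil N) (s : Finset ι) (f : ι → EN N) (v : EN N) :
    b (∑ i ∈ s, f i) v = ∑ i ∈ s, b (f i) v := by
  classical
  induction s using Finset.induction_on with
  | empty => simp
  | insert a s ha ih => rw [Finset.sum_insert ha, Finset.sum_insert ha, add_left, ih]

theorem sum_right {ι : Type*} (b : Bil N) (s : Finset ι) (f : ι → EN N) (u : EN N) :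
    b u (∑ i ∈ s, f i) = ∑ i ∈ s, b u (f i) := by
  classical
  induction s using Finset.induction_on with
  | empty => simp
  | insert a s ha ih => rw [Finset.sum_insert ha, Finset.sum_insert ha, add_right, ih]

theorem abs_apply_le (b : Bil N) (u v : EN N) : |b u v| ≤ ‖b‖ * ‖u‖ * ‖v‖ :=
  (toCLM b).le_opNorm₂ u v

theorem norm_le {b : Bil N} {C : ℝ} (hC : 0 ≤ C) (h : ∀ u v, |b u v| ≤ C * ‖u‖ * ‖v‖) :
    ‖b‖ ≤ C :=
  (toCLM b).opNorm_le_bound₂ hC h

/-- evaluation at (u, v) as a continuous linear form -/
noncomputable def app (u v : EN N) : Bil N →L[ℝ] ℝ :=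
  LinearMap.toContinuousLinearMap
    { toFun := fun b => b u v, map_add' := fun _ _ => rfl, map_smul' := fun _ _ => rfl }

@[simp] theorem app_apply (u v : EN N) (b : Bil N) : app u v b = b u v := rfl

theorem continuous_apply₂ {b : Bil N} : Continuous (fun z : EN N × EN N => b z.1 z.2) :=
  ((toCLM b).continuous.comp continuous_fst).clm_apply continuous_snd

/-- the flipped form -/
noncomputable def flip (b : Bil N) : Bil N := (toCLM b).flip

@[simp] theorem flip_apply (b : Bil N) (u v : EN N) : b.flip u v = b v u := rfl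

/-- pull back by a linear map -/
noncomputable def pull (A : EN M →L[ℝ] EN N) (b : Bil N) : Bil M :=
  (toCLM b).bilinearComp A A

@[simp] theorem pull_apply (A : EN M →L[ℝ] EN N) (b : Bil N) (u v : EN M) :
    pull A b u v = b (A u) (A v) := rfl

/-- pull back as a continuous linear map in the form -/
noncomputable def pullL (A : EN M →L[ℝ] EN N) : Bil N →L[ℝ] Bil M :=
  LinearMap.toContinuousLinearMap
    { toFun := pull A, map_add' := fun _ _ => rfl, map_smul' := fun _ _ => rfl }

@[simp] theorem pullL_apply (A : EN M →L[ℝ] EN N) (b : Bil N) : pullL A b = pull A b := rfl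

/-- flip as a continuous linear map -/
noncomputable def flipL : Bil N →L[ℝ] Bil N :=
  LinearMap.toContinuousLinearMap
    { toFun := flip, map_add' := fun _ _ => rfl, map_smul' := fun _ _ => rfl }

@[simp] theorem flipL_apply (b : Bil N) : flipL b = flip b := rfl

/-- tensor product of two covectors: (u, v) ↦ f u * g v -/
noncomputable def tens (f g : Cov N) : Bil N := f.smulRight g

@[simp] theorem tens_apply (f g : Cov N) (u v : EN N) : tens f g u v = f u * g v := rfl

/-- wedge of two covectors -/
noncomputable def asym (f g : Cov N) : Bil N := tens f g - tens g f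

@[simp] theorem asym_apply (f g : Cov N) (u v : EN N) : asym f g u v = f u * g v - g u * f v := rfl

/-- insertion of a vector in the second slot: u ↦ b u w -/
noncomputable def right (b : Bil N) (w : EN N) : Cov N := toCLM b.flip w

@[simp] theorem right_apply (b : Bil N) (u w : EN N) : b.right w u = b u w := rfl

/-- insertion of a vector in the first slot: v ↦ b w v -/
noncomputable def left (b : Bil N) (w : EN N) : Cov N := toCLM b w

@[simp] theorem left_apply (b : Bil N) (v w : EN N) : b.left w v = b w v := rfl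

/-- a bilinear form from its values -/
noncomputable def mk₂ (f : EN N → EN N → ℝ) (h1 : ∀ u u' v, f (u + u') v = f u v + f u' v)
    (h2 : ∀ (c : ℝ) u v, f (c • u) v = c * f u v) (h3 : ∀ u v v', f u (v + v') = f u v + f u v')
    (h4 : ∀ (c : ℝ) u v, f u (c • v) = c * f u v) : Bil N :=
  LinearMap.toContinuousLinearMap
    { toFun := fun u => LinearMap.toContinuousLinearMap
        { toFun := fun v => f u v, map_add' := h3 u, map_smul' := fun c v => h4 c u v }
      map_add' := fun u u' => by ext v; exact h1 u u' v
      map_smul' := fun c u => by ext v; exact h2 c u v }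

@[simp] theorem mk₂_apply (f : EN N → EN N → ℝ) (h1 h2 h3 h4) (u v : EN N) :
    mk₂ f h1 h2 h3 h4 u v = f u v := rfl

/-- matrix coefficients determine the form -/
theorem ext_basis {a b : Bil N}
    (h : ∀ i j, a (EuclideanSpace.single i 1) (EuclideanSpace.single j 1) =
      b (EuclideanSpace.single i 1) (EuclideanSpace.single j 1)) : a = b := by
  have key : ∀ c : Bil N, (∀ i j, c (EuclideanSpace.single i 1) (EuclideanSpace.single j 1) = 0) →
      c = 0 := by
    intro c hc
    ext u v
    have hs : ∀ w : EN N, w = ∑ i, w i • EuclideanSpace.single i (1 : ℝ) := by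
      intro w
      ext k
      simp [Pi.single_apply]
    have hu := hs u
    have hv := hs v
    rw [hu, hv, sum_left]
    simp only [sum_right, smul_left, smul_right, hc]
    simp
  have h0 := key (a - b) (fun i j => by rw [sub_apply, h i j, sub_self])
  exact sub_eq_zero.mp h0

section Calculus

variable {E : Type*} [NormedAddCommGroup E] [NormedSpace ℝ E]

theorem contDiff_toCLM {n : WithTop ℕ∞} {f : E → Bil N} :
    ContDiff ℝ n f ↔ ContDiff ℝ n (fun x => toCLM (f x)) := Iff.rfl

theorem contDiffAt_toCLM {n : WithTop ℕ∞} {f : E → Bil N} {x : E} :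
    ContDiffAt ℝ n f x ↔ ContDiffAt ℝ n (fun x => toCLM (f x)) x := Iff.rfl

/-- evaluation on smooth vector fields is smooth -/
theorem contDiff_apply {n : WithTop ℕ∞} {f : E → Bil N} (hf : ContDiff ℝ n f) {u v : E → EN N}
    (hu : ContDiff ℝ n u) (hv : ContDiff ℝ n v) : ContDiff ℝ n (fun x => f x (u x) (v x)) :=
  ((contDiff_toCLM.mp hf).clm_apply hu).clm_apply hv

/-- smoothness can be tested on the matrix coefficients -/
theorem contDiff_iff {n : WithTop ℕ∞} {f : E → Bil N} :
    ContDiff ℝ n f ↔ ∀ u v : EN N, ContDiff ℝ n (fun x => f x u v) := by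
  constructor
  · intro hf u v
    exact (app u v).contDiff.comp hf
  · intro h
    rw [contDiff_toCLM, contDiff_clm_apply_iff]
    intro u
    rw [contDiff_clm_apply_iff]
    intro v
    exact h u v

theorem contDiff_pull {n : WithTop ℕ∞} {f : E → Bil N} (hf : ContDiff ℝ n f)
    {A : E → (EN M →L[ℝ] EN N)} (hA : ContDiff ℝ n A) :
    ContDiff ℝ n (fun x => pull (A x) (f x)) := by
  rw [contDiff_iff]
  intro u v
  exact contDiff_apply hf (hA.clm_apply contDiff_const) (hA.clm_apply contDiff_const)

theorem hasFDerivAt_apply {f : E → Bil N} {f' : E →L[ℝ] Bil N} {x : E} (hf : HasFDerivAt f f' x)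
    (u v : EN N) : HasFDerivAt (fun x => f x u v) ((app u v).comp f') x :=
  (app u v).hasFDerivAt.comp x hf

theorem fderiv_apply {f : E → Bil N} {x : E} (hf : DifferentiableAt ℝ f x) (w : E) (u v : EN N) :
    fderiv ℝ (fun x => f x u v) x w = fderiv ℝ f x w u v := by
  rw [(hasFDerivAt_apply hf.hasFDerivAt u v).fderiv]
  rfl

end Calculus

section Integral

variable {α : Type*} [MeasurableSpace α] {μ : Measure α}

theorem integral_apply {f : α → Bil N} (hf : Integrable f μ) (u v : EN N) :
    (∫ x, f x ∂μ) u v = ∫ x, f x u v ∂μ :=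
  ((app u v).integral_comp_comm hf).symm

theorem integrable_apply {f : α → Bil N} (hf : Integrable f μ) (u v : EN N) :
    Integrable (fun x => f x u v) μ :=
  (app u v).integrable_comp hf

/-- measurability can be tested on the matrix coefficients -/
theorem measurable_iff {f : α → Bil N} : Measurable f ↔ ∀ u v : EN N, Measurable (fun x => f x u v) := by
  constructor
  · intro hf u v
    exact (app u v).continuous.measurable.comp hf
  · intro h
    let L : Bil N →L[ℝ] (Fin N × Fin N → ℝ) := ContinuousLinearMap.pi
      (fun p => app (EuclideanSpace.single p.1 1) (EuclideanSpace.single p.2 1))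
    have hinj : Function.Injective L := by
      intro a b hab
      apply ext_basis
      intro i j
      exact congrFun hab (i, j)
    have hemb : MeasurableEmbedding L :=
      (LinearMap.isClosedEmbedding_of_injective (f := (L : Bil N →ₗ[ℝ] (Fin N × Fin N → ℝ)))
        (LinearMap.ker_eq_bot.mpr hinj)).measurableEmbedding
    rw [← hemb.measurable_comp_iff]
    exact measurable_pi_lambda _ (fun p => h _ _)

end Integral

end Bil

end Pool.Agent.W_MP_d8b8b7_gt
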