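import Pool.Agent.W_MP_d8b8b7_gt.Defs

/-!
# Bump profiles
-/

namespace Pool.Agent.W_MP_d8b8b7_gt

open MeasureTheory Set Filter Topology
open scoped ContDiff ENNReal

variable {N : ℕ}

/-- bounds of the iterated derivatives of a rescaled function -/
theorem bump_scale {k : ℕ} {f : EN N → ℝ} (hf : ContDiff ℝ ∞ f) {M : ℝ} (hM : 0 ≤ M)
    (hb : ∀ j ≤ k, ∀ s, ‖iteratedFDeriv ℝ j f s‖ ≤ M) (c : ℝ) :
    ∀ j ≤ k, ∀ s, ‖iteratedFDeriv ℝ j (fun s => c * f ((2 : ℝ) • s)) s‖ ≤ |c| * (2 ^ k * M) := by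
  intro j hj s
  let L : EN N →L[ℝ] EN N := (2 : ℝ) • ContinuousLinearMap.id ℝ (EN N)
  have hL : ‖L‖ ≤ 2 := by
    refine ContinuousLinearMap.opNorm_le_bound _ (by norm_num) fun x => ?_
    have h1 : L x = (2 : ℝ) • x := rfl
    rw [h1, norm_smul, Real.norm_two]
  have e : (fun s => c * f ((2 : ℝ) • s)) = c • (f ∘ L) := rfl
  have hfL : ContDiff ℝ j (f ∘ L) := (hf.comp L.contDiff).of_le (by exact_mod_cast le_top)
  rw [e, iteratedFDeriv_const_smul_apply hfL.contDiffAt, norm_smul, Real.norm_eq_abs]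
  refine mul_le_mul_of_nonneg_left ?_ (abs_nonneg c)
  rw [L.iteratedFDeriv_comp_right hf s (by exact_mod_cast le_top)]
  refine (ContinuousMultilinearMap.norm_compContinuousLinearMap_le _ _).trans ?_
  rw [Finset.prod_const, Finset.card_univ, Fintype.card_fin]
  have h1 : ‖L‖ ^ j ≤ 2 ^ k :=
    (pow_le_pow_left₀ (norm_nonneg _) hL j).trans (pow_le_pow_right₀ one_le_two hj)
  calc ‖iteratedFDeriv ℝ j f (L s)‖ * ‖L‖ ^ j ≤ M * 2 ^ k :=
        mul_le_mul (hb j hj _) h1 (by positivity) hM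
    _ = 2 ^ k * M := by ring

namespace Setup

variable (S : Setup N)

/-- there is a smooth bump η, 0 ≤ η ≤ 1, η = 1 on the ball of radius 1/2, supported in the unit
ball; for p in Prof k the functions (p + η)/2 and η are nonnegative profiles, p = (p + η) - η;
after rescaling q ↦ 2^N q(2 s)/C they are in Prof k. -/
theorem exists_bump (k : ℕ) : ∃ (η : EN N → ℝ) (C : ℝ), 0 < C ∧ QProf 0 1 η ∧
    Prof k (fun s => C⁻¹ * (2 ^ N * η ((2 : ℝ) • s))) ∧
    ∀ p : EN N → ℝ, Prof k p → QProf 0 1 (fun s => (p s + η s) / 2) ∧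
      Prof k (fun s => C⁻¹ * (2 ^ N * ((p ((2 : ℝ) • s) + η ((2 : ℝ) • s)) / 2))) := by
  let b : ContDiffBump (0 : EN N) := ⟨1 / 2, 1, by norm_num, by norm_num⟩
  have hbs : ContDiff ℝ ∞ b := b.contDiff
  have hb1 : ∀ s : EN N, ‖s‖ ≤ 1 / 2 → b s = 1 := fun s hs =>
    b.one_of_mem_closedBall (by rw [mem_closedBall_zero_iff]; exact hs)
  have hb0 : ∀ s : EN N, 1 ≤ ‖s‖ → b s = 0 := fun s hs =>
    b.zero_of_le_dist (by rw [dist_zero_right]; exact hs)
  have hbn : ∀ s : EN N, 0 ≤ b s := fun s => b.nonneg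
  have hble : ∀ s : EN N, b s ≤ 1 := fun s => b.le_one
  -- bound of the derivatives
  have hbd : ∀ j : ℕ, ∃ C : ℝ, ∀ s, ‖iteratedFDeriv ℝ j b s‖ ≤ C := by
    intro j
    exact (hbs.continuous_iteratedFDeriv (by exact_mod_cast le_top)).bounded_above_of_compact_support
      (b.hasCompactSupport.iteratedFDeriv j)
  choose Mj hMj using hbd
  obtain ⟨M, hM0, hM⟩ : ∃ M : ℝ, 0 ≤ M ∧ ∀ j ≤ k, ∀ s, ‖iteratedFDeriv ℝ j b s‖ ≤ M := by
    refine ⟨∑ j ∈ Finset.range (k + 1), |Mj j|, Finset.sum_nonneg fun j _ => abs_nonneg _, ?_⟩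
    intro j hj s
    refine ((hMj j s).trans (le_abs_self _)).trans ?_
    exact Finset.single_le_sum (f := fun j => |Mj j|) (fun i _ => abs_nonneg _)
      (Finset.mem_range.2 (by omega))
  have hC : 0 < (2 : ℝ) ^ N * (2 ^ k * (M + 1)) := by positivity
  refine ⟨b, (2 : ℝ) ^ N * (2 ^ k * (M + 1)), hC, ?_, ?_, ?_⟩
  · refine ⟨hbs, hb0, hbn, fun j hj s => ?_⟩
    obtain rfl : j = 0 := by omega
    rw [norm_iteratedFDeriv_zero, Real.norm_eq_abs, abs_of_nonneg (hbn s)]
    exact hble s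
  · have e : (fun s : EN N => ((2 : ℝ) ^ N * (2 ^ k * (M + 1)))⁻¹ * (2 ^ N * b ((2 : ℝ) • s))) =
        fun s : EN N => (((2 : ℝ) ^ N * (2 ^ k * (M + 1)))⁻¹ * 2 ^ N) * b ((2 : ℝ) • s) := by
      funext s
      ring
    refine ⟨?_, ?_, ?_⟩
    · rw [e]
      exact contDiff_const.mul (hbs.comp (contDiff_const_smul _))
    · intro s hs
      rw [hb0 _ (by rw [norm_smul, Real.norm_two]; linarith), mul_zero, mul_zero]
    · rw [e]
      intro j hj s
      refine (bump_scale hbs hM0 hM _ j hj s).trans ?_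
      rw [abs_of_pos (by positivity)]
      have h1 : ((2 : ℝ) ^ N * (2 ^ k * (M + 1)))⁻¹ * 2 ^ N * (2 ^ k * M) = M / (M + 1) := by
        field_simp
      rw [h1, div_le_one (by linarith)]
      linarith
  · intro p hp
    have hp1 : ∀ s, |p s| ≤ 1 := fun s => by
      have h := hp.bound 0 (Nat.zero_le k) s
      rwa [norm_iteratedFDeriv_zero, Real.norm_eq_abs] at h
    refine ⟨⟨?_, ?_, ?_, ?_⟩, ?_, ?_, ?_⟩
    · exact (hp.smooth.add hbs).div_const 2
    · intro s hs
      rw [hp.supp s (by linarith), hb0 s hs]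
      simp
    · intro s
      rcases le_total ‖s‖ (1 / 2) with h | h
      · rw [hb1 s h]
        have := (abs_le.1 (hp1 s)).1
        linarith
      · rw [hp.supp s h]
        have := hbn s
        linarith
    · intro j hj s
      obtain rfl : j = 0 := by omega
      rw [norm_iteratedFDeriv_zero, Real.norm_eq_abs, abs_le]
      have h1 := abs_le.1 (hp1 s)
      have h2 := hbn s
      have h3 := hble s
      rcases le_total ‖s‖ (1 / 2) with h | h
      · rw [hb1 s h]
        constructor <;> linarith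
      · rw [hp.supp s h]
        constructor <;> linarith
    · have h1 : ContDiff ℝ ∞ fun s : EN N => p ((2 : ℝ) • s) :=
        hp.smooth.comp (contDiff_const_smul _)
      have h2 : ContDiff ℝ ∞ fun s : EN N => b ((2 : ℝ) • s) := hbs.comp (contDiff_const_smul _)
      exact contDiff_const.mul (contDiff_const.mul ((h1.add h2).div_const 2))
    · intro s hs
      have h1 : 1 ≤ ‖(2 : ℝ) • s‖ := by rw [norm_smul, Real.norm_two]; linarith
      rw [hb0 _ h1, hp.supp _ (by linarith)]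
      simp
    · have hs : ContDiff ℝ ∞ fun s => p s + b s := hp.smooth.add hbs
      have hM' : ∀ j ≤ k, ∀ s, ‖iteratedFDeriv ℝ j (fun s => p s + b s) s‖ ≤ M + 1 := by
        intro j hj s
        have e : (fun s => p s + b s) = p + b := rfl
        rw [e, iteratedFDeriv_add_apply (hp.smooth.of_le (by exact_mod_cast le_top)).contDiffAt
          (hbs.of_le (by exact_mod_cast le_top)).contDiffAt]
        refine (norm_add_le _ _).trans ?_
        have h1 := hp.bound j hj s
        have h2 := hM j hj s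
        linarith
      have e : (fun s : EN N => ((2 : ℝ) ^ N * (2 ^ k * (M + 1)))⁻¹ *
          (2 ^ N * ((p ((2 : ℝ) • s) + b ((2 : ℝ) • s)) / 2))) =
          fun s : EN N => (((2 : ℝ) ^ N * (2 ^ k * (M + 1)))⁻¹ * 2 ^ N / 2) *
            (fun s => p s + b s) ((2 : ℝ) • s) := by
        funext s
        ring
      rw [e]
      intro j hj s
      refine (bump_scale hs (by linarith) hM' _ j hj s).trans ?_
      rw [abs_of_pos (by positivity)]
      have h1 : ((2 : ℝ) ^ N * (2 ^ k * (M + 1)))⁻¹ * 2 ^ N / 2 * (2 ^ k * (M + 1)) = 1 / 2 := by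
        field_simp
      rw [h1]
      norm_num

end Setup

end Pool.Agent.W_MP_d8b8b7_gt
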