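import Pool.Agent.W_MP_d8b8b7_gt.ComA

/-!
# Reduction of an amplitude to the diagonal
-/

namespace Pool.Agent.W_MP_d8b8b7_gt

open MeasureTheory Set Filter Topology
open scoped ContDiff ENNReal

variable {N : ℕ}

namespace Setup

variable (S : Setup N)

/-- the integrand of `Op` is integrable -/
theorem comB_integrable {p : EN N → ℝ} (hp : ContDiff ℝ ∞ p) (hps : ∀ s, 1 ≤ ‖s‖ → p s = 0)
    {A : EN N → EN N → (Bil N →L[ℝ] Bil N)}
    (hA : ContDiff ℝ ∞ (fun z : EN N × EN N => A z.1 z.2)) {δ : ℝ} (hδ : 0 < δ)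
    {b : EN N → C6} (hb : S.L2F b) (x : EN N) :
    Integrable (fun s => p s • A (δ • s) x (S.ex b (x + δ • s))) volume := by
  have h1 : Integrable (fun s => S.ex b (x + δ • s)) volume :=
    ((S.integrable_ex hb).comp_add_left x).comp_smul hδ.ne'
  have hAc : Continuous (fun s : EN N => A (δ • s) x) :=
    hA.continuous.comp ((continuous_const_smul δ).prodMk continuous_const)
  have hg : Continuous (fun s : EN N => p s • A (δ • s) x) := hp.continuous.smul hAc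
  obtain ⟨C, hC⟩ := (isCompact_closedBall (0 : EN N) 1).exists_bound_of_continuousOn
    hg.continuousOn
  have hC' : ∀ s, ‖p s • A (δ • s) x‖ ≤ |C| := by
    intro s
    by_cases hs : s ∈ Metric.closedBall (0 : EN N) 1
    · exact (hC s hs).trans (le_abs_self C)
    · rw [mem_closedBall_zero_iff, not_le] at hs
      rw [hps s hs.le, zero_smul, norm_zero]
      exact abs_nonneg C
  have hm : AEStronglyMeasurable (fun s => p s • A (δ • s) x (S.ex b (x + δ • s))) volume :=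
    ContinuousLinearMap.aestronglyMeasurable_comp₂
      (ContinuousLinearMap.id ℝ (Bil N →L[ℝ] Bil N)) hg.aestronglyMeasurable
      h1.aestronglyMeasurable
  refine (h1.norm.const_mul |C|).mono' hm (ae_of_all _ fun s => ?_)
  calc ‖p s • A (δ • s) x (S.ex b (x + δ • s))‖ = ‖(p s • A (δ • s) x) (S.ex b (x + δ • s))‖ := rfl
    _ ≤ ‖p s • A (δ • s) x‖ * ‖S.ex b (x + δ • s)‖ := ContinuousLinearMap.le_opNorm _ _
    _ ≤ |C| * ‖S.ex b (x + δ • s)‖ := mul_le_mul_of_nonneg_right (hC' s) (norm_nonneg _)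

theorem comB_Op_sub {p : EN N → ℝ} (hp : ContDiff ℝ ∞ p) (hps : ∀ s, 1 ≤ ‖s‖ → p s = 0)
    {A A' : EN N → EN N → (Bil N →L[ℝ] Bil N)}
    (hA : ContDiff ℝ ∞ (fun z : EN N × EN N => A z.1 z.2))
    (hA' : ContDiff ℝ ∞ (fun z : EN N × EN N => A' z.1 z.2)) {δ : ℝ} (hδ : 0 < δ)
    {b : EN N → C6} (hb : S.L2F b) :
    S.Op p A δ b = S.Op p A' δ b + S.Op p (fun h x => A h x - A' h x) δ b := by
  have hs : ContDiff ℝ ∞ (fun z : EN N × EN N => A z.1 z.2 - A' z.1 z.2) := hA.sub hA'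
  funext x
  rw [Pi.add_apply]
  unfold Op
  rw [← integral_add (S.comB_integrable hp hps hA' hδ hb x)
    (S.comB_integrable (A := fun h x => A h x - A' h x) hp hps hs hδ hb x)]
  apply integral_congr_ae
  apply ae_of_all
  intro s
  simp only [sub_apply, smul_sub]
  abel

theorem comB_Op_antiL {p : EN N → ℝ} (hp : ContDiff ℝ ∞ p) (hps : ∀ s, 1 ≤ ‖s‖ → p s = 0)
    {A : EN N → EN N → (Bil N →L[ℝ] Bil N)}
    (hA : ContDiff ℝ ∞ (fun z : EN N × EN N => A z.1 z.2)) {δ : ℝ} (hδ : 0 < δ)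
    {b : EN N → C6} (hb : S.L2F b) (x : EN N) :
    S.Op p (fun h x => (S.antiL x).comp (A h x)) δ b x = S.antiL x (S.Op p A δ b x) := by
  unfold Op
  rw [← ContinuousLinearMap.integral_comp_comm _ (S.comB_integrable hp hps hA hδ hb x)]
  apply integral_congr_ae
  apply ae_of_all
  intro s
  simp only [ContinuousLinearMap.comp_apply, map_smul]

theorem comB_T {k : ℕ} {K : ℝ} {T : (EN N → Bil N) → ℝ} (hT : S.IsCur k K T)
    {p : EN N → ℝ} (hp : ContDiff ℝ ∞ p) (hps : ∀ s, 1 ≤ ‖s‖ → p s = 0)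
    {A : EN N → EN N → (Bil N →L[ℝ] Bil N)}
    (hA : ContDiff ℝ ∞ (fun z : EN N × EN N => A z.1 z.2)) {δ : ℝ} (hδ : 0 < δ)
    {b : EN N → C6} (hb : S.L2F b) :
    T (S.Op p (fun h x => (S.antiL x).comp (A h x)) δ b) = T (S.Op p A δ b) := by
  have h1 : S.Op p (fun h x => (S.antiL x).comp (A h x)) δ b =
      fun x => S.antiL x (S.Op p A δ b x) :=
    funext fun x => S.comB_Op_antiL hp hps hA hδ hb x
  rw [h1]
  exact IsCur.antiL_eq S hT (S.contDiff_Op hp A hA hδ hb)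

/-- antiL x produces alternating forms invariant under the projection, for x in X -/
theorem comB_antiL_alt (x v : EN N) (b : Bil N) : S.antiL x b v v = 0 := by
  rw [antiL_apply]
  unfold Geom.antiB
  simp

theorem comB_pull_antiL {x : EN N} (hx : x ∈ S.X) (b : Bil N) :
    Bil.pull (S.D x) (S.antiL x b) = S.antiL x b := by
  rw [antiL_apply]
  unfold Geom.antiB
  have h1 : ∀ v, S.D x (S.D x v) = S.D x v := fun v => S.D_D hx v
  have h2 : ∀ v, S.J x (S.D x v) = S.J x v := fun v => S.J_D x hx v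
  ext u v
  simp [h1, h2]

/-- the anti-invariant part of the amplitude -/
noncomputable def comA1 (A : EN N → EN N → (Bil N →L[ℝ] Bil N)) (h x : EN N) :
    Bil N →L[ℝ] Bil N := (S.antiL x).comp (A h x)

/-- the amplitude of the smoothing of the reduced field -/
noncomputable def comA2 (A : EN N → EN N → (Bil N →L[ℝ] Bil N)) (h x : EN N) :
    Bil N →L[ℝ] Bil N := (S.ampR h x).comp (S.comA1 A 0 (S.rho (x + h)))

/-- the reduced field -/
noncomputable def comBe (A : EN N → EN N → (Bil N →L[ℝ] Bil N)) (b : EN N → C6) (x : EN N) :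
    Bil N := S.comA1 A 0 x (S.rc b x)

theorem smooth_comA1 {A : EN N → EN N → (Bil N →L[ℝ] Bil N)}
    (hA : ContDiff ℝ ∞ (fun z : EN N × EN N => A z.1 z.2)) :
    ContDiff ℝ ∞ (fun z : EN N × EN N => S.comA1 A z.1 z.2) :=
  (S.smooth_antiL.comp contDiff_snd).clm_comp hA

theorem smooth_comA10 {A : EN N → EN N → (Bil N →L[ℝ] Bil N)}
    (hA : ContDiff ℝ ∞ (fun z : EN N × EN N => A z.1 z.2)) :
    ContDiff ℝ ∞ (fun x : EN N => S.comA1 A 0 x) := by
  have h : ContDiff ℝ ∞ (fun x : EN N => ((0 : EN N), x)) := contDiff_prodMk_right (0 : EN N)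
  exact ContDiff.comp (g := fun z : EN N × EN N => S.comA1 A z.1 z.2)
    (f := fun x : EN N => ((0 : EN N), x)) (S.smooth_comA1 hA) h

theorem smooth_comA2 {A : EN N → EN N → (Bil N →L[ℝ] Bil N)}
    (hA : ContDiff ℝ ∞ (fun z : EN N × EN N => A z.1 z.2)) :
    ContDiff ℝ ∞ (fun z : EN N × EN N => S.comA2 A z.1 z.2) := by
  apply S.smooth_ampR.clm_comp
  exact (S.smooth_comA10 hA).comp (S.smooth_rho.comp (contDiff_snd.add contDiff_fst))

theorem comB_diag {A : EN N → EN N → (Bil N →L[ℝ] Bil N)} {x : EN N} (hx : x ∈ S.X) :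
    S.comA1 A 0 x - S.comA1 (S.comA2 A) 0 x = 0 := by
  ext1 β
  have h1 := (S.antiL_pull_antiL hx (A 0 x β)).1
  have h2 : S.comA1 (S.comA2 A) 0 x β =
      S.antiL x (Bil.pull (S.D x) (S.antiL x (A 0 x β))) := by
    unfold comA1 comA2 comA1
    simp only [ContinuousLinearMap.comp_apply]
    rw [add_zero, S.rho_fix x hx]
    congr 1
    change Bil.pull (S.D (x + 0)) _ = _
    rw [add_zero]
  change S.comA1 A 0 x β - S.comA1 (S.comA2 A) 0 x β = 0
  rw [h2, h1]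
  exact sub_self _

theorem measurable_comBe {A : EN N → EN N → (Bil N →L[ℝ] Bil N)}
    (hA : ContDiff ℝ ∞ (fun z : EN N × EN N => A z.1 z.2)) {b : EN N → C6} (hb : Measurable b) :
    Measurable (S.comBe A b) := by
  have h1 : Measurable (S.rc b) := S.measurable_rc hb
  have h2 : Continuous (fun x : EN N => S.comA1 A 0 x) := (S.smooth_comA10 hA).continuous
  have h3 : Continuous (fun z : (Bil N →L[ℝ] Bil N) × Bil N => z.1 z.2) :=
    continuous_fst.clm_apply continuous_snd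
  exact h3.measurable.comp (h2.measurable.prodMk h1)

theorem comBe_alt (A : EN N → EN N → (Bil N →L[ℝ] Bil N)) (b : EN N → C6) (x v : EN N) :
    S.comBe A b x v v = 0 := S.comB_antiL_alt x v (A 0 x (S.rc b x))

theorem pull_comBe (A : EN N → EN N → (Bil N →L[ℝ] Bil N)) (b : EN N → C6) {x : EN N}
    (hx : x ∈ S.X) : Bil.pull (S.D x) (S.comBe A b x) = S.comBe A b x :=
  S.comB_pull_antiL hx (A 0 x (S.rc b x))

theorem rc_cp_comBe (A : EN N → EN N → (Bil N →L[ℝ] Bil N)) (b : EN N → C6) {x : EN N}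
    (hx : x ∈ S.X) : S.rc (S.cp (S.comBe A b)) x = S.comBe A b x := by
  rw [S.rc_cp hx _ (fun v => S.comBe_alt A b x v), S.pull_comBe A b hx]

theorem ex_comBe (A : EN N → EN N → (Bil N →L[ℝ] Bil N)) (b : EN N → C6) (y : EN N) :
    S.ex (S.cp (S.comBe A b)) y = S.comA1 A 0 (S.rho y) (S.ex b y) := by
  by_cases hU : y ∈ S.Ud
  · unfold ex
    rw [indicator_of_mem hU, indicator_of_mem hU, S.rc_cp_comBe A b (S.rho_mem_X hU)]
    rfl
  · rw [S.ex_zero_of_not_mem hU, S.ex_zero_of_not_mem hU, map_zero]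

theorem Rb_comBe (A : EN N → EN N → (Bil N →L[ℝ] Bil N)) (b : EN N → C6) (p : EN N → ℝ)
    (δ : ℝ) : S.Rb p δ (S.cp (S.comBe A b)) = S.Op p (S.comA2 A) δ b := by
  funext x
  unfold Rb Op
  apply integral_congr_ae
  apply ae_of_all
  intro s
  change p s • Bil.pull (S.D (x + δ • s)) (S.ex (S.cp (S.comBe A b)) (x + δ • s)) =
    p s • S.comA2 A (δ • s) x (S.ex b (x + δ • s))
  rw [ex_comBe]
  rfl

theorem norm_comBe_le {A : EN N → EN N → (Bil N →L[ℝ] Bil N)}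
    (hA : ContDiff ℝ ∞ (fun z : EN N × EN N => A z.1 z.2)) :
    ∃ C : ℝ, 0 ≤ C ∧ ∀ (b : EN N → C6), ∀ x ∈ S.X, ‖S.cp (S.comBe A b) x‖ ≤ C * ‖b x‖ := by
  obtain ⟨C0, hC0, hX, -, -⟩ := S.exists_bound
  obtain ⟨C2, hC2⟩ := S.cptX.exists_bound_of_continuousOn
    (S.smooth_comA10 hA).continuous.continuousOn
  refine ⟨C0 * (|C2| * C0), by positivity, fun b x hx => ?_⟩
  obtain ⟨-, -, -, -, hrc, hcp⟩ := hX x hx
  calc ‖S.cp (S.comBe A b) x‖ ≤ C0 * ‖S.comBe A b x‖ := hcp _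
    _ ≤ C0 * (‖S.comA1 A 0 x‖ * ‖S.rc b x‖) := by
        apply mul_le_mul_of_nonneg_left _ (by linarith)
        exact ContinuousLinearMap.le_opNorm _ _
    _ ≤ C0 * (|C2| * (C0 * ‖b x‖)) := by
        apply mul_le_mul_of_nonneg_left _ (by linarith)
        exact mul_le_mul ((hC2 x hx).trans (le_abs_self _)) (hrc b) (norm_nonneg _)
          (abs_nonneg _)
    _ = C0 * (|C2| * C0) * ‖b x‖ := by ring

/-- Reduction of an amplitude to its value on the diagonal.  Put A'(h,x) = antiL x ∘ A(h,x) and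
b'(x) = cp of (A'(0,x) (rc b x)); then on X the field `rc b'` is A'(0,x)(rc b x),
`Rb p δ b' = Op p A'' δ b` with A''(h,x) = pull D(x+h) ∘ A'(0, rho (x+h)), and
E = A' - antiL ∘ A'' vanishes at h = 0, x in X. So T(Op p A δ b) = T(Rb p δ b') + T(Op p E δ b). -/
theorem Op_reduce (A : EN N → EN N → (Bil N →L[ℝ] Bil N))
    (hA : ContDiff ℝ ∞ (fun z : EN N × EN N => A z.1 z.2)) :
    ∃ (C : ℝ) (E : EN N → EN N → (Bil N →L[ℝ] Bil N)), 0 ≤ C ∧
      ContDiff ℝ ∞ (fun z : EN N × EN N => E z.1 z.2) ∧ (∀ x ∈ S.X, E 0 x = 0) ∧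
      ∀ b : EN N → C6, S.L2F b → ∃ b' : EN N → C6, S.L2F b' ∧ S.nrm b' ≤ C * S.nrm b ∧
        ∀ (k : ℕ) (K : ℝ) (T : (EN N → Bil N) → ℝ), S.IsCur k K T → ∀ p : EN N → ℝ,
          ContDiff ℝ ∞ p → (∀ s, 1 ≤ ‖s‖ → p s = 0) → ∀ δ : ℝ, 0 < δ → δ ≤ S.d0 / 2 →
          T (S.Op p A δ b) = T (S.Rb p δ b') + T (S.Op p E δ b) := by
  obtain ⟨C, hC, hle⟩ := S.norm_comBe_le hA
  have hA1 := S.smooth_comA1 hA
  have hA2 := S.smooth_comA2 hA
  have hA3 := S.smooth_comA1 hA2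
  have hE : ContDiff ℝ ∞ (fun z : EN N × EN N =>
      S.comA1 A z.1 z.2 - S.comA1 (S.comA2 A) z.1 z.2) := hA1.sub hA3
  refine ⟨C, fun h x => S.comA1 A h x - S.comA1 (S.comA2 A) h x, hC, hE,
    fun x hx => S.comB_diag hx, fun b hb => ?_⟩
  have hbm : Measurable (S.cp (S.comBe A b)) := S.measurable_cp (S.measurable_comBe hA hb.meas)
  have hae : ∀ᵐ x ∂S.nu, ‖S.cp (S.comBe A b) x‖ ≤ C * ‖b x‖ := by
    filter_upwards [S.ae_mem_X] with x hx using hle b x hx
  have hL2 : S.L2F (S.cp (S.comBe A b)) :=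
    ⟨hbm, hb.memLp.of_le_mul hbm.aestronglyMeasurable hae⟩
  refine ⟨S.cp (S.comBe A b), hL2, ?_, ?_⟩
  · have h1 : S.nrm (S.cp (S.comBe A b)) ^ 2 ≤ (C * S.nrm b) ^ 2 := by
      rw [mul_pow, S.nrm_sq, S.nrm_sq, ← integral_const_mul]
      apply integral_mono_ae (L2F.integrable_sq S hL2)
        ((L2F.integrable_sq S hb).const_mul (C ^ 2))
      filter_upwards [hae] with x hx
      rw [← mul_pow]
      exact pow_le_pow_left₀ (norm_nonneg _) hx 2
    exact (sq_le_sq₀ (S.nrm_nonneg _) (mul_nonneg hC (S.nrm_nonneg _))).1 h1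
  · intro k K T hT p hp hps δ hδ _
    have h1 : T (S.Op p (S.comA1 A) δ b) = T (S.Op p A δ b) := S.comB_T hT hp hps hA hδ hb
    have h2 : T (S.Op p (S.comA1 (S.comA2 A)) δ b) = T (S.Op p (S.comA2 A) δ b) :=
      S.comB_T hT hp hps hA2 hδ hb
    have h3 := S.comB_Op_sub hp hps hA1 hA3 hδ hb
    rw [S.Rb_comBe, ← h2, ← h1, h3]
    exact hT.add _ _ (S.contDiff_Op hp _ hA3 hδ hb) (S.contDiff_Op hp _ hE hδ hb)

end Setup

end Pool.Agent.W_MP_d8b8b7_gt
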