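import Pool.Agent.W_MP_d8b8b7_gt.Crude
import Pool.Agent.W_MP_d8b8b7_gt.ComB

/-!
# Operators with amplitude and commutators, in terms of the energy at the SAME scale
-/

namespace Pool.Agent.W_MP_d8b8b7_gt

open MeasureTheory Set Filter Topology
open scoped ContDiff ENNReal

variable {N : ℕ}

namespace Setup

variable (S : Setup N)

/-- scalar multiples of profiles -/
theorem com_Op_smul_prof (c : ℝ) (p : EN N → ℝ) (A : EN N → EN N → (Bil N →L[ℝ] Bil N)) (δ : ℝ)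
    (b : EN N → C6) (x : EN N) :
    S.Op (fun s => c * p s) A δ b x = c • S.Op p A δ b x := by
  unfold Op
  rw [← integral_smul]
  refine integral_congr_ae (Eventually.of_forall fun s => ?_)
  change (c * p s) • _ = c • (p s • _)
  rw [mul_smul]

theorem com_T_zero {k : ℕ} {K : ℝ} {T : (EN N → Bil N) → ℝ} (hT : S.IsCur k K T) : T 0 = 0 := by
  have h := hT.smul 0 0 contDiff_const
  rw [zero_smul, zero_mul] at h
  exact h

/-- finite additivity -/
theorem com_T_sum {k : ℕ} {K : ℝ} {T : (EN N → Bil N) → ℝ} (hT : S.IsCur k K T) {ι : Type*}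
    (s : Finset ι) (f : ι → EN N → Bil N) (hf : ∀ i ∈ s, ContDiff ℝ ∞ (f i)) :
    T (∑ i ∈ s, f i) = ∑ i ∈ s, T (f i) := by
  classical
  induction s using Finset.induction_on with
  | empty => simpa using S.com_T_zero hT
  | insert a s ha ih =>
    have h1 : ContDiff ℝ ∞ (∑ i ∈ s, f i) := by
      have h2 : ContDiff ℝ ∞ (fun x => ∑ i ∈ s, f i x) :=
        ContDiff.sum fun i hi => hf i (Finset.mem_insert_of_mem hi)
      have h3 : (∑ i ∈ s, f i) = fun x => ∑ i ∈ s, f i x := by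
        ext1 x
        exact Finset.sum_apply x s f
      rw [h3]
      exact h2
    rw [Finset.sum_insert ha, Finset.sum_insert ha, hT.add _ _ (hf a (Finset.mem_insert_self a s)) h1,
      ih fun i hi => hf i (Finset.mem_insert_of_mem hi)]

theorem com_prof_supp {k : ℕ} {p : EN N → ℝ} (hp : Prof k p) (s : EN N) (hs : 1 ≤ ‖s‖) : p s = 0 :=
  hp.supp s (by linarith)

/-- Hadamard expansion on the level of currents -/
theorem com_hadamard (k : ℕ) (E : EN N → EN N → (Bil N →L[ℝ] Bil N))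
    (hE : ContDiff ℝ ∞ (fun z : EN N × EN N => E z.1 z.2)) (h0 : ∀ x ∈ S.X, E 0 x = 0) :
    ∃ (Ei : Fin N → EN N → EN N → (Bil N →L[ℝ] Bil N)) (C : ℝ), 0 < C ∧
      (∀ i, ContDiff ℝ ∞ (fun z : EN N × EN N => Ei i z.1 z.2)) ∧
      ∀ (K : ℝ) (T : (EN N → Bil N) → ℝ), S.IsCur k K T → ∀ δ : ℝ, 0 < δ →
      ∀ p : EN N → ℝ, Prof k p → ∀ b : EN N → C6, S.L2F b →
        ∃ q : Fin N → EN N → ℝ, (∀ i, Prof k (q i)) ∧
          T (S.Op p E δ b) = ∑ i, δ * C * T (S.Op (q i) (Ei i) δ b) := by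
  obtain ⟨Ei, hEi, hexp⟩ := S.Op_hadamard E hE h0
  obtain ⟨C, hC, hq⟩ := prof_mul_coord (N := N) k
  refine ⟨Ei, C, hC, hEi, ?_⟩
  intro K T hT δ hδ p hp b hb
  refine ⟨fun i s => C⁻¹ * (s i * p s), fun i => hq p hp i, ?_⟩
  have hsm : ∀ i, ContDiff ℝ ∞ (S.Op (fun s => C⁻¹ * (s i * p s)) (Ei i) δ b) := fun i =>
    S.contDiff_Op (hq p hp i).smooth (Ei i) (hEi i) hδ hb
  have hsm' : ∀ i, ContDiff ℝ ∞ ((δ * C) • S.Op (fun s => C⁻¹ * (s i * p s)) (Ei i) δ b) := fun i =>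
    (hsm i).const_smul (δ * C)
  have hsum : ContDiff ℝ ∞ (∑ i, (δ * C) • S.Op (fun s => C⁻¹ * (s i * p s)) (Ei i) δ b) := by
    have h2 : ContDiff ℝ ∞ (fun x => ∑ i : Fin N,
        ((δ * C) • S.Op (fun s => C⁻¹ * (s i * p s)) (Ei i) δ b) x) :=
      ContDiff.sum fun i _ => hsm' i
    have h3 : (∑ i, (δ * C) • S.Op (fun s => C⁻¹ * (s i * p s)) (Ei i) δ b) = fun x => ∑ i : Fin N,
        ((δ * C) • S.Op (fun s => C⁻¹ * (s i * p s)) (Ei i) δ b) x := by
      ext1 x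
      exact Finset.sum_apply x _ _
    rw [h3]
    exact h2
  have h1 : T (S.Op p E δ b) =
      T (∑ i, (δ * C) • S.Op (fun s => C⁻¹ * (s i * p s)) (Ei i) δ b) := by
    refine IsCur.congr S hT (S.contDiff_Op hp.smooth E hE hδ hb) hsum ?_
    intro x hx u v _ _
    have h2 : S.Op p E δ b x =
        (∑ i, (δ * C) • S.Op (fun s => C⁻¹ * (s i * p s)) (Ei i) δ b) x := by
      rw [hexp p hp.smooth (com_prof_supp hp) δ hδ b hb x hx, Finset.sum_apply]
      refine Finset.sum_congr rfl fun i _ => ?_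
      rw [Pi.smul_apply, com_Op_smul_prof S C⁻¹ (fun s => s i * p s), smul_smul, mul_assoc,
        mul_inv_cancel₀ hC.ne', mul_one]
    rw [h2]
  rw [h1, S.com_T_sum hT _ _ fun i _ => hsm' i]
  refine Finset.sum_congr rfl fun i _ => ?_
  rw [hT.smul _ _ (hsm i)]

/-- Recursion: for every j, every smooth amplitude A has a constant C with
`|T (Op p A δ b)| ≤ C (e + K δ^j δ^{-(k+2)}) ‖b‖`.  j = 0 is `crude`; the step uses `Op_reduce`,
`Op_hadamard` and `prof_mul_coord`. -/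
theorem op_bound_rec (k j : ℕ) (A : EN N → EN N → (Bil N →L[ℝ] Bil N))
    (hA : ContDiff ℝ ∞ (fun z : EN N × EN N => A z.1 z.2)) :
    ∃ C : ℝ, 0 ≤ C ∧ ∀ (K : ℝ) (T : (EN N → Bil N) → ℝ), S.IsCur k K T →
    ∀ δ : ℝ, 0 < δ → δ ≤ S.d0 / 2 → ∀ e : ℝ, 0 ≤ e → S.Ebd k T δ e →
    ∀ p : EN N → ℝ, Prof k p → ∀ b : EN N → C6, S.L2F b →
      |T (S.Op p A δ b)| ≤ C * (e + K * δ ^ j * δ⁻¹ ^ (k + 2)) * S.nrm b := by
  induction j generalizing A with
  | zero =>
    obtain ⟨C, hC0, hC⟩ := S.crude k A hA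
    refine ⟨C, hC0, ?_⟩
    intro K T hT δ hδ hδ' e he hE p hp b hb
    refine (hC K T hT δ hδ hδ' p hp b hb).trans ?_
    refine mul_le_mul_of_nonneg_right ?_ (S.nrm_nonneg b)
    rw [pow_zero, mul_one, mul_assoc]
    exact mul_le_mul_of_nonneg_left (by linarith) hC0
  | succ j ih =>
    obtain ⟨C₁, E, hC₁, hE, h0, hred⟩ := S.Op_reduce A hA
    obtain ⟨Ei, C₂, hC₂, hEi, hhad⟩ := S.com_hadamard k E hE h0
    choose Ci hCi hih using fun i => ih (Ei i) (hEi i)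
    refine ⟨C₁ + ∑ i, C₂ * Ci i, ?_, ?_⟩
    · exact add_nonneg hC₁ (Finset.sum_nonneg fun i _ => mul_nonneg hC₂.le (hCi i))
    intro K T hT δ hδ hδ' e he hEb p hp b hb
    have hδ1 : δ ≤ 1 := by linarith [S.d0_le, S.d0_pos]
    obtain ⟨b', hb', hnb', hb''⟩ := hred b hb
    obtain ⟨q, hq, hsum⟩ := hhad K T hT δ hδ p hp b hb
    have h1 := hb'' k K T hT p hp.smooth (com_prof_supp hp) δ hδ hδ'
    have hn := S.nrm_nonneg b
    have hK := hT.K_nonneg
    have hw : 0 ≤ K * δ ^ (j + 1) * δ⁻¹ ^ (k + 2) := by positivity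
    have h2 : |T (S.Rb p δ b')| ≤ C₁ * (e + K * δ ^ (j + 1) * δ⁻¹ ^ (k + 2)) * S.nrm b := by
      calc |T (S.Rb p δ b')| ≤ e * S.nrm b' := hEb p hp b' hb'
        _ ≤ e * (C₁ * S.nrm b) := mul_le_mul_of_nonneg_left hnb' he
        _ = C₁ * e * S.nrm b := by ring
        _ ≤ _ := by
          refine mul_le_mul_of_nonneg_right (mul_le_mul_of_nonneg_left ?_ hC₁) hn
          linarith
    have h3 : ∀ i, |δ * C₂ * T (S.Op (q i) (Ei i) δ b)| ≤
        C₂ * Ci i * (e + K * δ ^ (j + 1) * δ⁻¹ ^ (k + 2)) * S.nrm b := by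
      intro i
      have h4 := hih i K T hT δ hδ hδ' e he hEb (q i) (hq i) b hb
      rw [abs_mul, abs_of_nonneg (mul_nonneg hδ.le hC₂.le)]
      calc δ * C₂ * |T (S.Op (q i) (Ei i) δ b)|
          ≤ δ * C₂ * (Ci i * (e + K * δ ^ j * δ⁻¹ ^ (k + 2)) * S.nrm b) :=
            mul_le_mul_of_nonneg_left h4 (mul_nonneg hδ.le hC₂.le)
        _ = C₂ * Ci i * (δ * e + K * δ ^ (j + 1) * δ⁻¹ ^ (k + 2)) * S.nrm b := by
            rw [pow_succ]
            ring
        _ ≤ _ := by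
          refine mul_le_mul_of_nonneg_right (mul_le_mul_of_nonneg_left ?_
            (mul_nonneg hC₂.le (hCi i))) hn
          have h5 : δ * e ≤ 1 * e := mul_le_mul_of_nonneg_right hδ1 he
          linarith
    have h4 : |T (S.Op p E δ b)| ≤
        (∑ i, C₂ * Ci i) * (e + K * δ ^ (j + 1) * δ⁻¹ ^ (k + 2)) * S.nrm b := by
      rw [hsum, Finset.sum_mul, Finset.sum_mul]
      exact (Finset.abs_sum_le_sum_abs _ _).trans (Finset.sum_le_sum fun i _ => h3 i)
    rw [h1]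
    refine (abs_add_le _ _).trans ?_
    have h5 : (C₁ + ∑ i, C₂ * Ci i) * (e + K * δ ^ (j + 1) * δ⁻¹ ^ (k + 2)) * S.nrm b =
      C₁ * (e + K * δ ^ (j + 1) * δ⁻¹ ^ (k + 2)) * S.nrm b +
        (∑ i, C₂ * Ci i) * (e + K * δ ^ (j + 1) * δ⁻¹ ^ (k + 2)) * S.nrm b := by ring
    rw [h5]
    exact add_le_add h2 h4

/-- j = k + 2 -/
theorem op_bound (k : ℕ) (A : EN N → EN N → (Bil N →L[ℝ] Bil N))
    (hA : ContDiff ℝ ∞ (fun z : EN N × EN N => A z.1 z.2)) :
    ∃ C : ℝ, 0 ≤ C ∧ ∀ (K : ℝ) (T : (EN N → Bil N) → ℝ), S.IsCur k K T →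
    ∀ δ : ℝ, 0 < δ → δ ≤ S.d0 / 2 → ∀ e : ℝ, 0 ≤ e → S.Ebd k T δ e →
    ∀ p : EN N → ℝ, Prof k p → ∀ b : EN N → C6, S.L2F b →
      |T (S.Op p A δ b)| ≤ C * (K + e) * S.nrm b := by
  obtain ⟨C, hC0, hC⟩ := S.op_bound_rec k (k + 2) A hA
  refine ⟨C, hC0, ?_⟩
  intro K T hT δ hδ hδ' e he hE p hp b hb
  have h1 := hC K T hT δ hδ hδ' e he hE p hp b hb
  have h2 : K * δ ^ (k + 2) * δ⁻¹ ^ (k + 2) = K := by
    rw [mul_assoc, ← mul_pow, mul_inv_cancel₀ hδ.ne', one_pow, mul_one]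
  rw [h2, add_comm e K] at h1
  exact h1

/-- the projection on the J-invariant part as a continuous linear map -/
noncomputable def com_invL (x : EN N) : Bil N →L[ℝ] Bil N :=
  (1 / 2 : ℝ) • (Bil.pullL (S.D x) + Bil.pullL (S.J x))

theorem com_invL_apply (x : EN N) (b : Bil N) (u v : EN N) :
    S.com_invL x b u v = (b (S.D x u) (S.D x v) + b (S.J x u) (S.J x v)) / 2 := by
  change (1 / 2 : ℝ) * (b (S.D x u) (S.D x v) + b (S.J x u) (S.J x v)) = _
  ring

theorem com_contDiff_pullL {E : Type*} [NormedAddCommGroup E] [NormedSpace ℝ E]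
    {A : E → (EN N →L[ℝ] EN N)} (hA : ContDiff ℝ ∞ A) :
    ContDiff ℝ ∞ (fun x => Bil.pullL (A x) : E → (Bil N →L[ℝ] Bil N)) := by
  rw [contDiff_clm_apply_iff]
  intro b
  exact Bil.contDiff_pull contDiff_const hA

theorem com_smooth_invL : ContDiff ℝ ∞ S.com_invL := by
  unfold com_invL
  exact ((com_contDiff_pullL S.smooth_D).add (com_contDiff_pullL S.smooth_J)).const_smul _

theorem com_ampR_eq (h x : EN N) : S.ampR h x = Bil.pullL (S.D (x + h)) := rfl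

/-- the amplitude of the commutator -/
noncomputable def com_amp (h x : EN N) : Bil N →L[ℝ] Bil N :=
  (S.antiL x).comp ((S.ampR h x).comp (S.com_invL (S.rho (x + h))))

theorem com_smooth_amp : ContDiff ℝ ∞ (fun z : EN N × EN N => S.com_amp z.1 z.2) := by
  unfold com_amp
  refine (S.smooth_antiL.comp contDiff_snd).clm_comp (S.smooth_ampR.clm_comp ?_)
  exact S.com_smooth_invL.comp (S.smooth_rho.comp (contDiff_snd.add contDiff_fst))

theorem com_amp_zero {x : EN N} (hx : x ∈ S.X) : S.com_amp 0 x = 0 := by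
  refine ContinuousLinearMap.ext fun b => Bil.ext fun u v => ?_
  have hD : ∀ v, S.D x (S.D x v) = S.D x v := fun v => S.D_D hx v
  have hJD : ∀ v, S.J x (S.D x v) = S.J x v := fun v => S.J_D x hx v
  have hDJ : ∀ v, S.D x (S.J x v) = S.J x v := fun v => S.D_J x hx v
  have hJJ : ∀ v, S.J x (S.J x v) = - S.D x v := fun v => S.J_J x hx v
  change S.antiL x (S.ampR 0 x (S.com_invL (S.rho (x + 0)) b)) u v = 0
  rw [add_zero, S.rho_fix x hx, S.antiL_apply, com_ampR_eq, add_zero]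
  simp only [Geom.antiB, Bil.smul_apply, Bil.sub_apply, Bil.flip_apply, Bil.pull_apply, Bil.pullL_apply,
    com_invL_apply, hD, hJD, hDJ, hJJ, Bil.neg_left, Bil.neg_right, neg_neg]
  ring

/-- at points of X forms without anti-invariant components are J-invariant -/
theorem com_invL_rc {x : EN N} (hx : x ∈ S.X) {b : EN N → C6} (hb : pr2 (b x) = 0) :
    S.com_invL x (S.rc b x) = S.rc b x := by
  have h1 : b x 1 = b x 4 := by
    have h := congrArg (fun a : C6 => a 1) hb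
    change (b x 1 - b x 4) / 2 = 0 at h
    linarith
  have h2 : b x 2 = - b x 3 := by
    have h := congrArg (fun a : C6 => a 2) hb
    change (b x 2 + b x 3) / 2 = 0 at h
    linarith
  have hJ : ∀ v, S.th 0 x (S.J x v) = - S.th 1 x v ∧ S.th 1 x (S.J x v) = S.th 0 x v ∧
      S.th 2 x (S.J x v) = - S.th 3 x v ∧ S.th 3 x (S.J x v) = S.th 2 x v := by
    intro v
    have h := S.crd_J hx v
    exact ⟨congrArg (fun a : EN 4 => a 0) h, congrArg (fun a : EN 4 => a 1) h,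
      congrArg (fun a : EN 4 => a 2) h, congrArg (fun a : EN 4 => a 3) h⟩
  refine Bil.ext fun u v => ?_
  have h3 : S.rc b x (S.D x u) (S.D x v) = S.rc b x u v := by
    have h := S.pull_D_rc hx b
    rw [← Bil.pull_apply, h]
  have h4 : S.rc b x (S.J x u) (S.J x v) = S.rc b x u v := by
    rw [S.rc_apply, S.rc_apply, (hJ u).1, (hJ u).2.1, (hJ u).2.2.1, (hJ u).2.2.2, (hJ v).1,
      (hJ v).2.1, (hJ v).2.2.1, (hJ v).2.2.2, h1, h2]
    ring
  rw [com_invL_apply, h3, h4]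
  ring

/-- Commutator estimate: T of the smoothing of a (1,1) form is O(δ).  On X the field rc b is
J-invariant, so Rb p δ b = Op p A δ b with A(h,x) = pull D(x+h) ∘ inv(rho(x+h)) where
inv(x) = (pull D x + pull J x)/2; antiL x ∘ A(h,x) vanishes at h = 0 for x in X; use
`IsCur.antiL_eq`, `Op_hadamard`, `op_bound`, `prof_mul_coord`. -/
theorem com_bound (k : ℕ) :
    ∃ C : ℝ, 0 ≤ C ∧ ∀ (K : ℝ) (T : (EN N → Bil N) → ℝ), S.IsCur k K T →
    ∀ δ : ℝ, 0 < δ → δ ≤ S.d0 / 2 → ∀ e : ℝ, 0 ≤ e → S.Ebd k T δ e →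
    ∀ p : EN N → ℝ, Prof k p → ∀ b : EN N → C6, S.L2F b → (∀ x, pr2 (b x) = 0) →
      |T (S.Rb p δ b)| ≤ C * δ * (K + e) * S.nrm b := by
  obtain ⟨Ei, C₂, hC₂, hEi, hhad⟩ := S.com_hadamard k S.com_amp S.com_smooth_amp
    (fun x hx => S.com_amp_zero hx)
  choose Ci hCi hop using fun i => S.op_bound k (Ei i) (hEi i)
  refine ⟨∑ i, C₂ * Ci i, Finset.sum_nonneg fun i _ => mul_nonneg hC₂.le (hCi i), ?_⟩
  intro K T hT δ hδ hδ' e he hEb p hp b hb hpr
  obtain ⟨q, hq, hsum⟩ := hhad K T hT δ hδ p hp b hb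
  have hsmR : ContDiff ℝ ∞ (S.Rb p δ b) := (S.isForm_Rb hp.smooth hδ hb).smooth
  have hsmL : ContDiff ℝ ∞ (fun x => S.antiL x (S.Rb p δ b x)) := S.smooth_antiL.clm_apply hsmR
  have h1 : T (S.Rb p δ b) = T (S.Op p S.com_amp δ b) := by
    rw [← IsCur.antiL_eq S hT hsmR]
    refine IsCur.congr S hT hsmL (S.contDiff_Op hp.smooth _ S.com_smooth_amp hδ hb) ?_
    intro x hx u v _ _
    have h2 : S.antiL x (S.Rb p δ b x) = S.Op p S.com_amp δ b x := by
      have h3 := S.anti_Op_eq hp.smooth S.ampR S.smooth_ampR hδ hb x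
      rw [S.rho_fix x hx] at h3
      rw [S.antiL_apply, S.Rb_eq_Op]
      change S.anti (S.Op p S.ampR δ b) x = _
      rw [h3, S.Op_eq_integral S.com_amp hδ b x]
      refine integral_congr_ae (Eventually.of_forall fun z => ?_)
      change (δ⁻¹ ^ N * p (δ⁻¹ • (z - x))) • (S.antiL x (S.ampR (z - x) x (S.ex b z))) =
        (δ⁻¹ ^ N * p (δ⁻¹ • (z - x))) • (S.antiL x (S.ampR (z - x) x
          (S.com_invL (S.rho (x + (z - x))) (S.ex b z))))
      have h4 : S.com_invL (S.rho (x + (z - x))) (S.ex b z) = S.ex b z := by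
        rw [add_sub_cancel]
        by_cases hz : z ∈ S.Ud
        · have h5 : S.ex b z = S.rc b (S.rho z) := Set.indicator_of_mem hz _
          rw [h5]
          exact S.com_invL_rc (S.rho_mem_X hz) (hpr _)
        · rw [S.ex_zero_of_not_mem hz, map_zero]
      rw [h4]
    change S.antiL x (S.Rb p δ b x) u v = _
    rw [h2]
  rw [h1, hsum]
  have hn := S.nrm_nonneg b
  have h3 : ∀ i, |δ * C₂ * T (S.Op (q i) (Ei i) δ b)| ≤ C₂ * Ci i * δ * (K + e) * S.nrm b := by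
    intro i
    have h4 := hop i K T hT δ hδ hδ' e he hEb (q i) (hq i) b hb
    rw [abs_mul, abs_of_nonneg (mul_nonneg hδ.le hC₂.le)]
    calc δ * C₂ * |T (S.Op (q i) (Ei i) δ b)|
        ≤ δ * C₂ * (Ci i * (K + e) * S.nrm b) :=
          mul_le_mul_of_nonneg_left h4 (mul_nonneg hδ.le hC₂.le)
      _ = _ := by ring
  rw [Finset.sum_mul, Finset.sum_mul, Finset.sum_mul]
  exact (Finset.abs_sum_le_sum_abs _ _).trans (Finset.sum_le_sum fun i _ => h3 i)

end Setup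

end Pool.Agent.W_MP_d8b8b7_gt
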