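import Pool.Agent.W_MP_d8b8b7_gt.OpSmooth

/-!
# Algebra of the operators `Rb p δ`
-/

namespace Pool.Agent.W_MP_d8b8b7_gt

open MeasureTheory Set Filter Topology
open scoped ContDiff ENNReal

variable {N : ℕ}

/-- bounded continuous families of linear maps preserve integrability -/
theorem rbAlg_generic {F : Type*} [NormedAddCommGroup F] [NormedSpace ℝ F] {f : EN N → F}
    (hf : Integrable f volume) {Φ : EN N → (F →L[ℝ] F)} (hΦ : Continuous Φ) {c : EN N → ℝ}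
    (hc : Continuous c) {K : Set (EN N)} (hK : IsCompact K) (hcK : ∀ y ∉ K, c y = 0) :
    Integrable (fun y => c y • Φ y (f y)) volume := by
  obtain ⟨C, hC⟩ := hK.exists_bound_of_continuousOn (hc.smul hΦ).continuousOn
  refine Integrable.mono' (g := fun y => max C 0 * ‖f y‖) (hf.norm.const_mul _) ?_ ?_
  · exact hc.aestronglyMeasurable.smul
      ((isBoundedBilinearMap_apply (𝕜 := ℝ) (E := F) (F := F)).continuous.comp_aestronglyMeasurable
        (hΦ.aestronglyMeasurable.prodMk hf.aestronglyMeasurable))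
  · refine Filter.Eventually.of_forall fun y => ?_
    by_cases hy : y ∈ K
    · have h1 := hC y hy
      have h2 : c y • Φ y (f y) = (c y • Φ y) (f y) := rfl
      rw [h2]
      exact (c y • Φ y).le_of_opNorm_le (h1.trans (le_max_left _ _)) (f y)
    · rw [hcK y hy, zero_smul, norm_zero]
      exact mul_nonneg (le_max_right _ _) (norm_nonneg _)

theorem rbAlg_cont {E F : Type*} [NormedAddCommGroup E] [NormedSpace ℝ E] [NormedAddCommGroup F]
    [NormedSpace ℝ F] (A : E → E → F) (hA : ContDiff ℝ ∞ (fun z : E × E => A z.1 z.2)) (δ : ℝ)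
    (x : E) : Continuous fun s : E => A (δ • s) x := by
  have h1 : Continuous fun s : E => ((δ • s, x) : E × E) := by fun_prop
  exact hA.continuous.comp h1

namespace Setup

variable (S : Setup N)

theorem rbAlg_ampR_apply (h x : EN N) (β : Bil N) :
    S.ampR h x β = Bil.pull (S.D (x + h)) β := rfl

/-- integrability of the integrand of `Rb` -/
theorem rbAlg_int_s {p : EN N → ℝ} (hp : Continuous p) (hps : ∀ s, 1 ≤ ‖s‖ → p s = 0) {δ : ℝ}
    (hδ : 0 < δ) {b : EN N → C6} (hb : S.L2F b) (x : EN N) :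
    Integrable (fun s => p s • Bil.pull (S.D (x + δ • s)) (S.ex b (x + δ • s))) volume := by
  have h1 : Integrable (fun s => S.ex b (x + δ • s)) volume :=
    ((S.integrable_ex hb).comp_add_left x).comp_smul hδ.ne'
  have hcont : Continuous fun s : EN N => S.ampR (δ • s) x :=
    rbAlg_cont S.ampR S.smooth_ampR δ x
  exact rbAlg_generic h1 hcont hp (isCompact_closedBall (0 : EN N) 1) fun s hs => by
    apply hps
    rw [Metric.mem_closedBall, not_le, dist_zero_right] at hs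
    exact hs.le

theorem Rb_add {p : EN N → ℝ} (hp : ContDiff ℝ ∞ p) (hps : ∀ s, 1 ≤ ‖s‖ → p s = 0) {δ : ℝ}
    (hδ : 0 < δ) {b b' : EN N → C6} (hb : S.L2F b) (hb' : S.L2F b') :
    S.Rb p δ (b + b') = S.Rb p δ b + S.Rb p δ b' := by
  rw [S.Rb_eq_Op, S.Rb_eq_Op, S.Rb_eq_Op]
  exact S.Op_add hp hps S.ampR S.smooth_ampR hδ hb hb'

theorem Rb_smul (p : EN N → ℝ) (δ c : ℝ) (b : EN N → C6) :
    S.Rb p δ (c • b) = c • S.Rb p δ b := by
  rw [S.Rb_eq_Op, S.Rb_eq_Op]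
  exact S.Op_smul p S.ampR δ c b

theorem Rb_congr {p : EN N → ℝ} {δ : ℝ} (hδ : 0 < δ) {b b' : EN N → C6} (h : b =ᵐ[S.nu] b') :
    S.Rb p δ b = S.Rb p δ b' := by
  rw [S.Rb_eq_Op, S.Rb_eq_Op]
  funext x
  rw [S.Op_eq_integral _ hδ, S.Op_eq_integral _ hδ]
  refine integral_congr_ae ?_
  filter_upwards [S.ex_congr h] with y hy
  rw [hy]

/-- linearity in the profile -/
theorem Rb_profile_sub {p q : EN N → ℝ} (hp : ContDiff ℝ ∞ p) (hps : ∀ s, 1 ≤ ‖s‖ → p s = 0)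
    (hq : ContDiff ℝ ∞ q) (hqs : ∀ s, 1 ≤ ‖s‖ → q s = 0) {δ : ℝ}
    (hδ : 0 < δ) {b : EN N → C6} (hb : S.L2F b) :
    S.Rb (fun s => p s - q s) δ b = S.Rb p δ b - S.Rb q δ b := by
  funext x
  have h1 := S.rbAlg_int_s hp.continuous hps hδ hb x
  have h2 := S.rbAlg_int_s hq.continuous hqs hδ hb x
  rw [Pi.sub_apply]
  unfold Rb
  rw [← integral_sub h1 h2]
  refine integral_congr_ae (Filter.Eventually.of_forall fun s => ?_)
  simp only [sub_smul]

theorem Rb_profile_smul (c : ℝ) (p : EN N → ℝ) (δ : ℝ) (b : EN N → C6) :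
    S.Rb (fun s => c * p s) δ b = c • S.Rb p δ b := by
  funext x
  rw [Pi.smul_apply]
  unfold Rb
  rw [← integral_smul]
  refine integral_congr_ae (Filter.Eventually.of_forall fun s => ?_)
  simp only [mul_smul]

/-- change of scale: s = 2 s' -/
theorem Rb_rescale (p : EN N → ℝ) {δ : ℝ} (hδ : 0 < δ) (b : EN N → C6) :
    S.Rb p δ b = S.Rb (fun s => 2 ^ N * p ((2 : ℝ) • s)) (2 * δ) b := by
  funext x
  unfold Rb
  have h1 : (fun s : EN N => ((2 : ℝ) ^ N * p ((2 : ℝ) • s)) •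
      Bil.pull (S.D (x + (2 * δ) • s)) (S.ex b (x + (2 * δ) • s))) =
      fun s : EN N => (2 : ℝ) ^ N • (fun s' => p s' • Bil.pull (S.D (x + δ • s'))
        (S.ex b (x + δ • s'))) ((2 : ℝ) • s) := by
    funext s
    have e : (2 * δ) • s = δ • (2 : ℝ) • s := by rw [smul_smul, mul_comm]
    rw [e, mul_smul]
  have h3 := Measure.integral_comp_smul (volume : Measure (EN N))
    (fun s' => p s' • Bil.pull (S.D (x + δ • s')) (S.ex b (x + δ • s'))) 2
  have h2 : (2 : ℝ) ^ N * |((2 : ℝ) ^ Module.finrank ℝ (EN N))⁻¹| = 1 := by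
    rw [finrank_euclideanSpace_fin, abs_of_pos (by positivity)]
    exact mul_inv_cancel₀ (by positivity)
  rw [h1, integral_smul]
  refine Eq.trans ?_ (congrArg (fun w => (2 : ℝ) ^ N • w) h3.symm)
  rw [smul_smul, h2, one_smul]

theorem rbAlg_norm_pull (A : EN N →L[ℝ] EN N) (b : Bil N) {C : ℝ} (hA : ‖A‖ ≤ C) :
    ‖Bil.pull A b‖ ≤ C ^ 2 * ‖b‖ := by
  have hC : 0 ≤ C := (norm_nonneg A).trans hA
  refine Bil.norm_le (by positivity) fun u v => ?_
  rw [Bil.pull_apply]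
  refine (Bil.abs_apply_le b _ _).trans ?_
  have h1 : ‖A u‖ ≤ C * ‖u‖ := A.le_of_opNorm_le hA u
  have h2 : ‖A v‖ ≤ C * ‖v‖ := A.le_of_opNorm_le hA v
  calc ‖b‖ * ‖A u‖ * ‖A v‖ ≤ ‖b‖ * (C * ‖u‖) * (C * ‖v‖) := by
        gcongr
    _ = C ^ 2 * ‖b‖ * ‖u‖ * ‖v‖ := by ring

theorem rbAlg_mem_Ud {x : EN N} (hx : x ∈ S.X) {δ : ℝ} (hδ : 0 < δ) (hδ' : δ ≤ S.d0 / 2)
    {s : EN N} (hs : ‖s‖ < 1) : x + δ • s ∈ S.Ud := by
  refine S.add_mem_Ud hx ?_
  rw [norm_smul, Real.norm_eq_abs, abs_of_pos hδ]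
  nlinarith

/-- pointwise bound on X -/
theorem norm_Rb_le : ∃ C : ℝ, 0 ≤ C ∧ ∀ x ∈ S.X, ∀ δ : ℝ, 0 < δ → δ ≤ S.d0 / 2 →
    ∀ p : EN N → ℝ, (∀ s, |p s| ≤ 1) → (∀ s, 1 ≤ ‖s‖ → p s = 0) →
    ∀ b : EN N → C6, S.L2F b →
      ‖S.Rb p δ b x‖ ≤ C * ∫ s in Metric.ball 0 1, ‖b (S.rho (x + δ • s))‖ := by
  obtain ⟨C, hC, hX, hU, -⟩ := S.exists_bound
  obtain ⟨C', -, hball⟩ := S.integral_ball_le
  have hC0 : 0 ≤ C := by linarith
  refine ⟨C ^ 3, by positivity, fun x hx δ hδ hδ' p hp hps b hb => ?_⟩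
  have hint := (hball x hx δ hδ hδ' b hb).1
  have hint' : Integrable ((Metric.ball (0 : EN N) 1).indicator
      fun s => C ^ 3 * ‖b (S.rho (x + δ • s))‖) volume := by
    rw [integrable_indicator_iff Metric.isOpen_ball.measurableSet]
    exact hint.const_mul _
  have h1 : ‖S.Rb p δ b x‖ ≤ ∫ s, (Metric.ball (0 : EN N) 1).indicator
      (fun s => C ^ 3 * ‖b (S.rho (x + δ • s))‖) s := by
    unfold Rb
    refine norm_integral_le_of_norm_le hint' (Filter.Eventually.of_forall fun s => ?_)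
    by_cases hs : s ∈ Metric.ball (0 : EN N) 1
    · rw [Set.indicator_of_mem hs]
      have hs' : ‖s‖ < 1 := by rwa [mem_ball_zero_iff] at hs
      have hy := S.rbAlg_mem_Ud hx hδ hδ' hs'
      have h2 : S.ex b (x + δ • s) = S.rc b (S.rho (x + δ • s)) := Set.indicator_of_mem hy _
      rw [h2, norm_smul, Real.norm_eq_abs]
      have h3 : ‖S.rc b (S.rho (x + δ • s))‖ ≤ C * ‖b (S.rho (x + δ • s))‖ :=
        (hX _ (S.rho_mem_X hy)).2.2.2.2.1 b
      have h4 := rbAlg_norm_pull (S.D (x + δ • s)) (S.rc b (S.rho (x + δ • s))) (hU _ hy)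
      calc |p s| * ‖Bil.pull (S.D (x + δ • s)) (S.rc b (S.rho (x + δ • s)))‖
          ≤ 1 * (C ^ 2 * (C * ‖b (S.rho (x + δ • s))‖)) := by
            refine mul_le_mul (hp s) (h4.trans ?_) (norm_nonneg _) zero_le_one
            exact mul_le_mul_of_nonneg_left h3 (by positivity)
        _ = C ^ 3 * ‖b (S.rho (x + δ • s))‖ := by ring
    · rw [Set.indicator_of_notMem hs]
      have hs' : 1 ≤ ‖s‖ := by
        rw [mem_ball_zero_iff, not_lt] at hs
        exact hs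
      rw [hps s hs', zero_smul, norm_zero]
  rwa [integral_indicator Metric.isOpen_ball.measurableSet, integral_const_mul] at h1

/-- value on a unit vector: integrate the pointwise values `val` -/
theorem ev_Rb {z : EN N × EN N} (hz : z ∈ S.X1) {δ : ℝ} (hδ : 0 < δ) (hδ' : δ ≤ S.d0 / 2)
    {p : EN N → ℝ} (hp : Continuous p) (hps : ∀ s, 1 ≤ ‖s‖ → p s = 0)
    {b : EN N → C6} (hb : S.L2F b) :
    S.ev (S.Rb p δ b) z = ∫ s, p s * (S.rc b (S.rho (z.1 + δ • s)) (S.D (z.1 + δ • s) z.2)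
      (S.D (z.1 + δ • s) (S.J z.1 z.2))) := by
  have h1 := S.rbAlg_int_s hp hps hδ hb z.1
  change (S.Rb p δ b z.1) z.2 (S.J z.1 z.2) = _
  unfold Rb
  rw [Bil.integral_apply h1]
  refine integral_congr_ae (Filter.Eventually.of_forall fun s => ?_)
  simp only [Bil.smul_apply, Bil.pull_apply]
  rcases lt_or_ge ‖s‖ 1 with hs | hs
  · have h2 : S.ex b (z.1 + δ • s) = S.rc b (S.rho (z.1 + δ • s)) :=
      Set.indicator_of_mem (S.rbAlg_mem_Ud hz.1 hδ hδ' hs) _
    rw [h2]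
  · rw [hps s hs, zero_mul, zero_mul]

theorem rbAlg_antiB_zero {x : EN N} (hx : x ∈ S.X) {b : Bil N}
    (hb : ∀ u v, S.Tan x u → S.Tan x v → b u v = 0) : S.antiB x b = 0 := by
  have h1 : Bil.pull (S.D x) b = 0 := by
    ext u v
    rw [Bil.pull_apply, Bil.zero_apply]
    exact hb _ _ (S.tan_D hx u) (S.tan_D hx v)
  have h2 : Bil.pull (S.J x) b = 0 := by
    ext u v
    rw [Bil.pull_apply, Bil.zero_apply]
    exact hb _ _ (S.tan_J hx u) (S.tan_J hx v)
  unfold Geom.antiB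
  rw [h1, h2]
  ext u v
  simp

/-- a current only depends on the restriction to tangent vectors -/
theorem IsCur.congr {k : ℕ} {K : ℝ} {T : (EN N → Bil N) → ℝ} (hT : S.IsCur k K T)
    {β γ : EN N → Bil N} (hβ : ContDiff ℝ ∞ β) (hγ : ContDiff ℝ ∞ γ) (h : S.TanEq β γ) :
    T β = T γ := by
  have hγ' : ContDiff ℝ ∞ ((-1 : ℝ) • γ) := contDiff_const.smul hγ
  have h1 : T (β + (-1 : ℝ) • γ) = T β + -1 * T γ := by
    rw [hT.add β _ hβ hγ', hT.smul _ γ hγ]
  have h2 : S.AntiLe k (β + (-1 : ℝ) • γ) 0 := by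
    intro x hx j _
    have h3 : (fun y => S.anti (β + (-1 : ℝ) • γ) (S.rho y)) =ᶠ[𝓝 x] fun _ => (0 : Bil N) := by
      filter_upwards [S.openU.mem_nhds (S.subU hx)] with y hy
      refine S.rbAlg_antiB_zero (S.rho_mem y hy) fun u v hu hv => ?_
      have h4 := h (S.rho y) (S.rho_mem y hy) u v hu hv
      simp only [Pi.add_apply, Pi.smul_apply, Bil.add_apply, Bil.smul_apply]
      rw [h4]
      ring
    have h5 : iteratedFDeriv ℝ j (fun y => S.anti (β + (-1 : ℝ) • γ) (S.rho y)) x =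
        iteratedFDeriv ℝ j (fun _ => (0 : Bil N)) x := (h3.iteratedFDeriv ℝ j).eq_of_nhds
    rw [h5]
    have h6 : iteratedFDeriv ℝ j (fun _ : EN N => (0 : Bil N)) = 0 := iteratedFDeriv_fun_zero
    rw [h6]
    simp
  have h3 := hT.bound _ 0 (hβ.add hγ') h2
  rw [mul_zero] at h3
  have h4 : T (β + (-1 : ℝ) • γ) = 0 := abs_eq_zero.1 (le_antisymm h3 (abs_nonneg _))
  linarith

theorem Pm_congr {m : Measure (EN N × EN N)} (hm : S.IsPos m) {β γ : EN N → Bil N}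
    (h : S.TanEq β γ) : S.Pm m β = S.Pm m γ := by
  refine integral_congr_ae ?_
  have h1 : ∀ᵐ z ∂m, z ∈ S.X1 := by
    rw [MeasureTheory.ae_iff]
    exact hm.supp
  filter_upwards [h1] with z hz
  exact h z.1 hz.1 _ _ hz.2.1 (S.tan_J hz.1 _)

end Setup

end Pool.Agent.W_MP_d8b8b7_gt
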