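import Pool.Agent.W_MP_d8b8b7_gt.AntiL
import Pool.Agent.W_MP_d8b8b7_gt.RbAlg

/-!
# Hadamard expansion of operators with amplitude
-/

namespace Pool.Agent.W_MP_d8b8b7_gt

open MeasureTheory Set Filter Topology
open scoped ContDiff ENNReal

variable {N : ℕ}

/-- the iterated derivatives of a coordinate are bounded by one on the unit ball -/
theorem norm_iteratedFDeriv_coord_le (i : Fin N) (j : ℕ) {s : EN N} (hs : ‖s‖ ≤ 1) :
    ‖iteratedFDeriv ℝ j (fun s : EN N => s i) s‖ ≤ 1 := by
  set L : EN N →L[ℝ] ℝ := EuclideanSpace.proj i with hL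
  have hLn : ‖L‖ ≤ 1 := by
    refine L.opNorm_le_bound zero_le_one fun v => ?_
    rw [one_mul]
    exact PiLp.norm_apply_le v i
  have hf : (fun s : EN N => s i) = L := rfl
  rw [hf]
  rcases j with _ | j
  · rw [norm_iteratedFDeriv_zero]
    exact (L.le_opNorm s).trans (mul_le_one₀ hLn (norm_nonneg _) hs)
  · have hfd : fderiv ℝ L = fun _ => L := by
      funext x
      exact L.fderiv
    rw [← norm_iteratedFDeriv_fderiv, hfd]
    rcases j with _ | j
    · rw [norm_iteratedFDeriv_zero]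
      exact hLn
    · rw [iteratedFDeriv_succ_const]
      simp

namespace Setup

variable (S : Setup N)

/-- on X: antiL ∘ pull D ∘ antiL = antiL and antiL ∘ antiL = antiL -/
theorem antiL_pull_antiL {x : EN N} (hx : x ∈ S.X) (b : Bil N) :
    S.antiL x (Bil.pull (S.D x) (S.antiL x b)) = S.antiL x b ∧
    S.antiL x (S.antiL x b) = S.antiL x b := by
  have hD : ∀ v, S.D x (S.D x v) = S.D x v := fun v => S.D_D hx v
  have hDJ : ∀ v, S.D x (S.J x v) = S.J x v := fun v => S.D_J x hx v
  have hJD : ∀ v, S.J x (S.D x v) = S.J x v := fun v => S.J_D x hx v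
  have hJJ : ∀ v, S.J x (S.J x v) = - S.D x v := fun v => S.J_J x hx v
  have h1 : Bil.pull (S.D x) (S.antiL x b) = S.antiL x b := by
    rw [antiL_apply]
    ext u v
    simp only [Geom.antiB, Bil.pull_apply, Bil.smul_apply, Bil.sub_apply, Bil.flip_apply, hD, hJD]
  have h2 : S.antiL x (S.antiL x b) = S.antiL x b := by
    rw [antiL_apply, antiL_apply]
    ext u v
    simp only [Geom.antiB, Bil.pull_apply, Bil.smul_apply, Bil.sub_apply, Bil.flip_apply, hD, hJD,
      hDJ, hJJ, Bil.neg_left, Bil.neg_right, neg_neg]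
    ring
  exact ⟨by rw [h1, h2], h2⟩

/-- T only sees the anti-invariant part: `AntiLe k (β - antiL β) 0` -/
theorem IsCur.antiL_eq {k : ℕ} {K : ℝ} {T : (EN N → Bil N) → ℝ} (hT : S.IsCur k K T)
    {β : EN N → Bil N} (hβ : ContDiff ℝ ∞ β) : T (fun x => S.antiL x (β x)) = T β := by
  have hA : ContDiff ℝ ∞ (fun x => S.antiL x (β x)) := S.smooth_antiL.clm_apply hβ
  set γ : EN N → Bil N := fun x => S.antiL x (β x) - β x with hγdef
  have hγ : ContDiff ℝ ∞ γ := hA.sub hβ
  have hsum : (fun x => S.antiL x (β x)) = β + γ := by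
    funext x
    simp [hγdef]
  have hanti : S.AntiLe k γ 0 := by
    intro x hx j _
    have hev : (fun y => S.anti γ (S.rho y)) =ᶠ[𝓝 x] fun _ => (0 : Bil N) := by
      filter_upwards [S.openU.mem_nhds (S.subU hx)] with y hy
      have hy' : S.rho y ∈ S.X := S.rho_mem y hy
      rw [Geom.anti, ← antiL_apply, hγdef]
      simp only
      rw [map_sub, (S.antiL_pull_antiL hy' _).2, sub_self]
    rw [hev.iteratedFDeriv ℝ j |>.eq_of_nhds, iteratedFDeriv_fun_zero]
    simp
  have h0 : T γ = 0 := by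
    have := hT.bound γ 0 hγ hanti
    rw [mul_zero] at this
    exact abs_eq_zero.mp (le_antisymm this (abs_nonneg _))
  rw [hsum, hT.add β γ hβ hγ, h0, add_zero]

/-- the profiles s_i p(s) -/
theorem prof_mul_coord (k : ℕ) : ∃ C : ℝ, 0 < C ∧ ∀ p : EN N → ℝ, Prof k p → ∀ i : Fin N,
    Prof k (fun s => C⁻¹ * (s i * p s)) := by
  refine ⟨2 ^ k, by positivity, fun p hp i => ?_⟩
  have hci : ContDiff ℝ ∞ (fun s : EN N => s i) :=
    (EuclideanSpace.proj i : EN N →L[ℝ] ℝ).contDiff
  have hprod : ContDiff ℝ ∞ (fun s : EN N => s i * p s) := hci.mul hp.smooth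
  refine ⟨contDiff_const.mul hprod, fun s hs => ?_, fun j hj s => ?_⟩
  · simp [hp.supp s hs]
  · have hsc : (fun s : EN N => ((2 : ℝ) ^ k)⁻¹ * (s i * p s)) =
        ((2 : ℝ) ^ k)⁻¹ • (fun s : EN N => s i * p s) := by
      funext s
      simp
    rw [hsc, iteratedFDeriv_const_smul_apply
      ((hprod.of_le (by exact_mod_cast le_top)).contDiffAt), norm_smul]
    have h2 : ‖iteratedFDeriv ℝ j (fun s : EN N => s i * p s) s‖ ≤ 2 ^ k := by
      by_cases hs : ‖s‖ ≤ 1 / 2
      · refine (norm_iteratedFDeriv_mul_le (N := ∞) hci hp.smooth s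
          (by exact_mod_cast le_top)).trans ?_
        have h3 : ∑ l ∈ Finset.range (j + 1), ((j.choose l : ℕ) : ℝ) *
            ‖iteratedFDeriv ℝ l (fun s : EN N => s i) s‖ * ‖iteratedFDeriv ℝ (j - l) p s‖ ≤
            ∑ l ∈ Finset.range (j + 1), ((j.choose l : ℕ) : ℝ) := by
          refine Finset.sum_le_sum fun l _ => ?_
          have ha := norm_iteratedFDeriv_coord_le i l (s := s) (by linarith)
          have hb := hp.bound (j - l) ((Nat.sub_le _ _).trans hj) s
          rw [mul_assoc]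
          refine mul_le_of_le_one_right (by positivity) ?_
          exact mul_le_one₀ ha (norm_nonneg _) hb
        refine h3.trans ?_
        rw [← Nat.cast_sum, Nat.sum_range_choose]
        push_cast
        exact pow_le_pow_right₀ one_le_two hj
      · push Not at hs
        have hev : (fun s : EN N => s i * p s) =ᶠ[𝓝 s] fun _ => (0 : ℝ) := by
          have ho : IsOpen {t : EN N | 1 / 2 < ‖t‖} := isOpen_lt continuous_const continuous_norm
          filter_upwards [ho.mem_nhds hs] with t ht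
          rw [hp.supp t (le_of_lt ht), mul_zero]
        rw [hev.iteratedFDeriv ℝ j |>.eq_of_nhds, iteratedFDeriv_fun_zero]
        simp
    rw [norm_inv, norm_pow, Real.norm_ofNat]
    rw [inv_mul_le_iff₀ (by positivity), mul_one]
    exact h2

/-- Hadamard expansion on the level of operators: if E (0, x) = 0 for x in X then on X
`Op p E δ b = ∑_i δ • Op (s_i p) E_i δ b` with smooth amplitudes E_i. -/
theorem Op_hadamard (E : EN N → EN N → (Bil N →L[ℝ] Bil N))
    (hE : ContDiff ℝ ∞ (fun z : EN N × EN N => E z.1 z.2)) (h0 : ∀ x ∈ S.X, E 0 x = 0) :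
    ∃ Ei : Fin N → EN N → EN N → (Bil N →L[ℝ] Bil N),
      (∀ i, ContDiff ℝ ∞ (fun z : EN N × EN N => Ei i z.1 z.2)) ∧
      ∀ p : EN N → ℝ, ContDiff ℝ ∞ p → (∀ s, 1 ≤ ‖s‖ → p s = 0) → ∀ δ : ℝ, 0 < δ →
      ∀ b : EN N → C6, S.L2F b → ∀ x ∈ S.X,
        S.Op p E δ b x = ∑ i, δ • S.Op (fun s => s i * p s) (Ei i) δ b x := by
  obtain ⟨Ai, hAi, hsum⟩ := hadamard (fun z : EN N × EN N => E z.1 z.2) hE
  refine ⟨fun i h x => Ai i (h, x), fun i => hAi i, fun p hp hps δ hδ b hb x hx => ?_⟩
  have hint : ∀ i : Fin N, Integrable (fun s : EN N => (s i * p s) •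
      Ai i (δ • s, x) (S.ex b (x + δ • s))) volume := by
    intro i
    refine S.integrable_Op (p := fun s => s i * p s) ?_ ?_ (fun h x => Ai i (h, x)) (hAi i) hδ hb x
    · exact ((EuclideanSpace.proj i : EN N →L[ℝ] ℝ).contDiff).mul hp
    · intro s hs
      rw [hps s hs, mul_zero]
  have h1 : ∀ s : EN N, p s • E (δ • s) x (S.ex b (x + δ • s)) =
      ∑ i, δ • ((s i * p s) • Ai i (δ • s, x) (S.ex b (x + δ • s))) := by
    intro s
    have h2 := hsum (δ • s) x
    simp only [h0 x hx, sub_zero] at h2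
    rw [h2, _root_.sum_apply, Finset.smul_sum]
    refine Finset.sum_congr rfl fun i _ => ?_
    rw [_root_.smul_apply, smul_smul, smul_smul]
    congr 1
    simp only [PiLp.smul_apply, smul_eq_mul]
    ring
  unfold Op
  simp_rw [h1]
  have h3 : ∀ i ∈ (Finset.univ : Finset (Fin N)), Integrable (fun s : EN N =>
      δ • ((s i * p s) • Ai i (δ • s, x) (S.ex b (x + δ • s)))) volume :=
    fun i _ => (hint i).smul δ
  rw [integral_finsetSum _ h3]
  refine Finset.sum_congr rfl fun i _ => ?_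
  rw [integral_smul]

end Setup

end Pool.Agent.W_MP_d8b8b7_gt
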