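import Pool.Agent.W_MP_d8b8b7_gt.EM4

/-!
# The global El Mir lemma
-/

namespace Pool.Agent.W_MP_d8b8b7_gt

open MeasureTheory Set Filter Topology
open scoped ContDiff ENNReal Manifold

variable {N : ℕ}

namespace Setup

variable (S : Setup N)

/-- a chart around a point, with the neighbourhood `V ∩ κ⁻¹ (ball 0 (1/2))` -/
theorem EM5_nhd {x₀ : EN N} (hx₀ : x₀ ∈ S.X) : ∃ U : Set (EN N), IsOpen U ∧ x₀ ∈ U ∧
    ∃ (ψ : EN 4 → EN N) (κ : EN N → EN 4) (V : Set (EN N)) (h : EN 4 → ℝ) (σ : ℝ),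
      S.Ch ψ κ V h σ ∧ S.X ∩ U ⊆ ψ '' Metric.ball 0 (1 / 2) := by
  obtain ⟨ψ, κ, V, h, σ, hc, h0⟩ := S.charts x₀ hx₀
  have hc' : S.Ch ψ κ V h σ := hc
  have hz : (0 : EN 4) ∈ Metric.ball (0 : EN 4) 1 := Metric.mem_ball_self one_pos
  refine ⟨V ∩ κ ⁻¹' Metric.ball 0 (1 / 2), ?_, ⟨?_, ?_⟩, ψ, κ, V, h, σ, hc, ?_⟩
  · exact hc.openV.inter (Metric.isOpen_ball.preimage hc.smooth_kap.continuous)
  · rw [← h0]
    exact (S.ch_mem hc' hz).2
  · rw [mem_preimage, ← h0, hc.kap_psi 0 hz]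
    exact Metric.mem_ball_self (by norm_num)
  · rintro x ⟨hx, hxV, hxb⟩
    exact ⟨κ x, hxb, (S.ch_inv hc' hx hxV).2⟩

theorem EM5_dOne_sum {n : ℕ} {α : EN N → Cov N} {αi : Fin n → EN N → Cov N}
    (hαi : ∀ i, IsOne (αi i)) {x : EN N} (h : α =ᶠ[𝓝 x] fun y => ∑ i, αi i y) :
    dOne α x = ∑ i, dOne (αi i) x := by
  have h1 : fderiv ℝ α x = ∑ i, fderiv ℝ (αi i) x := by
    rw [h.fderiv_eq, fderiv_fun_sum]
    intro i _
    exact (ContDiff.differentiable (hαi i) (by simp)) x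
  ext u v
  rw [Bil.sum_apply]
  simp only [dOne_apply, h1, _root_.sum_apply, Finset.sum_sub_distrib]

/-- Partition of unity: a smooth 1-form is, near X, a finite sum of smooth 1-forms α_i each of which
satisfies X ∩ tsupport α_i ⊆ ψ_i '' ball 0 (1/2) for a chart of the Setup.  (The sets
V_i' = V_i ∩ κ_i⁻¹(ball (1/2)) are open neighbourhoods of the points x_i = ψ_i 0, and
X ∩ V_i' = ψ_i (ball (1/2)); choose a finite subcover of X and a smooth partition of unity of R^N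
subordinate to it near the compact set X, multiplied with α.) -/
theorem exists_pieces {α : EN N → Cov N} (hα : IsOne α) :
    ∃ (n : ℕ) (αi : Fin n → EN N → Cov N), (∀ i, IsOne (αi i)) ∧
      (∀ i, ∃ (ψ : EN 4 → EN N) (κ : EN N → EN 4) (V : Set (EN N)) (h : EN 4 → ℝ) (σ : ℝ),
        S.Ch ψ κ V h σ ∧ S.X ∩ tsupport (αi i) ⊆ ψ '' Metric.ball 0 (1 / 2)) ∧
      ∀ x ∈ S.X, dOne α x = ∑ i, dOne (αi i) x := by
  choose U hUo hUx hU using fun x : S.X => S.EM5_nhd x.2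
  obtain ⟨t, ht⟩ := S.cptX.elim_finite_subcover U hUo
    (fun x hx => mem_iUnion.mpr ⟨⟨x, hx⟩, hUx ⟨x, hx⟩⟩)
  have hopen : IsOpen (⋃ i ∈ t, U i) := isOpen_biUnion fun i _ => hUo i
  obtain ⟨δ, hδ, hδU⟩ := S.cptX.exists_cthickening_subset_open hopen ht
  have hcov : Metric.cthickening δ S.X ⊆ ⋃ i : Fin t.card, U (t.equivFin.symm i) := by
    intro y hy
    have h1 := hδU hy
    simp only [mem_iUnion] at h1 ⊢
    obtain ⟨i, hi, hyi⟩ := h1
    refine ⟨t.equivFin ⟨i, hi⟩, ?_⟩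
    rw [Equiv.symm_apply_apply]
    exact hyi
  obtain ⟨f, hf⟩ := SmoothPartitionOfUnity.exists_isSubordinate 𝓘(ℝ, EN N)
    (s := Metric.cthickening δ S.X) Metric.isClosed_cthickening
    (fun i : Fin t.card => U (t.equivFin.symm i)) (fun i => hUo _) hcov
  have hfs : ∀ i, ContDiff ℝ ∞ (f i) := fun i => (f i).contMDiff.contDiff
  refine ⟨t.card, fun i y => f i y • α y, fun i => (hfs i).smul hα, ?_, ?_⟩
  · intro i
    obtain ⟨ψ, κ, V, h, σ, hc, hsub⟩ := hU (t.equivFin.symm i)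
    refine ⟨ψ, κ, V, h, σ, hc, ?_⟩
    rintro x ⟨hx, hxs⟩
    refine hsub ⟨hx, hf i ?_⟩
    exact tsupport_smul_subset_left (f i) α hxs
  · intro x hx
    refine EM5_dOne_sum (fun i => (hfs i).smul hα) ?_
    have hn : Metric.cthickening δ S.X ∈ 𝓝 x :=
      mem_of_superset (Metric.isOpen_thickening.mem_nhds (Metric.self_subset_thickening hδ _ hx))
        (Metric.thickening_subset_cthickening _ _)
    filter_upwards [hn] with y hy
    have h1 := f.sum_eq_one hy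
    rw [finsum_eq_sum_of_fintype] at h1
    have h2 : (∑ i, f i y) • α y = α y := by rw [h1, one_smul]
    rw [Finset.sum_smul] at h2
    exact h2.symm

theorem EM5_smooth_dOne {α : EN N → Cov N} (hα : IsOne α) : ContDiff ℝ ∞ (dOne α) := by
  have h1 : ContDiff ℝ ∞ (fderiv ℝ α) := ContDiff.fderiv_right hα (by simp)
  rw [Bil.contDiff_iff]
  intro u v
  have h2 : ∀ a b : EN N, ContDiff ℝ ∞ (fun x => fderiv ℝ α x a b) := fun a b =>
    (h1.clm_apply contDiff_const).clm_apply contDiff_const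
  exact (h2 u v).sub (h2 v u)

theorem EM5_Pm_sum {m : Measure (EN N × EN N)} (hm : S.IsPos m) {n : ℕ} {β : EN N → Bil N}
    {βi : Fin n → EN N → Bil N} (hβi : ∀ i, Continuous (βi i))
    (h : ∀ x ∈ S.X, β x = ∑ i, βi i x) : S.Pm m β = ∑ i, S.Pm m (βi i) := by
  unfold Pm
  rw [← integral_finsetSum _ fun i _ => S.integrable_ev hm (hβi i)]
  refine integral_congr_ae ?_
  have h1 : ∀ᵐ z ∂m, z ∈ S.X1 := by
    rw [ae_iff]
    exact hm.supp
  filter_upwards [h1] with z hz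
  change β z.1 z.2 (S.J z.1 z.2) = ∑ i, βi i z.1 z.2 (S.J z.1 z.2)
  rw [h z.1 hz.1, Bil.sum_apply]

theorem EM5_cp_sum {n : ℕ} {β : EN N → Bil N} {βi : Fin n → EN N → Bil N} {x : EN N}
    (h : β x = ∑ i, βi i x) : S.cp β x = ∑ i, S.cp (βi i) x := by
  have key : ∀ a b : Fin 4, β x (S.fr a x) (S.fr b x) = ∑ i, βi i x (S.fr a x) (S.fr b x) := by
    intro a b
    rw [h, Bil.sum_apply]
  ext j
  have hs : (∑ i, S.cp (βi i) x) j = ∑ i, S.cp (βi i) x j := by
    simp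
  rw [hs]
  fin_cases j
  · exact key 0 1
  · exact key 0 2
  · exact key 0 3
  · exact key 1 2
  · exact key 1 3
  · exact key 2 3

theorem EM5_wedge_sum {n : ℕ} (a : C6) (c : Fin n → C6) : wedge a (∑ i, c i) = ∑ i, wedge a (c i) := by
  have h : ∀ b : C6, wedge a b = inner ℝ a (star6 b) := by
    intro b
    rw [← wedge_star, star6_star6]
  classical
  induction (Finset.univ : Finset (Fin n)) using Finset.induction_on with
  | empty => simp [wedge]
  | insert i s hi ih => rw [Finset.sum_insert hi, Finset.sum_insert hi, wedge_add_right, ih]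

theorem EM5_B_sum {t : EN N → C6} (ht : S.L2F t) {n : ℕ} {β : EN N → Bil N}
    {βi : Fin n → EN N → Bil N} (hβi : ∀ i, Continuous (βi i))
    (h : ∀ x ∈ S.X, β x = ∑ i, βi i x) : S.B t (S.cp β) = ∑ i, S.B t (S.cp (βi i)) := by
  unfold B
  rw [← integral_finsetSum _ fun i _ => S.integrable_wedge ht (S.L2F_cp (hβi i))]
  refine integral_congr_ae ?_
  filter_upwards [S.ae_mem_X] with x hx
  rw [S.EM5_cp_sum (h x hx), EM5_wedge_sum]

/-- **Global El Mir lemma.** -/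
theorem elMir_global {mP m : Measure (EN N × EN N)} (hmP : S.IsPos mP) (hm : S.IsPos m)
    (hP : ∀ α, IsOne α → S.Pm mP (dOne α) = 0) {t : EN N → C6} (ht : S.L2F t)
    (ht1 : ∀ x, pr1 (t x) = 0)
    (hT : ∀ α, IsOne α → S.Pm m (dOne α) + S.B t (S.cp (dOne α)) = 0) :
    ∀ α, IsOne α →
      S.Pm (m.restrict {z | TCPair.pot (tr mP) z.1 ≠ ⊤}) (dOne α) + S.B t (S.cp (dOne α)) = 0 := by
  intro α hα
  have hfin := hm.fin
  have hm' : S.IsPos (m.restrict {z | TCPair.pot (tr mP) z.1 ≠ ⊤}) :=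
    ⟨inferInstance, le_antisymm ((Measure.restrict_apply_le _ _).trans_eq hm.supp) (zero_le)⟩
  obtain ⟨n, αi, hαi, hch, hsum⟩ := S.exists_pieces hα
  rw [S.EM5_Pm_sum hm' (fun i => (EM5_smooth_dOne (hαi i)).continuous) hsum,
    S.EM5_B_sum ht (fun i => (EM5_smooth_dOne (hαi i)).continuous) hsum, ← Finset.sum_add_distrib]
  refine Finset.sum_eq_zero fun i _ => ?_
  obtain ⟨ψ, κ, V, h, σ, hc, hs⟩ := hch i
  exact S.elMir_chart hc (by norm_num) (by norm_num) hmP hm hP ht ht1 hT (hαi i) hs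

end Setup

end Pool.Agent.W_MP_d8b8b7_gt
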