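import Pool.Agent.W_MP_d8b8b7_gt.Defs

/-!
Common definitions for the assembly: the space of smooth 2-forms, the intersection pairing, and the
two kinds of currents (P and Theta).
-/

namespace Pool.Agent.W_MP_d8b8b7_gt

open MeasureTheory Set Filter Topology
open scoped ContDiff ENNReal

variable {N : ℕ}

section abstract_smoothness

variable {E F : Type*} [NormedAddCommGroup E] [NormedSpace ℝ E] [NormedAddCommGroup F]
  [NormedSpace ℝ F]

/-- general version (avoids slow instance problems for `Bil N`) -/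
theorem contDiff_const_smul' {f : E → F} (c : ℝ) (hf : ContDiff ℝ ∞ f) :
    ContDiff ℝ ∞ (fun x => c • f x) := contDiff_const.smul hf

/-- flip is smooth -/
theorem contDiff_flip' : ContDiff ℝ ∞ (fun B : E →L[ℝ] E →L[ℝ] F => B.flip) :=
  ContinuousLinearMap.contDiff (𝕜 := ℝ) (E := E →L[ℝ] E →L[ℝ] F) (F := E →L[ℝ] E →L[ℝ] F)
    ((ContinuousLinearMap.flipₗᵢ ℝ E E F).toContinuousLinearEquiv : _ →L[ℝ] _)

/-- general version -/
theorem contDiff_sub_flip {α : E → (E →L[ℝ] F)} (hα : ContDiff ℝ ∞ α) :
    ContDiff ℝ ∞ (fun x => fderiv ℝ α x - (fderiv ℝ α x).flip) := by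
  have h1 : ContDiff ℝ ∞ (fderiv ℝ α) := hα.fderiv_right (m := ∞) (by simp)
  have h2 : ContDiff ℝ ∞ (fun x => (fderiv ℝ α x).flip) := contDiff_flip'.comp h1
  exact h1.sub h2

end abstract_smoothness

theorem isForm_zero : IsForm (0 : EN N → Bil N) :=
  ⟨contDiff_const, fun _ _ => rfl⟩

theorem IsForm.add {β γ : EN N → Bil N} (hβ : IsForm β) (hγ : IsForm γ) : IsForm (β + γ) :=
  ⟨hβ.smooth.add hγ.smooth, fun x v => by
    show β x v v + γ x v v = 0
    rw [hβ.alt, hγ.alt, add_zero]⟩

theorem IsForm.smul {β : EN N → Bil N} (c : ℝ) (hβ : IsForm β) : IsForm (c • β) :=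
  ⟨contDiff_const_smul' c hβ.smooth, fun x v => by
    show c * β x v v = 0
    rw [hβ.alt, mul_zero]⟩

/-- the space of smooth 2-forms -/
def Forms (N : ℕ) : Submodule ℝ (EN N → Bil N) where
  carrier := {β | IsForm β}
  zero_mem' := isForm_zero
  add_mem' := fun h h' => IsForm.add h h'
  smul_mem' := fun c _ h => IsForm.smul c h

theorem dOne_isForm {α : EN N → Cov N} (hα : IsOne α) : IsForm (dOne α) := by
  refine ⟨?_, fun x v => ?_⟩
  · exact contDiff_sub_flip hα
  · show fderiv ℝ α x v v - fderiv ℝ α x v v = 0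
    ring

/-- the exterior derivative of a smooth 1-form as an element of `Forms` -/
noncomputable def dForm (α : EN N → Cov N) (hα : IsOne α) : Forms N := ⟨dOne α, dOne_isForm hα⟩

namespace Setup

variable (S : Setup N)

/-- the pairing ∫ b ∧ c -/
noncomputable def pair (b c : EN N → Bil N) : ℝ := S.B (S.cp b) (S.cp c)

/-- consequence of b⁺ = 1: the light cone inequality -/
def Lor : Prop :=
  ∀ β, IsForm β → S.Closed β → S.pair β β * S.pair S.om S.om ≤ S.pair S.om β ^ 2

/-- the form om as an element of `Forms` -/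
noncomputable def omF : Forms N := ⟨S.om, S.smooth_om, S.om_alt⟩

/-- closed positive current P with P ≥ ε F -/
structure IsP (ε : ℝ) (m : Measure (EN N × EN N)) : Prop extends S.IsPos m where
  ge : ENNReal.ofReal ε • S.mF ≤ m
  closed : ∀ α, IsOne α → S.Pm m (dOne α) = 0

/-- P ≥ ε F closed in the class of om -/
structure IsPcls (ε : ℝ) (m : Measure (EN N × EN N)) : Prop extends S.IsP ε m where
  cls : ∀ β, IsForm β → S.Closed β → S.Pm m β = S.pair S.om β

/-- Theta = T + T'' with T a positive (1,1)-current of mass 1 (the probability measure m) and T''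
a current on the anti-invariant forms (a priori of finite order); Theta kills exact forms -/
structure IsT (k : ℕ) (K : ℝ) (m : Measure (EN N × EN N)) (T : (EN N → Bil N) → ℝ) : Prop where
  prob : IsProbabilityMeasure m
  pos : S.IsPos m
  cur : S.IsCur k K T
  closed : ∀ α, IsOne α → S.Pm m (dOne α) + T (dOne α) = 0

/-- Theta kills closed forms -/
structure IsTc (k : ℕ) (K : ℝ) (m : Measure (EN N × EN N)) (T : (EN N → Bil N) → ℝ) : Prop
    extends S.IsT k K m T where
  closed' : ∀ β, IsForm β → S.Closed β → S.Pm m β + T β = 0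

end Setup

end Pool.Agent.W_MP_d8b8b7_gt
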