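import Pool.Agent.W_MP_d8b8b7_gt.Dens

/-!
# Density bounds at all scales
-/

namespace Pool.Agent.W_MP_d8b8b7_gt

open MeasureTheory Set Filter Topology
open scoped ContDiff ENNReal

variable {N : ℕ}

namespace Setup

variable (S : Setup N)

/-- density bound at all scales for a pair killing exact forms with bounded energies -/
theorem density {k : ℕ} {K : ℝ} {m : Measure (EN N × EN N)} {T : (EN N → Bil N) → ℝ}
    (h : S.ExPair k K m T) {e : ℝ} (he : 0 ≤ e)
    (hb : ∀ δ : ℝ, 0 < δ → δ ≤ S.d0 / 2 → S.Ebd k T δ e) :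
    ∃ C : ℝ, 0 ≤ C ∧ ∀ x : EN N, ∀ r : ℝ, 0 < r →
      (m (Prod.fst ⁻¹' Metric.closedBall x r)).toReal ≤ C * r ^ 2 := by
  obtain ⟨C, hC, hle⟩ := S.dens_ball k
  have hC1 : 0 < S.C1 := zero_lt_one.trans_le S.one_le_C1
  have hd := S.d0_pos
  have hfin : IsFiniteMeasure m := h.pos.fin
  have hM : 0 ≤ mass m := ENNReal.toReal_nonneg
  have hK : 0 ≤ K := h.cur.K_nonneg
  set Q : ℝ := mass m + K + e with hQ
  have hQ0 : 0 ≤ Q := by rw [hQ]; linarith
  have hmono : ∀ A B : Set (EN N × EN N), A ⊆ B → (m A).toReal ≤ (m B).toReal := fun A B hAB =>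
    ENNReal.toReal_mono (measure_ne_top _ _) (measure_mono hAB)
  refine ⟨C * Q / (2 * S.C1) ^ 2 + mass m / (S.C1 * S.d0) ^ 2, by positivity, fun x r hr => ?_⟩
  have hsplit : (C * Q / (2 * S.C1) ^ 2 + mass m / (S.C1 * S.d0) ^ 2) * r ^ 2 =
      C * (r / (2 * S.C1)) ^ 2 * Q + mass m * (r / (S.C1 * S.d0)) ^ 2 := by
    field_simp
  rw [hsplit]
  rcases le_or_gt r (S.C1 * S.d0) with hr1 | hr1
  · by_cases hne : ∃ x0 ∈ S.X, x0 ∈ Metric.closedBall x r
    · obtain ⟨x0, hx0, hx0r⟩ := hne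
      have hδ : 0 < r / (2 * S.C1) := by positivity
      have hδ' : r / (2 * S.C1) ≤ S.d0 / 2 := by
        rw [div_le_iff₀ (by positivity)]
        linarith
      have h1 := hle K m T h _ hδ hδ' e he (hb _ hδ hδ') x0 hx0
      have h2 : 4 * S.C1 * (r / (2 * S.C1)) = 2 * r := by
        field_simp
        ring
      rw [h2] at h1
      have h3 : (Prod.fst ⁻¹' Metric.closedBall x r : Set (EN N × EN N)) ⊆
          Prod.fst ⁻¹' Metric.closedBall x0 (2 * r) := by
        apply preimage_mono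
        apply Metric.closedBall_subset_closedBall'
        rw [Metric.mem_closedBall, dist_comm] at hx0r
        linarith
      have h4 := hmono _ _ h3
      have h5 : 0 ≤ mass m * (r / (S.C1 * S.d0)) ^ 2 := by positivity
      linarith
    · have h1 : (Prod.fst ⁻¹' Metric.closedBall x r : Set (EN N × EN N)) ⊆ S.X1ᶜ := by
        intro z hz hz1
        exact hne ⟨z.1, hz1.1, hz⟩
      have h2 : m (Prod.fst ⁻¹' Metric.closedBall x r) = 0 :=
        measure_mono_null h1 h.pos.supp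
      rw [h2, ENNReal.toReal_zero]
      positivity
  · have h1 : (m (Prod.fst ⁻¹' Metric.closedBall x r)).toReal ≤ mass m :=
      hmono _ _ (subset_univ _)
    have h2 : 1 ≤ r / (S.C1 * S.d0) := by
      rw [one_le_div (by positivity)]
      exact hr1.le
    have h3 : 1 ≤ (r / (S.C1 * S.d0)) ^ 2 := one_le_pow₀ h2
    have h4 : 0 ≤ C * (r / (2 * S.C1)) ^ 2 * Q := by positivity
    nlinarith

/-- density bound for closed positive currents (T = 0) -/
theorem density_closed {m : Measure (EN N × EN N)} (hm : S.IsPos m)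
    (hex : ∀ α, IsOne α → S.Pm m (dOne α) = 0) :
    ∃ C : ℝ, 0 ≤ C ∧ ∀ x : EN N, ∀ r : ℝ, 0 < r →
      (m (Prod.fst ⁻¹' Metric.closedBall x r)).toReal ≤ C * r ^ 2 := by
  have h : S.ExPair 0 0 m (fun _ => 0) :=
    ⟨hm, S.isCur_zero 0, fun α hα => by rw [hex α hα, add_zero]⟩
  refine S.density h le_rfl ?_
  intro δ _ _ p _ b _
  simp

end Setup

end Pool.Agent.W_MP_d8b8b7_gt
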