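import Pool.Agent.W_MP_d8b8b7_gt.L2
import Pool.Agent.W_MP_d8b8b7_gt.AlgPos

/-!
# Riesz representation of bounded linear functionals on L2 component fields
-/

namespace Pool.Agent.W_MP_d8b8b7_gt

open MeasureTheory Set Filter Topology
open scoped ContDiff ENNReal

variable {N : ℕ}

set_option linter.unusedSimpArgs false

namespace Setup

variable (S : Setup N)

/-! ### auxiliary facts -/

theorem riesz_nu_ne : S.nu univ ≠ 0 := by
  obtain ⟨x₀, hx₀⟩ := S.neX
  obtain ⟨ψ, κ, V, h, σ, hc, -⟩ := S.charts x₀ hx₀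
  intro h0
  have h1 := hc.lint (fun _ => 1) measurable_const
  have h2 : ∫⁻ _ in V, (1 : ℝ≥0∞) ∂S.nu = 0 := by
    rw [lintegral_const, Measure.restrict_apply_univ, one_mul]
    exact measure_mono_null (subset_univ V) h0
  rw [h2] at h1
  simp only [one_mul] at h1
  have hm : Measurable (fun y : EN 4 => ENNReal.ofReal (h y)) :=
    hc.smooth_h.continuous.measurable.ennreal_ofReal
  have h3 := (lintegral_eq_zero_iff hm).1 h1.symm
  have h4 : (volume.restrict (Metric.ball (0 : EN 4) 1)) {y : EN 4 | ¬ (ENNReal.ofReal (h y) = 0)} = 0 := by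
    simpa using (ae_iff.1 h3)
  rw [Measure.restrict_apply' Metric.isOpen_ball.measurableSet] at h4
  have h5 : Metric.ball (0 : EN 4) 1 ⊆ {y : EN 4 | ¬ (ENNReal.ofReal (h y) = 0)} ∩ Metric.ball (0 : EN 4) 1 := by
    intro y hy
    refine ⟨?_, hy⟩
    simp only [Set.mem_ofPred_eq, ENNReal.ofReal_eq_zero, not_le]
    exact hc.h_pos y hy
  have h6 := measure_mono_null h5 h4
  exact (Metric.measure_ball_pos volume (0 : EN 4) one_pos).ne' h6

theorem riesz_nonneg {l : (EN N → C6) → ℝ} {C : ℝ}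
    (hC : ∀ b, S.L2F b → |l b| ≤ C * S.nrm b) : 0 ≤ C := by
  have hb : S.L2F (fun _ => Fc) := ⟨measurable_const, memLp_const _⟩
  have h1 := (abs_nonneg _).trans (hC _ hb)
  have h2 : 0 < S.nrm (fun _ => Fc) := by
    unfold nrm
    apply Real.sqrt_pos.2
    rw [integral_const, norm_Fc_sq, smul_eq_mul]
    have h3 : 0 < S.nu.real univ := by
      rw [Measure.real]
      exact ENNReal.toReal_pos (S.riesz_nu_ne) (measure_ne_top _ _)
    positivity
  by_contra h3
  push Not at h3
  have := mul_neg_of_neg_of_pos h3 h2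
  linarith

theorem riesz_nrm_zero {b : EN N → C6} (h : b =ᵐ[S.nu] 0) : S.nrm b = 0 := by
  unfold nrm
  have h1 : ∫ x, ‖b x‖ ^ 2 ∂S.nu = 0 := by
    rw [← integral_zero (EN N) ℝ (μ := S.nu)]
    apply integral_congr_ae
    filter_upwards [h] with x hx
    rw [hx]
    simp
  rw [h1, Real.sqrt_zero]

theorem riesz_congr {l : (EN N → C6) → ℝ} {C : ℝ}
    (hadd : ∀ b b', S.L2F b → S.L2F b' → l (b + b') = l b + l b')
    (hsmul : ∀ (c : ℝ) b, S.L2F b → l (c • b) = c * l b)
    (hC : ∀ b, S.L2F b → |l b| ≤ C * S.nrm b) {b b' : EN N → C6} (hb : S.L2F b) (hb' : S.L2F b')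
    (h : b =ᵐ[S.nu] b') : l b = l b' := by
  have hs := L2F.smul S hb' (-1)
  have h1 := hadd b ((-1 : ℝ) • b') hb hs
  rw [hsmul (-1) b' hb'] at h1
  have h2 := hC _ (L2F.add S hb hs)
  have h3 : S.nrm (b + (-1 : ℝ) • b') = 0 := by
    apply riesz_nrm_zero
    filter_upwards [h] with x hx
    simp [hx]
  rw [h3, mul_zero] at h2
  have h4 : l (b + (-1 : ℝ) • b') = 0 := abs_nonpos_iff.1 h2
  linarith

theorem riesz_L2F (f : Lp C6 2 S.nu) : S.L2F (f : EN N → C6) :=
  ⟨(Lp.stronglyMeasurable f).measurable, Lp.memLp f⟩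

theorem riesz_norm (f : Lp C6 2 S.nu) : S.nrm (f : EN N → C6) = ‖f‖ := by
  have h1 : ‖f‖ ^ 2 = ∫ x, ‖f x‖ ^ 2 ∂S.nu := by
    rw [← real_inner_self_eq_norm_sq f, L2.inner_def]
    apply integral_congr_ae
    apply ae_of_all
    intro x
    exact real_inner_self_eq_norm_sq _
  unfold nrm
  rw [← h1, Real.sqrt_sq (norm_nonneg _)]

/-- Representation by the wedge pairing.  ℓ induces a bounded linear functional on `Lp C6 2 nu`
(it respects a.e. equality because |ℓ (b - b')| ≤ C nrm (b - b') = 0); Fréchet-Riesz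
(`InnerProductSpace.toDual`) gives a0 in Lp with ℓ b = ∫ ⟪a0, b⟫; take a = star6 a0 for a
measurable representative: wedge (star6 a0) b = ⟪a0, b⟫ (`wedge_star`, `wedge_comm`). -/
theorem riesz (l : (EN N → C6) → ℝ) (C : ℝ) (hadd : ∀ b b', S.L2F b → S.L2F b' → l (b + b') = l b + l b')
    (hsmul : ∀ (c : ℝ) b, S.L2F b → l (c • b) = c * l b)
    (hC : ∀ b, S.L2F b → |l b| ≤ C * S.nrm b) :
    ∃ a : EN N → C6, S.L2F a ∧ S.nrm a ≤ C ∧ ∀ b, S.L2F b → l b = S.B a b := by
  have hC0 : 0 ≤ C := S.riesz_nonneg hC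
  let L : Lp C6 2 S.nu →ₗ[ℝ] ℝ :=
    { toFun := fun f => l (f : EN N → C6)
      map_add' := fun f g => by
        rw [← hadd _ _ (S.riesz_L2F f) (S.riesz_L2F g)]
        exact S.riesz_congr hadd hsmul hC (S.riesz_L2F _)
          (L2F.add S (S.riesz_L2F f) (S.riesz_L2F g)) (Lp.coeFn_add f g)
      map_smul' := fun c f => by
        rw [RingHom.id_apply, smul_eq_mul, ← hsmul c _ (S.riesz_L2F f)]
        exact S.riesz_congr hadd hsmul hC (S.riesz_L2F _)
          (L2F.smul S (S.riesz_L2F f) c) (Lp.coeFn_smul c f) }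
  have hLb : ∀ f : Lp C6 2 S.nu, ‖L f‖ ≤ C * ‖f‖ := by
    intro f
    rw [← S.riesz_norm f]
    exact hC _ (S.riesz_L2F f)
  let Lc : StrongDual ℝ (Lp C6 2 S.nu) := LinearMap.mkContinuous L C hLb
  let a0 : Lp C6 2 S.nu := (InnerProductSpace.toDual ℝ (Lp C6 2 S.nu)).symm Lc
  have ha0 : ∀ f : Lp C6 2 S.nu, inner ℝ a0 f = L f := by
    intro f
    exact InnerProductSpace.toDual_symm_apply
  have hn : ‖a0‖ ≤ C := by
    have h1 : ‖a0‖ = ‖Lc‖ := LinearIsometryEquiv.norm_map _ _
    rw [h1]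
    exact LinearMap.mkContinuous_norm_le L hC0 hLb
  have hA0 := S.riesz_L2F a0
  refine ⟨fun x => star6 (a0 x), L2F.star6 S hA0, ?_, ?_⟩
  · have h1 : S.nrm (fun x => star6 (a0 x)) = S.nrm (a0 : EN N → C6) := by
      unfold nrm
      simp_rw [norm_star6]
    rw [h1, S.riesz_norm]
    exact hn
  · intro b hb
    have h1 : l b = L (hb.memLp.toLp b) :=
      S.riesz_congr hadd hsmul hC hb (S.riesz_L2F _) (MemLp.coeFn_toLp hb.memLp).symm
    rw [h1, ← ha0, L2.inner_def]
    unfold B
    apply integral_congr_ae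
    filter_upwards [MemLp.coeFn_toLp hb.memLp] with x hx
    rw [hx, wedge_comm, wedge_star, real_inner_comm]

theorem riesz_B_star (a : EN N → C6) : S.B a (fun x => star6 (a x)) = S.nrm a ^ 2 := by
  rw [nrm_sq]
  unfold B
  apply integral_congr_ae
  apply ae_of_all
  intro x
  change wedge (a x) (star6 (a x)) = ‖a x‖ ^ 2
  rw [wedge_star, real_inner_self_eq_norm_sq]

theorem riesz_le_of_sq {n C : ℝ} (hn : 0 ≤ n) (hC : 0 ≤ C) (h : |n ^ 2| ≤ C * n) : n ≤ C := by
  rw [abs_of_nonneg (sq_nonneg n), sq] at h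
  rcases eq_or_lt_of_le hn with h0 | h0
  · rw [← h0]; exact hC
  · exact le_of_mul_le_mul_right h h0

/-- the norm is attained: nrm a is bounded by C as soon as |B a b| ≤ C nrm b for all b
(take b = star6 a: wedge a (star6 a) = ‖a‖^2) -/
theorem nrm_le_of_B {a : EN N → C6} (ha : S.L2F a) {C : ℝ} (hC : 0 ≤ C)
    (h : ∀ b, S.L2F b → |S.B a b| ≤ C * S.nrm b) : S.nrm a ≤ C := by
  have h1 := h _ (L2F.star6 S ha)
  rw [riesz_B_star] at h1
  have h2 : S.nrm (fun x => star6 (a x)) = S.nrm a := by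
    unfold nrm
    simp_rw [norm_star6]
  rw [h2] at h1
  exact riesz_le_of_sq (S.nrm_nonneg a) hC h1

theorem riesz_pr2_star_pr1 (a : C6) : pr2 (star6 (pr1 a)) = 0 := by
  apply c6_ext <;> simp only [pr1_c0, pr1_c1, pr1_c2, pr1_c3, pr1_c4, pr1_c5, pr2_c0, pr2_c1,
    pr2_c2, pr2_c3, pr2_c4, pr2_c5, star6_c0, star6_c1, star6_c2, star6_c3, star6_c4, star6_c5,
    c6_zero] <;> ring

theorem riesz_wedge_star_pr1 (a : C6) : wedge a (star6 (pr1 a)) = ‖pr1 a‖ ^ 2 := by
  rw [c6_norm_sq]
  simp only [wedge, pr1_c0, pr1_c1, pr1_c2, pr1_c3, pr1_c4, pr1_c5, star6_c0, star6_c1, star6_c2,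
    star6_c3, star6_c4, star6_c5]
  ring

theorem riesz_wedge_pr2_right (a : C6) : wedge a (pr2 a) = ‖pr2 a‖ ^ 2 := by
  rw [wedge_comm, wedge_pr2_left, wedge_pr2_self]

/-- same for the (1,1) part: take b = star6 (pr1 a), which satisfies pr2 b = 0 -/
theorem nrm_pr1_le_of_B {a : EN N → C6} (ha : S.L2F a) {C : ℝ} (hC : 0 ≤ C)
    (h : ∀ b, S.L2F b → (∀ x, pr2 (b x) = 0) → |S.B a b| ≤ C * S.nrm b) :
    S.nrm (fun x => pr1 (a x)) ≤ C := by
  have h1 := h _ (L2F.star6 S (L2F.pr1 S ha)) (fun x => riesz_pr2_star_pr1 (a x))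
  have h2 : S.B a (fun x => star6 (pr1 (a x))) = S.nrm (fun x => pr1 (a x)) ^ 2 := by
    rw [nrm_sq]
    unfold B
    apply integral_congr_ae
    apply ae_of_all
    intro x
    exact riesz_wedge_star_pr1 (a x)
  have h3 : S.nrm (fun x => star6 (pr1 (a x))) = S.nrm (fun x => pr1 (a x)) := by
    unfold nrm
    simp_rw [norm_star6]
  rw [h2, h3] at h1
  exact riesz_le_of_sq (S.nrm_nonneg _) hC h1

/-- and for the anti-invariant part: take b = pr2 a -/
theorem nrm_pr2_le_of_B {a : EN N → C6} (ha : S.L2F a) {C : ℝ} (hC : 0 ≤ C)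
    (h : ∀ b, S.L2F b → (∀ x, pr1 (b x) = 0) → |S.B a b| ≤ C * S.nrm b) :
    S.nrm (fun x => pr2 (a x)) ≤ C := by
  have h1 := h _ (L2F.pr2 S ha) (fun x => pr1_pr2 (a x))
  have h2 : S.B a (fun x => pr2 (a x)) = S.nrm (fun x => pr2 (a x)) ^ 2 := by
    rw [nrm_sq]
    unfold B
    apply integral_congr_ae
    apply ae_of_all
    intro x
    exact riesz_wedge_pr2_right (a x)
  rw [h2] at h1
  exact riesz_le_of_sq (S.nrm_nonneg _) hC h1

/-- a measurable field, multiplied by an indicator and the inverse of its norm -/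
theorem riesz_L2F_cut {c : EN N → C6} (hc : Measurable c) {E : Set (EN N)} (hE : MeasurableSet E) :
    S.L2F (fun x => E.indicator (fun x => ‖c x‖⁻¹ • c x) x) ∧
      ∀ x, ‖E.indicator (fun x => ‖c x‖⁻¹ • c x) x‖ ≤ 1 := by
  have hm : Measurable (fun x => E.indicator (fun x => ‖c x‖⁻¹ • c x) x) :=
    (hc.norm.inv.smul hc).indicator hE
  have hb : ∀ x, ‖E.indicator (fun x => ‖c x‖⁻¹ • c x) x‖ ≤ 1 := by
    intro x
    refine (norm_indicator_le_norm_self _ _).trans ?_
    rw [norm_smul, norm_inv, norm_norm]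
    rcases eq_or_ne ‖c x‖ 0 with h0 | h0
    · rw [h0]; simp
    · rw [inv_mul_cancel₀ h0]
  exact ⟨⟨hm, MemLp.of_bound hm.aestronglyMeasurable 1 (ae_of_all _ hb)⟩, hb⟩

/-- an integral comparison on all measurable sets gives a pointwise comparison -/
theorem riesz_ae_le {f g : EN N → ℝ} (hf : Measurable f) (hg : Measurable g)
    (hfi : Integrable f S.nu) (hgi : Integrable g S.nu)
    (h : ∀ E, MeasurableSet E → ∫ x in E, f x ∂S.nu ≤ ∫ x in E, g x ∂S.nu) :
    ∀ᵐ x ∂S.nu, f x ≤ g x := by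
  have h1 : 0 ≤ᵐ[S.nu] (fun x => g x - f x) := by
    apply ae_nonneg_of_forall_setIntegral_nonneg (hgi.sub hfi)
    intro E hE _
    rw [integral_sub' hgi.integrableOn hfi.integrableOn]
    linarith [h E hE]
  filter_upwards [h1] with x hx
  simpa using hx

/-- pointwise bounds from integral bounds, all components: test with
b = 1_E • ‖a‖⁻¹ • star6 a, E measurable. -/
theorem ae_norm_le {a : EN N → C6} (ha : S.L2F a) {t : EN N → ℝ} (ht : Measurable t)
    (hti : Integrable t S.nu) (ht0 : ∀ x, 0 ≤ t x)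
    (h : ∀ b, S.L2F b → (∀ x, ‖b x‖ ≤ 1) → S.B a b ≤ ∫ x, t x * ‖b x‖ ∂S.nu) :
    ∀ᵐ x ∂S.nu, ‖a x‖ ≤ t x := by
  have hai : Integrable (fun x => ‖a x‖) S.nu :=
    (ha.memLp.integrable (by norm_num)).norm
  apply S.riesz_ae_le ha.meas.norm ht hai hti
  intro E hE
  obtain ⟨hb, hb1⟩ := S.riesz_L2F_cut (measurable_star6.comp ha.meas) hE
  have h1 := h _ hb hb1
  have h2 : S.B a (fun x => E.indicator (fun x => ‖(star6 ∘ a) x‖⁻¹ • (star6 ∘ a) x) x) =
      ∫ x in E, ‖a x‖ ∂S.nu := by
    rw [← integral_indicator hE]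
    unfold B
    apply integral_congr_ae
    apply ae_of_all
    intro x
    by_cases hx : x ∈ E
    · simp only [indicator_of_mem hx]
      rw [wedge_smul_right]
      simp only [Function.comp_apply]
      rw [wedge_star, norm_star6, real_inner_self_eq_norm_sq]
      rcases eq_or_ne ‖a x‖ 0 with h0 | h0
      · rw [h0]; simp
      · field_simp
    · simp only [indicator_of_notMem hx]
      simp [wedge]
  have h3 : ∫ x, t x * ‖E.indicator (fun x => ‖(star6 ∘ a) x‖⁻¹ • (star6 ∘ a) x) x‖ ∂S.nu ≤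
      ∫ x in E, t x ∂S.nu := by
    rw [← integral_indicator hE]
    apply integral_mono_of_nonneg
    · apply ae_of_all
      intro x
      exact mul_nonneg (ht0 x) (norm_nonneg _)
    · exact hti.indicator hE
    · apply ae_of_all
      intro x
      by_cases hx : x ∈ E
      · simp only [indicator_of_mem hx]
        have h4 := hb1 x
        simp only [indicator_of_mem hx] at h4
        calc t x * ‖‖(star6 ∘ a) x‖⁻¹ • (star6 ∘ a) x‖ ≤ t x * 1 :=
              mul_le_mul_of_nonneg_left h4 (ht0 x)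
          _ = t x := mul_one _
      · simp only [indicator_of_notMem hx]
        simp
  rw [h2] at h1
  exact h1.trans h3

/-- pointwise bound of the anti-invariant part: test with b = 1_E • ‖pr2 a‖⁻¹ • pr2 a -/
theorem ae_norm_pr2_le {a : EN N → C6} (ha : S.L2F a) {t : EN N → ℝ} (ht : Measurable t)
    (hti : Integrable t S.nu) (ht0 : ∀ x, 0 ≤ t x)
    (h : ∀ b, S.L2F b → (∀ x, ‖b x‖ ≤ 1) → (∀ x, pr1 (b x) = 0) →
      S.B a b ≤ ∫ x, t x * ‖b x‖ ∂S.nu) :
    ∀ᵐ x ∂S.nu, ‖pr2 (a x)‖ ≤ t x := by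
  have ha2 := L2F.pr2 S ha
  have hai : Integrable (fun x => ‖pr2 (a x)‖) S.nu :=
    (ha2.memLp.integrable (by norm_num)).norm
  apply S.riesz_ae_le ha2.meas.norm ht hai hti
  intro E hE
  obtain ⟨hb, hb1⟩ := S.riesz_L2F_cut ha2.meas hE
  have hp : ∀ x, pr1 (E.indicator (fun x => ‖pr2 (a x)‖⁻¹ • pr2 (a x)) x) = 0 := by
    intro x
    by_cases hx : x ∈ E
    · simp only [indicator_of_mem hx]
      have h5 := pr1_linear (‖pr2 (a x)‖⁻¹) 0 (pr2 (a x)) 0
      simpa [pr1_pr2] using h5
    · simp only [indicator_of_notMem hx]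
      have h5 := pr1_linear 0 0 0 0
      simpa using h5
  have h1 := h _ hb hb1 hp
  have h2 : S.B a (fun x => E.indicator (fun x => ‖pr2 (a x)‖⁻¹ • pr2 (a x)) x) =
      ∫ x in E, ‖pr2 (a x)‖ ∂S.nu := by
    rw [← integral_indicator hE]
    unfold B
    apply integral_congr_ae
    apply ae_of_all
    intro x
    by_cases hx : x ∈ E
    · simp only [indicator_of_mem hx]
      rw [wedge_smul_right, riesz_wedge_pr2_right]
      rcases eq_or_ne ‖pr2 (a x)‖ 0 with h0 | h0
      · rw [h0]; simp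
      · field_simp
    · simp only [indicator_of_notMem hx]
      simp [wedge]
  have h3 : ∫ x, t x * ‖E.indicator (fun x => ‖pr2 (a x)‖⁻¹ • pr2 (a x)) x‖ ∂S.nu ≤
      ∫ x in E, t x ∂S.nu := by
    rw [← integral_indicator hE]
    apply integral_mono_of_nonneg
    · apply ae_of_all
      intro x
      exact mul_nonneg (ht0 x) (norm_nonneg _)
    · exact hti.indicator hE
    · apply ae_of_all
      intro x
      by_cases hx : x ∈ E
      · simp only [indicator_of_mem hx]
        have h4 := hb1 x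
        simp only [indicator_of_mem hx] at h4
        calc t x * ‖‖pr2 (a x)‖⁻¹ • pr2 (a x)‖ ≤ t x * 1 :=
              mul_le_mul_of_nonneg_left h4 (ht0 x)
          _ = t x := mul_one _
      · simp only [indicator_of_notMem hx]
        simp
  rw [h2] at h1
  exact h1.trans h3

/-- pointwise positivity: test with b = 1_E • sgv v for v in a countable dense set of unit
vectors (`wedge_sgv`, `norm_sgv`, `pos6_of_dense`, `evc_Fc`). -/
theorem ae_pos6 {a : EN N → C6} (ha : S.L2F a) {t : EN N → ℝ} (ht : Measurable t)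
    (hti : Integrable t S.nu)
    (h : ∀ b, S.L2F b → (∀ x, ‖b x‖ ≤ 1) → (∀ x, Pos6 (b x)) → (∀ x, pr2 (b x) = 0) →
      -∫ x, t x * ‖b x‖ ∂S.nu ≤ S.B a b) :
    ∀ᵐ x ∂S.nu, Pos6 (a x + t x • Fc) := by
  -- for every vector v of norm at most one
  have hev : ∀ v : EN 4, ‖v‖ ≤ 1 → ∀ᵐ x ∂S.nu, 0 ≤ evc (a x + t x • Fc) v := by
    intro v hv
    have hm : Measurable (fun x => evc (a x) v) := by
      have h1 : (fun x => evc (a x) v) = fun x => wedge (a x) (sgv v) := by
        funext x
        rw [wedge_sgv]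
      rw [h1]
      exact measurable_wedge ha.meas measurable_const
    have hi : Integrable (fun x => evc (a x) v) S.nu := by
      have h1 : (fun x => evc (a x) v) = fun x => wedge (a x) (sgv v) := by
        funext x
        rw [wedge_sgv]
      rw [h1]
      exact S.integrable_wedge ha ⟨measurable_const, memLp_const _⟩
    have hmt : Measurable (fun x => -(t x * ‖v‖ ^ 2)) := (ht.mul_const _).neg
    have hit : Integrable (fun x => -(t x * ‖v‖ ^ 2)) S.nu := (hti.mul_const _).neg
    have h2 : ∀ᵐ x ∂S.nu, -(t x * ‖v‖ ^ 2) ≤ evc (a x) v := by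
      apply S.riesz_ae_le hmt hm hit hi
      intro E hE
      have hbm : Measurable (fun x : EN N => E.indicator (fun _ => sgv v) x) :=
        measurable_const.indicator hE
      have hb1 : ∀ x : EN N, ‖E.indicator (fun _ => sgv v) x‖ ≤ 1 := by
        intro x
        refine (norm_indicator_le_norm_self _ _).trans ?_
        rw [norm_sgv]
        exact pow_le_one₀ (norm_nonneg _) hv
      have hb : S.L2F (fun x : EN N => E.indicator (fun _ => sgv v) x) :=
        ⟨hbm, MemLp.of_bound hbm.aestronglyMeasurable 1 (ae_of_all _ hb1)⟩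
      have hz : pr2 (0 : C6) = 0 := by
        have h5 := pr2_linear 0 0 0 0
        simpa using h5
      have h3 := h _ hb hb1
        (by
          intro x
          by_cases hx : x ∈ E
          · simp only [indicator_of_mem hx]
            exact pos6_sgv v
          · simp only [indicator_of_notMem hx]
            intro w
            simp [evc])
        (by
          intro x
          by_cases hx : x ∈ E
          · simp only [indicator_of_mem hx]
            rw [← pr1_sgv, pr2_pr1]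
          · simp only [indicator_of_notMem hx]
            exact hz)
      have h4 : S.B a (fun x : EN N => E.indicator (fun _ => sgv v) x) =
          ∫ x in E, evc (a x) v ∂S.nu := by
        rw [← integral_indicator hE]
        unfold B
        apply integral_congr_ae
        apply ae_of_all
        intro x
        by_cases hx : x ∈ E
        · simp only [indicator_of_mem hx]
          rw [wedge_sgv]
        · simp only [indicator_of_notMem hx]
          simp [wedge]
      have h5 : ∫ x, t x * ‖E.indicator (fun _ => sgv v) x‖ ∂S.nu =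
          ∫ x in E, t x * ‖v‖ ^ 2 ∂S.nu := by
        rw [← integral_indicator hE]
        apply integral_congr_ae
        apply ae_of_all
        intro x
        by_cases hx : x ∈ E
        · simp only [indicator_of_mem hx]
          rw [norm_sgv]
        · simp only [indicator_of_notMem hx]
          simp
      rw [h4, h5] at h3
      rw [integral_neg]
      exact h3
    filter_upwards [h2] with x hx
    rw [evc_add, evc_smul, evc_Fc]
    linarith
  -- a countable dense set
  obtain ⟨s, hsc, hsd⟩ := TopologicalSpace.exists_countable_dense (EN 4)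
  have hall : ∀ᵐ x ∂S.nu, ∀ v ∈ s, 0 ≤ evc (a x + t x • Fc) ((1 + ‖v‖)⁻¹ • v) := by
    rw [ae_ball_iff hsc]
    intro v _
    apply hev
    rw [norm_smul, norm_inv, Real.norm_eq_abs, abs_of_pos (by positivity)]
    rw [inv_mul_le_iff₀ (by positivity)]
    linarith [norm_nonneg v]
  filter_upwards [hall] with x hx
  apply pos6_of_dense hsd
  intro v hv
  have h1 := hx v hv
  have h2 : evc (a x + t x • Fc) ((1 + ‖v‖)⁻¹ • v) =
      ((1 + ‖v‖)⁻¹) ^ 2 * evc (a x + t x • Fc) v := by
    simp only [evc, PiLp.smul_apply, smul_eq_mul]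
    ring
  rw [h2] at h1
  have h3 : (0 : ℝ) < ((1 + ‖v‖)⁻¹) ^ 2 := by positivity
  by_contra h4
  push Not at h4
  have := mul_neg_of_pos_of_neg h3 h4
  linarith

end Setup

end Pool.Agent.W_MP_d8b8b7_gt
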