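import Pool.Agent.W_MP_d8b8b7_gt.SmoothR
import Pool.Agent.W_MP_d8b8b7_gt.Riesz
import Pool.Agent.W_MP_d8b8b7_gt.Bump
import Pool.Agent.W_MP_d8b8b7_gt.RbAlg
import Pool.Agent.W_MP_d8b8b7_gt.AntiL

/-!
# Currents with bounded energies are square integrable
-/

namespace Pool.Agent.W_MP_d8b8b7_gt

open MeasureTheory Set Filter Topology
open scoped ContDiff ENNReal

variable {N : ℕ}

/-- a profile with positive integral -/
theorem l2rep_exists_prof (k : ℕ) : ∃ q : EN N → ℝ, Prof k q ∧ 0 < ∫ s, q s := by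
  let f : ContDiffBump (0 : EN N) := ⟨1 / 4, 1 / 2, by norm_num, by norm_num⟩
  have hsm : ContDiff ℝ ∞ f := f.contDiff
  have hb : ∀ j : ℕ, ∃ C, ∀ s, ‖iteratedFDeriv ℝ j f s‖ ≤ C := by
    intro j
    have hc : Continuous (iteratedFDeriv ℝ j f) :=
      hsm.continuous_iteratedFDeriv (m := j) (by exact_mod_cast le_top)
    exact hc.bounded_above_of_compact_support (f.hasCompactSupport.iteratedFDeriv j)
  choose C hC using hb
  set D : ℝ := 1 + ∑ j ∈ Finset.range (k + 1), |C j| with hD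
  have hsum : 0 ≤ ∑ j ∈ Finset.range (k + 1), |C j| := Finset.sum_nonneg fun _ _ => abs_nonneg _
  have hD0 : 0 < D := by linarith
  have hsm' : ContDiff ℝ ∞ (D⁻¹ • (f : EN N → ℝ)) := contDiff_const.smul hsm
  refine ⟨D⁻¹ • (f : EN N → ℝ), ⟨hsm', ?_, ?_⟩, ?_⟩
  · intro s hs
    have h0 : f s = 0 := by
      apply f.zero_of_le_dist
      rw [dist_zero_right]
      exact hs
    simp [h0]
  · intro j hj s
    rw [iteratedFDeriv_const_smul_apply (hsm.contDiffAt.of_le (by exact_mod_cast le_top)),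
      norm_smul, norm_inv, Real.norm_eq_abs, abs_of_pos hD0, inv_mul_le_iff₀ hD0, mul_one]
    refine (hC j s).trans ?_
    have h1 : |C j| ≤ ∑ j ∈ Finset.range (k + 1), |C j| :=
      Finset.single_le_sum (f := fun j => |C j|) (fun _ _ => abs_nonneg _)
        (Finset.mem_range.mpr (Nat.lt_succ_of_le hj))
    have := le_abs_self (C j)
    linarith
  · have h1 : ∫ s, (D⁻¹ • (f : EN N → ℝ)) s = D⁻¹ * ∫ s, f s := by
      rw [← integral_const_mul]
      rfl
    rw [h1]
    exact mul_pos (inv_pos.2 hD0) f.integral_pos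

namespace Setup

variable (S : Setup N)

/-- on smooth forms T is bounded by the L2 norm -/
theorem l2rep_bound {k : ℕ} {K : ℝ} {T : (EN N → Bil N) → ℝ} (hT : S.IsCur k K T)
    {e : ℝ} (he : 0 ≤ e) (hb : ∀ δ : ℝ, 0 < δ → δ ≤ S.d0 / 2 → S.Ebd k T δ e) :
    ∃ C : ℝ, 0 ≤ C ∧ ∀ β : EN N → Bil N, IsForm β → |T β| ≤ C * S.nrm (S.cp β) := by
  obtain ⟨q, hq, hI⟩ := l2rep_exists_prof (N := N) k
  set I : ℝ := ∫ s, q s with hIdef
  refine ⟨e / I, by positivity, fun β hβ => ?_⟩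
  have hqs : ∀ s, 1 ≤ ‖s‖ → q s = 0 := fun s hs => hq.supp s (by linarith)
  obtain ⟨C, hC, hC'⟩ := S.antiLe_Rb_sub k hβ hq.smooth hqs
  have hL := S.L2F_cp hβ.smooth.continuous
  have hd0 := S.d0_pos
  have key : ∀ δ : ℝ, 0 < δ → δ ≤ S.d0 / 4 →
      I * |T β| ≤ e * S.nrm (S.cp β) + K * (C * δ) := by
    intro δ hδ hδ'
    have h1 := hb δ hδ (by linarith) q hq (S.cp β) hL
    have h2' := hC' δ hδ hδ'
    have hsm := (S.isForm_Rb hq.smooth hδ hL).smooth
    have hβ' : ContDiff ℝ ∞ ((-I) • β) := contDiff_const.smul hβ.smooth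
    have h3 : (fun x => S.Rb q δ (S.cp β) x - (∫ s, q s) • β x) =
        S.Rb q δ (S.cp β) + (-I) • β := by
      funext x
      rw [Pi.add_apply, Pi.smul_apply, neg_smul, sub_eq_add_neg, hIdef]
    rw [h3] at h2'
    have h2 := hT.bound (S.Rb q δ (S.cp β) + (-I) • β) _ (hsm.add hβ') h2'
    rw [hT.add _ _ hsm hβ', hT.smul _ _ hβ.smooth] at h2
    have h4 : I * |T β| = |I * T β| := by rw [abs_mul, abs_of_pos hI]
    rw [h4]
    have h5 : I * T β = T (S.Rb q δ (S.cp β)) - (T (S.Rb q δ (S.cp β)) + -I * T β) := by ring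
    rw [h5]
    exact (abs_sub _ _).trans (add_le_add h1 h2)
  have key2 : I * |T β| ≤ e * S.nrm (S.cp β) := by
    refine le_of_forall_pos_le_add fun ε hε => ?_
    have hKC : 0 ≤ K * C := mul_nonneg hT.K_nonneg hC
    have hpos : 0 < min (S.d0 / 4) (ε / (K * C + 1)) := lt_min (by linarith) (by positivity)
    refine (key _ hpos (min_le_left _ _)).trans ?_
    have h1 : K * (C * min (S.d0 / 4) (ε / (K * C + 1))) ≤ ε := by
      have h2 : min (S.d0 / 4) (ε / (K * C + 1)) ≤ ε / (K * C + 1) := min_le_right _ _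
      calc K * (C * min (S.d0 / 4) (ε / (K * C + 1)))
          = (K * C) * min (S.d0 / 4) (ε / (K * C + 1)) := by ring
        _ ≤ (K * C + 1) * (ε / (K * C + 1)) := by
            refine mul_le_mul (by linarith) h2 hpos.le (by linarith)
        _ = ε := by field_simp
    linarith
  rw [div_mul_eq_mul_div, le_div_iff₀ hI]
  linarith

theorem l2rep_nrm_ae {b b' : EN N → C6} (h : b =ᵐ[S.nu] b') : S.nrm b = S.nrm b' := by
  unfold nrm
  congr 1
  refine integral_congr_ae ?_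
  filter_upwards [h] with x hx
  rw [hx]

theorem l2rep_norm (f : Lp C6 2 S.nu) : ‖f‖ = S.nrm f := by
  have h1 : ‖f‖ ^ 2 = S.nrm f ^ 2 := by
    rw [← real_inner_self_eq_norm_sq, L2.inner_def, S.nrm_sq]
    refine integral_congr_ae (Eventually.of_forall fun x => ?_)
    exact real_inner_self_eq_norm_sq _
  exact (sq_eq_sq₀ (norm_nonneg _) (S.nrm_nonneg _)).1 h1

/-- antiB is a projection on alternating forms, for points of X -/
theorem l2rep_antiB_idem {x : EN N} (hx : x ∈ S.X) (b : Bil N) :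
    S.antiB x (S.antiB x b) = S.antiB x b := by
  have hJD : ∀ v, S.J x (S.D x v) = S.J x v := fun v => S.J_D x hx v
  have hDJ : ∀ v, S.D x (S.J x v) = S.J x v := fun v => S.D_J x hx v
  have hJJ : ∀ v, S.J x (S.J x v) = - S.D x v := fun v => S.J_J x hx v
  have hDD : ∀ v, S.D x (S.D x v) = S.D x v := fun v => S.tan_D hx v
  ext u v
  unfold Geom.antiB
  simp only [Bil.smul_apply, Bil.sub_apply, Bil.flip_apply, Bil.pull_apply, hJD, hDJ, hJJ, hDD,
    Bil.neg_left, Bil.neg_right, neg_neg]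
  ring

theorem l2rep_anti_smooth {β : EN N → Bil N} (hβ : ContDiff ℝ ∞ β) : ContDiff ℝ ∞ (S.anti β) :=
  S.smooth_antiL.clm_apply hβ

theorem l2rep_anti_form {β : EN N → Bil N} (hβ : IsForm β) : IsForm (S.anti β) := by
  refine ⟨S.l2rep_anti_smooth hβ.smooth, fun x v => ?_⟩
  change S.antiB x (β x) v v = 0
  unfold Geom.antiB
  simp only [Bil.smul_apply, Bil.sub_apply, Bil.flip_apply, sub_self, mul_zero]

/-- a current only sees the anti-invariant part -/
theorem l2rep_T_anti {k : ℕ} {K : ℝ} {T : (EN N → Bil N) → ℝ} (hT : S.IsCur k K T)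
    {β : EN N → Bil N} (hβ : IsForm β) : T β = T (S.anti β) := by
  have hγ := S.l2rep_anti_smooth hβ.smooth
  have hγ' : ContDiff ℝ ∞ ((-1 : ℝ) • S.anti β) := contDiff_const.smul hγ
  have h1 : T (β + (-1 : ℝ) • S.anti β) = T β + -1 * T (S.anti β) := by
    rw [hT.add β _ hβ.smooth hγ', hT.smul _ _ hγ]
  have h2 : S.AntiLe k (β + (-1 : ℝ) • S.anti β) 0 := by
    intro x hx j _
    have h3 : (fun y => S.anti (β + (-1 : ℝ) • S.anti β) (S.rho y)) =ᶠ[𝓝 x]
        fun _ => (0 : Bil N) := by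
      filter_upwards [S.openU.mem_nhds (S.subU hx)] with y hy
      have hm := S.rho_mem y hy
      change S.antiL (S.rho y) (β (S.rho y) + (-1 : ℝ) • S.antiL (S.rho y) (β (S.rho y))) = 0
      rw [map_add, map_smul]
      change S.antiB (S.rho y) (β (S.rho y)) +
        (-1 : ℝ) • S.antiB (S.rho y) (S.antiB (S.rho y) (β (S.rho y))) = 0
      rw [S.l2rep_antiB_idem hm, neg_one_smul, add_neg_cancel]
    have h5 : iteratedFDeriv ℝ j (fun y => S.anti (β + (-1 : ℝ) • S.anti β) (S.rho y)) x =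
        iteratedFDeriv ℝ j (fun _ => (0 : Bil N)) x := (h3.iteratedFDeriv ℝ j).eq_of_nhds
    rw [h5]
    have h6 : iteratedFDeriv ℝ j (fun _ : EN N => (0 : Bil N)) = 0 := iteratedFDeriv_fun_zero
    rw [h6]
    simp
  have h3 := hT.bound _ 0 (hβ.smooth.add hγ') h2
  rw [mul_zero] at h3
  have h4 : T (β + (-1 : ℝ) • S.anti β) = 0 := abs_eq_zero.1 (le_antisymm h3 (abs_nonneg _))
  linarith

theorem l2rep_wedge (a b : C6) : wedge a (pr2 b) = wedge (pr2 a) b := by
  rw [wedge_comm a, wedge_pr2_left b a, wedge_pr2_left a b, wedge_comm]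

/-- T only depends on the a.e. class of the components -/
theorem l2rep_congr {k : ℕ} {K : ℝ} {T : (EN N → Bil N) → ℝ} (hT : S.IsCur k K T)
    {C : ℝ} (hC : ∀ β : EN N → Bil N, IsForm β → |T β| ≤ C * S.nrm (S.cp β))
    {β γ : EN N → Bil N} (hβ : IsForm β) (hγ : IsForm γ) (h : S.cp β =ᵐ[S.nu] S.cp γ) :
    T β = T γ := by
  have hγ' : ContDiff ℝ ∞ ((-1 : ℝ) • γ) := contDiff_const.smul hγ.smooth
  have h1 : T (β + (-1 : ℝ) • γ) = T β + -1 * T γ := by
    rw [hT.add β _ hβ.smooth hγ', hT.smul _ γ hγ.smooth]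
  have hf : IsForm (β + (-1 : ℝ) • γ) := by
    refine ⟨hβ.smooth.add hγ', fun x v => ?_⟩
    change (β x + (-1 : ℝ) • γ x) v v = 0
    rw [Bil.add_apply, Bil.smul_apply, hβ.alt, hγ.alt]
    ring
  have h2 := hC _ hf
  have h3 : S.nrm (S.cp (β + (-1 : ℝ) • γ)) = 0 := by
    have h4 : S.cp (β + (-1 : ℝ) • γ) =ᵐ[S.nu] fun _ => (0 : C6) := by
      filter_upwards [h] with x hx
      rw [S.cp_add, S.cp_smul, hx, neg_one_smul, add_neg_cancel]
    rw [S.l2rep_nrm_ae h4]
    unfold nrm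
    simp
  rw [h3, mul_zero, h1] at h2
  have h4 := abs_eq_zero.1 (le_antisymm h2 (abs_nonneg _))
  linarith

/-- the classes of the components of smooth forms -/
noncomputable def l2repV : Submodule ℝ (Lp C6 2 S.nu) where
  carrier := {f | ∃ β : EN N → Bil N, IsForm β ∧ f =ᵐ[S.nu] S.cp β}
  add_mem' := by
    rintro f g ⟨β, hβ, hf⟩ ⟨γ, hγ, hg⟩
    refine ⟨β + γ, ⟨hβ.smooth.add hγ.smooth, fun x v => ?_⟩, ?_⟩
    · change (β x + γ x) v v = 0
      rw [Bil.add_apply, hβ.alt, hγ.alt, add_zero]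
    · filter_upwards [Lp.coeFn_add f g, hf, hg] with x h1 h2 h3
      rw [h1, Pi.add_apply, h2, h3, S.cp_add]
  zero_mem' := by
    refine ⟨fun _ => 0, ⟨contDiff_const, fun x v => rfl⟩, ?_⟩
    filter_upwards [Lp.coeFn_zero C6 2 S.nu] with x h1
    rw [h1]
    have h2 : S.cp ((0 : ℝ) • fun _ => (0 : Bil N)) x = (0 : ℝ) • S.cp (fun _ => (0 : Bil N)) x :=
      S.cp_smul 0 _ x
    rw [zero_smul ℝ (S.cp (fun _ => (0 : Bil N)) x)] at h2
    have h3 : ((0 : ℝ) • fun _ => (0 : Bil N)) = (fun _ : EN N => (0 : Bil N)) := by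
      funext y; simp
    rw [h3] at h2
    rw [h2]
    rfl
  smul_mem' := by
    rintro c f ⟨β, hβ, hf⟩
    refine ⟨c • β, ⟨contDiff_const.smul hβ.smooth, fun x v => ?_⟩, ?_⟩
    · change (c • β x) v v = 0
      rw [Bil.smul_apply, hβ.alt, mul_zero]
    · filter_upwards [Lp.coeFn_smul c f, hf] with x h1 h2
      rw [h1, Pi.smul_apply, h2, S.cp_smul]

/-- T is given by an L2 field.  With a nonnegative profile q, ∫ q = 1, c q in Prof k:
|T β| = lim |T (Rb q δ (cp β))| ≤ C nrm (cp β) for smooth forms β (`antiLe_Rb_sub`,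
`Ebd`); extend by density?  Not needed: the functional is only defined on {cp β : β smooth form};
extend it to L2 by Hahn-Banach (`Real.exists_extension_norm_eq` on a subspace of Lp C6 2 nu) and
represent by Riesz; replace t by pr2 t (T only sees anti-invariant parts:
T β = T (antiL β) and pr2 (cp β) = cp (antiL β)). -/
theorem exists_L2_rep {k : ℕ} {K : ℝ} {T : (EN N → Bil N) → ℝ} (hT : S.IsCur k K T)
    {e : ℝ} (he : 0 ≤ e) (hb : ∀ δ : ℝ, 0 < δ → δ ≤ S.d0 / 2 → S.Ebd k T δ e) :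
    ∃ t : EN N → C6, S.L2F t ∧ (∀ x, pr1 (t x) = 0) ∧
      ∀ β : EN N → Bil N, IsForm β → T β = S.B t (S.cp β) := by
  classical
  obtain ⟨C, hC0, hC⟩ := S.l2rep_bound hT he hb
  have hV : ∀ f : S.l2repV, ∃ β : EN N → Bil N, IsForm β ∧ (f : Lp C6 2 S.nu) =ᵐ[S.nu] S.cp β :=
    fun f => f.2
  choose F hF hFe using hV
  -- the functional on V
  let l0 : S.l2repV →ₗ[ℝ] ℝ :=
    { toFun := fun f => T (F f)
      map_add' := by
        intro f g
        have hfg : IsForm (F f + F g) := by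
          refine ⟨(hF f).smooth.add (hF g).smooth, fun x v => ?_⟩
          change (F f x + F g x) v v = 0
          rw [Bil.add_apply, (hF f).alt, (hF g).alt, add_zero]
        rw [← hT.add _ _ (hF f).smooth (hF g).smooth]
        refine S.l2rep_congr hT hC (hF _) hfg ?_
        filter_upwards [hFe (f + g), hFe f, hFe g, Lp.coeFn_add (f : Lp C6 2 S.nu) g]
          with x h1 h2 h3 h4
        rw [← h1, S.cp_add, ← h2, ← h3]
        exact h4
      map_smul' := by
        intro c f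
        have hcf : IsForm (c • F f) := by
          refine ⟨contDiff_const.smul (hF f).smooth, fun x v => ?_⟩
          change (c • F f x) v v = 0
          rw [Bil.smul_apply, (hF f).alt, mul_zero]
        have h0 : T (F (c • f)) = T (c • F f) := by
          refine S.l2rep_congr hT hC (hF _) hcf ?_
          filter_upwards [hFe (c • f), hFe f, Lp.coeFn_smul c (f : Lp C6 2 S.nu)]
            with x h1 h2 h4
          rw [← h1, S.cp_smul, ← h2]
          exact h4
        rw [h0, hT.smul _ _ (hF f).smooth]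
        rfl }
  have hl0 : ∀ f : S.l2repV, ‖l0 f‖ ≤ C * ‖f‖ := by
    intro f
    have h1 := hC (F f) (hF f)
    rw [← S.l2rep_nrm_ae (hFe f), ← S.l2rep_norm] at h1
    exact h1
  let l1 : S.l2repV →L[ℝ] ℝ := l0.mkContinuous C hl0
  obtain ⟨g, hg, -⟩ := _root_.exists_extension_norm_eq S.l2repV l1
  let l : (EN N → C6) → ℝ := fun b => if h : S.L2F b then g (h.memLp.toLp b) else 0
  have hl : ∀ b (h : S.L2F b), l b = g (h.memLp.toLp b) := fun b h => dif_pos h
  obtain ⟨t0, ht0, -, ht0'⟩ := S.riesz l ‖g‖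
    (by
      intro b b' h h'
      rw [hl _ h, hl _ h', hl _ (L2F.add S h h'), ← map_add]
      rfl)
    (by
      intro c b h
      rw [hl _ h, hl _ (L2F.smul S h c)]
      have : (L2F.smul S h c).memLp.toLp (c • b) = c • h.memLp.toLp b := rfl
      rw [this, map_smul]
      rfl)
    (by
      intro b h
      rw [hl _ h]
      refine (g.le_opNorm _).trans ?_
      rw [S.l2rep_norm, S.l2rep_nrm_ae h.memLp.coeFn_toLp])
  have hTB : ∀ β : EN N → Bil N, IsForm β → T β = S.B t0 (S.cp β) := by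
    intro β hβ
    have hL := S.L2F_cp hβ.smooth.continuous
    rw [← ht0' _ hL, hl _ hL]
    have hmem : hL.memLp.toLp (S.cp β) ∈ S.l2repV := ⟨β, hβ, hL.memLp.coeFn_toLp⟩
    have h1 := hg ⟨_, hmem⟩
    change g (hL.memLp.toLp (S.cp β)) = T (F ⟨_, hmem⟩) at h1
    rw [h1]
    refine S.l2rep_congr hT hC hβ (hF _) ?_
    filter_upwards [hFe ⟨_, hmem⟩, hL.memLp.coeFn_toLp] with x h2 h3
    rw [← h2]
    exact h3.symm
  refine ⟨fun x => pr2 (t0 x), L2F.pr2 S ht0, fun x => pr1_pr2 _, fun β hβ => ?_⟩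
  rw [S.l2rep_T_anti hT hβ, hTB _ (S.l2rep_anti_form hβ)]
  unfold B
  refine integral_congr_ae ?_
  filter_upwards [S.ae_mem_X] with x hx
  rw [S.cp_anti hx β (hβ.alt x)]
  exact l2rep_wedge _ _

end Setup

end Pool.Agent.W_MP_d8b8b7_gt
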