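import Pool.Agent.W_MP_d8b8b7_gt.PtBound

/-!
# Derivatives of rescaled profiles
-/

namespace Pool.Agent.W_MP_d8b8b7_gt

open MeasureTheory Set Filter Topology
open scoped ContDiff ENNReal

variable {N : ℕ}

namespace Setup

variable (S : Setup N)

/-- the derivatives of rho up to order k are bounded on X -/
theorem rho_deriv_bound (k : ℕ) : ∃ B : ℝ, 1 ≤ B ∧ ∀ i ≤ k, ∀ x ∈ S.X,
    ‖iteratedFDeriv ℝ i S.rho x‖ ≤ B := by
  have h1 : ∀ i : ℕ, ∃ B : ℝ, ∀ x ∈ S.X, ‖iteratedFDeriv ℝ i S.rho x‖ ≤ B := by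
    intro i
    refine S.cptX.exists_bound_of_continuousOn (f := fun x => iteratedFDeriv ℝ i S.rho x) ?_
    exact (S.smooth_rho.continuous_iteratedFDeriv (by exact_mod_cast le_top)).continuousOn
  choose B hB using h1
  refine ⟨1 + ∑ i ∈ Finset.range (k + 1), |B i|, ?_, ?_⟩
  · have : 0 ≤ ∑ i ∈ Finset.range (k + 1), |B i| := Finset.sum_nonneg fun _ _ => abs_nonneg _
    linarith
  · intro i hi x hx
    have h2 : |B i| ≤ ∑ i ∈ Finset.range (k + 1), |B i| :=
      Finset.single_le_sum (f := fun i => |B i|) (fun _ _ => abs_nonneg _)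
        (Finset.mem_range.2 (by omega))
    linarith [hB i x hx, le_abs_self (B i)]

/-- derivatives of the rescaled profile composed with rho: for x in X and all z
`‖D^j (y ↦ p (δ⁻¹ (z - rho y))) (x)‖ ≤ C δ^{-j}` (`norm_iteratedFDeriv_comp_le` with
`D^i (δ⁻¹ (z - rho y)) = O(δ⁻¹) = O((C/δ)^i)`), and the derivatives vanish if ‖z - x‖ ≥ δ. -/
theorem profile_deriv (k : ℕ) : ∃ C : ℝ, 0 ≤ C ∧ ∀ δ : ℝ, 0 < δ → δ ≤ 1 → ∀ p : EN N → ℝ, Prof k p →
    ∀ x ∈ S.X, ∀ z : EN N, ∀ j ≤ k,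
      ‖iteratedFDeriv ℝ j (fun y => p (δ⁻¹ • (z - S.rho y))) x‖ ≤ C * δ⁻¹ ^ j ∧
      (δ ≤ ‖z - x‖ → iteratedFDeriv ℝ j (fun y => p (δ⁻¹ • (z - S.rho y))) x = 0) := by
  obtain ⟨B, hB1, hB⟩ := S.rho_deriv_bound k
  refine ⟨(k.factorial : ℝ) * B ^ k, by positivity, ?_⟩
  intro δ hδ hδ1 p hp x hx z j hj
  have hinv : 1 ≤ δ⁻¹ := (one_le_inv₀ hδ).2 hδ1
  constructor
  · have hf : ContDiff ℝ ∞ (fun y => δ⁻¹ • (z - S.rho y)) :=
      (contDiff_const.sub S.smooth_rho).const_smul δ⁻¹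
    have hD : ∀ i, 1 ≤ i → i ≤ j →
        ‖iteratedFDeriv ℝ i (fun y => δ⁻¹ • (z - S.rho y)) x‖ ≤ (δ⁻¹ * B) ^ i := by
      intro i hi1 hij
      have e1 : iteratedFDeriv ℝ i (fun y => δ⁻¹ • (z - S.rho y)) x =
          δ⁻¹ • iteratedFDeriv ℝ i (fun y => z - S.rho y) x := by
        exact iteratedFDeriv_const_smul_apply'
          ((contDiff_const.sub S.smooth_rho).contDiffAt.of_le (by exact_mod_cast le_top))
      have e2 : iteratedFDeriv ℝ i (fun y => z - S.rho y) x = - iteratedFDeriv ℝ i S.rho x := by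
        have e3 := iteratedFDeriv_sub_apply (𝕜 := ℝ) (i := i) (x := x) (f := fun _ : EN N => z)
          (g := S.rho) contDiffAt_const
          (S.smooth_rho.contDiffAt.of_le (by exact_mod_cast le_top))
        have e4 : iteratedFDeriv ℝ i (fun _ : EN N => z) x = 0 := by
          rw [iteratedFDeriv_const_of_ne (by omega)]
          rfl
        rw [e4, zero_sub] at e3
        exact e3
      rw [e1, e2, norm_smul, norm_neg, Real.norm_of_nonneg (by positivity)]
      have h1 : δ⁻¹ * B ≤ (δ⁻¹ * B) ^ i := by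
        have h2 : 1 ≤ δ⁻¹ * B := by nlinarith
        exact le_self_pow₀ h2 (by omega)
      exact le_trans (mul_le_mul_of_nonneg_left (hB i (by omega) x hx) (by positivity)) h1
    have hC : ∀ i, i ≤ j → ‖iteratedFDeriv ℝ i p (δ⁻¹ • (z - S.rho x))‖ ≤ 1 :=
      fun i hi => hp.bound i (by omega) _
    have h3 := norm_iteratedFDeriv_comp_le (N := ∞) (n := j) hp.smooth hf
      (by exact_mod_cast le_top) x hC hD
    have h4 : (j.factorial : ℝ) * 1 * (δ⁻¹ * B) ^ j ≤ (k.factorial : ℝ) * B ^ k * δ⁻¹ ^ j := by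
      have h5 : (j.factorial : ℝ) ≤ k.factorial := by exact_mod_cast Nat.factorial_le hj
      have h6 : B ^ j ≤ B ^ k := pow_le_pow_right₀ hB1 hj
      rw [mul_pow, mul_one]
      have h7 : (j.factorial : ℝ) * B ^ j ≤ k.factorial * B ^ k :=
        mul_le_mul h5 h6 (by positivity) (by positivity)
      calc (j.factorial : ℝ) * (δ⁻¹ ^ j * B ^ j) = (j.factorial * B ^ j) * δ⁻¹ ^ j := by ring
        _ ≤ _ := mul_le_mul_of_nonneg_right h7 (by positivity)
    exact le_trans h3 h4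
  · intro hz
    have h0 : (fun y => p (δ⁻¹ • (z - S.rho y))) =ᶠ[𝓝 x] fun _ => (0 : ℝ) := by
      have hc : ContinuousAt (fun y => ‖δ⁻¹ • (z - S.rho y)‖) x :=
        ((continuous_const.sub S.smooth_rho.continuous).const_smul δ⁻¹).norm.continuousAt
      have h1 : (1 / 2 : ℝ) < ‖δ⁻¹ • (z - S.rho x)‖ := by
        rw [S.rho_fix x hx, norm_smul, Real.norm_of_nonneg (by positivity)]
        have h2 : 1 ≤ δ⁻¹ * ‖z - x‖ := by
          rw [inv_mul_eq_div, one_le_div hδ]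
          exact hz
        linarith
      filter_upwards [hc.eventually_const_lt h1] with y hy
      exact hp.supp _ hy.le
    rw [(Filter.EventuallyEq.iteratedFDeriv ℝ h0 j).eq_of_nhds]
    rcases Nat.eq_zero_or_pos j with rfl | hj0
    · ext m
      simp
    · rw [iteratedFDeriv_const_of_ne (by omega)]
      rfl

end Setup

end Pool.Agent.W_MP_d8b8b7_gt
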