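import Pool.Agent.W_MP_d8b8b7_gt.AntiL
import Pool.Agent.W_MP_d8b8b7_gt.ProfDeriv

/-!
# The crude bound: T (Op p A δ b) = O(δ^{-k-2}) ‖b‖
-/

namespace Pool.Agent.W_MP_d8b8b7_gt

open MeasureTheory Set Filter Topology
open scoped ContDiff ENNReal

variable {N : ℕ}

namespace Setup

variable (S : Setup N)

/-- Crude bound of the C^k norm.  By `anti_Op_eq` and `norm_iteratedFDeriv_integral_le` the j-th
derivative at x in X is at most ∫ ‖D^j_y (kernel) (x)‖ ‖ex b z‖ dz; Leibniz rule for the product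
(profile part) • (amplitude part) and the two previous lemmas bound the kernel by
C δ^{-N-j}, and by 0 if ‖z - x‖ ≥ δ; substitute z = x + δ s and use `integral_ball_le`
(`‖ex b z‖ ≤ C ‖b (rho z)‖` on Ud). -/
theorem antiLe_Op (k : ℕ) (A : EN N → EN N → (Bil N →L[ℝ] Bil N))
    (hA : ContDiff ℝ ∞ (fun z : EN N × EN N => A z.1 z.2)) :
    ∃ C : ℝ, 0 ≤ C ∧ ∀ δ : ℝ, 0 < δ → δ ≤ S.d0 / 2 → ∀ p : EN N → ℝ, Prof k p →
    ∀ b : EN N → C6, S.L2F b → S.AntiLe k (S.Op p A δ b) (C * δ⁻¹ ^ (k + 2) * S.nrm b) := by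
  obtain ⟨Cp, hCp0, hCp⟩ := S.profile_deriv k
  obtain ⟨Ca, hCa0, hCa⟩ := S.amplitude_deriv k A hA
  obtain ⟨Cb, hCb0, hCb⟩ := S.integral_ball_le
  obtain ⟨Ce, hCe1, hCe, -⟩ := S.exists_bound
  have hCe0 : 0 ≤ Ce := zero_le_one.trans hCe1
  refine ⟨2 ^ k * Cp * Ca * (Ce * Cb), by positivity, ?_⟩
  intro δ hδ hδ' p hp b hb x hx j hj
  have hδ1 : δ ≤ 1 := by linarith [S.d0_le, S.d0_pos]
  have hδi : 1 ≤ δ⁻¹ := (one_le_inv₀ hδ).mpr hδ1
  have hδi0 : 0 ≤ δ⁻¹ := by positivity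
  -- the kernel
  set Φ : EN N × EN N → (Bil N →L[ℝ] Bil N) := fun w =>
    (δ⁻¹ ^ N * p (δ⁻¹ • (w.2 - S.rho w.1))) •
      (S.antiL (S.rho w.1)).comp (A (w.2 - S.rho w.1) (S.rho w.1)) with hΦdef
  have hr : ContDiff ℝ ∞ (fun w : EN N × EN N => S.rho w.1) := S.smooth_rho.comp contDiff_fst
  have hsub : ContDiff ℝ ∞ (fun w : EN N × EN N => w.2 - S.rho w.1) := contDiff_snd.sub hr
  have hΦ : ContDiff ℝ ∞ Φ := by
    have h1 : ContDiff ℝ ∞ (fun w : EN N × EN N => δ⁻¹ ^ N * p (δ⁻¹ • (w.2 - S.rho w.1))) :=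
      contDiff_const.mul (hp.smooth.comp (hsub.const_smul δ⁻¹))
    have h2 : ContDiff ℝ ∞ (fun w : EN N × EN N =>
        (S.antiL (S.rho w.1)).comp (A (w.2 - S.rho w.1) (S.rho w.1))) :=
      (S.smooth_antiL.comp hr).clm_comp (hA.comp (hsub.prodMk hr))
    exact h1.smul h2
  have hfun : (fun y => S.anti (S.Op p A δ b) (S.rho y)) = fun y => ∫ z, Φ (y, z) (S.ex b z) := by
    funext y
    exact S.anti_Op_eq hp.smooth A hA hδ hb y
  have hgi : Integrable (S.ex b) volume := S.integrable_ex hb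
  have h1 := norm_iteratedFDeriv_integral_le Φ hΦ (S.ex b) hgi S.Ud S.Ud_bounded
    (fun y hy => S.ex_zero_of_not_mem hy) j x
  -- pointwise bound of the kernel
  have hker : ∀ z : EN N, ‖iteratedFDeriv ℝ j (fun y => Φ (y, z)) x‖ * ‖S.ex b z‖ ≤
      (Metric.ball x δ).indicator
        (fun z => (2 ^ k * Cp * Ca * δ⁻¹ ^ (N + k)) * ‖S.ex b z‖) z := by
    intro z
    set f : EN N → ℝ := fun y => p (δ⁻¹ • (z - S.rho y)) with hf
    set g : EN N → (Bil N →L[ℝ] Bil N) := fun y =>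
      (S.antiL (S.rho y)).comp (A (z - S.rho y) (S.rho y)) with hg
    have hcr : ContDiff ℝ ∞ (fun y : EN N => z - S.rho y) := contDiff_const.sub S.smooth_rho
    have hfs : ContDiff ℝ ∞ f := hp.smooth.comp (hcr.const_smul δ⁻¹)
    have hgs : ContDiff ℝ ∞ g :=
      (S.smooth_antiL.comp S.smooth_rho).clm_comp (hA.comp (hcr.prodMk S.smooth_rho))
    have hΦe : (fun y => Φ (y, z)) = fun y => δ⁻¹ ^ N • (f y • g y) := by
      funext y
      simp only [hΦdef, hf, hg, smul_smul]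
    have hfg : ContDiff ℝ ∞ (fun y => f y • g y) := hfs.smul hgs
    have hnorm : ‖iteratedFDeriv ℝ j (fun y => Φ (y, z)) x‖ =
        δ⁻¹ ^ N * ‖iteratedFDeriv ℝ j (fun y => f y • g y) x‖ := by
      have h2 : iteratedFDeriv ℝ j (fun y => δ⁻¹ ^ N • (f y • g y)) x =
          δ⁻¹ ^ N • iteratedFDeriv ℝ j (fun y => f y • g y) x :=
        iteratedFDeriv_const_smul_apply' ((hfg.of_le (by exact_mod_cast le_top)).contDiffAt)
      rw [hΦe, h2, norm_smul, Real.norm_eq_abs, abs_of_nonneg (by positivity)]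
    have hleib : ‖iteratedFDeriv ℝ j (fun y => f y • g y) x‖ ≤
        ∑ i ∈ Finset.range (j + 1), (j.choose i : ℝ) * ‖iteratedFDeriv ℝ i f x‖ *
          ‖iteratedFDeriv ℝ (j - i) g x‖ :=
      norm_iteratedFDeriv_smul_le hfs hgs x (by exact_mod_cast le_top)
    by_cases hz : z ∈ Metric.ball x δ
    · rw [Set.indicator_of_mem hz]
      apply mul_le_mul_of_nonneg_right _ (norm_nonneg _)
      have hzx : ‖z - x‖ ≤ 1 := by
        rw [Metric.mem_ball, dist_eq_norm] at hz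
        linarith
      have h3 : ‖iteratedFDeriv ℝ j (fun y => f y • g y) x‖ ≤ 2 ^ k * Cp * Ca * δ⁻¹ ^ k := by
        calc ‖iteratedFDeriv ℝ j (fun y => f y • g y) x‖ ≤
              ∑ i ∈ Finset.range (j + 1), (j.choose i : ℝ) * ‖iteratedFDeriv ℝ i f x‖ *
                ‖iteratedFDeriv ℝ (j - i) g x‖ := hleib
          _ ≤ ∑ i ∈ Finset.range (j + 1), (j.choose i : ℝ) * (Cp * Ca * δ⁻¹ ^ k) := by
              apply Finset.sum_le_sum
              intro i hi
              have hij : i ≤ j := Nat.lt_succ_iff.mp (Finset.mem_range.mp hi)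
              have e1 : ‖iteratedFDeriv ℝ i f x‖ ≤ Cp * δ⁻¹ ^ i :=
                (hCp δ hδ hδ1 p hp x hx z i (hij.trans hj)).1
              have e2 : ‖iteratedFDeriv ℝ (j - i) g x‖ ≤ Ca :=
                hCa x hx z hzx (j - i) ((Nat.sub_le _ _).trans hj)
              have e3 : δ⁻¹ ^ i ≤ δ⁻¹ ^ k := pow_le_pow_right₀ hδi (hij.trans hj)
              rw [mul_assoc]
              apply mul_le_mul_of_nonneg_left _ (by positivity)
              calc ‖iteratedFDeriv ℝ i f x‖ * ‖iteratedFDeriv ℝ (j - i) g x‖ ≤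
                    (Cp * δ⁻¹ ^ k) * Ca :=
                    mul_le_mul (e1.trans (mul_le_mul_of_nonneg_left e3 hCp0)) e2
                      (norm_nonneg _) (by positivity)
                _ = Cp * Ca * δ⁻¹ ^ k := by ring
          _ = 2 ^ j * (Cp * Ca * δ⁻¹ ^ k) := by
              rw [← Finset.sum_mul]
              congr 1
              have := Nat.sum_range_choose j
              exact_mod_cast this
          _ ≤ 2 ^ k * (Cp * Ca * δ⁻¹ ^ k) := by
              apply mul_le_mul_of_nonneg_right _ (by positivity)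
              exact pow_le_pow_right₀ (by norm_num) hj
          _ = 2 ^ k * Cp * Ca * δ⁻¹ ^ k := by ring
      rw [hnorm]
      calc δ⁻¹ ^ N * ‖iteratedFDeriv ℝ j (fun y => f y • g y) x‖ ≤
            δ⁻¹ ^ N * (2 ^ k * Cp * Ca * δ⁻¹ ^ k) := mul_le_mul_of_nonneg_left h3 (by positivity)
        _ = 2 ^ k * Cp * Ca * δ⁻¹ ^ (N + k) := by rw [pow_add]; ring
    · rw [Set.indicator_of_notMem hz]
      have hzx : δ ≤ ‖z - x‖ := by
        rw [Metric.mem_ball, dist_eq_norm, not_lt] at hz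
        exact hz
      have h3 : ‖iteratedFDeriv ℝ j (fun y => f y • g y) x‖ ≤ 0 := by
        refine hleib.trans (le_of_eq ?_)
        apply Finset.sum_eq_zero
        intro i hi
        have hij : i ≤ j := Nat.lt_succ_iff.mp (Finset.mem_range.mp hi)
        have e1 : iteratedFDeriv ℝ i f x = 0 :=
          (hCp δ hδ hδ1 p hp x hx z i (hij.trans hj)).2 hzx
        rw [e1]
        simp
      have h4 : ‖iteratedFDeriv ℝ j (fun y => f y • g y) x‖ = 0 := le_antisymm h3 (norm_nonneg _)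
      rw [hnorm, h4]
      simp
  -- integrate
  have h2 : ∫ z, ‖iteratedFDeriv ℝ j (fun y => Φ (y, z)) x‖ * ‖S.ex b z‖ ≤
      (2 ^ k * Cp * Ca * δ⁻¹ ^ (N + k)) * ∫ z in Metric.ball x δ, ‖S.ex b z‖ := by
    have h3 : ∫ z, ‖iteratedFDeriv ℝ j (fun y => Φ (y, z)) x‖ * ‖S.ex b z‖ ≤
        ∫ z, (Metric.ball x δ).indicator
          (fun z => (2 ^ k * Cp * Ca * δ⁻¹ ^ (N + k)) * ‖S.ex b z‖) z := by
      apply integral_mono_of_nonneg
      · exact ae_of_all _ (fun z => mul_nonneg (norm_nonneg _) (norm_nonneg _))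
      · exact (hgi.norm.const_mul _).indicator Metric.isOpen_ball.measurableSet
      · exact ae_of_all _ hker
    rw [integral_indicator Metric.isOpen_ball.measurableSet, integral_const_mul] at h3
    exact h3
  -- change of variables
  have h3 : ∫ z in Metric.ball x δ, ‖S.ex b z‖ =
      δ ^ N * ∫ s in Metric.ball (0 : EN N) 1, ‖S.ex b (x + δ • s)‖ := by
    rw [← integral_indicator Metric.isOpen_ball.measurableSet,
      ← integral_indicator Metric.isOpen_ball.measurableSet]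
    have e1 : (Metric.ball (0 : EN N) 1).indicator (fun s => ‖S.ex b (x + δ • s)‖) =
        fun s => (fun w => (Metric.ball x δ).indicator (fun z => ‖S.ex b z‖) (x + w)) (δ • s) := by
      funext s
      by_cases hs : s ∈ Metric.ball (0 : EN N) 1
      · have hs' : x + δ • s ∈ Metric.ball x δ := by
          rw [mem_ball_zero_iff] at hs
          rw [Metric.mem_ball, dist_eq_norm, add_sub_cancel_left, norm_smul, Real.norm_eq_abs,
            abs_of_pos hδ]
          nlinarith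
        simp only [Set.indicator_of_mem hs, Set.indicator_of_mem hs']
      · have hs' : x + δ • s ∉ Metric.ball x δ := by
          rw [mem_ball_zero_iff, not_lt] at hs
          rw [Metric.mem_ball, dist_eq_norm, add_sub_cancel_left, norm_smul, Real.norm_eq_abs,
            abs_of_pos hδ, not_lt]
          nlinarith
        simp only [Set.indicator_of_notMem hs, Set.indicator_of_notMem hs']
    rw [e1, Measure.integral_comp_smul, integral_add_left_eq_self, finrank_euclideanSpace,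
      Fintype.card_fin, smul_eq_mul, abs_of_nonneg (by positivity), ← mul_assoc,
      mul_inv_cancel₀ (by positivity), one_mul]
  have h4 : ∫ s in Metric.ball (0 : EN N) 1, ‖S.ex b (x + δ • s)‖ ≤
      Ce * (Cb * δ⁻¹ ^ 2 * S.nrm b) := by
    obtain ⟨e1, e2⟩ := hCb x hx δ hδ hδ' b hb
    have e3 : ∫ s in Metric.ball (0 : EN N) 1, ‖S.ex b (x + δ • s)‖ ≤
        ∫ s in Metric.ball (0 : EN N) 1, Ce * ‖b (S.rho (x + δ • s))‖ := by
      apply integral_mono_of_nonneg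
      · exact ae_of_all _ (fun z => norm_nonneg _)
      · exact e1.const_mul _
      · filter_upwards [ae_restrict_mem Metric.isOpen_ball.measurableSet] with s hs
        rw [mem_ball_zero_iff] at hs
        have hU : x + δ • s ∈ S.Ud := by
          apply S.add_mem_Ud hx
          rw [norm_smul, Real.norm_eq_abs, abs_of_pos hδ]
          nlinarith
        have e4 : S.ex b (x + δ • s) = S.rc b (S.rho (x + δ • s)) := by
          unfold ex
          rw [Set.indicator_of_mem hU]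
        rw [e4]
        exact (hCe _ (S.rho_mem_X hU)).2.2.2.2.1 b
    rw [integral_const_mul] at e3
    exact e3.trans (mul_le_mul_of_nonneg_left e2 hCe0)
  rw [hfun]
  have hM0 : 0 ≤ 2 ^ k * Cp * Ca * δ⁻¹ ^ (N + k) := by positivity
  calc ‖iteratedFDeriv ℝ j (fun y => ∫ z, Φ (y, z) (S.ex b z)) x‖ ≤
        ∫ z, ‖iteratedFDeriv ℝ j (fun y => Φ (y, z)) x‖ * ‖S.ex b z‖ := h1
    _ ≤ (2 ^ k * Cp * Ca * δ⁻¹ ^ (N + k)) * ∫ z in Metric.ball x δ, ‖S.ex b z‖ := h2
    _ = (2 ^ k * Cp * Ca * δ⁻¹ ^ (N + k)) *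
        (δ ^ N * ∫ s in Metric.ball (0 : EN N) 1, ‖S.ex b (x + δ • s)‖) := by rw [h3]
    _ ≤ (2 ^ k * Cp * Ca * δ⁻¹ ^ (N + k)) * (δ ^ N * (Ce * (Cb * δ⁻¹ ^ 2 * S.nrm b))) :=
        mul_le_mul_of_nonneg_left (mul_le_mul_of_nonneg_left h4 (by positivity)) hM0
    _ = (δ⁻¹ ^ N * δ ^ N) * (2 ^ k * Cp * Ca * (Ce * Cb) * δ⁻¹ ^ (k + 2) * S.nrm b) := by
        rw [pow_add, pow_add]; ring
    _ = 2 ^ k * Cp * Ca * (Ce * Cb) * δ⁻¹ ^ (k + 2) * S.nrm b := by
        rw [← mul_pow, inv_mul_cancel₀ hδ.ne', one_pow, one_mul]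

theorem crude (k : ℕ) (A : EN N → EN N → (Bil N →L[ℝ] Bil N))
    (hA : ContDiff ℝ ∞ (fun z : EN N × EN N => A z.1 z.2)) :
    ∃ C : ℝ, 0 ≤ C ∧ ∀ (K : ℝ) (T : (EN N → Bil N) → ℝ), S.IsCur k K T →
    ∀ δ : ℝ, 0 < δ → δ ≤ S.d0 / 2 → ∀ p : EN N → ℝ, Prof k p →
    ∀ b : EN N → C6, S.L2F b → |T (S.Op p A δ b)| ≤ C * K * δ⁻¹ ^ (k + 2) * S.nrm b := by
  obtain ⟨C, hC0, hC⟩ := S.antiLe_Op k A hA
  refine ⟨C, hC0, fun K T hT δ hδ hδ' p hp b hb => ?_⟩
  have h1 := hT.bound (S.Op p A δ b) _ (S.contDiff_Op hp.smooth A hA hδ hb) (hC δ hδ hδ' p hp b hb)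
  linarith [h1, mul_comm K (C * δ⁻¹ ^ (k + 2) * S.nrm b), mul_assoc C K (δ⁻¹ ^ (k + 2) * S.nrm b)]

/-- in particular the energies are finite -/
theorem ebd_crude (k : ℕ) : ∃ C : ℝ, 0 ≤ C ∧ ∀ (K : ℝ) (T : (EN N → Bil N) → ℝ), S.IsCur k K T →
    ∀ δ : ℝ, 0 < δ → δ ≤ S.d0 / 2 → S.Ebd k T δ (C * K * δ⁻¹ ^ (k + 2)) := by
  obtain ⟨C, hC0, hC⟩ := S.crude k S.ampR S.smooth_ampR
  refine ⟨C, hC0, fun K T hT δ hδ hδ' p hp b hb => ?_⟩
  rw [S.Rb_eq_Op]
  exact hC K T hT δ hδ hδ' p hp b hb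

end Setup

end Pool.Agent.W_MP_d8b8b7_gt
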