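import Pool.Agent.W_MP_d8b8b7_gt.DensA
import Pool.Agent.W_MP_d8b8b7_gt.Com

/-!
# The density estimate: m (B(x, 4 C1 δ)) ≤ C δ² (mass + K + e)

For the pole x in X let γ = dα be the exact form of `exists_logFam_pos` at the scale δ, and let q be
a fixed nonnegative profile supported in the ball of radius 1/2 with ∫ q = 1.  Then
0 = Pm m (Rb q δ (cp γ)) + T (Rb q δ (cp γ)).
(T) |T (Rb q δ (cp γ))| ≤ |T (Rb q δ (pr2 cp γ))| + |T (Rb q δ (pr1 cp γ))|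
 ≤ C e ‖pr2 cp γ‖ + C δ (K + e) ‖cp γ‖ ≤ C (K + e), because
 ∫ (|x-y|²+δ²)^{-1} dν(y) ≤ C and δ² ∫ (|x-y|²+δ²)^{-2} dν(y) ≤ C (layer cake with `vol_ball`,
 or dyadic shells).
(m) Put σ = pr1 (cp γ) + (C - c K_δ) Fc ≥ 0 (Pos6), K_δ(y) = δ²/(|x-y|²+δ²)². For a unit
 vector (y', v) and z = rho (y' + δ s): val(cp γ) = val(σ) - (C - c K_δ(z)) val(Fc) + val (pr2 cp γ)
 ≥ - C δ² ‖σ‖ - C + c K_δ(z) / 2 - C δ/(|x-z|²+δ²)^{1/2} ≥ c K_δ(z)/2 - C', since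
 δ² ‖σ‖ ≤ C δ²/(|x-z|²+δ²) + C ≤ C.  (`val_ge`, `val_F`, `abs_val_le`, `abs_val_anti_le`; this needs
 δ ≤ d₁ of `val_F`; for larger δ the claim is trivial.)
 If |y' - x| ≤ 4 C1 δ then |x - z| ≤ 5 C1 δ and K_δ(z) ≥ c' δ^{-2}.
 Hence Pm m (Rb q δ (cp γ)) ≥ c'' δ^{-2} m (B(x, 4 C1 δ)) - C mass m.
-/

namespace Pool.Agent.W_MP_d8b8b7_gt

open MeasureTheory Set Filter Topology
open scoped ContDiff ENNReal

variable {N : ℕ}

namespace Setup

variable (S : Setup N)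

/-- bound of the L2 norm from a pointwise bound on X -/
theorem nrm_le_of_kernel {g : EN N → C6} {f : EN N → ℝ} {M : ℝ} (hM : 0 ≤ M)
    (hf : Integrable f S.nu) (h : ∀ y ∈ S.X, ‖g y‖ ^ 2 ≤ f y) (hi : ∫ y, f y ∂S.nu ≤ M ^ 2) :
    S.nrm g ≤ M := by
  have hae : ∀ᵐ y ∂S.nu, y ∈ S.X := by
    rw [ae_iff]
    exact S.nu_compl
  have h1 : ∫ y, ‖g y‖ ^ 2 ∂S.nu ≤ ∫ y, f y ∂S.nu := by
    refine integral_mono_of_nonneg (Eventually.of_forall fun y => sq_nonneg _) hf ?_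
    filter_upwards [hae] with y hy using h y hy
  unfold nrm
  rw [Real.sqrt_le_left hM]
  exact h1.trans hi

theorem kernel_integrable (x : EN N) {δ : ℝ} (hδ : 0 < δ) :
    Integrable (fun y => (‖x - y‖ ^ 2 + δ ^ 2)⁻¹) S.nu := by
  refine Integrable.mono' (integrable_const ((δ ^ 2)⁻¹)) ?_ (Eventually.of_forall fun y => ?_)
  · have hc : Continuous (fun y : EN N => (‖x - y‖ ^ 2 + δ ^ 2)⁻¹) := by
      refine Continuous.inv₀ (by fun_prop) fun y => ?_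
      positivity
    exact hc.aestronglyMeasurable
  · rw [Real.norm_of_nonneg (by positivity)]
    exact inv_anti₀ (by positivity) (by nlinarith [sq_nonneg ‖x - y‖])

theorem kernel_integrable_sq (x : EN N) {δ : ℝ} (hδ : 0 < δ) :
    Integrable (fun y => ((‖x - y‖ ^ 2 + δ ^ 2)⁻¹) ^ 2) S.nu := by
  refine Integrable.mono' (integrable_const (((δ ^ 2)⁻¹) ^ 2)) ?_ (Eventually.of_forall fun y => ?_)
  · have hc : Continuous (fun y : EN N => (‖x - y‖ ^ 2 + δ ^ 2)⁻¹) := by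
      refine Continuous.inv₀ (by fun_prop) fun y => ?_
      positivity
    exact (hc.pow 2).aestronglyMeasurable
  · rw [Real.norm_of_nonneg (by positivity)]
    refine pow_le_pow_left₀ (by positivity) ?_ 2
    exact inv_anti₀ (by positivity) (by nlinarith [sq_nonneg ‖x - y‖])

/-- the T part -/
theorem dens_T (k : ℕ) : ∃ C : ℝ, 0 ≤ C ∧ ∀ (K : ℝ) (T : (EN N → Bil N) → ℝ), S.IsCur k K T →
    ∀ δ : ℝ, 0 < δ → δ ≤ S.d0 / 2 → ∀ e : ℝ, 0 ≤ e → S.Ebd k T δ e →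
    ∀ q : EN N → ℝ, Prof k q → ∀ C₁ : ℝ, 0 ≤ C₁ → ∀ x ∈ S.X, ∀ g : EN N → C6, S.L2F g →
    (∀ y ∈ S.X, ‖g y‖ ≤ C₁ / (‖x - y‖ ^ 2 + δ ^ 2)) →
    (∀ y ∈ S.X, ‖pr2 (g y)‖ ≤ C₁ / Real.sqrt (‖x - y‖ ^ 2 + δ ^ 2)) →
    |T (S.Rb q δ g)| ≤ C * C₁ * (K + e) := by
  obtain ⟨Ck, hCk0, hCk⟩ := S.kernel_integrals
  obtain ⟨Cc, hCc0, hCc⟩ := S.com_bound k
  refine ⟨Real.sqrt Ck * (1 + Cc), by positivity, ?_⟩
  intro K T hT δ hδ hδ' e he hE q hq C₁ hC₁ x hx g hg h1 h2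
  have hδ1 : δ ≤ 1 := by linarith [S.d0_le, S.d0_pos]
  obtain ⟨hk1, hk2⟩ := hCk x hx δ hδ hδ1
  have hps : ∀ s, 1 ≤ ‖s‖ → q s = 0 := fun s hs => hq.supp s (by linarith)
  have hsq : Real.sqrt Ck ^ 2 = Ck := Real.sq_sqrt hCk0
  -- the anti-invariant part
  have hn2 : S.nrm (fun y => pr2 (g y)) ≤ C₁ * Real.sqrt Ck := by
    refine S.nrm_le_of_kernel (f := fun y => C₁ ^ 2 * (‖x - y‖ ^ 2 + δ ^ 2)⁻¹) (by positivity)
      ((S.kernel_integrable x hδ).const_mul _) (fun y hy => ?_) ?_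
    · have h3 := pow_le_pow_left₀ (norm_nonneg _) (h2 y hy) 2
      rw [div_pow, Real.sq_sqrt (by positivity)] at h3
      rw [← div_eq_mul_inv]
      exact h3
    · rw [integral_const_mul, mul_pow, hsq]
      exact mul_le_mul_of_nonneg_left hk1 (by positivity)
  have hn1 : S.nrm (fun y => pr1 (g y)) ≤ C₁ * Real.sqrt Ck / δ := by
    refine S.nrm_le_of_kernel (f := fun y => C₁ ^ 2 * ((‖x - y‖ ^ 2 + δ ^ 2)⁻¹) ^ 2)
      (by positivity) ((S.kernel_integrable_sq x hδ).const_mul _) (fun y hy => ?_) ?_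
    · have h3 := pow_le_pow_left₀ (norm_nonneg _) ((norm_pr1_le _).trans (h1 y hy)) 2
      rw [div_pow] at h3
      rw [inv_pow, ← div_eq_mul_inv]
      exact h3
    · rw [integral_const_mul, div_pow, mul_pow, hsq, le_div_iff₀ (by positivity)]
      nlinarith [mul_le_mul_of_nonneg_left hk2 (sq_nonneg C₁)]
  -- split
  have hg1 := L2F.pr1 S hg
  have hg2 := L2F.pr2 S hg
  have hgs : g = (fun y => pr1 (g y)) + (fun y => pr2 (g y)) := by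
    funext y
    exact (pr1_add_pr2 (g y)).symm
  have hRb : S.Rb q δ g = S.Rb q δ (fun y => pr1 (g y)) + S.Rb q δ (fun y => pr2 (g y)) := by
    conv_lhs => rw [hgs]
    exact S.Rb_add hq.smooth hps hδ hg1 hg2
  have hTs : T (S.Rb q δ g) = T (S.Rb q δ (fun y => pr1 (g y))) +
      T (S.Rb q δ (fun y => pr2 (g y))) := by
    rw [hRb]
    exact hT.add _ _ (S.isForm_Rb hq.smooth hδ hg1).smooth (S.isForm_Rb hq.smooth hδ hg2).smooth
  have hb2 := hE q hq _ hg2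
  have hb1 := hCc K T hT δ hδ hδ' e he hE q hq _ hg1 (fun y => pr2_pr1 (g y))
  have hK := hT.K_nonneg
  have hc1 : Cc * δ * (K + e) * S.nrm (fun y => pr1 (g y)) ≤ Cc * (K + e) * (C₁ * Real.sqrt Ck) := by
    calc Cc * δ * (K + e) * S.nrm (fun y => pr1 (g y))
        ≤ Cc * δ * (K + e) * (C₁ * Real.sqrt Ck / δ) :=
          mul_le_mul_of_nonneg_left hn1 (by positivity)
      _ = Cc * (K + e) * (C₁ * Real.sqrt Ck) := by
          field_simp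
  have hc2 : e * S.nrm (fun y => pr2 (g y)) ≤ (K + e) * (C₁ * Real.sqrt Ck) :=
    mul_le_mul (by linarith) hn2 (S.nrm_nonneg _) (by positivity)
  rw [hTs]
  calc |T (S.Rb q δ (fun y => pr1 (g y))) + T (S.Rb q δ (fun y => pr2 (g y)))|
      ≤ |T (S.Rb q δ (fun y => pr1 (g y)))| + |T (S.Rb q δ (fun y => pr2 (g y)))| := abs_add_le _ _
    _ ≤ Cc * (K + e) * (C₁ * Real.sqrt Ck) + (K + e) * (C₁ * Real.sqrt Ck) :=
        add_le_add (hb1.trans hc1) (hb2.trans hc2)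
    _ = Real.sqrt Ck * (1 + Cc) * C₁ * (K + e) := by ring

end Setup

end Pool.Agent.W_MP_d8b8b7_gt
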