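import Pool.Agent.W_MP_d8b8b7_gt.Second

/-!
# The density estimate: m (B(x, 4 C1 δ)) ≤ C δ² (mass + K + e)

For the pole x in X let γ = dα be the exact form of `exists_logFam_pos` at the scale δ, and let q be
a fixed nonnegative profile supported in the ball of radius 1/2 with ∫ q = 1.  Then
0 = Pm m (Rb q δ (cp γ)) + T (Rb q δ (cp γ)).
(T) |T (Rb q δ (cp γ))| ≤ |T (Rb q δ (pr2 cp γ))| + |T (Rb q δ (pr1 cp γ))|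
 ≤ C e ‖pr2 cp γ‖ + C δ (K + e) ‖cp γ‖ ≤ C (K + e), because
 ∫ (|x-y|²+δ²)^{-1} dν(y) ≤ C and δ² ∫ (|x-y|²+δ²)^{-2} dν(y) ≤ C (layer cake with `vol_ball`,
 or dyadic shells).
(m) Put σ = pr1 (cp γ) + (C - c K_δ) Fc ≥ 0 (Pos6), K_δ(y) = δ²/(|x-y|²+δ²)². For a unit
 vector (y', v) and z = rho (y' + δ s): val(cp γ) = val(σ) - (C - c K_δ(z)) val(Fc) + val (pr2 cp γ)
 ≥ - C δ² ‖σ‖ - C + c K_δ(z) / 2 - C δ/(|x-z|²+δ²)^{1/2} ≥ c K_δ(z)/2 - C', since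
 δ² ‖σ‖ ≤ C δ²/(|x-z|²+δ²) + C ≤ C.  (`val_ge`, `val_F`, `abs_val_le`, `abs_val_anti_le`; this needs
 δ ≤ d₁ of `val_F`; for larger δ the claim is trivial.)
 If |y' - x| ≤ 4 C1 δ then |x - z| ≤ 5 C1 δ and K_δ(z) ≥ c' δ^{-2}.
 Hence Pm m (Rb q δ (cp γ)) ≥ c'' δ^{-2} m (B(x, 4 C1 δ)) - C mass m.
-/

namespace Pool.Agent.W_MP_d8b8b7_gt

open MeasureTheory Set Filter Topology
open scoped ContDiff ENNReal

variable {N : ℕ}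

theorem densC_K {C1 δ r c : ℝ} (hC1 : 1 ≤ C1) (hδ : 0 < δ) (hr : 0 ≤ r)
    (h1 : r ≤ (5 * C1 * δ) ^ 2) (hc : 0 ≤ c) :
    c / (2 * (25 * C1 ^ 2 + 1) ^ 2) * δ⁻¹ ^ 2 ≤ c * (δ ^ 2 / (r + δ ^ 2) ^ 2) / 2 := by
  have hrd : 0 < r + δ ^ 2 := by positivity
  have h2 : r + δ ^ 2 ≤ (25 * C1 ^ 2 + 1) * δ ^ 2 := by nlinarith
  have h3 : (r + δ ^ 2) ^ 2 ≤ ((25 * C1 ^ 2 + 1) * δ ^ 2) ^ 2 := pow_le_pow_left₀ hrd.le h2 2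
  have h4 : δ⁻¹ ^ 2 / (25 * C1 ^ 2 + 1) ^ 2 ≤ δ ^ 2 / (r + δ ^ 2) ^ 2 := by
    have h5 : δ⁻¹ ^ 2 / (25 * C1 ^ 2 + 1) ^ 2 = δ ^ 2 / ((25 * C1 ^ 2 + 1) * δ ^ 2) ^ 2 := by
      field_simp
    rw [h5]
    exact div_le_div_of_nonneg_left (sq_nonneg _) (by positivity) h3
  have h7 := mul_le_mul_of_nonneg_left h4 hc
  have h8 : c / (2 * (25 * C1 ^ 2 + 1) ^ 2) * δ⁻¹ ^ 2 =
      c * (δ⁻¹ ^ 2 / (25 * C1 ^ 2 + 1) ^ 2) / 2 := by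
    field_simp
  rw [h8]
  linarith

namespace Setup

variable (S : Setup N)

/-- the pointwise lower bound -/
theorem dens_val : ∀ c C : ℝ, 0 < c → 0 ≤ C → ∃ c' C' d₁ : ℝ, 0 < c' ∧ 0 ≤ C' ∧ 0 < d₁ ∧ d₁ ≤ S.d0 / 2 ∧
    ∀ x ∈ S.X, ∀ δ : ℝ, 0 < δ → δ ≤ d₁ → ∀ g : EN N → C6,
    (∀ y ∈ S.X, Pos6 (g y + (C - c * (δ ^ 2 / (‖x - y‖ ^ 2 + δ ^ 2) ^ 2)) • Fc)) →
    (∀ y ∈ S.X, ‖g y‖ ≤ C / (‖x - y‖ ^ 2 + δ ^ 2)) →
    (∀ y ∈ S.X, ‖pr2 (g y)‖ ≤ C / Real.sqrt (‖x - y‖ ^ 2 + δ ^ 2)) →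
    ∀ z ∈ S.X1, ∀ s : EN N, ‖s‖ ≤ 1 →
      -C' ≤ S.val z.1 (δ • s) z.2 (g (S.rho (z.1 + δ • s))) ∧
      (‖z.1 - x‖ ≤ 4 * S.C1 * δ →
        c' * δ⁻¹ ^ 2 - C' ≤ S.val z.1 (δ • s) z.2 (g (S.rho (z.1 + δ • s)))) := by
  intro c C hc hC
  obtain ⟨A1, hA1, hval⟩ := S.abs_val_le
  obtain ⟨A2, hA2, hge⟩ := S.val_ge
  obtain ⟨A3, hA3, hanti⟩ := S.abs_val_anti_le
  obtain ⟨d, hd, hdd, hF⟩ := S.val_F
  have hC1 := S.one_le_C1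
  have hd0 := S.d0_pos
  have hFn : 0 ≤ ‖Fc‖ := norm_nonneg _
  refine ⟨c / (2 * (25 * S.C1 ^ 2 + 1) ^ 2),
    A2 * (C + C * ‖Fc‖ + c * ‖Fc‖) + A3 * C + C * (A1 * ‖Fc‖), d / 2, by positivity,
    by positivity, by positivity, by linarith, ?_⟩
  intro x hx δ hδ hδ1 g hpos hg hg2 z hz s hs
  have hn : ‖δ • s‖ ≤ δ := by
    rw [norm_smul, Real.norm_eq_abs, abs_of_pos hδ]
    nlinarith
  generalize δ • s = h at hn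
  have hhd : ‖h‖ < d := by linarith
  have hh0 : ‖h‖ < S.d0 := by linarith
  have hw : S.rho (z.1 + h) ∈ S.X := S.rho_mem _ (S.tube z.1 hz.1 h hh0.le)
  have hnear := S.near z.1 hz.1 h hh0.le
  have hδle : δ ≤ 1 := by
    have := S.d0_le
    linarith
  have hpos' := hpos _ hw
  have hg' := hg _ hw
  have hg2' := hg2 _ hw
  have b2 := hanti z hz h hh0 (pr2 (g (S.rho (z.1 + h)))) (pr1_pr2 _)
  have b3 := hF z hz h hhd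
  have b4 := hval z hz h hh0 Fc
  generalize S.rho (z.1 + h) = w at *
  have hr0 : 0 ≤ ‖x - w‖ ^ 2 := by positivity
  have hnr : ∀ M : ℝ, ‖x - w‖ ≤ M → ‖x - w‖ ^ 2 ≤ M ^ 2 := fun M hM =>
    pow_le_pow_left₀ (norm_nonneg _) hM 2
  have hxw : ‖z.1 - x‖ ≤ 4 * S.C1 * δ → ‖x - w‖ ^ 2 ≤ (5 * S.C1 * δ) ^ 2 := by
    intro h1
    apply hnr
    have h2 : x - w = -(z.1 - x) - (w - z.1) := by abel
    rw [h2]
    refine (norm_sub_le _ _).trans ?_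
    rw [norm_neg]
    have h3 : S.C1 * ‖h‖ ≤ S.C1 * δ := by gcongr
    linarith
  generalize ‖x - w‖ ^ 2 = r at *
  have hrd : 0 < r + δ ^ 2 := by positivity
  have hδr : δ ^ 2 ≤ r + δ ^ 2 := by linarith
  set K := δ ^ 2 / (r + δ ^ 2) ^ 2 with hK
  have hK0 : 0 ≤ K := by positivity
  have hKδ : δ ^ 2 * K ≤ 1 := by
    rw [hK, mul_div_assoc', div_le_one (by positivity)]
    nlinarith [sq_nonneg δ]
  set τ := g w + (C - c * K) • Fc with hτ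
  have hσ : Pos6 (pr1 τ) := fun v => by
    rw [evc_pr1]
    exact hpos' v
  have b1 := hge z hz h hh0 (pr1 τ) hσ (pr2_pr1 τ)
  have e0 : pr1 τ = pr1 (g w) + (C - c * K) • Fc := by
    have h1 := pr1_linear 1 (C - c * K) (g w) Fc
    rw [one_smul, one_smul, pr1_Fc] at h1
    exact h1
  have e1 : g w = pr1 τ + (pr2 (g w) + (-(C - c * K)) • Fc) := by
    rw [e0, neg_smul]
    nth_rewrite 1 [← pr1_add_pr2 (g w)]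
    abel
  have e2 : S.val z.1 h z.2 (g w) = S.val z.1 h z.2 (pr1 τ) + (S.val z.1 h z.2 (pr2 (g w)) +
      (-(C - c * K)) * S.val z.1 h z.2 Fc) := by
    nth_rewrite 1 [e1]
    rw [S.val_add, S.val_add, S.val_smul]
  have n1 : ‖h‖ ^ 2 * ‖pr1 τ‖ ≤ C + C * ‖Fc‖ + c * ‖Fc‖ := by
    have h1 : ‖h‖ ^ 2 ≤ δ ^ 2 := pow_le_pow_left₀ (norm_nonneg _) hn 2
    have h2 : ‖pr1 τ‖ ≤ C / (r + δ ^ 2) + (C + c * K) * ‖Fc‖ := by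
      refine (norm_pr1_le τ).trans ?_
      refine (norm_add_le _ _).trans (add_le_add hg' ?_)
      rw [norm_smul]
      refine mul_le_mul_of_nonneg_right ?_ hFn
      rw [Real.norm_eq_abs, abs_le]
      constructor <;> nlinarith [mul_nonneg hc.le hK0]
    have h3 : δ ^ 2 * (C / (r + δ ^ 2)) ≤ C := by
      rw [mul_div_assoc', div_le_iff₀ hrd]
      nlinarith
    have h4 : δ ^ 2 * C ≤ C := mul_le_of_le_one_left hC (pow_le_one₀ hδ.le hδle)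
    have i1 : (δ ^ 2 * C) * ‖Fc‖ ≤ C * ‖Fc‖ := mul_le_mul_of_nonneg_right h4 hFn
    have i2 : c * (δ ^ 2 * K) * ‖Fc‖ ≤ c * 1 * ‖Fc‖ :=
      mul_le_mul_of_nonneg_right (mul_le_mul_of_nonneg_left hKδ hc.le) hFn
    calc ‖h‖ ^ 2 * ‖pr1 τ‖ ≤ δ ^ 2 * (C / (r + δ ^ 2) + (C + c * K) * ‖Fc‖) :=
          mul_le_mul h1 h2 (norm_nonneg _) (sq_nonneg _)
      _ = δ ^ 2 * (C / (r + δ ^ 2)) + (δ ^ 2 * C) * ‖Fc‖ + c * (δ ^ 2 * K) * ‖Fc‖ := by ring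
      _ ≤ C + C * ‖Fc‖ + c * ‖Fc‖ := by linarith
  have n2 : ‖h‖ * ‖pr2 (g w)‖ ≤ C := by
    have h1 : δ ≤ Real.sqrt (r + δ ^ 2) := Real.le_sqrt_of_sq_le hδr
    have h2 : 0 < Real.sqrt (r + δ ^ 2) := lt_of_lt_of_le hδ h1
    calc ‖h‖ * ‖pr2 (g w)‖ ≤ δ * (C / Real.sqrt (r + δ ^ 2)) :=
          mul_le_mul hn hg2' (norm_nonneg _) hδ.le
      _ ≤ C := by
        rw [mul_div_assoc', div_le_iff₀ h2]
        nlinarith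
  have b1' : -(A2 * (C + C * ‖Fc‖ + c * ‖Fc‖)) ≤ S.val z.1 h z.2 (pr1 τ) := by
    refine le_trans ?_ b1
    have := mul_le_mul_of_nonneg_left n1 hA2
    linarith
  have b2' : -(A3 * C) ≤ S.val z.1 h z.2 (pr2 (g w)) := by
    have h1 := (abs_le.1 b2).1
    have := mul_le_mul_of_nonneg_left n2 hA3
    linarith
  have b4' : S.val z.1 h z.2 Fc ≤ A1 * ‖Fc‖ := (le_abs_self _).trans b4
  have b5 : c * K / 2 - C * (A1 * ‖Fc‖) ≤ (-(C - c * K)) * S.val z.1 h z.2 Fc := by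
    have h1 := mul_le_mul_of_nonneg_left b4' hC
    have h2 := mul_le_mul_of_nonneg_left b3 (mul_nonneg hc.le hK0)
    linarith
  have hcK : 0 ≤ c * K := mul_nonneg hc.le hK0
  constructor
  · rw [e2]
    linarith only [b1', b2', b5, hcK]
  · intro hzx
    have h6 : c / (2 * (25 * S.C1 ^ 2 + 1) ^ 2) * δ⁻¹ ^ 2 ≤ c * K / 2 :=
      densC_K (c := c) hC1 hδ hr0 (hxw hzx) hc.le
    generalize c / (2 * (25 * S.C1 ^ 2 + 1) ^ 2) * δ⁻¹ ^ 2 = Q at h6 ⊢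
    rw [e2]
    linarith only [b1', b2', b5, h6]

end Setup

end Pool.Agent.W_MP_d8b8b7_gt
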