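import Pool.Agent.W_MP_d8b8b7_gt.PtBound
import Pool.Agent.W_MP_d8b8b7_gt_h12.LogPot

/-!
# The family of logarithmic potentials of a Setup

Apply helper12's abstract estimates (`Pool.Agent.W_MP_d8b8b7_gt_h12`) with V = EN N, ρ = S.rho,
Jt y = J (rho y) ∘ D y, pole x in X, v0 = D x v: α = alphaForm (dpot (Jt x) A d x) ρ Jt.
-/

namespace Pool.Agent.W_MP_d8b8b7_gt

open MeasureTheory Set Filter Topology
open scoped ContDiff ENNReal

variable {N : ℕ}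

namespace Setup

variable (S : Setup N)

/-- the almost complex structure extended by J (rho y) D y -/
noncomputable def lfJ (y : EN N) : EN N →L[ℝ] EN N := (S.J (S.rho y)).comp (S.D y)

theorem lfJ_smooth : ContDiff ℝ ∞ S.lfJ :=
  (S.smooth_J.comp S.smooth_rho).clm_comp S.smooth_D

theorem lfJ_apply {y : EN N} (hy : y ∈ S.X) (v : EN N) : S.lfJ y v = S.J y v := by
  change S.J (S.rho y) (S.D y v) = S.J y v
  rw [S.rho_fix y hy, S.pt_JD hy]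

/-- smooth maps are bounded and Lipschitz on X -/
theorem lf_lip {E : Type*} [NormedAddCommGroup E] [NormedSpace ℝ E] (f : EN N → E)
    (hf : ContDiff ℝ ∞ f) : ∃ L : ℝ, 0 ≤ L ∧ ∀ x ∈ S.X, ‖f x‖ ≤ L ∧ ‖fderiv ℝ f x‖ ≤ L ∧
      ∀ y ∈ S.X, ‖f y - f x‖ ≤ L * ‖y - x‖ := by
  obtain ⟨R, hR⟩ := S.cptX.isBounded.exists_norm_le
  have hK : IsCompact (Metric.closedBall (0 : EN N) R) := isCompact_closedBall _ _
  obtain ⟨L1, hL1, h1⟩ := PtBound_cpt hK hf.continuous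
  obtain ⟨L2, hL2, h2⟩ := PtBound_cpt hK (hf.continuous_fderiv (by simp))
  refine ⟨L1 + L2, by positivity, fun x hx => ?_⟩
  have hxm : x ∈ Metric.closedBall (0 : EN N) R := by
    rw [mem_closedBall_zero_iff]
    exact hR x hx
  refine ⟨?_, ?_, fun y hy => ?_⟩
  · have := h1 _ hxm
    linarith
  · have := h2 _ hxm
    linarith
  · have hym : y ∈ Metric.closedBall (0 : EN N) R := by
      rw [mem_closedBall_zero_iff]
      exact hR y hy
    have h3 := (convex_closedBall (0 : EN N) R).norm_image_sub_le_of_norm_fderiv_le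
      (𝕜 := ℝ) (f := f) (C := L2) (fun z _ => (hf.differentiable (by simp)) z) (fun z hz => h2 z hz)
      hxm hym
    refine h3.trans (mul_le_mul_of_nonneg_right ?_ (norm_nonneg _))
    linarith

theorem lf_const : ∃ L : ℝ, 1 ≤ L ∧ ∀ x ∈ S.X, ‖S.lfJ x‖ ≤ L ∧ ‖fderiv ℝ S.lfJ x‖ ≤ L ∧
    ‖S.D x‖ ≤ L ∧ ∀ y ∈ S.X, ‖y - x‖ ≤ L ∧ ‖S.D y - S.D x‖ ≤ L * ‖y - x‖ ∧
      ‖S.lfJ y - S.lfJ x‖ ≤ L * ‖y - x‖ := by
  obtain ⟨a, ha0, ha⟩ := S.lf_lip S.lfJ S.lfJ_smooth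
  obtain ⟨b, hb0, hb⟩ := S.lf_lip S.D S.smooth_D
  obtain ⟨c, hc0, hc⟩ := S.lf_lip (fun x : EN N => x) contDiff_id
  refine ⟨1 + a + b + 2 * c, by linarith, fun x hx => ?_⟩
  obtain ⟨a1, a2, a3⟩ := ha x hx
  obtain ⟨b1, _, b3⟩ := hb x hx
  refine ⟨by linarith, by linarith, by linarith, fun y hy => ⟨?_, ?_, ?_⟩⟩
  · have h1 := (hc x hx).1
    have h2 := (hc y hy).1
    have h3 := norm_sub_le y x
    linarith
  · refine (b3 y hy).trans (mul_le_mul_of_nonneg_right (by linarith) (norm_nonneg _))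
  · refine (a3 y hy).trans (mul_le_mul_of_nonneg_right (by linarith) (norm_nonneg _))

theorem lf_dOne (α : EN N → Cov N) (y v w : EN N) :
    dOne α y v w = Pool.Agent.W_MP_d8b8b7_gt_h12.dOne α y v w := rfl

/-- For every pole x in X and every scale δ there is a smooth 1-form α (= J'du_x) with
(i) dα (v, Jv) ≥ (c δ²/(|x-y|²+δ²)² - C) |v|²,  (ii) |dα| ≤ C/(|x-y|²+δ²),
(iii) |(dα)''| ≤ C/(|x-y|²+δ²)^{1/2} at all points y of X, with uniform constants. -/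
theorem exists_logFam : ∃ c C : ℝ, 0 < c ∧ 0 ≤ C ∧ ∀ x ∈ S.X, ∀ δ : ℝ, 0 < δ → δ ≤ 1 →
    ∃ α : EN N → Cov N, IsOne α ∧ ∀ y ∈ S.X,
      (∀ v, S.Tan y v → (c * δ ^ 2 / (‖x - y‖ ^ 2 + δ ^ 2) ^ 2 - C) * ‖v‖ ^ 2 ≤
        dOne α y v (S.J y v)) ∧
      ‖S.cp (dOne α) y‖ ≤ C / (‖x - y‖ ^ 2 + δ ^ 2) ∧
      ‖pr2 (S.cp (dOne α) y)‖ ≤ C / Real.sqrt (‖x - y‖ ^ 2 + δ ^ 2) := by
  obtain ⟨L, hL, hLc⟩ := S.lf_const
  obtain ⟨R, hR0, -, hR⟩ := S.PtBound_snd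
  have hL0 : 0 < L := by linarith
  refine ⟨1 / L ^ 4, 60000 * L ^ 14 * (1 + R ^ 2), by positivity, by positivity, ?_⟩
  intro x hx δ hδ hδ1
  obtain ⟨A, hA⟩ : ∃ A : ℝ, A = 280 * L ^ 7 := ⟨_, rfl⟩
  obtain ⟨hJx, -, hDx, -⟩ := hLc x hx
  have hsm : ContDiffOn ℝ ∞ (Pool.Agent.W_MP_d8b8b7_gt_h12.alphaForm
      (Pool.Agent.W_MP_d8b8b7_gt_h12.dpot (S.lfJ x) A δ x) S.rho S.lfJ) univ :=
    Pool.Agent.W_MP_d8b8b7_gt_h12.contDiffOn_alphaForm (S.lfJ x) A hδ x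
      S.smooth_rho.contDiffOn S.lfJ_smooth.contDiffOn
  refine ⟨Pool.Agent.W_MP_d8b8b7_gt_h12.alphaForm
      (Pool.Agent.W_MP_d8b8b7_gt_h12.dpot (S.lfJ x) A δ x) S.rho S.lfJ,
    contDiffOn_univ.1 hsm, ?_⟩
  set α := Pool.Agent.W_MP_d8b8b7_gt_h12.alphaForm
      (Pool.Agent.W_MP_d8b8b7_gt_h12.dpot (S.lfJ x) A δ x) S.rho S.lfJ with hα
  intro y hy
  obtain ⟨hJy, hKy, hDy, -⟩ := hLc y hy
  obtain ⟨hxy, hDl, hJl⟩ := (hLc x hx).2.2.2 y hy
  have hρy := S.rho_fix y hy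
  have hρ : HasFDerivAt S.rho (S.D y) y :=
    ((S.smooth_rho.differentiable (by simp)) y).hasFDerivAt
  have hK : HasFDerivAt S.lfJ (fderiv ℝ S.lfJ y) y :=
    ((S.lfJ_smooth.differentiable (by simp)) y).hasFDerivAt
  have hDJ : ∀ v, S.D y (S.lfJ y v) = S.lfJ y v := by
    intro v
    rw [S.lfJ_apply hy, S.pt_DJ hy]
  have hJJ : ∀ v, S.D y v = v → S.lfJ y (S.lfJ y v) = -v := by
    intro v hv
    rw [S.lfJ_apply hy, S.lfJ_apply hy, S.pt_JJ hy, hv]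
  have hpos : 0 < ‖x - y‖ ^ 2 + δ ^ 2 := by positivity
  have hrev : ‖y - x‖ = ‖x - y‖ := norm_sub_rev y x
  refine ⟨?_, ?_, ?_⟩
  · intro v hv
    have hv' : S.D y v = v := hv
    have h := Pool.Agent.W_MP_d8b8b7_gt_h12.logPot_lower hL (ρ := S.rho) (Jt := S.lfJ) (x := x)
      (y := y) (v := v) (v0 := S.D x v) hρy hρ hK hv' (hDJ v) (hJJ v hv') hJx hJy hKy hxy
      (by rw [S.lfJ_apply hx, S.lfJ_apply hx, S.pt_JJ hx, S.D_D hx])
      ((S.D x).le_opNorm v |>.trans (mul_le_mul_of_nonneg_right hDx (norm_nonneg _)))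
      (by
        have h1 : v - S.D x v = (S.D y - S.D x) v := by
          rw [sub_apply, hv']
        rw [h1]
        exact ((S.D y - S.D x).le_opNorm v).trans
          (mul_le_mul_of_nonneg_right hDl (norm_nonneg _)))
      (by
        have h1 : S.lfJ y v - S.lfJ x (S.D x v) = (S.lfJ y - S.lfJ x) v := by
          rw [sub_apply, S.lfJ_apply hx, S.lfJ_apply hx, S.pt_JD hx]
        rw [h1]
        exact ((S.lfJ y - S.lfJ x).le_opNorm v).trans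
          (mul_le_mul_of_nonneg_right hJl (norm_nonneg _)))
      hδ hδ1 hA
    rw [← hα, ← lf_dOne, S.lfJ_apply hy, hrev] at h
    refine le_trans ?_ h
    rw [mul_comm]
    refine mul_le_mul_of_nonneg_left ?_ (sq_nonneg _)
    have h2 : 1 / L ^ 4 * δ ^ 2 / (‖x - y‖ ^ 2 + δ ^ 2) ^ 2 =
        δ ^ 2 / (L ^ 4 * (‖x - y‖ ^ 2 + δ ^ 2) ^ 2) := by
      field_simp
    rw [h2]
    have h3 : 10000 * L ^ 14 ≤ 60000 * L ^ 14 * (1 + R ^ 2) := by
      have : 0 ≤ L ^ 14 * R ^ 2 := by positivity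
      have : 0 ≤ L ^ 14 := by positivity
      nlinarith
    linarith
  · have key : ∀ a b : Fin 4, |dOne α y (S.fr a y) (S.fr b y)| ≤
        20000 * L ^ 14 * R ^ 2 / (‖x - y‖ ^ 2 + δ ^ 2) := by
      intro a b
      have h := Pool.Agent.W_MP_d8b8b7_gt_h12.logPot_upper hL (ρ := S.rho) (Jt := S.lfJ) (x := x)
        (y := y) (v := S.fr a y) (w := S.fr b y) hρy hρ hK (S.pt_Dfr hy a) (S.pt_Dfr hy b)
        hJx hJy hKy hxy hδ hδ1 hA
      rw [← hα, ← lf_dOne, hrev] at h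
      refine h.trans ?_
      have h1 := hR y hy a
      have h2 := hR y hy b
      calc 20000 * L ^ 14 / (‖x - y‖ ^ 2 + δ ^ 2) * ‖S.fr a y‖ * ‖S.fr b y‖
          ≤ 20000 * L ^ 14 / (‖x - y‖ ^ 2 + δ ^ 2) * R * R := by gcongr
        _ = _ := by ring
    have h := PtBound_norm6 (S.cp (dOne α) y)
      (M := 20000 * L ^ 14 * R ^ 2 / (‖x - y‖ ^ 2 + δ ^ 2)) (by positivity) (by
      intro i
      fin_cases i
      · exact key 0 1
      · exact key 0 2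
      · exact key 0 3
      · exact key 1 2
      · exact key 1 3
      · exact key 2 3)
    refine h.trans ?_
    rw [← mul_div_assoc]
    refine div_le_div_of_nonneg_right ?_ hpos.le
    have : 0 ≤ L ^ 14 := by positivity
    nlinarith
  · have hs : 0 < Real.sqrt (‖x - y‖ ^ 2 + δ ^ 2) := Real.sqrt_pos.2 hpos
    have key : ∀ a b : Fin 4, |dOne α y (S.fr a y) (S.fr b y) -
        dOne α y (S.J y (S.fr a y)) (S.J y (S.fr b y))| ≤
        5000 * L ^ 14 * R ^ 2 / Real.sqrt (‖x - y‖ ^ 2 + δ ^ 2) := by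
      intro a b
      have h := Pool.Agent.W_MP_d8b8b7_gt_h12.logPot_anti hL (ρ := S.rho) (Jt := S.lfJ) (x := x)
        (y := y) (v := S.fr a y) (w := S.fr b y) hρy hρ hK (S.pt_Dfr hy a) (S.pt_Dfr hy b)
        (hDJ _) (hDJ _) (hJJ _ (S.pt_Dfr hy a)) (hJJ _ (S.pt_Dfr hy b))
        hJx hJy hKy hxy hδ hδ1 hA
      rw [← hα, ← lf_dOne, ← lf_dOne, hrev, S.lfJ_apply hy, S.lfJ_apply hy] at h
      refine h.trans ?_
      have h1 := hR y hy a
      have h2 := hR y hy b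
      calc 5000 * L ^ 14 / Real.sqrt (‖x - y‖ ^ 2 + δ ^ 2) * ‖S.fr a y‖ * ‖S.fr b y‖
          ≤ 5000 * L ^ 14 / Real.sqrt (‖x - y‖ ^ 2 + δ ^ 2) * R * R := by gcongr
        _ = _ := by ring
    set M : ℝ := 5000 * L ^ 14 * R ^ 2 / Real.sqrt (‖x - y‖ ^ 2 + δ ^ 2) with hM
    have hM0 : 0 ≤ M := by positivity
    have k1 := key 0 2
    have k2 := key 0 3
    rw [S.fr_J0 y hy, S.fr_J2 y hy] at k1
    rw [S.fr_J0 y hy, S.J_fr3 hy, Bil.neg_right, sub_neg_eq_add] at k2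
    have e1 : |(S.cp (dOne α) y 1 - S.cp (dOne α) y 4) / 2| ≤ M := by
      rw [abs_div, abs_of_pos (by norm_num : (0 : ℝ) < 2)]
      have : |S.cp (dOne α) y 1 - S.cp (dOne α) y 4| ≤ M := k1
      linarith
    have e1' : |(S.cp (dOne α) y 4 - S.cp (dOne α) y 1) / 2| ≤ M := by
      rw [abs_div, abs_of_pos (by norm_num : (0 : ℝ) < 2), abs_sub_comm]
      have : |S.cp (dOne α) y 1 - S.cp (dOne α) y 4| ≤ M := k1
      linarith
    have e2 : |(S.cp (dOne α) y 2 + S.cp (dOne α) y 3) / 2| ≤ M := by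
      rw [abs_div, abs_of_pos (by norm_num : (0 : ℝ) < 2)]
      have : |S.cp (dOne α) y 2 + S.cp (dOne α) y 3| ≤ M := k2
      linarith
    have h := PtBound_norm6 (pr2 (S.cp (dOne α) y)) (M := M) hM0 (by
      intro i
      fin_cases i
      · change |(0 : ℝ)| ≤ M
        rw [abs_zero]
        exact hM0
      · exact e1
      · exact e2
      · exact e2
      · exact e1'
      · change |(0 : ℝ)| ≤ M
        rw [abs_zero]
        exact hM0)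
    refine h.trans ?_
    rw [hM, ← mul_div_assoc]
    refine div_le_div_of_nonneg_right ?_ hs.le
    have h5 : 0 ≤ L ^ 14 := by positivity
    have h6 : 0 ≤ L ^ 14 * R ^ 2 := by positivity
    nlinarith

/-- the same in components: with K(y) = δ²/(|x-y|²+δ²)² the (1,1) part of dα + C F - c K F is
nonnegative (`pos6_cp_iff`, `evc_Fc`, comparison of the norms) -/
theorem exists_logFam_pos : ∃ c C : ℝ, 0 < c ∧ 0 ≤ C ∧ ∀ x ∈ S.X, ∀ δ : ℝ, 0 < δ → δ ≤ 1 →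
    ∃ α : EN N → Cov N, IsOne α ∧ ∀ y ∈ S.X,
      Pos6 (S.cp (dOne α) y + (C - c * (δ ^ 2 / (‖x - y‖ ^ 2 + δ ^ 2) ^ 2)) • Fc) ∧
      ‖S.cp (dOne α) y‖ ≤ C / (‖x - y‖ ^ 2 + δ ^ 2) ∧
      ‖pr2 (S.cp (dOne α) y)‖ ≤ C / Real.sqrt (‖x - y‖ ^ 2 + δ ^ 2) := by
  obtain ⟨c, C, hc, hC, h⟩ := S.exists_logFam
  obtain ⟨B, hB, hBx, -, -⟩ := S.exists_bound
  have hB0 : 0 < B := by linarith
  refine ⟨c / B, B * C, by positivity, by positivity, ?_⟩
  intro x hx δ hδ hδ1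
  obtain ⟨α, hα, hy⟩ := h x hx δ hδ hδ1
  refine ⟨α, hα, fun y hyX => ?_⟩
  obtain ⟨h1, h2, h3⟩ := hy y hyX
  have hpos : 0 < ‖x - y‖ ^ 2 + δ ^ 2 := by positivity
  have hCB : C ≤ B * C := by nlinarith
  refine ⟨?_, h2.trans (by gcongr), h3.trans (by gcongr)⟩
  set K : ℝ := δ ^ 2 / (‖x - y‖ ^ 2 + δ ^ 2) ^ 2 with hK
  have hK0 : 0 ≤ K := by positivity
  have e1 : S.cp (dOne α) y + (B * C - c / B * K) • Fc =
      S.cp (dOne α + (B * C - c / B * K) • S.F) y := by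
    rw [S.cp_add, S.cp_smul, S.cp_F hyX]
  rw [e1, S.pos6_cp_iff hyX]
  · intro v hv
    have h4 := h1 v hv
    obtain ⟨h5, h6⟩ := (hBx y hyX).2.2.2.1 v hv
    have h7 : (dOne α + (B * C - c / B * K) • S.F) y v (S.J y v) =
        dOne α y v (S.J y v) + (B * C - c / B * K) * S.om y v (S.J y v) := by
      rw [← S.F_self hyX v hv]
      rfl
    rw [h7]
    have h8 : c * δ ^ 2 / (‖x - y‖ ^ 2 + δ ^ 2) ^ 2 = c * K := by rw [hK, mul_div_assoc]
    rw [h8] at h4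
    set w : ℝ := S.om y v (S.J y v) with hw
    have h9 : C * ‖v‖ ^ 2 ≤ B * C * w := by
      calc C * ‖v‖ ^ 2 ≤ C * (B * w) := mul_le_mul_of_nonneg_left h5 hC
        _ = B * C * w := by ring
    have h10 : c / B * K * w ≤ c * K * ‖v‖ ^ 2 := by
      calc c / B * K * w ≤ c / B * K * (B * ‖v‖ ^ 2) :=
            mul_le_mul_of_nonneg_left h6 (by positivity)
        _ = c * K * ‖v‖ ^ 2 := by
          field_simp
    nlinarith
  · intro v
    change dOne α y v v + (B * C - c / B * K) * S.F y v v = 0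
    rw [S.F_alt hyX, dOne_apply]
    ring

end Setup

end Pool.Agent.W_MP_d8b8b7_gt
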