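import Pool.Agent.W_MP_d8b8b7_gt.MeasA

/-!
# Regularisation of positive currents: the three bounds

For a positive current m (measure on unit tangent vectors)
`Pm m (Rb q δ b) = ∫ dm(x,v) ∫ q(s) val x (δ s) v (b (rho (x + δ s))) ds`.
`theta m δ y = δ^{-4} m {(x,v) : |x - y| ≤ C1 δ}`.
-/

namespace Pool.Agent.W_MP_d8b8b7_gt

open MeasureTheory Set Filter Topology
open scoped ContDiff ENNReal

variable {N : ℕ}

/-- the positive part dominates, without integrability -/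
theorem measB_ofReal_integral_le {α : Type*} [MeasurableSpace α] {μ : Measure α} (f : α → ℝ) :
    ENNReal.ofReal (∫ x, f x ∂μ) ≤ ∫⁻ x, ENNReal.ofReal (f x) ∂μ := by
  by_cases hf : Integrable f μ
  · rw [integral_eq_lintegral_pos_part_sub_lintegral_neg_part hf]
    refine (ENNReal.ofReal_le_ofReal (sub_le_self _ ENNReal.toReal_nonneg)).trans ?_
    exact ENNReal.ofReal_toReal_le
  · rw [integral_undef hf, ENNReal.ofReal_zero]
    exact zero_le

theorem QProf.abs_le_one {q : EN N → ℝ} (hq : QProf 0 1 q) (s : EN N) : q s ≤ 1 := by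
  have h := hq.bound 0 le_rfl s
  rw [norm_iteratedFDeriv_zero] at h
  exact (le_abs_self _).trans h

namespace Setup

variable (S : Setup N)

theorem measB_integrable {m : Measure (EN N × EN N)} (hm : S.IsPos m) {δ : ℝ} (hδ : 0 < δ)
    {b : EN N → C6} (hb : S.L2F b) : Integrable (fun y => S.theta m δ y * ‖b y‖) S.nu := by
  have h1 : Integrable b S.nu := hb.memLp.integrable one_le_two
  refine Integrable.bdd_mul (c := δ⁻¹ ^ 4 * mass m) h1.norm
    (S.measurable_theta m hm δ).aestronglyMeasurable ?_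
  refine Filter.Eventually.of_forall fun y => ?_
  rw [Real.norm_eq_abs, abs_of_nonneg (S.theta_nonneg m δ hδ y)]
  exact S.theta_le m hm hδ y

theorem measB_integral_nonneg (m : Measure (EN N × EN N)) {δ : ℝ} (hδ : 0 < δ)
    (b : EN N → C6) : 0 ≤ ∫ y, S.theta m δ y * ‖b y‖ ∂S.nu :=
  integral_nonneg fun y => mul_nonneg (S.theta_nonneg m δ hδ y) (norm_nonneg _)

/-- common part of the three bounds: a pointwise one sided bound gives an integral bound -/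
theorem measB_main : ∃ C : ℝ, 0 ≤ C ∧ ∀ δ : ℝ, 0 < δ → δ ≤ S.d0 / 2 →
    ∀ m : Measure (EN N × EN N), S.IsPos m → ∀ q : EN N → ℝ, QProf 0 1 q →
    ∀ b : EN N → C6, S.L2F b → ∀ ε K : ℝ, 0 ≤ K →
    (∀ z ∈ S.X1, ∀ s : EN N, ‖s‖ < 1 →
      ε * S.val z.1 (δ • s) z.2 (b (S.rho (z.1 + δ • s))) ≤ K * ‖b (S.rho (z.1 + δ • s))‖) →
      ε * S.Pm m (S.Rb q δ b) ≤ K * (C * ∫ y, S.theta m δ y * ‖b y‖ ∂S.nu) := by
  obtain ⟨C, hC, hT⟩ := S.integral_theta
  refine ⟨C, hC, fun δ hδ hδ' m hm q hq b hb ε K hK hval => ?_⟩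
  have hθ0 := S.measB_integral_nonneg m hδ b
  have hmem : ∀ᵐ z ∂m, z ∈ S.X1 := by
    rw [MeasureTheory.ae_iff]
    exact hm.supp
  have h1 : ENNReal.ofReal (ε * S.Pm m (S.Rb q δ b)) ≤
      ∫⁻ z, ENNReal.ofReal (ε * S.ev (S.Rb q δ b) z) ∂m := by
    unfold Pm
    rw [← integral_const_mul]
    exact measB_ofReal_integral_le _
  have h2 : ∫⁻ z, ENNReal.ofReal (ε * S.ev (S.Rb q δ b) z) ∂m ≤
      ∫⁻ z, ENNReal.ofReal K * ∫⁻ s in Metric.ball 0 1, ‖b (S.rho (z.1 + δ • s))‖ₑ ∂volume ∂m := by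
    refine lintegral_mono_ae ?_
    filter_upwards [hmem] with z hz
    rw [S.ev_Rb_val hz hδ hδ' hq.smooth.continuous hq.supp hb, ← integral_const_mul,
      ← lintegral_const_mul' _ _ ENNReal.ofReal_ne_top,
      ← lintegral_indicator Metric.isOpen_ball.measurableSet]
    refine (measB_ofReal_integral_le _).trans (lintegral_mono fun s => ?_)
    by_cases hs : s ∈ Metric.ball (0 : EN N) 1
    · rw [Set.indicator_of_mem hs]
      have hs' : ‖s‖ < 1 := by rwa [mem_ball_zero_iff] at hs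
      rw [← ofReal_norm, ← ENNReal.ofReal_mul hK]
      refine ENNReal.ofReal_le_ofReal ?_
      have h3 := hval z hz s hs'
      have h4 := hq.nonneg s
      have h5 := hq.abs_le_one s
      calc ε * (q s * S.val z.1 (δ • s) z.2 (b (S.rho (z.1 + δ • s))))
          = q s * (ε * S.val z.1 (δ • s) z.2 (b (S.rho (z.1 + δ • s)))) := by ring
        _ ≤ q s * (K * ‖b (S.rho (z.1 + δ • s))‖) := mul_le_mul_of_nonneg_left h3 h4
        _ ≤ 1 * (K * ‖b (S.rho (z.1 + δ • s))‖) :=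
            mul_le_mul_of_nonneg_right h5 (mul_nonneg hK (norm_nonneg _))
        _ = K * ‖b (S.rho (z.1 + δ • s))‖ := one_mul _
    · rw [Set.indicator_of_notMem hs]
      have hs' : 1 ≤ ‖s‖ := by
        rw [mem_ball_zero_iff, not_lt] at hs
        exact hs
      rw [hq.supp s hs', zero_mul, mul_zero, ENNReal.ofReal_zero]
  have h3 : ∫⁻ z, ENNReal.ofReal K * ∫⁻ s in Metric.ball 0 1,
      ‖b (S.rho (z.1 + δ • s))‖ₑ ∂volume ∂m ≤
      ENNReal.ofReal (K * (C * ∫ y, S.theta m δ y * ‖b y‖ ∂S.nu)) := by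
    rw [lintegral_const_mul' _ _ ENNReal.ofReal_ne_top, ENNReal.ofReal_mul hK,
      ENNReal.ofReal_mul hC]
    refine mul_le_mul_right ?_ _
    refine (hT δ hδ hδ' m hm (fun y => ‖b y‖ₑ) hb.meas.enorm).trans (le_of_eq ?_)
    congr 1
    rw [ofReal_integral_eq_lintegral_ofReal (S.measB_integrable hm hδ hb)
      (Filter.Eventually.of_forall fun y =>
        mul_nonneg (S.theta_nonneg m δ hδ y) (norm_nonneg _))]
    refine lintegral_congr fun y => ?_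
    rw [ENNReal.ofReal_mul (S.theta_nonneg m δ hδ y), ofReal_norm, mul_comm]
  exact (ENNReal.ofReal_le_ofReal_iff (mul_nonneg hK (mul_nonneg hC hθ0))).1
    (h1.trans (h2.trans h3))

theorem measB_small {δ : ℝ} (hδ : 0 < δ) (hδ' : δ ≤ S.d0 / 2) {s : EN N} (hs : ‖s‖ < 1) :
    ‖δ • s‖ < S.d0 ∧ ‖δ • s‖ ≤ δ := by
  have h0 := S.d0_pos
  have h1 : ‖δ • s‖ ≤ δ := by
    rw [norm_smul, Real.norm_eq_abs, abs_of_pos hδ]
    nlinarith [norm_nonneg s]
  exact ⟨by linarith, h1⟩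

/-- upper bound: `abs_val_le`, 0 ≤ q ≤ 1, `integral_theta` -/
theorem abs_Pm_Rb_le : ∃ C : ℝ, 0 ≤ C ∧ ∀ δ : ℝ, 0 < δ → δ ≤ S.d0 / 2 →
    ∀ m : Measure (EN N × EN N), S.IsPos m → ∀ q : EN N → ℝ, QProf 0 1 q →
    ∀ b : EN N → C6, S.L2F b →
      |S.Pm m (S.Rb q δ b)| ≤ C * ∫ y, S.theta m δ y * ‖b y‖ ∂S.nu := by
  obtain ⟨C, hC, hmain⟩ := S.measB_main
  obtain ⟨K, hK, hval⟩ := S.abs_val_le
  refine ⟨K * C, mul_nonneg hK hC, fun δ hδ hδ' m hm q hq b hb => ?_⟩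
  rw [mul_assoc, abs_le']
  constructor
  · have h := hmain δ hδ hδ' m hm q hq b hb 1 K hK fun z hz s hs => by
      rw [one_mul]
      exact (le_abs_self _).trans (hval z hz _ (S.measB_small hδ hδ' hs).1 _)
    rwa [one_mul] at h
  · have h := hmain δ hδ hδ' m hm q hq b hb (-1) K hK fun z hz s hs => by
      rw [neg_one_mul]
      exact (neg_le_abs _).trans (hval z hz _ (S.measB_small hδ hδ' hs).1 _)
    rwa [neg_one_mul] at h

/-- anti-invariant test forms: `abs_val_anti_le` -/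
theorem abs_Pm_Rb_anti_le : ∃ C : ℝ, 0 ≤ C ∧ ∀ δ : ℝ, 0 < δ → δ ≤ S.d0 / 2 →
    ∀ m : Measure (EN N × EN N), S.IsPos m → ∀ q : EN N → ℝ, QProf 0 1 q →
    ∀ b : EN N → C6, S.L2F b → (∀ x, pr1 (b x) = 0) →
      |S.Pm m (S.Rb q δ b)| ≤ C * δ * ∫ y, S.theta m δ y * ‖b y‖ ∂S.nu := by
  obtain ⟨C, hC, hmain⟩ := S.measB_main
  obtain ⟨K, hK, hval⟩ := S.abs_val_anti_le
  refine ⟨K * C, mul_nonneg hK hC, fun δ hδ hδ' m hm q hq b hb hb1 => ?_⟩
  have hKδ : 0 ≤ K * δ := mul_nonneg hK hδ.le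
  have hbd : ∀ z ∈ S.X1, ∀ s : EN N, ‖s‖ < 1 →
      |S.val z.1 (δ • s) z.2 (b (S.rho (z.1 + δ • s)))| ≤ K * δ * ‖b (S.rho (z.1 + δ • s))‖ := by
    intro z hz s hs
    obtain ⟨h1, h2⟩ := S.measB_small hδ hδ' hs
    refine (hval z hz _ h1 _ (hb1 _)).trans ?_
    gcongr
  have e : K * C * δ * ∫ y, S.theta m δ y * ‖b y‖ ∂S.nu =
      K * δ * (C * ∫ y, S.theta m δ y * ‖b y‖ ∂S.nu) := by ring
  rw [e, abs_le']
  constructor
  · have h := hmain δ hδ hδ' m hm q hq b hb 1 (K * δ) hKδ fun z hz s hs => by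
      rw [one_mul]
      exact (le_abs_self _).trans (hbd z hz s hs)
    rwa [one_mul] at h
  · have h := hmain δ hδ hδ' m hm q hq b hb (-1) (K * δ) hKδ fun z hz s hs => by
      rw [neg_one_mul]
      exact (neg_le_abs _).trans (hbd z hz s hs)
    rwa [neg_one_mul] at h

/-- positive (1,1) test forms: `val_ge` -/
theorem Pm_Rb_ge : ∃ C : ℝ, 0 ≤ C ∧ ∀ δ : ℝ, 0 < δ → δ ≤ S.d0 / 2 →
    ∀ m : Measure (EN N × EN N), S.IsPos m → ∀ q : EN N → ℝ, QProf 0 1 q →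
    ∀ b : EN N → C6, S.L2F b → (∀ x, Pos6 (b x)) → (∀ x, pr2 (b x) = 0) →
      -(C * δ ^ 2 * ∫ y, S.theta m δ y * ‖b y‖ ∂S.nu) ≤ S.Pm m (S.Rb q δ b) := by
  obtain ⟨C, hC, hmain⟩ := S.measB_main
  obtain ⟨K, hK, hval⟩ := S.val_ge
  refine ⟨K * C, mul_nonneg hK hC, fun δ hδ hδ' m hm q hq b hb hpos hb2 => ?_⟩
  have hKδ : 0 ≤ K * δ ^ 2 := by positivity
  have h := hmain δ hδ hδ' m hm q hq b hb (-1) (K * δ ^ 2) hKδ fun z hz s hs => by
    obtain ⟨h1, h2⟩ := S.measB_small hδ hδ' hs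
    have h3 := hval z hz _ h1 _ (hpos (S.rho (z.1 + δ • s))) (hb2 _)
    have h4 : K * ‖δ • s‖ ^ 2 * ‖b (S.rho (z.1 + δ • s))‖ ≤
        K * δ ^ 2 * ‖b (S.rho (z.1 + δ • s))‖ := by gcongr
    rw [neg_one_mul]
    linarith
  have e : K * C * δ ^ 2 * ∫ y, S.theta m δ y * ‖b y‖ ∂S.nu =
      K * δ ^ 2 * (C * ∫ y, S.theta m δ y * ‖b y‖ ∂S.nu) := by ring
  rw [e]
  linarith

end Setup

end Pool.Agent.W_MP_d8b8b7_gt
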