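import Pool.Agent.W_MP_d8b8b7_gt.Test
import Pool.Agent.W_MP_d8b8b7_gt.DensB
import Pool.Agent.W_MP_d8b8b7_gt.DensC
import Pool.Agent.W_MP_d8b8b7_gt.MeasB
import Pool.Agent.W_MP_d8b8b7_gt.LogFam
import Pool.Agent.W_MP_d8b8b7_gt.Bump
import Pool.Agent.W_MP_d8b8b7_gt.Currents

/-!
# The density estimate: m (B(x, 4 C1 δ)) ≤ C δ² (mass + K + e)

For the pole x in X let γ = dα be the exact form of `exists_logFam_pos` at the scale δ, and let q be
a fixed nonnegative profile supported in the ball of radius 1/2 with ∫ q = 1.  Then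
0 = Pm m (Rb q δ (cp γ)) + T (Rb q δ (cp γ)).
(T) |T (Rb q δ (cp γ))| ≤ |T (Rb q δ (pr2 cp γ))| + |T (Rb q δ (pr1 cp γ))|
 ≤ C e ‖pr2 cp γ‖ + C δ (K + e) ‖cp γ‖ ≤ C (K + e), because
 ∫ (|x-y|²+δ²)^{-1} dν(y) ≤ C and δ² ∫ (|x-y|²+δ²)^{-2} dν(y) ≤ C (layer cake with `vol_ball`,
 or dyadic shells).
(m) Put σ = pr1 (cp γ) + (C - c K_δ) Fc ≥ 0 (Pos6), K_δ(y) = δ²/(|x-y|²+δ²)². For a unit
 vector (y', v) and z = rho (y' + δ s): val(cp γ) = val(σ) - (C - c K_δ(z)) val(Fc) + val (pr2 cp γ)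
 ≥ - C δ² ‖σ‖ - C + c K_δ(z) / 2 - C δ/(|x-z|²+δ²)^{1/2} ≥ c K_δ(z)/2 - C', since
 δ² ‖σ‖ ≤ C δ²/(|x-z|²+δ²) + C ≤ C.  (`val_ge`, `val_F`, `abs_val_le`, `abs_val_anti_le`; this needs
 δ ≤ d₁ of `val_F`; for larger δ the claim is trivial.)
 If |y' - x| ≤ 4 C1 δ then |x - z| ≤ 5 C1 δ and K_δ(z) ≥ c' δ^{-2}.
 Hence Pm m (Rb q δ (cp γ)) ≥ c'' δ^{-2} m (B(x, 4 C1 δ)) - C mass m.
-/

namespace Pool.Agent.W_MP_d8b8b7_gt

open MeasureTheory Set Filter Topology
open scoped ContDiff ENNReal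

variable {N : ℕ}

/-- a small nonnegative profile with positive integral -/
theorem Dens_bump (k : ℕ) : ∃ q : EN N → ℝ, Prof k q ∧ (∀ s, 0 ≤ q s) ∧ Integrable q volume ∧
    0 < ∫ s, q s := by
  let f : ContDiffBump (0 : EN N) := ⟨1 / 8, 1 / 4, by norm_num, by norm_num⟩
  have hf : ContDiff ℝ ∞ (f : EN N → ℝ) := f.contDiff
  have hcs : HasCompactSupport (f : EN N → ℝ) := f.hasCompactSupport
  have hb : ∀ j : ℕ, ∃ C : ℝ, ∀ s, ‖iteratedFDeriv ℝ j (f : EN N → ℝ) s‖ ≤ C := by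
    intro j
    refine (hcs.iteratedFDeriv j).exists_bound_of_continuous ?_
    exact hf.continuous_iteratedFDeriv (by exact_mod_cast le_top)
  choose M hM using hb
  set B : ℝ := 1 + ∑ j ∈ Finset.range (k + 1), |M j| with hB
  have hB0 : 0 < B := by
    have : 0 ≤ ∑ j ∈ Finset.range (k + 1), |M j| := Finset.sum_nonneg fun _ _ => abs_nonneg _
    linarith
  refine ⟨fun s => B⁻¹ * f s, ⟨contDiff_const.mul hf, ?_, ?_⟩, ?_, ?_, ?_⟩
  · intro s hs
    have : f s = 0 := by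
      apply f.zero_of_le_dist
      rw [dist_zero_right]
      exact le_trans (by norm_num) hs
    rw [this, mul_zero]
  · intro j hj s
    have h1 : (fun s => B⁻¹ * f s) = B⁻¹ • (f : EN N → ℝ) := by
      funext s
      rfl
    have h2 : ContDiffAt ℝ j (f : EN N → ℝ) s :=
      (hf.of_le (by exact_mod_cast le_top)).contDiffAt
    rw [h1, iteratedFDeriv_const_smul_apply h2, norm_smul, Real.norm_eq_abs,
      abs_of_pos (inv_pos.2 hB0), inv_mul_le_iff₀ hB0, mul_one]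
    have h3 : |M j| ≤ ∑ j ∈ Finset.range (k + 1), |M j| :=
      Finset.single_le_sum (f := fun j => |M j|) (fun _ _ => abs_nonneg _)
        (Finset.mem_range.2 (by omega))
    have h4 := (hM j s).trans (le_abs_self _)
    linarith
  · intro s
    exact mul_nonneg (inv_nonneg.2 hB0.le) f.nonneg
  · exact (hf.continuous.integrable_of_hasCompactSupport hcs).const_mul _
  · rw [integral_const_mul]
    exact mul_pos (inv_pos.2 hB0) f.integral_pos

namespace Setup

variable (S : Setup N)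

/-- integrability of the integrand -/
theorem Dens_int {x v : EN N} (hx : x ∈ S.X) {δ : ℝ} (hδ : 0 < δ) (hδ' : δ ≤ S.d0 / 2)
    {q : EN N → ℝ} (hq : ContDiff ℝ ∞ q) (hqs : ∀ s, 1 ≤ ‖s‖ → q s = 0)
    {b : EN N → C6} (hb : S.L2F b) :
    Integrable (fun s => q s * S.val x (δ • s) v (b (S.rho (x + δ • s)))) volume := by
  have h1 := S.integrable_Op hq hqs S.ampR S.smooth_ampR hδ hb x
  have h2 := Bil.integrable_apply h1 v (S.J x v)
  refine h2.congr (ae_of_all _ fun s => ?_)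
  by_cases hs : 1 ≤ ‖s‖
  · simp only [hqs s hs, zero_smul, zero_mul, Bil.zero_apply]
  · push Not at hs
    have hU : x + δ • s ∈ S.Ud := by
      change Metric.infDist (x + δ • s) S.X < S.d0 / 2
      refine (Metric.infDist_le_dist_of_mem hx).trans_lt ?_
      rw [dist_eq_norm, add_sub_cancel_left, norm_smul, Real.norm_eq_abs, abs_of_pos hδ]
      nlinarith
    have h3 : S.ex b (x + δ • s) = S.rc b (S.rho (x + δ • s)) := Set.indicator_of_mem hU _
    simp only [S.ampR_apply, Bil.smul_apply, Bil.pull_apply, h3]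
    rfl

/-- lower bound of the current on a regularised form -/
theorem Dens_lower {m : Measure (EN N × EN N)} (hm : S.IsPos m) {q : EN N → ℝ}
    (hq : ContDiff ℝ ∞ q) (hq0 : ∀ s, 0 ≤ q s) (hqs : ∀ s, 1 ≤ ‖s‖ → q s = 0)
    (hqi : Integrable q volume) {δ : ℝ} (hδ : 0 < δ) (hδ' : δ ≤ S.d0 / 2) {g : EN N → C6}
    (hg : S.L2F g) {x : EN N} {r C' A : ℝ}
    (h1 : ∀ z ∈ S.X1, ∀ s : EN N, ‖s‖ ≤ 1 →
      -C' ≤ S.val z.1 (δ • s) z.2 (g (S.rho (z.1 + δ • s))))
    (h2 : ∀ z ∈ S.X1, ∀ s : EN N, ‖s‖ ≤ 1 → ‖z.1 - x‖ ≤ r →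
      A - C' ≤ S.val z.1 (δ • s) z.2 (g (S.rho (z.1 + δ • s)))) :
    (∫ s, q s) * (A * (m (Prod.fst ⁻¹' Metric.closedBall x r)).toReal - C' * mass m) ≤
      S.Pm m (S.Rb q δ g) := by
  have hfin := hm.fin
  set I := ∫ s, q s with hI
  set Bs : Set (EN N × EN N) := Prod.fst ⁻¹' Metric.closedBall x r with hBs
  have hBm : MeasurableSet Bs := measurable_fst Metric.isClosed_closedBall.measurableSet
  have hae : ∀ᵐ z ∂m, z ∈ S.X1 := by
    rw [MeasureTheory.ae_iff]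
    exact hm.supp
  have hind : Integrable (Bs.indicator (fun _ => (1 : ℝ))) m :=
    (integrable_const (1 : ℝ)).indicator hBm
  have e1 : I * (A * (m Bs).toReal - C' * mass m) =
      ∫ z, I * (A * Bs.indicator (fun _ => (1 : ℝ)) z - C') ∂m := by
    rw [integral_const_mul, integral_sub (hind.const_mul _) (integrable_const _),
      integral_const_mul, integral_indicator hBm, setIntegral_const, integral_const, smul_eq_mul,
      smul_eq_mul, mul_one]
    unfold mass Measure.real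
    ring
  rw [e1]
  unfold Pm
  refine integral_mono_ae (((hind.const_mul _).sub (integrable_const _)).const_mul _)
    (S.integrable_ev hm (S.isForm_Rb hq hδ hg).smooth.continuous) ?_
  filter_upwards [hae] with z hz
  change I * (A * Bs.indicator (fun _ => (1 : ℝ)) z - C') ≤ S.ev (S.Rb q δ g) z
  rw [S.ev_Rb_val hz hδ hδ' hq.continuous hqs hg, hI, ← integral_mul_const]
  refine integral_mono (hqi.mul_const _) (S.Dens_int hz.1 hδ hδ' hq hqs hg) ?_
  intro s
  change q s * (A * Bs.indicator (fun _ => (1 : ℝ)) z - C') ≤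
    q s * S.val z.1 (δ • s) z.2 (g (S.rho (z.1 + δ • s)))
  by_cases hs : 1 ≤ ‖s‖
  · rw [hqs s hs, zero_mul, zero_mul]
  · push Not at hs
    refine mul_le_mul_of_nonneg_left ?_ (hq0 s)
    by_cases hzB : z ∈ Bs
    · rw [Set.indicator_of_mem hzB, mul_one]
      refine h2 z hz s hs.le ?_
      have h3 : dist z.1 x ≤ r := hzB
      rwa [dist_eq_norm] at h3
    · rw [Set.indicator_of_notMem hzB, mul_zero, zero_sub]
      exact h1 z hz s hs.le

/-- the density estimate -/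
theorem dens_ball (k : ℕ) : ∃ C : ℝ, 0 ≤ C ∧ ∀ (K : ℝ) (m : Measure (EN N × EN N))
    (T : (EN N → Bil N) → ℝ), S.ExPair k K m T →
    ∀ δ : ℝ, 0 < δ → δ ≤ S.d0 / 2 → ∀ e : ℝ, 0 ≤ e → S.Ebd k T δ e → ∀ x ∈ S.X,
    (m (Prod.fst ⁻¹' Metric.closedBall x (4 * S.C1 * δ))).toReal ≤
      C * δ ^ 2 * (mass m + K + e) := by
  obtain ⟨q, hqP, hq0, hqi, hqpos⟩ := Dens_bump (N := N) k
  obtain ⟨c, C, hc, hC, hfam⟩ := S.exists_logFam_pos
  obtain ⟨c', C', d₁, hc', hC', hd₁, hd₁', hval⟩ := S.dens_val c C hc hC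
  obtain ⟨CT, hCT, hT⟩ := S.dens_T k
  set I := ∫ s, q s with hI
  have hqs : ∀ s, 1 ≤ ‖s‖ → q s = 0 := fun s hs => hqP.supp s (by linarith)
  refine ⟨C' / c' + CT * C / (c' * I) + d₁⁻¹ ^ 2, by positivity, ?_⟩
  intro K m T hE δ hδ hδ' e he hEb x hx
  have hfin := hE.pos.fin
  have hK := hE.cur.K_nonneg
  have hmass0 : 0 ≤ mass m := ENNReal.toReal_nonneg
  have hball : (m (Prod.fst ⁻¹' Metric.closedBall x (4 * S.C1 * δ))).toReal ≤ mass m :=
    ENNReal.toReal_mono (measure_ne_top _ _) (measure_mono (subset_univ _))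
  set μB := (m (Prod.fst ⁻¹' Metric.closedBall x (4 * S.C1 * δ))).toReal with hμB
  have hp1 : 0 ≤ C' / c' := by positivity
  have hp2 : 0 ≤ CT * C / (c' * I) := by positivity
  have hS0 : 0 ≤ mass m + K + e := by linarith
  rcases le_or_gt δ d₁ with hδ1 | hδ1
  · obtain ⟨α, hα, hαy⟩ := hfam x hx δ hδ (by linarith [S.d0_le])
    have hL2 : S.L2F (S.cp (dOne α)) := S.L2F_cp (dOne_isForm hα).smooth.continuous
    have hv := hval x hx δ hδ hδ1 (S.cp (dOne α)) (fun y hy => (hαy y hy).1)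
      (fun y hy => (hαy y hy).2.1) (fun y hy => (hαy y hy).2.2)
    have hlow := S.Dens_lower hE.pos hqP.smooth hq0 hqs hqi hδ hδ' hL2 (x := x)
      (r := 4 * S.C1 * δ) (C' := C') (A := c' * δ⁻¹ ^ 2)
      (fun z hz s hs => (hv z hz s hs).1) (fun z hz s hs hzx => (hv z hz s hs).2 hzx)
    have hkill := ExPair.kill_Rb (S := S) hE hqP.smooth hqs hδ hδ' hα
    have hTb := hT K T hE.cur δ hδ hδ' e he hEb q hqP C hC x hx _ hL2
      (fun y hy => (hαy y hy).2.1) (fun y hy => (hαy y hy).2.2)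
    have h3 := neg_le_of_abs_le hTb
    rw [← hI, ← hμB] at hlow
    have h4 : I * (c' * δ⁻¹ ^ 2 * μB - C' * mass m) ≤ CT * C * (K + e) := by linarith
    have h5 : c' * δ⁻¹ ^ 2 * μB - C' * mass m ≤ CT * C * (K + e) / I := by
      rw [le_div_iff₀ hqpos]
      linarith
    have h6 : μB ≤ δ ^ 2 * (C' / c' * mass m + CT * C / (c' * I) * (K + e)) := by
      have e2 : μB = δ ^ 2 / c' * (c' * δ⁻¹ ^ 2 * μB) := by
        field_simp
      have e3 : δ ^ 2 * (C' / c' * mass m + CT * C / (c' * I) * (K + e)) =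
          δ ^ 2 / c' * (C' * mass m + CT * C * (K + e) / I) := by
        field_simp
      rw [e3, e2]
      refine mul_le_mul_of_nonneg_left (by linarith) (by positivity)
    refine h6.trans ?_
    have h7 : C' / c' * mass m + CT * C / (c' * I) * (K + e) ≤
        (C' / c' + CT * C / (c' * I) + d₁⁻¹ ^ 2) * (mass m + K + e) := by
      have a1 : 0 ≤ C' / c' * (K + e) := by positivity
      have a2 : 0 ≤ CT * C / (c' * I) * mass m := by positivity
      have a3 : 0 ≤ d₁⁻¹ ^ 2 * (mass m + K + e) := by positivity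
      nlinarith
    calc δ ^ 2 * (C' / c' * mass m + CT * C / (c' * I) * (K + e))
        ≤ δ ^ 2 * ((C' / c' + CT * C / (c' * I) + d₁⁻¹ ^ 2) * (mass m + K + e)) :=
          mul_le_mul_of_nonneg_left h7 (by positivity)
      _ = _ := by ring
  · refine hball.trans ?_
    have h8 : 1 ≤ d₁⁻¹ ^ 2 * δ ^ 2 := by
      have : 1 ≤ d₁⁻¹ * δ := by
        rw [inv_mul_eq_div, le_div_iff₀ hd₁]
        linarith
      nlinarith
    have h9 : mass m ≤ d₁⁻¹ ^ 2 * δ ^ 2 * (mass m + K + e) := by nlinarith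
    have a1 : 0 ≤ (C' / c' + CT * C / (c' * I)) * δ ^ 2 * (mass m + K + e) := by positivity
    nlinarith

/-- mass of the averaged density -/
theorem Dens_int_theta {m : Measure (EN N × EN N)} (hm : S.IsPos m) {δ : ℝ} (hδ : 0 < δ) :
    ∫ y, S.theta m δ y ∂S.nu ≤ S.C1 ^ 5 * mass m := by
  have hfin := hm.fin
  have hC1 : 0 < S.C1 := lt_of_lt_of_le one_pos S.one_le_C1
  have hmass0 : 0 ≤ mass m := ENNReal.toReal_nonneg
  have hr : 0 < S.C1 * δ := by positivity
  have hth0 : ∀ y, 0 ≤ S.theta m δ y := S.theta_nonneg m δ hδ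
  have hmeas := S.measurable_theta m hm δ
  have key : ∫⁻ y, ENNReal.ofReal (S.theta m δ y) ∂S.nu ≤ ENNReal.ofReal (S.C1 ^ 5 * mass m) := by
    have e1 : ∫⁻ y, ENNReal.ofReal (S.theta m δ y) ∂S.nu = ENNReal.ofReal (δ⁻¹ ^ 4) *
        ∫⁻ y, 1 * m (Prod.fst ⁻¹' Metric.closedBall y (S.C1 * δ)) ∂S.nu := by
      rw [← lintegral_const_mul _ ((MeasA_measurable m _).const_mul _)]
      refine lintegral_congr fun y => ?_
      rw [S.MeasA_theta_ofReal m hδ y, one_mul]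
    have e2 := S.MeasA_swap m (S.C1 * δ) (f := fun _ => 1) measurable_const
    rw [e1, ← e2]
    have e3 : ∫⁻ z, ∫⁻ _y in Metric.closedBall z.1 (S.C1 * δ), 1 ∂S.nu ∂m ≤
        ∫⁻ _z, ENNReal.ofReal (S.C1 * (S.C1 * δ) ^ 4) ∂m := by
      refine lintegral_mono fun z => ?_
      rw [setLIntegral_one]
      exact S.vol_ball z.1 _ hr
    refine (mul_le_mul_right e3 _).trans (le_of_eq ?_)
    rw [lintegral_const]
    have e4 : m univ = ENNReal.ofReal (mass m) := by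
      unfold mass
      rw [ENNReal.ofReal_toReal (measure_ne_top _ _)]
    rw [e4, ← ENNReal.ofReal_mul (by positivity), ← ENNReal.ofReal_mul (by positivity)]
    congr 1
    field_simp
  have h2 := ofReal_integral_eq_lintegral_ofReal (μ := S.nu)
    (f := S.theta m δ) ?_ (Filter.Eventually.of_forall hth0)
  · rw [← h2] at key
    exact (ENNReal.ofReal_le_ofReal_iff (by positivity)).1 key
  · refine Integrable.of_bound hmeas.aestronglyMeasurable (δ⁻¹ ^ 4 * mass m) (ae_of_all _ fun y => ?_)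
    rw [Real.norm_eq_abs, abs_of_nonneg (hth0 y)]
    exact S.theta_le m hm hδ y

/-- the density functional: D(δ) = δ^{-6} ∫ m(B(y, C1 δ))² dν(y)
≤ δ^{-6} ∫∫ ν(B(z, C1 δ)) 1_{|z-z'| ≤ 2 C1 δ} dm dm ≤ C δ^{-2} mass · sup_z m (B(z, 2 C1 δ)). -/
theorem dens_le (k : ℕ) : ∃ C : ℝ, 0 ≤ C ∧ ∀ (K : ℝ) (m : Measure (EN N × EN N))
    (T : (EN N → Bil N) → ℝ), S.ExPair k K m T →
    ∀ δ : ℝ, 0 < δ → δ ≤ S.d0 / 2 → ∀ e : ℝ, 0 ≤ e → S.Ebd k T δ e →
    S.dens m δ ≤ C * mass m * (mass m + K + e) := by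
  obtain ⟨C, hC, hball⟩ := S.dens_ball k
  have hC1 : 0 < S.C1 := lt_of_lt_of_le one_pos S.one_le_C1
  refine ⟨C * S.C1 ^ 5, by positivity, ?_⟩
  intro K m T hE δ hδ hδ' e he hEb
  have hfin := hE.pos.fin
  have hK := hE.cur.K_nonneg
  have hmass0 : 0 ≤ mass m := ENNReal.toReal_nonneg
  have hth0 : ∀ y, 0 ≤ S.theta m δ y := S.theta_nonneg m δ hδ
  have hmeas := S.measurable_theta m hE.pos δ
  have hint : Integrable (S.theta m δ) S.nu := by
    refine Integrable.of_bound hmeas.aestronglyMeasurable (δ⁻¹ ^ 4 * mass m)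
      (ae_of_all _ fun y => ?_)
    rw [Real.norm_eq_abs, abs_of_nonneg (hth0 y)]
    exact S.theta_le m hE.pos hδ y
  set M := δ⁻¹ ^ 4 * (C * δ ^ 2 * (mass m + K + e)) with hM
  have hM0 : 0 ≤ M := by positivity
  have hle : ∀ᵐ y ∂S.nu, S.theta m δ y ≤ M := by
    filter_upwards [S.ae_mem_X] with y hy
    unfold theta
    rw [hM]
    refine mul_le_mul_of_nonneg_left ?_ (by positivity)
    refine le_trans ?_ (hball K m T hE δ hδ hδ' e he hEb y hy)
    refine ENNReal.toReal_mono (measure_ne_top _ _) (measure_mono ?_)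
    refine Set.preimage_mono (Metric.closedBall_subset_closedBall ?_)
    nlinarith
  have h1 : ∫ y, S.theta m δ y ^ 2 ∂S.nu ≤ M * (S.C1 ^ 5 * mass m) := by
    calc ∫ y, S.theta m δ y ^ 2 ∂S.nu ≤ ∫ y, M * S.theta m δ y ∂S.nu := by
          refine integral_mono_of_nonneg (ae_of_all _ fun y => sq_nonneg _) (hint.const_mul _) ?_
          filter_upwards [hle] with y hy
          change S.theta m δ y ^ 2 ≤ M * S.theta m δ y
          rw [sq]
          exact mul_le_mul_of_nonneg_right hy (hth0 y)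
      _ = M * ∫ y, S.theta m δ y ∂S.nu := integral_const_mul _ _
      _ ≤ M * (S.C1 ^ 5 * mass m) :=
          mul_le_mul_of_nonneg_left (S.Dens_int_theta hE.pos hδ) hM0
  unfold dens
  calc δ ^ 2 * ∫ y, S.theta m δ y ^ 2 ∂S.nu ≤ δ ^ 2 * (M * (S.C1 ^ 5 * mass m)) :=
        mul_le_mul_of_nonneg_left h1 (by positivity)
    _ = C * S.C1 ^ 5 * mass m * (mass m + K + e) := by
        rw [hM]
        field_simp

end Setup

end Pool.Agent.W_MP_d8b8b7_gt
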