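import Mathlib

/-!
# Real variable lemma for the loop
-/

namespace Pool.Agent.W_MP_d8b8b7_gt

open MeasureTheory Set Filter Topology
open scoped ContDiff ENNReal

/-- `√(x y) ≤ (k x + y / k) / 2`. -/
theorem loopReal_sqrt (x y k : ℝ) (hx : 0 ≤ x) (hy : 0 ≤ y) (hk : 0 < k) :
    Real.sqrt (x * y) ≤ (k * x + y / k) / 2 := by
  apply Real.sqrt_le_iff.2
  constructor
  · positivity
  · have h1 : x * y = (k * x) * (y / k) := by field_simp
    rw [h1]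
    nlinarith [sq_nonneg (k * x - y / k)]

/-- The bound of the right hand side. -/
theorem loopReal_g (C L M δ : ℝ) (hC : 0 ≤ C) (hL : 0 ≤ L) (hM : 0 ≤ M) (hδ : C * δ ≤ 1 / 4) :
    C * (Real.sqrt (C * (1 + M)) + Real.sqrt (Real.sqrt (C * (1 + M)) * (L + M)) +
        δ * (L + M)) ≤
      M / 2 + (2 * (C * (1 + (4 * C + 1) / 2)) ^ 2 * C + 1 / 8 + 3 * L / 8) := by
  set S := Real.sqrt (C * (1 + M)) with hS
  have hS0 : 0 ≤ S := Real.sqrt_nonneg _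
  have hLM : 0 ≤ L + M := by linarith
  have h1 := loopReal_sqrt S (L + M) (4 * C + 1) hS0 hLM (by linarith)
  have h2 : C * ((L + M) / (4 * C + 1)) ≤ (L + M) / 4 := by
    rw [← mul_div_assoc, div_le_div_iff₀ (by linarith) (by norm_num)]
    nlinarith
  set a := C * (1 + (4 * C + 1) / 2) with ha
  have ha0 : 0 ≤ a := by positivity
  have h3 : a * S ≤ 2 * a ^ 2 * C + (1 + M) / 8 := by
    have h4 : a * S = Real.sqrt ((a ^ 2 * C) * (1 + M)) := by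
      rw [hS, show (a ^ 2 * C) * (1 + M) = a ^ 2 * (C * (1 + M)) by ring,
        Real.sqrt_mul (sq_nonneg a), Real.sqrt_sq ha0]
    rw [h4]
    have h5 := loopReal_sqrt (a ^ 2 * C) (1 + M) 4 (by positivity) (by linarith) (by norm_num)
    linarith
  have h6 : C * Real.sqrt (S * (L + M)) ≤ C * (4 * C + 1) / 2 * S + (L + M) / 8 := by
    have := mul_le_mul_of_nonneg_left h1 hC
    calc C * Real.sqrt (S * (L + M)) ≤ C * (((4 * C + 1) * S + (L + M) / (4 * C + 1)) / 2) := this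
      _ = C * (4 * C + 1) / 2 * S + C * ((L + M) / (4 * C + 1)) / 2 := by ring
      _ ≤ C * (4 * C + 1) / 2 * S + (L + M) / 8 := by linarith
  have h7 : C * (δ * (L + M)) ≤ (L + M) / 4 := by
    rw [← mul_assoc]
    calc C * δ * (L + M) ≤ 1 / 4 * (L + M) := mul_le_mul_of_nonneg_right hδ hLM
      _ = (L + M) / 4 := by ring
  have h8 : C * S + C * (4 * C + 1) / 2 * S = a * S := by rw [ha]; ring
  calc C * (S + Real.sqrt (S * (L + M)) + δ * (L + M))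
      = C * S + C * Real.sqrt (S * (L + M)) + C * (δ * (L + M)) := by ring
    _ ≤ C * S + (C * (4 * C + 1) / 2 * S + (L + M) / 8) + (L + M) / 4 := by linarith
    _ = a * S + 3 * (L + M) / 8 := by rw [← h8]; ring
    _ ≤ 2 * a ^ 2 * C + (1 + M) / 8 + 3 * (L + M) / 8 := by linarith
    _ = M / 2 + (2 * a ^ 2 * C + 1 / 8 + 3 * L / 8) := by ring

/-- Real variable lemma.  Let M = sup of E over [δ1, r0] (finite by the a priori bound). For δ in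
[δ1, r0] with δ ≤ r1 := min (r0/2) (1/(4C)) use the inequality with E(2δ) ≤ M, E(δ) ≤ M:
E δ ≤ C ((C(1+M))^{1/2} + ((C(1+M))^{1/2} (L + M))^{1/2}) + (L + M)/4; for δ ≥ r1 use the a priori
bound A r1^{-n}.  So M ≤ max (A r1^{-n}) (...), which bounds M independently of δ1. -/
theorem loop_real (E D : ℝ → ℝ) (r0 C A L : ℝ) (n : ℕ) (hr0 : 0 < r0) (hr1 : r0 ≤ 1) (hC : 0 ≤ C)
    (hA : 0 ≤ A) (hL : 0 ≤ L) (hE0 : ∀ δ, 0 < δ → δ ≤ r0 → 0 ≤ E δ)
    (hap : ∀ δ, 0 < δ → δ ≤ r0 → E δ ≤ A * δ⁻¹ ^ n)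
    (hD : ∀ δ, 0 < δ → δ ≤ r0 → 0 ≤ D δ ∧ D δ ≤ C * (1 + E δ))
    (hE : ∀ δ, 0 < δ → δ ≤ r0 / 2 →
      E δ ≤ C * (Real.sqrt (D δ) + Real.sqrt (Real.sqrt (D δ) * (L + E (2 * δ))) +
        δ * (L + E (2 * δ)))) :
    ∃ M : ℝ, 0 ≤ M ∧ ∀ δ, 0 < δ → δ ≤ r0 → E δ ≤ M := by
  obtain ⟨r1, hr1pos, hr1r0, hr1C⟩ : ∃ r1 : ℝ, 0 < r1 ∧ r1 ≤ r0 / 2 ∧ C * r1 ≤ 1 / 4 := by
    refine ⟨min (r0 / 2) (1 / (4 * (C + 1))), by positivity, min_le_left _ _, ?_⟩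
    have h1 : min (r0 / 2) (1 / (4 * (C + 1))) ≤ 1 / (4 * (C + 1)) := min_le_right _ _
    calc C * min (r0 / 2) (1 / (4 * (C + 1))) ≤ C * (1 / (4 * (C + 1))) :=
          mul_le_mul_of_nonneg_left h1 hC
      _ ≤ 1 / 4 := by
          rw [mul_one_div, div_le_div_iff₀ (by positivity) (by norm_num)]
          linarith
  set K0 : ℝ := 2 * (C * (1 + (4 * C + 1) / 2)) ^ 2 * C + 1 / 8 + 3 * L / 8 with hK0
  have hK0' : 0 ≤ K0 := by positivity
  have hAr : 0 ≤ A * r1⁻¹ ^ n := by positivity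
  refine ⟨A * r1⁻¹ ^ n + 2 * K0, by positivity, fun δ0 hδ0 hδ0r => ?_⟩
  have hbdd : ∀ δ ∈ Icc δ0 r0, E δ ≤ A * δ0⁻¹ ^ n := by
    intro δ hδ
    have hpos : 0 < δ := lt_of_lt_of_le hδ0 hδ.1
    refine (hap δ hpos hδ.2).trans (mul_le_mul_of_nonneg_left ?_ hA)
    have : δ⁻¹ ≤ δ0⁻¹ := inv_anti₀ hδ0 hδ.1
    exact pow_le_pow_left₀ (by positivity) this n
  have hBdd : BddAbove (E '' Icc δ0 r0) := by
    refine ⟨A * δ0⁻¹ ^ n, ?_⟩
    rintro _ ⟨δ, hδ, rfl⟩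
    exact hbdd δ hδ
  set M : ℝ := sSup (E '' Icc δ0 r0) with hM
  have hle : ∀ δ ∈ Icc δ0 r0, E δ ≤ M := fun δ hδ => le_csSup hBdd ⟨δ, hδ, rfl⟩
  have hM0 : 0 ≤ M := (hE0 δ0 hδ0 hδ0r).trans (hle δ0 ⟨le_rfl, hδ0r⟩)
  have hMle : M ≤ max (A * r1⁻¹ ^ n) (M / 2 + K0) := by
    refine csSup_le (Set.Nonempty.image E ⟨δ0, ⟨le_rfl, hδ0r⟩⟩) ?_
    rintro _ ⟨δ, hδ, rfl⟩
    have hpos : 0 < δ := lt_of_lt_of_le hδ0 hδ.1
    by_cases hδr : δ ≤ r1
    · apply le_max_of_le_right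
      have h2 : E (2 * δ) ≤ M := hle (2 * δ) ⟨by linarith [hδ.1], by linarith⟩
      have hE2 : 0 ≤ E (2 * δ) := hE0 (2 * δ) (by linarith) (by linarith)
      have hDδ := hD δ hpos hδ.2
      have hDM : D δ ≤ C * (1 + M) :=
        hDδ.2.trans (mul_le_mul_of_nonneg_left (by linarith [hle δ hδ]) hC)
      have hsD : Real.sqrt (D δ) ≤ Real.sqrt (C * (1 + M)) := Real.sqrt_le_sqrt hDM
      have hLE : L + E (2 * δ) ≤ L + M := by linarith
      have hLE0 : 0 ≤ L + E (2 * δ) := by linarith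
      have hss : Real.sqrt (Real.sqrt (D δ) * (L + E (2 * δ))) ≤
          Real.sqrt (Real.sqrt (C * (1 + M)) * (L + M)) :=
        Real.sqrt_le_sqrt (mul_le_mul hsD hLE hLE0 (Real.sqrt_nonneg _))
      have hδδ : δ * (L + E (2 * δ)) ≤ δ * (L + M) := mul_le_mul_of_nonneg_left hLE hpos.le
      have hCδ : C * δ ≤ 1 / 4 := (mul_le_mul_of_nonneg_left hδr hC).trans hr1C
      calc E δ ≤ C * (Real.sqrt (D δ) + Real.sqrt (Real.sqrt (D δ) * (L + E (2 * δ))) +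
            δ * (L + E (2 * δ))) := hE δ hpos (by linarith)
        _ ≤ C * (Real.sqrt (C * (1 + M)) + Real.sqrt (Real.sqrt (C * (1 + M)) * (L + M)) +
            δ * (L + M)) := mul_le_mul_of_nonneg_left (by linarith) hC
        _ ≤ M / 2 + K0 := loopReal_g C L M δ hC hL hM0 hCδ
    · apply le_max_of_le_left
      push Not at hδr
      refine (hap δ hpos hδ.2).trans (mul_le_mul_of_nonneg_left ?_ hA)
      have : δ⁻¹ ≤ r1⁻¹ := inv_anti₀ hr1pos hδr.le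
      exact pow_le_pow_left₀ (by positivity) this n
  have : M ≤ A * r1⁻¹ ^ n + 2 * K0 := by
    rcases le_max_iff.1 hMle with h | h
    · linarith
    · linarith
  exact (hle δ0 ⟨le_rfl, hδ0r⟩).trans this

end Pool.Agent.W_MP_d8b8b7_gt
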