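import Pool.Agent.W_MP_d8b8b7_gt.Energy
import Pool.Agent.W_MP_d8b8b7_gt.Dens
import Pool.Agent.W_MP_d8b8b7_gt.LoopReal
import Pool.Agent.W_MP_d8b8b7_gt.Crude

/-!
# The energy / density loop
-/

namespace Pool.Agent.W_MP_d8b8b7_gt

open MeasureTheory Set Filter Topology
open scoped ContDiff ENNReal

variable {N : ℕ}

namespace Setup

variable (S : Setup N)

theorem Loop_nrm_nonneg (b : EN N → C6) : 0 ≤ S.nrm b := Real.sqrt_nonneg _

theorem Loop_mono {k : ℕ} {T : (EN N → Bil N) → ℝ} {δ e e' : ℝ} (h : S.Ebd k T δ e)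
    (hee : e ≤ e') : S.Ebd k T δ e' := fun p hp b hb =>
  (h p hp b hb).trans (mul_le_mul_of_nonneg_right hee (S.Loop_nrm_nonneg b))

/-- the smallest admissible bound -/
noncomputable def loopE (k : ℕ) (T : (EN N → Bil N) → ℝ) (δ : ℝ) : ℝ :=
  sInf {e : ℝ | 0 ≤ e ∧ S.Ebd k T δ e}

theorem loopE_nonneg (k : ℕ) (T : (EN N → Bil N) → ℝ) (δ : ℝ) : 0 ≤ S.loopE k T δ :=
  Real.sInf_nonneg fun _ he => he.1

theorem loopE_le {k : ℕ} {T : (EN N → Bil N) → ℝ} {δ e : ℝ} (he : 0 ≤ e)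
    (h : S.Ebd k T δ e) : S.loopE k T δ ≤ e :=
  csInf_le ⟨0, fun _ hx => hx.1⟩ ⟨he, h⟩

/-- the infimum is attained -/
theorem loopE_ebd {k : ℕ} {T : (EN N → Bil N) → ℝ} {δ e : ℝ} (he : 0 ≤ e)
    (h : S.Ebd k T δ e) : S.Ebd k T δ (S.loopE k T δ) := by
  intro p hp b hb
  rcases (S.Loop_nrm_nonneg b).eq_or_lt with h0 | h0
  · have h1 := h p hp b hb
    rw [← h0, mul_zero] at h1
    rw [← h0, mul_zero]
    exact h1
  · rw [← div_le_iff₀ h0]
    refine le_csInf ⟨e, he, h⟩ fun e' he' => ?_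
    rw [div_le_iff₀ h0]
    exact he'.2 p hp b hb

/-- The loop.  Apply `loop_real` with r0 = d0/2, E δ = the infimum of {e ≥ 0 | Ebd k T δ e} (the
infimum is attained: Ebd is a closed condition), D = dens m + κ; a priori bound `ebd_crude`, energy
inequality `energy`, density bound `dens_le`. -/
theorem energy_bounded {k : ℕ} {K κ : ℝ} {m : Measure (EN N × EN N)} {T : (EN N → Bil N) → ℝ}
    (h : S.UpPair k K κ m T) :
    ∃ e : ℝ, 0 ≤ e ∧ ∀ δ : ℝ, 0 < δ → δ ≤ S.d0 / 2 → S.Ebd k T δ e := by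
  obtain ⟨Ca, hCa0, hCa⟩ := S.ebd_crude k
  obtain ⟨Ce, hCe0, hCe⟩ := S.energy k
  obtain ⟨Cd, hCd0, hCd⟩ := S.dens_le k
  have hK := h.cur.K_nonneg
  have hkap := h.kap_nonneg
  have hm0 : 0 ≤ mass m := ENNReal.toReal_nonneg
  have hd0 := S.d0_pos
  have hd1 := S.d0_le
  have hcr : ∀ δ : ℝ, 0 < δ → δ ≤ S.d0 / 2 → 0 ≤ Ca * K * δ⁻¹ ^ (k + 2) ∧
      S.Ebd k T δ (Ca * K * δ⁻¹ ^ (k + 2)) := fun δ hδ hδ' =>
    ⟨by positivity, hCa K T h.cur δ hδ hδ'⟩
  have hE : ∀ δ : ℝ, 0 < δ → δ ≤ S.d0 / 2 → S.Ebd k T δ (S.loopE k T δ) := fun δ hδ hδ' =>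
    S.loopE_ebd (hcr δ hδ hδ').1 (hcr δ hδ hδ').2
  have hC2 : 0 ≤ Cd * mass m * (mass m + K + 1) + κ := by positivity
  obtain ⟨M, hM0, hM⟩ := loop_real (S.loopE k T) (fun δ => S.dens m δ + κ) (S.d0 / 2)
    (max Ce (Cd * mass m * (mass m + K + 1) + κ)) (Ca * K) K (k + 2) (by positivity) (by linarith)
    (le_trans hCe0 (le_max_left _ _)) (by positivity) hK
    (fun δ _ _ => S.loopE_nonneg k T δ)
    (fun δ hδ hδ' => S.loopE_le (hcr δ hδ hδ').1 (hcr δ hδ hδ').2)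
    (fun δ hδ hδ' => by
      have hE0 := S.loopE_nonneg k T δ
      constructor
      · have : 0 ≤ S.dens m δ := by
          unfold dens
          exact mul_nonneg (sq_nonneg _) (integral_nonneg fun y => sq_nonneg _)
        exact add_nonneg this hkap
      · have h1 := hCd K m T h.toExPair δ hδ hδ' _ hE0 (hE δ hδ hδ')
        have h2 : mass m + K + S.loopE k T δ ≤ (mass m + K + 1) * (1 + S.loopE k T δ) := by
          nlinarith [mul_nonneg (add_nonneg hm0 hK) hE0]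
        have h4 : S.dens m δ ≤ (Cd * mass m * (mass m + K + 1)) * (1 + S.loopE k T δ) := by
          calc S.dens m δ ≤ Cd * mass m * (mass m + K + S.loopE k T δ) := h1
            _ ≤ Cd * mass m * ((mass m + K + 1) * (1 + S.loopE k T δ)) :=
                mul_le_mul_of_nonneg_left h2 (by positivity)
            _ = (Cd * mass m * (mass m + K + 1)) * (1 + S.loopE k T δ) := by ring
        have h5 : S.dens m δ + κ ≤
            (Cd * mass m * (mass m + K + 1) + κ) * (1 + S.loopE k T δ) := by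
          nlinarith [mul_nonneg hkap hE0]
        exact h5.trans (mul_le_mul_of_nonneg_right (le_max_right _ _) (by linarith)))
    (fun δ hδ hδ' => by
      have hE0 := S.loopE_nonneg k T (2 * δ)
      have h2 := hE (2 * δ) (by positivity) (by linarith)
      have h3 := hCe K κ m T h δ hδ (by linarith) _ hE0 h2
      have hpos : 0 ≤ Real.sqrt (S.dens m δ + κ) +
          Real.sqrt (Real.sqrt (S.dens m δ + κ) * (K + S.loopE k T (2 * δ))) +
            δ * (K + S.loopE k T (2 * δ)) := by positivity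
      refine (S.loopE_le (mul_nonneg hCe0 hpos) h3).trans ?_
      exact mul_le_mul_of_nonneg_right (le_max_left _ _) hpos)
  exact ⟨M, hM0, fun δ hδ hδ' => S.Loop_mono (hE δ hδ hδ') (hM δ hδ hδ')⟩

end Setup

end Pool.Agent.W_MP_d8b8b7_gt
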