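import Pool.Agent.W_MP_d8b8b7_gt.UpPair
import Pool.Agent.W_MP_d8b8b7_gt.Loop
import Pool.Agent.W_MP_d8b8b7_gt.L2Rep
import Pool.Agent.W_MP_d8b8b7_gt.Density
import Pool.Agent.W_MP_d8b8b7_gt.Currents
import Pool.Agent.W_MP_d8b8b7_gt.DD

/-!
# Both kinds of test currents are upper pairs; conclusions (X1), (X2) for the pairing
-/

namespace Pool.Agent.W_MP_d8b8b7_gt

open MeasureTheory Set Filter Topology
open scoped ContDiff ENNReal

variable {N : ℕ}

namespace Setup

variable (S : Setup N)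

/-- density of closed smooth forms in weakly closed L2 fields (helper97, module Q1) -/
def DensClosed : Prop := ∀ z, S.L2F z → S.WClosed z → ∀ η : ℝ, 0 < η →
  ∃ β : EN N → Bil N, IsForm β ∧ S.Closed β ∧ S.nrm (z - S.cp β) ≤ η

theorem upex_sub_eq {u b : EN N → C6} : u = b + (u - b) := by
  abel

theorem upex_L2F_sub {u b : EN N → C6} (hu : S.L2F u) (hb : S.L2F b) : S.L2F (u - b) := by
  have h := hu.add S (hb.smul S (-1))
  have h2 : u + (-1 : ℝ) • b = u - b := by
    rw [neg_one_smul, sub_eq_add_neg]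
  rwa [h2] at h

/-- closed case: κ = 0.  u is orthogonal to all closed smooth forms, in particular weakly closed;
with closed smooth β_j → u in L2: B u u = lim B u (cp β_j) = 0. -/
theorem upPair_closed (hd : S.DensClosed) {k : ℕ} {K : ℝ} {m : Measure (EN N × EN N)}
    {T : (EN N → Bil N) → ℝ} (hT : S.IsTc k K m T) : S.UpPair k K 0 m T := by
  refine ⟨hT.pos, hT.cur, hT.closed, le_rfl, fun c u hu hw => ?_⟩
  have hw0 : ∀ w, IsForm w → S.Closed w → S.B u (S.cp w) = 0 := fun w h1 h2 => by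
    rw [hw w h1 h2, hT.closed' w h1 h2, mul_zero]
  have hcl : S.WClosed u := fun α hα => by
    rw [S.B_comm]
    exact hw0 _ (dOne_isForm hα) (hb_dOne_closed S.toGeom hα)
  have key : ∀ η : ℝ, 0 < η → S.B u u ≤ S.nrm u * η := by
    intro η hη
    obtain ⟨β, hβ, hβc, hn⟩ := hd u hu hcl η hη
    have hbL : S.L2F (S.cp β) := S.L2F_cp hβ.smooth.continuous
    have hr := S.upex_L2F_sub hu hbL
    have h1 : S.B u u = S.B (S.cp β) u + S.B (u - S.cp β) u := by
      rw [← S.B_add_left hbL hr hu, ← upex_sub_eq]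
    have h2 : S.B (S.cp β) u = 0 := by rw [S.B_comm]; exact hw0 β hβ hβc
    have h3 := (le_abs_self _).trans (S.abs_B_le hr hu)
    have h4 : S.nrm (u - S.cp β) * S.nrm u ≤ η * S.nrm u :=
      mul_le_mul_of_nonneg_right hn (S.nrm_nonneg u)
    rw [h1, h2]
    linarith
  rw [zero_mul]
  have hlim : Tendsto (fun η : ℝ => S.nrm u * η) (𝓝[>] 0) (𝓝 0) := by
    have : Tendsto (fun η : ℝ => S.nrm u * η) (𝓝 0) (𝓝 (S.nrm u * 0)) :=
      tendsto_id.const_mul _
    rw [mul_zero] at this
    exact this.mono_left nhdsWithin_le_nhds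
  refine ge_of_tendsto hlim ?_
  filter_upwards [self_mem_nhdsWithin] with η hη
  exact key η hη

/-- pair om om ≥ 2 nu X: om ∧ om = F ∧ F + ‖om''‖² pointwise -/
theorem pair_om_nonneg : 2 * (S.nu univ).toReal ≤ S.pair S.om S.om := by
  have hL : S.L2F (S.cp S.om) := S.L2F_cp S.smooth_om.continuous
  have h1 : ∫ _, (2 : ℝ) ∂S.nu = 2 * (S.nu univ).toReal := by
    rw [integral_const, smul_eq_mul, mul_comm]
    rfl
  rw [← h1]
  unfold pair B
  refine integral_mono_ae (integrable_const _) (S.integrable_wedge hL hL) ?_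
  filter_upwards [S.ae_mem_X] with x hx
  have h2 : pr1 (S.cp S.om x) = Fc := by
    rw [← S.cp_inv hx S.om (S.om_alt x)]
    exact S.cp_F hx
  rw [wedge_split, h2, wedge_Fc_Fc, wedge_pr2_self]
  have := sq_nonneg ‖pr2 (S.cp S.om x)‖
  linarith

/-- nu is not zero: `ker_up` for f = 1 at a point of X -/
theorem nu_univ_pos : 0 < (S.nu univ).toReal := by
  obtain ⟨x, hx⟩ := S.neX
  have h := S.ker_up x hx S.d0 S.d0_pos le_rfl (fun _ => 1) measurable_const
  have hpos : 0 < (volume : Measure (EN N)) (Metric.ball 0 1) :=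
    Metric.measure_ball_pos _ _ one_pos
  rw [ENNReal.toReal_pos_iff]
  refine ⟨?_, measure_lt_top _ _⟩
  by_contra h0
  have h1 : S.nu univ = 0 := le_antisymm (not_lt.mp h0) bot_le
  have h2 : S.nu = 0 := Measure.measure_univ_eq_zero.mp h1
  rw [h2] at h
  simp only [lintegral_const, Measure.restrict_apply MeasurableSet.univ, univ_inter, one_mul,
    Measure.restrict_zero, Measure.coe_zero, Pi.zero_apply, mul_zero] at h
  exact absurd h (not_le.mpr hpos)

/-- class case under the light cone inequality: κ = (Pm m om + T om)² / pair om om.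
u is weakly closed; closed smooth β_j → u: pair β_j β_j * pair om om ≤ (pair om β_j)², in the limit
B u u * pair om om ≤ (B u (cp om))² = c² (Pm m om + T om)². -/
theorem upPair_lor (hd : S.DensClosed) (hL : S.Lor) {k : ℕ} {K : ℝ} {m : Measure (EN N × EN N)}
    {T : (EN N → Bil N) → ℝ} (hT : S.IsT k K m T) :
    S.UpPair k K ((S.Pm m S.om + T S.om) ^ 2 / S.pair S.om S.om) m T := by
  have hP : 0 < S.pair S.om S.om := by
    have h1 := S.pair_om_nonneg
    have h2 := S.nu_univ_pos
    linarith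
  refine ⟨hT.pos, hT.cur, hT.closed, by positivity, fun c u hu hw => ?_⟩
  have hcl : S.WClosed u := fun α hα => by
    rw [S.B_comm, hw _ (dOne_isForm hα) (hb_dOne_closed S.toGeom hα), hT.closed α hα, mul_zero]
  have homF : IsForm S.om := ⟨S.smooth_om, S.om_alt⟩
  have homc : S.Closed S.om := S.om_closed
  set o := S.cp S.om with ho
  have hoL : S.L2F o := S.L2F_cp S.smooth_om.continuous
  have hou : S.B o u = c * (S.Pm m S.om + T S.om) := by
    rw [S.B_comm]
    exact hw S.om homF homc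
  set Θ := S.Pm m S.om + T S.om with hΘ
  set P := S.pair S.om S.om with hPdef
  have key : ∀ η : ℝ, 0 < η → (S.B u u - 2 * S.nrm u * η - η ^ 2) * P ≤
      (|c * Θ| + S.nrm o * η) ^ 2 := by
    intro η hη
    obtain ⟨β, hβ, hβc, hn⟩ := hd u hu hcl η hη
    set b := S.cp β with hb
    have hbL : S.L2F b := S.L2F_cp hβ.smooth.continuous
    set r := u - b with hr
    have hrL : S.L2F r := S.upex_L2F_sub hu hbL
    have hub : u = b + r := upex_sub_eq
    have h1 : S.B u u = S.B b b + 2 * S.B u r - S.B r r := by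
      have e1 : S.B u u = S.B b u + S.B r u := by
        conv_lhs => rw [hub]
        rw [S.B_add_left hbL hrL (hbL.add S hrL), ← hub]
      have e2 : S.B b u = S.B b b + S.B r b := by
        rw [S.B_comm b u]
        conv_lhs => rw [hub]
        exact S.B_add_left hbL hrL hbL
      have e3 : S.B u r = S.B b r + S.B r r := by
        conv_lhs => rw [hub]
        exact S.B_add_left hbL hrL hrL
      have e4 : S.B r u = S.B u r := S.B_comm _ _
      have e5 : S.B r b = S.B b r := S.B_comm _ _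
      linarith
    have h2 : S.B b b * P ≤ S.B o b ^ 2 := hL β hβ hβc
    have h3 : S.B o b = c * Θ - S.B o r := by
      have e1 : S.B u o = S.B b o + S.B r o := by
        conv_lhs => rw [hub]
        exact S.B_add_left hbL hrL hoL
      rw [S.B_comm u o, hou, S.B_comm b o, S.B_comm r o] at e1
      linarith
    have hnu := S.nrm_nonneg u
    have hno := S.nrm_nonneg o
    have hnr := S.nrm_nonneg r
    have h4 : |S.B u r| ≤ S.nrm u * η := (S.abs_B_le hu hrL).trans
      (mul_le_mul_of_nonneg_left hn hnu)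
    have h5 : |S.B r r| ≤ η ^ 2 := (S.abs_B_le hrL hrL).trans (by nlinarith)
    have h6 : |S.B o r| ≤ S.nrm o * η := (S.abs_B_le hoL hrL).trans
      (mul_le_mul_of_nonneg_left hn hno)
    have h7 : S.B u u - 2 * S.nrm u * η - η ^ 2 ≤ S.B b b := by
      have a1 := (abs_le.mp h4).2
      have a2 := (abs_le.mp h5).1
      linarith
    have h8 : |S.B o b| ≤ |c * Θ| + S.nrm o * η := by
      rw [h3]
      exact (abs_sub _ _).trans (by linarith)
    calc (S.B u u - 2 * S.nrm u * η - η ^ 2) * P ≤ S.B b b * P :=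
          mul_le_mul_of_nonneg_right h7 hP.le
      _ ≤ S.B o b ^ 2 := h2
      _ = |S.B o b| ^ 2 := (sq_abs _).symm
      _ ≤ (|c * Θ| + S.nrm o * η) ^ 2 := by
          exact pow_le_pow_left₀ (abs_nonneg _) h8 2
  have hl : Tendsto (fun η : ℝ => (S.B u u - 2 * S.nrm u * η - η ^ 2) * P) (𝓝[>] 0)
      (𝓝 (S.B u u * P)) := by
    have hcont : Continuous (fun η : ℝ => (S.B u u - 2 * S.nrm u * η - η ^ 2) * P) := by fun_prop
    have := hcont.tendsto 0
    simp only [mul_zero, sub_zero, ne_eq, OfNat.ofNat_ne_zero, not_false_eq_true, zero_pow] at this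
    exact this.mono_left nhdsWithin_le_nhds
  have hr' : Tendsto (fun η : ℝ => (|c * Θ| + S.nrm o * η) ^ 2) (𝓝[>] 0) (𝓝 (|c * Θ| ^ 2)) := by
    have hcont : Continuous (fun η : ℝ => (|c * Θ| + S.nrm o * η) ^ 2) := by fun_prop
    have := hcont.tendsto 0
    simp only [mul_zero, add_zero] at this
    exact this.mono_left nhdsWithin_le_nhds
  have hfin : S.B u u * P ≤ |c * Θ| ^ 2 := by
    refine le_of_tendsto_of_tendsto hl hr' ?_
    filter_upwards [self_mem_nhdsWithin] with η hη
    exact key η hη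
  rw [sq_abs] at hfin
  rw [div_mul_eq_mul_div, le_div_iff₀ hP]
  calc S.B u u * P ≤ (c * Θ) ^ 2 := hfin
    _ = Θ ^ 2 * c ^ 2 := by ring

theorem upex_tr {m : Measure (EN N × EN N)} (hm : S.IsPos m)
    (h : ∃ C : ℝ, 0 ≤ C ∧ ∀ x : EN N, ∀ r : ℝ, 0 < r →
      (m (Prod.fst ⁻¹' Metric.closedBall x r)).toReal ≤ C * r ^ 2) :
    ∃ c : ℝ, 0 ≤ c ∧ ∀ (x : EN N) (r : ℝ), 0 < r →
      tr m (Metric.closedBall x r) ≤ ENNReal.ofReal (c * r ^ 2) := by
  obtain ⟨C, hC0, hC⟩ := h
  have := hm.fin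
  refine ⟨C, hC0, fun x r hr => ?_⟩
  have h1 : tr m (Metric.closedBall x r) = m (Prod.fst ⁻¹' Metric.closedBall x r) := by
    unfold tr
    rw [Measure.map_apply measurable_fst Metric.isClosed_closedBall.measurableSet]
  rw [h1]
  exact (ENNReal.le_ofReal_iff_toReal_le (measure_ne_top _ _) (by positivity)).mpr (hC x r hr)

/-- (X1) and (X2) for an upper pair -/
theorem UpPair.out {k : ℕ} {K κ : ℝ} {m : Measure (EN N × EN N)} {T : (EN N → Bil N) → ℝ}
    (h : S.UpPair k K κ m T) :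
    (∃ t : EN N → C6, S.L2F t ∧ (∀ x, pr1 (t x) = 0) ∧
      ∀ β : EN N → Bil N, IsForm β → T β = S.B t (S.cp β)) ∧
    (∃ c : ℝ, 0 ≤ c ∧ ∀ (x : EN N) (r : ℝ), 0 < r →
      tr m (Metric.closedBall x r) ≤ ENNReal.ofReal (c * r ^ 2)) := by
  obtain ⟨e, he, hb⟩ := S.energy_bounded h
  exact ⟨S.exists_L2_rep h.cur he hb, S.upex_tr h.pos (S.density (UpPair.toExPair S h) he hb)⟩

/-- (X2) for a closed positive current -/
theorem IsP.out {ε : ℝ} {m : Measure (EN N × EN N)} (h : S.IsP ε m) :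
    ∃ c : ℝ, 0 ≤ c ∧ ∀ (x : EN N) (r : ℝ), 0 < r →
      tr m (Metric.closedBall x r) ≤ ENNReal.ofReal (c * r ^ 2) :=
  S.upex_tr h.toIsPos (S.density_closed h.toIsPos h.closed)

end Setup

end Pool.Agent.W_MP_d8b8b7_gt
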