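import Pool.Agent.W_MP_d8b8b7_gt.PtBound

/-!
# Second order positivity of the pull back by x ↦ rho (x + h)

For x in X, ‖h‖ small, z = rho (x + h), A = D (x + h) : T_x → T_z and v tangent at x, put
w = A v, w' = A (J_x v).  Then w, w' are tangent at z and ‖w' - J_z w‖ ≤ C ‖h‖ ‖v‖, because
the map h ↦ D (x + h) (J x v) - J (rho (x + h)) (D (x + h) v) is smooth in (x, h) and vanishes at
h = 0 (use `smooth_lip` for the maps D, J, J ∘ rho; X is compact).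
`val x h v c` is the value of the form with (constant) components c at z on (w, w').
With `c = pr1 c` and the notation `polc` (symmetric form (u, w) ↦ value of the form on (u, J w)),
value on (w, w') = polc c (crd w) (crd (-J w')) and -J w' = w - e with ‖e‖ ≤ C ‖h‖ ‖v‖, so
value = polc(w,w) - polc(w,e) ≥ polc(w,w) - (polc(w,w) polc(e,e))^{1/2} ≥ - polc(e,e)/4
≥ - C ‖c‖ ‖h‖^2 ‖v‖^2 if Pos6 c (Cauchy-Schwarz `polc_sq_le`).
If pr1 c = 0 the form vanishes on (w, J w), so |value| = |form (w, w' - J w)| ≤ C ‖c‖ ‖h‖.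
-/

namespace Pool.Agent.W_MP_d8b8b7_gt

open MeasureTheory Set Filter Topology
open scoped ContDiff ENNReal

variable {N : ℕ}

namespace Setup

variable (S : Setup N)

/-- value of the form with components c at z = rho (x + h), pulled back to x, on (v, J_x v) -/
noncomputable def val (x h v : EN N) (c : C6) : ℝ :=
  S.rc (fun _ => c) (S.rho (x + h)) (S.D (x + h) v) (S.D (x + h) (S.J x v))

/-- approximate J-linearity of the differential of x ↦ rho (x + h) -/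
theorem D_J_comm : ∃ C : ℝ, 0 ≤ C ∧ ∀ x ∈ S.X, ∀ h : EN N, ‖h‖ < S.d0 → ∀ v : EN N, S.Tan x v →
    ‖S.D (x + h) (S.J x v) - S.J (S.rho (x + h)) (S.D (x + h) v)‖ ≤ C * ‖h‖ * ‖v‖ := by
  obtain ⟨C, hC1, hC, -, -⟩ := S.exists_bound
  obtain ⟨L1, hL1, hl1⟩ := S.smooth_lip S.D S.smooth_D
  have hG : ContDiff ℝ ∞ fun y => (S.J (S.rho y)).comp (S.D y) :=
    (S.smooth_J.comp S.smooth_rho).clm_comp S.smooth_D
  obtain ⟨L2, hL2, hl2⟩ := S.smooth_lip _ hG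
  refine ⟨L1 * C + L2, by positivity, fun x hx h hh v hv => ?_⟩
  have hh1 : ‖h‖ ≤ 1 := hh.le.trans S.d0_le
  have hDv : S.D x v = v := hv
  have e1 : S.D x (S.J x v) = S.J x v := S.D_J x hx v
  have e2 : ((S.J (S.rho x)).comp (S.D x)) v = S.J x v := by
    rw [ContinuousLinearMap.comp_apply, hDv, S.rho_fix x hx]
  have e3 : S.D (x + h) (S.J x v) - S.J (S.rho (x + h)) (S.D (x + h) v) =
      (S.D (x + h) - S.D x) (S.J x v) - ((S.J (S.rho (x + h))).comp (S.D (x + h)) -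
        (S.J (S.rho x)).comp (S.D x)) v := by
    rw [_root_.sub_apply, _root_.sub_apply, e2, e1,
      ContinuousLinearMap.comp_apply]
    abel
  rw [e3]
  have b1 := (S.D (x + h) - S.D x).le_of_opNorm_le (hl1 x hx h hh1).1 (S.J x v)
  have b2 := ((S.J (S.rho (x + h))).comp (S.D (x + h)) -
        (S.J (S.rho x)).comp (S.D x)).le_of_opNorm_le (hl2 x hx h hh1).1 v
  have b3 := (S.J x).le_of_opNorm_le (hC x hx).1 v
  calc _ ≤ ‖(S.D (x + h) - S.D x) (S.J x v)‖ + ‖((S.J (S.rho (x + h))).comp (S.D (x + h)) -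
        (S.J (S.rho x)).comp (S.D x)) v‖ := norm_sub_le _ _
    _ ≤ L1 * ‖h‖ * (C * ‖v‖) + L2 * ‖h‖ * ‖v‖ := by
        refine add_le_add (b1.trans ?_) b2
        gcongr
    _ = (L1 * C + L2) * ‖h‖ * ‖v‖ := by ring

/-- all constants of this file -/
theorem Second_data : ∃ C : ℝ, 1 ≤ C ∧ (∀ z ∈ S.X1, ‖z.2‖ ≤ C) ∧ ∀ x ∈ S.X, ∀ h : EN N,
    ‖h‖ < S.d0 → S.rho (x + h) ∈ S.X ∧ (‖S.J x‖ ≤ C ∧ ‖S.J (S.rho (x + h))‖ ≤ C) ∧
    (‖S.D x‖ ≤ C ∧ ‖S.D (x + h)‖ ≤ C) ∧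
    (∀ v, S.Tan x v →
      ‖S.D (x + h) (S.J x v) - S.J (S.rho (x + h)) (S.D (x + h) v)‖ ≤ C * ‖h‖ * ‖v‖) ∧
    (∀ c : C6, ‖S.rc (fun _ => c) (S.rho (x + h))‖ ≤ C * ‖c‖) ∧
    (∀ w, S.Tan (S.rho (x + h)) w → ‖S.crd (S.rho (x + h)) w‖ ^ 2 ≤ C * ‖w‖ ^ 2) ∧
    (∀ a, ‖S.fr a x‖ ≤ C ∧ ‖S.fr a (S.rho (x + h))‖ ≤ C ∧ ‖S.th a x‖ ≤ C) ∧
    (‖S.D (S.rho (x + h)) - S.D x‖ ≤ C * ‖h‖ ∧ ‖S.D (x + h) - S.D x‖ ≤ C * ‖h‖) := by
  obtain ⟨C, hC1, hC, -, hCX⟩ := S.exists_bound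
  obtain ⟨L1, hL1, hl1⟩ := S.smooth_lip S.D S.smooth_D
  obtain ⟨L2, hL2, hl2⟩ := S.smooth_lip (fun y => S.D (S.rho y)) (S.smooth_D.comp S.smooth_rho)
  obtain ⟨L3, hL3, hl3⟩ := S.D_J_comm
  have c1 : C ≤ C + L1 + L2 + L3 := by linarith
  have c2 : L1 ≤ C + L1 + L2 + L3 := by linarith
  have c3 : L2 ≤ C + L1 + L2 + L3 := by linarith
  have c4 : L3 ≤ C + L1 + L2 + L3 := by linarith
  refine ⟨C + L1 + L2 + L3, by linarith, fun z hz => (hCX z hz).trans c1, fun x hx h hh => ?_⟩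
  have hh1 : ‖h‖ ≤ 1 := hh.le.trans S.d0_le
  have hz : S.rho (x + h) ∈ S.X := S.rho_mem _ (S.tube x hx h hh.le)
  obtain ⟨j1, j2, j3, j4, j5, j6⟩ := hC x hx
  obtain ⟨k1, k2, k3, k4, k5, k6⟩ := hC _ hz
  refine ⟨hz, ⟨j1.trans c1, k1.trans c1⟩, ⟨?_, ((hl1 x hx h hh1).2.1).trans c2⟩, ?_, ?_, ?_, ?_,
    ?_, ?_⟩
  · have := (hl1 x hx 0 (by simp)).2.1
    rw [add_zero] at this
    exact this.trans c2
  · intro v hv
    refine (hl3 x hx h hh v hv).trans ?_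
    gcongr
  · intro c
    refine (k5 (fun _ => c)).trans ?_
    gcongr
  · intro w hw
    rw [S.norm_crd_sq hz w hw]
    refine ((k4 w hw).2).trans ?_
    gcongr
  · intro a
    exact ⟨(j2 a).trans c1, (k2 a).trans c1, (j3 a).trans c1⟩
  · have := (hl2 x hx h hh1).1
    simp only [S.rho_fix x hx] at this
    refine this.trans ?_
    gcongr
  · refine ((hl1 x hx h hh1).1).trans ?_
    gcongr

theorem Second_crd_sub (x u v : EN N) : S.crd x (u - v) = S.crd x u - S.crd x v := by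
  ext i
  fin_cases i <;> simp [crd]

theorem Second_crd_add (x u v : EN N) : S.crd x (u + v) = S.crd x u + S.crd x v := by
  ext i
  fin_cases i <;> simp [crd]

theorem Second_crd_smul (x : EN N) (t : ℝ) (v : EN N) : S.crd x (t • v) = t • S.crd x v := by
  ext i
  fin_cases i <;> simp [crd]

theorem Second_pr2 {c : C6} (hc : pr2 c = 0) : c 1 = c 4 ∧ c 2 = - c 3 := by
  have h1 : (pr2 c) 1 = 0 := by rw [hc]; rfl
  have h2 : (pr2 c) 2 = 0 := by rw [hc]; rfl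
  simp [pr2] at h1 h2
  constructor <;> linarith

theorem rc_J_polc {z : EN N} (hz : z ∈ S.X) {c : C6} (hc : pr2 c = 0) (w y : EN N) :
    S.rc (fun _ => c) z w (S.J z y) = polc c (S.crd z w) (S.crd z y) := by
  obtain ⟨h1, h2⟩ := Second_pr2 hc
  have hJ := S.crd_J hz y
  have j0 : S.th 0 z (S.J z y) = - S.th 1 z y := by
    have := congrArg (fun u : EN 4 => u 0) hJ
    simpa [crd] using this
  have j1 : S.th 1 z (S.J z y) = S.th 0 z y := by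
    have := congrArg (fun u : EN 4 => u 1) hJ
    simpa [crd] using this
  have j2 : S.th 2 z (S.J z y) = - S.th 3 z y := by
    have := congrArg (fun u : EN 4 => u 2) hJ
    simpa [crd] using this
  have j3 : S.th 3 z (S.J z y) = S.th 2 z y := by
    have := congrArg (fun u : EN 4 => u 3) hJ
    simpa [crd] using this
  rw [S.rc_apply, j0, j1, j2, j3]
  simp only [polc, crd]
  simp
  rw [h1, h2]
  ring

theorem Second_evc_add_le {c : C6} (hc : Pos6 c) (u w : EN 4) :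
    evc c (u + w) ≤ 2 * evc c u + 2 * evc c w := by
  have h1 := hc (u - w)
  have h2 : evc c (u + w) + evc c (u - w) = 2 * evc c u + 2 * evc c w := by
    simp only [evc, PiLp.add_apply, PiLp.sub_apply]
    ring
  linarith

theorem Second_evc_smul (c : C6) (t : ℝ) (u : EN 4) : evc c (t • u) = t ^ 2 * evc c u := by
  simp only [evc, PiLp.smul_apply, smul_eq_mul]
  ring

theorem Second_evc_J {z : EN N} (hz : z ∈ S.X) (c : C6) (y : EN N) :
    evc c (S.crd z (S.J z y)) = evc c (S.crd z y) := by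
  rw [S.crd_J hz y]
  simp [evc]
  ring

theorem Second_evc_le (c : C6) (u : EN 4) {K : ℝ} (h : ‖u‖ ^ 2 ≤ K) : evc c u ≤ ‖c‖ * K :=
  (le_abs_self _).trans ((abs_evc_le c u).trans (by gcongr))

theorem val_add (x h v : EN N) (a b : C6) : S.val x h v (a + b) = S.val x h v a + S.val x h v b := by
  simp only [val, S.rc_apply, PiLp.add_apply]
  ring

theorem val_smul (x h v : EN N) (t : ℝ) (a : C6) : S.val x h v (t • a) = t * S.val x h v a := by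
  simp only [val, S.rc_apply, PiLp.smul_apply, smul_eq_mul]
  ring

/-- decomposition of the value: first part and error -/
theorem Second_val_split {x h : EN N} (hz : S.rho (x + h) ∈ S.X) (v : EN N) (c : C6) :
    S.val x h v c = evc c (S.crd (S.rho (x + h)) (S.D (x + h) v)) +
      S.rc (fun _ => c) (S.rho (x + h)) (S.D (x + h) v)
        (S.D (x + h) (S.J x v) - S.J (S.rho (x + h)) (S.D (x + h) v)) := by
  rw [Bil.sub_right, S.rc_apply_J hz]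
  simp only [val]
  ring

theorem Second_err {x h : EN N} {C : ℝ} (hC : 1 ≤ C) {v : EN N} (hv : ‖v‖ ≤ C)
    (hD : ‖S.D (x + h)‖ ≤ C)
    (he : ‖S.D (x + h) (S.J x v) - S.J (S.rho (x + h)) (S.D (x + h) v)‖ ≤ C * ‖h‖ * ‖v‖)
    (c : C6) (hc : ‖S.rc (fun _ => c) (S.rho (x + h))‖ ≤ C * ‖c‖) :
    |S.rc (fun _ => c) (S.rho (x + h)) (S.D (x + h) v)
        (S.D (x + h) (S.J x v) - S.J (S.rho (x + h)) (S.D (x + h) v))| ≤
      C ^ 5 * ‖c‖ * ‖h‖ := by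
  have h0 : 0 ≤ C := by linarith
  have b1 : ‖S.D (x + h) v‖ ≤ C * C :=
    ((S.D (x + h)).le_of_opNorm_le hD v).trans (by gcongr)
  have b2 : ‖S.D (x + h) (S.J x v) - S.J (S.rho (x + h)) (S.D (x + h) v)‖ ≤ C * ‖h‖ * C :=
    he.trans (by gcongr)
  calc _ ≤ ‖S.rc (fun _ => c) (S.rho (x + h))‖ * ‖S.D (x + h) v‖ *
        ‖S.D (x + h) (S.J x v) - S.J (S.rho (x + h)) (S.D (x + h) v)‖ := Bil.abs_apply_le _ _ _
    _ ≤ (C * ‖c‖) * (C * C) * (C * ‖h‖ * C) := by gcongr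
    _ = C ^ 5 * ‖c‖ * ‖h‖ := by ring

theorem abs_val_le : ∃ C : ℝ, 0 ≤ C ∧ ∀ z ∈ S.X1, ∀ h : EN N, ‖h‖ < S.d0 → ∀ c : C6,
    |S.val z.1 h z.2 c| ≤ C * ‖c‖ := by
  obtain ⟨C, hC1, hX1, hC⟩ := S.Second_data
  have h0 : 0 ≤ C := by linarith
  refine ⟨C ^ 6, by positivity, fun z hz h hh c => ?_⟩
  obtain ⟨x, v⟩ := z
  obtain ⟨hzX, ⟨hJx, -⟩, ⟨-, hD⟩, -, hrc, -⟩ := hC x hz.1 h hh
  have hv : ‖v‖ ≤ C := hX1 (x, v) hz
  have b1 : ‖S.D (x + h) v‖ ≤ C * C :=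
    ((S.D (x + h)).le_of_opNorm_le hD v).trans (by gcongr)
  have b2 : ‖S.J x v‖ ≤ C * C := ((S.J x).le_of_opNorm_le hJx v).trans (by gcongr)
  have b3 : ‖S.D (x + h) (S.J x v)‖ ≤ C * (C * C) :=
    ((S.D (x + h)).le_of_opNorm_le hD _).trans (by gcongr)
  calc |S.val x h v c| ≤ ‖S.rc (fun _ => c) (S.rho (x + h))‖ * ‖S.D (x + h) v‖ *
        ‖S.D (x + h) (S.J x v)‖ := Bil.abs_apply_le _ _ _
    _ ≤ (C * ‖c‖) * (C * C) * (C * (C * C)) := by gcongr; exact hrc c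
    _ = C ^ 6 * ‖c‖ := by ring

private theorem Second_aux_quad {a b p : ℝ} (ha : 0 ≤ a) (hb : 0 ≤ b) (h : p ^ 2 ≤ a * b) :
    -(b / 4) ≤ a + p := by
  have h1 : p ^ 2 ≤ (a + b / 4) ^ 2 := by
    have := sq_nonneg (a - b / 4)
    linarith
  have h2 := abs_le_of_sq_le_sq' h1 (by linarith)
  linarith [h2.1]

/-- second order positivity -/
theorem val_ge : ∃ C : ℝ, 0 ≤ C ∧ ∀ z ∈ S.X1, ∀ h : EN N, ‖h‖ < S.d0 → ∀ c : C6, Pos6 c →
    pr2 c = 0 → -(C * ‖h‖ ^ 2 * ‖c‖) ≤ S.val z.1 h z.2 c := by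
  obtain ⟨C, hC1, hX1, hC⟩ := S.Second_data
  have h0 : 0 ≤ C := by linarith
  refine ⟨C ^ 7, by positivity, fun z hz h hh c hc hc2 => ?_⟩
  obtain ⟨x, v⟩ := z
  obtain ⟨hzX, ⟨hJx, hJz⟩, ⟨-, hD⟩, he, hrc, hcrd, -⟩ := hC x hz.1 h hh
  have hv : ‖v‖ ≤ C := hX1 (x, v) hz
  have hxU : x + h ∈ S.U := S.tube x hz.1 h hh.le
  set z := S.rho (x + h) with hzdef
  set w := S.D (x + h) v with hw
  set w' := S.D (x + h) (S.J x v) with hw'
  have hDw' : S.D z w' = w' := S.D_rho_D hxU _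
  have hDw : S.D z w = w := S.D_rho_D hxU _
  -- `w' = J y` with `y = - J w'`
  have hy : S.J z (-(S.J z w')) = w' := by
    rw [map_neg, S.J_J z hzX]
    simp only [neg_neg]
    exact hDw'
  have e1 : S.val x h v c = polc c (S.crd z w) (S.crd z (-(S.J z w'))) := by
    rw [← S.rc_J_polc hzX hc2, hy]
    rfl
  set e := w' - S.J z w with hedef
  have hen : ‖e‖ ≤ C * ‖h‖ * ‖v‖ := he v hz.2.1
  have e2 : -(S.J z w') = w + (-(S.J z e)) := by
    have : S.J z (S.J z w) = - w := by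
      rw [S.J_J z hzX]
      exact congrArg Neg.neg hDw
    rw [hedef, map_sub, this]
    abel
  set f := S.crd z (-(S.J z e)) with hf
  have hft : S.Tan z (-(S.J z e)) := by
    show S.D z (-(S.J z e)) = _
    rw [map_neg]
    exact congrArg Neg.neg (S.D_J z hzX e)
  have hfn : ‖f‖ ^ 2 ≤ C ^ 7 * ‖h‖ ^ 2 := by
    have g1 := hcrd _ hft
    have g2 : ‖-(S.J z e)‖ ≤ C * (C * ‖h‖ * C) := by
      rw [norm_neg]
      refine ((S.J z).le_of_opNorm_le hJz e).trans ?_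
      gcongr
      exact hen.trans (by gcongr)
    calc ‖f‖ ^ 2 ≤ C * ‖-(S.J z e)‖ ^ 2 := g1
      _ ≤ C * (C * (C * ‖h‖ * C)) ^ 2 := by gcongr
      _ = C ^ 7 * ‖h‖ ^ 2 := by ring
  have e3 : S.val x h v c = evc c (S.crd z w) + polc c (S.crd z w) f := by
    rw [e1, e2, S.Second_crd_add, ← polc_self]
    simp only [polc, PiLp.add_apply]
    rw [← hf]
    ring
  have k1 := polc_sq_le hc (S.crd z w) f
  have k2 := hc (S.crd z w)
  have k3 := hc f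
  have k4 := Second_evc_le c f hfn
  have k5 : -(evc c f / 4) ≤ evc c (S.crd z w) + polc c (S.crd z w) f :=
    Second_aux_quad k2 k3 k1
  show -(C ^ 7 * ‖h‖ ^ 2 * ‖c‖) ≤ S.val x h v c
  rw [e3]
  linarith only [k5, k4, k3]

/-- the anti-invariant part contributes O(‖h‖) -/
theorem abs_val_anti_le : ∃ C : ℝ, 0 ≤ C ∧ ∀ z ∈ S.X1, ∀ h : EN N, ‖h‖ < S.d0 → ∀ c : C6,
    pr1 c = 0 → |S.val z.1 h z.2 c| ≤ C * ‖h‖ * ‖c‖ := by
  obtain ⟨C, hC1, hX1, hC⟩ := S.Second_data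
  have h0 : 0 ≤ C := by linarith
  refine ⟨C ^ 5, by positivity, fun z hz h hh c hc => ?_⟩
  obtain ⟨x, v⟩ := z
  obtain ⟨hzX, -, ⟨-, hD⟩, he, hrc, -⟩ := hC x hz.1 h hh
  show |S.val x h v c| ≤ C ^ 5 * ‖h‖ * ‖c‖
  have hc' : evc c (S.crd (S.rho (x + h)) (S.D (x + h) v)) = 0 := by
    rw [← evc_pr1, hc]
    simp [evc]
  rw [S.Second_val_split hzX, hc', zero_add]
  have := S.Second_err hC1 (hX1 (x, v) hz) hD (he v hz.2.1) c (hrc c)
  linarith

/-- lower bound of the trace, for small h: the sum over the two frame vectors f0, f2 controls the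
norm of a positive (1,1) form.  Proof: with A = D (x + h), A is close to the identity on T_x, so the
four vectors A f_a span T_z and ‖c‖ ≤ C max_a polc(A f_a, A f_a); A f_1 = J_z A f_0 + O(‖h‖), so
polc(A f_1, A f_1) ≤ 2 polc (A f_0, A f_0) + C ‖h‖^2 ‖c‖, similarly for f_3; and
|value on (A f_a, A J f_a) - polc(A f_a, A f_a)| ≤ C ‖h‖ ‖c‖.  Absorb the terms with ‖h‖. -/
theorem val_low : ∃ c₀ d₁ : ℝ, 0 < c₀ ∧ 0 < d₁ ∧ d₁ ≤ S.d0 ∧ ∀ x ∈ S.X, ∀ h : EN N, ‖h‖ < d₁ →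
    ∀ c : C6, Pos6 c → pr2 c = 0 →
      c₀ * ‖c‖ ≤ S.val x h (S.fr 0 x) c + S.val x h (S.fr 2 x) c := by
  obtain ⟨C, hC1, hX1, hC⟩ := S.Second_data
  have h0 : 0 < C := by linarith
  refine ⟨(96 * C ^ 4)⁻¹, min S.d0 (352 * C ^ 9)⁻¹, by positivity,
    lt_min S.d0_pos (by positivity), min_le_left _ _, fun x hx h hh c hc hc2 => ?_⟩
  have hh0 : ‖h‖ < S.d0 := hh.trans_le (min_le_left _ _)
  have hh1 : ‖h‖ ≤ 1 := hh0.le.trans S.d0_le
  have hh2 : ‖h‖ ≤ (352 * C ^ 9)⁻¹ := hh.le.trans (min_le_right _ _)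
  have hhn : 0 ≤ ‖h‖ := norm_nonneg h
  have hhsq : ‖h‖ ^ 2 ≤ ‖h‖ := pow_le_of_le_one hhn hh1 two_ne_zero
  obtain ⟨hzX, ⟨hJx, hJz⟩, ⟨hDx, hD⟩, he, hrc, hcrd, hfr, hDz, hDh⟩ := hC x hx h hh0
  have hxU : x + h ∈ S.U := S.tube x hx h hh0.le
  set z := S.rho (x + h) with hzdef
  set A := S.D (x + h) with hA
  set q : EN N → ℝ := fun w => evc c (S.crd z w) with hq
  have hqadd : ∀ u w, q (u + w) ≤ 2 * q u + 2 * q w := by
    intro u w
    simp only [hq]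
    rw [S.Second_crd_add]
    exact Second_evc_add_le hc _ _
  have hqsmul : ∀ (t : ℝ) w, q (t • w) = t ^ 2 * q w := by
    intro t w
    simp only [hq]
    rw [S.Second_crd_smul, Second_evc_smul]
  have hqn : ∀ w, 0 ≤ q w := fun w => hc _
  have hqle : ∀ w K, S.Tan z w → ‖w‖ ≤ K → q w ≤ ‖c‖ * (C * K ^ 2) := by
    intro w K hw hK
    refine Second_evc_le c _ ((hcrd w hw).trans ?_)
    gcongr
  have hAt : ∀ v, S.Tan z (A v) := fun v => S.D_rho_D hxU v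
  -- step 1: the frame at `z` through the frame at `x`
  have st1 : ∀ a, q (S.fr a z) ≤ 8 * C ^ 4 * (q (A (S.fr 0 x)) + q (A (S.fr 1 x)) +
      q (A (S.fr 2 x)) + q (A (S.fr 3 x))) + 8 * C ^ 7 * ‖c‖ * ‖h‖ := by
    intro a
    obtain ⟨-, hfz, -⟩ := hfr a
    have hsum := S.sum_crd hx (S.fr a z)
    rw [Fin.sum_univ_four] at hsum
    have ht : ∀ b, (S.crd x (S.fr a z) b) ^ 2 ≤ C ^ 4 := by
      intro b
      have g1 : |S.crd x (S.fr a z) b| ≤ C * C := by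
        have g2 : ∀ b, |S.th b x (S.fr a z)| ≤ C * C := by
          intro b
          have := (S.th b x).le_of_opNorm_le (hfr b).2.2 (S.fr a z)
          rw [Real.norm_eq_abs] at this
          exact this.trans (by gcongr)
        fin_cases b
        · exact g2 0
        · exact g2 1
        · exact g2 2
        · exact g2 3
      rw [← sq_abs]
      calc |S.crd x (S.fr a z) b| ^ 2 ≤ (C * C) ^ 2 := by gcongr
        _ = C ^ 4 := by ring
    have hdec : S.fr a z = A (S.D x (S.fr a z)) + (S.fr a z - A (S.D x (S.fr a z))) := by abel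
    have het : S.Tan z (S.fr a z - A (S.D x (S.fr a z))) := by
      show S.D z _ = _
      rw [map_sub]
      have g1 : S.D z (S.fr a z) = S.fr a z := S.fr_tan z hzX a
      have g2 : S.D z (A (S.D x (S.fr a z))) = A (S.D x (S.fr a z)) := hAt _
      rw [g1, g2]
    have hen : ‖S.fr a z - A (S.D x (S.fr a z))‖ ≤ 2 * C ^ 3 * ‖h‖ := by
      have g1 : S.D z (S.fr a z) = S.fr a z := S.fr_tan z hzX a
      have g3 : S.fr a z - A (S.D x (S.fr a z)) = (S.D z - S.D x) (S.fr a z) -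
          (A - S.D x) (S.D x (S.fr a z)) := by
        rw [_root_.sub_apply, _root_.sub_apply, g1, S.D_D hx]
        abel
      rw [g3]
      have b1 := (S.D z - S.D x).le_of_opNorm_le hDz (S.fr a z)
      have b2 := (A - S.D x).le_of_opNorm_le hDh (S.D x (S.fr a z))
      have b3 := (S.D x).le_of_opNorm_le hDx (S.fr a z)
      calc _ ≤ ‖(S.D z - S.D x) (S.fr a z)‖ + ‖(A - S.D x) (S.D x (S.fr a z))‖ :=
            norm_sub_le _ _
        _ ≤ C * ‖h‖ * C + C * ‖h‖ * (C * C) := by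
            refine add_le_add (b1.trans (by gcongr)) (b2.trans ?_)
            gcongr
            exact b3.trans (by gcongr)
        _ ≤ 2 * C ^ 3 * ‖h‖ := by
            have : C ^ 2 * ‖h‖ ≤ C ^ 3 * ‖h‖ := by
              have : C ^ 2 ≤ C ^ 3 := pow_le_pow_right₀ hC1 (by norm_num)
              gcongr
            linarith only [this]
    have g4 := hqadd (A (S.D x (S.fr a z))) (S.fr a z - A (S.D x (S.fr a z)))
    rw [← hdec] at g4
    have g5 := hqle _ _ het hen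
    have g6 : q (A (S.D x (S.fr a z))) ≤ 4 * C ^ 4 * (q (A (S.fr 0 x)) + q (A (S.fr 1 x)) +
        q (A (S.fr 2 x)) + q (A (S.fr 3 x))) := by
      rw [← hsum]
      simp only [map_add, map_smul]
      have p1 := hqadd (S.crd x (S.fr a z) 0 • A (S.fr 0 x) + S.crd x (S.fr a z) 1 • A (S.fr 1 x))
        (S.crd x (S.fr a z) 2 • A (S.fr 2 x) + S.crd x (S.fr a z) 3 • A (S.fr 3 x))
      have p2 := hqadd (S.crd x (S.fr a z) 0 • A (S.fr 0 x)) (S.crd x (S.fr a z) 1 • A (S.fr 1 x))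
      have p3 := hqadd (S.crd x (S.fr a z) 2 • A (S.fr 2 x)) (S.crd x (S.fr a z) 3 • A (S.fr 3 x))
      rw [← add_assoc] at p1
      have p4 : ∀ b, q (S.crd x (S.fr a z) b • A (S.fr b x)) ≤ C ^ 4 * q (A (S.fr b x)) := by
        intro b
        rw [hqsmul]
        exact mul_le_mul_of_nonneg_right (ht b) (hqn _)
      have p5 := p4 0
      have p6 := p4 1
      have p7 := p4 2
      have p8 := p4 3
      linarith
    have g7 : ‖c‖ * (C * (2 * C ^ 3 * ‖h‖) ^ 2) ≤ 4 * C ^ 7 * ‖c‖ * ‖h‖ := by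
      have : ‖c‖ * (C * (2 * C ^ 3 * ‖h‖) ^ 2) = 4 * C ^ 7 * ‖c‖ * ‖h‖ ^ 2 := by ring
      rw [this]
      gcongr
    linarith
  -- step 2: the trace
  have st2 : 2 * ‖c‖ ≤ q (S.fr 0 z) + q (S.fr 1 z) + q (S.fr 2 z) + q (S.fr 3 z) := by
    have hpr : pr1 c = c := by
      have := pr1_add_pr2 c
      rw [hc2, add_zero] at this
      exact this
    have g1 := hc.norm_pr1_le
    rw [hpr, wedge_Fc] at g1
    have g2 : q (S.fr 0 z) = c 0 := by
      simp [hq, evc, crd, S.th_fr hzX]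
    have g3 : q (S.fr 1 z) = c 0 := by
      simp [hq, evc, crd, S.th_fr hzX]
    have g4 : q (S.fr 2 z) = c 5 := by
      simp [hq, evc, crd, S.th_fr hzX]
    have g5 : q (S.fr 3 z) = c 5 := by
      simp [hq, evc, crd, S.th_fr hzX]
    rw [g2, g3, g4, g5]
    linarith
  -- step 3: the frame vectors 1 and 3
  have st3 : ∀ a b, S.J x (S.fr a x) = S.fr b x →
      q (A (S.fr b x)) ≤ 2 * q (A (S.fr a x)) + 2 * (C ^ 5 * ‖c‖ * ‖h‖) := by
    intro a b hab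
    have g1 := he (S.fr a x) (S.fr_tan x hx a)
    rw [hab] at g1
    have g2 : A (S.fr b x) = S.J z (A (S.fr a x)) + (A (S.fr b x) - S.J z (A (S.fr a x))) := by
      abel
    have g3 := hqadd (S.J z (A (S.fr a x))) (A (S.fr b x) - S.J z (A (S.fr a x)))
    rw [← g2] at g3
    have g4 : q (S.J z (A (S.fr a x))) = q (A (S.fr a x)) := S.Second_evc_J hzX c _
    have g5 : S.Tan z (A (S.fr b x) - S.J z (A (S.fr a x))) := by
      show S.D z _ = _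
      rw [map_sub]
      have k1 : S.D z (A (S.fr b x)) = A (S.fr b x) := hAt _
      have k2 : S.D z (S.J z (A (S.fr a x))) = S.J z (A (S.fr a x)) := S.D_J z hzX _
      rw [k1, k2]
    have g6 : ‖A (S.fr b x) - S.J z (A (S.fr a x))‖ ≤ C * ‖h‖ * C :=
      g1.trans (by gcongr; exact (hfr a).1)
    have g7 := hqle _ _ g5 g6
    have g8 : ‖c‖ * (C * (C * ‖h‖ * C) ^ 2) ≤ C ^ 5 * ‖c‖ * ‖h‖ := by
      have : ‖c‖ * (C * (C * ‖h‖ * C) ^ 2) = C ^ 5 * ‖c‖ * ‖h‖ ^ 2 := by ring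
      rw [this]
      gcongr
    linarith
  -- step 4: the values
  have st4 : ∀ a, q (A (S.fr a x)) ≤ S.val x h (S.fr a x) c + C ^ 5 * ‖c‖ * ‖h‖ := by
    intro a
    have g1 := S.Second_val_split hzX (S.fr a x) c
    have g2 := S.Second_err hC1 (hfr a).1 hD (he _ (S.fr_tan x hx a)) c (hrc c)
    have g3 := (abs_le.1 g2).1
    rw [g1]
    simp only [hq]
    linarith
  have k0 := st1 0
  have k1 := st1 1
  have k2 := st1 2
  have k3 := st1 3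
  have l1 := st3 0 1 (S.fr_J0 x hx)
  have l3 := st3 2 3 (S.fr_J2 x hx)
  have m0 := st4 0
  have m2 := st4 2
  set V := S.val x h (S.fr 0 x) c + S.val x h (S.fr 2 x) c with hV
  set T := ‖c‖ * ‖h‖ with hT
  have hTn : 0 ≤ T := by positivity
  have n1 : q (A (S.fr 0 x)) + q (A (S.fr 1 x)) + q (A (S.fr 2 x)) + q (A (S.fr 3 x)) ≤
      3 * V + 10 * (C ^ 5 * T) := by
    have e1 : C ^ 5 * ‖c‖ * ‖h‖ = C ^ 5 * T := by rw [hT]; ring
    rw [e1] at l1 l3 m0 m2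
    linarith
  have n2 : 2 * ‖c‖ ≤ 32 * C ^ 4 * (3 * V + 10 * (C ^ 5 * T)) + 32 * C ^ 7 * T := by
    have e1 : 8 * C ^ 7 * ‖c‖ * ‖h‖ = 8 * C ^ 7 * T := by rw [hT]; ring
    rw [e1] at k0 k1 k2 k3
    have e2 := mul_le_mul_of_nonneg_left n1 (by positivity : (0 : ℝ) ≤ 32 * C ^ 4)
    linarith
  have n3 : 32 * C ^ 7 * T ≤ 32 * C ^ 9 * T := by
    have : C ^ 7 ≤ C ^ 9 := pow_le_pow_right₀ hC1 (by norm_num)
    gcongr
  have n4 : 352 * C ^ 9 * T ≤ ‖c‖ := by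
    have e1 : 352 * C ^ 9 * ‖h‖ ≤ 1 := by
      calc 352 * C ^ 9 * ‖h‖ ≤ 352 * C ^ 9 * (352 * C ^ 9)⁻¹ := by gcongr
        _ = 1 := mul_inv_cancel₀ (by positivity)
    calc 352 * C ^ 9 * T = (352 * C ^ 9 * ‖h‖) * ‖c‖ := by rw [hT]; ring
      _ ≤ 1 * ‖c‖ := by gcongr
      _ = ‖c‖ := one_mul _
  have n5 : ‖c‖ ≤ 96 * C ^ 4 * V := by
    have e1 : 32 * C ^ 4 * (3 * V + 10 * (C ^ 5 * T)) = 96 * C ^ 4 * V + 320 * C ^ 9 * T := by ring
    rw [e1] at n2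
    linarith
  calc (96 * C ^ 4)⁻¹ * ‖c‖ ≤ (96 * C ^ 4)⁻¹ * (96 * C ^ 4 * V) := by gcongr
    _ = V := by rw [← mul_assoc, inv_mul_cancel₀ (by positivity), one_mul]

/-- The fundamental form F itself, pulled back, stays close to 1 on unit vectors: lower bound for
small h, upper bound always. -/
theorem val_F : ∃ d₁ : ℝ, 0 < d₁ ∧ d₁ ≤ S.d0 ∧ ∀ z ∈ S.X1, ∀ h : EN N, ‖h‖ < d₁ →
    1 / 2 ≤ S.val z.1 h z.2 Fc := by
  obtain ⟨C₀, hC₀, hX1, hC⟩ := S.Second_data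
  obtain ⟨L1, hL1, hl1⟩ := S.smooth_lip (fun y => S.J (S.rho y)) (S.smooth_J.comp S.smooth_rho)
  obtain ⟨L2, hL2, hl2⟩ := S.smooth_lip (fun y => S.om (S.rho y)) (S.smooth_om.comp S.smooth_rho)
  set C := C₀ + L1 + L2 with hCdef
  have hC1 : 1 ≤ C := by linarith
  have c0 : C₀ ≤ C := by linarith
  have c1 : L1 ≤ C := by linarith
  have c2 : L2 ≤ C := by linarith
  have h0 : 0 < C := by linarith
  have hFn : 0 < ‖Fc‖ + 1 := by positivity
  refine ⟨min S.d0 (2 * (4 * C ^ 6 + C ^ 5 * ‖Fc‖))⁻¹, lt_min S.d0_pos (by positivity),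
    min_le_left _ _, fun z hz h hh => ?_⟩
  obtain ⟨x, v⟩ := z
  have hh0 : ‖h‖ < S.d0 := hh.trans_le (min_le_left _ _)
  have hh1 : ‖h‖ ≤ 1 := hh0.le.trans S.d0_le
  have hh2 : ‖h‖ ≤ (2 * (4 * C ^ 6 + C ^ 5 * ‖Fc‖))⁻¹ := hh.le.trans (min_le_right _ _)
  have hhn : 0 ≤ ‖h‖ := norm_nonneg h
  obtain ⟨hzX, ⟨hJx, hJz⟩, ⟨hDx, hD⟩, he, hrc, hcrd, hfr, hDz, hDh⟩ := hC x hz.1 h hh0
  have hxU : x + h ∈ S.U := S.tube x hz.1 h hh0.le
  have hv : ‖v‖ ≤ C := (hX1 (x, v) hz).trans c0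
  have hDv : S.D x v = v := hz.2.1
  have hnorm : S.om x v (S.J x v) = 1 := hz.2.2
  show 1 / 2 ≤ S.val x h v Fc
  rw [S.Second_val_split hzX, evc_Fc, S.norm_crd_sq hzX _ (S.D_rho_D hxU v)]
  have g2 := S.Second_err hC1 hv (hD.trans c0) ((he _ hz.2.1).trans (by gcongr)) Fc
    ((hrc Fc).trans (by gcongr))
  have g3 := (abs_le.1 g2).1
  set z := S.rho (x + h) with hzdef
  set w := S.D (x + h) v with hw
  have hrx : S.rho x = x := S.rho_fix x hz.1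
  have b1 : ‖S.J z - S.J x‖ ≤ C * ‖h‖ := by
    have := (hl1 x hz.1 h hh1).1
    simp only [hrx] at this
    exact this.trans (by gcongr)
  have b2 : ‖S.om z - S.om x‖ ≤ C * ‖h‖ := by
    have := (hl2 x hz.1 h hh1).1
    simp only [hrx] at this
    exact this.trans (by gcongr)
  have b3 : ‖S.om x‖ ≤ C := by
    have := (hl2 x hz.1 0 (by simp)).2.1
    simp only [add_zero, hrx] at this
    exact this.trans c2
  have b4 : ‖w - v‖ ≤ C ^ 2 * ‖h‖ := by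
    have e1 : w - v = (S.D (x + h) - S.D x) v := by
      rw [_root_.sub_apply, hDv]
    rw [e1]
    calc _ ≤ C₀ * ‖h‖ * ‖v‖ := (S.D (x + h) - S.D x).le_of_opNorm_le hDh v
      _ ≤ C * ‖h‖ * C := by gcongr
      _ = C ^ 2 * ‖h‖ := by ring
  have b5 : ‖w‖ ≤ C ^ 2 := by
    calc _ ≤ C₀ * ‖v‖ := (S.D (x + h)).le_of_opNorm_le hD v
      _ ≤ C * C := by gcongr
      _ = C ^ 2 := by ring
  have b6 : ‖S.J z w‖ ≤ C ^ 3 := by
    calc _ ≤ C₀ * ‖w‖ := (S.J z).le_of_opNorm_le hJz w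
      _ ≤ C * C ^ 2 := by gcongr
      _ = C ^ 3 := by ring
  have b7 : ‖S.J z w - S.J x v‖ ≤ 2 * C ^ 3 * ‖h‖ := by
    have e1 : S.J z w - S.J x v = (S.J z - S.J x) w + S.J x (w - v) := by
      rw [_root_.sub_apply, map_sub]
      abel
    rw [e1]
    calc _ ≤ ‖(S.J z - S.J x) w‖ + ‖S.J x (w - v)‖ := norm_add_le _ _
      _ ≤ C * ‖h‖ * C ^ 2 + C * (C ^ 2 * ‖h‖) := by
          refine add_le_add (((S.J z - S.J x).le_of_opNorm_le b1 w).trans (by gcongr))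
            (((S.J x).le_of_opNorm_le (hJx.trans c0) _).trans (by gcongr))
      _ = 2 * C ^ 3 * ‖h‖ := by ring
  have e1 : S.om z w (S.J z w) - S.om x v (S.J x v) = (S.om z - S.om x) w (S.J z w) +
      S.om x (w - v) (S.J z w) + S.om x v (S.J z w - S.J x v) := by
    simp only [Bil.sub_apply, Bil.sub_left, Bil.sub_right]
    ring
  have a1 : |(S.om z - S.om x) w (S.J z w)| ≤ C ^ 6 * ‖h‖ := by
    calc _ ≤ ‖S.om z - S.om x‖ * ‖w‖ * ‖S.J z w‖ := Bil.abs_apply_le _ _ _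
      _ ≤ (C * ‖h‖) * C ^ 2 * C ^ 3 := by gcongr
      _ = C ^ 6 * ‖h‖ := by ring
  have a2 : |S.om x (w - v) (S.J z w)| ≤ C ^ 6 * ‖h‖ := by
    calc _ ≤ ‖S.om x‖ * ‖w - v‖ * ‖S.J z w‖ := Bil.abs_apply_le _ _ _
      _ ≤ C * (C ^ 2 * ‖h‖) * C ^ 3 := by gcongr
      _ = C ^ 6 * ‖h‖ := by ring
  have a3 : |S.om x v (S.J z w - S.J x v)| ≤ 2 * (C ^ 6 * ‖h‖) := by
    calc _ ≤ ‖S.om x‖ * ‖v‖ * ‖S.J z w - S.J x v‖ := Bil.abs_apply_le _ _ _
      _ ≤ C * C * (2 * C ^ 3 * ‖h‖) := by gcongr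
      _ = 2 * (C ^ 5 * ‖h‖) := by ring
      _ ≤ 2 * (C ^ 6 * ‖h‖) := by
          have : C ^ 5 ≤ C ^ 6 := pow_le_pow_right₀ hC1 (by norm_num)
          gcongr
  have a4 : ‖h‖ * (4 * C ^ 6 + C ^ 5 * ‖Fc‖) ≤ 1 / 2 := by
    calc ‖h‖ * (4 * C ^ 6 + C ^ 5 * ‖Fc‖) ≤
        (2 * (4 * C ^ 6 + C ^ 5 * ‖Fc‖))⁻¹ * (4 * C ^ 6 + C ^ 5 * ‖Fc‖) := by gcongr
      _ = 1 / 2 := by field_simp
  have a1' := (abs_le.1 a1).1
  have a2' := (abs_le.1 a2).1
  have a3' := (abs_le.1 a3).1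
  linarith only [a1', a2', a3', a4, e1, g3, hnorm]

end Setup

end Pool.Agent.W_MP_d8b8b7_gt
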