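import Pool.Agent.W_MP_d8b8b7_gt.RbAlg
import Pool.Agent.W_MP_d8b8b7_gt.Second

/-!
# L2 bounds and L2 convergence of the regularisation
-/

namespace Pool.Agent.W_MP_d8b8b7_gt

open MeasureTheory Set Filter Topology
open scoped ContDiff ENNReal

variable {N : ℕ}

namespace Setup

variable (S : Setup N)

/-- Fubini with `ker_up` and `vol_ball`:
∫_X ∫_{|s|<1} f (rho (x + δ s)) ds dν(x) ≤ C δ^{-4} ∫ f(y) ν(B(y, C1 δ)) dν(y) ≤ C ∫ f dν. -/
theorem lintegral_ker_le : ∃ C : ℝ, 0 ≤ C ∧ ∀ δ : ℝ, 0 < δ → δ ≤ S.d0 / 2 →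
    ∀ f : EN N → ℝ≥0∞, Measurable f →
      ∫⁻ x, ∫⁻ s in Metric.ball 0 1, f (S.rho (x + δ • s)) ∂volume ∂S.nu ≤
        ENNReal.ofReal C * ∫⁻ y, f y ∂S.nu := by
  have hC1 : 0 ≤ S.C1 := zero_le_one.trans S.one_le_C1
  have hC1' : 0 < S.C1 := zero_lt_one.trans_le S.one_le_C1
  refine ⟨S.C1 * (S.C1 * S.C1 ^ 4), by positivity, fun δ hδ hδ' f hf => ?_⟩
  have hδ0 : δ ≤ S.d0 := by linarith [S.d0_pos]
  have hr : 0 < S.C1 * δ := by positivity
  have h1 : ∫⁻ x, ∫⁻ s in Metric.ball 0 1, f (S.rho (x + δ • s)) ∂volume ∂S.nu ≤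
      ∫⁻ x, ENNReal.ofReal (S.C1 * δ⁻¹ ^ 4) *
        ∫⁻ y in Metric.closedBall x (S.C1 * δ), f y ∂S.nu ∂S.nu := by
    apply lintegral_mono_ae
    filter_upwards [S.ae_mem_X] with x hx
    exact S.ker_up x hx δ hδ hδ0 f hf
  have h2 : ∀ x : EN N, ∫⁻ y in Metric.closedBall x (S.C1 * δ), f y ∂S.nu =
      ∫⁻ y, {p : EN N × EN N | dist p.2 p.1 ≤ S.C1 * δ}.indicator (fun p => f p.2) (x, y) ∂S.nu := by
    intro x
    rw [← lintegral_indicator Metric.isClosed_closedBall.measurableSet]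
    rfl
  have hset : MeasurableSet {p : EN N × EN N | dist p.2 p.1 ≤ S.C1 * δ} :=
    (isClosed_le (continuous_snd.dist continuous_fst) continuous_const).measurableSet
  have hmeas : Measurable (fun p : EN N × EN N =>
      {p : EN N × EN N | dist p.2 p.1 ≤ S.C1 * δ}.indicator (fun p => f p.2) p) :=
    (hf.comp measurable_snd).indicator hset
  have h3 : ∫⁻ x, ∫⁻ y, {p : EN N × EN N | dist p.2 p.1 ≤ S.C1 * δ}.indicator
      (fun p => f p.2) (x, y) ∂S.nu ∂S.nu =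
      ∫⁻ y, ∫⁻ x, {p : EN N × EN N | dist p.2 p.1 ≤ S.C1 * δ}.indicator
      (fun p => f p.2) (x, y) ∂S.nu ∂S.nu :=
    lintegral_lintegral_swap (f := fun x y => {p : EN N × EN N | dist p.2 p.1 ≤ S.C1 * δ}.indicator
      (fun p => f p.2) (x, y)) hmeas.aemeasurable
  have h4 : ∀ y : EN N, ∫⁻ x, {p : EN N × EN N | dist p.2 p.1 ≤ S.C1 * δ}.indicator
      (fun p => f p.2) (x, y) ∂S.nu ≤ ENNReal.ofReal (S.C1 * (S.C1 * δ) ^ 4) * f y := by
    intro y
    have h5 : ∀ x, {p : EN N × EN N | dist p.2 p.1 ≤ S.C1 * δ}.indicator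
        (fun p => f p.2) (x, y) = (Metric.closedBall y (S.C1 * δ)).indicator (fun _ => f y) x := by
      intro x
      by_cases hx : dist y x ≤ S.C1 * δ
      · rw [indicator_of_mem (by exact hx), indicator_of_mem]
        rw [Metric.mem_closedBall, dist_comm]
        exact hx
      · rw [indicator_of_notMem (by exact hx), indicator_of_notMem]
        rw [Metric.mem_closedBall, dist_comm]
        exact hx
    simp_rw [h5]
    rw [lintegral_indicator Metric.isClosed_closedBall.measurableSet, setLIntegral_const, mul_comm]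
    gcongr
    exact S.vol_ball y _ hr
  refine h1.trans ?_
  rw [lintegral_const_mul' _ _ ENNReal.ofReal_ne_top]
  simp_rw [h2]
  rw [h3]
  calc ENNReal.ofReal (S.C1 * δ⁻¹ ^ 4) * ∫⁻ y, ∫⁻ x,
      {p : EN N × EN N | dist p.2 p.1 ≤ S.C1 * δ}.indicator (fun p => f p.2) (x, y) ∂S.nu ∂S.nu
      ≤ ENNReal.ofReal (S.C1 * δ⁻¹ ^ 4) * ∫⁻ y, ENNReal.ofReal (S.C1 * (S.C1 * δ) ^ 4) * f y ∂S.nu := by
        gcongr with y
        exact h4 y
    _ = ENNReal.ofReal (S.C1 * (S.C1 * S.C1 ^ 4)) * ∫⁻ y, f y ∂S.nu := by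
        rw [lintegral_const_mul' _ _ ENNReal.ofReal_ne_top, ← mul_assoc,
          ← ENNReal.ofReal_mul (by positivity)]
        congr 2
        field_simp

/-- L2 norm and lintegral -/
theorem RbL2_lint {b : EN N → C6} (hb : S.L2F b) :
    ∫⁻ y, ‖b y‖ₑ ^ 2 ∂S.nu = ENNReal.ofReal (S.nrm b ^ 2) := by
  rw [S.nrm_sq, ofReal_integral_eq_lintegral_ofReal (L2F.integrable_sq S hb)
    (ae_of_all _ fun x => sq_nonneg _)]
  apply lintegral_congr
  intro y
  rw [ENNReal.ofReal_pow (norm_nonneg _), ofReal_norm]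

theorem RbL2_nrm_le {g : EN N → C6} {K : ℝ} (hK : 0 ≤ K)
    (h : ∫⁻ x, ‖g x‖ₑ ^ 2 ∂S.nu ≤ ENNReal.ofReal (K ^ 2)) : S.nrm g ≤ K := by
  have h1 : S.nrm g ^ 2 ≤ K ^ 2 := by
    rw [S.nrm_sq]
    by_cases hi : Integrable (fun x => ‖g x‖ ^ 2) S.nu
    · have h2 := ofReal_integral_eq_lintegral_ofReal hi (ae_of_all _ fun x => sq_nonneg _)
      have h3 : ∫⁻ x, ENNReal.ofReal (‖g x‖ ^ 2) ∂S.nu = ∫⁻ x, ‖g x‖ₑ ^ 2 ∂S.nu := by
        apply lintegral_congr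
        intro y
        rw [ENNReal.ofReal_pow (norm_nonneg _), ofReal_norm]
      rw [h3] at h2
      rw [← h2] at h
      exact (ENNReal.ofReal_le_ofReal_iff (by positivity)).1 h
    · rw [integral_undef hi]
      positivity
  exact (sq_le_sq₀ (S.nrm_nonneg _) hK).1 h1

/-- Cauchy-Schwarz on the unit ball -/
theorem RbL2_cs {f : EN N → ℝ≥0∞} (hf : Measurable f) :
    (∫⁻ s in Metric.ball (0 : EN N) 1, f s) ^ 2 ≤
      volume (Metric.ball (0 : EN N) 1) * ∫⁻ s in Metric.ball (0 : EN N) 1, f s ^ 2 := by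
  have h := ENNReal.lintegral_mul_le_Lp_mul_Lq (volume.restrict (Metric.ball (0 : EN N) 1))
    Real.HolderConjugate.two_two (f := f) (g := fun _ => 1) hf.aemeasurable aemeasurable_const
  simp only [Pi.mul_apply, mul_one, ENNReal.rpow_ofNat, lintegral_const, one_pow, one_mul,
    Measure.restrict_apply_univ] at h
  calc (∫⁻ s in Metric.ball (0 : EN N) 1, f s) ^ 2
      ≤ ((∫⁻ s in Metric.ball (0 : EN N) 1, f s ^ 2) ^ ((1 : ℝ) / 2) *
        volume (Metric.ball (0 : EN N) 1) ^ ((1 : ℝ) / 2)) ^ 2 := by gcongr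
    _ = volume (Metric.ball (0 : EN N) 1) * ∫⁻ s in Metric.ball (0 : EN N) 1, f s ^ 2 := by
        rw [mul_pow, ← ENNReal.rpow_natCast, ← ENNReal.rpow_natCast, ← ENNReal.rpow_mul,
          ← ENNReal.rpow_mul]
        norm_num
        rw [mul_comm]

/-- a pointwise bound by the average over the ball of radius δ gives an L2 bound -/
theorem RbL2_key : ∃ C : ℝ, 0 ≤ C ∧ ∀ δ : ℝ, 0 < δ → δ ≤ S.d0 / 2 →
    ∀ b : EN N → C6, S.L2F b → ∀ K : ℝ, 0 ≤ K → ∀ g : EN N → C6,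
      (∀ x ∈ S.X, ‖g x‖ ≤ K * ∫ s in Metric.ball 0 1, ‖b (S.rho (x + δ • s))‖) →
      (∫⁻ x, ‖g x‖ₑ ^ 2 ∂S.nu ≤ ENNReal.ofReal ((C * K * S.nrm b) ^ 2)) ∧
      S.nrm g ≤ C * K * S.nrm b := by
  obtain ⟨C, hC, hker⟩ := S.lintegral_ker_le
  set w : ℝ := (volume (Metric.ball (0 : EN N) 1)).toReal with hw
  have hw0 : 0 ≤ w := ENNReal.toReal_nonneg
  have hwv : volume (Metric.ball (0 : EN N) 1) = ENNReal.ofReal w := by
    rw [hw, ENNReal.ofReal_toReal measure_ball_lt_top.ne]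
  refine ⟨Real.sqrt (w * C), Real.sqrt_nonneg _, fun δ hδ hδ' b hb K hK g hg => ?_⟩
  have hn := S.nrm_nonneg b
  have h0 : 0 ≤ Real.sqrt (w * C) * K * S.nrm b := by positivity
  have main : ∫⁻ x, ‖g x‖ₑ ^ 2 ∂S.nu ≤ ENNReal.ofReal ((Real.sqrt (w * C) * K * S.nrm b) ^ 2) := by
    have hpt : ∀ x ∈ S.X, ‖g x‖ₑ ^ 2 ≤ ENNReal.ofReal (K ^ 2 * w) *
        ∫⁻ s in Metric.ball (0 : EN N) 1, ‖b (S.rho (x + δ • s))‖ₑ ^ 2 := by
      intro x hx
      have hbx : Measurable (fun s : EN N => b (S.rho (x + δ • s))) :=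
        hb.meas.comp (S.measurable_rho.comp ((measurable_const_smul δ).const_add x))
      have e1 : ‖g x‖ₑ ≤ ENNReal.ofReal K *
          ∫⁻ s in Metric.ball (0 : EN N) 1, ‖b (S.rho (x + δ • s))‖ₑ := by
        rw [← ofReal_norm]
        refine (ENNReal.ofReal_le_ofReal (hg x hx)).trans ?_
        rw [ENNReal.ofReal_mul hK]
        gcongr
        have e2 := enorm_integral_le_lintegral_enorm (μ := volume.restrict (Metric.ball (0 : EN N) 1))
          (fun s : EN N => ‖b (S.rho (x + δ • s))‖)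
        rw [← ofReal_norm, Real.norm_of_nonneg (integral_nonneg fun s => norm_nonneg _)] at e2
        simpa using e2
      calc ‖g x‖ₑ ^ 2 ≤ (ENNReal.ofReal K *
          ∫⁻ s in Metric.ball (0 : EN N) 1, ‖b (S.rho (x + δ • s))‖ₑ) ^ 2 := by gcongr
        _ ≤ ENNReal.ofReal K ^ 2 * (volume (Metric.ball (0 : EN N) 1) *
            ∫⁻ s in Metric.ball (0 : EN N) 1, ‖b (S.rho (x + δ • s))‖ₑ ^ 2) := by
            rw [mul_pow]
            gcongr
            exact RbL2_cs hbx.enorm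
        _ = _ := by
            rw [hwv, ← mul_assoc, ← ENNReal.ofReal_pow hK, ← ENNReal.ofReal_mul (by positivity)]
    calc ∫⁻ x, ‖g x‖ₑ ^ 2 ∂S.nu ≤ ∫⁻ x, ENNReal.ofReal (K ^ 2 * w) *
        ∫⁻ s in Metric.ball (0 : EN N) 1, ‖b (S.rho (x + δ • s))‖ₑ ^ 2 ∂volume ∂S.nu := by
          apply lintegral_mono_ae
          filter_upwards [S.ae_mem_X] with x hx
          exact hpt x hx
      _ = ENNReal.ofReal (K ^ 2 * w) * ∫⁻ x,
          ∫⁻ s in Metric.ball (0 : EN N) 1, ‖b (S.rho (x + δ • s))‖ₑ ^ 2 ∂volume ∂S.nu :=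
          lintegral_const_mul' _ _ ENNReal.ofReal_ne_top
      _ ≤ ENNReal.ofReal (K ^ 2 * w) * (ENNReal.ofReal C * ∫⁻ y, ‖b y‖ₑ ^ 2 ∂S.nu) := by
          gcongr
          exact hker δ hδ hδ' (fun y => ‖b y‖ₑ ^ 2) (hb.meas.enorm.pow_const 2)
      _ = ENNReal.ofReal ((Real.sqrt (w * C) * K * S.nrm b) ^ 2) := by
          rw [S.RbL2_lint hb, ← ENNReal.ofReal_mul hC, ← ENNReal.ofReal_mul (by positivity)]
          congr 1
          rw [mul_pow, mul_pow, Real.sq_sqrt (by positivity)]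
          ring
  exact ⟨main, S.RbL2_nrm_le h0 main⟩

/-- components of a smooth form are L2F (`L2F_cp`); the regularisation is bounded in L2 uniformly in
δ: ‖cp (Rb p δ b) x‖^2 ≤ C ∫_{|s|<1} ‖b (rho (x + δ s))‖^2 ds by `norm_Rb_le` and Cauchy-Schwarz. -/
theorem nrm_cp_Rb_le : ∃ C : ℝ, 0 ≤ C ∧ ∀ δ : ℝ, 0 < δ → δ ≤ S.d0 / 2 →
    ∀ p : EN N → ℝ, Continuous p → (∀ s, |p s| ≤ 1) → (∀ s, 1 ≤ ‖s‖ → p s = 0) →
    ∀ b : EN N → C6, S.L2F b → S.nrm (S.cp (S.Rb p δ b)) ≤ C * S.nrm b := by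
  obtain ⟨C1, hC1, h1⟩ := S.RbL2_key
  obtain ⟨C2, hC2, h2⟩ := S.norm_Rb_le
  obtain ⟨C3, hC3, h3, -, -⟩ := S.exists_bound
  have hC3' : 0 ≤ C3 := by linarith
  refine ⟨C1 * (C3 * C2), by positivity, fun δ hδ hδ' p _ hp1 hps b hb => ?_⟩
  refine (h1 δ hδ hδ' b hb (C3 * C2) (by positivity) (S.cp (S.Rb p δ b)) ?_).2
  intro x hx
  calc ‖S.cp (S.Rb p δ b) x‖ ≤ C3 * ‖S.Rb p δ b x‖ := (h3 x hx).2.2.2.2.2 _
    _ ≤ C3 * (C2 * ∫ s in Metric.ball 0 1, ‖b (S.rho (x + δ • s))‖) := by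
        gcongr
        exact h2 x hx δ hδ hδ' p hp1 hps b hb
    _ = _ := by ring

/-- integrability of the integrand of `Op` for a continuous profile -/
theorem RbL2_integrable_Op {p : EN N → ℝ} (hp : Continuous p) (hps : ∀ s, 1 ≤ ‖s‖ → p s = 0)
    (A : EN N → EN N → (Bil N →L[ℝ] Bil N))
    (hA : ContDiff ℝ ∞ (fun z : EN N × EN N => A z.1 z.2)) {δ : ℝ} (hδ : 0 < δ)
    {b : EN N → C6} (hb : S.L2F b) (x : EN N) :
    Integrable (fun s : EN N => p s • A (δ • s) x (S.ex b (x + δ • s))) volume := by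
  have hg : Integrable (fun s : EN N => S.ex b (x + δ • s)) volume := by
    have h1 : Integrable (fun z : EN N => S.ex b (x + z)) volume :=
      (S.integrable_ex hb).comp_add_left x
    exact h1.comp_smul hδ.ne'
  have hLc : Continuous (fun s : EN N => p s • A (δ • s) x) := by
    refine hp.smul ?_
    have : Continuous (fun s : EN N => (δ • s, x)) := by fun_prop
    exact hA.continuous.comp this
  obtain ⟨C, hC⟩ := (isCompact_closedBall (0 : EN N) 1).exists_bound_of_continuousOn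
    hLc.continuousOn
  have hbd : ∀ s : EN N, ‖p s • A (δ • s) x‖ ≤ max C 0 := by
    intro s
    by_cases hs : 1 ≤ ‖s‖
    · rw [hps s hs, zero_smul, norm_zero]
      exact le_max_right _ _
    · refine (hC s ?_).trans (le_max_left _ _)
      rw [mem_closedBall_zero_iff]
      exact (not_le.1 hs).le
  refine Integrable.mono' (hg.norm.const_mul (max C 0)) ?_ (Filter.Eventually.of_forall ?_)
  · exact ContinuousLinearMap.aestronglyMeasurable_comp₂
      (ContinuousLinearMap.id ℝ (Bil N →L[ℝ] Bil N)) hLc.aestronglyMeasurable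
      hg.aestronglyMeasurable
  · intro s
    have h1 := (p s • A (δ • s) x).le_opNorm (S.ex b (x + δ • s))
    exact h1.trans (mul_le_mul_of_nonneg_right (hbd s) (norm_nonneg _))

/-- integrability of the integrand of `Rb` for a continuous profile -/
theorem RbL2_integrable {p : EN N → ℝ} (hp : Continuous p) (hps : ∀ s, 1 ≤ ‖s‖ → p s = 0)
    {δ : ℝ} (hδ : 0 < δ) {b : EN N → C6} (hb : S.L2F b) (x : EN N) :
    Integrable (fun s : EN N => p s • Bil.pull (S.D (x + δ • s)) (S.ex b (x + δ • s))) volume := by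
  have h := S.RbL2_integrable_Op hp hps S.ampR S.smooth_ampR hδ hb x
  simp only [ampR_apply] at h
  exact h

theorem RbL2_add {p : EN N → ℝ} (hp : Continuous p) (hps : ∀ s, 1 ≤ ‖s‖ → p s = 0) {δ : ℝ}
    (hδ : 0 < δ) {b b' : EN N → C6} (hb : S.L2F b) (hb' : S.L2F b') :
    S.Rb p δ (b + b') = S.Rb p δ b + S.Rb p δ b' := by
  ext1 x
  have h1 := S.RbL2_integrable hp hps hδ hb x
  have h2 := S.RbL2_integrable hp hps hδ hb' x
  change (∫ s, p s • Bil.pull (S.D (x + δ • s)) (S.ex (b + b') (x + δ • s))) =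
    (∫ s, p s • Bil.pull (S.D (x + δ • s)) (S.ex b (x + δ • s))) +
      ∫ s, p s • Bil.pull (S.D (x + δ • s)) (S.ex b' (x + δ • s))
  rw [← integral_add h1 h2]
  congr 1
  ext1 s
  rw [S.ex_add, ← smul_add]
  rfl

/-- measurability of the regularisation -/
theorem RbL2_measurable {p : EN N → ℝ} (hp : Continuous p) (δ : ℝ) {b : EN N → C6}
    (hb : Measurable b) : Measurable (S.Rb p δ b) := by
  have hadd : Measurable (fun z : EN N × EN N => z.1 + δ • z.2) :=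
    (continuous_fst.add (continuous_snd.const_smul δ)).measurable
  have h : Measurable (fun z : EN N × EN N =>
      p z.2 • Bil.pull (S.D (z.1 + δ • z.2)) (S.ex b (z.1 + δ • z.2))) := by
    rw [Bil.measurable_iff]
    intro u v
    have hD : ∀ w : EN N, Measurable (fun z : EN N × EN N => S.D (z.1 + δ • z.2) w) := by
      intro w
      exact ((S.smooth_D.continuous.clm_apply continuous_const).measurable).comp hadd
    have h1 : Continuous fun q : Bil N × EN N × EN N => q.1 q.2.1 q.2.2 :=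
      PtBound_continuous_app continuous_fst (continuous_fst.comp continuous_snd)
        (continuous_snd.comp continuous_snd)
    have h2 := h1.measurable.comp (((S.measurable_ex hb).comp hadd).prodMk ((hD u).prodMk (hD v)))
    exact (hp.measurable.comp measurable_snd).mul h2
  exact (h.stronglyMeasurable.integral_prod_right' (ν := (volume : Measure (EN N)))).measurable

theorem RbL2_L2F : ∀ δ : ℝ, 0 < δ → δ ≤ S.d0 / 2 →
    ∀ p : EN N → ℝ, Continuous p → (∀ s, |p s| ≤ 1) → (∀ s, 1 ≤ ‖s‖ → p s = 0) →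
    ∀ b : EN N → C6, S.L2F b → S.L2F (S.cp (S.Rb p δ b)) := by
  obtain ⟨C1, hC1, h1⟩ := S.RbL2_key
  obtain ⟨C2, hC2, h2⟩ := S.norm_Rb_le
  obtain ⟨C3, hC3, h3, -, -⟩ := S.exists_bound
  have hC3' : 0 ≤ C3 := by linarith
  intro δ hδ hδ' p hp hp1 hps b hb
  have hm := S.measurable_cp (S.RbL2_measurable hp δ hb.meas)
  refine ⟨hm, hm.aestronglyMeasurable, ?_⟩
  rw [eLpNorm_lt_top_iff_lintegral_rpow_enorm_lt_top (by norm_num) (by norm_num)]
  simp only [ENNReal.toReal_ofNat, ENNReal.rpow_ofNat]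
  refine (h1 δ hδ hδ' b hb (C3 * C2) (by positivity) (S.cp (S.Rb p δ b)) ?_).1.trans_lt
    ENNReal.ofReal_lt_top
  intro x hx
  calc ‖S.cp (S.Rb p δ b) x‖ ≤ C3 * ‖S.Rb p δ b x‖ := (h3 x hx).2.2.2.2.2 _
    _ ≤ C3 * (C2 * ∫ s in Metric.ball 0 1, ‖b (S.rho (x + δ • s))‖) := by
        gcongr
        exact h2 x hx δ hδ hδ' p hp1 hps b hb
    _ = _ := by ring

/-- uniform continuity near X -/
theorem RbL2_unif {E : Type*} [NormedAddCommGroup E] {Φ : EN N → E} (hΦ : Continuous Φ) {ε : ℝ}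
    (hε : 0 < ε) : ∃ r : ℝ, 0 < r ∧ ∀ x ∈ S.X, ∀ h : EN N, ‖h‖ ≤ r → ‖Φ (x + h) - Φ x‖ ≤ ε := by
  obtain ⟨R, hR⟩ := S.cptX.isBounded.exists_norm_le
  have hK : IsCompact (Metric.closedBall (0 : EN N) (R + 1)) := isCompact_closedBall _ _
  have huc := hK.uniformContinuousOn_of_continuous hΦ.continuousOn
  rw [Metric.uniformContinuousOn_iff_le] at huc
  obtain ⟨r, hr, hru⟩ := huc ε hε
  refine ⟨min r 1, lt_min hr one_pos, fun x hx h hh => ?_⟩
  have hxR := hR x hx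
  have hxm : x ∈ Metric.closedBall (0 : EN N) (R + 1) := by
    rw [mem_closedBall_zero_iff]
    linarith
  have hym : x + h ∈ Metric.closedBall (0 : EN N) (R + 1) := by
    rw [mem_closedBall_zero_iff]
    exact (norm_add_le _ _).trans (add_le_add hxR (hh.trans (min_le_right _ _)))
  have h1 := hru (x + h) hym x hxm (by
    rw [dist_eq_norm, add_sub_cancel_left]
    exact hh.trans (min_le_left _ _))
  rwa [dist_eq_norm] at h1

/-- for a continuous field β of alternating forms the regularisation converges uniformly on X to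
(∫ p) β, on tangent vectors -/
theorem unif_Rb_cp {β : EN N → Bil N} (hβ : Continuous β) (halt : ∀ x v, β x v v = 0)
    {p : EN N → ℝ} (hp : Continuous p) (hps : ∀ s, 1 ≤ ‖s‖ → p s = 0) :
    ∀ ε : ℝ, 0 < ε → ∃ δ₀ : ℝ, 0 < δ₀ ∧ δ₀ ≤ S.d0 / 2 ∧ ∀ δ : ℝ, 0 < δ → δ ≤ δ₀ →
      ∀ x ∈ S.X, ‖S.cp (S.Rb p δ (S.cp β)) x - (∫ s, p s) • S.cp β x‖ ≤ ε := by
  intro ε hε
  obtain ⟨C, hC, hCx, -, -⟩ := S.exists_bound
  have hC0 : 0 < C := by linarith
  obtain ⟨Φ, hΦdef⟩ : ∃ Φ : EN N → Bil N, Φ = fun y =>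
    Bil.pull (S.D y) (Bil.pull (S.D (S.rho y)) (β (S.rho y))) := ⟨_, rfl⟩
  have hΦ : Continuous Φ := by
    rw [← contDiff_zero (𝕜 := ℝ), hΦdef]
    have hrho : ContDiff ℝ 0 S.rho := S.smooth_rho.of_le (by simp)
    have hD : ContDiff ℝ 0 S.D := S.smooth_D.of_le (by simp)
    exact Bil.contDiff_pull (Bil.contDiff_pull ((contDiff_zero.2 hβ).comp hrho) (hD.comp hrho)) hD
  have hpc : HasCompactSupport p := by
    refine HasCompactSupport.intro (isCompact_closedBall (0 : EN N) 1) fun s hs => ?_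
    rw [mem_closedBall_zero_iff, not_le] at hs
    exact hps s hs.le
  have hpi : Integrable p volume := hp.integrable_of_hasCompactSupport hpc
  obtain ⟨I, hI⟩ : ∃ I : ℝ, I = ∫ s, |p s| := ⟨_, rfl⟩
  have hI0 : 0 ≤ I := by
    rw [hI]
    exact integral_nonneg fun s => abs_nonneg _
  obtain ⟨r, hr, hu⟩ := S.RbL2_unif hΦ (ε := ε / (C * (I + 1))) (by positivity)
  refine ⟨min r (S.d0 / 2), lt_min hr (half_pos S.d0_pos), min_le_right _ _, ?_⟩
  intro δ hδ hδ' x hx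
  have hδ1 : δ ≤ r := hδ'.trans (min_le_left _ _)
  have hδ2 : δ ≤ S.d0 / 2 := hδ'.trans (min_le_right _ _)
  have hex : ∀ s : EN N, p s • Bil.pull (S.D (x + δ • s)) (S.ex (S.cp β) (x + δ • s)) =
      p s • Φ (x + δ • s) := by
    intro s
    by_cases hs : 1 ≤ ‖s‖
    · rw [hps s hs, zero_smul, zero_smul]
    · have hU : x + δ • s ∈ S.Ud := by
        apply S.add_mem_Ud hx
        rw [norm_smul, Real.norm_eq_abs, abs_of_pos hδ]
        rw [not_le] at hs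
        nlinarith
      have h1 : S.ex (S.cp β) (x + δ • s) = S.rc (S.cp β) (S.rho (x + δ • s)) :=
        indicator_of_mem hU _
      rw [h1, S.rc_cp (S.rho_mem_X hU) β (halt _), hΦdef]
  have hint : Integrable (fun s : EN N => p s • Φ (x + δ • s)) volume := by
    have h1 := S.RbL2_integrable hp hps hδ (S.L2F_cp hβ) x
    simp only [hex] at h1
    exact h1
  have hint2 : Integrable (fun s : EN N => p s • Φ x) volume := hpi.smul_const _
  have e1 : S.Rb p δ (S.cp β) x - (∫ s, p s) • Φ x = ∫ s, p s • (Φ (x + δ • s) - Φ x) := by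
    have h1 : S.Rb p δ (S.cp β) x = ∫ s, p s • Φ (x + δ • s) := by
      unfold Rb
      simp only [hex]
    rw [h1, ← integral_smul_const, ← integral_sub hint hint2]
    congr 1
    ext1 s
    rw [smul_sub]
  have e2 : ‖S.Rb p δ (S.cp β) x - (∫ s, p s) • Φ x‖ ≤ I * (ε / (C * (I + 1))) := by
    rw [e1, hI, ← integral_mul_const]
    apply norm_integral_le_of_norm_le (hpi.abs.mul_const _)
    refine ae_of_all _ fun s => ?_
    rw [norm_smul, Real.norm_eq_abs]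
    by_cases hs : 1 ≤ ‖s‖
    · rw [hps s hs, abs_zero, zero_mul, zero_mul]
    · rw [← hI]
      refine mul_le_mul_of_nonneg_left ?_ (abs_nonneg _)
      apply hu x hx
      rw [norm_smul, Real.norm_eq_abs, abs_of_pos hδ]
      rw [not_le] at hs
      nlinarith
  have e3 : S.cp Φ x = S.cp β x := by
    have h1 : ∀ a b : Fin 4, Φ x (S.fr a x) (S.fr b x) = β x (S.fr a x) (S.fr b x) := by
      intro a b
      rw [hΦdef]
      simp only [Bil.pull_apply, S.rho_fix x hx, S.pt_Dfr hx]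
    apply pt_ext6
    · exact h1 0 1
    · exact h1 0 2
    · exact h1 0 3
    · exact h1 1 2
    · exact h1 1 3
    · exact h1 2 3
  have e4 : S.cp (S.Rb p δ (S.cp β)) x - (∫ s, p s) • S.cp β x =
      S.cp (S.Rb p δ (S.cp β) + (-(∫ s, p s)) • Φ) x := by
    rw [S.cp_add, S.cp_smul, e3, neg_smul, sub_eq_add_neg]
  have e5 : (S.Rb p δ (S.cp β) + (-(∫ s, p s)) • Φ) x =
      S.Rb p δ (S.cp β) x - (∫ s, p s) • Φ x := by
    rw [Pi.add_apply, Pi.smul_apply, neg_smul, sub_eq_add_neg]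
  rw [e4]
  refine ((hCx x hx).2.2.2.2.2 _).trans ?_
  rw [e5]
  calc C * ‖S.Rb p δ (S.cp β) x - (∫ s, p s) • Φ x‖ ≤ C * (I * (ε / (C * (I + 1)))) :=
        mul_le_mul_of_nonneg_left e2 hC0.le
    _ = ε * (I / (I + 1)) := by field_simp
    _ ≤ ε * 1 := by
        refine mul_le_mul_of_nonneg_left ?_ hε.le
        rw [div_le_one (by positivity)]
        linarith
    _ = ε := mul_one _

theorem RbL2_norm_flip (b : Bil N) : ‖b.flip‖ ≤ ‖b‖ := by
  refine Bil.norm_le (norm_nonneg _) fun u v => ?_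
  rw [Bil.flip_apply]
  refine (b.abs_apply_le v u).trans (le_of_eq ?_)
  ring

/-- continuous alternating fields are dense: approximate the Bil-valued function rc b in L2(nu) by a
compactly supported continuous function and take its alternating part (cp is bounded on X) -/
theorem dense_cp {b : EN N → C6} (hb : S.L2F b) {ε : ℝ} (hε : 0 < ε) :
    ∃ β : EN N → Bil N, Continuous β ∧ (∀ x v, β x v v = 0) ∧ S.nrm (b - S.cp β) ≤ ε := by
  obtain ⟨C, hC1, hC, -, -⟩ := S.exists_bound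
  have hC0 : 0 < C := by linarith
  have hrc : MemLp (S.rc b) 2 S.nu := by
    refine MemLp.of_le_mul (c := C) hb.memLp (S.measurable_rc hb.meas).aestronglyMeasurable ?_
    filter_upwards [S.ae_mem_X] with x hx
    exact (hC x hx).2.2.2.2.1 b
  obtain ⟨g, -, hg, hgc, hgm⟩ := hrc.exists_hasCompactSupport_eLpNorm_sub_le (by norm_num)
    (ε := ENNReal.ofReal (ε / C)) (by
      rw [Ne, ENNReal.ofReal_eq_zero, not_le]
      positivity)
  have hfl : Continuous (fun x => (g x).flip) := Bil.flipL.continuous.comp hgc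
  have hcont : Continuous (fun x => (1 / 2 : ℝ) • (g x - (g x).flip)) :=
    (continuous_const_smul (1 / 2 : ℝ)).comp (hgc.sub hfl)
  refine ⟨fun x => (1 / 2 : ℝ) • (g x - (g x).flip), hcont, ?_, ?_⟩
  · intro x v
    simp
  · apply S.RbL2_nrm_le hε.le
    have hpt : ∀ x ∈ S.X, ‖(b - S.cp fun x => (1 / 2 : ℝ) • (g x - (g x).flip)) x‖ ≤
        C * ‖(S.rc b - g) x‖ := by
      intro x hx
      have e1 : (b - S.cp fun x => (1 / 2 : ℝ) • (g x - (g x).flip)) x =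
          S.cp (S.rc b + (-1 : ℝ) • fun x => (1 / 2 : ℝ) • (g x - (g x).flip)) x := by
        rw [S.cp_add, S.cp_smul, S.cp_rc hx, neg_one_smul, ← sub_eq_add_neg]
        rfl
      have e2 : (S.rc b + (-1 : ℝ) • fun x => (1 / 2 : ℝ) • (g x - (g x).flip)) x =
          (1 / 2 : ℝ) • ((S.rc b - g) x - ((S.rc b - g) x).flip) := by
        have h3 : ∀ u v, S.rc b x u v = - S.rc b x v u := pt_skew (fun v => S.rc_alt b x v)
        ext u v
        change S.rc b x u v + (-1 : ℝ) * ((1 / 2 : ℝ) * (g x u v - g x v u)) =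
          (1 / 2 : ℝ) * ((S.rc b x u v - g x u v) - (S.rc b x v u - g x v u))
        rw [h3 v u]
        ring
      rw [e1]
      refine ((hC x hx).2.2.2.2.2 _).trans ?_
      rw [e2]
      refine mul_le_mul_of_nonneg_left ?_ hC0.le
      rw [norm_smul, Real.norm_of_nonneg (by norm_num)]
      have h4 := norm_sub_le ((S.rc b - g) x) ((S.rc b - g) x).flip
      have h5 := RbL2_norm_flip ((S.rc b - g) x)
      linarith
    have h2 : ∫⁻ x, ‖(S.rc b - g) x‖ₑ ^ 2 ∂S.nu ≤ ENNReal.ofReal ((ε / C) ^ 2) := by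
      have h3 := eLpNorm_nnreal_pow_eq_lintegral (μ := S.nu) (f := S.rc b - g) (p := 2) (by norm_num)
      simp only [NNReal.coe_ofNat, ENNReal.rpow_ofNat, ENNReal.coe_ofNat] at h3
      rw [← h3, ENNReal.ofReal_pow (by positivity)]
      gcongr
    calc ∫⁻ x, ‖(b - S.cp fun x => (1 / 2 : ℝ) • (g x - (g x).flip)) x‖ₑ ^ 2 ∂S.nu
        ≤ ∫⁻ x, ENNReal.ofReal (C ^ 2) * ‖(S.rc b - g) x‖ₑ ^ 2 ∂S.nu := by
          apply lintegral_mono_ae
          filter_upwards [S.ae_mem_X] with x hx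
          rw [ENNReal.ofReal_pow hC0.le, ← mul_pow]
          gcongr
          rw [← ofReal_norm, ← ofReal_norm, ← ENNReal.ofReal_mul hC0.le]
          exact ENNReal.ofReal_le_ofReal (hpt x hx)
      _ = ENNReal.ofReal (C ^ 2) * ∫⁻ x, ‖(S.rc b - g) x‖ₑ ^ 2 ∂S.nu :=
          lintegral_const_mul' _ _ ENNReal.ofReal_ne_top
      _ ≤ ENNReal.ofReal (C ^ 2) * ENNReal.ofReal ((ε / C) ^ 2) := by gcongr
      _ = ENNReal.ofReal (ε ^ 2) := by
          rw [← ENNReal.ofReal_mul (by positivity)]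
          congr 1
          field_simp

/-- the constant of `nrm_cp_Rb_le` for an arbitrary bounded continuous profile -/
theorem RbL2_bdd {p : EN N → ℝ} (hp : Continuous p) (hps : ∀ s, 1 ≤ ‖s‖ → p s = 0) :
    ∃ C : ℝ, 0 ≤ C ∧ ∀ δ : ℝ, 0 < δ → δ ≤ S.d0 / 2 → ∀ b : EN N → C6, S.L2F b →
      S.L2F (S.cp (S.Rb p δ b)) ∧ S.nrm (S.cp (S.Rb p δ b)) ≤ C * S.nrm b := by
  obtain ⟨C, hC, h⟩ := S.nrm_cp_Rb_le
  obtain ⟨M, hM⟩ : ∃ M : ℝ, ∀ s, |p s| ≤ M := by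
    obtain ⟨M, hM⟩ := (isCompact_closedBall (0 : EN N) 1).exists_bound_of_continuousOn
      hp.continuousOn
    refine ⟨max M 0, fun s => ?_⟩
    by_cases hs : 1 ≤ ‖s‖
    · rw [hps s hs, abs_zero]
      exact le_max_right _ _
    · refine (hM s ?_).trans (le_max_left _ _)
      rw [mem_closedBall_zero_iff]
      exact (not_le.1 hs).le
  have hM0 : 0 ≤ M := (abs_nonneg _).trans (hM 0)
  have hM1 : 0 < M + 1 := by linarith
  refine ⟨(M + 1) * C, by positivity, fun δ hδ hδ' b hb => ?_⟩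
  have hq : Continuous (fun s => (M + 1)⁻¹ * p s) := continuous_const.mul hp
  have hq1 : ∀ s, |(M + 1)⁻¹ * p s| ≤ 1 := by
    intro s
    rw [abs_mul, abs_of_pos (inv_pos.2 hM1), inv_mul_le_iff₀ hM1]
    linarith [hM s]
  have hqs : ∀ s, 1 ≤ ‖s‖ → (M + 1)⁻¹ * p s = 0 := by
    intro s hs
    rw [hps s hs, mul_zero]
  have e1 : S.Rb p δ b = (M + 1) • S.Rb (fun s => (M + 1)⁻¹ * p s) δ b := by
    rw [← S.Rb_profile_smul]
    congr 1
    ext1 s
    rw [← mul_assoc, mul_inv_cancel₀ hM1.ne', one_mul]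
  have e2 : S.cp (S.Rb p δ b) = (M + 1) • S.cp (S.Rb (fun s => (M + 1)⁻¹ * p s) δ b) := by
    rw [e1]
    funext x
    exact S.cp_smul _ _ x
  rw [e2]
  refine ⟨L2F.smul S (S.RbL2_L2F δ hδ hδ' _ hq hq1 hqs b hb) _, ?_⟩
  rw [S.nrm_smul, abs_of_pos hM1, mul_assoc]
  exact mul_le_mul_of_nonneg_left (h δ hδ hδ' _ hq hq1 hqs b hb) hM1.le

/-- L2 convergence for every L2 field -/
theorem tendsto_nrm_Rb {b : EN N → C6} (hb : S.L2F b) {p : EN N → ℝ} (hp : Continuous p)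
    (hps : ∀ s, 1 ≤ ‖s‖ → p s = 0) :
    Tendsto (fun δ => S.nrm (S.cp (S.Rb p δ b) - (∫ s, p s) • b)) (𝓝[>] 0) (𝓝 0) := by
  obtain ⟨C, hC, h⟩ := S.RbL2_bdd hp hps
  obtain ⟨J, hJ⟩ : ∃ J : ℝ, J = ∫ s, p s := ⟨_, rfl⟩
  rw [← hJ]
  obtain ⟨V, hV⟩ : ∃ V : ℝ, V = Real.sqrt (S.nu.real univ) := ⟨_, rfl⟩
  have hV0 : 0 ≤ V := by
    rw [hV]
    exact Real.sqrt_nonneg _
  rw [Metric.tendsto_nhdsWithin_nhds]
  intro ε hε
  obtain ⟨β, hβ, halt, hβn⟩ := S.dense_cp hb (ε := ε / (4 * (C + |J| + 1))) (by positivity)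
  obtain ⟨δ₀, hδ₀, hδ₀', hu⟩ := S.unif_Rb_cp hβ halt hp hps (ε / (4 * (V + 1))) (by positivity)
  refine ⟨δ₀, hδ₀, fun {δ} hδ hd => ?_⟩
  have hδ0 : 0 < δ := hδ
  rw [Real.dist_eq, sub_zero, abs_of_pos hδ0] at hd
  rw [Real.dist_eq, sub_zero, abs_of_nonneg (S.nrm_nonneg _)]
  have hδ2 : δ ≤ S.d0 / 2 := hd.le.trans hδ₀'
  have hcβ := S.L2F_cp hβ
  have hdiff : S.L2F (b - S.cp β) := by
    have h1 := L2F.add S hb (L2F.smul S hcβ (-1))
    rw [neg_one_smul, ← sub_eq_add_neg] at h1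
    exact h1
  have hf1 := h δ hδ0 hδ2 (b - S.cp β) hdiff
  have hfβ := h δ hδ0 hδ2 (S.cp β) hcβ
  have hf2 : S.L2F (S.cp (S.Rb p δ (S.cp β)) - J • S.cp β) := by
    have h1 := L2F.add S hfβ.1 (L2F.smul S hcβ (-J))
    rw [neg_smul, ← sub_eq_add_neg] at h1
    exact h1
  have hf3 : S.L2F ((-J) • (b - S.cp β)) := L2F.smul S hdiff _
  have hdec : S.cp (S.Rb p δ b) - J • b = (S.cp (S.Rb p δ (b - S.cp β)) +
      (S.cp (S.Rb p δ (S.cp β)) - J • S.cp β)) + (-J) • (b - S.cp β) := by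
    have h1 : S.Rb p δ b = S.Rb p δ (b - S.cp β) + S.Rb p δ (S.cp β) := by
      rw [← S.RbL2_add hp hps hδ0 hdiff hcβ, sub_add_cancel]
    have h2 : S.cp (S.Rb p δ b) = S.cp (S.Rb p δ (b - S.cp β)) + S.cp (S.Rb p δ (S.cp β)) := by
      rw [h1]
      funext x
      exact S.cp_add _ _ x
    rw [h2, smul_sub, neg_smul, neg_smul]
    abel
  have hn2 : S.nrm (S.cp (S.Rb p δ (S.cp β)) - J • S.cp β) ≤ ε / (4 * (V + 1)) * V := by
    apply S.RbL2_nrm_le (by positivity)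
    calc ∫⁻ x, ‖(S.cp (S.Rb p δ (S.cp β)) - J • S.cp β) x‖ₑ ^ 2 ∂S.nu
        ≤ ∫⁻ _, ENNReal.ofReal ((ε / (4 * (V + 1))) ^ 2) ∂S.nu := by
          apply lintegral_mono_ae
          filter_upwards [S.ae_mem_X] with x hx
          rw [ENNReal.ofReal_pow (by positivity)]
          gcongr
          rw [← ofReal_norm]
          refine ENNReal.ofReal_le_ofReal ?_
          have h1 := hu δ hδ0 hd.le x hx
          rw [← hJ] at h1
          exact h1
      _ = ENNReal.ofReal ((ε / (4 * (V + 1)) * V) ^ 2) := by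
          rw [lintegral_const, mul_pow, ENNReal.ofReal_mul (by positivity), hV,
            Real.sq_sqrt measureReal_nonneg, ofReal_measureReal]
  have hn1 : S.nrm (S.cp (S.Rb p δ (b - S.cp β))) ≤ C * (ε / (4 * (C + |J| + 1))) :=
    hf1.2.trans (mul_le_mul_of_nonneg_left hβn hC)
  have hn3 : S.nrm ((-J) • (b - S.cp β)) ≤ |J| * (ε / (4 * (C + |J| + 1))) := by
    rw [S.nrm_smul, abs_neg]
    exact mul_le_mul_of_nonneg_left hβn (abs_nonneg _)
  rw [hdec]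
  have htri := S.nrm_add_le (L2F.add S hf1.1 hf2) hf3
  have htri2 := S.nrm_add_le hf1.1 hf2
  have hE1 : C * (ε / (4 * (C + |J| + 1))) + |J| * (ε / (4 * (C + |J| + 1))) ≤ ε / 4 := by
    have hpos : 0 < C + |J| + 1 := by positivity
    rw [← add_mul, mul_div_assoc', div_le_div_iff₀ (by positivity) (by norm_num)]
    nlinarith
  have hE2 : ε / (4 * (V + 1)) * V ≤ ε / 4 := by
    rw [div_mul_eq_mul_div, div_le_div_iff₀ (by positivity) (by norm_num)]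
    nlinarith
  linarith

/-- a (1,1) form is J-invariant -/
theorem RbL2_rc_J {x : EN N} (hx : x ∈ S.X) (c : EN N → C6) (hc : pr2 (c x) = 0) (u v : EN N) :
    S.rc c x (S.J x u) (S.J x v) = S.rc c x u v := by
  have h1 : (c x 1 - c x 4) / 2 = 0 := by
    rw [← pr2_c1, hc, c6_zero]
  have h2 : (c x 2 + c x 3) / 2 = 0 := by
    rw [← pr2_c2, hc, c6_zero]
  rw [S.rc_apply, S.rc_apply, S.pt_th0_J hx, S.pt_th1_J hx, S.pt_th2_J hx, S.pt_th3_J hx,
    S.pt_th0_J hx, S.pt_th1_J hx, S.pt_th2_J hx, S.pt_th3_J hx]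
  have h3 : c x 4 = c x 1 := by linarith
  have h4 : c x 3 = - c x 2 := by linarith
  rw [h3, h4]
  ring

theorem RbL2_comm : ∃ C : ℝ, 0 ≤ C ∧ ∀ x ∈ S.X, ∀ h : EN N, ‖h‖ < S.d0 / 2 → ∀ u v : EN N,
    S.Tan x u → S.Tan x v → ∀ c : EN N → C6, pr2 (c (S.rho (x + h))) = 0 →
    |S.rc c (S.rho (x + h)) (S.D (x + h) u) (S.D (x + h) v) -
      S.rc c (S.rho (x + h)) (S.D (x + h) (S.J x u)) (S.D (x + h) (S.J x v))| ≤
      C * ‖h‖ * ‖c (S.rho (x + h))‖ * ‖u‖ * ‖v‖ := by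
  obtain ⟨C, hC1, hC, hCU, -⟩ := S.exists_bound
  obtain ⟨C', hC', hD⟩ := S.D_J_comm
  have hC0 : 0 ≤ C := by linarith
  refine ⟨2 * C ^ 3 * C', by positivity, ?_⟩
  intro x hx h hh u v hu hv c hc
  have hU : x + h ∈ S.Ud := S.add_mem_Ud hx hh
  have hz : S.rho (x + h) ∈ S.X := S.rho_mem_X hU
  have hA := hCU _ hU
  have hJx := (hC x hx).1
  have hJz := (hC _ hz).1
  have hrc := (hC _ hz).2.2.2.2.1 c
  have hh0 : ‖h‖ < S.d0 := by linarith [S.d0_pos]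
  have heu := hD x hx h hh0 u hu
  have hev := hD x hx h hh0 v hv
  obtain ⟨z, hzdef⟩ : ∃ z, z = S.rho (x + h) := ⟨_, rfl⟩
  rw [← hzdef] at hz hJz hrc heu hev hc ⊢
  obtain ⟨A, hAdef⟩ : ∃ A, A = S.D (x + h) := ⟨_, rfl⟩
  rw [← hAdef] at hA heu hev ⊢
  have hJinv := S.RbL2_rc_J hz c hc (A u) (A v)
  have hid : S.rc c z (A u) (A v) - S.rc c z (A (S.J x u)) (A (S.J x v)) =
      -(S.rc c z (S.J z (A u)) (A (S.J x v) - S.J z (A v))) -
        S.rc c z (A (S.J x u) - S.J z (A u)) (A (S.J x v)) := by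
    rw [← hJinv, Bil.sub_right, Bil.sub_left]
    ring
  rw [hid]
  have b1 : ‖S.J z (A u)‖ ≤ C * (C * ‖u‖) :=
    ((S.J z).le_opNorm _).trans (mul_le_mul hJz ((A.le_opNorm _).trans
      (mul_le_mul_of_nonneg_right hA (norm_nonneg _))) (norm_nonneg _) hC0)
  have b2 : ‖A (S.J x v)‖ ≤ C * (C * ‖v‖) :=
    (A.le_opNorm _).trans (mul_le_mul hA (((S.J x).le_opNorm _).trans
      (mul_le_mul_of_nonneg_right hJx (norm_nonneg _))) (norm_nonneg _) hC0)
  have t1 : |S.rc c z (S.J z (A u)) (A (S.J x v) - S.J z (A v))| ≤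
      (C * ‖c z‖) * (C * (C * ‖u‖)) * (C' * ‖h‖ * ‖v‖) := by
    refine (Bil.abs_apply_le _ _ _).trans ?_
    gcongr
  have t2 : |S.rc c z (A (S.J x u) - S.J z (A u)) (A (S.J x v))| ≤
      (C * ‖c z‖) * (C' * ‖h‖ * ‖u‖) * (C * (C * ‖v‖)) := by
    refine (Bil.abs_apply_le _ _ _).trans ?_
    gcongr
  calc |-(S.rc c z (S.J z (A u)) (A (S.J x v) - S.J z (A v))) -
        S.rc c z (A (S.J x u) - S.J z (A u)) (A (S.J x v))|
      ≤ |S.rc c z (S.J z (A u)) (A (S.J x v) - S.J z (A v))| +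
        |S.rc c z (A (S.J x u) - S.J z (A u)) (A (S.J x v))| := by
        refine (abs_sub _ _).trans ?_
        rw [abs_neg]
    _ ≤ (C * ‖c z‖) * (C * (C * ‖u‖)) * (C' * ‖h‖ * ‖v‖) +
        (C * ‖c z‖) * (C' * ‖h‖ * ‖u‖) * (C * (C * ‖v‖)) := add_le_add t1 t2
    _ = 2 * C ^ 3 * C' * ‖h‖ * ‖c z‖ * ‖u‖ * ‖v‖ := by ring

theorem RbL2_eval {p : EN N → ℝ} (hp : Continuous p) (hps : ∀ s, 1 ≤ ‖s‖ → p s = 0)
    {δ : ℝ} (hδ : 0 < δ) {b : EN N → C6} (hb : S.L2F b) (x u v : EN N) :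
    Integrable (fun s => p s * (S.ex b (x + δ • s)) (S.D (x + δ • s) u) (S.D (x + δ • s) v)) ∧
    S.Rb p δ b x u v =
      ∫ s, p s * (S.ex b (x + δ • s)) (S.D (x + δ • s) u) (S.D (x + δ • s) v) := by
  have h := S.RbL2_integrable hp hps hδ hb x
  refine ⟨Bil.integrable_apply h u v, ?_⟩
  unfold Rb
  rw [Bil.integral_apply h]
  rfl

/-- pointwise bound of the anti-invariant part for an invariant field -/
theorem RbL2_W : ∃ C : ℝ, 0 ≤ C ∧ ∀ δ : ℝ, 0 < δ → δ ≤ S.d0 / 2 →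
    ∀ p : EN N → ℝ, Continuous p → (∀ s, |p s| ≤ 1) → (∀ s, 1 ≤ ‖s‖ → p s = 0) →
    ∀ b : EN N → C6, S.L2F b → (∀ x, pr2 (b x) = 0) → ∀ x ∈ S.X, ∀ u v : EN N,
    S.Tan x u → S.Tan x v →
      |S.Rb p δ b x u v - S.Rb p δ b x (S.J x u) (S.J x v)| ≤
        C * δ * (∫ s in Metric.ball 0 1, ‖b (S.rho (x + δ • s))‖) * ‖u‖ * ‖v‖ := by
  obtain ⟨C, hC, hcomm⟩ := S.RbL2_comm
  obtain ⟨C2, hC2, hint⟩ := S.integral_ball_le
  refine ⟨C, hC, ?_⟩
  intro δ hδ hδ' p hp hp1 hps b hb hb2 x hx u v hu hv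
  obtain ⟨i1, e1⟩ := S.RbL2_eval hp hps hδ hb x u v
  obtain ⟨i2, e2⟩ := S.RbL2_eval hp hps hδ hb x (S.J x u) (S.J x v)
  have hI := (hint x hx δ hδ hδ' b hb).1
  rw [e1, e2, ← integral_sub i1 i2, ← Real.norm_eq_abs]
  have hg : Integrable ((Metric.ball (0 : EN N) 1).indicator
      (fun s => C * δ * ‖b (S.rho (x + δ • s))‖ * ‖u‖ * ‖v‖)) volume := by
    rw [integrable_indicator_iff Metric.isOpen_ball.measurableSet]
    exact ((hI.const_mul (C * δ)).mul_const _).mul_const _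
  have hle : ∀ s : EN N, ‖p s * (S.ex b (x + δ • s)) (S.D (x + δ • s) u) (S.D (x + δ • s) v) -
      p s * (S.ex b (x + δ • s)) (S.D (x + δ • s) (S.J x u)) (S.D (x + δ • s) (S.J x v))‖ ≤
      (Metric.ball (0 : EN N) 1).indicator
        (fun s => C * δ * ‖b (S.rho (x + δ • s))‖ * ‖u‖ * ‖v‖) s := by
    intro s
    by_cases hs : 1 ≤ ‖s‖
    · rw [hps s hs, indicator_of_notMem]
      · simp
      · rw [mem_ball_zero_iff, not_lt]
        exact hs
    · rw [not_le] at hs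
      rw [indicator_of_mem (by rw [mem_ball_zero_iff]; exact hs)]
      have hn : ‖δ • s‖ = δ * ‖s‖ := by rw [norm_smul, Real.norm_eq_abs, abs_of_pos hδ]
      have hn1 : ‖δ • s‖ < S.d0 / 2 := by
        rw [hn]
        nlinarith
      have hn2 : ‖δ • s‖ ≤ δ := by
        rw [hn]
        nlinarith
      have hU : x + δ • s ∈ S.Ud := S.add_mem_Ud hx hn1
      have hex : S.ex b (x + δ • s) = S.rc b (S.rho (x + δ • s)) := indicator_of_mem hU _
      rw [hex, ← mul_sub, norm_mul, Real.norm_eq_abs, Real.norm_eq_abs]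
      have h1 := hcomm x hx (δ • s) hn1 u v hu hv b (hb2 _)
      calc |p s| * |S.rc b (S.rho (x + δ • s)) (S.D (x + δ • s) u) (S.D (x + δ • s) v) -
          S.rc b (S.rho (x + δ • s)) (S.D (x + δ • s) (S.J x u)) (S.D (x + δ • s) (S.J x v))|
          ≤ 1 * (C * ‖δ • s‖ * ‖b (S.rho (x + δ • s))‖ * ‖u‖ * ‖v‖) := by
            gcongr
            exact hp1 s
        _ ≤ C * δ * ‖b (S.rho (x + δ • s))‖ * ‖u‖ * ‖v‖ := by
            rw [one_mul]
            gcongr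
  refine (norm_integral_le_of_norm_le hg (ae_of_all _ hle)).trans (le_of_eq ?_)
  rw [integral_indicator Metric.isOpen_ball.measurableSet, integral_mul_const, integral_mul_const,
    integral_const_mul]

theorem RbL2_nrm_mono {f g : EN N → C6} (hg : S.L2F g) (h : ∀ x, ‖f x‖ ≤ ‖g x‖) :
    S.nrm f ≤ S.nrm g := by
  unfold nrm
  apply Real.sqrt_le_sqrt
  apply integral_mono_of_nonneg (ae_of_all _ fun x => sq_nonneg _) (L2F.integrable_sq S hg)
  exact ae_of_all _ fun x => pow_le_pow_left₀ (norm_nonneg _) (h x) 2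

theorem RbL2_pr2_pt : ∃ C : ℝ, 0 ≤ C ∧ ∀ δ : ℝ, 0 < δ → δ ≤ S.d0 / 2 →
    ∀ p : EN N → ℝ, Continuous p → (∀ s, |p s| ≤ 1) → (∀ s, 1 ≤ ‖s‖ → p s = 0) →
    ∀ b : EN N → C6, S.L2F b → (∀ x, pr2 (b x) = 0) → ∀ x ∈ S.X,
      ‖pr2 (S.cp (S.Rb p δ b) x)‖ ≤
        C * δ * (∫ s in Metric.ball 0 1, ‖b (S.rho (x + δ • s))‖) := by
  obtain ⟨C, hC, hW⟩ := S.RbL2_W
  obtain ⟨C3, hC3, h3, -, -⟩ := S.exists_bound
  have hC3' : 0 ≤ C3 := by linarith
  refine ⟨3 * (C * C3 * C3), by positivity, ?_⟩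
  intro δ hδ hδ' p hp hp1 hps b hb hb2 x hx
  obtain ⟨I, hI⟩ : ∃ I : ℝ, I = ∫ s in Metric.ball 0 1, ‖b (S.rho (x + δ • s))‖ := ⟨_, rfl⟩
  have hI0 : 0 ≤ I := by
    rw [hI]
    exact integral_nonneg fun s => norm_nonneg _
  have hfr := (h3 x hx).2.1
  have hWab : ∀ a c : Fin 4, |S.Rb p δ b x (S.fr a x) (S.fr c x) -
      S.Rb p δ b x (S.J x (S.fr a x)) (S.J x (S.fr c x))| ≤ C * C3 * C3 * δ * I := by
    intro a c
    have h1 := hW δ hδ hδ' p hp hp1 hps b hb hb2 x hx (S.fr a x) (S.fr c x) (S.fr_tan x hx a)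
      (S.fr_tan x hx c)
    rw [← hI] at h1
    calc _ ≤ C * δ * I * ‖S.fr a x‖ * ‖S.fr c x‖ := h1
      _ ≤ C * δ * I * C3 * C3 := by
        gcongr
        · exact hfr a
        · exact hfr c
      _ = _ := by ring
  rw [← hI]
  have hM : 0 ≤ C * C3 * C3 * δ * I := by positivity
  have w1 := abs_le.1 (hWab 0 2)
  have w2 := abs_le.1 (hWab 0 3)
  rw [S.fr_J0 x hx, S.fr_J2 x hx] at w1
  rw [S.fr_J0 x hx, S.J_fr3 hx, Bil.neg_right] at w2
  have c1 : pr2 (S.cp (S.Rb p δ b) x) 1 =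
      (S.Rb p δ b x (S.fr 0 x) (S.fr 2 x) - S.Rb p δ b x (S.fr 1 x) (S.fr 3 x)) / 2 := rfl
  have c2 : pr2 (S.cp (S.Rb p δ b) x) 2 =
      (S.Rb p δ b x (S.fr 0 x) (S.fr 3 x) + S.Rb p δ b x (S.fr 1 x) (S.fr 2 x)) / 2 := rfl
  have c3 : pr2 (S.cp (S.Rb p δ b) x) 3 =
      (S.Rb p δ b x (S.fr 0 x) (S.fr 3 x) + S.Rb p δ b x (S.fr 1 x) (S.fr 2 x)) / 2 := rfl
  have c4 : pr2 (S.cp (S.Rb p δ b) x) 4 =
      (S.Rb p δ b x (S.fr 1 x) (S.fr 3 x) - S.Rb p δ b x (S.fr 0 x) (S.fr 2 x)) / 2 := rfl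
  have key := PtBound_norm6 (pr2 (S.cp (S.Rb p δ b) x)) hM (by
    intro i
    fin_cases i
    · change |(0 : ℝ)| ≤ _
      rw [abs_zero]
      exact hM
    · change |pr2 (S.cp (S.Rb p δ b) x) 1| ≤ _
      rw [c1, abs_le]
      constructor <;> linarith
    · change |pr2 (S.cp (S.Rb p δ b) x) 2| ≤ _
      rw [c2, abs_le]
      constructor <;> linarith
    · change |pr2 (S.cp (S.Rb p δ b) x) 3| ≤ _
      rw [c3, abs_le]
      constructor <;> linarith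
    · change |pr2 (S.cp (S.Rb p δ b) x) 4| ≤ _
      rw [c4, abs_le]
      constructor <;> linarith
    · change |(0 : ℝ)| ≤ _
      rw [abs_zero]
      exact hM)
  refine key.trans (le_of_eq ?_)
  ring

/-- anti-invariant part of the regularisation of a form: the L2 norm of
pr2 (cp (Rb p δ b)) is at most C (‖pr2 b‖ + δ ‖b‖) (use the pointwise comparison of
antiL x ∘ pull D(x+h) ∘ inv (rho (x+h)) = O(|h|)) -/
theorem nrm_pr2_Rb_le : ∃ C : ℝ, 0 ≤ C ∧ ∀ δ : ℝ, 0 < δ → δ ≤ S.d0 / 2 →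
    ∀ p : EN N → ℝ, Continuous p → (∀ s, |p s| ≤ 1) → (∀ s, 1 ≤ ‖s‖ → p s = 0) →
    ∀ b : EN N → C6, S.L2F b → S.nrm (fun x => pr2 (S.cp (S.Rb p δ b) x)) ≤
      C * (S.nrm (fun x => pr2 (b x)) + δ * S.nrm b) := by
  obtain ⟨C1, hC1, h1⟩ := S.RbL2_key
  obtain ⟨C2, hC2, h2⟩ := S.RbL2_pr2_pt
  obtain ⟨C3, hC3, h3⟩ := S.nrm_cp_Rb_le
  refine ⟨C1 * C2 + C3, by positivity, ?_⟩
  intro δ hδ hδ' p hp hp1 hps b hb
  obtain ⟨b1, hb1d⟩ : ∃ b1 : EN N → C6, b1 = fun x => pr1 (b x) := ⟨_, rfl⟩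
  obtain ⟨b2, hb2d⟩ : ∃ b2 : EN N → C6, b2 = fun x => pr2 (b x) := ⟨_, rfl⟩
  have hb1 : S.L2F b1 := by
    rw [hb1d]
    exact L2F.pr1 S hb
  have hb2 : S.L2F b2 := by
    rw [hb2d]
    exact L2F.pr2 S hb
  have hb1z : ∀ x, pr2 (b1 x) = 0 := by
    intro x
    rw [hb1d]
    exact pr2_pr1 (b x)
  have hb1n : S.nrm b1 ≤ S.nrm b := by
    apply S.RbL2_nrm_mono hb
    intro x
    rw [hb1d]
    exact norm_pr1_le (b x)
  have hdec : b = b1 + b2 := by
    funext x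
    rw [hb1d, hb2d]
    exact (pr1_add_pr2 (b x)).symm
  have hR : S.Rb p δ b = S.Rb p δ b1 + S.Rb p δ b2 := by
    rw [hdec]
    exact S.RbL2_add hp hps hδ hb1 hb2
  rw [← hb2d]
  obtain ⟨g1, hg1⟩ : ∃ g1 : EN N → C6, g1 = fun x => pr2 (S.cp (S.Rb p δ b1) x) := ⟨_, rfl⟩
  obtain ⟨g2, hg2⟩ : ∃ g2 : EN N → C6, g2 = fun x => pr2 (S.cp (S.Rb p δ b2) x) := ⟨_, rfl⟩
  have hpr : (fun x => pr2 (S.cp (S.Rb p δ b) x)) = g1 + g2 := by
    funext x
    have h5 : S.cp (S.Rb p δ b) x = S.cp (S.Rb p δ b1) x + S.cp (S.Rb p δ b2) x := by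
      rw [hR, S.cp_add]
    have h6 : ∀ a c : C6, pr2 (a + c) = pr2 a + pr2 c := by
      intro a c
      have h4 := pr2_linear 1 1 a c
      rwa [one_smul, one_smul, one_smul, one_smul] at h4
    rw [Pi.add_apply, h5, h6, hg1, hg2]
  have hL1 : S.L2F g1 := by
    rw [hg1]
    exact L2F.pr2 S (S.RbL2_L2F δ hδ hδ' p hp hp1 hps b1 hb1)
  have hL2' : S.L2F (S.cp (S.Rb p δ b2)) := S.RbL2_L2F δ hδ hδ' p hp hp1 hps b2 hb2
  have hL2 : S.L2F g2 := by
    rw [hg2]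
    exact L2F.pr2 S hL2'
  have hg1n : ∀ x ∈ S.X, ‖g1 x‖ ≤
      C2 * δ * (∫ s in Metric.ball 0 1, ‖b1 (S.rho (x + δ • s))‖) := by
    intro x hx
    rw [hg1]
    exact h2 δ hδ hδ' p hp hp1 hps b1 hb1 hb1z x hx
  have n1 : S.nrm g1 ≤ C1 * (C2 * δ) * S.nrm b :=
    (h1 δ hδ hδ' b1 hb1 (C2 * δ) (by positivity) g1 hg1n).2.trans
      (mul_le_mul_of_nonneg_left hb1n (by positivity))
  have n2 : S.nrm g2 ≤ C3 * S.nrm b2 := by
    have h4 : S.nrm g2 ≤ S.nrm (S.cp (S.Rb p δ b2)) := by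
      apply S.RbL2_nrm_mono hL2'
      intro x
      rw [hg2]
      exact norm_pr2_le _
    exact h4.trans (h3 δ hδ hδ' p hp hp1 hps b2 hb2)
  rw [hpr]
  refine (S.nrm_add_le hL1 hL2).trans ?_
  have p1 := S.nrm_nonneg b
  have p2 := S.nrm_nonneg b2
  have q1 : 0 ≤ C1 * C2 * S.nrm b2 := by positivity
  have q2 : 0 ≤ C3 * (δ * S.nrm b) := by positivity
  have q3 : (C1 * C2 + C3) * (S.nrm b2 + δ * S.nrm b) =
      C1 * (C2 * δ) * S.nrm b + C3 * S.nrm b2 + (C1 * C2 * S.nrm b2 + C3 * (δ * S.nrm b)) := by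
    ring
  rw [q3]
  linarith

end Setup

end Pool.Agent.W_MP_d8b8b7_gt
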