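import Pool.Agent.W_MP_d8b8b7_gt.Alg

/-!
# The L2 norm `nrm` and the pairing `B`
-/

namespace Pool.Agent.W_MP_d8b8b7_gt

open MeasureTheory Set Filter Topology
open scoped ContDiff ENNReal

variable {N : ℕ}

/-- `pr1` as a continuous linear map -/
noncomputable def l2_pr1L : C6 →L[ℝ] C6 :=
  LinearMap.toContinuousLinearMap
    { toFun := pr1
      map_add' := fun a b => by simpa using pr1_linear 1 1 a b
      map_smul' := fun t a => by simpa using pr1_linear t 0 a 0 }

/-- `pr2` as a continuous linear map -/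
noncomputable def l2_pr2L : C6 →L[ℝ] C6 :=
  LinearMap.toContinuousLinearMap
    { toFun := pr2
      map_add' := fun a b => by simpa using pr2_linear 1 1 a b
      map_smul' := fun t a => by simpa using pr2_linear t 0 a 0 }

/-- `star6` as a continuous linear map -/
noncomputable def l2_starL : C6 →L[ℝ] C6 :=
  LinearMap.toContinuousLinearMap
    { toFun := star6
      map_add' := fun a b => by simpa using star6_linear 1 1 a b
      map_smul' := fun t a => by simpa using star6_linear t 0 a 0 }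

theorem measurable_pr1 : Measurable pr1 := l2_pr1L.continuous.measurable
theorem measurable_pr2 : Measurable pr2 := l2_pr2L.continuous.measurable
theorem measurable_star6 : Measurable star6 := l2_starL.continuous.measurable
theorem continuous_pr1 : Continuous pr1 := l2_pr1L.continuous
theorem continuous_pr2 : Continuous pr2 := l2_pr2L.continuous
theorem continuous_star6 : Continuous star6 := l2_starL.continuous

theorem measurable_wedge {a b : EN N → C6} (ha : Measurable a) (hb : Measurable b) :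
    Measurable (fun x => wedge (a x) (b x)) := by
  have h : (fun x => wedge (a x) (b x)) = fun x => inner ℝ (a x) (star6 (b x)) := by
    funext x
    rw [← wedge_star, star6_star6]
  rw [h]
  exact ha.inner (measurable_star6.comp hb)

namespace Setup

variable (S : Setup N)

/-- L2 norm as an integral -/
theorem nrm_sq (b : EN N → C6) : S.nrm b ^ 2 = ∫ x, ‖b x‖ ^ 2 ∂S.nu := by
  unfold nrm
  exact Real.sq_sqrt (integral_nonneg fun x => sq_nonneg _)

theorem nrm_nonneg (b : EN N → C6) : 0 ≤ S.nrm b := by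
  exact Real.sqrt_nonneg _

theorem L2F.integrable_sq {b : EN N → C6} (hb : S.L2F b) :
    Integrable (fun x => ‖b x‖ ^ 2) S.nu := by
  exact (memLp_two_iff_integrable_sq_norm hb.memLp.aestronglyMeasurable).1 hb.memLp

theorem L2F.add {a b : EN N → C6} (ha : S.L2F a) (hb : S.L2F b) : S.L2F (a + b) := by
  exact ⟨ha.meas.add hb.meas, ha.memLp.add hb.memLp⟩

theorem L2F.smul {b : EN N → C6} (hb : S.L2F b) (c : ℝ) : S.L2F (c • b) := by
  exact ⟨hb.meas.const_smul c, hb.memLp.const_smul c⟩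

theorem L2F.pr1 {b : EN N → C6} (hb : S.L2F b) : S.L2F (fun x => pr1 (b x)) := by
  have h := measurable_pr1.comp hb.meas
  exact ⟨h, hb.memLp.mono h.aestronglyMeasurable (ae_of_all _ fun x => norm_pr1_le (b x))⟩

theorem L2F.pr2 {b : EN N → C6} (hb : S.L2F b) : S.L2F (fun x => pr2 (b x)) := by
  have h := measurable_pr2.comp hb.meas
  exact ⟨h, hb.memLp.mono h.aestronglyMeasurable (ae_of_all _ fun x => norm_pr2_le (b x))⟩

theorem L2F.star6 {b : EN N → C6} (hb : S.L2F b) : S.L2F (fun x => star6 (b x)) := by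
  have h := measurable_star6.comp hb.meas
  exact ⟨h, hb.memLp.mono h.aestronglyMeasurable (ae_of_all _ fun x => (norm_star6 (b x)).le)⟩

theorem L2F.integrable_mul_norm {a b : EN N → C6} (ha : S.L2F a) (hb : S.L2F b) :
    Integrable (fun x => ‖a x‖ * ‖b x‖) S.nu :=
  ha.memLp.norm.integrable_mul hb.memLp.norm

/-- Cauchy-Schwarz -/
theorem L2F.integral_mul_norm_le {a b : EN N → C6} (ha : S.L2F a) (hb : S.L2F b) :
    ∫ x, ‖a x‖ * ‖b x‖ ∂S.nu ≤ S.nrm a * S.nrm b := by
  have h2 : ENNReal.ofReal (2 : ℝ) = 2 := by norm_num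
  have h := integral_mul_norm_le_Lp_mul_Lq (μ := S.nu) (f := a) (g := b)
    Real.HolderConjugate.two_two (by rw [h2]; exact ha.memLp) (by rw [h2]; exact hb.memLp)
  unfold nrm
  rw [Real.sqrt_eq_rpow, Real.sqrt_eq_rpow]
  simpa using h

theorem nrm_add_le {a b : EN N → C6} (ha : S.L2F a) (hb : S.L2F b) :
    S.nrm (a + b) ≤ S.nrm a + S.nrm b := by
  have h1 : S.nrm (a + b) ^ 2 ≤ (S.nrm a + S.nrm b) ^ 2 := by
    rw [nrm_sq]
    have hi0 : Integrable (fun x => ‖a x‖ ^ 2 + 2 * (‖a x‖ * ‖b x‖)) S.nu :=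
      (L2F.integrable_sq S ha).add ((L2F.integrable_mul_norm S ha hb).const_mul 2)
    have hi : Integrable (fun x => ‖a x‖ ^ 2 + 2 * (‖a x‖ * ‖b x‖) + ‖b x‖ ^ 2) S.nu :=
      hi0.add (L2F.integrable_sq S hb)
    have h2 : ∫ x, ‖(a + b) x‖ ^ 2 ∂S.nu ≤
        ∫ x, (‖a x‖ ^ 2 + 2 * (‖a x‖ * ‖b x‖) + ‖b x‖ ^ 2) ∂S.nu := by
      apply integral_mono (L2F.integrable_sq S (L2F.add S ha hb)) hi
      intro x
      have h3 : ‖(a + b) x‖ ≤ ‖a x‖ + ‖b x‖ := norm_add_le (a x) (b x)
      have h4 : ‖(a + b) x‖ ^ 2 ≤ (‖a x‖ + ‖b x‖) ^ 2 := pow_le_pow_left₀ (norm_nonneg _) h3 2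
      change ‖(a + b) x‖ ^ 2 ≤ ‖a x‖ ^ 2 + 2 * (‖a x‖ * ‖b x‖) + ‖b x‖ ^ 2
      linarith [h4]
    have h5 : ∫ x, (‖a x‖ ^ 2 + 2 * (‖a x‖ * ‖b x‖) + ‖b x‖ ^ 2) ∂S.nu =
        S.nrm a ^ 2 + 2 * (∫ x, ‖a x‖ * ‖b x‖ ∂S.nu) + S.nrm b ^ 2 := by
      rw [integral_add hi0 (L2F.integrable_sq S hb), integral_add (L2F.integrable_sq S ha)
        ((L2F.integrable_mul_norm S ha hb).const_mul 2), integral_const_mul, nrm_sq, nrm_sq]
    have h6 := L2F.integral_mul_norm_le S ha hb
    rw [h5] at h2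
    nlinarith [h2, h6]
  exact (sq_le_sq₀ (S.nrm_nonneg _) (add_nonneg (S.nrm_nonneg _) (S.nrm_nonneg _))).1 h1

theorem nrm_smul (c : ℝ) (b : EN N → C6) : S.nrm (c • b) = |c| * S.nrm b := by
  unfold nrm
  have h : ∀ x, ‖(c • b) x‖ ^ 2 = c ^ 2 * ‖b x‖ ^ 2 := by
    intro x
    rw [Pi.smul_apply, norm_smul, mul_pow, Real.norm_eq_abs, sq_abs]
  simp_rw [h]
  rw [integral_const_mul, Real.sqrt_mul (sq_nonneg c), Real.sqrt_sq_eq_abs]

theorem integrable_wedge {a b : EN N → C6} (ha : S.L2F a) (hb : S.L2F b) :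
    Integrable (fun x => wedge (a x) (b x)) S.nu := by
  apply (L2F.integrable_mul_norm S ha hb).mono (measurable_wedge ha.meas hb.meas).aestronglyMeasurable
  apply ae_of_all
  intro x
  rw [Real.norm_eq_abs, Real.norm_eq_abs, abs_of_nonneg (mul_nonneg (norm_nonneg _) (norm_nonneg _))]
  exact abs_wedge_le _ _

theorem abs_B_le {a b : EN N → C6} (ha : S.L2F a) (hb : S.L2F b) :
    |S.B a b| ≤ S.nrm a * S.nrm b := by
  unfold B
  calc |∫ x, wedge (a x) (b x) ∂S.nu| ≤ ∫ x, |wedge (a x) (b x)| ∂S.nu :=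
        abs_integral_le_integral_abs
    _ ≤ ∫ x, ‖a x‖ * ‖b x‖ ∂S.nu := by
        apply integral_mono (S.integrable_wedge ha hb).abs (L2F.integrable_mul_norm S ha hb)
        intro x
        exact abs_wedge_le _ _
    _ ≤ S.nrm a * S.nrm b := L2F.integral_mul_norm_le S ha hb

theorem B_add_left {a a' b : EN N → C6} (ha : S.L2F a) (ha' : S.L2F a') (hb : S.L2F b) :
    S.B (a + a') b = S.B a b + S.B a' b := by
  unfold B
  rw [← integral_add (S.integrable_wedge ha hb) (S.integrable_wedge ha' hb)]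
  apply integral_congr_ae
  apply ae_of_all
  intro x
  exact wedge_add_left (a x) (a' x) (b x)

theorem B_comm (a b : EN N → C6) : S.B a b = S.B b a := by
  unfold B
  apply integral_congr_ae
  apply ae_of_all
  intro x
  exact wedge_comm (a x) (b x)

theorem B_smul_left (c : ℝ) (a b : EN N → C6) : S.B (c • a) b = c * S.B a b := by
  unfold B
  rw [← integral_const_mul]
  apply integral_congr_ae
  apply ae_of_all
  intro x
  exact wedge_smul_left c (a x) (b x)

end Setup

end Pool.Agent.W_MP_d8b8b7_gt
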