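import Pool.Agent.W_MP_d8b8b7_gt.Pt

/-!
# Uniform bounds, compactness, measurability for a Setup

Notation: for x in X, `D x` is the projection on the tangent space `T_x`, `th a x v = g_x(v, f_a)`.
-/

namespace Pool.Agent.W_MP_d8b8b7_gt

open MeasureTheory Set Filter Topology
open scoped ContDiff ENNReal

variable {N : ℕ}

namespace Setup

variable (S : Setup N)

theorem smooth_D : ContDiff ℝ ∞ S.D := by
  have h := S.smooth_rho.fderiv_right (m := ∞) (by simp)
  exact h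

theorem PtBound_continuous_app {E : Type*} [TopologicalSpace E] {β : E → Bil N} {u v : E → EN N}
    (hβ : Continuous β) (hu : Continuous u) (hv : Continuous v) :
    Continuous (fun x => β x (u x) (v x)) :=
  ((Bil.toCLM.continuous.comp hβ).clm_apply hu).clm_apply hv

theorem PtBound_ev_continuous {β : EN N → Bil N} (hβ : Continuous β) : Continuous (S.ev β) := by
  have h1 : Continuous fun z : EN N × EN N => S.J z.1 z.2 :=
    (S.smooth_J.continuous.comp continuous_fst).clm_apply continuous_snd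
  exact PtBound_continuous_app (hβ.comp continuous_fst) continuous_snd h1

theorem PtBound_closedX1 : IsClosed S.X1 := by
  have h1 : IsClosed {z : EN N × EN N | z.1 ∈ S.X} := S.cptX.isClosed.preimage continuous_fst
  have h2 : IsClosed {z : EN N × EN N | S.D z.1 z.2 = z.2} :=
    isClosed_eq ((S.smooth_D.continuous.comp continuous_fst).clm_apply continuous_snd) continuous_snd
  have h3 : IsClosed {z : EN N × EN N | S.om z.1 z.2 (S.J z.1 z.2) = 1} :=
    isClosed_eq (S.PtBound_ev_continuous S.smooth_om.continuous) continuous_const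
  have : S.X1 = {z : EN N × EN N | z.1 ∈ S.X} ∩ ({z : EN N × EN N | S.D z.1 z.2 = z.2} ∩
      {z : EN N × EN N | S.om z.1 z.2 (S.J z.1 z.2) = 1}) := by
    ext z; rfl
  rw [this]
  exact h1.inter (h2.inter h3)

theorem PtBound_smul (x v : EN N) (c : ℝ) :
    S.om x (c • v) (S.J x (c • v)) = c ^ 2 * S.om x v (S.J x v) := by
  rw [map_smul, Bil.smul_left, Bil.smul_right]
  ring

theorem PtBound_exists_low :
    ∃ c > 0, ∀ x ∈ S.X, ∀ v, S.Tan x v → c * ‖v‖ ^ 2 ≤ S.om x v (S.J x v) := by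
  let K : Set (EN N × EN N) := {z | z.1 ∈ S.X ∧ S.D z.1 z.2 = z.2 ∧ ‖z.2‖ = 1}
  have hKc : IsCompact K := by
    have h0 : IsCompact (S.X ×ˢ Metric.closedBall (0 : EN N) 1) :=
      S.cptX.prod (isCompact_closedBall _ _)
    refine h0.of_isClosed_subset ?_ ?_
    · have h1 : IsClosed {z : EN N × EN N | z.1 ∈ S.X} := S.cptX.isClosed.preimage continuous_fst
      have h2 : IsClosed {z : EN N × EN N | S.D z.1 z.2 = z.2} :=
        isClosed_eq ((S.smooth_D.continuous.comp continuous_fst).clm_apply continuous_snd)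
          continuous_snd
      have h3 : IsClosed {z : EN N × EN N | ‖z.2‖ = 1} :=
        isClosed_eq continuous_snd.norm continuous_const
      exact h1.inter (h2.inter h3)
    · rintro z ⟨h1, -, h3⟩
      exact ⟨h1, by simp [h3]⟩
  have hcont : ContinuousOn (S.ev S.om) K :=
    (S.PtBound_ev_continuous S.smooth_om.continuous).continuousOn
  have hmem : ∀ x ∈ S.X, ∀ v, S.Tan x v → v ≠ 0 → (x, ‖v‖⁻¹ • v) ∈ K := by
    intro x hx v hv h0
    have hn : ‖v‖ ≠ 0 := norm_ne_zero_iff.mpr h0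
    refine ⟨hx, ?_, ?_⟩
    · show S.D x (‖v‖⁻¹ • v) = ‖v‖⁻¹ • v
      rw [map_smul]; rw [show S.D x v = v from hv]
    · show ‖‖v‖⁻¹ • v‖ = 1
      rw [norm_smul, norm_inv, norm_norm, inv_mul_cancel₀ hn]
  rcases K.eq_empty_or_nonempty with hK | hK
  · refine ⟨1, one_pos, fun x hx v hv => ?_⟩
    by_cases h0 : v = 0
    · subst h0; simp
    · exfalso
      have := hmem x hx v hv h0
      rw [hK] at this
      exact this
  · obtain ⟨z0, hz0, hmin⟩ := hKc.exists_isMinOn hK hcont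
    have hz0v : z0.2 ≠ 0 := by
      intro h; have := hz0.2.2; rw [h, norm_zero] at this; exact zero_ne_one this
    have hpos : 0 < S.ev S.om z0 := S.om_tame z0.1 hz0.1 z0.2 hz0.2.1 hz0v
    refine ⟨S.ev S.om z0, hpos, fun x hx v hv => ?_⟩
    by_cases h0 : v = 0
    · subst h0; simp
    · have hn : ‖v‖ ≠ 0 := norm_ne_zero_iff.mpr h0
      have h1 := hmin (hmem x hx v hv h0)
      have h2 : S.ev S.om (x, ‖v‖⁻¹ • v) = ‖v‖⁻¹ ^ 2 * S.om x v (S.J x v) :=
        S.PtBound_smul x v _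
      have h3 : S.ev S.om z0 ≤ ‖v‖⁻¹ ^ 2 * S.om x v (S.J x v) := by rw [← h2]; exact h1
      calc S.ev S.om z0 * ‖v‖ ^ 2 ≤ (‖v‖⁻¹ ^ 2 * S.om x v (S.J x v)) * ‖v‖ ^ 2 :=
            mul_le_mul_of_nonneg_right h3 (sq_nonneg _)
        _ = S.om x v (S.J x v) := by field_simp

theorem PtBound_smooth_F : ContDiff ℝ ∞ S.F := by
  have h1 : ContDiff ℝ ∞ (fun x => Bil.pull (S.D x) (S.om x)) :=
    Bil.contDiff_pull S.smooth_om S.smooth_D
  have h2 : ContDiff ℝ ∞ (fun x => Bil.pull (S.J x) (S.om x)) :=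
    Bil.contDiff_pull S.smooth_om S.smooth_J
  exact (h1.add h2).const_smul (1 / 2 : ℝ)

theorem measurable_F : Measurable S.F := S.PtBound_smooth_F.continuous.measurable

theorem fr_mem_X1 {x : EN N} (hx : x ∈ S.X) (a : Fin 4) : (x, S.fr a x) ∈ S.X1 := by
  refine ⟨hx, S.fr_tan x hx a, ?_⟩
  have h := S.fr_orth x hx a a
  rw [if_pos rfl] at h
  have h2 := S.F_self hx (S.fr a x) (S.fr_tan x hx a)
  exact h2.symm.trans h

theorem isCompact_X1 : IsCompact S.X1 := by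
  obtain ⟨c, hc, hlow⟩ := S.PtBound_exists_low
  have h0 : IsCompact (S.X ×ˢ Metric.closedBall (0 : EN N) (Real.sqrt c⁻¹)) :=
    S.cptX.prod (isCompact_closedBall _ _)
  refine h0.of_isClosed_subset S.PtBound_closedX1 ?_
  rintro z ⟨h1, h2, h3⟩
  refine ⟨h1, ?_⟩
  rw [mem_closedBall_zero_iff]
  apply Real.le_sqrt_of_sq_le
  have := hlow z.1 h1 z.2 h2
  rw [h3] at this
  rw [← one_div, le_div_iff₀ hc]
  linarith

theorem smul_mem_X1 {x v : EN N} (hx : x ∈ S.X) (hv : S.Tan x v) (h0 : v ≠ 0) :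
    (x, (Real.sqrt (S.om x v (S.J x v)))⁻¹ • v) ∈ S.X1 := by
  have hpos : 0 < S.om x v (S.J x v) := S.om_tame x hx v hv h0
  refine ⟨hx, ?_, ?_⟩
  · show S.D x ((Real.sqrt (S.om x v (S.J x v)))⁻¹ • v) = (Real.sqrt (S.om x v (S.J x v)))⁻¹ • v
    rw [map_smul, show S.D x v = v from hv]
  · have h := S.PtBound_smul x v (Real.sqrt (S.om x v (S.J x v)))⁻¹
    rw [inv_pow, Real.sq_sqrt hpos.le, inv_mul_cancel₀ hpos.ne'] at h
    exact h

/-- bound of a continuous function on a compact set, with a nonnegative constant -/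
theorem PtBound_cpt {E F : Type*} [TopologicalSpace E] [NormedAddCommGroup F] {K : Set E}
    (hK : IsCompact K) {f : E → F} (hf : Continuous f) : ∃ B, 0 ≤ B ∧ ∀ x ∈ K, ‖f x‖ ≤ B := by
  obtain ⟨B, hB⟩ := hK.exists_bound_of_continuousOn hf.continuousOn
  exact ⟨|B|, abs_nonneg B, fun x hx => (hB x hx).trans (le_abs_self B)⟩

theorem PtBound_asym (f g : Cov N) : ‖Bil.asym f g‖ ≤ 2 * (‖f‖ * ‖g‖) := by
  refine Bil.norm_le (by positivity) fun u v => ?_
  rw [Bil.asym_apply]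
  have h1 : |f u| ≤ ‖f‖ * ‖u‖ := f.le_opNorm u
  have h2 : |f v| ≤ ‖f‖ * ‖v‖ := f.le_opNorm v
  have h3 : |g u| ≤ ‖g‖ * ‖u‖ := g.le_opNorm u
  have h4 : |g v| ≤ ‖g‖ * ‖v‖ := g.le_opNorm v
  calc |f u * g v - g u * f v| ≤ |f u * g v| + |g u * f v| := abs_sub _ _
    _ = |f u| * |g v| + |g u| * |f v| := by rw [abs_mul, abs_mul]
    _ ≤ (‖f‖ * ‖u‖) * (‖g‖ * ‖v‖) + (‖g‖ * ‖u‖) * (‖f‖ * ‖v‖) := by gcongr
    _ = 2 * (‖f‖ * ‖g‖) * ‖u‖ * ‖v‖ := by ring

theorem PtBound_rc {x : EN N} {T : ℝ} (hT : ∀ a, ‖S.th a x‖ ≤ T) (b : EN N → C6) :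
    ‖S.rc b x‖ ≤ 12 * T ^ 2 * ‖b x‖ := by
  have hT0 : 0 ≤ T := (norm_nonneg _).trans (hT 0)
  have hb : ∀ i, |b x i| ≤ ‖b x‖ := fun i => by
    have := PiLp.norm_apply_le (b x) i
    rwa [Real.norm_eq_abs] at this
  have key : ∀ i (a c : Fin 4), ‖(b x i) • Bil.asym (S.th a x) (S.th c x)‖ ≤ 2 * T ^ 2 * ‖b x‖ := by
    intro i a c
    rw [norm_smul, Real.norm_eq_abs]
    have h1 := PtBound_asym (S.th a x) (S.th c x)
    have h2 : ‖S.th a x‖ * ‖S.th c x‖ ≤ T * T :=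
      mul_le_mul (hT a) (hT c) (norm_nonneg _) hT0
    calc |b x i| * ‖Bil.asym (S.th a x) (S.th c x)‖ ≤ ‖b x‖ * (2 * (T * T)) :=
          mul_le_mul (hb i) (h1.trans (by linarith)) (norm_nonneg _) (norm_nonneg _)
      _ = 2 * T ^ 2 * ‖b x‖ := by ring
  unfold rc
  have h0 := key 0 0 1
  have h1 := key 1 0 2
  have h2 := key 2 0 3
  have h3 := key 3 1 2
  have h4 := key 4 1 3
  have h5 := key 5 2 3
  refine (norm_add_le _ _).trans ?_
  refine (add_le_add (norm_add_le _ _) le_rfl).trans ?_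
  refine (add_le_add (add_le_add (norm_add_le _ _) le_rfl) le_rfl).trans ?_
  refine (add_le_add (add_le_add (add_le_add (norm_add_le _ _) le_rfl) le_rfl) le_rfl).trans ?_
  refine (add_le_add (add_le_add (add_le_add (add_le_add (norm_add_le _ _) le_rfl) le_rfl) le_rfl)
    le_rfl).trans ?_
  linarith

/-- Euclidean norm of a vector with bounded components -/
theorem PtBound_norm6 (c : C6) {M : ℝ} (hM : 0 ≤ M) (h : ∀ i, |c i| ≤ M) : ‖c‖ ≤ 3 * M := by
  have h1 : ‖c‖ ^ 2 ≤ (3 * M) ^ 2 := by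
    rw [EuclideanSpace.norm_sq_eq]
    have h2 : ∀ i, ‖c i‖ ^ 2 ≤ M ^ 2 := fun i => by
      rw [Real.norm_eq_abs]
      exact pow_le_pow_left₀ (abs_nonneg _) (h i) 2
    calc ∑ i, ‖c i‖ ^ 2 ≤ ∑ _i : Fin 6, M ^ 2 := Finset.sum_le_sum fun i _ => h2 i
      _ = 6 * M ^ 2 := by simp
      _ ≤ (3 * M) ^ 2 := by nlinarith [sq_nonneg M]
  exact le_of_sq_le_sq h1 (by positivity)

theorem PtBound_cp {x : EN N} {R : ℝ} (hR : ∀ a, ‖S.fr a x‖ ≤ R) (β : EN N → Bil N) :
    ‖S.cp β x‖ ≤ 3 * R ^ 2 * ‖β x‖ := by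
  have hR0 : 0 ≤ R := (norm_nonneg _).trans (hR 0)
  have key : ∀ a b : Fin 4, |β x (S.fr a x) (S.fr b x)| ≤ R ^ 2 * ‖β x‖ := by
    intro a b
    refine (Bil.abs_apply_le _ _ _).trans ?_
    calc ‖β x‖ * ‖S.fr a x‖ * ‖S.fr b x‖ ≤ ‖β x‖ * R * R := by
          gcongr
          · exact hR a
          · exact hR b
      _ = R ^ 2 * ‖β x‖ := by ring
  have h := PtBound_norm6 (S.cp β x) (M := R ^ 2 * ‖β x‖) (by positivity) (by
    intro i
    fin_cases i
    · exact key 0 1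
    · exact key 0 2
    · exact key 0 3
    · exact key 1 2
    · exact key 1 3
    · exact key 2 3)
  linarith

theorem PtBound_snd : ∃ R : ℝ, 0 ≤ R ∧ (∀ z ∈ S.X1, ‖z.2‖ ≤ R) ∧
    ∀ x ∈ S.X, ∀ a, ‖S.fr a x‖ ≤ R := by
  obtain ⟨R, hR, hX1⟩ := PtBound_cpt S.isCompact_X1 (continuous_snd (X := EN N) (Y := EN N))
  refine ⟨R, hR, hX1, fun x hx a => ?_⟩
  have h := hX1 (x, S.fr a x) (S.fr_mem_X1 hx a)
  have h2 : (x, S.fr a x).2 = S.fr a x := by rfl
  rw [h2] at h
  exact h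

theorem PtBound_th {x : EN N} {CF CJ R : ℝ} (hCF : 0 ≤ CF) (hCJ : 0 ≤ CJ) (hR : 0 ≤ R)
    (hF : ‖S.F x‖ ≤ CF) (hJ : ‖S.J x‖ ≤ CJ) {a : Fin 4} (hfr : ‖S.fr a x‖ ≤ R) :
    ‖S.th a x‖ ≤ CF * CJ * R := by
  refine ContinuousLinearMap.opNorm_le_bound _ (by positivity) fun v => ?_
  have h1 : |S.F x v (S.J x (S.fr a x))| ≤ ‖S.F x‖ * ‖v‖ * ‖S.J x (S.fr a x)‖ :=
    Bil.abs_apply_le _ _ _
  have h2 : ‖S.J x (S.fr a x)‖ ≤ CJ * R :=
    ((S.J x).le_opNorm _).trans (mul_le_mul hJ hfr (norm_nonneg _) hCJ)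
  have h3 : ‖S.F x‖ * ‖v‖ * ‖S.J x (S.fr a x)‖ ≤ CF * ‖v‖ * (CJ * R) := by gcongr
  have h4 : ‖S.th a x v‖ = |S.F x v (S.J x (S.fr a x))| := rfl
  rw [h4]
  refine h1.trans (h3.trans (le_of_eq ?_))
  ring

theorem PtBound_up {x : EN N} {Cω CJ : ℝ} (hCω : 0 ≤ Cω) (hω : ‖S.om x‖ ≤ Cω)
    (hJ : ‖S.J x‖ ≤ CJ) (v : EN N) : S.om x v (S.J x v) ≤ Cω * CJ * ‖v‖ ^ 2 := by
  refine (le_abs_self _).trans ((Bil.abs_apply_le _ _ _).trans ?_)
  have h6 : ‖S.J x v‖ ≤ CJ * ‖v‖ :=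
    ((S.J x).le_opNorm _).trans (mul_le_mul_of_nonneg_right hJ (norm_nonneg _))
  calc ‖S.om x‖ * ‖v‖ * ‖S.J x v‖ ≤ Cω * ‖v‖ * (CJ * ‖v‖) := by gcongr
    _ = Cω * CJ * ‖v‖ ^ 2 := by ring

/-- Uniform bounds. The metric om(., J .) and the Euclidean norm are comparable on tangent vectors:
by compactness of the set {(x, v) : x in X, v tangent, ‖v‖ = 1} and om_tame.  Hence the frame, the
coframe, D, J are bounded on X; D is bounded on the (bounded) set Ud. -/
theorem exists_bound : ∃ C : ℝ, 1 ≤ C ∧ (∀ x ∈ S.X, ‖S.J x‖ ≤ C ∧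
    (∀ a, ‖S.fr a x‖ ≤ C) ∧ (∀ a, ‖S.th a x‖ ≤ C) ∧
    (∀ v, S.Tan x v → ‖v‖ ^ 2 ≤ C * S.om x v (S.J x v) ∧ S.om x v (S.J x v) ≤ C * ‖v‖ ^ 2) ∧
    (∀ b : EN N → C6, ‖S.rc b x‖ ≤ C * ‖b x‖) ∧
    (∀ β : EN N → Bil N, ‖S.cp β x‖ ≤ C * ‖β x‖)) ∧
    (∀ y ∈ S.Ud, ‖S.D y‖ ≤ C) ∧ (∀ z ∈ S.X1, ‖z.2‖ ≤ C) := by
  obtain ⟨c, hc, hlow⟩ := S.PtBound_exists_low
  obtain ⟨CJ, hCJ, hJ⟩ := PtBound_cpt S.cptX S.smooth_J.continuous
  obtain ⟨CF, hCF, hF⟩ := PtBound_cpt S.cptX S.PtBound_smooth_F.continuous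
  obtain ⟨Cω, hCω, hω⟩ := PtBound_cpt S.cptX S.smooth_om.continuous
  obtain ⟨CD, hCD, hD⟩ := PtBound_cpt S.Ud_bounded.isCompact_closure S.smooth_D.continuous
  obtain ⟨R, hR, hX1, hfr⟩ := S.PtBound_snd
  have hth : ∀ x ∈ S.X, ∀ a, ‖S.th a x‖ ≤ CF * CJ * R := fun x hx a =>
    S.PtBound_th hCF hCJ hR (hF x hx) (hJ x hx) (hfr x hx a)
  obtain ⟨T, hTdef⟩ : ∃ T : ℝ, T = CF * CJ * R := ⟨_, rfl⟩
  rw [← hTdef] at hth
  have hT : 0 ≤ T := by rw [hTdef]; positivity
  have hc' : 0 < c⁻¹ := inv_pos.mpr hc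
  refine ⟨1 + CJ + R + T + c⁻¹ + Cω * CJ + 12 * T ^ 2 + 3 * R ^ 2 + CD, ?_, ?_, ?_, ?_⟩
  · have : 0 ≤ Cω * CJ := by positivity
    have h3 : 0 ≤ 12 * T ^ 2 := by positivity
    have h4 : 0 ≤ 3 * R ^ 2 := by positivity
    linarith
  · intro x hx
    have h2 : 0 ≤ Cω * CJ := by positivity
    have h3 : 0 ≤ 12 * T ^ 2 := by positivity
    have h4 : 0 ≤ 3 * R ^ 2 := by positivity
    refine ⟨?_, ?_, ?_, ?_, ?_, ?_⟩
    · have := hJ x hx
      linarith
    · intro a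
      have := hfr x hx a
      linarith
    · intro a
      have := hth x hx a
      linarith
    · intro v hv
      constructor
      · have h := hlow x hx v hv
        have h5 : ‖v‖ ^ 2 ≤ c⁻¹ * S.om x v (S.J x v) := by
          rw [inv_mul_eq_div, le_div_iff₀ hc]
          linarith
        have h6 : 0 ≤ S.om x v (S.J x v) := le_trans (by positivity) h
        refine h5.trans (mul_le_mul_of_nonneg_right ?_ h6)
        linarith
      · have h5 : S.om x v (S.J x v) ≤ Cω * CJ * ‖v‖ ^ 2 :=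
          S.PtBound_up hCω (hω x hx) (hJ x hx) v
        refine h5.trans (mul_le_mul_of_nonneg_right ?_ (sq_nonneg _))
        linarith
    · intro b
      have h := S.PtBound_rc (hth x hx) b
      refine h.trans (mul_le_mul_of_nonneg_right ?_ (norm_nonneg _))
      linarith
    · intro β
      have h := S.PtBound_cp (hfr x hx) β
      refine h.trans (mul_le_mul_of_nonneg_right ?_ (norm_nonneg _))
      linarith
  · intro y hy
    have h2 : 0 ≤ Cω * CJ := by positivity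
    have h3 : 0 ≤ 12 * T ^ 2 := by positivity
    have h4 : 0 ≤ 3 * R ^ 2 := by positivity
    have := hD y (subset_closure hy)
    linarith
  · intro z hz
    have h2 : 0 ≤ Cω * CJ := by positivity
    have h3 : 0 ≤ 12 * T ^ 2 := by positivity
    have h4 : 0 ≤ 3 * R ^ 2 := by positivity
    have := hX1 z hz
    linarith

/-- Lipschitz bounds for smooth maps near X: a C^1 map is Lipschitz on the compact convex set
`closedBall 0 R` containing the 1-neighbourhood of X. -/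
theorem smooth_lip {E : Type*} [NormedAddCommGroup E] [NormedSpace ℝ E] (f : EN N → E)
    (hf : ContDiff ℝ ∞ f) : ∃ L : ℝ, 0 ≤ L ∧ ∀ x ∈ S.X, ∀ h : EN N, ‖h‖ ≤ 1 →
      ‖f (x + h) - f x‖ ≤ L * ‖h‖ ∧ ‖f (x + h)‖ ≤ L ∧ ‖fderiv ℝ f (x + h)‖ ≤ L := by
  obtain ⟨R, hR⟩ := S.cptX.isBounded.exists_norm_le
  have hK : IsCompact (Metric.closedBall (0 : EN N) (R + 1)) := isCompact_closedBall _ _
  obtain ⟨L1, hL1, h1⟩ := PtBound_cpt hK hf.continuous
  obtain ⟨L2, hL2, h2⟩ := PtBound_cpt hK (hf.continuous_fderiv (by simp))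
  refine ⟨L1 + L2, by positivity, fun x hx h hh => ?_⟩
  have hxR := hR x hx
  have hxm : x ∈ Metric.closedBall (0 : EN N) (R + 1) := by
    rw [mem_closedBall_zero_iff]
    linarith
  have hym : x + h ∈ Metric.closedBall (0 : EN N) (R + 1) := by
    rw [mem_closedBall_zero_iff]
    exact (norm_add_le _ _).trans (add_le_add hxR hh)
  refine ⟨?_, ?_, ?_⟩
  · have h3 := (convex_closedBall (0 : EN N) (R + 1)).norm_image_sub_le_of_norm_fderiv_le
      (𝕜 := ℝ) (f := f) (C := L2) (fun z _ => (hf.differentiable (by simp)) z) (fun z hz => h2 z hz)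
      hxm hym
    rw [add_sub_cancel_left] at h3
    refine h3.trans (mul_le_mul_of_nonneg_right ?_ (norm_nonneg _))
    linarith
  · have := h1 _ hym
    linarith
  · have := h2 _ hym
    linarith

theorem PtBound_measurable_J {v : EN N → EN N} (hv : Measurable v) :
    Measurable (fun x => S.J x (v x)) := by
  have h1 : Continuous fun z : EN N × EN N => S.J z.1 z.2 :=
    (S.smooth_J.continuous.comp continuous_fst).clm_apply continuous_snd
  exact h1.measurable.comp (measurable_id.prodMk hv)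

theorem measurable_th (a : Fin 4) : Measurable (S.th a) := by
  have h1 : Continuous fun z : Bil N × EN N => z.1.right z.2 := by
    have h2 : Continuous fun z : Bil N × EN N => (Bil.toCLM z.1).flip :=
      (ContinuousLinearMap.flipₗᵢ ℝ (EN N) (EN N) ℝ).continuous.comp
        (Bil.toCLM.continuous.comp continuous_fst)
    exact h2.clm_apply continuous_snd
  have h3 := h1.measurable.comp (S.measurable_F.prodMk (S.PtBound_measurable_J (S.meas_fr a)))
  rw [Function.comp_def] at h3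
  exact h3

theorem measurable_rc {b : EN N → C6} (hb : Measurable b) : Measurable (S.rc b) := by
  rw [Bil.measurable_iff]
  intro u v
  have hth : ∀ (a : Fin 4) (w : EN N), Measurable fun x => S.th a x w := by
    intro a w
    exact ((ContinuousLinearMap.apply ℝ ℝ w).continuous.measurable).comp (S.measurable_th a)
  have hbi : ∀ i : Fin 6, Measurable fun x => b x i := by
    intro i
    exact ((EuclideanSpace.proj (𝕜 := ℝ) i).continuous.measurable).comp hb
  have : (fun x => S.rc b x u v) = fun x =>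
      b x 0 * (S.th 0 x u * S.th 1 x v - S.th 0 x v * S.th 1 x u)
      + b x 1 * (S.th 0 x u * S.th 2 x v - S.th 0 x v * S.th 2 x u)
      + b x 2 * (S.th 0 x u * S.th 3 x v - S.th 0 x v * S.th 3 x u)
      + b x 3 * (S.th 1 x u * S.th 2 x v - S.th 1 x v * S.th 2 x u)
      + b x 4 * (S.th 1 x u * S.th 3 x v - S.th 1 x v * S.th 3 x u)
      + b x 5 * (S.th 2 x u * S.th 3 x v - S.th 2 x v * S.th 3 x u) := by
    funext x
    exact S.rc_apply b x u v
  rw [this]
  have key : ∀ i (a c : Fin 4),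
      Measurable fun x => b x i * (S.th a x u * S.th c x v - S.th a x v * S.th c x u) :=
    fun i a c => (hbi i).mul (((hth a u).mul (hth c v)).sub ((hth a v).mul (hth c u)))
  exact (((((key 0 0 1).add (key 1 0 2)).add (key 2 0 3)).add (key 3 1 2)).add
    (key 4 1 3)).add (key 5 2 3)

theorem PtBound_measurable_app {β : EN N → Bil N} (hβ : Measurable β) (a b : Fin 4) :
    Measurable fun x => β x (S.fr a x) (S.fr b x) := by
  have h1 : Continuous fun p : Bil N × EN N × EN N => p.1 p.2.1 p.2.2 :=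
    PtBound_continuous_app continuous_fst (continuous_fst.comp continuous_snd)
      (continuous_snd.comp continuous_snd)
  exact h1.measurable.comp (hβ.prodMk ((S.meas_fr a).prodMk (S.meas_fr b)))

theorem measurable_cp {β : EN N → Bil N} (hβ : Measurable β) : Measurable (S.cp β) := by
  have h : Measurable fun x => (fun i => S.cp β x i : Fin 6 → ℝ) := by
    rw [measurable_pi_iff]
    intro i
    fin_cases i
    · exact S.PtBound_measurable_app hβ 0 1
    · exact S.PtBound_measurable_app hβ 0 2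
    · exact S.PtBound_measurable_app hβ 0 3
    · exact S.PtBound_measurable_app hβ 1 2
    · exact S.PtBound_measurable_app hβ 1 3
    · exact S.PtBound_measurable_app hβ 2 3
  exact (PiLp.continuous_toLp 2 (fun _ : Fin 6 => ℝ)).measurable.comp h

theorem ae_mem_X : ∀ᵐ x ∂S.nu, x ∈ S.X := by
  rw [ae_iff]
  exact S.nu_compl

/-- components of a smooth form are measurable, bounded on X, hence square integrable -/
theorem L2F_cp {β : EN N → Bil N} (hβ : Continuous β) : S.L2F (S.cp β) := by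
  obtain ⟨C, hC1, hC, -, -⟩ := S.exists_bound
  obtain ⟨B, hB, hb⟩ := PtBound_cpt S.cptX hβ
  refine ⟨S.measurable_cp hβ.measurable, ?_⟩
  refine MemLp.of_bound (S.measurable_cp hβ.measurable).aestronglyMeasurable (C * B) ?_
  filter_upwards [S.ae_mem_X] with x hx
  refine ((hC x hx).2.2.2.2.2 β).trans ?_
  exact mul_le_mul_of_nonneg_left (hb x hx) (by linarith)

end Setup

end Pool.Agent.W_MP_d8b8b7_gt
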