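import Pool.Agent.W_MP_d8b8b7_h77.G6Final
import Pool.Agent.W_MP_d8b8b7_gt.EM5
import Pool.Agent.W_MP_d8b8b7_gt.UpEx
import Pool.Agent.W_MP_d8b8b7_gt_G3.Weak
import Pool.Agent.W_MP_d8b8b7_gt_G3.ClosedRb

/-!
Result of (G5), (G6), (L), (K): the two pairing theorems used by the assembly.
-/

namespace Pool.Agent.W_MP_d8b8b7_gt

open MeasureTheory Set Filter Topology
open scoped ContDiff ENNReal

variable {N : ℕ}

namespace Setup

variable (S : Setup N)

theorem ctr_elMir : S.ElMir := fun _ _ _ h1 h2 h3 h4 h5 h6 =>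
  S.elMir_global h1 h3 h2 h4 h5 h6

theorem ctr_closedRb : S.ClosedRb := by
  obtain ⟨d1, h0, h1, h⟩ := S.closed_Rb
  exact ⟨d1, h0, h1.le, fun δ hδ hδ1 q hq hqs z hz hw => h δ hδ hδ1 q ⟨hq, hqs⟩ z hz hw⟩

theorem ctr_dens : S.DensClosed := fun z hz hw η hη => by
  obtain ⟨β, hβ, hc, hn⟩ := S.dense_closed hz hw hη
  refine ⟨β, hβ, hc, ?_⟩
  have h : z - S.cp β = (-1 : ℝ) • (S.cp β - z) := by
    rw [neg_one_smul, neg_sub]
  rw [h, S.nrm_smul]
  simpa using hn.le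

/-- a closed positive P ≥ ε F and a current T + T'' which kills closed forms cannot coexist -/
theorem contra_A (mP mT : Measure (EN N × EN N)) (T : (EN N → Bil N) → ℝ) (ε : ℝ) (hε : 0 < ε)
    (k : ℕ) (K : ℝ) (hP : S.IsP ε mP) (hT : S.IsTc k K mT T) : False := by
  have hU := S.upPair_closed S.ctr_dens hT
  obtain ⟨⟨t, ht, hta, hrep⟩, hdT⟩ := UpPair.out S hU
  exact S.g6_contra_A S.ctr_elMir S.ctr_closedRb hε hP hT ht hta hrep (IsP.out S hP) hdT

/-- the class version -/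
theorem contra_B (hL : S.Lor) (mP mT : Measure (EN N × EN N)) (T : (EN N → Bil N) → ℝ) (ε : ℝ)
    (hε : 0 < ε) (k : ℕ) (K : ℝ) (hP : S.IsPcls ε mP) (hT : S.IsT k K mT T) :
    0 < S.Pm mT S.om + T S.om := by
  have hU := S.upPair_lor S.ctr_dens hL hT
  obtain ⟨⟨t, ht, hta, hrep⟩, -⟩ := UpPair.out S hU
  exact S.g6_contra_B S.ctr_elMir S.ctr_closedRb S.ctr_dens hε hP hT ht hta hrep
    (IsP.out S hP.toIsP)

end Setup

end Pool.Agent.W_MP_d8b8b7_gt
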