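import Pool.Agent.W_MP_d8b8b7_gt.Bil

/-!
Extrinsic description of a closed almost complex four-manifold (M, J) tamed by a symplectic form.
M is embedded in R^N as the compact set X, rho is a smooth map whose restriction to the open
neighbourhood U of X is a retraction onto X, and D x = fderiv rho x is, for x in X, a projection
of R^N onto the tangent space T_x X.  All other modules of the analytic part only use Setup.
-/

namespace Pool.Agent.W_MP_d8b8b7_gt

open MeasureTheory Set Filter Topology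
open scoped ContDiff ENNReal

/-- components of a 2-form on a four dimensional space in a frame, order 01 02 03 12 13 23 -/
abbrev C6 : Type := EuclideanSpace ℝ (Fin 6)

variable {N : ℕ}

/-- exterior derivative of a 1-form (a field of covectors) -/
noncomputable def dOne (α : EN N → Cov N) (x : EN N) : Bil N :=
  Bil.toCLM.symm (fderiv ℝ α x) - (Bil.toCLM.symm (fderiv ℝ α x)).flip

@[simp] theorem dOne_apply (α : EN N → Cov N) (x u v : EN N) :
    dOne α x u v = fderiv ℝ α x u v - fderiv ℝ α x v u := rfl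

/-- exterior derivative of a 2-form, evaluated on three vectors -/
noncomputable def dTwo (β : EN N → Bil N) (x u v w : EN N) : ℝ :=
  fderiv ℝ β x u v w - fderiv ℝ β x v u w + fderiv ℝ β x w u v

/-- the wedge pairing of two 2-forms given by components in a positively oriented volume one frame -/
def wedge (a b : C6) : ℝ :=
  a 0 * b 5 - a 1 * b 4 + a 2 * b 3 + a 3 * b 2 - a 4 * b 1 + a 5 * b 0

/-- Hodge star in an oriented orthonormal frame -/
noncomputable def star6 (a : C6) : C6 := !₂[a 5, - a 4, a 3, a 2, - a 1, a 0]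

/-- the (1,1) part in a unitary frame (f1 = J f0, f3 = J f2) -/
noncomputable def pr1 (a : C6) : C6 :=
  !₂[a 0, (a 1 + a 4) / 2, (a 2 - a 3) / 2, (a 3 - a 2) / 2, (a 1 + a 4) / 2, a 5]

/-- the J-anti-invariant part in a unitary frame -/
noncomputable def pr2 (a : C6) : C6 :=
  !₂[0, (a 1 - a 4) / 2, (a 2 + a 3) / 2, (a 2 + a 3) / 2, (a 4 - a 1) / 2, 0]

/-- components of the fundamental form -/
noncomputable def Fc : C6 := !₂[1, 0, 0, 0, 0, 1]

/-- the six components of a bilinear form on four vectors -/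
noncomputable def comp6 (b : Bil N) (f : Fin 4 → EN N) : C6 :=
  !₂[b (f 0) (f 1), b (f 0) (f 2), b (f 0) (f 3), b (f 1) (f 2), b (f 1) (f 3), b (f 2) (f 3)]

/-- standard basis of R^4 -/
noncomputable def std4 (i : Fin 4) : EN 4 := EuclideanSpace.single i 1

/-- The geometric data. -/
structure Geom (N : ℕ) where
  /-- the compact four dimensional submanifold -/
  X : Set (EN N)
  /-- a neighbourhood of X on which rho is a retraction onto X -/
  U : Set (EN N)
  /-- a globally smooth map, on U a retraction onto X -/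
  rho : EN N → EN N
  /-- the almost complex structure, extended to R^N; J x vanishes on the kernel of D x -/
  J : EN N → (EN N →L[ℝ] EN N)
  /-- the taming symplectic form, extended to R^N -/
  om : EN N → Bil N
  cptX : IsCompact X
  neX : X.Nonempty
  openU : IsOpen U
  subU : X ⊆ U
  smooth_rho : ContDiff ℝ ∞ rho
  rho_mem : ∀ y ∈ U, rho y ∈ X
  rho_fix : ∀ x ∈ X, rho x = x
  smooth_J : ContDiff ℝ ∞ J
  J_D : ∀ x ∈ X, ∀ v, J x (fderiv ℝ rho x v) = J x v
  D_J : ∀ x ∈ X, ∀ v, fderiv ℝ rho x (J x v) = J x v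
  J_J : ∀ x ∈ X, ∀ v, J x (J x v) = - fderiv ℝ rho x v
  smooth_om : ContDiff ℝ ∞ om
  om_alt : ∀ x v, om x v v = 0
  om_closed : ∀ x ∈ X, ∀ u v w, fderiv ℝ rho x u = u → fderiv ℝ rho x v = v →
    fderiv ℝ rho x w = w → dTwo om x u v w = 0
  om_tame : ∀ x ∈ X, ∀ v, fderiv ℝ rho x v = v → v ≠ 0 → 0 < om x v (J x v)

/-- a smooth 1-form -/
def IsOne (α : EN N → Cov N) : Prop := ContDiff ℝ ∞ α

/-- a smooth 2-form -/
structure IsForm (β : EN N → Bil N) : Prop where
  smooth : ContDiff ℝ ∞ β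
  alt : ∀ x v, β x v v = 0

namespace Geom

variable (G : Geom N)

/-- projection onto the tangent space (for points of X) -/
noncomputable def D (x : EN N) : EN N →L[ℝ] EN N := fderiv ℝ G.rho x

/-- v is tangent to X at x -/
def Tan (x v : EN N) : Prop := G.D x v = v

/-- closed on X -/
def Closed (β : EN N → Bil N) : Prop :=
  ∀ x ∈ G.X, ∀ u v w, G.Tan x u → G.Tan x v → G.Tan x w → dTwo β x u v w = 0

/-- the J-invariant part at points of X -/
noncomputable def inv (β : EN N → Bil N) (x : EN N) : Bil N :=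
  (1 / 2 : ℝ) • (Bil.pull (G.D x) (β x) + Bil.pull (G.J x) (β x))

/-- alternation followed by the projection on the tangential J-anti-invariant part: for an
alternating bilinear form b this is (b(D.,D.) - b(J.,J.))/2 -/
noncomputable def antiB (x : EN N) (b : Bil N) : Bil N :=
  (1 / 4 : ℝ) • ((Bil.pull (G.D x) b - Bil.pull (G.J x) b) - (Bil.pull (G.D x) b - Bil.pull (G.J x) b).flip)

/-- the J-anti-invariant part at points of X (of the alternating part of β) -/
noncomputable def anti (β : EN N → Bil N) (x : EN N) : Bil N := G.antiB x (β x)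

/-- fundamental form of the metric om(., J .) -/
noncomputable def F (x : EN N) : Bil N := G.inv G.om x

/-- unit tangent vectors -/
def X1 : Set (EN N × EN N) :=
  {z | z.1 ∈ G.X ∧ G.Tan z.1 z.2 ∧ G.om z.1 z.2 (G.J z.1 z.2) = 1}

/-- evaluation of a 2-form on the complex line spanned by a unit vector -/
noncomputable def ev (β : EN N → Bil N) (z : EN N × EN N) : ℝ := β z.1 z.2 (G.J z.1 z.2)

/-- regularisation of SMOOTH forms: average of the pull backs of β by x ↦ rho (x + δ s) with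
weight p(s) -/
noncomputable def R (p : EN N → ℝ) (δ : ℝ) (β : EN N → Bil N) (x : EN N) : Bil N :=
  ∫ s, p s • Bil.pull (G.D (x + δ • s)) (β (G.rho (x + δ • s)))

/-- the same for 1-forms -/
noncomputable def Rone (p : EN N → ℝ) (δ : ℝ) (α : EN N → Cov N) (x : EN N) : Cov N :=
  ∫ s, p s • (α (G.rho (x + δ • s))).comp (G.D (x + δ • s))

/-- the C^k norm of the anti-invariant part on X is at most c (it only depends on the restriction
of β to the tangent spaces of X, because rho maps U to X) -/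
def AntiLe (k : ℕ) (β : EN N → Bil N) (c : ℝ) : Prop :=
  ∀ x ∈ G.X, ∀ j ≤ k, ‖iteratedFDeriv ℝ j (fun y => G.anti β (G.rho y)) x‖ ≤ c

/-- the C^k norm of the tangential part on X is at most c -/
def CkLe (k : ℕ) (β : EN N → Bil N) (c : ℝ) : Prop :=
  ∀ x ∈ G.X, ∀ j ≤ k, ‖iteratedFDeriv ℝ j (fun y => Bil.pull (G.D (G.rho y)) (β (G.rho y))) x‖ ≤ c

/-- two fields agree on tangent vectors of X -/
def TanEq (β γ : EN N → Bil N) : Prop :=
  ∀ x ∈ G.X, ∀ u v, G.Tan x u → G.Tan x v → β x u v = γ x u v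

end Geom

/-- A chart ψ : unit ball of R^4 → X with left inverse κ; V is open in R^N, h the density of nu,
σ = ± 1 the orientation. -/
structure IsChart (G : Geom N) (nu : Measure (EN N)) (fr : Fin 4 → EN N → EN N)
    (ψ : EN 4 → EN N) (κ : EN N → EN 4) (V : Set (EN N)) (h : EN 4 → ℝ) (σ : ℝ) : Prop where
  smooth_psi : ContDiff ℝ ∞ ψ
  smooth_kap : ContDiff ℝ ∞ κ
  openV : IsOpen V
  smooth_h : ContDiff ℝ ∞ h
  h_pos : ∀ y ∈ Metric.ball (0 : EN 4) 1, 0 < h y
  sgn : σ = 1 ∨ σ = -1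
  image : G.X ∩ V = ψ '' Metric.ball 0 1
  kap_psi : ∀ y ∈ Metric.ball (0 : EN 4) 1, κ (ψ y) = y
  lint : ∀ f : EN N → ℝ≥0∞, Measurable f → ∫⁻ x in V, f x ∂nu =
    ∫⁻ y in Metric.ball (0 : EN 4) 1, f (ψ y) * ENNReal.ofReal (h y)
  orient : ∀ y ∈ Metric.ball (0 : EN 4) 1, ∀ b c : Bil N, (∀ v, b v v = 0) → (∀ v, c v v = 0) →
    wedge (comp6 b (fun a => fr a (ψ y))) (comp6 c (fun a => fr a (ψ y))) * h y =
    σ * wedge (comp6 (Bil.pull (fderiv ℝ ψ y) b) std4) (comp6 (Bil.pull (fderiv ℝ ψ y) c) std4)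

/-- Geometric data together with the volume measure nu of the metric om(., J .) on X, a measurable
unitary frame, Stokes theorem, elementary kernel bounds and charts. -/
structure Setup (N : ℕ) extends Geom N where
  /-- Riemannian volume of X, as a measure on R^N -/
  nu : Measure (EN N)
  /-- Borel unitary frame -/
  fr : Fin 4 → EN N → EN N
  fin_nu : IsFiniteMeasure nu
  nu_compl : nu Xᶜ = 0
  meas_fr : ∀ a, Measurable (fr a)
  fr_tan : ∀ x ∈ X, ∀ a, fderiv ℝ rho x (fr a x) = fr a x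
  fr_J0 : ∀ x ∈ X, J x (fr 0 x) = fr 1 x
  fr_J2 : ∀ x ∈ X, J x (fr 2 x) = fr 3 x
  fr_orth : ∀ x ∈ X, ∀ a b, toGeom.F x (fr a x) (J x (fr b x)) = if a = b then 1 else 0
  fr_span : ∀ x ∈ X, ∀ v, fderiv ℝ rho x v = ∑ a, toGeom.F x v (J x (fr a x)) • fr a x
  stokes : ∀ (α : EN N → Cov N) (β : EN N → Bil N), IsOne α → IsForm β → toGeom.Closed β →
    ∫ x, wedge (comp6 (dOne α x) (fun a => fr a x)) (comp6 (β x) (fun a => fr a x)) ∂nu = 0
  /-- a constant -/
  C1 : ℝ
  /-- maximal scale -/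
  d0 : ℝ
  one_le_C1 : 1 ≤ C1
  d0_pos : 0 < d0
  d0_le : d0 ≤ 1
  tube : ∀ x ∈ X, ∀ s : EN N, ‖s‖ ≤ d0 → x + s ∈ U
  near : ∀ x ∈ X, ∀ s : EN N, ‖s‖ ≤ d0 → ‖rho (x + s) - x‖ ≤ C1 * ‖s‖
  ker_up : ∀ x ∈ X, ∀ δ : ℝ, 0 < δ → δ ≤ d0 → ∀ f : EN N → ℝ≥0∞, Measurable f →
    ∫⁻ s in Metric.ball 0 1, f (rho (x + δ • s)) ≤
      ENNReal.ofReal (C1 * δ⁻¹ ^ 4) * ∫⁻ y in Metric.closedBall x (C1 * δ), f y ∂nu
  ker_low : ∀ δ : ℝ, 0 < δ → δ ≤ d0 → ∀ f : EN N → ℝ≥0∞, Measurable f →
    ENNReal.ofReal C1⁻¹ * ∫⁻ y, f y ∂nu ≤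
      ∫⁻ x, ∫⁻ s in Metric.ball 0 (1 / 2), f (rho (x + δ • s)) ∂volume ∂nu
  vol_ball : ∀ (x : EN N) (r : ℝ), 0 < r → nu (Metric.closedBall x r) ≤ ENNReal.ofReal (C1 * r ^ 4)
  charts : ∀ x₀ ∈ X, ∃ (ψ : EN 4 → EN N) (κ : EN N → EN 4) (V : Set (EN N)) (h : EN 4 → ℝ) (σ : ℝ),
    IsChart toGeom nu fr ψ κ V h σ ∧ ψ 0 = x₀

namespace Setup

variable (S : Setup N)

instance instFinNu : IsFiniteMeasure S.nu := S.fin_nu

/-- components of a 2-form in the frame -/
noncomputable def cp (β : EN N → Bil N) (x : EN N) : C6 := comp6 (β x) (fun a => S.fr a x)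

/-- the dual frame at x: v ↦ g(v, f_a) -/
noncomputable def th (a : Fin 4) (x : EN N) : Cov N := (S.F x).right (S.J x (S.fr a x))

/-- the form with given components in the frame -/
noncomputable def rc (b : EN N → C6) (x : EN N) : Bil N :=
  (b x 0) • Bil.asym (S.th 0 x) (S.th 1 x) + (b x 1) • Bil.asym (S.th 0 x) (S.th 2 x) +
  (b x 2) • Bil.asym (S.th 0 x) (S.th 3 x) + (b x 3) • Bil.asym (S.th 1 x) (S.th 2 x) +
  (b x 4) • Bil.asym (S.th 1 x) (S.th 3 x) + (b x 5) • Bil.asym (S.th 2 x) (S.th 3 x)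

/-- the open (d0/2)-neighbourhood of X -/
def Ud : Set (EN N) := {y | Metric.infDist y S.X < S.d0 / 2}

/-- the field y ↦ β(rho y) (no pull back), cut off outside Ud; β has components b in the frame -/
noncomputable def ex (b : EN N → C6) (y : EN N) : Bil N :=
  S.Ud.indicator (fun y => S.rc b (S.rho y)) y

/-- regularisation of a MEASURABLE 2-form with components b: average of the pull backs by
x ↦ rho (x + δ s), with weight p(s) -/
noncomputable def Rb (p : EN N → ℝ) (δ : ℝ) (b : EN N → C6) (x : EN N) : Bil N :=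
  ∫ s, p s • Bil.pull (S.D (x + δ • s)) (S.ex b (x + δ • s))

/-- integral of the wedge product -/
noncomputable def B (a b : EN N → C6) : ℝ := ∫ x, wedge (a x) (b x) ∂S.nu

end Setup

end Pool.Agent.W_MP_d8b8b7_gt
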