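import Pool.Agent.W_MP_d8b8b7_gt_G3.Correction
import Pool.Agent.W_MP_d8b8b7_gt_G3.CorrLor
import Pool.Agent.W_MP_d8b8b7_h67.Exact

/-!
Correction lemma (G3) and its exact version for b⁺ = 1 on a Setup: statements used by the assembly.
-/

namespace Pool.Agent.W_MP_d8b8b7_gt

open MeasureTheory Set Filter Topology
open scoped ContDiff ENNReal

variable {N : ℕ}

namespace Setup

variable (S : Setup N)

/-- (G3) every smooth closed form β can be corrected: there is a smooth closed b with the same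
anti-invariant part and sup norm controlled by the C^k norm of the anti-invariant part. -/
theorem correction : ∃ (k : ℕ) (C : ℝ), ∀ β, IsForm β → S.Closed β → ∀ c, S.AntiLe k β c →
    ∃ b, IsForm b ∧ S.Closed b ∧ (∀ x ∈ S.X, S.anti b x = S.anti β x) ∧
      ∀ z ∈ S.X1, |S.ev b z| ≤ C * c := by
  obtain ⟨k, C, h⟩ := S.correction_aux
  exact ⟨k, C, fun β hβ _ c hc => h β hβ c hc⟩

/-- (G3) for b⁺ = 1: the correction can be taken exact. -/
theorem correction_lor (hL : S.Lor) : ∃ (k : ℕ) (C : ℝ), ∀ β, IsForm β → S.Closed β →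
    ∀ c, S.AntiLe k β c →
    ∃ α, IsOne α ∧ (∀ x ∈ S.X, S.anti (dOne α) x = S.anti β x) ∧
      ∀ z ∈ S.X1, |S.ev (dOne α) z| ≤ C * c := by
  obtain ⟨k, C, h⟩ := S.correction_lor_aux hL
  refine ⟨k, C, fun β hβ _ c hc => ?_⟩
  obtain ⟨w, hw, hwc, hex, hwa, hwb⟩ := h β hβ c hc
  obtain ⟨α, hα, hαw⟩ := W_MP_d8b8b7_h67.exact_of_closure S w hw hwc (fun ε hε => by
    obtain ⟨α, hα, hlt⟩ := hex.2 (Real.sqrt ε) (Real.sqrt_pos.2 hε)
    refine ⟨α, hα, ?_⟩
    have h1 := (Real.sqrt_lt_sqrt_iff (integral_nonneg fun x => by positivity)).1 hlt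
    exact h1)
  refine ⟨α, hα, fun x hx => ?_, fun z hz => ?_⟩
  · rw [← hwa x hx]
    exact S.anti_congr hx fun u v hu hv => (hαw x hx u v hu hv).symm
  · have h1 : S.ev (dOne α) z = S.ev w z := by
      obtain ⟨hzx, hzt, -⟩ := hz
      exact (hαw z.1 hzx z.2 (S.J z.1 z.2) hzt (S.tan_J hzx z.2)).symm
    rw [h1]
    exact hwb z hz

end Setup

end Pool.Agent.W_MP_d8b8b7_gt
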