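import Pool.Agent.W_MP_d8b8b7_gt.Setup

/-!
Definitions used by the global analytic modules: positive currents as measures on unit tangent
vectors, currents of order k acting on anti-invariant parts, profiles, energies and densities,
operators with amplitude.
-/

namespace Pool.Agent.W_MP_d8b8b7_gt

open MeasureTheory Set Filter Topology
open scoped ContDiff ENNReal

variable {N : ℕ}

/-- value of the 2-form with components a (in a unitary frame) on the complex line of v -/
noncomputable def evc (a : C6) (v : EN 4) : ℝ :=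
  a 0 * (v 0 ^ 2 + v 1 ^ 2) + a 5 * (v 2 ^ 2 + v 3 ^ 2)
    + (a 1 + a 4) * (v 1 * v 2 - v 0 * v 3) + (a 2 - a 3) * (v 0 * v 2 + v 1 * v 3)

/-- the (1,1) part of a is nonnegative -/
def Pos6 (a : C6) : Prop := ∀ v : EN 4, 0 ≤ evc a v

/-- admissible profiles: smooth, supported in the ball of radius 1/2, C^k norm at most 1 -/
structure Prof (k : ℕ) (p : EN N → ℝ) : Prop where
  smooth : ContDiff ℝ ∞ p
  supp : ∀ s, 1 / 2 ≤ ‖s‖ → p s = 0
  bound : ∀ j ≤ k, ∀ s, ‖iteratedFDeriv ℝ j p s‖ ≤ 1

/-- nonnegative profiles supported in the unit ball with C^k norm at most c -/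
structure QProf (k : ℕ) (c : ℝ) (q : EN N → ℝ) : Prop where
  smooth : ContDiff ℝ ∞ q
  supp : ∀ s, 1 ≤ ‖s‖ → q s = 0
  nonneg : ∀ s, 0 ≤ q s
  bound : ∀ j ≤ k, ∀ s, ‖iteratedFDeriv ℝ j q s‖ ≤ c

/-- total mass -/
noncomputable def mass (m : Measure (EN N × EN N)) : ℝ := (m univ).toReal

/-- the trace measure of m on R^N -/
noncomputable def tr (m : Measure (EN N × EN N)) : Measure (EN N) := m.map Prod.fst

namespace Setup

variable (S : Setup N)

/-- a positive (1,1) current: a finite measure on the unit tangent vectors of X -/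
structure IsPos (m : Measure (EN N × EN N)) : Prop where
  fin : IsFiniteMeasure m
  supp : m S.X1ᶜ = 0

/-- action of the positive current m on a 2-form -/
noncomputable def Pm (m : Measure (EN N × EN N)) (β : EN N → Bil N) : ℝ := ∫ z, S.ev β z ∂m

/-- the fundamental form F as a positive current -/
noncomputable def mF : Measure (EN N × EN N) :=
  S.nu.map (fun x => (x, S.fr 0 x)) + S.nu.map (fun x => (x, S.fr 2 x))

/-- T is a current of order k with constant K, acting on anti-invariant parts -/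
structure IsCur (k : ℕ) (K : ℝ) (T : (EN N → Bil N) → ℝ) : Prop where
  K_nonneg : 0 ≤ K
  add : ∀ β γ, ContDiff ℝ ∞ β → ContDiff ℝ ∞ γ → T (β + γ) = T β + T γ
  smul : ∀ (c : ℝ) β, ContDiff ℝ ∞ β → T (c • β) = c * T β
  bound : ∀ β c, ContDiff ℝ ∞ β → S.AntiLe k β c → |T β| ≤ K * c

/-- measurable square integrable component fields -/
structure L2F (b : EN N → C6) : Prop where
  meas : Measurable b
  memLp : MemLp b 2 S.nu

/-- L2 norm -/
noncomputable def nrm (b : EN N → C6) : ℝ := Real.sqrt (∫ x, ‖b x‖ ^ 2 ∂S.nu)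

/-- e bounds the smoothings of T at scale δ -/
def Ebd (k : ℕ) (T : (EN N → Bil N) → ℝ) (δ e : ℝ) : Prop :=
  ∀ p : EN N → ℝ, Prof k p → ∀ b, S.L2F b → |T (S.Rb p δ b)| ≤ e * S.nrm b

/-- averaged mass of m at scale δ -/
noncomputable def theta (m : Measure (EN N × EN N)) (δ : ℝ) (y : EN N) : ℝ :=
  δ⁻¹ ^ 4 * (m (Prod.fst ⁻¹' Metric.closedBall y (S.C1 * δ))).toReal

/-- the density functional D(δ) = δ^2 ∫ θ_δ^2 dν -/
noncomputable def dens (m : Measure (EN N × EN N)) (δ : ℝ) : ℝ :=
  δ ^ 2 * ∫ y, S.theta m δ y ^ 2 ∂S.nu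

/-- operators with amplitude A -/
noncomputable def Op (p : EN N → ℝ) (A : EN N → EN N → (Bil N →L[ℝ] Bil N)) (δ : ℝ)
    (b : EN N → C6) (x : EN N) : Bil N :=
  ∫ s, p s • A (δ • s) x (S.ex b (x + δ • s))

/-- the self-dual part of a component vector -/
noncomputable def sd (a : C6) : C6 := (1 / 2 : ℝ) • (a + star6 a)

/-- the anti-self-dual part of a component vector -/
noncomputable def asd (a : C6) : C6 := (1 / 2 : ℝ) • (a - star6 a)

/-- weakly closed: orthogonal for the wedge pairing to all exact smooth forms -/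
def WClosed (b : EN N → C6) : Prop := ∀ α, IsOne α → S.B (S.cp (dOne α)) b = 0

end Setup

end Pool.Agent.W_MP_d8b8b7_gt
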