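import Pool.Agent.W_MP_d8b8b7_gt.Defs

/-!
# Kernel integrals
By `vol_ball` and the layer cake formula or dyadic shells (nu is finite and X is compact, so
only shells |x-y| ≤ diam X matter): ν{|x-y| ≤ r} ≤ C1 r⁴.
-/

namespace Pool.Agent.W_MP_d8b8b7_gt

open MeasureTheory Set Filter Topology
open scoped ContDiff ENNReal

variable {N : ℕ}

theorem densA_pt {q ρ : ℝ} (hq : 0 < q) (hρ : 0 ≤ ρ) (hρq : ρ ^ 2 ≤ q) (h1 : q < 1) :
    ∃ j : ℕ, ρ ≤ (1 / 2) ^ j ∧ q⁻¹ ≤ 4 ^ (j + 1) := by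
  obtain ⟨j, hj1, hj2⟩ := exists_nat_pow_near_of_lt_one hq h1.le (by norm_num : (0 : ℝ) < 1 / 4)
    (by norm_num)
  refine ⟨j, ?_, ?_⟩
  · have h2 : ρ ^ 2 ≤ ((1 / 2 : ℝ) ^ j) ^ 2 := by
      rw [← pow_mul, mul_comm, pow_mul]
      norm_num at hj2 ⊢
      linarith
    exact (sq_le_sq₀ hρ (by positivity)).1 h2
  · rw [inv_le_comm₀ hq (by positivity)]
    refine le_trans (le_of_eq ?_) hj1.le
    rw [one_div, inv_pow]

namespace Setup

variable (S : Setup N)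

theorem densA_lint (x : EN N) {δ : ℝ} (hδ : 0 < δ) :
    ∫⁻ y, ENNReal.ofReal ((‖x - y‖ ^ 2 + δ ^ 2)⁻¹) ∂S.nu ≤
      S.nu univ + ENNReal.ofReal (16 / 3 * S.C1) := by
  have hC1 : 0 ≤ S.C1 := zero_le_one.trans S.one_le_C1
  have h1 : ∀ y : EN N, ENNReal.ofReal ((‖x - y‖ ^ 2 + δ ^ 2)⁻¹) ≤
      1 + ∑' j : ℕ, (Metric.closedBall x ((1 / 2) ^ j)).indicator
        (fun _ => ENNReal.ofReal (4 ^ (j + 1))) y := by
    intro y
    have hq : 0 < ‖x - y‖ ^ 2 + δ ^ 2 := by positivity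
    rcases le_or_gt 1 (‖x - y‖ ^ 2 + δ ^ 2) with h | h
    · refine le_trans ?_ le_self_add
      rw [← ENNReal.ofReal_one]
      exact ENNReal.ofReal_le_ofReal (inv_le_one_of_one_le₀ h)
    · obtain ⟨j, hj1, hj2⟩ := densA_pt hq (norm_nonneg (x - y)) (by nlinarith [sq_nonneg δ]) h
      refine le_trans ?_ le_add_self
      refine le_trans ?_ (ENNReal.le_tsum j)
      rw [indicator_of_mem]
      · exact ENNReal.ofReal_le_ofReal hj2
      · rw [Metric.mem_closedBall, dist_comm, dist_eq_norm]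
        exact hj1
  calc ∫⁻ y, ENNReal.ofReal ((‖x - y‖ ^ 2 + δ ^ 2)⁻¹) ∂S.nu
      ≤ ∫⁻ y, (1 + ∑' j : ℕ, (Metric.closedBall x ((1 / 2) ^ j)).indicator
        (fun _ => ENNReal.ofReal (4 ^ (j + 1))) y) ∂S.nu := lintegral_mono h1
    _ = S.nu univ + ∑' j : ℕ, ENNReal.ofReal (4 ^ (j + 1)) *
          S.nu (Metric.closedBall x ((1 / 2) ^ j)) := by
        rw [lintegral_add_left measurable_const, lintegral_one, lintegral_tsum]
        · congr 1
          apply tsum_congr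
          intro j
          rw [lintegral_indicator Metric.isClosed_closedBall.measurableSet, setLIntegral_const]
        · intro j
          exact (measurable_const.indicator Metric.isClosed_closedBall.measurableSet).aemeasurable
    _ ≤ S.nu univ + ∑' j : ℕ, ENNReal.ofReal (4 * S.C1 * (1 / 4) ^ j) := by
        gcongr with j
        refine (mul_le_mul_right (S.vol_ball x ((1 / 2) ^ j) (by positivity)) _).trans ?_
        rw [← ENNReal.ofReal_mul (by positivity)]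
        apply ENNReal.ofReal_le_ofReal
        apply le_of_eq
        have e : (4 : ℝ) ^ (j + 1) * (S.C1 * ((1 / 2) ^ j) ^ 4) =
            4 * S.C1 * ((4 : ℝ) ^ j * (((1 / 2) ^ j) ^ 4)) := by ring
        rw [e, ← pow_mul, mul_comm j 4, pow_mul, ← mul_pow]
        norm_num
    _ = S.nu univ + ENNReal.ofReal (16 / 3 * S.C1) := by
        congr 1
        rw [← ENNReal.ofReal_tsum_of_nonneg (fun j => by positivity)
          ((summable_geometric_of_lt_one (by norm_num) (by norm_num)).mul_left _),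
          tsum_mul_left, tsum_geometric_of_lt_one (by norm_num) (by norm_num)]
        congr 1
        ring

/-- kernel integrals: ∫ (|x-y|²+δ²)^{-1} dν ≤ C and δ² ∫ (|x-y|²+δ²)^{-2} dν ≤ C for x in X -/
theorem kernel_integrals : ∃ C : ℝ, 0 ≤ C ∧ ∀ x ∈ S.X, ∀ δ : ℝ, 0 < δ → δ ≤ 1 →
    ∫ y, (‖x - y‖ ^ 2 + δ ^ 2)⁻¹ ∂S.nu ≤ C ∧
    δ ^ 2 * ∫ y, ((‖x - y‖ ^ 2 + δ ^ 2)⁻¹) ^ 2 ∂S.nu ≤ C := by
  have hC1 : 0 ≤ S.C1 := zero_le_one.trans S.one_le_C1
  refine ⟨(S.nu univ).toReal + 16 / 3 * S.C1, by positivity, ?_⟩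
  intro x _ δ hδ _
  have hc : Continuous fun y : EN N => (‖x - y‖ ^ 2 + δ ^ 2)⁻¹ := by
    apply Continuous.inv₀
    · fun_prop
    · intro y
      positivity
  have hb : ∀ y : EN N, (‖x - y‖ ^ 2 + δ ^ 2)⁻¹ ≤ (δ ^ 2)⁻¹ := by
    intro y
    apply inv_anti₀ (by positivity)
    nlinarith [sq_nonneg ‖x - y‖]
  have hi : Integrable (fun y : EN N => (‖x - y‖ ^ 2 + δ ^ 2)⁻¹) S.nu := by
    apply Integrable.of_bound hc.aestronglyMeasurable ((δ ^ 2)⁻¹)
    apply ae_of_all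
    intro y
    rw [Real.norm_eq_abs, abs_of_pos (by positivity)]
    exact hb y
  have h1 : ∫ y, (‖x - y‖ ^ 2 + δ ^ 2)⁻¹ ∂S.nu ≤ (S.nu univ).toReal + 16 / 3 * S.C1 := by
    rw [integral_eq_lintegral_of_nonneg_ae (ae_of_all _ fun y => by positivity)
      hc.aestronglyMeasurable]
    apply ENNReal.toReal_le_of_le_ofReal (by positivity)
    refine (S.densA_lint x hδ).trans (le_of_eq ?_)
    rw [ENNReal.ofReal_add ENNReal.toReal_nonneg (by positivity),
      ENNReal.ofReal_toReal (measure_ne_top _ _)]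
  refine ⟨h1, ?_⟩
  refine le_trans ?_ h1
  rw [← integral_const_mul]
  have hi2 : Integrable (fun y : EN N => δ ^ 2 * ((‖x - y‖ ^ 2 + δ ^ 2)⁻¹) ^ 2) S.nu := by
    apply Integrable.mono' hi (by fun_prop)
    apply ae_of_all
    intro y
    have hq : 0 < ‖x - y‖ ^ 2 + δ ^ 2 := by positivity
    rw [Real.norm_eq_abs, abs_of_pos (by positivity), sq (_⁻¹), ← mul_assoc]
    apply mul_le_of_le_one_left (by positivity)
    rw [← div_eq_mul_inv, div_le_one hq]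
    nlinarith [sq_nonneg ‖x - y‖]
  apply integral_mono hi2 hi
  intro y
  have hq : 0 < ‖x - y‖ ^ 2 + δ ^ 2 := by positivity
  change δ ^ 2 * ((‖x - y‖ ^ 2 + δ ^ 2)⁻¹) ^ 2 ≤ (‖x - y‖ ^ 2 + δ ^ 2)⁻¹
  rw [sq (_⁻¹), ← mul_assoc]
  apply mul_le_of_le_one_left (by positivity)
  rw [← div_eq_mul_inv, div_le_one hq]
  nlinarith [sq_nonneg ‖x - y‖]

end Setup

end Pool.Agent.W_MP_d8b8b7_gt
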