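import Pool.Agent.W_MP_d8b8b7_gt.PtBound
import Pool.Agent.W_MP_d8b8b7_gt_L.Defs

/-!
# Charts: transport of J, of unit vectors and of 2-forms to the unit ball of R^4

`EN 4` and `TamedLocal.E4` are the same type (both abbreviate `EuclideanSpace ℝ (Fin 4)`), and
`TamedLocal.ee i = std4 i` by definition.
-/

namespace Pool.Agent.W_MP_d8b8b7_gt

open MeasureTheory Set Filter Topology
open scoped ContDiff ENNReal

variable {N : ℕ}

/-- exterior derivative of a pull back -/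
theorem EM1_pull {M K : ℕ} {φ : EN M → EN K} (hφ : ContDiff ℝ ∞ φ) {α : EN K → Cov K}
    (hα : ContDiff ℝ ∞ α) (y u v : EN M) :
    fderiv ℝ (fun y => (α (φ y)).comp (fderiv ℝ φ y)) y u v -
      fderiv ℝ (fun y => (α (φ y)).comp (fderiv ℝ φ y)) y v u =
    fderiv ℝ α (φ y) (fderiv ℝ φ y u) (fderiv ℝ φ y v) -
      fderiv ℝ α (φ y) (fderiv ℝ φ y v) (fderiv ℝ φ y u) := by
  have hφd : Differentiable ℝ φ := hφ.differentiable (by simp)
  have hαd : Differentiable ℝ α := hα.differentiable (by simp)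
  have h1 : HasFDerivAt (fun y => fderiv ℝ φ y) (fderiv ℝ (fderiv ℝ φ) y) y := by
    have h2 : ContDiff ℝ ∞ (fderiv ℝ φ) := hφ.fderiv_right (m := ∞) (by simp)
    exact (h2.differentiable (by simp) y).hasFDerivAt
  have h3 : HasFDerivAt (fun y => α (φ y)) ((fderiv ℝ α (φ y)).comp (fderiv ℝ φ y)) y :=
    (hαd (φ y)).hasFDerivAt.comp y (hφd y).hasFDerivAt
  have hs : IsSymmSndFDerivAt ℝ φ y := (hφ.contDiffAt (x := y)).isSymmSndFDerivAt
    (by rw [minSmoothness_of_isRCLikeNormedField]; exact WithTop.coe_le_coe.mpr le_top)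
  have h4 := h3.clm_comp h1
  rw [h4.fderiv]
  have key : ∀ a b : EN M, (((ContinuousLinearMap.compL ℝ (EN M) (EN K) ℝ) (α (φ y))).comp
      (fderiv ℝ (fderiv ℝ φ) y) + ((ContinuousLinearMap.compL ℝ (EN M) (EN K) ℝ).flip
        (fderiv ℝ φ y)).comp ((fderiv ℝ α (φ y)).comp (fderiv ℝ φ y))) a b =
      α (φ y) (fderiv ℝ (fderiv ℝ φ) y a b) +
        fderiv ℝ α (φ y) (fderiv ℝ φ y a) (fderiv ℝ φ y b) := by
    intro a b
    rfl
  rw [key, key, hs.eq u v]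
  ring

/-- a smooth cut-off function: 1 near the compact set K, 0 near every point outside V -/
theorem EM1_cut {M : ℕ} {K V : Set (EN M)} (hK : IsCompact K) (hV : IsOpen V) (hKV : K ⊆ V) :
    ∃ χ : EN M → ℝ, ContDiff ℝ ∞ χ ∧ (∀ x ∈ K, ∀ᶠ y in 𝓝 x, χ y = 1) ∧
      ∀ x, x ∉ V → ∀ᶠ y in 𝓝 x, χ y = 0 := by
  obtain ⟨f, h0, h1, -⟩ := exists_contMDiffMap_zero_one_nhds_of_isClosed
    (modelWithCornersSelf ℝ (EN M)) (n := ⊤) (s := Vᶜ) (t := K) hV.isClosed_compl hK.isClosed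
    (by
      rw [Set.disjoint_left]
      intro x hx hxK
      exact hx (hKV hxK))
  refine ⟨f, f.contMDiff.contDiff, ?_, ?_⟩
  · intro x hx
    exact h1.filter_mono (nhds_le_nhdsSet hx)
  · intro x hx
    exact h0.filter_mono (nhds_le_nhdsSet (show x ∈ Vᶜ from hx))

namespace Setup

variable (S : Setup N)

/-- a chart of the Setup -/
abbrev Ch (ψ : EN 4 → EN N) (κ : EN N → EN 4) (V : Set (EN N)) (h : EN 4 → ℝ) (σ : ℝ) : Prop :=
  IsChart S.toGeom S.nu S.fr ψ κ V h σ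

/-- the almost complex structure in the chart, a smooth field on R^4 (an almost complex structure
only on the unit ball) -/
noncomputable def Jc (ψ : EN 4 → EN N) (κ : EN N → EN 4) (y : EN 4) : EN 4 →L[ℝ] EN 4 :=
  (fderiv ℝ κ (ψ y)).comp ((S.J (ψ y)).comp (fderiv ℝ ψ y))

variable {ψ : EN 4 → EN N} {κ : EN N → EN 4} {V : Set (EN N)} {h : EN 4 → ℝ} {σ : ℝ}

theorem ch_mem (hc : S.Ch ψ κ V h σ) {y : EN 4} (hy : y ∈ Metric.ball (0 : EN 4) 1) :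
    ψ y ∈ S.X ∧ ψ y ∈ V := by
  have h : ψ y ∈ S.X ∩ V := by
    rw [hc.image]
    exact mem_image_of_mem _ hy
  exact h

theorem ch_inv (hc : S.Ch ψ κ V h σ) {x : EN N} (hx : x ∈ S.X) (hV : x ∈ V) :
    κ x ∈ Metric.ball (0 : EN 4) 1 ∧ ψ (κ x) = x := by
  have h : x ∈ ψ '' Metric.ball (0 : EN 4) 1 := by
    rw [← hc.image]
    exact ⟨hx, hV⟩
  obtain ⟨y, hy, rfl⟩ := h
  rw [hc.kap_psi y hy]
  exact ⟨hy, rfl⟩

theorem EM1_dpsi (hc : S.Ch ψ κ V h σ) : Differentiable ℝ ψ := hc.smooth_psi.differentiable (by simp)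

theorem EM1_dkap (hc : S.Ch ψ κ V h σ) : Differentiable ℝ κ := hc.smooth_kap.differentiable (by simp)

theorem EM1_drho : Differentiable ℝ S.rho := S.smooth_rho.differentiable (by simp)

/-- the image of Dψ is the tangent space: rho ∘ ψ = ψ on the ball -/
theorem ch_tan (hc : S.Ch ψ κ V h σ) {y : EN 4} (hy : y ∈ Metric.ball (0 : EN 4) 1) (w : EN 4) :
    S.Tan (ψ y) (fderiv ℝ ψ y w) := by
  have he : (S.rho ∘ ψ) =ᶠ[𝓝 y] ψ := by
    filter_upwards [Metric.isOpen_ball.mem_nhds hy] with z hz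
    exact S.rho_fix _ (S.ch_mem hc hz).1
  have h1 : fderiv ℝ (S.rho ∘ ψ) y = fderiv ℝ ψ y := he.fderiv_eq
  rw [fderiv_comp y (S.EM1_drho _) (S.EM1_dpsi hc _)] at h1
  exact congrArg (fun L : EN 4 →L[ℝ] EN N => L w) h1

/-- κ ∘ ψ = id on the ball -/
theorem ch_kap_psi (hc : S.Ch ψ κ V h σ) {y : EN 4} (hy : y ∈ Metric.ball (0 : EN 4) 1)
    (w : EN 4) : fderiv ℝ κ (ψ y) (fderiv ℝ ψ y w) = w := by
  have he : (κ ∘ ψ) =ᶠ[𝓝 y] id := by
    filter_upwards [Metric.isOpen_ball.mem_nhds hy] with z hz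
    exact hc.kap_psi z hz
  have h1 : fderiv ℝ (κ ∘ ψ) y = fderiv ℝ id y := he.fderiv_eq
  rw [fderiv_comp y (S.EM1_dkap hc _) (S.EM1_dpsi hc _), fderiv_id] at h1
  exact congrArg (fun L : EN 4 →L[ℝ] EN 4 => L w) h1

/-- ψ ∘ κ ∘ rho = rho near ψ y (rho maps a neighbourhood of ψ y to X ∩ V) -/
theorem ch_psi_kap (hc : S.Ch ψ κ V h σ) {y : EN 4} (hy : y ∈ Metric.ball (0 : EN 4) 1)
    {v : EN N} (hv : S.Tan (ψ y) v) : fderiv ℝ ψ y (fderiv ℝ κ (ψ y) v) = v := by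
  obtain ⟨hX, hV⟩ := S.ch_mem hc hy
  have hfix : S.rho (ψ y) = ψ y := S.rho_fix _ hX
  have he : (ψ ∘ κ ∘ S.rho) =ᶠ[𝓝 (ψ y)] S.rho := by
    have hU : ∀ᶠ z in 𝓝 (ψ y), z ∈ S.U := S.openU.mem_nhds (S.subU hX)
    have hVn : ∀ᶠ z in 𝓝 (ψ y), S.rho z ∈ V := by
      apply (S.smooth_rho.continuous.tendsto (ψ y)).eventually
      rw [hfix]
      exact hc.openV.mem_nhds hV
    filter_upwards [hU, hVn] with z hz1 hz2
    exact (S.ch_inv hc (S.rho_mem z hz1) hz2).2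
  have h1 : fderiv ℝ (ψ ∘ κ ∘ S.rho) (ψ y) = fderiv ℝ S.rho (ψ y) := he.fderiv_eq
  rw [fderiv_comp _ (S.EM1_dpsi hc _) ((S.EM1_dkap hc).comp S.EM1_drho _),
    fderiv_comp _ (S.EM1_dkap hc _) (S.EM1_drho _)] at h1
  have h2 := congrArg (fun L : EN N →L[ℝ] EN N => L v) h1
  simp only [Function.comp_apply, ContinuousLinearMap.comp_apply, hfix, hc.kap_psi y hy] at h2
  have h3 : fderiv ℝ S.rho (ψ y) v = v := hv
  rw [h3] at h2
  exact h2

theorem smooth_Jc (hc : S.Ch ψ κ V h σ) : ContDiff ℝ ∞ (S.Jc ψ κ) := by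
  have h1 : ContDiff ℝ ∞ (fderiv ℝ ψ) := hc.smooth_psi.fderiv_right (m := ∞) (by simp)
  have h2 : ContDiff ℝ ∞ (fderiv ℝ κ) := hc.smooth_kap.fderiv_right (m := ∞) (by simp)
  have h3 : ContDiff ℝ ∞ (fun y => fderiv ℝ κ (ψ y)) := h2.comp hc.smooth_psi
  have h4 : ContDiff ℝ ∞ (fun y => S.J (ψ y)) := S.smooth_J.comp hc.smooth_psi
  exact h3.clm_comp (h4.clm_comp h1)

theorem EM1_Jc_apply (y v : EN 4) :
    S.Jc ψ κ y v = fderiv ℝ κ (ψ y) (S.J (ψ y) (fderiv ℝ ψ y v)) := rfl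

theorem Jc_sq (hc : S.Ch ψ κ V h σ) {y : EN 4} (hy : y ∈ Metric.ball (0 : EN 4) 1) (v : EN 4) :
    S.Jc ψ κ y (S.Jc ψ κ y v) = -v := by
  obtain ⟨hX, hV⟩ := S.ch_mem hc hy
  have ht : fderiv ℝ S.rho (ψ y) (fderiv ℝ ψ y v) = fderiv ℝ ψ y v := S.ch_tan hc hy v
  rw [S.EM1_Jc_apply, S.EM1_Jc_apply, S.ch_psi_kap hc hy (S.tan_J hX _), S.J_J _ hX, ht, map_neg,
    S.ch_kap_psi hc hy]

/-- J on tangent vectors corresponds to Jc -/
theorem Jc_push (hc : S.Ch ψ κ V h σ) {y : EN 4} (hy : y ∈ Metric.ball (0 : EN 4) 1)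
    {v : EN N} (hv : S.Tan (ψ y) v) :
    fderiv ℝ κ (ψ y) (S.J (ψ y) v) = S.Jc ψ κ y (fderiv ℝ κ (ψ y) v) := by
  rw [S.EM1_Jc_apply, S.ch_psi_kap hc hy hv]

theorem Jc_psi (hc : S.Ch ψ κ V h σ) {y : EN 4} (hy : y ∈ Metric.ball (0 : EN 4) 1) (w : EN 4) :
    fderiv ℝ ψ y (S.Jc ψ κ y w) = S.J (ψ y) (fderiv ℝ ψ y w) := by
  obtain ⟨hX, hV⟩ := S.ch_mem hc hy
  rw [S.EM1_Jc_apply, S.ch_psi_kap hc hy (S.tan_J hX _)]

/-- bi-Lipschitz estimates (ψ is smooth on the convex ball, κ is smooth on a ball containing X) -/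
theorem ch_lip (hc : S.Ch ψ κ V h σ) : ∃ L : ℝ, 1 ≤ L ∧
    (∀ y ∈ Metric.ball (0 : EN 4) 1, ∀ y' ∈ Metric.ball (0 : EN 4) 1,
      ‖ψ y - ψ y'‖ ≤ L * ‖y - y'‖) ∧
    (∀ x ∈ S.X, ∀ x' ∈ S.X, ‖κ x - κ x'‖ ≤ L * ‖x - x'‖) ∧
    (∀ y ∈ Metric.ball (0 : EN 4) 1, ‖fderiv ℝ ψ y‖ ≤ L) ∧ (∀ x ∈ S.X, ‖fderiv ℝ κ x‖ ≤ L) ∧
    (∀ z ∈ S.X1, z.1 ∈ V → L⁻¹ ≤ ‖fderiv ℝ κ z.1 z.2‖ ∧ ‖fderiv ℝ κ z.1 z.2‖ ≤ L) := by
  obtain ⟨C, hC1, hCx, -, hCz⟩ := S.exists_bound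
  obtain ⟨R, hR⟩ := S.cptX.isBounded.exists_norm_le
  obtain ⟨L1, hL1, h1⟩ := PtBound_cpt (isCompact_closedBall (0 : EN 4) 1)
    (hc.smooth_psi.continuous_fderiv (by simp))
  obtain ⟨L2, hL2, h2⟩ := PtBound_cpt (isCompact_closedBall (0 : EN N) R)
    (hc.smooth_kap.continuous_fderiv (by simp))
  have hC0 : 0 < C := lt_of_lt_of_le one_pos hC1
  have hXb : ∀ x ∈ S.X, x ∈ Metric.closedBall (0 : EN N) R := fun x hx => by
    rw [mem_closedBall_zero_iff]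
    exact hR x hx
  have hbb : ∀ y ∈ Metric.ball (0 : EN 4) 1, y ∈ Metric.closedBall (0 : EN 4) 1 :=
    fun y hy => Metric.ball_subset_closedBall hy
  have hmul : 0 ≤ C * L2 := by positivity
  have hmul1 : 0 ≤ C * L1 := by positivity
  refine ⟨C * (L1 + 1) + L1 + L2 + C * L2, ?_, ?_, ?_, ?_, ?_, ?_⟩
  · nlinarith
  · intro y hy y' hy'
    have h3 := (convex_closedBall (0 : EN 4) 1).norm_image_sub_le_of_norm_fderiv_le
      (𝕜 := ℝ) (f := ψ) (C := L1) (fun z _ => S.EM1_dpsi hc z) (fun z hz => h1 z hz)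
      (hbb y' hy') (hbb y hy)
    refine h3.trans (mul_le_mul_of_nonneg_right ?_ (norm_nonneg _))
    nlinarith
  · intro x hx x' hx'
    have h3 := (convex_closedBall (0 : EN N) R).norm_image_sub_le_of_norm_fderiv_le
      (𝕜 := ℝ) (f := κ) (C := L2) (fun z _ => S.EM1_dkap hc z) (fun z hz => h2 z hz)
      (hXb x' hx') (hXb x hx)
    refine h3.trans (mul_le_mul_of_nonneg_right ?_ (norm_nonneg _))
    nlinarith
  · intro y hy
    have := h1 y (hbb y hy)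
    nlinarith
  · intro x hx
    have := h2 x (hXb x hx)
    nlinarith
  · rintro ⟨x, v⟩ hz hV
    have hX : x ∈ S.X := hz.1
    have hT : S.Tan x v := hz.2.1
    have h1om : S.om x v (S.J x v) = 1 := hz.2.2
    obtain ⟨hb, hinv⟩ := S.ch_inv hc hX hV
    have hv1 : ‖v‖ ≤ C := hCz (x, v) hz
    have hv2 : 1 ≤ C * ‖v‖ ^ 2 := by
      have := ((hCx x hX).2.2.2.1 v hT).2
      rw [h1om] at this
      exact this
    have hv3 : 1 ≤ C * ‖v‖ := by
      by_contra hcon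
      have h5 : C * ‖v‖ < 1 := not_le.mp hcon
      have h6 : 0 ≤ ‖v‖ := norm_nonneg v
      have h7 : ‖v‖ ≤ C * ‖v‖ := by nlinarith
      nlinarith
    have hk : ‖fderiv ℝ κ x v‖ ≤ L2 * C := by
      refine ((fderiv ℝ κ x).le_opNorm v).trans ?_
      exact mul_le_mul (h2 x (hXb x hX)) hv1 (norm_nonneg _) hL2
    have hback : fderiv ℝ ψ (κ x) (fderiv ℝ κ x v) = v := by
      have := S.ch_psi_kap hc hb (v := v) (by rw [hinv]; exact hT)
      rwa [hinv] at this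
    have hlow : ‖v‖ ≤ L1 * ‖fderiv ℝ κ x v‖ := by
      calc ‖v‖ = ‖fderiv ℝ ψ (κ x) (fderiv ℝ κ x v)‖ := by rw [hback]
        _ ≤ ‖fderiv ℝ ψ (κ x)‖ * ‖fderiv ℝ κ x v‖ := (fderiv ℝ ψ (κ x)).le_opNorm _
        _ ≤ L1 * ‖fderiv ℝ κ x v‖ :=
          mul_le_mul_of_nonneg_right (h1 _ (hbb _ hb)) (norm_nonneg _)
    constructor
    · show (C * (L1 + 1) + L1 + L2 + C * L2)⁻¹ ≤ ‖fderiv ℝ κ x v‖
      have hk0 : 0 ≤ ‖fderiv ℝ κ x v‖ := norm_nonneg _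
      rw [inv_le_iff_one_le_mul₀ (by nlinarith)]
      have h8 : C * ‖v‖ ≤ C * (L1 * ‖fderiv ℝ κ x v‖) := mul_le_mul_of_nonneg_left hlow hC0.le
      have h9 : 0 ≤ C * ‖fderiv ℝ κ x v‖ := by positivity
      have h10 : 0 ≤ L1 * ‖fderiv ℝ κ x v‖ := by positivity
      have h11 : 0 ≤ L2 * ‖fderiv ℝ κ x v‖ := by positivity
      have h12 : 0 ≤ C * L2 * ‖fderiv ℝ κ x v‖ := by positivity
      nlinarith
    · show ‖fderiv ℝ κ x v‖ ≤ C * (L1 + 1) + L1 + L2 + C * L2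
      nlinarith

/-- pull back of the exterior derivative of a 1-form by ψ:
d(ψ^*α)(u,v) = (dα)(Dψ u, Dψ v), for the 1-form y ↦ α (ψ y) ∘ Dψ y on R^4 -/
theorem dF_psi (hψ : ContDiff ℝ ∞ ψ) {α : EN N → Cov N} (hα : IsOne α) (y u v : EN 4) :
    TamedLocal.dF (fun y => (α (ψ y)).comp (fderiv ℝ ψ y)) y u v =
      dOne α (ψ y) (fderiv ℝ ψ y u) (fderiv ℝ ψ y v) := by
  rw [dOne_apply]
  exact EM1_pull hψ hα y u v

/-- 1-forms lifted from the chart to R^N: for a test form on the ball of radius r ≤ 1 put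
α(x) = χ(x) α~(κ x) ∘ Dκ x with a smooth cut-off χ of compact support in V, χ = 1 near the compact
set ψ (supp α~).  On X ∩ V the form α is κ^*α~ on tangent vectors (if χ x ≠ 1 then x = ψ (κ x) is
not in ψ (supp α~), so α~ vanishes near κ x), on X \ V it is zero near each point. -/
theorem lift_form (hc : S.Ch ψ κ V h σ) {r : ℝ} (hr : r ≤ 1) {a : EN 4 → (EN 4 →L[ℝ] ℝ)}
    (ha : TamedLocal.IsTest ⊤ (Metric.ball 0 r) a) :
    ∃ α : EN N → Cov N, IsOne α ∧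
      (∀ x ∈ S.X, x ∈ V → ∀ u v, S.Tan x u → S.Tan x v →
        dOne α x u v = TamedLocal.dF a (κ x) (fderiv ℝ κ x u) (fderiv ℝ κ x v)) ∧
      (∀ x ∈ S.X, x ∉ V → ∀ u v, S.Tan x u → S.Tan x v → dOne α x u v = 0) := by
  have hK : IsCompact (ψ '' tsupport a) := ha.compact.isCompact.image hc.smooth_psi.continuous
  have hKball : ∀ y ∈ tsupport a, y ∈ Metric.ball (0 : EN 4) 1 := fun y hy =>
    Metric.ball_subset_ball hr (ha.supp hy)
  have hKV : ψ '' tsupport a ⊆ V := by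
    rintro x ⟨y, hy, rfl⟩
    exact (S.ch_mem hc (hKball y hy)).2
  obtain ⟨χ, hχ, h1, h0⟩ := EM1_cut hK hc.openV hKV
  have hdk : ContDiff ℝ ∞ (fderiv ℝ κ) := hc.smooth_kap.fderiv_right (m := ∞) (by simp)
  have hap : ContDiff ℝ ∞ (fun x => (a (κ x)).comp (fderiv ℝ κ x)) := by
    have h3 : ContDiff ℝ ∞ (fun x => a (κ x)) := ha.smooth.comp hc.smooth_kap
    exact h3.clm_comp hdk
  refine ⟨fun x => χ x • (a (κ x)).comp (fderiv ℝ κ x), ?_, ?_, ?_⟩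
  · exact hχ.smul hap
  · intro x hx hxV u v hu hv
    obtain ⟨hb, hinv⟩ := S.ch_inv hc hx hxV
    rw [dOne_apply]
    by_cases hxK : κ x ∈ tsupport a
    · have hxK' : x ∈ ψ '' tsupport a := ⟨κ x, hxK, hinv⟩
      have he : (fun x => χ x • (a (κ x)).comp (fderiv ℝ κ x)) =ᶠ[𝓝 x]
          (fun x => (a (κ x)).comp (fderiv ℝ κ x)) := by
        filter_upwards [h1 x hxK'] with z hz
        rw [hz, one_smul]
      rw [he.fderiv_eq]
      exact EM1_pull hc.smooth_kap ha.smooth x u v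
    · have ha0 : a =ᶠ[𝓝 (κ x)] 0 := notMem_tsupport_iff_eventuallyEq.mp hxK
      have he : (fun x => χ x • (a (κ x)).comp (fderiv ℝ κ x)) =ᶠ[𝓝 x] (fun _ => 0) := by
        have h4 := (hc.smooth_kap.continuous.tendsto x).eventually ha0
        filter_upwards [h4] with z hz
        have hz' : a (κ z) = 0 := hz
        rw [hz', ContinuousLinearMap.zero_comp, smul_zero]
      rw [he.fderiv_eq]
      unfold TamedLocal.dF
      rw [ha0.fderiv_eq]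
      simp
  · intro x hx hxV u v hu hv
    rw [dOne_apply]
    have he : (fun x => χ x • (a (κ x)).comp (fderiv ℝ κ x)) =ᶠ[𝓝 x] (fun _ => 0) := by
      filter_upwards [h0 x hxV] with z hz
      rw [hz, zero_smul]
    rw [he.fderiv_eq]
    simp

/-- restriction of a 1-form supported in the chart: if X ∩ tsupport α ⊆ ψ (ball r), r < 1, then the
form y ↦ α(ψ y) ∘ Dψ y on the unit ball, extended by zero, is a test form on the ball of radius r -/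
theorem restrict_form (hc : S.Ch ψ κ V h σ) {r : ℝ} (hr0 : 0 < r) (hr : r < 1) {α : EN N → Cov N}
    (hα : IsOne α) (hs : S.X ∩ tsupport α ⊆ ψ '' Metric.ball 0 r) :
    ∃ a : EN 4 → (EN 4 →L[ℝ] ℝ), TamedLocal.IsTest ⊤ (Metric.ball 0 r) a ∧
      ∀ x ∈ S.X, x ∈ V → ∀ u v, S.Tan x u → S.Tan x v →
        dOne α x u v = TamedLocal.dF a (κ x) (fderiv ℝ κ x u) (fderiv ℝ κ x v) := by
  have hball : ∀ y ∈ Metric.ball (0 : EN 4) r, y ∈ Metric.ball (0 : EN 4) 1 := fun y hy =>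
    Metric.ball_subset_ball hr.le hy
  have hK : IsCompact (κ '' (S.X ∩ tsupport α)) :=
    (S.cptX.inter_right (isClosed_tsupport α)).image hc.smooth_kap.continuous
  have hKb : κ '' (S.X ∩ tsupport α) ⊆ Metric.ball (0 : EN 4) r := by
    rintro y ⟨x, hx, rfl⟩
    obtain ⟨y', hy', rfl⟩ := hs hx
    rw [hc.kap_psi y' (hball y' hy')]
    exact hy'
  obtain ⟨χ, hχ, h1, h0⟩ := EM1_cut hK Metric.isOpen_ball hKb
  have hdp : ContDiff ℝ ∞ (fderiv ℝ ψ) := hc.smooth_psi.fderiv_right (m := ∞) (by simp)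
  have hap : ContDiff ℝ ∞ (fun y => (α (ψ y)).comp (fderiv ℝ ψ y)) := by
    have h3 : ContDiff ℝ ∞ (fun y => α (ψ y)) := hα.comp hc.smooth_psi
    exact h3.clm_comp hdp
  have hsupp : tsupport (fun y => χ y • (α (ψ y)).comp (fderiv ℝ ψ y)) ⊆ Metric.ball 0 r := by
    intro y hy
    by_contra hcon
    have he : (fun y => χ y • (α (ψ y)).comp (fderiv ℝ ψ y)) =ᶠ[𝓝 y] 0 := by
      filter_upwards [h0 y hcon] with z hz
      rw [hz, zero_smul]
      rfl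
    exact (notMem_tsupport_iff_eventuallyEq.mpr he) hy
  refine ⟨fun y => χ y • (α (ψ y)).comp (fderiv ℝ ψ y), ⟨?_, ?_, hsupp⟩, ?_⟩
  · exact hχ.smul hap
  · exact (isCompact_closedBall (0 : EN 4) r).of_isClosed_subset (isClosed_tsupport _)
      (hsupp.trans Metric.ball_subset_closedBall)
  · intro x hx hxV u v hu hv
    obtain ⟨hb, hinv⟩ := S.ch_inv hc hx hxV
    have he : (fun y => χ y • (α (ψ y)).comp (fderiv ℝ ψ y)) =ᶠ[𝓝 (κ x)]
        (fun y => (α (ψ y)).comp (fderiv ℝ ψ y)) := by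
      by_cases hyK : κ x ∈ κ '' (S.X ∩ tsupport α)
      · filter_upwards [h1 _ hyK] with z hz
        rw [hz, one_smul]
      · have hclosed : IsClosed (κ '' (S.X ∩ tsupport α)) := hK.isClosed
        have h5 : ∀ᶠ z in 𝓝 (κ x), z ∉ κ '' (S.X ∩ tsupport α) :=
          hclosed.isOpen_compl.mem_nhds hyK
        filter_upwards [h5, Metric.isOpen_ball.mem_nhds hb] with z hz1 hz2
        have hz3 : ψ z ∉ tsupport α := by
          intro hz4
          apply hz1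
          exact ⟨ψ z, ⟨(S.ch_mem hc hz2).1, hz4⟩, hc.kap_psi z hz2⟩
        have hz5 : α (ψ z) = 0 := image_eq_zero_of_notMem_tsupport hz3
        rw [hz5, ContinuousLinearMap.zero_comp, smul_zero]
    unfold TamedLocal.dF
    rw [he.fderiv_eq]
    have h6 := EM1_pull hc.smooth_psi hα (κ x) (fderiv ℝ κ x u) (fderiv ℝ κ x v)
    have h7 : fderiv ℝ ψ (κ x) (fderiv ℝ κ x u) = u := by
      have := S.ch_psi_kap hc hb (v := u) (by rw [hinv]; exact hu)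
      rwa [hinv] at this
    have h8 : fderiv ℝ ψ (κ x) (fderiv ℝ κ x v) = v := by
      have := S.ch_psi_kap hc hb (v := v) (by rw [hinv]; exact hv)
      rwa [hinv] at this
    rw [h7, h8, hinv] at h6
    rw [dOne_apply]
    exact h6.symm

end Setup

end Pool.Agent.W_MP_d8b8b7_gt
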