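import Pool.Agent.W_MP_d8b8b7_gt.EM1
import Pool.Agent.W_MP_d8b8b7_gt.L2
import Pool.Agent.W_MP_d8b8b7_gt_G3.ChartInt

/-!
# Transport of currents to a chart
-/

namespace Pool.Agent.W_MP_d8b8b7_gt

open MeasureTheory Set Filter Topology
open scoped ContDiff ENNReal

variable {N : ℕ}

/-- the matrix τ with ∑ τ_ij a_ij = wedge s a for alternating a -/
noncomputable def mat6 (s : C6) (i j : Fin 4) : ℝ :=
  if i = 0 ∧ j = 1 then s 5 else if i = 0 ∧ j = 2 then - s 4 else if i = 0 ∧ j = 3 then s 3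
  else if i = 1 ∧ j = 2 then s 2 else if i = 1 ∧ j = 3 then - s 1 else if i = 2 ∧ j = 3 then s 0
  else 0

theorem mat6_sum (s : C6) (a : Bil 4) :
    ∑ i, ∑ j, mat6 s i j * a (std4 i) (std4 j) = wedge s (comp6 a std4) := by
  simp only [Fin.sum_univ_four, wedge, Setup.pt_comp6_0, Setup.pt_comp6_1, Setup.pt_comp6_2,
    Setup.pt_comp6_3, Setup.pt_comp6_4, Setup.pt_comp6_5]
  have h00 : mat6 s 0 0 = 0 := by simp [mat6]
  have h01 : mat6 s 0 1 = s 5 := by simp [mat6]
  have h02 : mat6 s 0 2 = - s 4 := by simp [mat6]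
  have h03 : mat6 s 0 3 = s 3 := by simp [mat6]
  have h10 : mat6 s 1 0 = 0 := by simp [mat6]
  have h11 : mat6 s 1 1 = 0 := by simp [mat6]
  have h12 : mat6 s 1 2 = s 2 := by simp [mat6]
  have h13 : mat6 s 1 3 = - s 1 := by simp [mat6]
  have h20 : mat6 s 2 0 = 0 := by simp [mat6]
  have h21 : mat6 s 2 1 = 0 := by simp [mat6]
  have h22 : mat6 s 2 2 = 0 := by simp [mat6]
  have h23 : mat6 s 2 3 = s 0 := by simp [mat6]
  have h30 : mat6 s 3 0 = 0 := by simp [mat6]
  have h31 : mat6 s 3 1 = 0 := by simp [mat6]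
  have h32 : mat6 s 3 2 = 0 := by simp [mat6]
  have h33 : mat6 s 3 3 = 0 := by simp [mat6]
  rw [h00, h01, h02, h03, h10, h11, h12, h13, h20, h21, h22, h23, h30, h31, h32, h33]
  ring

theorem em2_abs_le (s : C6) (k : Fin 6) : |s k| ≤ ‖s‖ := by
  have := PiLp.norm_apply_le s k
  rwa [Real.norm_eq_abs] at this

theorem abs_mat6_le (s : C6) (i j : Fin 4) : |mat6 s i j| ≤ ‖s‖ := by
  unfold mat6
  split_ifs
  · exact em2_abs_le s _
  · rw [abs_neg]; exact em2_abs_le s _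
  · exact em2_abs_le s _
  · exact em2_abs_le s _
  · rw [abs_neg]; exact em2_abs_le s _
  · exact em2_abs_le s _
  · rw [abs_zero]; exact norm_nonneg _

namespace Setup

variable (S : Setup N)

/-- push forward of (the part over V of) a measure on tangent vectors -/
noncomputable def push (κ : EN N → EN 4) (V : Set (EN N)) (m : Measure (EN N × EN N)) :
    Measure (EN 4 × EN 4) :=
  (m.restrict (Prod.fst ⁻¹' V)).map (fun z => (κ z.1, fderiv ℝ κ z.1 z.2))

/-- the anti-invariant field in the chart, cut off outside the ball of radius r -/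
noncomputable def tauc (ψ : EN 4 → EN N) (σ r : ℝ) (t : EN N → C6) (y : EN 4) (i j : Fin 4) : ℝ :=
  (Metric.ball (0 : EN 4) r).indicator
    (fun y => σ * mat6 (comp6 (Bil.pull (fderiv ℝ ψ y) (S.rc t (ψ y))) std4) i j) y

variable {ψ : EN 4 → EN N} {κ : EN N → EN 4} {V : Set (EN N)} {h : EN 4 → ℝ} {σ : ℝ}

theorem em2_meas (hc : S.Ch ψ κ V h σ) :
    Measurable (fun z : EN N × EN N => (κ z.1, fderiv ℝ κ z.1 z.2)) := by
  have h1 : Continuous (fderiv ℝ κ) := hc.smooth_kap.continuous_fderiv (by simp)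
  have h2 : Continuous (fun z : EN N × EN N => (κ z.1, fderiv ℝ κ z.1 z.2)) :=
    (hc.smooth_kap.continuous.comp continuous_fst).prodMk
      ((h1.comp continuous_fst).clm_apply continuous_snd)
  exact h2.measurable

theorem push_finite (hc : S.Ch ψ κ V h σ) {m : Measure (EN N × EN N)} (hm : S.IsPos m) :
    IsFiniteMeasure (push κ V m) := by
  have := hm.fin
  unfold push
  infer_instance

theorem push_bdd (hc : S.Ch ψ κ V h σ) : ∃ R : ℝ, 0 < R ∧ ∀ m : Measure (EN N × EN N), S.IsPos m →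
    ∀ᵐ p ∂(push κ V m), ‖p.2‖ ≤ R := by
  obtain ⟨L, hL1, -, -, -, -, hL⟩ := S.ch_lip hc
  refine ⟨L, zero_lt_one.trans_le hL1, fun m hm => ?_⟩
  have hset : MeasurableSet {p : EN 4 × EN 4 | ‖p.2‖ ≤ L} :=
    (isClosed_le (continuous_norm.comp continuous_snd) continuous_const).measurableSet
  unfold push
  rw [ae_map_iff (S.em2_meas hc).aemeasurable hset,
    ae_restrict_iff' (measurable_fst hc.openV.measurableSet)]
  have h1 : ∀ᵐ z ∂m, z ∈ S.X1 := by
    rw [ae_iff]
    exact hm.supp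
  filter_upwards [h1] with z hz hzV
  exact (hL z hz hzV).2

/-- integrals against the push forward -/
theorem integral_push (hc : S.Ch ψ κ V h σ) {m : Measure (EN N × EN N)} (hm : S.IsPos m)
    {f : EN 4 × EN 4 → ℝ} (hf : Measurable f) :
    ∫ p, f p ∂(push κ V m) = ∫ z in Prod.fst ⁻¹' V, f (κ z.1, fderiv ℝ κ z.1 z.2) ∂m := by
  unfold push
  rw [integral_map (S.em2_meas hc).aemeasurable hf.aestronglyMeasurable]

theorem em2_sum (ψ : EN 4 → EN N) (σ r : ℝ) (t : EN N → C6) {y : EN 4}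
    (hy : y ∈ Metric.ball (0 : EN 4) r) (c : Bil 4) :
    ∑ i, ∑ j, S.tauc ψ σ r t y i j * c (std4 i) (std4 j) =
      σ * wedge (comp6 (Bil.pull (fderiv ℝ ψ y) (S.rc t (ψ y))) std4) (comp6 c std4) := by
  rw [← mat6_sum, Finset.mul_sum]
  refine Finset.sum_congr rfl fun i _ => ?_
  rw [Finset.mul_sum]
  refine Finset.sum_congr rfl fun j _ => ?_
  unfold tauc
  rw [indicator_of_mem hy, mul_assoc]

theorem em2_tauc_zero (ψ : EN 4 → EN N) (σ r : ℝ) (t : EN N → C6) {y : EN 4}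
    (hy : y ∉ Metric.ball (0 : EN 4) r) (i j : Fin 4) : S.tauc ψ σ r t y i j = 0 :=
  indicator_of_notMem hy _

/-- the pairing of an L2 field with a form supported (on X) in ψ (ball r), in the chart: charts
formula `IsChart.lint` (for integrable real functions, split in positive and negative parts) and
`IsChart.orient` with b = rc t (ψ y) (components t (ψ y)), `mat6_sum`. -/
theorem B_eq_pairT (hc : S.Ch ψ κ V h σ) {r : ℝ} (hr0 : 0 < r) (hr : r < 1) {t : EN N → C6}
    (ht : S.L2F t) {b : EN N → Bil N} (hb : Continuous b) (halt : ∀ x v, b x v v = 0)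
    (hsupp : ∀ x ∈ S.X, x ∉ ψ '' Metric.ball 0 r → S.cp b x = 0) :
    S.B t (S.cp b) = ∫ y, ∑ i, ∑ j, S.tauc ψ σ r t y i j *
      b (ψ y) (fderiv ℝ ψ y (std4 i)) (fderiv ℝ ψ y (std4 j)) := by
  have hsub : Metric.ball (0 : EN 4) r ⊆ Metric.ball 0 1 := Metric.ball_subset_ball hr.le
  have hw : Measurable (fun x => wedge (t x) (S.cp b x)) :=
    measurable_wedge ht.meas (S.measurable_cp hb.measurable)
  have hw0 : ∀ a : C6, wedge a 0 = 0 := fun a => by
    simp only [wedge, c6_zero]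
    ring
  have h1 : ∫ x, wedge (t x) (S.cp b x) ∂S.nu = ∫ x in V, wedge (t x) (S.cp b x) ∂S.nu := by
    symm
    apply setIntegral_eq_integral_of_ae_compl_eq_zero
    filter_upwards [S.ae_mem_X] with x hx hxV
    rw [hsupp x hx, hw0]
    rintro ⟨y, hy, rfl⟩
    exact hxV (hc.psi_mem (hsub hy)).2
  have h2 : ∫ y, ∑ i, ∑ j, S.tauc ψ σ r t y i j *
      b (ψ y) (fderiv ℝ ψ y (std4 i)) (fderiv ℝ ψ y (std4 j)) =
      ∫ y in Metric.ball (0 : EN 4) 1, ∑ i, ∑ j, S.tauc ψ σ r t y i j *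
      b (ψ y) (fderiv ℝ ψ y (std4 i)) (fderiv ℝ ψ y (std4 j)) := by
    symm
    apply setIntegral_eq_integral_of_forall_compl_eq_zero
    intro y hy
    refine Finset.sum_eq_zero fun i _ => Finset.sum_eq_zero fun j _ => ?_
    rw [S.em2_tauc_zero ψ σ r t (fun h => hy (hsub h)), zero_mul]
  unfold B
  rw [h1, h2, hc.integral_eq hw]
  refine setIntegral_congr_fun Metric.isOpen_ball.measurableSet fun y hy => ?_
  show h y * wedge (t (ψ y)) (S.cp b (ψ y)) = ∑ i, ∑ j, S.tauc ψ σ r t y i j *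
      b (ψ y) (fderiv ℝ ψ y (std4 i)) (fderiv ℝ ψ y (std4 j))
  have hX := (hc.psi_mem hy).1
  by_cases hyr : y ∈ Metric.ball (0 : EN 4) r
  · have ho := hc.orient y hy (S.rc t (ψ y)) (b (ψ y)) (S.rc_alt t (ψ y)) (halt (ψ y))
    have hcp : comp6 (S.rc t (ψ y)) (fun a => S.fr a (ψ y)) = t (ψ y) := S.cp_rc hX t
    have hs := S.em2_sum ψ σ r t hyr (Bil.pull (fderiv ℝ ψ y) (b (ψ y)))
    simp only [Bil.pull_apply] at hs
    rw [hs, ← ho, hcp, mul_comm]
    rfl
  · rw [hsupp (ψ y) hX, hw0, mul_zero]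
    · symm
      refine Finset.sum_eq_zero fun i _ => Finset.sum_eq_zero fun j _ => ?_
      rw [S.em2_tauc_zero ψ σ r t hyr, zero_mul]
    · rintro ⟨y', hy', hyy⟩
      apply hyr
      have h3 := hc.kap_psi y' (hsub hy')
      rw [hyy, hc.kap_psi y hy] at h3
      rw [h3]
      exact hy'

theorem em2_norm_std4 (i : Fin 4) : ‖std4 i‖ = 1 := by
  unfold std4
  simp

theorem em2_meas_comp (hc : S.Ch ψ κ V h σ) {t : EN N → C6} (ht : Measurable t) (a b : EN 4) :
    Measurable (fun y => S.rc t (ψ y) (fderiv ℝ ψ y a) (fderiv ℝ ψ y b)) := by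
  have h1 : Continuous fun p : Bil N × EN N × EN N => p.1 p.2.1 p.2.2 :=
    PtBound_continuous_app continuous_fst (continuous_fst.comp continuous_snd)
      (continuous_snd.comp continuous_snd)
  have hD : Continuous (fderiv ℝ ψ) := hc.smooth_psi.continuous_fderiv (by simp)
  have h2 : Measurable (fun y => S.rc t (ψ y)) :=
    (S.measurable_rc ht).comp hc.smooth_psi.continuous.measurable
  have h3 : ∀ v : EN 4, Measurable (fun y => fderiv ℝ ψ y v) := fun v =>
    (hD.clm_apply continuous_const).measurable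
  have h4 : Measurable fun p : Bil N × EN N × EN N => p.1 p.2.1 p.2.2 := h1.measurable
  have h5 : Measurable fun y => (S.rc t (ψ y), fderiv ℝ ψ y a, fderiv ℝ ψ y b) :=
    h2.prodMk ((h3 a).prodMk (h3 b))
  have h6 := h4.comp h5
  simp only [Function.comp_def] at h6
  exact h6

theorem em2_meas_tau (hc : S.Ch ψ κ V h σ) {t : EN N → C6} (ht : Measurable t) (i j : Fin 4) :
    Measurable (fun y => σ * mat6 (comp6 (Bil.pull (fderiv ℝ ψ y) (S.rc t (ψ y))) std4) i j) := by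
  refine measurable_const.mul ?_
  have h1 := S.em2_meas_comp hc ht
  unfold mat6
  split_ifs
  · exact h1 _ _
  · exact (h1 _ _).neg
  · exact h1 _ _
  · exact h1 _ _
  · exact (h1 _ _).neg
  · exact h1 _ _
  · exact measurable_const

theorem em2_tau_le (hc : S.Ch ψ κ V h σ) : ∃ C : ℝ, 0 ≤ C ∧ ∀ (t : EN N → C6),
    ∀ y ∈ Metric.ball (0 : EN 4) 1, ∀ i j : Fin 4,
    |σ * mat6 (comp6 (Bil.pull (fderiv ℝ ψ y) (S.rc t (ψ y))) std4) i j| ≤ C * ‖t (ψ y)‖ := by
  obtain ⟨L, hL1, -, -, hL, -, -⟩ := S.ch_lip hc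
  obtain ⟨K, hK1, hK, -, -⟩ := S.exists_bound
  have hL0 : 0 ≤ L := zero_le_one.trans hL1
  have hK0 : 0 ≤ K := zero_le_one.trans hK1
  refine ⟨3 * (K * L * L), by positivity, fun t y hy i j => ?_⟩
  have hX := (hc.psi_mem hy).1
  have hσ : |σ| = 1 := by
    rcases hc.sgn with h1 | h1 <;> rw [h1] <;> simp
  have hrc : ‖S.rc t (ψ y)‖ ≤ K * ‖t (ψ y)‖ := (hK _ hX).2.2.2.2.1 t
  have hv : ∀ a : Fin 4, ‖fderiv ℝ ψ y (std4 a)‖ ≤ L := by
    intro a
    have h1 := (fderiv ℝ ψ y).le_opNorm (std4 a)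
    rw [em2_norm_std4, mul_one] at h1
    exact h1.trans (hL y hy)
  have hcomp : ∀ a b : Fin 4, |S.rc t (ψ y) (fderiv ℝ ψ y (std4 a)) (fderiv ℝ ψ y (std4 b))| ≤
      K * L * L * ‖t (ψ y)‖ := by
    intro a b
    calc |S.rc t (ψ y) (fderiv ℝ ψ y (std4 a)) (fderiv ℝ ψ y (std4 b))|
        ≤ ‖S.rc t (ψ y)‖ * ‖fderiv ℝ ψ y (std4 a)‖ * ‖fderiv ℝ ψ y (std4 b)‖ :=
          Bil.abs_apply_le _ _ _
      _ ≤ (K * ‖t (ψ y)‖) * L * L := by
          refine mul_le_mul (mul_le_mul hrc (hv a) (norm_nonneg _) ?_) (hv b) (norm_nonneg _) ?_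
          · exact mul_nonneg hK0 (norm_nonneg _)
          · exact mul_nonneg (mul_nonneg hK0 (norm_nonneg _)) hL0
      _ = K * L * L * ‖t (ψ y)‖ := by ring
  rw [abs_mul, hσ, one_mul]
  refine (abs_mat6_le _ i j).trans ?_
  have h6 := PtBound_norm6 (comp6 (Bil.pull (fderiv ℝ ψ y) (S.rc t (ψ y))) std4)
    (M := K * L * L * ‖t (ψ y)‖) (by positivity) ?_
  · calc _ ≤ _ := h6
      _ = 3 * (K * L * L) * ‖t (ψ y)‖ := by ring
  · intro k
    fin_cases k
    · exact hcomp 0 1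
    · exact hcomp 0 2
    · exact hcomp 0 3
    · exact hcomp 1 2
    · exact hcomp 1 3
    · exact hcomp 2 3

/-- tauc is square integrable (h is bounded below on the closed ball of radius r < 1) and kills
J-invariant forms: for covectors α, β of R^4 the form c = α∧β + J^*α∧J^*β is Jc-invariant;
transport it to T_x by Dκ, its components satisfy pr2 = 0, while pr1 (t x) = 0; use
`IsChart.orient` and h > 0. -/
theorem antiInv_tauc (hc : S.Ch ψ κ V h σ) {r : ℝ} (hr0 : 0 < r) (hr : r < 1) {t : EN N → C6}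
    (ht : S.L2F t) (ht1 : ∀ x, pr1 (t x) = 0) :
    TamedLocal.AntiInv (S.Jc ψ κ) (Metric.ball 0 r) (S.tauc ψ σ r t) := by
  have hsub : Metric.ball (0 : EN 4) r ⊆ Metric.ball 0 1 := Metric.ball_subset_ball hr.le
  have hball : MeasurableSet (Metric.ball (0 : EN 4) r) := Metric.isOpen_ball.measurableSet
  constructor
  · intro i j
    obtain ⟨C, hC, hCb⟩ := S.em2_tau_le hc
    obtain ⟨C', -, hpull⟩ := hc.integral_pull_le hr
    have h1 : IntegrableOn (fun y => ‖t (ψ y)‖ ^ 2) (Metric.ball (0 : EN 4) r) :=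
      (hpull (fun x => ‖t x‖ ^ 2) (ht.meas.norm.pow_const 2) (fun x => sq_nonneg _)
        (L2F.integrable_sq S ht)).1
    have hm : Measurable (fun y => t (ψ y)) := ht.meas.comp hc.smooth_psi.continuous.measurable
    have h2 : MemLp (fun y => t (ψ y)) 2 (volume.restrict (Metric.ball (0 : EN 4) r)) :=
      (memLp_two_iff_integrable_sq_norm hm.aestronglyMeasurable).2 h1
    have h3 : MemLp (fun y => σ * mat6 (comp6 (Bil.pull (fderiv ℝ ψ y) (S.rc t (ψ y))) std4) i j)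
        2 (volume.restrict (Metric.ball (0 : EN 4) r)) := by
      refine MemLp.of_le_mul h2 (S.em2_meas_tau hc ht.meas i j).aestronglyMeasurable (c := C) ?_
      refine (ae_restrict_iff' hball).2 (Eventually.of_forall fun y hy => ?_)
      rw [Real.norm_eq_abs]
      exact hCb t y (hsub hy) i j
    exact (memLp_indicator_iff_restrict hball).2 h3
  · refine Eventually.of_forall fun y hy α β => ?_
    have hy1 := hsub hy
    have hX := (hc.psi_mem hy1).1
    have hee : ∀ i, TamedLocal.ee i = std4 i := fun i => rfl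
    -- the form c
    let c : Bil 4 := Bil.asym α β + Bil.asym (α.comp (S.Jc ψ κ y)) (β.comp (S.Jc ψ κ y))
    have hcap : ∀ u v, c u v = TamedLocal.wedge α β u v +
        TamedLocal.wedge (α.comp (S.Jc ψ κ y)) (β.comp (S.Jc ψ κ y)) u v := by
      intro u v
      simp only [c, Bil.add_apply, Bil.asym_apply, TamedLocal.wedge]
      ring
    have hc0 : ∀ v, c v v = 0 := by
      intro v
      rw [hcap]
      simp only [TamedLocal.wedge]
      ring
    have hcJ : ∀ u v, c (S.Jc ψ κ y u) (S.Jc ψ κ y v) = c u v := by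
      intro u v
      rw [hcap, hcap]
      simp only [TamedLocal.wedge, ContinuousLinearMap.comp_apply, S.Jc_sq hc hy1, map_neg]
      ring
    have hgoal : ∑ i, ∑ j, S.tauc ψ σ r t y i j * (TamedLocal.wedge α β (TamedLocal.ee i)
        (TamedLocal.ee j) + TamedLocal.wedge (α.comp (S.Jc ψ κ y)) (β.comp (S.Jc ψ κ y))
        (TamedLocal.ee i) (TamedLocal.ee j)) =
        ∑ i, ∑ j, S.tauc ψ σ r t y i j * c (std4 i) (std4 j) := by
      refine Finset.sum_congr rfl fun i _ => Finset.sum_congr rfl fun j _ => ?_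
      rw [hcap, hee, hee]
    rw [hgoal, S.em2_sum ψ σ r t hy c]
    -- transport to T_x
    let c' : Bil N := Bil.pull (fderiv ℝ κ (ψ y)) c
    have hc'0 : ∀ v, c' v v = 0 := fun v => by
      show Bil.pull (fderiv ℝ κ (ψ y)) c v v = 0
      rw [Bil.pull_apply]
      exact hc0 _
    have hpull : comp6 (Bil.pull (fderiv ℝ ψ y) c') std4 = comp6 c std4 := by
      have h1 : Bil.pull (fderiv ℝ ψ y) c' = c := by
        ext u v
        show Bil.pull (fderiv ℝ ψ y) (Bil.pull (fderiv ℝ κ (ψ y)) c) u v = c u v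
        rw [Bil.pull_apply, Bil.pull_apply, S.ch_kap_psi hc hy1, S.ch_kap_psi hc hy1]
      rw [h1]
    have ho := hc.orient y hy1 (S.rc t (ψ y)) c' (S.rc_alt t (ψ y)) hc'0
    have hcp : comp6 (S.rc t (ψ y)) (fun a => S.fr a (ψ y)) = t (ψ y) := S.cp_rc hX t
    rw [hpull] at ho
    rw [← ho, hcp]
    -- J-invariance of c'
    have hc'J : ∀ u v, S.Tan (ψ y) u → S.Tan (ψ y) v →
        c' (S.J (ψ y) u) (S.J (ψ y) v) = c' u v := by
      intro u v hu hv
      show Bil.pull (fderiv ℝ κ (ψ y)) c (S.J (ψ y) u) (S.J (ψ y) v) =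
        Bil.pull (fderiv ℝ κ (ψ y)) c u v
      rw [Bil.pull_apply, Bil.pull_apply, S.Jc_push hc hy1 hu, S.Jc_push hc hy1 hv, hcJ]
    have hT : ∀ a, S.Tan (ψ y) (S.fr a (ψ y)) := fun a => S.fr_tan _ hX a
    have j0 := S.fr_J0 _ hX
    have j2 := S.fr_J2 _ hX
    have j3 := S.J_fr3 hX
    have e1 : c' (S.fr 1 (ψ y)) (S.fr 3 (ψ y)) = c' (S.fr 0 (ψ y)) (S.fr 2 (ψ y)) := by
      rw [← j0, ← j2]
      exact hc'J _ _ (hT 0) (hT 2)
    have e2 : c' (S.fr 1 (ψ y)) (S.fr 2 (ψ y)) = - c' (S.fr 0 (ψ y)) (S.fr 3 (ψ y)) := by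
      have h1 := hc'J _ _ (hT 0) (hT 3)
      rw [j0, j3, Bil.neg_right] at h1
      linarith only [h1]
    have hp2 : pr2 (comp6 c' (fun a => S.fr a (ψ y))) = 0 := by
      apply c6_ext
      · rw [pr2_c0, c6_zero]
      · rw [pr2_c1, pt_comp6_1, pt_comp6_4, e1, c6_zero]
        ring
      · rw [pr2_c2, pt_comp6_2, pt_comp6_3, e2, c6_zero]
        ring
      · rw [pr2_c3, pt_comp6_2, pt_comp6_3, e2, c6_zero]
        ring
      · rw [pr2_c4, pt_comp6_1, pt_comp6_4, e1, c6_zero]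
        ring
      · rw [pr2_c5, c6_zero]
    have ht2 : t (ψ y) = pr2 (t (ψ y)) := by
      have h1 := pr1_add_pr2 (t (ψ y))
      rw [ht1, zero_add] at h1
      exact h1.symm
    rw [ht2, wedge_pr2_left, hp2]
    have hw0 : wedge (pr2 (t (ψ y))) 0 = 0 := by
      simp only [wedge, c6_zero]
      ring
    rw [hw0, zero_mul]

end Setup

end Pool.Agent.W_MP_d8b8b7_gt
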