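import Pool.Agent.W_MP_d8b8b7_gt.EM2
import Pool.Agent.W_MP_d8b8b7_gt_L.ElMirFrame
import Pool.Agent.W_MP_d8b8b7_h77.PairLim

/-!
# Finiteness of the potential: chart and global versions agree
-/

namespace Pool.Agent.W_MP_d8b8b7_gt

open MeasureTheory Set Filter Topology
open scoped ContDiff ENNReal

variable {N : ℕ}

theorem EM3_inv {a b L : ℝ} (ha : 0 ≤ a) (hL : 1 ≤ L) (h : a ≤ L * b) :
    (ENNReal.ofReal (b ^ 2))⁻¹ ≤ ENNReal.ofReal (L ^ 2) * (ENNReal.ofReal (a ^ 2))⁻¹ := by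
  have hL0 : 0 < L := by linarith
  have hc0 : ENNReal.ofReal (L ^ 2) ≠ 0 := by
    rw [Ne, ENNReal.ofReal_eq_zero, not_le]
    positivity
  have hct : ENNReal.ofReal (L ^ 2) ≠ ⊤ := ENNReal.ofReal_ne_top
  have h1 : ENNReal.ofReal (a ^ 2) ≤ ENNReal.ofReal (L ^ 2) * ENNReal.ofReal (b ^ 2) := by
    rw [← ENNReal.ofReal_mul (by positivity)]
    apply ENNReal.ofReal_le_ofReal
    rw [← mul_pow]
    exact pow_le_pow_left₀ ha h 2
  have h2 : (ENNReal.ofReal (L ^ 2) * ENNReal.ofReal (b ^ 2))⁻¹ ≤ (ENNReal.ofReal (a ^ 2))⁻¹ :=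
    ENNReal.inv_le_inv.mpr h1
  calc (ENNReal.ofReal (b ^ 2))⁻¹ =
        ENNReal.ofReal (L ^ 2) * (ENNReal.ofReal (L ^ 2) * ENNReal.ofReal (b ^ 2))⁻¹ := by
        rw [ENNReal.mul_inv (Or.inl hc0) (Or.inl hct), ← mul_assoc,
          ENNReal.mul_inv_cancel hc0 hct, one_mul]
    _ ≤ ENNReal.ofReal (L ^ 2) * (ENNReal.ofReal (a ^ 2))⁻¹ := by gcongr

namespace Setup

variable (S : Setup N)

variable {ψ : EN 4 → EN N} {κ : EN N → EN 4} {V : Set (EN N)} {h : EN 4 → ℝ} {σ : ℝ}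

theorem EM3_measurable (hc : S.Ch ψ κ V h σ) :
    Measurable (fun z : EN N × EN N => (κ z.1, fderiv ℝ κ z.1 z.2)) := by
  have h1 : Continuous (fun z : EN N × EN N => fderiv ℝ κ z.1 z.2) :=
    ((hc.smooth_kap.continuous_fderiv (by simp)).comp continuous_fst).clm_apply continuous_snd
  exact ((hc.smooth_kap.continuous.comp continuous_fst).prodMk h1).measurable

theorem EM3_newton (hc : S.Ch ψ κ V h σ) (m : Measure (EN N × EN N)) (y : EN 4) :
    TamedLocal.newton (TamedLocal.trM (push κ V m)) y =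
      ∫⁻ z in Prod.fst ⁻¹' V, ENNReal.ofReal (‖fderiv ℝ κ z.1 z.2‖ ^ 2) *
        (ENNReal.ofReal (‖y - κ z.1‖ ^ 2))⁻¹ ∂m := by
  rw [TamedLocal.pl_newton_eq]
  unfold push
  rw [lintegral_map (TamedLocal.plN_meas y) (S.EM3_measurable hc)]
  rfl

theorem EM3_pot (m : Measure (EN N × EN N)) (x : EN N) :
    TCPair.pot (tr m) x = ∫⁻ z, (ENNReal.ofReal (dist x z.1 ^ 2))⁻¹ ∂m := by
  unfold TCPair.pot tr
  rw [lintegral_map (TCPair.measurable_inv x) measurable_fst]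

/-- For x = ψ y in X ∩ V the Newton potential at y of the trace measure of the pushed measure is
finite iff the global potential ∫ |x-x'|^{-2} d(tr m)(x') is finite.  The local potential is
∫_{z.1 in V} |κ x - κ z.1|^{-2} |Dκ z.2|² dm; by `ch_lip` it is comparable with
∫_{z.1 in V} |x - z.1|^{-2} dm, and the integral over the complement of V is finite because
x has positive distance to X \ V (V open) and m is finite. -/
theorem mem_finSet_iff (hc : S.Ch ψ κ V h σ) {m : Measure (EN N × EN N)} (hm : S.IsPos m)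
    {x : EN N} (hx : x ∈ S.X) (hV : x ∈ V) :
    κ x ∈ TamedLocal.finSet (push κ V m) ↔ TCPair.pot (tr m) x ≠ ⊤ := by
  obtain ⟨L, hL1, hlψ, hlκ, -, -, hlD⟩ := S.ch_lip hc
  have hL0 : 0 < L := by linarith
  have hfin := hm.fin
  have hVm : MeasurableSet (Prod.fst ⁻¹' V : Set (EN N × EN N)) :=
    measurable_fst hc.openV.measurableSet
  have hae : ∀ᵐ z ∂(m.restrict (Prod.fst ⁻¹' V)), z ∈ S.X1 ∧ z.1 ∈ V := by
    have h1 : ∀ᵐ z ∂m, z ∈ S.X1 := by
      rw [ae_iff]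
      exact hm.supp
    filter_upwards [ae_restrict_of_ae h1, ae_restrict_mem hVm] with z hz1 hz2
    exact ⟨hz1, hz2⟩
  have hCfin : ENNReal.ofReal (L ^ 2) * ENNReal.ofReal (L ^ 2) ≠ ⊤ :=
    ENNReal.mul_ne_top ENNReal.ofReal_ne_top ENNReal.ofReal_ne_top
  change TamedLocal.newton (TamedLocal.trM (push κ V m)) (κ x) < ⊤ ↔ _
  rw [S.EM3_newton hc m (κ x), EM3_pot, ← lt_top_iff_ne_top]
  constructor
  · intro hN
    rw [← lintegral_add_compl _ hVm]
    refine ENNReal.add_lt_top.mpr ⟨?_, ?_⟩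
    · have h1 : ∫⁻ z in Prod.fst ⁻¹' V, (ENNReal.ofReal (dist x z.1 ^ 2))⁻¹ ∂m ≤
          ∫⁻ z in Prod.fst ⁻¹' V, (ENNReal.ofReal (L ^ 2) * ENNReal.ofReal (L ^ 2)) *
            (ENNReal.ofReal (‖fderiv ℝ κ z.1 z.2‖ ^ 2) *
              (ENNReal.ofReal (‖κ x - κ z.1‖ ^ 2))⁻¹) ∂m := by
        refine lintegral_mono_ae ?_
        filter_upwards [hae] with z hz
        have h2 := EM3_inv (norm_nonneg (κ x - κ z.1)) hL1
          (b := dist x z.1) (by
            rw [dist_eq_norm]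
            exact hlκ x hx z.1 hz.1.1)
        have h3 : (1 : ℝ≥0∞) ≤ ENNReal.ofReal (L ^ 2) *
            ENNReal.ofReal (‖fderiv ℝ κ z.1 z.2‖ ^ 2) := by
          rw [← ENNReal.ofReal_mul (by positivity), ← ENNReal.ofReal_one]
          apply ENNReal.ofReal_le_ofReal
          have h4 := (hlD z hz.1 hz.2).1
          have h5 : 1 ≤ L * ‖fderiv ℝ κ z.1 z.2‖ := by
            calc (1 : ℝ) = L * L⁻¹ := (mul_inv_cancel₀ hL0.ne').symm
              _ ≤ L * ‖fderiv ℝ κ z.1 z.2‖ := mul_le_mul_of_nonneg_left h4 hL0.le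
          rw [← mul_pow]
          exact one_le_pow₀ h5
        calc (ENNReal.ofReal (dist x z.1 ^ 2))⁻¹
            ≤ ENNReal.ofReal (L ^ 2) * (ENNReal.ofReal (‖κ x - κ z.1‖ ^ 2))⁻¹ := h2
          _ = ENNReal.ofReal (L ^ 2) * (1 * (ENNReal.ofReal (‖κ x - κ z.1‖ ^ 2))⁻¹) := by
              rw [one_mul]
          _ ≤ ENNReal.ofReal (L ^ 2) * ((ENNReal.ofReal (L ^ 2) *
                ENNReal.ofReal (‖fderiv ℝ κ z.1 z.2‖ ^ 2)) *
                (ENNReal.ofReal (‖κ x - κ z.1‖ ^ 2))⁻¹) := by gcongr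
          _ = _ := by ring
      refine h1.trans_lt ?_
      rw [lintegral_const_mul' _ _ hCfin]
      exact ENNReal.mul_lt_top hCfin.lt_top hN
    · obtain ⟨ε, hε, hball⟩ := Metric.isOpen_iff.mp hc.openV x hV
      have h1 : ∫⁻ z in (Prod.fst ⁻¹' V)ᶜ, (ENNReal.ofReal (dist x z.1 ^ 2))⁻¹ ∂m ≤
          ∫⁻ _ in (Prod.fst ⁻¹' V)ᶜ, (ENNReal.ofReal (ε ^ 2))⁻¹ ∂m := by
        refine lintegral_mono_ae ?_
        filter_upwards [ae_restrict_mem hVm.compl] with z hz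
        have h2 : ε ≤ dist x z.1 := by
          by_contra hlt
          refine hz (hball ?_)
          rw [Metric.mem_ball, dist_comm]
          exact not_le.mp hlt
        exact ENNReal.inv_le_inv.mpr (ENNReal.ofReal_le_ofReal (pow_le_pow_left₀ hε.le h2 2))
      refine h1.trans_lt ?_
      rw [lintegral_const]
      refine ENNReal.mul_lt_top ?_ (measure_lt_top _ _)
      rw [ENNReal.inv_lt_top, ENNReal.ofReal_pos]
      positivity
  · intro hP
    have h1 : ∫⁻ z in Prod.fst ⁻¹' V, ENNReal.ofReal (‖fderiv ℝ κ z.1 z.2‖ ^ 2) *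
        (ENNReal.ofReal (‖κ x - κ z.1‖ ^ 2))⁻¹ ∂m ≤
        ∫⁻ z in Prod.fst ⁻¹' V, (ENNReal.ofReal (L ^ 2) * ENNReal.ofReal (L ^ 2)) *
          (ENNReal.ofReal (dist x z.1 ^ 2))⁻¹ ∂m := by
      refine lintegral_mono_ae ?_
      filter_upwards [hae] with z hz
      obtain ⟨hbx, hψx⟩ := S.ch_inv hc hx hV
      obtain ⟨hbz, hψz⟩ := S.ch_inv hc hz.1.1 hz.2
      have h2 := EM3_inv (a := dist x z.1) dist_nonneg hL1
        (b := ‖κ x - κ z.1‖) (by
          have h3 := hlψ _ hbx _ hbz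
          rw [hψx, hψz] at h3
          rw [dist_eq_norm]
          exact h3)
      have h4 : ENNReal.ofReal (‖fderiv ℝ κ z.1 z.2‖ ^ 2) ≤ ENNReal.ofReal (L ^ 2) :=
        ENNReal.ofReal_le_ofReal (pow_le_pow_left₀ (norm_nonneg _) (hlD z hz.1 hz.2).2 2)
      calc ENNReal.ofReal (‖fderiv ℝ κ z.1 z.2‖ ^ 2) * (ENNReal.ofReal (‖κ x - κ z.1‖ ^ 2))⁻¹
          ≤ ENNReal.ofReal (L ^ 2) *
              (ENNReal.ofReal (L ^ 2) * (ENNReal.ofReal (dist x z.1 ^ 2))⁻¹) := by gcongr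
        _ = _ := by ring
    refine h1.trans_lt ?_
    rw [lintegral_const_mul' _ _ hCfin]
    exact ENNReal.mul_lt_top hCfin.lt_top ((setLIntegral_le_lintegral _ _).trans_lt hP)

end Setup

end Pool.Agent.W_MP_d8b8b7_gt
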