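import Pool.Agent.W_MP_d8b8b7_gt.RbAlg
import Pool.Agent.W_MP_d8b8b7_gt.Second

/-!
# Regularisation of positive currents: Fubini, densities, integrability

For a positive current m (measure on unit tangent vectors)
`Pm m (Rb q δ b) = ∫ dm(x,v) ∫ q(s) val x (δ s) v (b (rho (x + δ s))) ds`.
`theta m δ y = δ^{-4} m {(x,v) : |x - y| ≤ C1 δ}`.
-/

namespace Pool.Agent.W_MP_d8b8b7_gt

open MeasureTheory Set Filter Topology
open scoped ContDiff ENNReal

variable {N : ℕ}

namespace Setup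

variable (S : Setup N)

theorem MeasA_closed (r : ℝ) :
    IsClosed {p : EN N × (EN N × EN N) | dist p.2.1 p.1 ≤ r} :=
  isClosed_le ((continuous_fst.comp continuous_snd).dist continuous_fst) continuous_const

theorem MeasA_measurable (m : Measure (EN N × EN N)) [IsFiniteMeasure m] (r : ℝ) :
    Measurable (fun y : EN N => m (Prod.fst ⁻¹' Metric.closedBall y r)) := by
  have h := measurable_measure_prodMk_left (ν := m) (MeasA_closed (N := N) r).measurableSet
  exact h

/-- y ↦ m {x : |x - y| ≤ r} is measurable (section of a closed subset of the product) -/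
theorem measurable_theta (m : Measure (EN N × EN N)) (hm : S.IsPos m) (δ : ℝ) :
    Measurable (S.theta m δ) := by
  have := hm.fin
  have h := MeasA_measurable m (S.C1 * δ)
  exact (h.ennreal_toReal).const_mul (δ⁻¹ ^ 4)

theorem theta_nonneg (m : Measure (EN N × EN N)) (δ : ℝ) (hδ : 0 < δ) (y : EN N) :
    0 ≤ S.theta m δ y := by
  unfold theta
  positivity

theorem theta_le (m : Measure (EN N × EN N)) (hm : S.IsPos m) {δ : ℝ} (hδ : 0 < δ) (y : EN N) :
    S.theta m δ y ≤ δ⁻¹ ^ 4 * mass m := by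
  have := hm.fin
  unfold theta mass
  refine mul_le_mul_of_nonneg_left ?_ (by positivity)
  exact ENNReal.toReal_mono (measure_ne_top m _) (measure_mono (subset_univ _))

theorem MeasA_theta_ofReal (m : Measure (EN N × EN N)) [IsFiniteMeasure m] {δ : ℝ} (hδ : 0 < δ)
    (y : EN N) : ENNReal.ofReal (S.theta m δ y) =
      ENNReal.ofReal (δ⁻¹ ^ 4) * m (Prod.fst ⁻¹' Metric.closedBall y (S.C1 * δ)) := by
  unfold theta
  rw [ENNReal.ofReal_mul (by positivity), ENNReal.ofReal_toReal (measure_ne_top m _)]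

/-- Tonelli -/
theorem MeasA_swap (m : Measure (EN N × EN N)) [IsFiniteMeasure m] (r : ℝ) {f : EN N → ℝ≥0∞}
    (hf : Measurable f) :
    ∫⁻ z, ∫⁻ y in Metric.closedBall z.1 r, f y ∂S.nu ∂m =
      ∫⁻ y, f y * m (Prod.fst ⁻¹' Metric.closedBall y r) ∂S.nu := by
  let g : (EN N × EN N) → EN N → ℝ≥0∞ := fun z y =>
    {p : EN N × (EN N × EN N) | dist p.2.1 p.1 ≤ r}.indicator (fun p => f p.1) (y, z)
  have hg : Measurable (Function.uncurry g) := by
    have h1 : Measurable ({p : EN N × (EN N × EN N) | dist p.2.1 p.1 ≤ r}.indicator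
        (fun p => f p.1)) := (hf.comp measurable_fst).indicator (MeasA_closed r).measurableSet
    have h2 := h1.comp (measurable_swap (α := EN N × EN N) (β := EN N))
    exact h2
  have h1 : ∀ z : EN N × EN N, ∫⁻ y in Metric.closedBall z.1 r, f y ∂S.nu = ∫⁻ y, g z y ∂S.nu := by
    intro z
    rw [← lintegral_indicator Metric.isClosed_closedBall.measurableSet]
    refine lintegral_congr fun y => ?_
    by_cases h : dist z.1 y ≤ r
    · have h2 : y ∈ Metric.closedBall z.1 r := by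
        rw [Metric.mem_closedBall, dist_comm]
        exact h
      have h3 : (y, z) ∈ {p : EN N × (EN N × EN N) | dist p.2.1 p.1 ≤ r} := h
      rw [Set.indicator_of_mem h2]
      simp only [g]
      rw [Set.indicator_of_mem h3]
    · have h2 : y ∉ Metric.closedBall z.1 r := by
        rw [Metric.mem_closedBall, dist_comm]
        exact h
      have h3 : (y, z) ∉ {p : EN N × (EN N × EN N) | dist p.2.1 p.1 ≤ r} := h
      rw [Set.indicator_of_notMem h2]
      simp only [g]
      rw [Set.indicator_of_notMem h3]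
  have h2 : ∀ y : EN N, ∫⁻ z, g z y ∂m = f y * m (Prod.fst ⁻¹' Metric.closedBall y r) := by
    intro y
    have hmeas : MeasurableSet (Prod.fst ⁻¹' Metric.closedBall y r : Set (EN N × EN N)) :=
      measurable_fst Metric.isClosed_closedBall.measurableSet
    have h3 : (fun z => g z y) =
        (Prod.fst ⁻¹' Metric.closedBall y r : Set (EN N × EN N)).indicator (fun _ => f y) := by
      funext z
      by_cases h : dist z.1 y ≤ r
      · have h4 : z ∈ (Prod.fst ⁻¹' Metric.closedBall y r : Set (EN N × EN N)) := h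
        have h5 : (y, z) ∈ {p : EN N × (EN N × EN N) | dist p.2.1 p.1 ≤ r} := h
        simp only [g]
        rw [Set.indicator_of_mem h4, Set.indicator_of_mem h5]
      · have h4 : z ∉ (Prod.fst ⁻¹' Metric.closedBall y r : Set (EN N × EN N)) := h
        have h5 : (y, z) ∉ {p : EN N × (EN N × EN N) | dist p.2.1 p.1 ≤ r} := h
        simp only [g]
        rw [Set.indicator_of_notMem h4, Set.indicator_of_notMem h5]
    rw [h3, lintegral_indicator hmeas, setLIntegral_const]
  calc ∫⁻ z, ∫⁻ y in Metric.closedBall z.1 r, f y ∂S.nu ∂m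
      = ∫⁻ z, ∫⁻ y, g z y ∂S.nu ∂m := lintegral_congr h1
    _ = ∫⁻ y, ∫⁻ z, g z y ∂m ∂S.nu := lintegral_lintegral_swap hg.aemeasurable
    _ = ∫⁻ y, f y * m (Prod.fst ⁻¹' Metric.closedBall y r) ∂S.nu := lintegral_congr h2

/-- Fubini and `ker_up`: for f ≥ 0 measurable, bounded on X or square integrable,
∫ dm(x,v) ∫_{|s| < 1} f (rho (x + δ s)) ds ≤ C ∫ f θ dν. -/
theorem integral_theta : ∃ C : ℝ, 0 ≤ C ∧ ∀ δ : ℝ, 0 < δ → δ ≤ S.d0 / 2 →
    ∀ m : Measure (EN N × EN N), S.IsPos m → ∀ f : EN N → ℝ≥0∞, Measurable f →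
      ∫⁻ z, ∫⁻ s in Metric.ball 0 1, f (S.rho (z.1 + δ • s)) ∂volume ∂m ≤
        ENNReal.ofReal C * ∫⁻ y, f y * ENNReal.ofReal (S.theta m δ y) ∂S.nu := by
  have hC1 : 0 ≤ S.C1 := le_trans zero_le_one S.one_le_C1
  refine ⟨S.C1, hC1, fun δ hδ hδ' m hm f hf => ?_⟩
  have := hm.fin
  have hd : δ ≤ S.d0 := by
    have := S.d0_pos
    linarith
  have h1 : ∫⁻ z, ∫⁻ s in Metric.ball 0 1, f (S.rho (z.1 + δ • s)) ∂volume ∂m ≤
      ∫⁻ z, ENNReal.ofReal (S.C1 * δ⁻¹ ^ 4) *
        ∫⁻ y in Metric.closedBall z.1 (S.C1 * δ), f y ∂S.nu ∂m := by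
    refine lintegral_mono_ae ?_
    have h2 : ∀ᵐ z ∂m, z ∈ S.X1 := by
      rw [ae_iff]
      exact hm.supp
    filter_upwards [h2] with z hz
    exact S.ker_up z.1 hz.1 δ hδ hd f hf
  refine h1.trans (le_of_eq ?_)
  rw [lintegral_const_mul' _ _ ENNReal.ofReal_ne_top, S.MeasA_swap m _ hf]
  have h3 : ∀ y, f y * ENNReal.ofReal (S.theta m δ y) =
      ENNReal.ofReal (δ⁻¹ ^ 4) * (f y * m (Prod.fst ⁻¹' Metric.closedBall y (S.C1 * δ))) := by
    intro y
    rw [S.MeasA_theta_ofReal m hδ y]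
    ring
  rw [lintegral_congr h3, lintegral_const_mul' _ _ ENNReal.ofReal_ne_top, ← mul_assoc,
    ← ENNReal.ofReal_mul hC1]

/-- the value on a unit vector, by `ev_Rb` -/
theorem ev_Rb_val {z : EN N × EN N} (hz : z ∈ S.X1) {δ : ℝ} (hδ : 0 < δ) (hδ' : δ ≤ S.d0 / 2)
    {q : EN N → ℝ} (hq : Continuous q) (hqs : ∀ s, 1 ≤ ‖s‖ → q s = 0)
    {b : EN N → C6} (hb : S.L2F b) :
    S.ev (S.Rb q δ b) z = ∫ s, q s * S.val z.1 (δ • s) z.2 (b (S.rho (z.1 + δ • s))) := by
  rw [S.ev_Rb hz hδ hδ' hq hqs hb]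
  rfl

/-- z ↦ ev (Rb q δ b) z is bounded on X1 and continuous, hence m-integrable -/
theorem integrable_ev {m : Measure (EN N × EN N)} (hm : S.IsPos m) {β : EN N → Bil N}
    (hβ : Continuous β) : Integrable (S.ev β) m := by
  have := hm.fin
  have hc := S.PtBound_ev_continuous hβ
  obtain ⟨B, -, hB⟩ := PtBound_cpt S.isCompact_X1 hc
  refine Integrable.of_bound hc.aestronglyMeasurable B ?_
  have h2 : ∀ᵐ z ∂m, z ∈ S.X1 := by
    rw [ae_iff]
    exact hm.supp
  filter_upwards [h2] with z hz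
  exact hB z hz

theorem Pm_add {m : Measure (EN N × EN N)} (hm : S.IsPos m) {β γ : EN N → Bil N}
    (hβ : Continuous β) (hγ : Continuous γ) : S.Pm m (β + γ) = S.Pm m β + S.Pm m γ := by
  have h := integral_add (S.integrable_ev hm hβ) (S.integrable_ev hm hγ)
  have e : S.ev (β + γ) = fun z => S.ev β z + S.ev γ z := by
    funext z
    rfl
  unfold Pm
  rw [e]
  exact h

theorem Pm_smul (m : Measure (EN N × EN N)) (c : ℝ) (β : EN N → Bil N) :
    S.Pm m (c • β) = c * S.Pm m β := by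
  have h := integral_const_mul (μ := m) c (S.ev β)
  have e : S.ev (c • β) = fun z => c * S.ev β z := by
    funext z
    rfl
  unfold Pm
  rw [e]
  exact h

end Setup

end Pool.Agent.W_MP_d8b8b7_gt
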