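import Pool.Agent.W_MP_d8b8b7_gt.EM3
import Pool.Agent.W_MP_d8b8b7_gt.MeasA
import Pool.Agent.W_MP_d8b8b7_gt.Currents
import Pool.Agent.W_MP_d8b8b7_gt_L.ElMirLocal

/-!
# The El Mir lemma for forms supported in a chart
-/

namespace Pool.Agent.W_MP_d8b8b7_gt

open MeasureTheory Set Filter Topology
open scoped ContDiff ENNReal

variable {N : ℕ}

/-- the exterior derivative vanishes off the support -/
theorem EM4_dOne_zero {α : EN N → Cov N} {x : EN N} (hx : x ∉ tsupport α) (u v : EN N) :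
    dOne α x u v = 0 := by
  have h1 : α =ᶠ[𝓝 x] 0 := notMem_tsupport_iff_eventuallyEq.mp hx
  have h2 : fderiv ℝ α x = 0 := by
    rw [h1.fderiv_eq]
    simp
  rw [dOne_apply, h2]
  simp

namespace Setup

variable (S : Setup N)

variable {ψ : EN 4 → EN N} {κ : EN N → EN 4} {V : Set (EN N)} {h : EN 4 → ℝ} {σ : ℝ}

/-- the value of the form on a unit tangent vector, in the chart -/
theorem EM4_ev (hc : S.Ch ψ κ V h σ) {α : EN N → Cov N} {a : EN 4 → (EN 4 →L[ℝ] ℝ)}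
    (hα : ∀ x ∈ S.X, x ∈ V → ∀ u v, S.Tan x u → S.Tan x v →
        dOne α x u v = TamedLocal.dF a (κ x) (fderiv ℝ κ x u) (fderiv ℝ κ x v))
    {z : EN N × EN N} (hz : z ∈ S.X1) (hV : z.1 ∈ V) :
    S.ev (dOne α) z = TamedLocal.dF a (κ z.1) (fderiv ℝ κ z.1 z.2)
      (S.Jc ψ κ (κ z.1) (fderiv ℝ κ z.1 z.2)) := by
  obtain ⟨hx, ht, -⟩ := hz
  obtain ⟨hy, hψ⟩ := S.ch_inv hc hx hV
  have h1 := S.Jc_push hc hy (v := z.2) (by rw [hψ]; exact ht)
  rw [hψ] at h1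
  rw [← h1]
  exact hα z.1 hx hV _ _ ht (S.D_J z.1 hx z.2)

/-- the pairing of the pushed measure with a form in the chart, with a cut off -/
theorem EM4_pair (hc : S.Ch ψ κ V h σ) {m : Measure (EN N × EN N)} (hm : S.IsPos m)
    {α : EN N → Cov N} {a : EN 4 → (EN 4 →L[ℝ] ℝ)} (ha : ContDiff ℝ 1 a)
    (hα : ∀ x ∈ S.X, x ∈ V → ∀ u v, S.Tan x u → S.Tan x v →
        dOne α x u v = TamedLocal.dF a (κ x) (fderiv ℝ κ x u) (fderiv ℝ κ x v))
    (hα0 : ∀ z ∈ S.X1, z.1 ∉ V → S.ev (dOne α) z = 0)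
    {G : Set (EN 4)} (hG : MeasurableSet G) {G' : Set (EN N)} (hG' : MeasurableSet G')
    (hGG : ∀ x ∈ S.X, x ∈ V → (κ x ∈ G ↔ x ∈ G')) :
    TamedLocal.pairM (S.Jc ψ κ) (push κ V m)
      (fun y u v => G.indicator (fun _ => (1 : ℝ)) y * TamedLocal.dF a y u v) =
      S.Pm (m.restrict {z | z.1 ∈ G'}) (dOne α) := by
  have := hm.fin
  have hVm : MeasurableSet (Prod.fst ⁻¹' V : Set (EN N × EN N)) :=
    measurable_fst hc.openV.measurableSet
  have hGm : MeasurableSet {z : EN N × EN N | z.1 ∈ G'} := measurable_fst hG'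
  have hJ : Continuous (S.Jc ψ κ) := (S.smooth_Jc hc).continuous
  have hcont : Continuous fun p : EN 4 × EN 4 => TamedLocal.dF a p.1 p.2 (S.Jc ψ κ p.1 p.2) :=
    TamedLocal.ElMirLoc.continuous_dF ha continuous_fst continuous_snd
      ((hJ.comp continuous_fst).clm_apply continuous_snd)
  have hmeas : Measurable fun p : EN 4 × EN 4 => G.indicator (fun _ => (1 : ℝ)) p.1 *
      TamedLocal.dF a p.1 p.2 (S.Jc ψ κ p.1 p.2) :=
    ((measurable_const.indicator hG).comp measurable_fst).mul hcont.measurable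
  unfold TamedLocal.pairM Pm
  rw [S.integral_push hc hm hmeas, ← integral_indicator hVm, ← integral_indicator hGm]
  refine integral_congr_ae ?_
  have hX : ∀ᵐ z ∂m, z ∈ S.X1 := by
    rw [ae_iff]
    exact hm.supp
  filter_upwards [hX] with z hz
  by_cases hV : z.1 ∈ V
  · rw [indicator_of_mem (show z ∈ (Prod.fst ⁻¹' V : Set (EN N × EN N)) from hV)]
    by_cases hg : z.1 ∈ G'
    · rw [indicator_of_mem (show z ∈ {z : EN N × EN N | z.1 ∈ G'} from hg),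
        indicator_of_mem ((hGG z.1 hz.1 hV).2 hg), one_mul]
      exact (S.EM4_ev hc hα hz hV).symm
    · rw [indicator_of_notMem (show z ∉ {z : EN N × EN N | z.1 ∈ G'} from hg),
        indicator_of_notMem (fun h => hg ((hGG z.1 hz.1 hV).1 h)), zero_mul]
  · rw [indicator_of_notMem (show z ∉ (Prod.fst ⁻¹' V : Set (EN N × EN N)) from hV)]
    symm
    by_cases hg : z.1 ∈ G'
    · rw [indicator_of_mem (show z ∈ {z : EN N × EN N | z.1 ∈ G'} from hg)]
      exact hα0 z hz hV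
    · rw [indicator_of_notMem (show z ∉ {z : EN N × EN N | z.1 ∈ G'} from hg)]

/-- the same without a cut off -/
theorem EM4_pair' (hc : S.Ch ψ κ V h σ) {m : Measure (EN N × EN N)} (hm : S.IsPos m)
    {α : EN N → Cov N} {a : EN 4 → (EN 4 →L[ℝ] ℝ)} (ha : ContDiff ℝ 1 a)
    (hα : ∀ x ∈ S.X, x ∈ V → ∀ u v, S.Tan x u → S.Tan x v →
        dOne α x u v = TamedLocal.dF a (κ x) (fderiv ℝ κ x u) (fderiv ℝ κ x v))
    (hα0 : ∀ z ∈ S.X1, z.1 ∉ V → S.ev (dOne α) z = 0) :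
    TamedLocal.pairM (S.Jc ψ κ) (push κ V m) (TamedLocal.dF a) = S.Pm m (dOne α) := by
  have h1 := S.EM4_pair hc hm ha hα hα0 MeasurableSet.univ MeasurableSet.univ
    (fun _ _ _ => by simp)
  have h2 : {z : EN N × EN N | z.1 ∈ (univ : Set (EN N))} = univ := by
    ext z
    simp
  rw [h2, Measure.restrict_univ] at h1
  rw [← h1]
  congr 1
  funext y u v
  simp

/-- the pairing of the field with a form in the chart -/
theorem EM4_T (hc : S.Ch ψ κ V h σ) {r : ℝ} (hr0 : 0 < r) (hr : r < 1) {t : EN N → C6}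
    (ht : S.L2F t) {α : EN N → Cov N} {a : EN 4 → (EN 4 →L[ℝ] ℝ)} (hα1 : IsOne α)
    (hα : ∀ x ∈ S.X, x ∈ V → ∀ u v, S.Tan x u → S.Tan x v →
        dOne α x u v = TamedLocal.dF a (κ x) (fderiv ℝ κ x u) (fderiv ℝ κ x v))
    (hsupp : ∀ x ∈ S.X, x ∉ ψ '' Metric.ball 0 r → S.cp (dOne α) x = 0) :
    S.B t (S.cp (dOne α)) = TamedLocal.pairT (S.tauc ψ σ r t) (TamedLocal.dF a) := by
  rw [S.B_eq_pairT hc hr0 hr ht (dOne_isForm hα1).smooth.continuous (dOne_isForm hα1).alt hsupp]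
  unfold TamedLocal.pairT
  congr 1
  funext y
  refine Finset.sum_congr rfl fun i _ => Finset.sum_congr rfl fun j _ => ?_
  by_cases hy : y ∈ Metric.ball (0 : EN 4) r
  · have hy1 : y ∈ Metric.ball (0 : EN 4) 1 := Metric.ball_subset_ball hr.le hy
    obtain ⟨hx, hV⟩ := S.ch_mem hc hy1
    rw [hα (ψ y) hx hV _ _ (S.ch_tan hc hy1 _) (S.ch_tan hc hy1 _), S.ch_kap_psi hc hy1,
      S.ch_kap_psi hc hy1, hc.kap_psi y hy1]
    rfl
  · have h0 : S.tauc ψ σ r t y i j = 0 := by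
      unfold tauc
      exact indicator_of_notMem hy _
    rw [h0, zero_mul, zero_mul]

/-- components vanish if the form does -/
theorem EM4_cp {α : EN N → Cov N} {x : EN N}
    (h0 : ∀ a b, dOne α x (S.fr a x) (S.fr b x) = 0) : S.cp (dOne α) x = 0 := by
  unfold cp comp6
  rw [h0, h0, h0, h0, h0, h0]
  ext i
  fin_cases i <;> simp

/-- Closedness in the chart: for a test form a take the lift α (`lift_form`);
Pm m (dOne α) = ∫_{V} dF a (κ x) (Dκ v) (Dκ J v) dm = pairM Jc (push κ V m) (dF a)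
(`integral_push`, `Jc_push`), B t (cp (dOne α)) = pairT (tauc ..) (dF a) (`B_eq_pairT`; for x = ψ y
the value dOne α (ψ y) (Dψ e_i) (Dψ e_j) is dF a y e_i e_j by `ch_kap_psi`). -/
theorem closedOn_push (hc : S.Ch ψ κ V h σ) {r : ℝ} (hr0 : 0 < r) (hr : r < 1)
    {m : Measure (EN N × EN N)} (hm : S.IsPos m) {t : EN N → C6} (ht : S.L2F t)
    (hT : ∀ α, IsOne α → S.Pm m (dOne α) + S.B t (S.cp (dOne α)) = 0) :
    TamedLocal.ClosedOn (S.Jc ψ κ) (Metric.ball 0 r) (push κ V m) (S.tauc ψ σ r t) := by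
  intro a ha
  obtain ⟨α, hα1, hα, hα0⟩ := S.lift_form hc hr.le ha
  have ha1 : ContDiff ℝ 1 a := ha.smooth.of_le (by exact_mod_cast le_top)
  have h0 : ∀ z ∈ S.X1, z.1 ∉ V → S.ev (dOne α) z = 0 := fun z hz hV =>
    hα0 z.1 hz.1 hV _ _ hz.2.1 (S.D_J z.1 hz.1 z.2)
  have hsupp : ∀ x ∈ S.X, x ∉ ψ '' Metric.ball 0 r → S.cp (dOne α) x = 0 := by
    intro x hx hxr
    refine S.EM4_cp fun i j => ?_
    by_cases hV : x ∈ V
    · rw [hα x hx hV _ _ (S.fr_tan x hx i) (S.fr_tan x hx j)]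
      refine TamedLocal.ElMirLoc.dF_zero_of_notMem (fun hmem => hxr ?_) _ _
      exact ⟨κ x, ha.supp hmem, (S.ch_inv hc hx hV).2⟩
    · exact hα0 x hx hV _ _ (S.fr_tan x hx i) (S.fr_tan x hx j)
  rw [S.EM4_pair' hc hm ha1 hα h0, ← S.EM4_T hc hr0 hr ht hα1 hα hsupp]
  exact hT α hα1

/-- the case t = 0 -/
theorem closedOn_push_zero (hc : S.Ch ψ κ V h σ) {r : ℝ} (hr0 : 0 < r) (hr : r < 1)
    {m : Measure (EN N × EN N)} (hm : S.IsPos m)
    (hT : ∀ α, IsOne α → S.Pm m (dOne α) = 0) :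
    TamedLocal.ClosedOn (S.Jc ψ κ) (Metric.ball 0 r) (push κ V m) (fun _ _ _ => 0) := by
  intro a ha
  obtain ⟨α, hα1, hα, hα0⟩ := S.lift_form hc hr.le ha
  have ha1 : ContDiff ℝ 1 a := ha.smooth.of_le (by exact_mod_cast le_top)
  have h0 : ∀ z ∈ S.X1, z.1 ∉ V → S.ev (dOne α) z = 0 := fun z hz hV =>
    hα0 z.1 hz.1 hV _ _ hz.2.1 (S.D_J z.1 hz.1 z.2)
  rw [S.EM4_pair' hc hm ha1 hα h0, hT α hα1]
  simp [TamedLocal.pairT]

/-- local El Mir lemma on X: apply `TamedLocal.elMir_local` on the ball of radius r to the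
restriction of α (`restrict_form`) and translate back with `integral_push`, `mem_finSet_iff`,
`B_eq_pairT`. -/
theorem elMir_chart (hc : S.Ch ψ κ V h σ) {r : ℝ} (hr0 : 0 < r) (hr : r < 1)
    {mP m : Measure (EN N × EN N)} (hmP : S.IsPos mP) (hm : S.IsPos m)
    (hP : ∀ α, IsOne α → S.Pm mP (dOne α) = 0) {t : EN N → C6} (ht : S.L2F t)
    (ht1 : ∀ x, pr1 (t x) = 0)
    (hT : ∀ α, IsOne α → S.Pm m (dOne α) + S.B t (S.cp (dOne α)) = 0)
    {α : EN N → Cov N} (hα : IsOne α) (hs : S.X ∩ tsupport α ⊆ ψ '' Metric.ball 0 r) :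
    S.Pm (m.restrict {z | TCPair.pot (tr mP) z.1 ≠ ⊤}) (dOne α) + S.B t (S.cp (dOne α)) = 0 := by
  have hfP := hmP.fin
  have hfm := hm.fin
  have i1 := S.push_finite hc hmP
  have i2 := S.push_finite hc hm
  obtain ⟨R, -, hR⟩ := S.push_bdd hc
  obtain ⟨a, ha, hαa⟩ := S.restrict_form hc hr0 hr hα hs
  have ha1 : ContDiff ℝ 1 a := ha.smooth.of_le (by exact_mod_cast le_top)
  have hrsub : Metric.ball (0 : EN 4) r ⊆ Metric.ball 0 1 := Metric.ball_subset_ball hr.le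
  have key := TamedLocal.elMir_local (Ω := Metric.ball (0 : EN 4) r) Metric.isOpen_ball
    (J := S.Jc ψ κ) (S.smooth_Jc hc).contDiffOn (fun y hy v => S.Jc_sq hc (hrsub hy) v)
    (mP := push κ V mP) (mT := push κ V m) (R := R) (hR mP hmP) (hR m hm)
    (S.antiInv_tauc hc hr0 hr ht ht1) (S.closedOn_push_zero hc hr0 hr hmP hP)
    (S.closedOn_push hc hr0 hr hm ht hT) ha
  have hGm : MeasurableSet (TamedLocal.finSet (push κ V mP)) :=
    TamedLocal.ElMirLoc.measurableSet_finSet (hR mP hmP)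
  have itr : IsFiniteMeasure (tr mP) := by
    unfold tr
    infer_instance
  have hG'm : MeasurableSet {x : EN N | TCPair.pot (tr mP) x ≠ ⊤} :=
    TCPair.measurableSet_pot_ne_top (tr mP)
  have hout : ∀ x ∈ S.X, x ∉ ψ '' Metric.ball 0 r → x ∉ tsupport α := fun x hx hxr hmem =>
    hxr (hs ⟨hx, hmem⟩)
  have h0 : ∀ z ∈ S.X1, z.1 ∉ V → S.ev (dOne α) z = 0 := by
    intro z hz hV
    refine EM4_dOne_zero (hout z.1 hz.1 ?_) _ _
    rintro ⟨y, hy, hyz⟩
    exact hV (hyz ▸ (S.ch_mem hc (hrsub hy)).2)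
  have hsupp : ∀ x ∈ S.X, x ∉ ψ '' Metric.ball 0 r → S.cp (dOne α) x = 0 := fun x hx hxr =>
    S.EM4_cp fun i j => EM4_dOne_zero (hout x hx hxr) _ _
  rw [S.EM4_pair hc hm ha1 hαa h0 hGm hG'm (fun x hx hV => S.mem_finSet_iff hc hmP hx hV),
    ← S.EM4_T hc hr0 hr ht hα hαa hsupp] at key
  exact key

end Setup

end Pool.Agent.W_MP_d8b8b7_gt
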