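import Pool.Agent.W_MP_d8b8b7_gt.MeasB
import Pool.Agent.W_MP_d8b8b7_gt.Riesz

/-!
# Regularisation of positive currents: the representative

For a positive current m (measure on unit tangent vectors)
`Pm m (Rb q δ b) = ∫ dm(x,v) ∫ q(s) val x (δ s) v (b (rho (x + δ s))) ds`.
`theta m δ y = δ^{-4} m {(x,v) : |x - y| ≤ C1 δ}`.
-/

namespace Pool.Agent.W_MP_d8b8b7_gt

open MeasureTheory Set Filter Topology
open scoped ContDiff ENNReal

variable {N : ℕ}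

namespace Setup

variable (S : Setup N)

theorem measC_integrable_theta {m : Measure (EN N × EN N)} (hm : S.IsPos m) {δ : ℝ} (hδ : 0 < δ) :
    Integrable (S.theta m δ) S.nu := by
  refine Integrable.of_bound (S.measurable_theta m hm δ).aestronglyMeasurable
    (δ⁻¹ ^ 4 * mass m) (ae_of_all _ fun x => ?_)
  rw [Real.norm_eq_abs, abs_of_nonneg (S.theta_nonneg m δ hδ x)]
  exact S.theta_le m hm hδ x

theorem measC_L2F_const (c : C6) : S.L2F (fun _ : EN N => c) :=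
  ⟨measurable_const, memLp_const c⟩

theorem measC_integrable_norm {b : EN N → C6} (hb : S.L2F b) :
    Integrable (fun x => ‖b x‖) S.nu :=
  (hb.memLp.integrable (by norm_num)).norm

/-- the L1 norm is bounded by a multiple of the L2 norm -/
theorem measC_L1_le : ∃ C : ℝ, 0 ≤ C ∧ ∀ b : EN N → C6, S.L2F b →
    ∫ x, ‖b x‖ ∂S.nu ≤ C * S.nrm b := by
  refine ⟨S.nrm (fun _ : EN N => Fc), S.nrm_nonneg _, fun b hb => ?_⟩
  have h1 := L2F.integral_mul_norm_le S (S.measC_L2F_const Fc) hb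
  refine le_trans ?_ h1
  refine integral_mono (S.measC_integrable_norm hb)
    (L2F.integrable_mul_norm S (S.measC_L2F_const Fc) hb) fun x => ?_
  have h2 : 1 ≤ ‖Fc‖ := by
    have h3 := norm_Fc_sq
    nlinarith [norm_nonneg Fc]
  simp only
  nlinarith [norm_nonneg (b x)]

theorem measC_continuous_Rb {q : EN N → ℝ} (hq : QProf 0 1 q) {δ : ℝ} (hδ : 0 < δ)
    {b : EN N → C6} (hb : S.L2F b) : Continuous (S.Rb q δ b) :=
  (S.isForm_Rb hq.smooth hδ hb).smooth.continuous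

theorem measC_integral_nonneg {m : Measure (EN N × EN N)} {δ : ℝ} (hδ : 0 < δ)
    (b : EN N → C6) : 0 ≤ ∫ y, S.theta m δ y * ‖b y‖ ∂S.nu :=
  integral_nonneg fun y => mul_nonneg (S.theta_nonneg m δ hδ y) (norm_nonneg _)

/-- existence of the representative (`riesz`; theta is bounded by δ^{-4} mass m) -/
theorem exists_rep {m : Measure (EN N × EN N)} (hm : S.IsPos m) {δ : ℝ} (hδ : 0 < δ)
    (hδ' : δ ≤ S.d0 / 2) {q : EN N → ℝ} (hq : QProf 0 1 q) :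
    ∃ a : EN N → C6, S.L2F a ∧ ∀ b, S.L2F b → S.Pm m (S.Rb q δ b) = S.B a b := by
  obtain ⟨C, hC0, hC⟩ := S.abs_Pm_Rb_le
  obtain ⟨C', hC0', hC'⟩ := S.measC_L1_le
  have hadd : ∀ b b', S.L2F b → S.L2F b' →
      S.Pm m (S.Rb q δ (b + b')) = S.Pm m (S.Rb q δ b) + S.Pm m (S.Rb q δ b') := by
    intro b b' hb hb'
    rw [S.Rb_add hq.smooth hq.supp hδ hb hb', S.Pm_add hm (S.measC_continuous_Rb hq hδ hb)
      (S.measC_continuous_Rb hq hδ hb')]
  have hsmul : ∀ (c : ℝ) b, S.L2F b → S.Pm m (S.Rb q δ (c • b)) = c * S.Pm m (S.Rb q δ b) := by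
    intro c b _
    rw [S.Rb_smul, S.Pm_smul]
  have hbd : ∀ b, S.L2F b →
      |S.Pm m (S.Rb q δ b)| ≤ C * ((δ⁻¹ ^ 4 * mass m) * C') * S.nrm b := by
    intro b hb
    have hM : 0 ≤ δ⁻¹ ^ 4 * mass m := mul_nonneg (by positivity) ENNReal.toReal_nonneg
    have h1 : ∫ y, S.theta m δ y * ‖b y‖ ∂S.nu ≤ (δ⁻¹ ^ 4 * mass m) * ∫ y, ‖b y‖ ∂S.nu := by
      rw [← integral_const_mul]
      refine integral_mono_of_nonneg (ae_of_all _ fun y =>
        mul_nonneg (S.theta_nonneg m δ hδ y) (norm_nonneg _))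
        ((S.measC_integrable_norm hb).const_mul _) (ae_of_all _ fun y => ?_)
      exact mul_le_mul_of_nonneg_right (S.theta_le m hm hδ y) (norm_nonneg _)
    calc |S.Pm m (S.Rb q δ b)| ≤ C * ∫ y, S.theta m δ y * ‖b y‖ ∂S.nu :=
          hC δ hδ hδ' m hm q hq b hb
      _ ≤ C * ((δ⁻¹ ^ 4 * mass m) * (C' * S.nrm b)) := by
          refine mul_le_mul_of_nonneg_left (h1.trans ?_) hC0
          exact mul_le_mul_of_nonneg_left (hC' b hb) hM
      _ = C * ((δ⁻¹ ^ 4 * mass m) * C') * S.nrm b := by ring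
  obtain ⟨a, ha, -, hab⟩ := S.riesz (fun b => S.Pm m (S.Rb q δ b))
    (C * ((δ⁻¹ ^ 4 * mass m) * C')) hadd hsmul hbd
  exact ⟨a, ha, hab⟩

/-- pointwise bounds of the representative -/
theorem rep_bounds : ∃ C : ℝ, 0 ≤ C ∧ ∀ δ : ℝ, 0 < δ → δ ≤ S.d0 / 2 →
    ∀ m : Measure (EN N × EN N), S.IsPos m → ∀ q : EN N → ℝ, QProf 0 1 q →
    ∀ a : EN N → C6, S.L2F a → (∀ b, S.L2F b → S.Pm m (S.Rb q δ b) = S.B a b) →
      ∀ᵐ x ∂S.nu, ‖a x‖ ≤ C * S.theta m δ x ∧ ‖pr2 (a x)‖ ≤ C * δ * S.theta m δ x ∧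
        Pos6 (a x + (C * δ ^ 2 * S.theta m δ x) • Fc) := by
  obtain ⟨C₁, h10, h1⟩ := S.abs_Pm_Rb_le
  obtain ⟨C₂, h20, h2⟩ := S.abs_Pm_Rb_anti_le
  obtain ⟨C₃, h30, h3⟩ := S.Pm_Rb_ge
  refine ⟨C₁ + C₂ + C₃, by positivity, ?_⟩
  intro δ hδ hδ' m hm q hq a ha hab
  obtain ⟨C, hCdef⟩ : ∃ C, C = C₁ + C₂ + C₃ := ⟨_, rfl⟩
  rw [← hCdef]
  have hC0 : 0 ≤ C := by rw [hCdef]; positivity
  have hC1 : C₁ ≤ C := by rw [hCdef]; linarith
  have hC2 : C₂ ≤ C := by rw [hCdef]; linarith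
  have hC3 : C₃ ≤ C := by rw [hCdef]; linarith
  have hmeas := S.measurable_theta m hm δ
  have hint := S.measC_integrable_theta hm hδ
  have hth := S.theta_nonneg m δ hδ
  have e : ∀ (K : ℝ) (b : EN N → C6), ∫ x, K * S.theta m δ x * ‖b x‖ ∂S.nu =
      K * ∫ y, S.theta m δ y * ‖b y‖ ∂S.nu := by
    intro K b
    rw [← integral_const_mul]
    refine integral_congr_ae (ae_of_all _ fun x => ?_)
    simp only
    ring
  have hA : ∀ᵐ x ∂S.nu, ‖a x‖ ≤ C * S.theta m δ x := by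
    refine S.ae_norm_le ha (t := fun x => C * S.theta m δ x) (hmeas.const_mul C)
      (hint.const_mul C) (fun x => mul_nonneg hC0 (hth x)) fun b hb _ => ?_
    rw [← hab b hb]
    have hI := S.measC_integral_nonneg (m := m) hδ b
    calc S.Pm m (S.Rb q δ b) ≤ |S.Pm m (S.Rb q δ b)| := le_abs_self _
      _ ≤ C₁ * ∫ y, S.theta m δ y * ‖b y‖ ∂S.nu := h1 δ hδ hδ' m hm q hq b hb
      _ ≤ C * ∫ y, S.theta m δ y * ‖b y‖ ∂S.nu := mul_le_mul_of_nonneg_right hC1 hI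
      _ = ∫ x, C * S.theta m δ x * ‖b x‖ ∂S.nu := (e C b).symm
  have hB : ∀ᵐ x ∂S.nu, ‖pr2 (a x)‖ ≤ C * δ * S.theta m δ x := by
    refine S.ae_norm_pr2_le ha (t := fun x => C * δ * S.theta m δ x) (hmeas.const_mul _)
      (hint.const_mul _) (fun x => mul_nonneg (mul_nonneg hC0 hδ.le) (hth x))
      fun b hb _ hb1 => ?_
    rw [← hab b hb]
    have hI := S.measC_integral_nonneg (m := m) hδ b
    calc S.Pm m (S.Rb q δ b) ≤ |S.Pm m (S.Rb q δ b)| := le_abs_self _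
      _ ≤ C₂ * δ * ∫ y, S.theta m δ y * ‖b y‖ ∂S.nu := h2 δ hδ hδ' m hm q hq b hb hb1
      _ ≤ C * δ * ∫ y, S.theta m δ y * ‖b y‖ ∂S.nu :=
          mul_le_mul_of_nonneg_right (mul_le_mul_of_nonneg_right hC2 hδ.le) hI
      _ = ∫ x, C * δ * S.theta m δ x * ‖b x‖ ∂S.nu := (e (C * δ) b).symm
  have hD : ∀ᵐ x ∂S.nu, Pos6 (a x + (C * δ ^ 2 * S.theta m δ x) • Fc) := by
    refine S.ae_pos6 ha (t := fun x => C * δ ^ 2 * S.theta m δ x) (hmeas.const_mul _)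
      (hint.const_mul _) fun b hb _ hb1 hb2 => ?_
    rw [← hab b hb]
    have hI := S.measC_integral_nonneg (m := m) hδ b
    have h4 := h3 δ hδ hδ' m hm q hq b hb hb1 hb2
    have h5 : C₃ * δ ^ 2 * ∫ y, S.theta m δ y * ‖b y‖ ∂S.nu ≤
        C * δ ^ 2 * ∫ y, S.theta m δ y * ‖b y‖ ∂S.nu :=
      mul_le_mul_of_nonneg_right (mul_le_mul_of_nonneg_right hC3 (sq_nonneg δ)) hI
    rw [e (C * δ ^ 2) b]
    linarith
  filter_upwards [hA, hB, hD] with x x1 x2 x3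
  exact ⟨x1, x2, x3⟩

end Setup

end Pool.Agent.W_MP_d8b8b7_gt
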