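import Pool.Agent.W_MP_d8b8b7_gt.MeasA
import Pool.Agent.W_MP_d8b8b7_gt.L2
import Pool.Agent.W_MP_d8b8b7_gt.AlgPos

/-!
# L2 consequences of the pointwise bounds of a representative
-/

namespace Pool.Agent.W_MP_d8b8b7_gt

open MeasureTheory Set Filter Topology
open scoped ContDiff ENNReal

variable {N : ℕ}

namespace Setup

variable (S : Setup N)

theorem nrm_theta (m : Measure (EN N × EN N)) (hm : S.IsPos m) {δ : ℝ} (hδ : 0 < δ) :
    Integrable (fun y => S.theta m δ y ^ 2) S.nu ∧ Integrable (S.theta m δ) S.nu ∧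
    δ * Real.sqrt (∫ y, S.theta m δ y ^ 2 ∂S.nu) = Real.sqrt (S.dens m δ) := by
  have hmeas := S.measurable_theta m hm δ
  have h0 := S.theta_nonneg m δ hδ
  have h1 := fun y => S.theta_le m hm hδ y
  refine ⟨?_, ?_, ?_⟩
  · refine Integrable.of_bound (hmeas.pow_const 2).aestronglyMeasurable
      ((δ⁻¹ ^ 4 * mass m) ^ 2) (Filter.Eventually.of_forall fun y => ?_)
    rw [Real.norm_eq_abs, abs_of_nonneg (sq_nonneg _)]
    exact pow_le_pow_left₀ (h0 y) (h1 y) 2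
  · refine Integrable.of_bound hmeas.aestronglyMeasurable
      (δ⁻¹ ^ 4 * mass m) (Filter.Eventually.of_forall fun y => ?_)
    rw [Real.norm_eq_abs, abs_of_nonneg (h0 y)]
    exact h1 y
  · unfold dens
    rw [Real.sqrt_mul (sq_nonneg δ), Real.sqrt_sq hδ.le]

/-- an L2 bound from a pointwise bound by a multiple of theta -/
theorem repL2_nrm_le {m : Measure (EN N × EN N)} (hm : S.IsPos m) {δ : ℝ} (hδ : 0 < δ)
    {a : EN N → C6} (ha : S.L2F a) {C : ℝ} (hC : 0 ≤ C)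
    (h : ∀ᵐ x ∂S.nu, ‖a x‖ ≤ C * S.theta m δ x) :
    S.nrm a ≤ C * Real.sqrt (∫ y, S.theta m δ y ^ 2 ∂S.nu) := by
  obtain ⟨h1, -, -⟩ := S.nrm_theta m hm hδ
  have h2 : ∫ x, ‖a x‖ ^ 2 ∂S.nu ≤ ∫ x, C ^ 2 * S.theta m δ x ^ 2 ∂S.nu := by
    refine integral_mono_ae (L2F.integrable_sq S ha) (h1.const_mul _) ?_
    filter_upwards [h] with x hx
    have := pow_le_pow_left₀ (norm_nonneg _) hx 2
    rwa [mul_pow] at this
  rw [integral_const_mul] at h2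
  unfold nrm
  have h3 := Real.sqrt_le_sqrt h2
  rwa [Real.sqrt_mul (sq_nonneg C), Real.sqrt_sq hC] at h3

/-- the pointwise inequality for the wedge square of the invariant part -/
theorem repL2_point {C t : ℝ} (hC : 0 ≤ C) (ht : 0 ≤ t) {δ : ℝ} (hδ : 0 < δ) (hδ' : δ ≤ 1) {a : C6}
    (h1 : ‖a‖ ≤ C * t) (h2 : Pos6 (a + (C * δ ^ 2 * t) • Fc)) :
    -(6 * C ^ 2 * (δ ^ 2 * t ^ 2)) ≤ wedge (pr1 a) (pr1 a) := by
  have h3 := Pos6.wedge_nonneg h2 h2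
  have e : pr1 (a + (C * δ ^ 2 * t) • Fc) = pr1 a + (C * δ ^ 2 * t) • Fc := by
    have := pr1_linear 1 (C * δ ^ 2 * t) a Fc
    rw [one_smul, one_smul, pr1_Fc] at this
    exact this
  rw [e, wedge_add_left, wedge_add_right, wedge_add_right, wedge_smul_left, wedge_smul_right,
    wedge_smul_right, wedge_smul_left, wedge_Fc_Fc, wedge_comm Fc (pr1 a)] at h3
  have h4 : |wedge (pr1 a) Fc| ≤ C * t * 2 := by
    refine (abs_wedge_le _ _).trans ?_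
    have h5 : ‖Fc‖ ≤ 2 := by
      have h6 := norm_Fc_sq
      nlinarith [norm_nonneg Fc]
    exact mul_le_mul ((norm_pr1_le a).trans h1) h5 (norm_nonneg _) (by positivity)
  have h5 := (abs_le.1 h4).2
  have h6 : 0 ≤ C * δ ^ 2 * t := by positivity
  have h7 : C * δ ^ 2 * t * wedge (pr1 a) Fc ≤ C * δ ^ 2 * t * (C * t * 2) :=
    mul_le_mul_of_nonneg_left h5 h6
  have h8 : (C * δ ^ 2 * t) * (C * δ ^ 2 * t) ≤ C ^ 2 * (δ ^ 2 * t ^ 2) := by
    have h9 : δ ^ 2 ≤ 1 := pow_le_one₀ hδ.le hδ'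
    have h10 : 0 ≤ C ^ 2 * (δ ^ 2 * t ^ 2) := by positivity
    calc (C * δ ^ 2 * t) * (C * δ ^ 2 * t) = C ^ 2 * (δ ^ 2 * t ^ 2) * δ ^ 2 := by ring
      _ ≤ C ^ 2 * (δ ^ 2 * t ^ 2) * 1 := mul_le_mul_of_nonneg_left h9 h10
      _ = C ^ 2 * (δ ^ 2 * t ^ 2) := mul_one _
  nlinarith

/-- consequences of the pointwise bounds of a (given as hypotheses) -/
theorem rep_L2 (C : ℝ) (hC : 0 ≤ C) : ∃ C' : ℝ, 0 ≤ C' ∧ ∀ (m : Measure (EN N × EN N)), S.IsPos m →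
    ∀ δ : ℝ, 0 < δ → δ ≤ 1 → ∀ a : EN N → C6, S.L2F a →
    (∀ᵐ x ∂S.nu, ‖a x‖ ≤ C * S.theta m δ x ∧ ‖pr2 (a x)‖ ≤ C * δ * S.theta m δ x ∧
        Pos6 (a x + (C * δ ^ 2 * S.theta m δ x) • Fc)) →
    δ * S.nrm a ≤ C' * Real.sqrt (S.dens m δ) ∧
    S.nrm (fun x => pr2 (a x)) ≤ C' * Real.sqrt (S.dens m δ) ∧
    -(C' * S.dens m δ) ≤ S.B (fun x => pr1 (a x)) (fun x => pr1 (a x)) := by
  refine ⟨C + 6 * C ^ 2, by positivity, fun m hm δ hδ hδ' a ha h => ?_⟩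
  obtain ⟨h1, -, h3⟩ := S.nrm_theta m hm hδ
  have hle : C * Real.sqrt (S.dens m δ) ≤ (C + 6 * C ^ 2) * Real.sqrt (S.dens m δ) :=
    mul_le_mul_of_nonneg_right (by nlinarith) (Real.sqrt_nonneg _)
  refine ⟨?_, ?_, ?_⟩
  · refine le_trans ?_ hle
    have h4 := S.repL2_nrm_le hm hδ ha hC (h.mono fun x hx => hx.1)
    rw [← h3]
    calc δ * S.nrm a ≤ δ * (C * Real.sqrt (∫ y, S.theta m δ y ^ 2 ∂S.nu)) :=
          mul_le_mul_of_nonneg_left h4 hδ.le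
      _ = C * (δ * Real.sqrt (∫ y, S.theta m δ y ^ 2 ∂S.nu)) := by ring
  · refine le_trans ?_ hle
    have h4 := S.repL2_nrm_le hm hδ (L2F.pr2 S ha) (mul_nonneg hC hδ.le)
      (h.mono fun x hx => hx.2.1)
    rw [← h3, ← mul_assoc]
    exact h4
  · have hd : 0 ≤ S.dens m δ := by
      unfold dens
      exact mul_nonneg (sq_nonneg _) (integral_nonneg fun y => sq_nonneg _)
    have h4 : ∫ x, -(6 * C ^ 2 * (δ ^ 2 * S.theta m δ x ^ 2)) ∂S.nu ≤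
        S.B (fun x => pr1 (a x)) (fun x => pr1 (a x)) := by
      refine integral_mono_ae (((h1.const_mul (δ ^ 2)).const_mul (6 * C ^ 2)).neg)
        (S.integrable_wedge (L2F.pr1 S ha) (L2F.pr1 S ha)) ?_
      filter_upwards [h] with x hx
      exact repL2_point hC (S.theta_nonneg m δ hδ x) hδ hδ' hx.1 hx.2.2
    rw [integral_neg, integral_const_mul, integral_const_mul] at h4
    have h5 : δ ^ 2 * ∫ y, S.theta m δ y ^ 2 ∂S.nu = S.dens m δ := rfl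
    rw [h5] at h4
    refine le_trans ?_ h4
    have h6 : 6 * C ^ 2 * S.dens m δ ≤ (C + 6 * C ^ 2) * S.dens m δ :=
      mul_le_mul_of_nonneg_right (by linarith) hd
    linarith

end Setup

end Pool.Agent.W_MP_d8b8b7_gt
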