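import Pool.Agent.W_MP_d8b8b7_gt.UpPair
import Pool.Agent.W_MP_d8b8b7_gt.Com
import Pool.Agent.W_MP_d8b8b7_gt.MeasC
import Pool.Agent.W_MP_d8b8b7_gt.Bump
import Pool.Agent.W_MP_d8b8b7_gt.RepL2

/-!
# The energy inequality

Let q be a nonnegative profile supported in the unit ball.  On L2 component fields b put
Pm m (Rb q δ b) = B a b (`exists_rep`) and T (Rb q δ b) = B t b (`riesz`, bounded by `Ebd` at the
scale 2 δ because Rb q δ = Rb (2^N q(2·)) (2δ), `Rb_rescale`); u = a + t satisfies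
B u (cp w) = (∫ q) (Pm m w + T w) for closed smooth forms w (`ExPair.Rb_closed`), so
B u u ≤ κ (∫ q)² ≤ C κ.  With primes for pr1 and double primes for pr2:
B u u = ∫ wedge (a'+t') (a'+t') + ‖a'' + t''‖²,
∫ wedge a' a' ≥ - C D (`rep_L2`), ‖a‖_2 ≤ C D^{1/2}/δ, ‖a''‖_2 ≤ C D^{1/2},
‖t'‖_2 ≤ C δ (K + e) (commutator estimate `com_bound` at the scale 2 δ and `nrm_pr1_le_of_B`).
Hence ‖a''+t''‖² ≤ C (κ + D + D^{1/2} (K+e) + δ² (K+e)²) and
‖t‖_2 ≤ C ((D+κ)^{1/2} + ((D+κ)^{1/2} (K+e))^{1/2} + δ (K+e)).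
-/

namespace Pool.Agent.W_MP_d8b8b7_gt

open MeasureTheory Set Filter Topology
open scoped ContDiff ENNReal

variable {N : ℕ}

namespace Setup

variable (S : Setup N)

theorem energy_nrm_pr1_le {a : EN N → C6} (ha : S.L2F a) :
    S.nrm (fun x => pr1 (a x)) ≤ S.nrm a := by
  have h : S.nrm (fun x => pr1 (a x)) ^ 2 ≤ S.nrm a ^ 2 := by
    rw [nrm_sq, nrm_sq]
    refine integral_mono (L2F.integrable_sq S (L2F.pr1 S ha)) (L2F.integrable_sq S ha) fun x => ?_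
    exact pow_le_pow_left₀ (norm_nonneg _) (norm_pr1_le _) 2
  exact (pow_le_pow_iff_left₀ (S.nrm_nonneg _) (S.nrm_nonneg _) two_ne_zero).1 h

theorem energy_B_split {u : EN N → C6} (hu : S.L2F u) :
    S.B u u = S.B (fun x => pr1 (u x)) (fun x => pr1 (u x)) + S.nrm (fun x => pr2 (u x)) ^ 2 := by
  rw [nrm_sq]
  unfold B
  rw [← integral_add (S.integrable_wedge (L2F.pr1 S hu) (L2F.pr1 S hu))
    (L2F.integrable_sq S (L2F.pr2 S hu))]
  refine integral_congr_ae (ae_of_all _ fun x => ?_)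
  change wedge (u x) (u x) = wedge (pr1 (u x)) (pr1 (u x)) + ‖pr2 (u x)‖ ^ 2
  rw [wedge_split, wedge_pr2_self]

theorem energy_B_add {a b : EN N → C6} (ha : S.L2F a) (hb : S.L2F b) :
    S.B (a + b) (a + b) = S.B a a + 2 * S.B a b + S.B b b := by
  have hab := L2F.add S ha hb
  rw [S.B_add_left ha hb hab, S.B_comm a (a + b), S.B_comm b (a + b), S.B_add_left ha hb ha,
    S.B_add_left ha hb hb, S.B_comm b a]
  ring

/-- change of scale -/
theorem energy_rescale {C₁ : ℝ} (hC₁ : 0 < C₁) (q : EN N → ℝ) {δ : ℝ} (hδ : 0 < δ)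
    (b : EN N → C6) :
    S.Rb q δ b = C₁ • S.Rb (fun s => C₁⁻¹ * (2 ^ N * q ((2 : ℝ) • s))) (2 * δ) b := by
  rw [S.Rb_profile_smul C₁⁻¹ (fun s => 2 ^ N * q ((2 : ℝ) • s)), smul_smul,
    mul_inv_cancel₀ hC₁.ne', one_smul]
  exact S.Rb_rescale q hδ b

/-- the elementary inequality at the end -/
theorem energy_arith {C' c2 d E δ na nt1 npa Baa Bat Btt npu : ℝ} (hC' : 0 ≤ C') (hc2 : 0 ≤ c2)
    (hd : 0 ≤ d) (hE : 0 ≤ E) (hδ : 0 < δ) (hna : 0 ≤ na) (hnt1 : 0 ≤ nt1)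
    (h1 : δ * na ≤ C' * d) (h2 : npa ≤ C' * d) (h3 : -(C' * d ^ 2) ≤ Baa)
    (h4 : nt1 ≤ c2 * δ * E) (h5 : Baa + 2 * Bat + Btt + npu ^ 2 ≤ 0)
    (h6 : -(na * nt1) ≤ Bat) (h7 : -(nt1 * nt1) ≤ Btt) (hnpu : 0 ≤ npu) :
    nt1 + (npu + npa) ≤ (Real.sqrt C' + C' + Real.sqrt (2 * C' * c2) + 2 * c2) *
      (d + Real.sqrt (d * E) + δ * E) := by
  have hsC := Real.sqrt_nonneg C'
  have hs2 := Real.sqrt_nonneg (2 * C' * c2)
  have hsd := Real.sqrt_nonneg (d * E)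
  have eC : Real.sqrt C' ^ 2 = C' := Real.sq_sqrt hC'
  have e2 : Real.sqrt (2 * C' * c2) ^ 2 = 2 * C' * c2 := Real.sq_sqrt (by positivity)
  have ed : Real.sqrt (d * E) ^ 2 = d * E := Real.sq_sqrt (by positivity)
  have g1 : na * nt1 ≤ C' * d * (c2 * E) := by
    calc na * nt1 ≤ na * (c2 * δ * E) := mul_le_mul_of_nonneg_left h4 hna
      _ = (δ * na) * (c2 * E) := by ring
      _ ≤ C' * d * (c2 * E) := mul_le_mul_of_nonneg_right h1 (by positivity)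
  have g2 : nt1 * nt1 ≤ (c2 * δ * E) ^ 2 := by
    calc nt1 * nt1 ≤ (c2 * δ * E) * (c2 * δ * E) := mul_le_mul h4 h4 hnt1 (by positivity)
      _ = _ := by ring
  have g3 : npu ^ 2 ≤ C' * d ^ 2 + 2 * C' * c2 * (d * E) + (c2 * δ * E) ^ 2 := by
    linarith
  obtain ⟨X, hX⟩ : ∃ X, X = Real.sqrt C' * d + Real.sqrt (2 * C' * c2) * Real.sqrt (d * E) +
    c2 * δ * E := ⟨_, rfl⟩
  have hX0 : 0 ≤ X := by rw [hX]; positivity
  have g4 : npu ^ 2 ≤ X ^ 2 := by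
    refine g3.trans ?_
    have k1 : 0 ≤ Real.sqrt C' * d := by positivity
    have k2 : 0 ≤ Real.sqrt (2 * C' * c2) * Real.sqrt (d * E) := by positivity
    have k3 : 0 ≤ c2 * δ * E := by positivity
    have k4 : (Real.sqrt C' * d) ^ 2 = C' * d ^ 2 := by rw [mul_pow, eC]
    have k5 : (Real.sqrt (2 * C' * c2) * Real.sqrt (d * E)) ^ 2 = 2 * C' * c2 * (d * E) := by
      rw [mul_pow, e2, ed]
    rw [hX, ← k4, ← k5]
    nlinarith [mul_nonneg k1 k2, mul_nonneg k1 k3, mul_nonneg k2 k3]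
  have g5 : npu ≤ X := (pow_le_pow_iff_left₀ hnpu hX0 two_ne_zero).1 g4
  have m1 : 0 ≤ Real.sqrt C' * Real.sqrt (d * E) := by positivity
  have m2 : 0 ≤ Real.sqrt C' * (δ * E) := by positivity
  have m3 : 0 ≤ C' * Real.sqrt (d * E) := by positivity
  have m4 : 0 ≤ C' * (δ * E) := by positivity
  have m5 : 0 ≤ Real.sqrt (2 * C' * c2) * d := by positivity
  have m6 : 0 ≤ Real.sqrt (2 * C' * c2) * (δ * E) := by positivity
  have m7 : 0 ≤ c2 * d := by positivity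
  have m8 : 0 ≤ c2 * Real.sqrt (d * E) := by positivity
  have e9 : (Real.sqrt C' + C' + Real.sqrt (2 * C' * c2) + 2 * c2) *
      (d + Real.sqrt (d * E) + δ * E) =
      Real.sqrt C' * d + Real.sqrt C' * Real.sqrt (d * E) + Real.sqrt C' * (δ * E) +
      C' * d + C' * Real.sqrt (d * E) + C' * (δ * E) +
      Real.sqrt (2 * C' * c2) * d + Real.sqrt (2 * C' * c2) * Real.sqrt (d * E) +
      Real.sqrt (2 * C' * c2) * (δ * E) +
      2 * (c2 * d) + 2 * (c2 * Real.sqrt (d * E)) + 2 * (c2 * δ * E) := by ring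
  rw [e9]
  rw [hX] at g5
  linarith

/-- the inequality for one nonnegative profile -/
theorem energy_q (k : ℕ) : ∀ C₁ : ℝ, 0 < C₁ → ∃ C : ℝ, 0 ≤ C ∧ ∀ (K κ : ℝ) (m : Measure (EN N × EN N))
    (T : (EN N → Bil N) → ℝ), S.UpPair k K κ m T →
    ∀ δ : ℝ, 0 < δ → δ ≤ S.d0 / 4 → ∀ e : ℝ, 0 ≤ e → S.Ebd k T (2 * δ) e →
    ∀ q : EN N → ℝ, QProf 0 1 q → Prof k (fun s => C₁⁻¹ * (2 ^ N * q ((2 : ℝ) • s))) →
    ∀ b : EN N → C6, S.L2F b → |T (S.Rb q δ b)| ≤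
      C * (Real.sqrt (S.dens m δ + κ) + Real.sqrt (Real.sqrt (S.dens m δ + κ) * (K + e)) +
        δ * (K + e)) * S.nrm b := by
  intro C₁ hC₁
  obtain ⟨Cc, hCc, hcom⟩ := S.com_bound k
  obtain ⟨Cr, hCr, hrep⟩ := S.rep_bounds
  obtain ⟨C', hC', hL2⟩ := S.rep_L2 Cr hCr
  obtain ⟨c2, hc2def⟩ : ∃ c2, c2 = C₁ * Cc * 2 := ⟨_, rfl⟩
  have hc2 : 0 ≤ c2 := by rw [hc2def]; positivity
  obtain ⟨v, hvdef⟩ : ∃ v, v = ((volume : Measure (EN N)) (Metric.ball 0 1)).toReal := ⟨_, rfl⟩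
  have hv0 : 0 ≤ v := by rw [hvdef]; exact ENNReal.toReal_nonneg
  obtain ⟨C2, hC2def⟩ : ∃ C2, C2 = C' + v ^ 2 := ⟨_, rfl⟩
  have hC2 : 0 ≤ C2 := by rw [hC2def]; positivity
  have hC'2 : C' ≤ C2 := by rw [hC2def]; linarith [sq_nonneg v]
  refine ⟨Real.sqrt C2 + C2 + Real.sqrt (2 * C2 * c2) + 2 * c2, by positivity, ?_⟩
  intro K κ m T hTP δ hδ hδ4 e he hEb q hq hpq b hb
  have hkap := hTP.kap_nonneg
  have hT := hTP.cur
  have hK := hT.K_nonneg
  have hd0 := S.d0_pos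
  have hd1 := S.d0_le
  have hδ2 : δ ≤ S.d0 / 2 := by linarith
  have h2δ : 0 < 2 * δ := by linarith
  have h2δ' : 2 * δ ≤ S.d0 / 2 := by linarith
  have hδ1 : δ ≤ 1 := by linarith
  -- the functional T (Rb q δ b)
  have hresc : ∀ b, S.L2F b → T (S.Rb q δ b) =
      C₁ * T (S.Rb (fun s => C₁⁻¹ * (2 ^ N * q ((2 : ℝ) • s))) (2 * δ) b) := by
    intro b hb
    rw [S.energy_rescale hC₁ q hδ b]
    exact hT.smul C₁ _ (S.isForm_Rb hpq.smooth h2δ hb).smooth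
  have hsm : ∀ b, S.L2F b → ContDiff ℝ ∞ (S.Rb q δ b) := fun b hb =>
    (S.isForm_Rb hq.smooth hδ hb).smooth
  obtain ⟨t, ht, -, htB⟩ := S.riesz (fun b => T (S.Rb q δ b)) (C₁ * e)
    (by
      intro b b' hb hb'
      rw [S.Rb_add hq.smooth hq.supp hδ hb hb', hT.add _ _ (hsm b hb) (hsm b' hb')])
    (by
      intro c b hb
      rw [S.Rb_smul, hT.smul c _ (hsm b hb)])
    (by
      intro b hb
      rw [hresc b hb, abs_mul, abs_of_pos hC₁, mul_assoc]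
      exact mul_le_mul_of_nonneg_left (hEb _ hpq b hb) hC₁.le)
  have ht1 : S.nrm (fun x => pr1 (t x)) ≤ c2 * δ * (K + e) := by
    refine S.nrm_pr1_le_of_B ht (by positivity) fun b hb hpr => ?_
    rw [← htB b hb, hresc b hb, abs_mul, abs_of_pos hC₁]
    have h1 := hcom K T hT (2 * δ) h2δ h2δ' e he hEb _ hpq b hb hpr
    calc C₁ * |T (S.Rb (fun s => C₁⁻¹ * (2 ^ N * q ((2 : ℝ) • s))) (2 * δ) b)|
        ≤ C₁ * (Cc * (2 * δ) * (K + e) * S.nrm b) := mul_le_mul_of_nonneg_left h1 hC₁.le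
      _ = c2 * δ * (K + e) * S.nrm b := by rw [hc2def]; ring
  -- the representative of m
  obtain ⟨a, ha, haB⟩ := S.exists_rep hTP.pos hδ hδ2 hq
  obtain ⟨h1, h2, h3⟩ := hL2 m hTP.pos δ hδ hδ1 a ha (hrep δ hδ hδ2 m hTP.pos q hq a ha haB)
  have hdens : 0 ≤ S.dens m δ := mul_nonneg (sq_nonneg δ) (integral_nonneg fun x => sq_nonneg _)
  have hu := L2F.add S ha ht
  have hint : (∫ s, q s) ^ 2 ≤ v ^ 2 := by
    have h0 : 0 ≤ ∫ s, q s := integral_nonneg hq.nonneg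
    have h1 : ∫ s, q s ≤ v := by
      have h2 : ∫ s, q s ≤ ∫ s, (Metric.ball (0 : EN N) 1).indicator (fun _ => (1 : ℝ)) s := by
        refine integral_mono_of_nonneg (ae_of_all _ hq.nonneg)
          ((integrable_indicator_iff measurableSet_ball).2
            (integrableOn_const (measure_ball_lt_top).ne)) (ae_of_all _ fun s => ?_)
        by_cases hs : s ∈ Metric.ball (0 : EN N) 1
        · rw [indicator_of_mem hs]
          have h3 := hq.bound 0 le_rfl s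
          rw [norm_iteratedFDeriv_zero, Real.norm_eq_abs] at h3
          exact (le_abs_self _).trans h3
        · rw [indicator_of_notMem hs]
          rw [mem_ball_zero_iff, not_lt] at hs
          exact (hq.supp s hs).le
      refine h2.trans (le_of_eq ?_)
      rw [integral_indicator measurableSet_ball, setIntegral_const, smul_eq_mul, mul_one, hvdef]
      rfl
    exact pow_le_pow_left₀ h0 h1 2
  have hneg : S.B (a + t) (a + t) ≤ v ^ 2 * κ := by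
    refine (hTP.upper (∫ s, q s) _ hu fun w hw hcw' => ?_).trans ?_
    · have hcw : S.L2F (S.cp w) := S.L2F_cp hw.smooth.continuous
      rw [S.B_add_left ha ht hcw, ← haB _ hcw, ← htB _ hcw]
      exact ExPair.Rb_closed S (UpPair.toExPair S hTP) hq.smooth hq.supp hδ hδ2 hw hcw'
    · rw [mul_comm (v ^ 2)]
      exact mul_le_mul_of_nonneg_left hint hkap
  have hu1 : (fun x => pr1 ((a + t) x)) = (fun x => pr1 (a x)) + fun x => pr1 (t x) := by
    funext x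
    have h := pr1_linear 1 1 (a x) (t x)
    simp only [one_smul] at h
    exact h
  have hu2 : (fun x => pr2 (t x)) = (fun x => pr2 ((a + t) x)) + (-1 : ℝ) • fun x => pr2 (a x) := by
    funext x
    have h := pr2_linear 1 1 (a x) (t x)
    simp only [one_smul] at h
    change pr2 (t x) = pr2 (a x + t x) + (-1 : ℝ) • pr2 (a x)
    rw [h]
    module
  have hsplit := S.energy_B_split hu
  rw [hu1, S.energy_B_add (L2F.pr1 S ha) (L2F.pr1 S ht)] at hsplit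
  have hBat := S.abs_B_le (L2F.pr1 S ha) (L2F.pr1 S ht)
  have hBtt := S.abs_B_le (L2F.pr1 S ht) (L2F.pr1 S ht)
  have hna := S.energy_nrm_pr1_le ha
  have hn1 := S.nrm_nonneg (fun x => pr1 (t x))
  have hdk : 0 ≤ S.dens m δ + κ := add_nonneg hdens hkap
  have hsq : Real.sqrt (S.dens m δ) ≤ Real.sqrt (S.dens m δ + κ) :=
    Real.sqrt_le_sqrt (by linarith)
  have hs0 := Real.sqrt_nonneg (S.dens m δ)
  have hs0' := Real.sqrt_nonneg (S.dens m δ + κ)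
  have hmon : C' * Real.sqrt (S.dens m δ) ≤ C2 * Real.sqrt (S.dens m δ + κ) :=
    mul_le_mul hC'2 hsq hs0 hC2
  have hfin := energy_arith (na := S.nrm a) (nt1 := S.nrm (fun x => pr1 (t x)))
    (npa := S.nrm (fun x => pr2 (a x)))
    (Baa := S.B (fun x => pr1 (a x)) (fun x => pr1 (a x)) - v ^ 2 * κ)
    (Bat := S.B (fun x => pr1 (a x)) (fun x => pr1 (t x)))
    (Btt := S.B (fun x => pr1 (t x)) (fun x => pr1 (t x)))
    (npu := S.nrm (fun x => pr2 ((a + t) x))) (d := Real.sqrt (S.dens m δ + κ)) (E := K + e)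
    (δ := δ)
    hC2 hc2 hs0' (by linarith) hδ (S.nrm_nonneg a) hn1 (h1.trans hmon) (h2.trans hmon)
    (by
      rw [Real.sq_sqrt hdk, hC2def]
      have k1 : 0 ≤ v ^ 2 * S.dens m δ := by positivity
      have k2 : 0 ≤ C' * κ := by positivity
      nlinarith [h3]) ht1 (by linarith [hsplit, hneg])
    (by
      have h4 := (abs_le.1 hBat).1
      have h5 : S.nrm (fun x => pr1 (a x)) * S.nrm (fun x => pr1 (t x)) ≤
        S.nrm a * S.nrm (fun x => pr1 (t x)) := mul_le_mul_of_nonneg_right hna hn1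
      linarith)
    ((abs_le.1 hBtt).1) (S.nrm_nonneg _)
  have hnt : S.nrm t ≤ S.nrm (fun x => pr1 (t x)) + (S.nrm (fun x => pr2 ((a + t) x)) +
      S.nrm (fun x => pr2 (a x))) := by
    have e1 : t = (fun x => pr1 (t x)) + fun x => pr2 (t x) := by
      funext x
      exact (pr1_add_pr2 (t x)).symm
    have h4 : S.nrm t ≤ S.nrm (fun x => pr1 (t x)) + S.nrm (fun x => pr2 (t x)) := by
      have h5 := S.nrm_add_le (L2F.pr1 S ht) (L2F.pr2 S ht)
      rwa [← e1] at h5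
    have h6 : S.nrm (fun x => pr2 (t x)) ≤ S.nrm (fun x => pr2 ((a + t) x)) +
        S.nrm (fun x => pr2 (a x)) := by
      have h7 := S.nrm_add_le (L2F.pr2 S hu) (L2F.smul S (L2F.pr2 S ha) (-1))
      rw [← hu2, S.nrm_smul] at h7
      simpa using h7
    linarith
  rw [htB b hb]
  refine (S.abs_B_le ht hb).trans (mul_le_mul_of_nonneg_right (hnt.trans hfin) (S.nrm_nonneg b))

/-- the energy inequality -/
theorem energy (k : ℕ) : ∃ C : ℝ, 0 ≤ C ∧ ∀ (K κ : ℝ) (m : Measure (EN N × EN N))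
    (T : (EN N → Bil N) → ℝ), S.UpPair k K κ m T →
    ∀ δ : ℝ, 0 < δ → δ ≤ S.d0 / 4 → ∀ e : ℝ, 0 ≤ e → S.Ebd k T (2 * δ) e →
    S.Ebd k T δ (C * (Real.sqrt (S.dens m δ + κ) + Real.sqrt (Real.sqrt (S.dens m δ + κ) * (K + e)) +
      δ * (K + e))) := by
  obtain ⟨η, C₁, hC₁, hη, hη', hp'⟩ := exists_bump (N := N) k
  obtain ⟨C, hC, hq⟩ := S.energy_q k C₁ hC₁
  refine ⟨3 * C, by positivity, ?_⟩
  intro K κ m T hTP δ hδ hδ4 e he hEb p hp b hb
  have hT := hTP.cur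
  obtain ⟨hq1, hq2⟩ := hp' p hp
  have e1 : S.Rb p δ b = (2 : ℝ) • S.Rb (fun s => (p s + η s) / 2) δ b +
      (-1 : ℝ) • S.Rb η δ b := by
    have h2 : p = fun s => 2 * ((p s + η s) / 2) - η s := by
      funext s
      ring
    have hsm2 : ContDiff ℝ ∞ (fun s => 2 * ((p s + η s) / 2)) := contDiff_const.mul hq1.smooth
    have h3 : S.Rb p δ b = S.Rb (fun s => 2 * ((p s + η s) / 2) - η s) δ b :=
      congrArg (fun r => S.Rb r δ b) h2
    rw [h3, S.Rb_profile_sub hsm2 (fun s hs => by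
      have h4 := hq1.supp s hs
      rw [h4, mul_zero]) hη.smooth hη.supp hδ hb, S.Rb_profile_smul 2 (fun s => (p s + η s) / 2)]
    rw [neg_smul, one_smul, sub_eq_add_neg]
  have hs1 : ContDiff ℝ ∞ (S.Rb (fun s => (p s + η s) / 2) δ b) :=
    (S.isForm_Rb hq1.smooth hδ hb).smooth
  have hs2 : ContDiff ℝ ∞ (S.Rb η δ b) := (S.isForm_Rb hη.smooth hδ hb).smooth
  have hs1' : ContDiff ℝ ∞ ((2 : ℝ) • S.Rb (fun s => (p s + η s) / 2) δ b) := hs1.const_smul (2 : ℝ)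
  have hs2' : ContDiff ℝ ∞ ((-1 : ℝ) • S.Rb η δ b) := hs2.const_smul (-1 : ℝ)
  have b1 := hq K κ m T hTP δ hδ hδ4 e he hEb _ hq1 hq2 b hb
  have b2 := hq K κ m T hTP δ hδ hδ4 e he hEb _ hη hη' b hb
  rw [e1, hT.add _ _ hs1' hs2', hT.smul _ _ hs1, hT.smul _ _ hs2]
  obtain ⟨M, hM⟩ : ∃ M, M = (Real.sqrt (S.dens m δ + κ) +
      Real.sqrt (Real.sqrt (S.dens m δ + κ) * (K + e)) + δ * (K + e)) := ⟨_, rfl⟩
  rw [← hM] at b1 b2 ⊢
  refine (abs_add_le _ _).trans ?_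
  rw [abs_mul, abs_mul]
  norm_num
  linarith

end Setup

end Pool.Agent.W_MP_d8b8b7_gt
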