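import Pool.Agent.W_MP_d8b8b7_gt.PtBound
import Pool.Agent.W_MP_d8b8b7_gt.L2

/-!
# Measurability and integrability of the extended fields `ex b`
-/

namespace Pool.Agent.W_MP_d8b8b7_gt

open MeasureTheory Set Filter Topology
open scoped ContDiff ENNReal

variable {N : ℕ}

/-- change of variables for a dilation -/
theorem exMeas_dilate (x : EN N) {δ : ℝ} (hδ : 0 < δ) {g : EN N → ℝ≥0∞} (hg : Measurable g) :
    ∫⁻ y in Metric.ball x δ, g y = ENNReal.ofReal (δ ^ N) *
      ∫⁻ s in Metric.ball (0 : EN N) 1, g (x + δ • s) := by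
  have hm : Measurable (fun s : EN N => δ • s) := measurable_const_smul δ
  have h1 : ∫⁻ s in Metric.ball (0 : EN N) 1, g (x + δ • s) =
      ∫⁻ s : EN N, (Metric.ball x δ).indicator g (x + δ • s) := by
    rw [← lintegral_indicator Metric.isOpen_ball.measurableSet]
    apply lintegral_congr
    intro s
    by_cases hs : s ∈ Metric.ball (0 : EN N) 1
    · rw [indicator_of_mem hs, indicator_of_mem]
      rw [mem_ball_iff_norm, add_sub_cancel_left, norm_smul, Real.norm_eq_abs, abs_of_pos hδ]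
      rw [mem_ball_zero_iff] at hs
      nlinarith
    · rw [indicator_of_notMem hs, indicator_of_notMem]
      intro h
      rw [mem_ball_iff_norm, add_sub_cancel_left, norm_smul, Real.norm_eq_abs, abs_of_pos hδ] at h
      apply hs
      rw [mem_ball_zero_iff]
      nlinarith
  have h2 : ∫⁻ s : EN N, (Metric.ball x δ).indicator g (x + δ • s) =
      ∫⁻ u : EN N, (Metric.ball x δ).indicator g (x + u) ∂(Measure.map (fun s : EN N => δ • s)
        volume) := by
    rw [lintegral_map _ hm]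
    exact (hg.indicator Metric.isOpen_ball.measurableSet).comp (measurable_const_add x)
  have h3 : Measure.map (fun s : EN N => δ • s) (volume : Measure (EN N)) =
      ENNReal.ofReal |(δ ^ Module.finrank ℝ (EN N))⁻¹| • volume :=
    Measure.map_addHaar_smul volume hδ.ne'
  have h4 : ∫⁻ u : EN N, (Metric.ball x δ).indicator g (x + u) =
      ∫⁻ y in Metric.ball x δ, g y := by
    rw [lintegral_add_left_eq_self (fun y => (Metric.ball x δ).indicator g y) x,
      lintegral_indicator Metric.isOpen_ball.measurableSet]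
  rw [h1, h2, h3, lintegral_smul_measure, h4, finrank_euclideanSpace_fin, smul_eq_mul,
    ← mul_assoc, ← ENNReal.ofReal_mul (by positivity), abs_of_pos (by positivity),
    mul_inv_cancel₀ (by positivity), ENNReal.ofReal_one, one_mul]

theorem exMeas_biUnion_le {ι : Type*} (t : Finset ι) (s : ι → Set (EN N)) (f : EN N → ℝ≥0∞) :
    ∫⁻ y in ⋃ i ∈ t, s i, f y ≤ ∑ i ∈ t, ∫⁻ y in s i, f y := by
  classical
  induction t using Finset.induction_on with
  | empty => simp
  | insert a t ha ih =>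
    rw [Finset.set_biUnion_insert, Finset.sum_insert ha]
    refine (lintegral_union_le _ _ _).trans ?_
    gcongr

namespace Setup

variable (S : Setup N)

theorem measurable_rho : Measurable S.rho := S.smooth_rho.continuous.measurable

theorem measurable_ex {b : EN N → C6} (hb : Measurable b) : Measurable (S.ex b) := by
  exact ((S.measurable_rc hb).comp S.measurable_rho).indicator S.Ud_open.measurableSet

/-- Pushing Lebesgue measure of Ud forward by rho gives a measure bounded by a multiple of nu.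
Proof: the compact set {infDist ≤ d0/2} is covered by finitely many balls ball x_i d0, x_i in X;
on each ball substitute y = x_i + d0 • s (change of variables for a dilation) and use `ker_up` with
δ = d0. -/
theorem lintegral_Ud_le : ∃ C : ℝ, 0 ≤ C ∧ ∀ f : EN N → ℝ≥0∞, Measurable f →
    ∫⁻ y in S.Ud, f (S.rho y) ≤ ENNReal.ofReal C * ∫⁻ x, f x ∂S.nu := by
  have hd := S.d0_pos
  have hC1 : 0 ≤ S.C1 := zero_le_one.trans S.one_le_C1
  obtain ⟨t, htX, ht⟩ := S.cptX.elim_nhds_subcover (fun x => Metric.ball x (S.d0 / 2))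
    (fun x _ => Metric.ball_mem_nhds x (half_pos hd))
  have hcov : S.Ud ⊆ ⋃ x ∈ t, Metric.ball x S.d0 := by
    intro y hy
    obtain ⟨x, hx, s, hs, rfl⟩ := S.exists_of_mem_Ud hy
    have h1 := ht hx
    rw [mem_iUnion₂] at h1 ⊢
    obtain ⟨z, hz, hxz⟩ := h1
    refine ⟨z, hz, ?_⟩
    rw [Metric.mem_ball] at hxz ⊢
    calc dist (x + s) z ≤ dist (x + s) x + dist x z := dist_triangle _ _ _
      _ < S.d0 / 2 + S.d0 / 2 := by
          apply add_lt_add _ hxz
          rwa [dist_eq_norm, add_sub_cancel_left]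
      _ = S.d0 := by ring
  refine ⟨t.card * (S.d0 ^ N * (S.C1 * S.d0⁻¹ ^ 4)), by positivity, fun f hf => ?_⟩
  have hball : ∀ x ∈ t, ∫⁻ y in Metric.ball x S.d0, f (S.rho y) ≤
      ENNReal.ofReal (S.d0 ^ N * (S.C1 * S.d0⁻¹ ^ 4)) * ∫⁻ x, f x ∂S.nu := by
    intro x hx
    rw [exMeas_dilate (g := fun y => f (S.rho y)) x hd (hf.comp S.measurable_rho), ENNReal.ofReal_mul (by positivity),
      mul_assoc]
    apply mul_le_mul_right
    refine (S.ker_up x (htX x hx) S.d0 hd le_rfl f hf).trans ?_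
    apply mul_le_mul_right
    exact setLIntegral_le_lintegral _ _
  calc ∫⁻ y in S.Ud, f (S.rho y) ≤ ∫⁻ y in ⋃ x ∈ t, Metric.ball x S.d0, f (S.rho y) :=
        lintegral_mono_set hcov
    _ ≤ ∑ x ∈ t, ∫⁻ y in Metric.ball x S.d0, f (S.rho y) :=
        exMeas_biUnion_le _ _ _
    _ ≤ ∑ x ∈ t, ENNReal.ofReal (S.d0 ^ N * (S.C1 * S.d0⁻¹ ^ 4)) * ∫⁻ x, f x ∂S.nu :=
        Finset.sum_le_sum hball
    _ = ENNReal.ofReal (t.card * (S.d0 ^ N * (S.C1 * S.d0⁻¹ ^ 4))) * ∫⁻ x, f x ∂S.nu := by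
        rw [Finset.sum_const, nsmul_eq_mul, ← mul_assoc, ENNReal.ofReal_mul (by positivity)
          (p := (t.card : ℝ)), ENNReal.ofReal_natCast]

/-- `ex b` only depends on the nu-a.e. class of b (apply `lintegral_Ud_le` to the indicator of a
measurable null set containing {b ≠ b'}). -/
theorem ex_congr {b b' : EN N → C6} (h : b =ᵐ[S.nu] b') : S.ex b =ᵐ[volume] S.ex b' := by
  obtain ⟨C, hC, hle⟩ := S.lintegral_Ud_le
  have h0 : S.nu {x | b x ≠ b' x} = 0 := h
  set E := toMeasurable S.nu {x | b x ≠ b' x} with hE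
  have hEm : MeasurableSet E := measurableSet_toMeasurable _ _
  have hE0 : S.nu E = 0 := by rw [hE, measure_toMeasurable, h0]
  have h1 : ∫⁻ y in S.Ud, E.indicator (fun _ => (1 : ℝ≥0∞)) (S.rho y) = 0 := by
    apply le_antisymm _ zero_le
    refine (hle _ (measurable_const.indicator hEm)).trans ?_
    rw [lintegral_indicator hEm, setLIntegral_one, hE0, mul_zero]
  have hm : Measurable (fun y => E.indicator (fun _ => (1 : ℝ≥0∞)) (S.rho y)) :=
    (measurable_const.indicator hEm).comp S.measurable_rho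
  rw [lintegral_eq_zero_iff hm] at h1
  have h2 : ∀ᵐ y ∂volume, y ∈ S.Ud → E.indicator (fun _ => (1 : ℝ≥0∞)) (S.rho y) = 0 :=
    (ae_restrict_iff' S.Ud_open.measurableSet).1 h1
  filter_upwards [h2] with y hy
  by_cases hU : y ∈ S.Ud
  · have h3 := hy hU
    have h4 : S.rho y ∉ E := by
      intro h5
      rw [indicator_of_mem h5] at h3
      exact one_ne_zero h3
    have h5 : b (S.rho y) = b' (S.rho y) := by
      by_contra h6
      exact h4 (subset_toMeasurable _ _ h6)
    unfold ex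
    rw [indicator_of_mem hU, indicator_of_mem hU]
    unfold rc
    rw [h5]
  · unfold ex
    rw [indicator_of_notMem hU, indicator_of_notMem hU]

theorem rc_add (b b' : EN N → C6) (x : EN N) : S.rc (b + b') x = S.rc b x + S.rc b' x := by
  unfold rc
  have h : ∀ i, (b + b') x i = b x i + b' x i := fun i => rfl
  simp only [h, add_smul]
  abel

theorem rc_smul (c : ℝ) (b : EN N → C6) (x : EN N) : S.rc (c • b) x = c • S.rc b x := by
  unfold rc
  have h : ∀ i, (c • b) x i = c * b x i := fun i => rfl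
  simp only [h, smul_add, smul_smul]

theorem ex_add (b b' : EN N → C6) (y : EN N) : S.ex (b + b') y = S.ex b y + S.ex b' y := by
  unfold ex
  by_cases hU : y ∈ S.Ud
  · rw [indicator_of_mem hU, indicator_of_mem hU, indicator_of_mem hU]
    exact S.rc_add b b' _
  · rw [indicator_of_notMem hU, indicator_of_notMem hU, indicator_of_notMem hU, add_zero]

theorem ex_smul (c : ℝ) (b : EN N → C6) (y : EN N) : S.ex (c • b) y = c • S.ex b y := by
  unfold ex
  by_cases hU : y ∈ S.Ud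
  · rw [indicator_of_mem hU, indicator_of_mem hU]
    exact S.rc_smul c b _
  · rw [indicator_of_notMem hU, indicator_of_notMem hU, smul_zero]

theorem ex_zero_of_not_mem {b : EN N → C6} {y : EN N} (hy : y ∉ S.Ud) : S.ex b y = 0 := by
  exact indicator_of_notMem hy _

theorem norm_ex_le : ∃ C : ℝ, 0 ≤ C ∧ ∀ (b : EN N → C6) (y : EN N),
    ‖S.ex b y‖ ≤ S.Ud.indicator (fun y => C * ‖b (S.rho y)‖) y := by
  obtain ⟨C, hC1, hC, -, -⟩ := S.exists_bound
  refine ⟨C, by linarith, fun b y => ?_⟩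
  unfold ex
  by_cases hU : y ∈ S.Ud
  · rw [indicator_of_mem hU, indicator_of_mem hU]
    exact (hC _ (S.rho_mem_X hU)).2.2.2.2.1 b
  · rw [indicator_of_notMem hU, indicator_of_notMem hU, norm_zero]

theorem lintegral_enorm_rpow_ex_lt {b : EN N → C6} (hb : Measurable b) {p : ℝ} (hp : 0 < p)
    (hfin : ∫⁻ x, ‖b x‖ₑ ^ p ∂S.nu < ⊤) : ∫⁻ y, ‖S.ex b y‖ₑ ^ p < ⊤ := by
  obtain ⟨C, hC0, hC⟩ := S.norm_ex_le
  obtain ⟨C', hC'0, hC'⟩ := S.lintegral_Ud_le
  have h1 : ∀ y, ‖S.ex b y‖ₑ ^ p ≤ S.Ud.indicator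
      (fun y => ENNReal.ofReal C ^ p * ‖b (S.rho y)‖ₑ ^ p) y := by
    intro y
    by_cases hU : y ∈ S.Ud
    · rw [indicator_of_mem hU, ← ENNReal.mul_rpow_of_nonneg _ _ hp.le]
      apply ENNReal.rpow_le_rpow _ hp.le
      have h2 := hC b y
      rw [indicator_of_mem hU] at h2
      rw [← ofReal_norm, ← ofReal_norm, ← ENNReal.ofReal_mul hC0]
      exact ENNReal.ofReal_le_ofReal h2
    · rw [indicator_of_notMem hU, S.ex_zero_of_not_mem hU, enorm_zero, ENNReal.zero_rpow_of_pos hp]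
  have hbm : Measurable (fun x => ‖b x‖ₑ ^ p) := hb.enorm.pow_const p
  calc ∫⁻ y, ‖S.ex b y‖ₑ ^ p ≤ ∫⁻ y, S.Ud.indicator
        (fun y => ENNReal.ofReal C ^ p * ‖b (S.rho y)‖ₑ ^ p) y := lintegral_mono h1
    _ = ENNReal.ofReal C ^ p * ∫⁻ y in S.Ud, ‖b (S.rho y)‖ₑ ^ p := by
        rw [lintegral_indicator S.Ud_open.measurableSet, lintegral_const_mul]
        exact hbm.comp S.measurable_rho
    _ ≤ ENNReal.ofReal C ^ p * (ENNReal.ofReal C' * ∫⁻ x, ‖b x‖ₑ ^ p ∂S.nu) := by
        gcongr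
        exact hC' _ hbm
    _ < ⊤ := ENNReal.mul_lt_top (ENNReal.rpow_lt_top_of_nonneg hp.le ENNReal.ofReal_ne_top)
        (ENNReal.mul_lt_top ENNReal.ofReal_lt_top hfin)

/-- `‖ex b y‖ ≤ C ‖b (rho y)‖` on Ud and `lintegral_Ud_le`; bounded support gives integrability. -/
theorem integrable_ex {b : EN N → C6} (hb : S.L2F b) : Integrable (S.ex b) volume := by
  refine ⟨(S.measurable_ex hb.meas).aestronglyMeasurable, ?_⟩
  have h1 : Integrable b S.nu := hb.memLp.integrable one_le_two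
  have h2 : ∫⁻ x, ‖b x‖ₑ ^ (1 : ℝ) ∂S.nu < ⊤ := by
    simp only [ENNReal.rpow_one]
    exact h1.2
  have h3 := S.lintegral_enorm_rpow_ex_lt hb.meas one_pos h2
  simp only [ENNReal.rpow_one] at h3
  exact h3

theorem memLp_ex {b : EN N → C6} (hb : S.L2F b) : MemLp (S.ex b) 2 volume := by
  refine ⟨(S.measurable_ex hb.meas).aestronglyMeasurable, ?_⟩
  rw [eLpNorm_lt_top_iff_lintegral_rpow_enorm_lt_top (by norm_num) (by norm_num)]
  have h2 := (eLpNorm_lt_top_iff_lintegral_rpow_enorm_lt_top (μ := S.nu) (f := b) (p := 2)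
    (by norm_num) (by norm_num)).1 hb.memLp.2
  exact S.lintegral_enorm_rpow_ex_lt hb.meas (by norm_num) h2

/-- Cauchy-Schwarz on the unit ball, with `ker_up` for the function ‖b‖^2 -/
theorem integral_ball_le : ∃ C : ℝ, 0 ≤ C ∧ ∀ x ∈ S.X, ∀ δ : ℝ, 0 < δ → δ ≤ S.d0 / 2 →
    ∀ b : EN N → C6, S.L2F b →
      IntegrableOn (fun s => ‖b (S.rho (x + δ • s))‖) (Metric.ball 0 1) volume ∧
      ∫ s in Metric.ball 0 1, ‖b (S.rho (x + δ • s))‖ ≤ C * δ⁻¹ ^ 2 * S.nrm b := by
  have hC1 : 0 ≤ S.C1 := zero_le_one.trans S.one_le_C1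
  set w : ℝ := (volume (Metric.ball (0 : EN N) 1)).toReal with hw
  have hw0 : 0 ≤ w := ENNReal.toReal_nonneg
  refine ⟨Real.sqrt w * Real.sqrt S.C1, by positivity, ?_⟩
  intro x hx δ hδ hδ' b hb
  have hd := S.d0_pos
  have hbx : Measurable (fun s : EN N => b (S.rho (x + δ • s))) :=
    hb.meas.comp (S.measurable_rho.comp ((measurable_const_smul δ).const_add x))
  have hfinb : ∫⁻ y, ‖b y‖ₑ ^ 2 ∂S.nu = ENNReal.ofReal (S.nrm b ^ 2) := by
    rw [S.nrm_sq, ofReal_integral_eq_lintegral_ofReal (L2F.integrable_sq S hb)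
      (ae_of_all _ fun x => sq_nonneg _)]
    apply lintegral_congr
    intro y
    rw [ENNReal.ofReal_pow (norm_nonneg _), ofReal_norm]
  have h1 : ∫⁻ s in Metric.ball (0 : EN N) 1, ‖b (S.rho (x + δ • s))‖ₑ ^ 2 ≤
      ENNReal.ofReal (S.C1 * δ⁻¹ ^ 4 * S.nrm b ^ 2) := by
    have h2 := S.ker_up x hx δ hδ (by linarith) (fun y => ‖b y‖ₑ ^ 2) (hb.meas.enorm.pow_const 2)
    refine h2.trans ?_
    rw [ENNReal.ofReal_mul (p := S.C1 * δ⁻¹ ^ 4) (by positivity), ← hfinb]
    gcongr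
    exact Measure.restrict_le_self
  have h2 : MemLp (fun s : EN N => b (S.rho (x + δ • s))) 2
      (volume.restrict (Metric.ball (0 : EN N) 1)) := by
    refine ⟨hbx.aestronglyMeasurable, ?_⟩
    rw [eLpNorm_lt_top_iff_lintegral_rpow_enorm_lt_top (by norm_num) (by norm_num)]
    simp only [ENNReal.toReal_ofNat, ENNReal.rpow_ofNat]
    exact h1.trans_lt ENNReal.ofReal_lt_top
  have : IsFiniteMeasure (volume.restrict (Metric.ball (0 : EN N) 1)) :=
    ⟨by rw [Measure.restrict_apply_univ]; exact measure_ball_lt_top⟩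
  have h3 : IntegrableOn (fun s => ‖b (S.rho (x + δ • s))‖) (Metric.ball 0 1) volume :=
    (h2.integrable one_le_two).norm
  refine ⟨h3, ?_⟩
  have e2 : ENNReal.ofReal (2 : ℝ) = 2 := by norm_num
  have h4 := integral_mul_norm_le_Lp_mul_Lq (μ := volume.restrict (Metric.ball (0 : EN N) 1))
    (f := fun s : EN N => ‖b (S.rho (x + δ • s))‖) (g := fun _ : EN N => (1 : ℝ))
    Real.HolderConjugate.two_two (by rw [e2]; exact h2.norm) (by rw [e2]; exact memLp_const 1)
  simp only [norm_norm, norm_one, mul_one, Real.rpow_two, one_pow, integral_const,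
    smul_eq_mul, ← Real.sqrt_eq_rpow] at h4
  have h5 : ∫ s in Metric.ball (0 : EN N) 1, ‖b (S.rho (x + δ • s))‖ ^ 2 ≤
      S.C1 * δ⁻¹ ^ 4 * S.nrm b ^ 2 := by
    rw [integral_eq_lintegral_of_nonneg_ae (ae_of_all _ fun x => sq_nonneg _)
      (hbx.norm.pow_const 2).aestronglyMeasurable]
    apply ENNReal.toReal_le_of_le_ofReal (by positivity)
    refine le_trans (le_of_eq ?_) h1
    apply lintegral_congr
    intro y
    rw [ENNReal.ofReal_pow (norm_nonneg _), ofReal_norm]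
  refine h4.trans ?_
  have h6 : Real.sqrt (∫ s in Metric.ball (0 : EN N) 1, ‖b (S.rho (x + δ • s))‖ ^ 2) ≤
      Real.sqrt S.C1 * δ⁻¹ ^ 2 * S.nrm b := by
    refine (Real.sqrt_le_sqrt h5).trans (le_of_eq ?_)
    rw [show S.C1 * δ⁻¹ ^ 4 * S.nrm b ^ 2 = S.C1 * (δ⁻¹ ^ 2 * S.nrm b) ^ 2 by ring,
      Real.sqrt_mul hC1, Real.sqrt_sq (mul_nonneg (by positivity) (S.nrm_nonneg b))]
    ring
  have h7 : Real.sqrt ((volume.restrict (Metric.ball (0 : EN N) 1)).real univ) = Real.sqrt w := by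
    rw [hw, Measure.real, Measure.restrict_apply_univ]
  rw [h7]
  calc Real.sqrt (∫ s in Metric.ball (0 : EN N) 1, ‖b (S.rho (x + δ • s))‖ ^ 2) * Real.sqrt w
      ≤ (Real.sqrt S.C1 * δ⁻¹ ^ 2 * S.nrm b) * Real.sqrt w :=
        mul_le_mul_of_nonneg_right h6 (Real.sqrt_nonneg _)
    _ = Real.sqrt w * Real.sqrt S.C1 * δ⁻¹ ^ 2 * S.nrm b := by ring

end Setup

end Pool.Agent.W_MP_d8b8b7_gt
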