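import Mathlib

set_option autoImplicit false

/-!
# Hahn-Banach and Riesz steps (abstract, independent of the manifold)
-/

open MeasureTheory

namespace Pool.Agent.W_MP_d8b8b7_gt.HB

/-- extension of a functional dominated by a sublinear function of a linear map -/
theorem ext_of_le {U E : Type*} [AddCommGroup U] [Module ℝ U] [AddCommGroup E] [Module ℝ E]
    (K : U →ₗ[ℝ] E) (φ : U →ₗ[ℝ] ℝ) (N : E → ℝ)
    (N_hom : ∀ c : ℝ, 0 < c → ∀ x, N (c • x) = c * N x) (N_add : ∀ x y, N (x + y) ≤ N x + N y)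
    (h : ∀ u, φ u ≤ N (K u)) :
    ∃ L : E →ₗ[ℝ] ℝ, (∀ u, L (K u) = φ u) ∧ ∀ e, L e ≤ N e := by
  have N0 : N 0 = 0 := by
    have := N_hom 2 (by norm_num) 0
    rw [smul_zero] at this
    linarith
  have hker : LinearMap.ker K ≤ LinearMap.ker φ := by
    intro u hu
    rw [LinearMap.mem_ker] at hu ⊢
    have h1 := h u
    have h2 := h (-u)
    rw [hu, N0] at h1
    rw [map_neg, map_neg, hu, neg_zero, N0] at h2
    linarith
  let ψ : LinearMap.range K →ₗ[ℝ] ℝ :=
    ((LinearMap.ker K).liftQ φ hker) ∘ₗ (K.quotKerEquivRange.symm : LinearMap.range K →ₗ[ℝ] _)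
  have hψ : ∀ u, ψ ⟨K u, LinearMap.mem_range_self K u⟩ = φ u := by
    intro u
    have h1 : K.quotKerEquivRange.symm ⟨K u, LinearMap.mem_range_self K u⟩
        = (LinearMap.ker K).mkQ u := by
      rw [LinearEquiv.symm_apply_eq]
      rfl
    show (LinearMap.ker K).liftQ φ hker (K.quotKerEquivRange.symm ⟨K u, _⟩) = φ u
    rw [h1]
    simp
  let f : E →ₗ.[ℝ] ℝ := ⟨LinearMap.range K, ψ⟩
  have hf : ∀ x : f.domain, f x ≤ N x := by
    rintro ⟨x, hx⟩
    obtain ⟨u, rfl⟩ := hx
    have : f ⟨K u, LinearMap.mem_range_self K u⟩ = φ u := hψ u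
    rw [this]
    exact h u
  obtain ⟨g, hg1, hg2⟩ := exists_extension_of_le_sublinear f N N_hom N_add hf
  refine ⟨g, ?_, hg2⟩
  intro u
  have := hg1 ⟨K u, LinearMap.mem_range_self K u⟩
  rw [this]
  exact hψ u

/-- a functional vanishing on a subspace `W`, nonpositive at `o` and dominated by `N` -/
theorem ext_sub {U : Type*} [AddCommGroup U] [Module ℝ U] (N : U → ℝ)
    (N_hom : ∀ c : ℝ, 0 < c → ∀ x, N (c • x) = c * N x) (N_add : ∀ x y, N (x + y) ≤ N x + N y)
    (W : Submodule ℝ U) (o : U) (h : ∀ w ∈ W, 0 ≤ N (-(o + w))) :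
    ∃ φ : U →ₗ[ℝ] ℝ, (∀ u, φ u ≤ N u) ∧ (∀ w ∈ W, φ w = 0) ∧ φ o ≤ 0 := by
  have N0 : N 0 = 0 := by
    have := N_hom 2 (by norm_num) 0
    rw [smul_zero] at this
    linarith
  -- nonnegativity on `W`
  have hW : ∀ w ∈ W, 0 ≤ N w := by
    intro w hw
    by_contra hneg
    push Not at hneg
    -- choose t large
    obtain ⟨t, ht0, ht⟩ : ∃ t : ℝ, 0 < t ∧ t * N w + N (-o) < 0 := by
      refine ⟨(|N (-o)| + 1) / (- N w), div_pos (by positivity) (by linarith), ?_⟩
      have : (|N (-o)| + 1) / (- N w) * N w = -(|N (-o)| + 1) := by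
        have : N w ≠ 0 := hneg.ne
        field_simp
      rw [this]
      have := le_abs_self (N (-o))
      linarith
    have h1 := h (-(t • w)) (W.neg_mem (W.smul_mem t hw))
    have h2 : -(o + -(t • w)) = t • w + -o := by abel
    rw [h2] at h1
    have h3 := N_add (t • w) (-o)
    rw [N_hom t ht0 w] at h3
    linarith
  -- the quotient sublinear function
  let NW : U → ℝ := fun u => ⨅ w : W, N (u + w)
  have hbdd : ∀ u, BddBelow (Set.range fun w : W => N (u + w)) := by
    intro u
    refine ⟨- N (-u), ?_⟩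
    rintro _ ⟨w, rfl⟩
    have h1 := N_add (u + w) (-u)
    have h2 : u + (w : U) + -u = w := by abel
    rw [h2] at h1
    have h3 := hW w w.2
    show -N (-u) ≤ N (u + w)
    linarith
  have NW_le : ∀ (u : U) (w : W), NW u ≤ N (u + w) := fun u w => ciInf_le (hbdd u) w
  have NW_hom : ∀ c : ℝ, 0 < c → ∀ x, NW (c • x) = c * NW x := by
    intro c hc x
    apply le_antisymm
    · show NW (c • x) ≤ c * ⨅ w : W, N (x + w)
      rw [Real.mul_iInf_of_nonneg hc.le]
      apply le_ciInf
      intro w
      have h1 := NW_le (c • x) (c • w)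
      have h2 : c • x + ((c • w : W) : U) = c • (x + w) := by
        rw [smul_add]; rfl
      rw [h2, N_hom c hc] at h1
      exact h1
    · apply le_ciInf
      intro w
      have h1 := NW_le x (c⁻¹ • w)
      have h2 : c • (x + ((c⁻¹ • w : W) : U)) = c • x + w := by
        rw [smul_add]
        congr 1
        show c • (c⁻¹ • (w : U)) = w
        rw [smul_smul, mul_inv_cancel₀ hc.ne', one_smul]
      have h3 := N_hom c hc (x + ((c⁻¹ • w : W) : U))
      rw [h2] at h3
      rw [h3]
      exact mul_le_mul_of_nonneg_left h1 hc.le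
  have NW_add : ∀ x y, NW (x + y) ≤ NW x + NW y := by
    intro x y
    have h1 : ∀ (w w' : W), NW (x + y) ≤ N (x + w) + N (y + w') := by
      intro w w'
      have h2 := NW_le (x + y) (w + w')
      have h3 : x + y + ((w + w' : W) : U) = (x + w) + (y + w') := by
        push_cast
        abel
      rw [h3] at h2
      exact h2.trans (N_add _ _)
    have h4 : ∀ w : W, NW (x + y) - N (x + w) ≤ NW y := by
      intro w
      apply le_ciInf
      intro w'
      have := h1 w w'
      linarith
    have h5 : NW (x + y) - NW y ≤ NW x := by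
      apply le_ciInf
      intro w
      have := h4 w
      linarith
    linarith
  have hNo : 0 ≤ NW (-o) := by
    apply le_ciInf
    intro w
    have h1 := h (-w) (W.neg_mem w.2)
    have h2 : -(o + -(w : U)) = -o + w := by abel
    rw [h2] at h1
    exact h1
  -- extension from the line spanned by `-o`
  obtain ⟨φ, hφ1, hφ2⟩ := ext_of_le (U := ℝ) (E := U) (LinearMap.toSpanSingleton ℝ U (-o))
    (NW (-o) • LinearMap.id) NW NW_hom NW_add (by
      intro t
      show NW (-o) * t ≤ NW (t • (-o))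
      rcases lt_trichotomy t 0 with ht | ht | ht
      · have h1 := NW_add (t • (-o)) ((-t) • (-o))
        have h2 : t • (-o) + (-t) • (-o) = 0 := by rw [neg_smul]; abel
        rw [h2, NW_hom (-t) (by linarith)] at h1
        have h3 : NW 0 = 0 := by
          have := NW_hom 2 (by norm_num) 0
          rw [smul_zero] at this
          linarith
        rw [h3] at h1
        nlinarith
      · subst ht
        have h3 : NW 0 = 0 := by
          have := NW_hom 2 (by norm_num) 0
          rw [smul_zero] at this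
          linarith
        rw [zero_smul, h3]
        simp
      · rw [NW_hom t ht]
        linarith)
  refine ⟨φ, ?_, ?_, ?_⟩
  · intro u
    have h1 := NW_le u 0
    simp only [ZeroMemClass.coe_zero, add_zero] at h1
    exact (hφ2 u).trans h1
  · intro w hw
    have h1 : φ w ≤ 0 := by
      have h2 := NW_le w (-⟨w, hw⟩)
      have h3 : w + ((-⟨w, hw⟩ : W) : U) = 0 := by
        simp
      rw [h3, N0] at h2
      exact (hφ2 w).trans h2
    have h1' : φ (-w) ≤ 0 := by
      have h2 := NW_le (-w) ⟨w, hw⟩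
      have h3 : -w + ((⟨w, hw⟩ : W) : U) = 0 := by
        simp
      rw [h3, N0] at h2
      exact (hφ2 (-w)).trans h2
    rw [map_neg] at h1'
    linarith
  · have h1 := hφ1 1
    simp only [LinearMap.toSpanSingleton_apply, one_smul, LinearMap.smul_apply, LinearMap.id_apply,
      smul_eq_mul, mul_one, map_neg] at h1
    linarith

variable {X : Type*} [TopologicalSpace X] [CompactSpace X] [T2Space X] [MeasurableSpace X]
  [BorelSpace X]

/-- Riesz representation on a compact space -/
theorem riesz_compact (L : C(X, ℝ) →ₗ[ℝ] ℝ) (hL : ∀ f : C(X, ℝ), (∀ x, 0 ≤ f x) → 0 ≤ L f) :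
    ∃ m : Measure X, IsFiniteMeasure m ∧ ∀ f : C(X, ℝ), ∫ x, f x ∂m = L f := by
  let Λ : CompactlySupportedContinuousMap X ℝ →ₚ[ℝ] ℝ := PositiveLinearMap.mk₀
    { toFun := fun g => L g.toContinuousMap
      map_add' := fun g g' => by
        rw [← map_add]
        rfl
      map_smul' := fun c g => by
        rw [RingHom.id_apply, ← map_smul]
        rfl }
    (fun g hg => hL _ (fun x => hg x))
  refine ⟨RealRMK.rieszMeasure Λ, by infer_instance, fun f => ?_⟩
  let f' : CompactlySupportedContinuousMap X ℝ :=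
    { toContinuousMap := f
      hasCompactSupport' := HasCompactSupport.of_compactSpace _ }
  exact RealRMK.integral_rieszMeasure Λ f'

/-- existence of the positive current `P'` -/
theorem hb_P {W : Type*} [AddCommGroup W] [Module ℝ W] (q : W →ₗ[ℝ] C(X, ℝ)) (l : W →ₗ[ℝ] ℝ)
    (C : ℝ) (hC : 0 ≤ C) (h : ∀ w, (∀ x, -1 ≤ q w x) → l w ≤ C) :
    ∃ m : Measure X, IsFiniteMeasure m ∧ ∀ w, ∫ x, q w x ∂m = - l w := by
  let N : C(X, ℝ) → ℝ := fun f => C * ‖f ⊔ 0‖
  have N_hom : ∀ c : ℝ, 0 < c → ∀ x, N (c • x) = c * N x := by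
    intro c hc f
    have h1 : (c • f) ⊔ 0 = c • (f ⊔ 0) := by
      ext x
      simp only [ContinuousMap.sup_apply, ContinuousMap.coe_smul, Pi.smul_apply, smul_eq_mul,
        ContinuousMap.zero_apply]
      rw [mul_max_of_nonneg _ _ hc.le, mul_zero]
    show C * ‖(c • f) ⊔ 0‖ = c * (C * ‖f ⊔ 0‖)
    rw [h1, norm_smul, Real.norm_of_nonneg hc.le]
    ring
  have N_add : ∀ x y, N (x + y) ≤ N x + N y := by
    intro f g
    have h1 : ‖(f + g) ⊔ 0‖ ≤ ‖f ⊔ 0‖ + ‖g ⊔ 0‖ := by
      rw [ContinuousMap.norm_le _ (by positivity)]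
      intro x
      have hf := (f ⊔ 0).norm_coe_le_norm x
      have hg := (g ⊔ 0).norm_coe_le_norm x
      simp only [ContinuousMap.sup_apply, ContinuousMap.zero_apply, ContinuousMap.coe_add,
        Pi.add_apply, Real.norm_eq_abs] at hf hg ⊢
      have hf' := (le_abs_self _).trans hf
      have hg' := (le_abs_self _).trans hg
      rw [abs_of_nonneg (le_max_right _ _)]
      refine max_le ?_ (by positivity)
      have a1 : f x ≤ max (f x) 0 := le_max_left _ _
      have a2 : g x ≤ max (g x) 0 := le_max_left _ _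
      linarith
    show C * ‖(f + g) ⊔ 0‖ ≤ C * ‖f ⊔ 0‖ + C * ‖g ⊔ 0‖
    nlinarith
  have key : ∀ w, (-l) w ≤ N (q w) := by
    intro w
    show - l w ≤ C * ‖q w ⊔ 0‖
    set s := ‖q w ⊔ 0‖ with hs
    have hsup : ∀ x, q w x ≤ s := by
      intro x
      have := (q w ⊔ 0).norm_coe_le_norm x
      simp only [ContinuousMap.sup_apply, ContinuousMap.zero_apply, Real.norm_eq_abs] at this
      exact (le_max_left _ _).trans ((le_abs_self _).trans this)
    rcases (norm_nonneg (q w ⊔ 0)).eq_or_lt with h0 | h0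
    · -- s = 0
      rw [← hs] at h0
      have hle : ∀ x, q w x ≤ 0 := fun x => by rw [h0]; exact hsup x
      by_contra hcon
      push Not at hcon
      rw [← h0, mul_zero] at hcon
      have h1 := h (-(((C + 1) / (- l w)) • w)) (by
        intro x
        rw [map_neg, map_smul]
        simp only [ContinuousMap.coe_neg, Pi.neg_apply, ContinuousMap.coe_smul, Pi.smul_apply,
          smul_eq_mul]
        have h2 : 0 ≤ (C + 1) / (- l w) := div_nonneg (by linarith) hcon.le
        have h3 := hle x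
        nlinarith)
      rw [map_neg, map_smul, smul_eq_mul] at h1
      have h4 : (C + 1) / (- l w) * l w = -(C + 1) := by
        have : l w ≠ 0 := by
          intro h5
          rw [h5] at hcon
          simp at hcon
        field_simp
      rw [h4] at h1
      linarith
    · rw [← hs] at h0
      have h1 := h (-(s⁻¹ • w)) (by
        intro x
        rw [map_neg, map_smul]
        simp only [ContinuousMap.coe_neg, Pi.neg_apply, ContinuousMap.coe_smul, Pi.smul_apply,
          smul_eq_mul]
        have h3 := hsup x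
        have h4 : s⁻¹ * q w x ≤ s⁻¹ * s := mul_le_mul_of_nonneg_left h3 (by positivity)
        rw [inv_mul_cancel₀ h0.ne'] at h4
        linarith)
      rw [map_neg, map_smul, smul_eq_mul] at h1
      have h5 : s * (-(s⁻¹ * l w)) ≤ s * C := mul_le_mul_of_nonneg_left h1 h0.le
      have h6 : s * (-(s⁻¹ * l w)) = - l w := by
        field_simp
      rw [h6] at h5
      linarith
  obtain ⟨L, hL1, hL2⟩ := ext_of_le q (-l) N N_hom N_add key
  obtain ⟨m, hm, hm2⟩ := riesz_compact L (by
    intro f hf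
    have h1 := hL2 (-f)
    have h2 : (-f) ⊔ 0 = 0 := by
      ext x
      simp only [ContinuousMap.sup_apply, ContinuousMap.coe_neg, Pi.neg_apply,
        ContinuousMap.zero_apply]
      exact max_eq_right (by linarith [hf x])
    have h3 : N (-f) = 0 := by
      show C * ‖(-f) ⊔ 0‖ = 0
      rw [h2, norm_zero, mul_zero]
    rw [h3, map_neg] at h1
    linarith)
  refine ⟨m, hm, fun w => ?_⟩
  rw [hm2, hL1]
  rfl

/-- existence of the current `(T, T'')` -/
theorem hb_T [Nonempty X] {U G : Type*} [AddCommGroup U] [Module ℝ U] [AddCommGroup G] [Module ℝ G]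
    (s : Seminorm ℝ G) (q : U →ₗ[ℝ] C(X, ℝ)) (r : U →ₗ[ℝ] G) (W : Submodule ℝ U) (o : U)
    (h : ∀ w ∈ W, ¬ ∀ x, s (r (o + w)) < q (o + w) x) :
    ∃ (m : Measure X) (T : G →ₗ[ℝ] ℝ), IsProbabilityMeasure m ∧ (∀ g, |T g| ≤ s g) ∧
      (∀ w ∈ W, ∫ x, q w x ∂m + T (r w) = 0) ∧ ∫ x, q o x ∂m + T (r o) ≤ 0 := by
  let S : C(X, ℝ) → ℝ := fun f => ⨆ x, f x
  have hb : ∀ f : C(X, ℝ), BddAbove (Set.range f) := fun f =>
    (isCompact_range f.continuous).bddAbove
  have S_ge : ∀ (f : C(X, ℝ)) (x : X), f x ≤ S f := fun f x => le_ciSup (hb f) x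
  let N : C(X, ℝ) × G → ℝ := fun p => S p.1 + s p.2
  have N_hom : ∀ c : ℝ, 0 < c → ∀ x, N (c • x) = c * N x := by
    rintro c hc ⟨f, g⟩
    show S (c • f) + s (c • g) = c * (S f + s g)
    have h1 : S (c • f) = c * S f := by
      show (⨆ x, (c • f) x) = c * ⨆ x, f x
      rw [Real.mul_iSup_of_nonneg hc.le]
      rfl
    rw [h1, map_smul_eq_mul, Real.norm_of_nonneg hc.le]
    ring
  have N_add : ∀ x y, N (x + y) ≤ N x + N y := by
    rintro ⟨f, g⟩ ⟨f', g'⟩
    show S (f + f') + s (g + g') ≤ S f + s g + (S f' + s g')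
    have h1 : S (f + f') ≤ S f + S f' := by
      apply ciSup_le
      intro x
      have a1 := S_ge f x
      have a2 := S_ge f' x
      simp only [ContinuousMap.coe_add, Pi.add_apply]
      linarith
    have h2 := map_add_le_add s g g'
    linarith
  have hK : ∀ w ∈ W, 0 ≤ N ((q.prod r) (-(o + w))) := by
    intro w hw
    have h1 := h w hw
    push Not at h1
    obtain ⟨x, hx⟩ := h1
    have h2 : N ((q.prod r) (-(o + w))) = S (-(q (o + w))) + s (r (o + w)) := by
      show S (q (-(o + w))) + s (r (-(o + w))) = _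
      rw [map_neg, map_neg, map_neg_eq_map]
    rw [h2]
    have h3 := S_ge (-(q (o + w))) x
    simp only [ContinuousMap.coe_neg, Pi.neg_apply] at h3
    linarith
  obtain ⟨φ, hφ1, hφ2, hφ3⟩ := ext_sub (fun u => N ((q.prod r) u))
    (fun c hc x => by rw [map_smul]; exact N_hom c hc _)
    (fun x y => by rw [map_add]; exact N_add _ _) W o hK
  obtain ⟨L, hL1, hL2⟩ := ext_of_le (q.prod r) φ N N_hom N_add hφ1
  let L1 : C(X, ℝ) →ₗ[ℝ] ℝ := L ∘ₗ LinearMap.inl ℝ C(X, ℝ) G
  let T : G →ₗ[ℝ] ℝ := L ∘ₗ LinearMap.inr ℝ C(X, ℝ) G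
  have hL1le : ∀ f, L1 f ≤ S f := by
    intro f
    have := hL2 (f, 0)
    have h2 : N (f, 0) = S f := by
      show S f + s 0 = S f
      rw [map_zero, add_zero]
    rw [h2] at this
    exact this
  have hTle : ∀ g, T g ≤ s g := by
    intro g
    have := hL2 (0, g)
    have h2 : N (0, g) = s g := by
      show S 0 + s g = s g
      have : S 0 = 0 := by
        show (⨆ x : X, (0 : C(X, ℝ)) x) = 0
        simp
      rw [this, zero_add]
    rw [h2] at this
    exact this
  obtain ⟨m, hm, hm2⟩ := riesz_compact L1 (by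
    intro f hf
    have h1 := hL1le (-f)
    have h2 : S (-f) ≤ 0 := by
      apply ciSup_le
      intro x
      simp only [ContinuousMap.coe_neg, Pi.neg_apply]
      linarith [hf x]
    rw [map_neg] at h1
    linarith)
  have hone : L1 1 = 1 := by
    have h1 := hL1le 1
    have h2 := hL1le (-1)
    have h3 : S 1 = 1 := by
      show (⨆ x : X, (1 : C(X, ℝ)) x) = 1
      simp
    have h4 : S (-1) = -1 := by
      show (⨆ x : X, (-1 : C(X, ℝ)) x) = -1
      simp
    rw [h3] at h1
    rw [h4, map_neg] at h2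
    linarith
  refine ⟨m, T, ?_, ?_, ?_, ?_⟩
  · have h1 := hm2 1
    rw [hone] at h1
    simp only [ContinuousMap.one_apply, integral_const, smul_eq_mul, mul_one] at h1
    refine ⟨?_⟩
    have h2 : (m Set.univ).toReal = 1 := h1
    rw [← ENNReal.toReal_eq_one_iff]
    exact h2
  · intro g
    rw [abs_le]
    constructor
    · have := hTle (-g)
      rw [map_neg, map_neg_eq_map] at this
      linarith
    · exact hTle g
  · intro w hw
    rw [hm2]
    have h1 := hL1 w
    rw [hφ2 w hw] at h1
    have h2 : L1 (q w) + T (r w) = L ((q.prod r) w) := by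
      show L (q w, 0) + L (0, r w) = L (q w, r w)
      rw [← map_add]
      simp
    rw [h2, h1]
  · rw [hm2]
    have h1 := hL1 o
    have h2 : L1 (q o) + T (r o) = L ((q.prod r) o) := by
      show L (q o, 0) + L (0, r o) = L (q o, r o)
      rw [← map_add]
      simp
    rw [h2, h1]
    exact hφ3

end Pool.Agent.W_MP_d8b8b7_gt.HB
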