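import Pool.Agent.W_MP_d8b8b7_gt.S1

/-!
The integrated inequalities (S1).
-/

namespace Pool.Agent.W_MP_d8b8b7_gt

open MeasureTheory Set Filter Topology
open scoped ContDiff ENNReal

variable {N : ℕ}

namespace Setup

variable (S : Setup N)

theorem hb_integrable_a2 {β : EN N → Bil N} (hβ : Continuous β) :
    Integrable (fun x => hb_a2 (S.cp β x)) S.nu := by
  have h : (fun x => hb_a2 (S.cp β x)) = fun x => (1 / 2 : ℝ) *
      ((S.cp β x 1 * S.cp β x 1 - 2 * (S.cp β x 1 * S.cp β x 4) + S.cp β x 4 * S.cp β x 4) +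
      (S.cp β x 2 * S.cp β x 2 + 2 * (S.cp β x 2 * S.cp β x 3) + S.cp β x 3 * S.cp β x 3)) := by
    funext x; unfold hb_a2; ring
  rw [h]
  exact ((((S.hb_integrable_mul hβ hβ 1 1).sub ((S.hb_integrable_mul hβ hβ 1 4).const_mul 2)).add
    (S.hb_integrable_mul hβ hβ 4 4)).add (((S.hb_integrable_mul hβ hβ 2 2).add
    ((S.hb_integrable_mul hβ hβ 2 3).const_mul 2)).add (S.hb_integrable_mul hβ hβ 3 3))).const_mul _

theorem hb_integrable_ai {β γ : EN N → Bil N} (hβ : Continuous β) (hγ : Continuous γ) :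
    Integrable (fun x => hb_ai (S.cp β x) (S.cp γ x)) S.nu := by
  have h : (fun x => hb_ai (S.cp β x) (S.cp γ x)) = fun x =>
      (S.cp β x 1 * S.cp γ x 1 - S.cp β x 1 * S.cp γ x 4) +
      (S.cp β x 2 * S.cp γ x 2 + S.cp β x 2 * S.cp γ x 3) := by
    funext x; unfold hb_ai; ring
  rw [h]
  exact (((S.hb_integrable_mul hβ hγ 1 1).sub (S.hb_integrable_mul hβ hγ 1 4))).add
    ((S.hb_integrable_mul hβ hγ 2 2).add (S.hb_integrable_mul hβ hγ 2 3))

theorem hb_integrable_f1 {β : EN N → Bil N} (hβ : Continuous β) :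
    Integrable (fun x => S.cp β x 0 + S.cp β x 5) S.nu :=
  (S.hb_integrable_cp hβ 0).add (S.hb_integrable_cp hβ 5)

/-- the mass of F ∧ β -/
noncomputable def hb_fF (β : EN N → Bil N) : ℝ := ∫ x, (S.cp β x 0 + S.cp β x 5) ∂S.nu

/-- the volume -/
noncomputable def hb_V : ℝ := ∫ _x, (1 : ℝ) ∂S.nu

/-- squared norm of the anti-invariant part -/
noncomputable def hb_A2 (β : EN N → Bil N) : ℝ := ∫ x, hb_a2 (S.cp β x) ∂S.nu

theorem hb_A2_nonneg (β : EN N → Bil N) : 0 ≤ S.hb_A2 β := integral_nonneg fun _ => hb_a2_nonneg _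

/-- the basic inequality, from positivity -/
theorem hb_pair_self_ge {β : EN N → Bil N} (hβ : IsForm β) (h : ∀ z ∈ S.X1, -1 ≤ S.ev β z) :
    S.hb_A2 β ≤ S.pair β β + 2 * (S.hb_fF β + 2 * S.hb_V) - 2 * S.hb_V ∧ 0 ≤ S.hb_fF β + 2 * S.hb_V := by
  have hc : Continuous β := hβ.smooth.continuous
  have h1 : Integrable (fun x => wedge (S.cp β x) (S.cp β x)) S.nu := S.hb_integrable_wedge hc hc
  have h2 := S.hb_integrable_f1 hc
  have h3 := S.hb_integrable_a2 hc
  have h1c : Integrable (fun _ : EN N => (1 : ℝ)) S.nu := integrable_const _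
  constructor
  · have e : S.pair β β + 2 * (S.hb_fF β + 2 * S.hb_V) - 2 * S.hb_V - S.hb_A2 β =
        ∫ x, (wedge (S.cp β x) (S.cp β x) + 2 * ((S.cp β x 0 + S.cp β x 5) + 2 * 1) - 2 * 1
          - hb_a2 (S.cp β x)) ∂S.nu := by
      have i1 : Integrable (fun x => (S.cp β x 0 + S.cp β x 5) + 2 * (1:ℝ)) S.nu :=
        h2.add (h1c.const_mul 2)
      have j1 : Integrable (fun x => wedge (S.cp β x) (S.cp β x) +
          2 * ((S.cp β x 0 + S.cp β x 5) + 2 * (1:ℝ))) S.nu := h1.add (i1.const_mul 2)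
      have j2 : Integrable (fun x => wedge (S.cp β x) (S.cp β x) +
          2 * ((S.cp β x 0 + S.cp β x 5) + 2 * (1:ℝ)) - 2 * 1) S.nu := j1.sub (h1c.const_mul 2)
      rw [integral_sub j2 h3, integral_sub j1 (h1c.const_mul 2), integral_add h1 (i1.const_mul 2),
        integral_const_mul, integral_add h2 (h1c.const_mul 2), integral_const_mul]
      rfl
    have : 0 ≤ ∫ x, (wedge (S.cp β x) (S.cp β x) + 2 * ((S.cp β x 0 + S.cp β x 5) + 2 * 1) - 2 * 1
          - hb_a2 (S.cp β x)) ∂S.nu := by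
      apply integral_nonneg_of_ae
      filter_upwards [S.hb_ae_mem] with x hx
      have := (S.hb_comp_pos hβ hx h).2
      rw [hb_wedge_self]
      simp only [Pi.zero_apply]
      linarith
    linarith
  · have e : S.hb_fF β + 2 * S.hb_V = ∫ x, ((S.cp β x 0 + S.cp β x 5) + 2 * (1:ℝ)) ∂S.nu := by
      rw [integral_add h2 (h1c.const_mul 2), integral_const_mul]
      rfl
    rw [e]
    apply integral_nonneg_of_ae
    filter_upwards [S.hb_ae_mem] with x hx
    have := (S.hb_comp_pos hβ hx h).1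
    simp only [Pi.zero_apply]
    linarith

/-- product of anti-invariant parts -/
noncomputable def hb_AI (β : EN N → Bil N) : ℝ := ∫ x, hb_ai (S.cp S.om x) (S.cp β x) ∂S.nu

theorem hb_pair_om {β : EN N → Bil N} (hβ : Continuous β) :
    S.pair S.om β = S.hb_fF β + S.hb_AI β := by
  have : S.pair S.om β = ∫ x, ((S.cp β x 0 + S.cp β x 5) + hb_ai (S.cp S.om x) (S.cp β x)) ∂S.nu := by
    apply integral_congr_ae
    filter_upwards [S.hb_ae_mem] with x hx
    exact hb_wedge_om (S.hb_omShape hx) _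
  rw [this, integral_add (S.hb_integrable_f1 hβ) (S.hb_integrable_ai S.smooth_om.continuous hβ)]
  rfl

theorem hb_pair_om_om : S.pair S.om S.om = 2 * S.hb_V + S.hb_A2 S.om := by
  have h1c : Integrable (fun _ : EN N => (1 : ℝ)) S.nu := integrable_const _
  have : S.pair S.om S.om = ∫ x, (2 * (1:ℝ) + hb_a2 (S.cp S.om x)) ∂S.nu := by
    apply integral_congr_ae
    filter_upwards [S.hb_ae_mem] with x hx
    rw [hb_wedge_om_om (S.hb_omShape hx), mul_one]
  rw [this, integral_add (h1c.const_mul 2) (S.hb_integrable_a2 S.smooth_om.continuous),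
    integral_const_mul]
  rfl

theorem hb_AI_young {β : EN N → Bil N} (hβ : Continuous β) (l : ℝ) :
    0 ≤ l ^ 2 * S.hb_A2 S.om - 2 * l * S.hb_AI β + S.hb_A2 β := by
  have i1 := S.hb_integrable_a2 S.smooth_om.continuous
  have i2 := S.hb_integrable_ai S.smooth_om.continuous hβ
  have i3 := S.hb_integrable_a2 hβ
  have e : l ^ 2 * S.hb_A2 S.om - 2 * l * S.hb_AI β + S.hb_A2 β =
      ∫ x, (l ^ 2 * hb_a2 (S.cp S.om x) - 2 * l * hb_ai (S.cp S.om x) (S.cp β x)
        + hb_a2 (S.cp β x)) ∂S.nu := by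
    have j1 : Integrable (fun x => l ^ 2 * hb_a2 (S.cp S.om x) -
        2 * l * hb_ai (S.cp S.om x) (S.cp β x)) S.nu := (i1.const_mul _).sub (i2.const_mul _)
    rw [integral_add j1 i3, integral_sub (i1.const_mul _) (i2.const_mul _), integral_const_mul,
      integral_const_mul]
    rfl
  rw [e]
  apply integral_nonneg_of_ae
  filter_upwards [S.hb_ae_mem] with x hx
  exact hb_ai_young (S.hb_omShape hx) _ l

theorem hb_AI_sq {β : EN N → Bil N} (hβ : Continuous β) : S.hb_AI β ^ 2 ≤ S.hb_A2 S.om * S.hb_A2 β := by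
  have h := S.hb_AI_young hβ
  have hA := S.hb_A2_nonneg S.om
  rcases eq_or_lt_of_le hA with h0 | h0
  · -- A = 0
    have h1 : S.hb_AI β = 0 := by
      by_contra hne
      have h2 := h (S.hb_A2 β / (2 * S.hb_AI β) + S.hb_AI β)
      rw [← h0] at h2
      have h3 : 2 * (S.hb_A2 β / (2 * S.hb_AI β) + S.hb_AI β) * S.hb_AI β = S.hb_A2 β + 2 * S.hb_AI β ^ 2 := by
        field_simp
      have h4 : 0 < S.hb_AI β ^ 2 := by positivity
      nlinarith
    rw [h1, ← h0]; simp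
  · have h2 := h (S.hb_AI β / S.hb_A2 S.om)
    have h3 : (S.hb_AI β / S.hb_A2 S.om) ^ 2 * S.hb_A2 S.om - 2 * (S.hb_AI β / S.hb_A2 S.om) * S.hb_AI β + S.hb_A2 β =
        S.hb_A2 β - S.hb_AI β ^ 2 / S.hb_A2 S.om := by
      field_simp
      ring
    rw [h3] at h2
    have h4 : S.hb_AI β ^ 2 / S.hb_A2 S.om ≤ S.hb_A2 β := by linarith
    rw [div_le_iff₀ h0] at h4
    linarith

theorem hb_pair_exact {α : EN N → Cov N} (hα : IsOne α) {β : EN N → Bil N} (hβ : IsForm β)
    (hc : S.Closed β) : S.pair (dOne α) β = 0 := S.stokes α β hα hβ hc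

theorem hb_pair_comm (β γ : EN N → Bil N) : S.pair β γ = S.pair γ β := by
  unfold pair Setup.B
  apply integral_congr_ae
  exact Eventually.of_forall fun x => hb_wedge_comm _ _

/-- (S1), exact case -/
theorem hb_ineq_exact {α : EN N → Cov N} (hα : IsOne α) (h : ∀ z ∈ S.X1, -1 ≤ S.ev (dOne α) z) :
    S.hb_fF (dOne α) ≤ 2 * S.hb_A2 S.om + S.hb_V := by
  have hβ := dOne_isForm hα
  have hcl := hb_dOne_closed S.toGeom hα
  have hom : IsForm S.om := ⟨S.smooth_om, S.om_alt⟩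
  have hcom : S.Closed S.om := fun x hx u v w hu hv hw => S.om_closed x hx u v w hu hv hw
  obtain ⟨h1, h2⟩ := S.hb_pair_self_ge hβ h
  rw [S.hb_pair_exact hα hβ hcl] at h1
  have h3 := S.hb_pair_om hβ.smooth.continuous
  rw [S.hb_pair_comm, S.hb_pair_exact hα hom hcom] at h3
  have h4 := S.hb_AI_young hβ.smooth.continuous (-2)
  have h5 : 0 < S.hb_V := S.hb_nu_pos
  linarith

/-- real numbers for the class version -/
theorem hb_real_lor {hb_V A : ℝ} (hV : 0 < hb_V) (hA : 0 ≤ A) : ∃ C, 0 ≤ C ∧ ∀ f x I B : ℝ,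
    0 ≤ f + 2 * hb_V → 0 ≤ B → B ≤ x ^ 2 / (2 * hb_V + A) + 2 * (f + 2 * hb_V) → I ^ 2 ≤ A * B →
    x = f + I → -x + (1 / 4) * f ≤ C := by
  set O := 2 * hb_V + A with hO
  have hOpos : 0 < O := by linarith
  set κ := Real.sqrt (A / O) with hκ
  have hκ0 : 0 ≤ κ := Real.sqrt_nonneg _
  have hκ1 : κ < 1 := by
    rw [hκ, Real.sqrt_lt' one_pos, one_pow, div_lt_one hOpos]
    linarith
  refine ⟨(2 * hb_V + A) / (1 - κ) + (2 * hb_V + A), by
    have : 0 < 1 - κ := by linarith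
    positivity, ?_⟩
  intro f x I B hm hB hBle hI hx
  set m := f + 2 * hb_V with hmdef
  have hI2 : |I| ≤ m / 2 + A + κ * |x| := by
    have h1 : I ^ 2 ≤ A * (x ^ 2 / O + 2 * m) := hI.trans (mul_le_mul_of_nonneg_left hBle hA)
    have h2 : A * (x ^ 2 / O + 2 * m) ≤ (m / 2 + A + κ * |x|) ^ 2 := by
      have h3 : A * (x ^ 2 / O) = (κ * |x|) ^ 2 := by
        rw [mul_pow, sq_abs, hκ, Real.sq_sqrt (by positivity)]
        field_simp
      have h4 : A * (2 * m) ≤ (m / 2 + A) ^ 2 := by nlinarith [sq_nonneg (m / 2 - A)]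
      have h5 : 0 ≤ κ * |x| := by positivity
      have h6 : 0 ≤ m / 2 + A := by positivity
      rw [mul_add, h3]
      nlinarith [mul_nonneg h5 h6]
    have h7 : 0 ≤ m / 2 + A + κ * |x| := by positivity
    exact abs_le_of_sq_le_sq (h1.trans h2) h7
  have hIl := neg_abs_le I
  have h1κ : 0 < 1 - κ := by linarith
  have hq : 0 ≤ (2 * hb_V + A) / (1 - κ) := by positivity
  rcases le_or_gt 0 x with h0 | h0
  · rw [abs_of_nonneg h0] at hI2
    have h1 : κ * x ≤ x := by nlinarith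
    have : m ≤ 4 * x + 4 * hb_V + 2 * A := by linarith
    linarith
  · rw [abs_of_neg h0] at hI2
    have h1 : m / 2 + (1 - κ) * (-x) ≤ 2 * hb_V + A := by linarith
    have h2 : -x ≤ (2 * hb_V + A) / (1 - κ) := by
      rw [le_div_iff₀ h1κ]
      linarith
    have h3 : 0 ≤ (1 - κ) * (-x) := by nlinarith
    have h4 : m ≤ 4 * hb_V + 2 * A := by linarith
    linarith

/-- (S1), class version -/
theorem hb_ineq_class (hL : S.Lor) : ∃ C, 0 ≤ C ∧ ∀ β, IsForm β → S.Closed β →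
    (∀ z ∈ S.X1, -1 ≤ S.ev β z) → - S.pair S.om β + (1 / 4) * S.hb_fF β ≤ C := by
  have hV : 0 < S.hb_V := S.hb_nu_pos
  obtain ⟨C, hC, h⟩ := hb_real_lor hV (S.hb_A2_nonneg S.om)
  refine ⟨C, hC, fun β hβ hcl hpos => ?_⟩
  obtain ⟨h1, h2⟩ := S.hb_pair_self_ge hβ hpos
  have hO : 0 < 2 * S.hb_V + S.hb_A2 S.om := by have := S.hb_A2_nonneg S.om; linarith
  refine h (S.hb_fF β) (S.pair S.om β) (S.hb_AI β) (S.hb_A2 β) h2 (S.hb_A2_nonneg β) ?_
    (S.hb_AI_sq hβ.smooth.continuous) (S.hb_pair_om hβ.smooth.continuous)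
  have h3 := hL β hβ hcl
  rw [S.hb_pair_om_om] at h3
  have h4 : S.pair β β ≤ S.pair S.om β ^ 2 / (2 * S.hb_V + S.hb_A2 S.om) := by
    rw [le_div_iff₀ hO]; exact h3
  linarith

end Setup

end Pool.Agent.W_MP_d8b8b7_gt
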