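import Pool.Agent.W_MP_d8b8b7_gt.HB
import Pool.Agent.W_MP_d8b8b7_gt.S1Ineq
import Pool.Agent.W_MP_d8b8b7_gt.Anti

/-!
Application of the Hahn-Banach theorems: existence of P and of (T, T'').
-/

namespace Pool.Agent.W_MP_d8b8b7_gt

open MeasureTheory Set Filter Topology
open scoped ContDiff ENNReal

variable {N : ℕ}

namespace Setup

variable (S : Setup N)

instance : CompactSpace S.X1 := isCompact_iff_compactSpace.mp S.hb_cptX1
instance : Nonempty S.X1 := S.hb_neX1.to_subtype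

/-- evaluation on unit tangent vectors -/
noncomputable def hb_evC (β : EN N → Bil N) (hβ : ContDiff ℝ ∞ β) : C(S.X1, ℝ) :=
  ⟨fun z => S.ev β z.1, (S.hb_ev_continuous hβ.continuous).comp continuous_subtype_val⟩

theorem hb_fF_add {β γ : EN N → Bil N} (hβ : Continuous β) (hγ : Continuous γ) :
    S.hb_fF (β + γ) = S.hb_fF β + S.hb_fF γ := by
  unfold hb_fF
  rw [← integral_add (S.hb_integrable_f1 hβ) (S.hb_integrable_f1 hγ)]
  congr 1
  funext x
  rw [S.hb_cp_add]
  simp only [PiLp.add_apply]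
  ring

theorem hb_fF_smul (c : ℝ) (β : EN N → Bil N) : S.hb_fF (c • β) = c * S.hb_fF β := by
  unfold hb_fF
  rw [← integral_const_mul]
  congr 1
  funext x
  rw [S.hb_cp_smul]
  simp only [PiLp.smul_apply, smul_eq_mul]
  ring

theorem hb_pair_add_right {β γ δ : EN N → Bil N} (hβ : Continuous β) (hγ : Continuous γ)
    (hδ : Continuous δ) : S.pair δ (β + γ) = S.pair δ β + S.pair δ γ := by
  show ∫ x, wedge (S.cp δ x) (S.cp (β + γ) x) ∂S.nu =
    ∫ x, wedge (S.cp δ x) (S.cp β x) ∂S.nu + ∫ x, wedge (S.cp δ x) (S.cp γ x) ∂S.nu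
  rw [← integral_add (S.hb_integrable_wedge hδ hβ) (S.hb_integrable_wedge hδ hγ)]
  congr 1
  funext x
  rw [S.hb_cp_add, hb_wedge_add_right]

theorem hb_pair_smul_right (c : ℝ) (β δ : EN N → Bil N) :
    S.pair δ (c • β) = c * S.pair δ β := by
  show ∫ x, wedge (S.cp δ x) (S.cp (c • β) x) ∂S.nu = c * ∫ x, wedge (S.cp δ x) (S.cp β x) ∂S.nu
  rw [← integral_const_mul]
  congr 1
  funext x
  rw [S.hb_cp_smul, hb_wedge_smul_right]

theorem hb_measurable_fr_pair (a : Fin 4) : Measurable fun x => (x, S.fr a x) :=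
  measurable_id.prodMk (S.meas_fr a)

theorem hb_map_fr_compl (a : Fin 4) : S.nu.map (fun x => (x, S.fr a x)) S.X1ᶜ = 0 := by
  rw [Measure.map_apply (S.hb_measurable_fr_pair a) S.hb_closedX1.measurableSet.compl]
  refine measure_mono_null ?_ S.nu_compl
  intro x hx hxX
  exact hx (S.hb_fr_mem hxX a)

theorem hb_mF_compl : S.mF S.X1ᶜ = 0 := by
  unfold mF
  rw [Measure.add_apply, S.hb_map_fr_compl, S.hb_map_fr_compl, add_zero]

instance : IsFiniteMeasure S.mF := by unfold mF; infer_instance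

theorem hb_ev_integrable {β : EN N → Bil N} (hβ : Continuous β) (m : Measure (EN N × EN N))
    [IsFiniteMeasure m] (hm : m S.X1ᶜ = 0) : Integrable (S.ev β) m := by
  obtain ⟨B, hB⟩ := S.hb_cptX1.exists_bound_of_continuousOn (S.hb_ev_continuous hβ).continuousOn
  refine Integrable.of_bound (S.hb_ev_continuous hβ).measurable.aestronglyMeasurable B ?_
  have : ∀ᵐ z ∂m, z ∈ S.X1 := by rw [ae_iff]; exact hm
  filter_upwards [this] with z hz
  exact hB z hz

theorem hb_Pm_mF {β : EN N → Bil N} (hβ : Continuous β) : S.Pm S.mF β = S.hb_fF β := by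
  have h0 : IsFiniteMeasure (S.nu.map fun x => (x, S.fr 0 x)) := by infer_instance
  have i0 := S.hb_ev_integrable hβ (S.nu.map fun x => (x, S.fr 0 x)) (S.hb_map_fr_compl 0)
  have i2 := S.hb_ev_integrable hβ (S.nu.map fun x => (x, S.fr 2 x)) (S.hb_map_fr_compl 2)
  have e : ∀ a, ∫ z, S.ev β z ∂(S.nu.map fun x => (x, S.fr a x)) =
      ∫ x, β x (S.fr a x) (S.J x (S.fr a x)) ∂S.nu := fun a => by
    rw [integral_map (S.hb_measurable_fr_pair a).aemeasurable
      (S.hb_ev_continuous hβ).measurable.aestronglyMeasurable]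
    rfl
  show ∫ z, S.ev β z ∂(S.nu.map (fun x => (x, S.fr 0 x)) + S.nu.map (fun x => (x, S.fr 2 x))) = _
  rw [integral_add_measure i0 i2, e 0, e 2]
  unfold hb_fF
  rw [integral_add (S.hb_integrable_cp hβ 0) (S.hb_integrable_cp hβ 5)]
  congr 1
  · apply integral_congr_ae
    filter_upwards [S.hb_ae_mem] with x hx
    rw [S.fr_J0 x hx]; rfl
  · apply integral_congr_ae
    filter_upwards [S.hb_ae_mem] with x hx
    rw [S.fr_J2 x hx]; rfl

/-- from a measure on the subtype to a current -/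
theorem hb_current_of (W : Submodule ℝ (EN N → Bil N)) (hW : ∀ β ∈ W, ContDiff ℝ ∞ β)
    (ε : ℝ) (hε : 0 < ε) (l : (EN N → Bil N) → ℝ) (m : Measure S.X1) [IsFiniteMeasure m]
    (hm : ∀ β ∈ W, ∫ z, S.ev β z.1 ∂m = - l β) :
    ∃ mP : Measure (EN N × EN N), S.IsPos mP ∧ ENNReal.ofReal ε • S.mF ≤ mP ∧
      ∀ β ∈ W, S.Pm mP β = - l β + ε * S.hb_fF β := by
  have hms : MeasurableEmbedding (Subtype.val : S.X1 → EN N × EN N) :=
    MeasurableEmbedding.subtype_coe S.hb_closedX1.measurableSet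
  have hsm : (m.map Subtype.val) S.X1ᶜ = 0 := by
    rw [hms.map_apply]
    have : (Subtype.val ⁻¹' S.X1ᶜ : Set S.X1) = ∅ := by
      ext z; simp
    rw [this, measure_empty]
  have hsF : (ENNReal.ofReal ε • S.mF) S.X1ᶜ = 0 := by
    rw [Measure.smul_apply, S.hb_mF_compl, smul_zero]
  have hfin : IsFiniteMeasure (m.map (Subtype.val : S.X1 → EN N × EN N)) := by infer_instance
  have hfinF : IsFiniteMeasure (ENNReal.ofReal ε • S.mF) :=
    Measure.smul_finite _ ENNReal.ofReal_ne_top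
  refine ⟨m.map Subtype.val + ENNReal.ofReal ε • S.mF, ⟨by infer_instance, ?_⟩, ?_, ?_⟩
  · rw [Measure.add_apply, hsm, hsF, add_zero]
  · exact Measure.le_add_left le_rfl
  · intro β hβ
    have hc : Continuous β := (hW β hβ).continuous
    have i1 := S.hb_ev_integrable hc _ hsm
    have i2 := S.hb_ev_integrable hc _ hsF
    show ∫ z, S.ev β z ∂(m.map Subtype.val + ENNReal.ofReal ε • S.mF) = _
    rw [integral_add_measure i1 i2, hms.integral_map, integral_smul_measure,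
      ENNReal.toReal_ofReal hε.le, hm β hβ, smul_eq_mul]
    congr 2
    exact S.hb_Pm_mF hc

/-- existence of P ≥ F closed -/
theorem exists_P : ∃ m, S.IsP 1 m := by
  let q : hb_ExactForms N →ₗ[ℝ] C(S.X1, ℝ) :=
    { toFun := fun β => S.hb_evC β.1 ((hb_exact_le_closed S.toGeom β.2).1.smooth)
      map_add' := fun β γ => by ext z; rfl
      map_smul' := fun c β => by ext z; rfl }
  let l : hb_ExactForms N →ₗ[ℝ] ℝ :=
    { toFun := fun β => S.hb_fF β.1
      map_add' := fun β γ => S.hb_fF_add (hb_exact_le_closed S.toGeom β.2).1.smooth.continuous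
        (hb_exact_le_closed S.toGeom γ.2).1.smooth.continuous
      map_smul' := fun c β => S.hb_fF_smul c β.1 }
  have hV : 0 < S.hb_V := S.hb_nu_pos
  have hA := S.hb_A2_nonneg S.om
  obtain ⟨m, hm, h⟩ := HB.hb_P q l (2 * S.hb_A2 S.om + S.hb_V) (by linarith) (by
    rintro ⟨β, α, hα, rfl⟩ hpos
    exact S.hb_ineq_exact hα (fun z hz => hpos ⟨z, hz⟩))
  obtain ⟨mP, h1, h2, h3⟩ := S.hb_current_of (hb_ExactForms N)
    (fun β hβ => (hb_exact_le_closed S.toGeom hβ).1.smooth) 1 one_pos S.hb_fF m (fun β hβ => h ⟨β, hβ⟩)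
  refine ⟨mP, ⟨h1, h2, fun α hα => ?_⟩⟩
  rw [h3 (dOne α) ⟨α, hα, rfl⟩]
  ring

/-- existence of P ≥ ε F in the class of om -/
theorem exists_Pcls (hL : S.Lor) : ∃ ε > 0, ∃ m, S.IsPcls ε m := by
  obtain ⟨C, hC, hin⟩ := S.hb_ineq_class hL
  have hom := S.smooth_om.continuous
  let q : hb_ClosedForms S.toGeom →ₗ[ℝ] C(S.X1, ℝ) :=
    { toFun := fun β => S.hb_evC β.1 β.2.1.smooth
      map_add' := fun β γ => by ext z; rfl
      map_smul' := fun c β => by ext z; rfl }
  let l : hb_ClosedForms S.toGeom →ₗ[ℝ] ℝ :=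
    { toFun := fun β => - S.pair S.om β.1 + (1 / 4) * S.hb_fF β.1
      map_add' := fun β γ => by
        have h1 := S.hb_fF_add β.2.1.smooth.continuous γ.2.1.smooth.continuous
        have h2 := S.hb_pair_add_right β.2.1.smooth.continuous γ.2.1.smooth.continuous hom
        show - S.pair S.om (β.1 + γ.1) + (1 / 4) * S.hb_fF (β.1 + γ.1) = _
        rw [h1, h2]; ring
      map_smul' := fun c β => by
        have h1 := S.hb_fF_smul c β.1
        have h2 := S.hb_pair_smul_right c β.1 S.om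
        show - S.pair S.om (c • β.1) + (1 / 4) * S.hb_fF (c • β.1) = _
        rw [h1, h2, RingHom.id_apply, smul_eq_mul]; ring }
  obtain ⟨m, hm, h⟩ := HB.hb_P q l C hC (by
    rintro ⟨β, hβ, hcl⟩ hpos
    exact hin β hβ hcl (fun z hz => hpos ⟨z, hz⟩))
  obtain ⟨mP, h1, h2, h3⟩ := S.hb_current_of (hb_ClosedForms S.toGeom)
    (fun β hβ => hβ.1.smooth) (1 / 4) (by norm_num)
    (fun β => - S.pair S.om β + (1 / 4) * S.hb_fF β) m (fun β hβ => h ⟨β, hβ⟩)
  have h4 : ∀ β ∈ hb_ClosedForms S.toGeom, S.Pm mP β = S.pair S.om β := by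
    intro β hβ
    rw [h3 β hβ]; ring
  have hcom : S.Closed S.om := fun x hx u v w hu hv hw => S.om_closed x hx u v w hu hv hw
  refine ⟨1 / 4, by norm_num, mP, ⟨⟨h1, h2, fun α hα => ?_⟩, fun β hβ hcl => h4 β ⟨hβ, hcl⟩⟩⟩
  rw [h4 (dOne α) ⟨dOne_isForm hα, hb_dOne_closed _ hα⟩, S.hb_pair_comm]
  exact S.hb_pair_exact hα ⟨S.smooth_om, S.om_alt⟩ hcom

end Setup

end Pool.Agent.W_MP_d8b8b7_gt
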