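import Pool.Agent.W_MP_d8b8b7_gt.HBApp
import Pool.Agent.W_MP_d8b8b7_gt.Corr
import Pool.Agent.W_MP_d8b8b7_gt.Contra

/-!
The main theorem on a Setup, from the Hahn-Banach steps, the correction lemma and the pairing.
-/

namespace Pool.Agent.W_MP_d8b8b7_gt

open MeasureTheory Set Filter Topology
open scoped ContDiff ENNReal

variable {N : ℕ}

namespace Setup

variable (S : Setup N)

/-- existence of (T, T'') -/
theorem exists_T (W : Submodule ℝ (EN N → Bil N)) (hW : ∀ β ∈ W, IsForm β)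
    (hex : hb_ExactForms N ≤ W) (o : EN N → Bil N) (ho : IsForm o) (k : ℕ) (K : ℝ) (hK : 0 ≤ K)
    (h : ∀ w ∈ W, ¬ ∀ z ∈ S.X1, K * S.hb_antiN k (o + w) < S.ev (o + w) z) :
    ∃ (m : Measure (EN N × EN N)) (T : (EN N → Bil N) → ℝ), S.IsT k K m T ∧
      (∀ w ∈ W, S.Pm m w + T w = 0) ∧ S.Pm m o + T o ≤ 0 := by
  let q : Forms N →ₗ[ℝ] C(S.X1, ℝ) :=
    { toFun := fun β => S.hb_evC β.1 β.2.smooth
      map_add' := fun β γ => by ext z; rfl
      map_smul' := fun c β => by ext z; rfl }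
  let r : Forms N →ₗ[ℝ] hb_SF N :=
    { toFun := fun β => ⟨β.1, β.2.smooth⟩
      map_add' := fun β γ => rfl
      map_smul' := fun c β => rfl }
  let W' : Submodule ℝ (Forms N) :=
    { carrier := {β | β.1 ∈ W}
      zero_mem' := W.zero_mem
      add_mem' := fun {a b} ha hb => W.add_mem ha hb
      smul_mem' := fun c a ha => W.smul_mem c ha }
  obtain ⟨m, T, hprob, hT, hW', ho'⟩ := HB.hb_T (S.hb_semi k K hK) q r W' ⟨o, ho⟩ (by
    rintro ⟨w, hw⟩ hwW hall
    exact h w hwW (fun z hz => hall ⟨z, hz⟩))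
  have hms : MeasurableEmbedding (Subtype.val : S.X1 → EN N × EN N) :=
    MeasurableEmbedding.subtype_coe S.hb_closedX1.measurableSet
  have hsm : (m.map Subtype.val) S.X1ᶜ = 0 := by
    rw [hms.map_apply]
    have : (Subtype.val ⁻¹' S.X1ᶜ : Set S.X1) = ∅ := by
      ext z; simp
    rw [this, measure_empty]
  have hPm : ∀ β, S.Pm (m.map Subtype.val) β = ∫ z : S.X1, S.ev β z.1 ∂m := fun β => by
    show ∫ z, S.ev β z ∂(m.map Subtype.val) = _
    rw [hms.integral_map]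
  classical
  let T' : (EN N → Bil N) → ℝ := fun β => if hβ : ContDiff ℝ ∞ β then T ⟨β, hβ⟩ else 0
  have hT' : ∀ β (hβ : ContDiff ℝ ∞ β), T' β = T ⟨β, hβ⟩ := fun β hβ => dif_pos hβ
  have hp : IsProbabilityMeasure (m.map (Subtype.val : S.X1 → EN N × EN N)) :=
    Measure.isProbabilityMeasure_map hms.measurable.aemeasurable
  have hcl : ∀ w ∈ W, S.Pm (m.map Subtype.val) w + T' w = 0 := by
    intro w hw
    rw [hPm, hT' w (hW w hw).smooth]
    exact hW' ⟨w, hW w hw⟩ hw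
  refine ⟨m.map Subtype.val, T', ⟨hp, ⟨by infer_instance, hsm⟩, ⟨hK, ?_, ?_, ?_⟩, ?_⟩, hcl, ?_⟩
  · intro β γ hβ hγ
    have h1 : T' (β + γ) = T ((⟨β, hβ⟩ : hb_SF N) + ⟨γ, hγ⟩) := hT' _ (hb_sf_add hβ hγ)
    rw [h1, map_add, hT' β hβ, hT' γ hγ]
  · intro c β hβ
    have h1 : T' (c • β) = T (c • (⟨β, hβ⟩ : hb_SF N)) := hT' _ (contDiff_const_smul' c hβ)
    rw [h1, map_smul, hT' β hβ, smul_eq_mul]
  · intro β c hβ hc
    rw [hT' β hβ]
    refine (hT ⟨β, hβ⟩).trans ?_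
    show K * S.hb_antiN k β ≤ K * c
    exact mul_le_mul_of_nonneg_left (S.hb_antiN_le k hc) hK
  · intro α hα
    exact hcl (dOne α) (hex ⟨α, hα, rfl⟩)
  · rw [hPm, hT' o ho.smooth]
    exact ho'

theorem hb_om_isForm : IsForm S.om := ⟨S.smooth_om, S.om_alt⟩

theorem hb_om_closed' : S.Closed S.om := fun x hx u v w hu hv hw => S.om_closed x hx u v w hu hv hw

/-- subtracting the correction -/
theorem hb_sub_correction {β b : EN N → Bil N} (hβ : IsForm β) (hcβ : S.Closed β) (hb : IsForm b)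
    (hcb : S.Closed b) (ha : ∀ x ∈ S.X, S.anti b x = S.anti β x)
    (hev : ∀ z ∈ S.X1, S.ev b z < S.ev β z) :
    IsForm (β + (-1 : ℝ) • b) ∧ S.Closed (β + (-1 : ℝ) • b) ∧
      (∀ x ∈ S.X, S.anti (β + (-1 : ℝ) • b) x = 0) ∧
      ∀ z ∈ S.X1, 0 < S.ev (β + (-1 : ℝ) • b) z := by
  refine ⟨hβ.add (hb.smul _), Geom.Closed.add hβ (hb.smul _) hcβ (Geom.Closed.smul _ hb hcb),
    fun x hx => ?_, fun z hz => ?_⟩
  · rw [S.hb_anti_add, S.hb_anti_smul, ha x hx]
    ext u v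
    show S.anti β x u v + (-1) * S.anti β x u v = 0
    ring
  · have h1 : S.ev (β + (-1 : ℝ) • b) z = S.ev β z + (-1) * S.ev b z := rfl
    rw [h1]
    have := hev z hz
    linarith

/-- main theorem on a Setup, without the class -/
theorem main_noclass : ∃ β, IsForm β ∧ S.Closed β ∧ (∀ x ∈ S.X, S.anti β x = 0) ∧
    (∀ z ∈ S.X1, 0 < S.ev β z) := by
  by_contra hno
  obtain ⟨k, C, hcorr⟩ := S.correction
  have hle : C ≤ |C| := le_abs_self C
  obtain ⟨m, T, hT, hcl, -⟩ := S.exists_T (hb_ClosedForms S.toGeom) (fun β hβ => hβ.1)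
    (hb_exact_le_closed _) 0 isForm_zero k |C| (abs_nonneg _) (by
      rintro w ⟨hw, hcw⟩ hall
      have h0 : (0 : EN N → Bil N) + w = w := by
        funext x
        ext u v
        exact zero_add (w x u v)
      rw [h0] at hall
      have hN := S.hb_antiN_nonneg k hw.smooth
      obtain ⟨b, hb, hcb, hab, hevb⟩ := hcorr w hw hcw _ (S.hb_antiLe_antiN k hw.smooth)
      exact hno ⟨_, S.hb_sub_correction hw hcw hb hcb hab (fun z hz => by
        have h1 := hall z hz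
        have h2 := (abs_le.mp (hevb z hz)).2
        have h3 := mul_le_mul_of_nonneg_right hle hN
        linarith)⟩)
  obtain ⟨mP, hP⟩ := S.exists_P
  exact S.contra_A mP m T 1 one_pos k |C| hP ⟨hT, fun β hβ hcβ => hcl β ⟨hβ, hcβ⟩⟩

/-- main theorem on a Setup, in the class of om -/
theorem main_class (hL : S.Lor) : ∃ β, IsForm β ∧ S.Closed β ∧ (∀ x ∈ S.X, S.anti β x = 0) ∧
    (∀ z ∈ S.X1, 0 < S.ev β z) ∧ ∃ α, IsOne α ∧ β = S.om + dOne α := by
  by_contra hno
  obtain ⟨k, C, hcorr⟩ := S.correction_lor hL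
  have hle : C ≤ |C| := le_abs_self C
  obtain ⟨m, T, hT, -, hneg⟩ := S.exists_T (hb_ExactForms N) (fun β hβ => (hb_exact_le_closed S.toGeom hβ).1)
    le_rfl S.om S.hb_om_isForm k |C| (abs_nonneg _) (by
      rintro w ⟨α, hα, rfl⟩ hall
      have hd := dOne_isForm hα
      have hdc := hb_dOne_closed S.toGeom hα
      have hw : IsForm (S.om + dOne α) := S.hb_om_isForm.add hd
      have hcw : S.Closed (S.om + dOne α) := Geom.Closed.add S.hb_om_isForm hd S.hb_om_closed' hdc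
      have hN := S.hb_antiN_nonneg k hw.smooth
      obtain ⟨γ, hγ, hab, hevb⟩ := hcorr _ hw hcw _ (S.hb_antiLe_antiN k hw.smooth)
      obtain ⟨h1, h2, h3, h4⟩ := S.hb_sub_correction hw hcw (dOne_isForm hγ) (hb_dOne_closed _ hγ) hab
        (fun z hz => by
          have h1 := hall z hz
          have h2 := (abs_le.mp (hevb z hz)).2
          have h3 := mul_le_mul_of_nonneg_right hle hN
          linarith)
      refine hno ⟨_, h1, h2, h3, h4, α + (-1 : ℝ) • γ, hα.add (contDiff_const_smul' _ hγ), ?_⟩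
      have e1 := hb_dOne_add (γ := (-1 : ℝ) • γ) hα (contDiff_const_smul' _ hγ)
      have e2 := hb_dOne_smul (-1) hγ
      rw [e1, e2]
      funext x
      ext u v
      exact add_assoc (S.om x u v) (dOne α x u v) ((-1) * dOne γ x u v))
  obtain ⟨ε, hε, mP, hP⟩ := S.exists_Pcls hL
  have := S.contra_B hL mP m T ε hε k |C| hP hT
  linarith

/-- main theorem on a Setup -/
theorem main_setup : ∃ β, IsForm β ∧ S.Closed β ∧ (∀ x ∈ S.X, S.anti β x = 0) ∧
    (∀ z ∈ S.X1, 0 < S.ev β z) ∧ (S.Lor → ∃ α, IsOne α ∧ β = S.om + dOne α) := by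
  by_cases hL : S.Lor
  · obtain ⟨β, h1, h2, h3, h4, h5⟩ := S.main_class hL
    exact ⟨β, h1, h2, h3, h4, fun _ => h5⟩
  · obtain ⟨β, h1, h2, h3, h4⟩ := S.main_noclass
    exact ⟨β, h1, h2, h3, h4, fun h => absurd h hL⟩

end Setup

end Pool.Agent.W_MP_d8b8b7_gt
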