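import Pool.Agent.W_MP_d8b8b7_gt.MeasB
import Pool.Agent.W_MP_d8b8b7_gt.Riesz

/-!
# The fundamental form as a current and lower bounds for currents P ≥ e F

`mF = law of (x, f_0(x)) + law of (x, f_2(x))` under nu.
-/

namespace Pool.Agent.W_MP_d8b8b7_gt

open MeasureTheory Set Filter Topology
open scoped ContDiff ENNReal

variable {N : ℕ}

namespace Setup

variable (S : Setup N)

theorem measLow_meas (a : Fin 4) : Measurable (fun x => (x, S.fr a x)) :=
  measurable_id.prodMk (S.meas_fr a)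

theorem measLow_measX1 : MeasurableSet S.X1 := S.isCompact_X1.measurableSet

/-- each of the two parts of mF is a positive current -/
theorem measLow_isPos (a : Fin 4) : S.IsPos (S.nu.map (fun x => (x, S.fr a x))) := by
  refine ⟨inferInstance, ?_⟩
  rw [Measure.map_apply (S.measLow_meas a) S.measLow_measX1.compl]
  refine measure_mono_null ?_ S.nu_compl
  intro x hx hxX
  exact hx (S.fr_mem_X1 hxX a)

theorem isPos_mF : S.IsPos S.mF := by
  have h0 := (S.measLow_isPos 0)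
  have h2 := (S.measLow_isPos 2)
  have i0 := h0.fin
  have i2 := h2.fin
  refine ⟨?_, ?_⟩
  · unfold mF
    infer_instance
  · unfold mF
    rw [Measure.add_apply, h0.supp, h2.supp, add_zero]

theorem measLow_ev_int {β : EN N → Bil N} (hβ : Continuous β) (a : Fin 4) :
    Integrable (fun x => S.ev β (x, S.fr a x)) S.nu := by
  have h := S.integrable_ev (S.measLow_isPos a) hβ
  exact (integrable_map_measure (S.PtBound_ev_continuous hβ).aestronglyMeasurable
    (S.measLow_meas a).aemeasurable).1 h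

theorem measLow_Pm {β : EN N → Bil N} (hβ : Continuous β) :
    S.Pm S.mF β = ∫ x, (S.ev β (x, S.fr 0 x) + S.ev β (x, S.fr 2 x)) ∂S.nu := by
  unfold Pm mF
  rw [integral_add_measure (S.integrable_ev (S.measLow_isPos 0) hβ)
    (S.integrable_ev (S.measLow_isPos 2) hβ),
    integral_map (S.measLow_meas 0).aemeasurable (S.PtBound_ev_continuous hβ).aestronglyMeasurable,
    integral_map (S.measLow_meas 2).aemeasurable (S.PtBound_ev_continuous hβ).aestronglyMeasurable,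
    integral_add (S.measLow_ev_int hβ 0) (S.measLow_ev_int hβ 2)]

/-- action of mF: β(f0, J f0) + β(f2, J f2) = β(f0,f1) + β(f2,f3) = wedge (cp β) Fc -/
theorem Pm_mF {β : EN N → Bil N} (hβ : Continuous β) :
    S.Pm S.mF β = S.B (S.cp β) (fun _ => Fc) := by
  rw [S.measLow_Pm hβ]
  unfold B
  apply integral_congr_ae
  filter_upwards [S.ae_mem_X] with x hx
  rw [wedge_Fc]
  change β x (S.fr 0 x) (S.J x (S.fr 0 x)) + β x (S.fr 2 x) (S.J x (S.fr 2 x)) =
    β x (S.fr 0 x) (S.fr 1 x) + β x (S.fr 2 x) (S.fr 3 x)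
  rw [S.fr_J0 x hx, S.fr_J2 x hx]

/-- the trace measure of mF is 2 nu -/
theorem tr_mF (s : Set (EN N)) (hs : MeasurableSet s) : S.mF (Prod.fst ⁻¹' s) = 2 * S.nu s := by
  unfold mF
  rw [Measure.add_apply, Measure.map_apply (S.measLow_meas 0) (measurable_fst hs),
    Measure.map_apply (S.measLow_meas 2) (measurable_fst hs), two_mul]
  rfl

/-- the integrand of `ev_Rb_val` is integrable -/
theorem measLow_int {x v : EN N} (hx : x ∈ S.X) {δ : ℝ} (hδ : 0 < δ) (hδ' : δ ≤ S.d0 / 2)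
    {q : EN N → ℝ} (hq : ContDiff ℝ ∞ q) (hqs : ∀ s, 1 ≤ ‖s‖ → q s = 0)
    {b : EN N → C6} (hb : S.L2F b) :
    Integrable (fun s => q s * S.val x (δ • s) v (b (S.rho (x + δ • s)))) volume := by
  have h1 := S.integrable_Op hq hqs S.ampR S.smooth_ampR hδ hb x
  have h2 := Bil.integrable_apply h1 v (S.J x v)
  refine h2.congr (ae_of_all _ fun s => ?_)
  by_cases hs : 1 ≤ ‖s‖
  · simp only [hqs s hs, zero_smul, zero_mul, Bil.zero_apply]
  · push Not at hs
    have hU : x + δ • s ∈ S.Ud := by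
      change Metric.infDist (x + δ • s) S.X < S.d0 / 2
      refine (Metric.infDist_le_dist_of_mem hx).trans_lt ?_
      rw [dist_eq_norm, add_sub_cancel_left, norm_smul, Real.norm_eq_abs, abs_of_pos hδ]
      nlinarith
    have h3 : S.ex b (x + δ • s) = S.rc b (S.rho (x + δ • s)) := Set.indicator_of_mem hU _
    simp only [S.ampR_apply, Bil.smul_apply, Bil.pull_apply, h3]
    rfl

/-- lower bound: integrate `val_low` over x with respect to nu and use `ker_low` for the function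
‖b‖; q ≥ η on the ball of radius 1/2 and `val_ge` is not needed since q ≥ 0 and the sum of the two
values is ≥ c₀ ‖b‖ ≥ 0 everywhere on the support of q (δ ≤ d₁). -/
theorem Pm_mF_Rb_ge : ∃ c₀ d₁ : ℝ, 0 < c₀ ∧ 0 < d₁ ∧ d₁ ≤ S.d0 / 2 ∧ ∀ δ : ℝ, 0 < δ → δ ≤ d₁ →
    ∀ η : ℝ, 0 ≤ η → ∀ q : EN N → ℝ, QProf 0 1 q → (∀ s, ‖s‖ ≤ 1 / 2 → η ≤ q s) →
    ∀ b : EN N → C6, S.L2F b → (∀ x, Pos6 (b x)) → (∀ x, pr2 (b x) = 0) →
      c₀ * η * ∫ y, ‖b y‖ ∂S.nu ≤ S.Pm S.mF (S.Rb q δ b) := by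
  obtain ⟨c0, d1, hc0, hd1, hd1', hval⟩ := S.val_low
  have hC1 : 0 < S.C1 := lt_of_lt_of_le one_pos S.one_le_C1
  refine ⟨c0 * S.C1⁻¹, min d1 (S.d0 / 2), by positivity, lt_min hd1 (by linarith [S.d0_pos]),
    min_le_right _ _, ?_⟩
  intro δ hδ hδd η hη q hq hqη b hb hbp hbz
  have hδ1 : δ ≤ d1 := hδd.trans (min_le_left _ _)
  have hδ2 : δ ≤ S.d0 / 2 := hδd.trans (min_le_right _ _)
  have hcont : Continuous (S.Rb q δ b) := (S.isForm_Rb hq.smooth hδ hb).smooth.continuous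
  rw [S.measLow_Pm hcont]
  -- integrability of ‖b‖
  have hbi : Integrable (fun y => ‖b y‖) S.nu :=
    (hb.memLp.integrable (by norm_num)).norm
  have hgi : Integrable (fun x => S.ev (S.Rb q δ b) (x, S.fr 0 x) +
      S.ev (S.Rb q δ b) (x, S.fr 2 x)) S.nu :=
    (S.measLow_ev_int hcont 0).add (S.measLow_ev_int hcont 2)
  -- pointwise bound
  have hpt : ∀ x ∈ S.X, 0 ≤ S.ev (S.Rb q δ b) (x, S.fr 0 x) + S.ev (S.Rb q δ b) (x, S.fr 2 x) ∧
      ENNReal.ofReal (c0 * η) * ∫⁻ s in Metric.ball 0 (1 / 2),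
        ENNReal.ofReal ‖b (S.rho (x + δ • s))‖ ≤
      ENNReal.ofReal (S.ev (S.Rb q δ b) (x, S.fr 0 x) + S.ev (S.Rb q δ b) (x, S.fr 2 x)) := by
    intro x hx
    have e0 := S.ev_Rb_val (z := (x, S.fr 0 x)) (S.fr_mem_X1 hx 0) hδ hδ2 hq.smooth.continuous
      hq.supp hb
    have e2 := S.ev_Rb_val (z := (x, S.fr 2 x)) (S.fr_mem_X1 hx 2) hδ hδ2 hq.smooth.continuous
      hq.supp hb
    have i0 := S.measLow_int (v := S.fr 0 x) hx hδ hδ2 hq.smooth hq.supp hb
    have i2 := S.measLow_int (v := S.fr 2 x) hx hδ hδ2 hq.smooth hq.supp hb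
    have e : S.ev (S.Rb q δ b) (x, S.fr 0 x) + S.ev (S.Rb q δ b) (x, S.fr 2 x) =
        ∫ s, (q s * S.val x (δ • s) (S.fr 0 x) (b (S.rho (x + δ • s))) +
          q s * S.val x (δ • s) (S.fr 2 x) (b (S.rho (x + δ • s)))) := by
      rw [e0, e2, integral_add i0 i2]
    have hlow : ∀ s : EN N, q s * (c0 * ‖b (S.rho (x + δ • s))‖) ≤
        q s * S.val x (δ • s) (S.fr 0 x) (b (S.rho (x + δ • s))) +
          q s * S.val x (δ • s) (S.fr 2 x) (b (S.rho (x + δ • s))) := by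
      intro s
      by_cases hs : 1 ≤ ‖s‖
      · rw [hq.supp s hs]
        simp
      · push Not at hs
        have hn : ‖δ • s‖ < d1 := by
          rw [norm_smul, Real.norm_eq_abs, abs_of_pos hδ]
          nlinarith
        have h := hval x hx (δ • s) hn (b (S.rho (x + δ • s))) (hbp _) (hbz _)
        rw [← mul_add]
        exact mul_le_mul_of_nonneg_left h (hq.nonneg s)
    have hnn : ∀ s : EN N, 0 ≤ q s * S.val x (δ • s) (S.fr 0 x) (b (S.rho (x + δ • s))) +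
          q s * S.val x (δ • s) (S.fr 2 x) (b (S.rho (x + δ • s))) := fun s =>
      (mul_nonneg (hq.nonneg s) (mul_nonneg hc0.le (norm_nonneg _))).trans (hlow s)
    have i02 : Integrable (fun s => q s * S.val x (δ • s) (S.fr 0 x) (b (S.rho (x + δ • s))) +
        q s * S.val x (δ • s) (S.fr 2 x) (b (S.rho (x + δ • s)))) volume := i0.add i2
    rw [e]
    refine ⟨integral_nonneg hnn, ?_⟩
    rw [ofReal_integral_eq_lintegral_ofReal i02 (ae_of_all _ hnn)]
    have hmeas : Measurable fun s : EN N => ENNReal.ofReal ‖b (S.rho (x + δ • s))‖ := by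
      have h1 : Continuous fun s : EN N => S.rho (x + δ • s) :=
        S.smooth_rho.continuous.comp (by fun_prop)
      exact (hb.meas.comp h1.measurable).norm.ennreal_ofReal
    rw [← lintegral_const_mul _ hmeas]
    refine le_trans ?_ (setLIntegral_le_lintegral (Metric.ball 0 (1 / 2)) _)
    refine setLIntegral_mono' measurableSet_ball ?_
    intro s hs
    rw [← ENNReal.ofReal_mul (by positivity)]
    apply ENNReal.ofReal_le_ofReal
    refine le_trans ?_ (hlow s)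
    have hs' : ‖s‖ ≤ 1 / 2 := by
      rw [mem_ball_zero_iff] at hs
      exact hs.le
    have h1 := hqη s hs'
    have h2 : 0 ≤ c0 * ‖b (S.rho (x + δ • s))‖ := by positivity
    calc c0 * η * ‖b (S.rho (x + δ • s))‖ = η * (c0 * ‖b (S.rho (x + δ • s))‖) := by ring
      _ ≤ q s * (c0 * ‖b (S.rho (x + δ • s))‖) := mul_le_mul_of_nonneg_right h1 h2
  have hnn : 0 ≤ᵐ[S.nu] fun x => S.ev (S.Rb q δ b) (x, S.fr 0 x) +
      S.ev (S.Rb q δ b) (x, S.fr 2 x) := by
    filter_upwards [S.ae_mem_X] with x hx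
    exact (hpt x hx).1
  rw [← ENNReal.ofReal_le_ofReal_iff (integral_nonneg_of_ae hnn),
    ofReal_integral_eq_lintegral_ofReal hgi hnn]
  have hmb : Measurable fun y => ENNReal.ofReal ‖b y‖ := hb.meas.norm.ennreal_ofReal
  have hk := S.ker_low δ hδ (by linarith [S.d0_pos]) (fun y => ENNReal.ofReal ‖b y‖) hmb
  calc ENNReal.ofReal (c0 * S.C1⁻¹ * η * ∫ y, ‖b y‖ ∂S.nu)
      = ENNReal.ofReal (c0 * η) * (ENNReal.ofReal S.C1⁻¹ * ∫⁻ y, ENNReal.ofReal ‖b y‖ ∂S.nu) := by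
        rw [← ofReal_integral_eq_lintegral_ofReal hbi (ae_of_all _ fun y => norm_nonneg _),
          ← ENNReal.ofReal_mul (by positivity), ← ENNReal.ofReal_mul (by positivity)]
        congr 1
        ring
    _ ≤ ENNReal.ofReal (c0 * η) * ∫⁻ x, ∫⁻ s in Metric.ball 0 (1 / 2),
        ENNReal.ofReal ‖b (S.rho (x + δ • s))‖ ∂volume ∂S.nu := by gcongr
    _ = ∫⁻ x, ENNReal.ofReal (c0 * η) * ∫⁻ s in Metric.ball 0 (1 / 2),
        ENNReal.ofReal ‖b (S.rho (x + δ • s))‖ ∂volume ∂S.nu := by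
        rw [lintegral_const_mul' _ _ ENNReal.ofReal_ne_top]
    _ ≤ ∫⁻ x, ENNReal.ofReal (S.ev (S.Rb q δ b) (x, S.fr 0 x) +
        S.ev (S.Rb q δ b) (x, S.fr 2 x)) ∂S.nu := by
        apply lintegral_mono_ae
        filter_upwards [S.ae_mem_X] with x hx
        exact (hpt x hx).2

/-- pointwise form: the representative f of mF satisfies f ≥ c₀ η F -/
theorem rep_mF_ge : ∃ c₀ d₁ : ℝ, 0 < c₀ ∧ 0 < d₁ ∧ d₁ ≤ S.d0 / 2 ∧ ∀ δ : ℝ, 0 < δ → δ ≤ d₁ →
    ∀ η : ℝ, 0 ≤ η → ∀ q : EN N → ℝ, QProf 0 1 q → (∀ s, ‖s‖ ≤ 1 / 2 → η ≤ q s) →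
    ∀ f : EN N → C6, S.L2F f → (∀ b, S.L2F b → S.Pm S.mF (S.Rb q δ b) = S.B f b) →
      ∀ᵐ x ∂S.nu, Pos6 (f x - (c₀ * η) • Fc) := by
  obtain ⟨c0, d1, hc0, hd1, hd1', hge⟩ := S.Pm_mF_Rb_ge
  refine ⟨c0, d1, hc0, hd1, hd1', ?_⟩
  intro δ hδ hδd η hη q hq hqη f hf hrep
  have h := S.ae_pos6 hf (t := fun _ => -(c0 * η)) measurable_const (integrable_const _) ?_
  · filter_upwards [h] with x hx
    rw [neg_smul, ← sub_eq_add_neg] at hx
    exact hx
  · intro b hb _ hbp hbz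
    rw [← hrep b hb]
    refine le_trans (le_of_eq ?_) (hge δ hδ hδd η hη q hq hqη b hb hbp hbz)
    rw [integral_const_mul]
    ring

/-- Lower bound for a current P with `ofReal e • mF ≤ mP` (as measures): its representative a
satisfies a ≥ c₀ η e F - C δ^2 θ_P F.  Write mP = ofReal e • mF + m' (m' = mP - ofReal e • mF),
a = e f + a' by `exists_rep`-type linearity of Pm in the measure, `rep_mF_ge` and the third part of
the proof of `rep_bounds` for m' (theta m' ≤ theta mP). -/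
theorem rep_ge : ∃ c₀ d₁ C : ℝ, 0 < c₀ ∧ 0 < d₁ ∧ 0 ≤ C ∧ d₁ ≤ S.d0 / 2 ∧
    ∀ δ : ℝ, 0 < δ → δ ≤ d₁ →
    ∀ η : ℝ, 0 ≤ η → ∀ q : EN N → ℝ, QProf 0 1 q → (∀ s, ‖s‖ ≤ 1 / 2 → η ≤ q s) →
    ∀ e : ℝ, 0 ≤ e → ∀ mP : Measure (EN N × EN N), S.IsPos mP → ENNReal.ofReal e • S.mF ≤ mP →
    ∀ a : EN N → C6, S.L2F a → (∀ b, S.L2F b → S.Pm mP (S.Rb q δ b) = S.B a b) →
      ∀ᵐ x ∂S.nu, Pos6 (a x + (C * δ ^ 2 * S.theta mP δ x - c₀ * η * e) • Fc) := by
  obtain ⟨c0, d1, hc0, hd1, hd1', hge⟩ := S.Pm_mF_Rb_ge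
  obtain ⟨C, hC, hPm⟩ := S.Pm_Rb_ge
  refine ⟨c0, d1, C, hc0, hd1, hC, hd1', ?_⟩
  intro δ hδ hδd η hη q hq hqη e he mP hmP hle a ha hrep
  have hδ2 : δ ≤ S.d0 / 2 := hδd.trans hd1'
  have iP := hmP.fin
  have iF := S.isPos_mF.fin
  have iF' : IsFiniteMeasure (ENNReal.ofReal e • S.mF) :=
    S.mF.smul_finite ENNReal.ofReal_ne_top
  obtain ⟨m', hm'⟩ : ∃ m' : Measure (EN N × EN N), m' = mP - ENNReal.ofReal e • S.mF := ⟨_, rfl⟩
  have hsum : m' + ENNReal.ofReal e • S.mF = mP := by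
    rw [hm']
    exact Measure.sub_add_cancel_of_le hle
  have hm'le : m' ≤ mP := by
    rw [hm']
    exact Measure.sub_le
  have hpos' : S.IsPos m' := by
    refine ⟨isFiniteMeasure_of_le mP hm'le, ?_⟩
    have h1 := hm'le S.X1ᶜ
    rw [hmP.supp] at h1
    exact nonpos_iff_eq_zero.mp h1
  have hθle : ∀ y, S.theta m' δ y ≤ S.theta mP δ y := by
    intro y
    unfold theta
    refine mul_le_mul_of_nonneg_left ?_ (by positivity)
    exact ENNReal.toReal_mono (measure_ne_top _ _) (hm'le _)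
  have hθm := S.measurable_theta mP hmP δ
  have hθm' := S.measurable_theta m' hpos' δ
  have hθb : ∀ y, |S.theta mP δ y| ≤ δ⁻¹ ^ 4 * mass mP := by
    intro y
    rw [abs_of_nonneg (S.theta_nonneg mP δ hδ y)]
    exact S.theta_le mP hmP hδ y
  have hθb' : ∀ y, |S.theta m' δ y| ≤ δ⁻¹ ^ 4 * mass m' := by
    intro y
    rw [abs_of_nonneg (S.theta_nonneg m' δ hδ y)]
    exact S.theta_le m' hpos' hδ y
  have hθi : Integrable (S.theta mP δ) S.nu :=
    Integrable.of_bound hθm.aestronglyMeasurable _ (ae_of_all _ hθb)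
  have h := S.ae_pos6 ha (t := fun x => C * δ ^ 2 * S.theta mP δ x - c0 * η * e)
    ((hθm.const_mul _).sub measurable_const) ((hθi.const_mul _).sub (integrable_const _)) ?_
  · exact h
  · intro b hb _ hbp hbz
    rw [← hrep b hb]
    have hbi : Integrable (fun y => ‖b y‖) S.nu := (hb.memLp.integrable (by norm_num)).norm
    have hθbi : Integrable (fun y => S.theta mP δ y * ‖b y‖) S.nu :=
      hbi.bdd_mul hθm.aestronglyMeasurable (ae_of_all _ hθb)
    have hθbi' : Integrable (fun y => S.theta m' δ y * ‖b y‖) S.nu :=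
      hbi.bdd_mul hθm'.aestronglyMeasurable (ae_of_all _ hθb')
    have hcont : Continuous (S.Rb q δ b) := (S.isForm_Rb hq.smooth hδ hb).smooth.continuous
    have e1 : S.Pm mP (S.Rb q δ b) = S.Pm m' (S.Rb q δ b) + e * S.Pm S.mF (S.Rb q δ b) := by
      have hi' := S.integrable_ev hpos' hcont
      have hiF := (S.integrable_ev S.isPos_mF hcont).smul_measure
        (ENNReal.ofReal_ne_top (r := e))
      unfold Pm
      conv_lhs => rw [← hsum]
      rw [integral_add_measure hi' hiF, integral_smul_measure, ENNReal.toReal_ofReal he,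
        smul_eq_mul]
    have e2 := hge δ hδ hδd η hη q hq hqη b hb hbp hbz
    have e3 := hPm δ hδ hδ2 m' hpos' q hq b hb hbp hbz
    have e4 : ∫ y, S.theta m' δ y * ‖b y‖ ∂S.nu ≤ ∫ y, S.theta mP δ y * ‖b y‖ ∂S.nu :=
      integral_mono hθbi' hθbi fun y => mul_le_mul_of_nonneg_right (hθle y) (norm_nonneg _)
    have e5 : ∫ x, (C * δ ^ 2 * S.theta mP δ x - c0 * η * e) * ‖b x‖ ∂S.nu =
        C * δ ^ 2 * (∫ y, S.theta mP δ y * ‖b y‖ ∂S.nu) - c0 * η * e * ∫ y, ‖b y‖ ∂S.nu := by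
      rw [← integral_const_mul, ← integral_const_mul,
        ← integral_sub (hθbi.const_mul _) (hbi.const_mul _)]
      congr 1
      ext1 x
      ring
    have e6 : e * (c0 * η * ∫ y, ‖b y‖ ∂S.nu) ≤ e * S.Pm S.mF (S.Rb q δ b) :=
      mul_le_mul_of_nonneg_left e2 he
    have e7 : C * δ ^ 2 * (∫ y, S.theta m' δ y * ‖b y‖ ∂S.nu) ≤
        C * δ ^ 2 * (∫ y, S.theta mP δ y * ‖b y‖ ∂S.nu) :=
      mul_le_mul_of_nonneg_left e4 (by positivity)
    rw [e5, e1]
    linarith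

end Setup

end Pool.Agent.W_MP_d8b8b7_gt
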