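import Pool.Agent.W_MP_d8b8b7_gt.Defs

/-!
# Smoothness of parameter integrals and Hadamard's lemma (generic calculus)
-/

set_option linter.unusedSectionVars false

namespace Pool.Agent.W_MP_d8b8b7_gt

open MeasureTheory Set Filter Topology
open scoped ContDiff ENNReal

section

variable {E F G H : Type*} [NormedAddCommGroup E] [NormedSpace ℝ E]
  [NormedAddCommGroup F] [NormedSpace ℝ F]
  [NormedAddCommGroup G] [NormedSpace ℝ G] [NormedAddCommGroup H] [NormedSpace ℝ H]

/-- the iterated derivative in the first variable in terms of the joint one -/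
theorem iteratedFDeriv_partial_eq (Φ : E × F → G) (hΦ : ContDiff ℝ ∞ Φ) (x : E) (y : F)
    (j : ℕ) : iteratedFDeriv ℝ j (fun x => Φ (x, y)) x =
      (iteratedFDeriv ℝ j Φ (x, y)).compContinuousLinearMap
        fun _ => ContinuousLinearMap.inl ℝ E F := by
  have h0 : (fun x => Φ (x, y)) =
      (fun z : E × F => Φ (z + (0, y))) ∘ (ContinuousLinearMap.inl ℝ E F) := by
    funext z
    simp
  have h1 : ContDiff ℝ ∞ (fun z : E × F => Φ (z + (0, y))) :=
    hΦ.comp (contDiff_id.add contDiff_const)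
  rw [h0, ContinuousLinearMap.iteratedFDeriv_comp_right (n := ∞) _ h1 x
    (by exact_mod_cast le_top), iteratedFDeriv_comp_add_right]
  simp

/-- iterated derivatives in the first variable are dominated by the joint iterated derivatives:
`x ↦ Φ (x, y)` is Φ composed with an affine map with linear part of norm at most 1. -/
theorem norm_iteratedFDeriv_partial_le (Φ : E × F → G) (hΦ : ContDiff ℝ ∞ Φ) (x : E) (y : F)
    (j : ℕ) : ‖iteratedFDeriv ℝ j (fun x => Φ (x, y)) x‖ ≤ ‖iteratedFDeriv ℝ j Φ (x, y)‖ := by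
  rw [iteratedFDeriv_partial_eq Φ hΦ]
  refine (ContinuousMultilinearMap.norm_compContinuousLinearMap_le _ _).trans ?_
  refine mul_le_of_le_one_right (norm_nonneg _) ?_
  refine Finset.prod_le_one (fun _ _ => norm_nonneg _) fun _ _ => ?_
  exact ContinuousLinearMap.norm_inl_le_one ℝ E F

/-- the partial derivative in the first variable, in the direction v -/
noncomputable def pdir (Φ : E × F → G) (v : E) (z : E × F) : G := fderiv ℝ Φ z (v, 0)

theorem contDiff_pdir {Φ : E × F → G} (hΦ : ContDiff ℝ ∞ Φ) (v : E) :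
    ContDiff ℝ ∞ (pdir Φ v) :=
  (hΦ.fderiv_right (m := ∞) (by simp)).clm_apply contDiff_const

theorem hasFDerivAt_fst {Φ : E × F → G} (hΦ : ContDiff ℝ ∞ Φ) (x : E) (y : F) :
    HasFDerivAt (fun x => Φ (x, y)) ((fderiv ℝ Φ (x, y)).comp (ContinuousLinearMap.inl ℝ E F)) x :=
  ((hΦ.differentiable (by simp) (x, y)).hasFDerivAt).comp x (hasFDerivAt_prodMk_left x y)

theorem fderiv_fst_apply {Φ : E × F → G} (hΦ : ContDiff ℝ ∞ Φ) (x : E) (y : F) (v : E) :
    fderiv ℝ (fun x => Φ (x, y)) x v = pdir Φ v (x, y) := by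
  rw [(hasFDerivAt_fst hΦ x y).fderiv]
  simp [pdir]

variable [FiniteDimensional ℝ E] [FiniteDimensional ℝ F] [MeasurableSpace F] [BorelSpace F]
  [FiniteDimensional ℝ G] [FiniteDimensional ℝ H]

omit [FiniteDimensional ℝ E] [NormedSpace ℝ E] [FiniteDimensional ℝ H]
  [FiniteDimensional ℝ G] in
theorem paramC_meas {μ : Measure F} {Φ : E × F → (G →L[ℝ] H)} (hΦ : Continuous Φ)
    {g : F → G} (hg : Integrable g μ) (x : E) :
    AEStronglyMeasurable (fun y => Φ (x, y) (g y)) μ := by
  have : ProperSpace F := FiniteDimensional.proper_real F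
  have h1 : AEStronglyMeasurable (fun y => Φ (x, y)) μ :=
    (hΦ.comp (by fun_prop : Continuous fun y : F => (x, y))).aestronglyMeasurable
  have h2 : AEStronglyMeasurable (fun y => (Φ (x, y), g y)) μ := h1.prodMk hg.1
  exact (isBoundedBilinearMap_apply (𝕜 := ℝ) (E := G) (F := H)).continuous.comp_aestronglyMeasurable
    h2

omit [NormedSpace ℝ E] [FiniteDimensional ℝ E] [FiniteDimensional ℝ G] [MeasurableSpace F]
  [BorelSpace F] [FiniteDimensional ℝ H] [NormedSpace ℝ G] [NormedSpace ℝ H] in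
theorem paramC_bound [ProperSpace E] {V : Type*} [NormedAddCommGroup V]
    {Ψ : E × F → V} (hΨ : Continuous Ψ)
    {K : Set F} (hK : Bornology.IsBounded K) (x : E) :
    ∃ C : ℝ, 0 ≤ C ∧ ∀ z ∈ Metric.closedBall x 1, ∀ y ∈ K, ‖Ψ (z, y)‖ ≤ C := by
  have : ProperSpace F := FiniteDimensional.proper_real F
  obtain ⟨C, hC⟩ := ((isCompact_closedBall x 1).prod hK.isCompact_closure).exists_bound_of_continuousOn
    hΨ.continuousOn
  exact ⟨|C|, abs_nonneg C, fun z hz y hy => (hC (z, y) ⟨hz, subset_closure hy⟩).trans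
    (le_abs_self C)⟩

omit [FiniteDimensional ℝ H] [FiniteDimensional ℝ G] in
theorem paramC_integrable {μ : Measure F} {Φ : E × F → (G →L[ℝ] H)} (hΦ : Continuous Φ)
    {g : F → G} (hg : Integrable g μ) {K : Set F}
    (hK : Bornology.IsBounded K) (hgK : ∀ y ∉ K, g y = 0) (x : E) :
    Integrable (fun y => Φ (x, y) (g y)) μ := by
  have : ProperSpace E := FiniteDimensional.proper_real E
  obtain ⟨C, hC0, hC⟩ := paramC_bound hΦ hK x
  refine Integrable.mono' (hg.norm.const_mul C) (paramC_meas hΦ hg x) ?_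
  refine Eventually.of_forall fun y => ?_
  by_cases hy : y ∈ K
  · exact (ContinuousLinearMap.le_opNorm _ _).trans
      (mul_le_mul_of_nonneg_right (hC x (Metric.mem_closedBall_self zero_le_one) y hy)
        (norm_nonneg _))
  · simp [hgK y hy]

omit [FiniteDimensional ℝ H] in
theorem paramC_hasFDerivAt {μ : Measure F} {Φ : E × F → (G →L[ℝ] H)} (hΦ : ContDiff ℝ ∞ Φ)
    {g : F → G} (hg : Integrable g μ) {K : Set F}
    (hK : Bornology.IsBounded K) (hgK : ∀ y ∉ K, g y = 0) (x : E) :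
    HasFDerivAt (fun x => ∫ y, Φ (x, y) (g y) ∂μ)
      (∫ y, (((fderiv ℝ Φ (x, y)).comp (ContinuousLinearMap.inl ℝ E F)).flip (g y)) ∂μ) x := by
  have : ProperSpace E := FiniteDimensional.proper_real E
  have : ProperSpace F := FiniteDimensional.proper_real F
  set Ψ : E × F → (G →L[ℝ] (E →L[ℝ] H)) := fun z =>
    ((fderiv ℝ Φ z).comp (ContinuousLinearMap.inl ℝ E F)).flip with hΨ
  have hΨc : Continuous Ψ := by
    have h1 : Continuous (fun z => (fderiv ℝ Φ z).comp (ContinuousLinearMap.inl ℝ E F)) :=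
      (hΦ.continuous_fderiv (by simp)).clm_comp continuous_const
    exact (ContinuousLinearMap.flipₗᵢ ℝ E G H).continuous.comp h1
  obtain ⟨C, hC0, hC⟩ := paramC_bound (V := G →L[ℝ] (E →L[ℝ] H)) (Ψ := Ψ) hΨc hK x
  refine hasFDerivAt_integral_of_dominated_of_fderiv_le (bound := fun y => C * ‖g y‖)
    (F := fun x y => Φ (x, y) (g y)) (F' := fun x y => Ψ (x, y) (g y))
    (Metric.closedBall_mem_nhds x zero_lt_one) ?_ ?_ ?_ ?_ (hg.norm.const_mul C) ?_
  · exact Eventually.of_forall fun z => paramC_meas hΦ.continuous hg z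
  · exact paramC_integrable hΦ.continuous hg hK hgK x
  · exact paramC_meas hΨc hg x
  · refine Eventually.of_forall fun y z hz => ?_
    by_cases hy : y ∈ K
    · exact (ContinuousLinearMap.le_opNorm _ _).trans
        (mul_le_mul_of_nonneg_right (hC z hz y hy) (norm_nonneg _))
    · simp [hgK y hy]
  · refine Eventually.of_forall fun y z _ => ?_
    have h1 := (hasFDerivAt_fst hΦ z y).clm_apply (hasFDerivAt_const (g y) z)
    refine h1.congr_fderiv ?_
    ext v
    simp [hΨ]

omit [FiniteDimensional ℝ H] in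
theorem paramC_fderiv_apply {μ : Measure F} {Φ : E × F → (G →L[ℝ] H)} (hΦ : ContDiff ℝ ∞ Φ)
    {g : F → G} (hg : Integrable g μ) {K : Set F}
    (hK : Bornology.IsBounded K) (hgK : ∀ y ∉ K, g y = 0) (x v : E) [CompleteSpace H] :
    fderiv ℝ (fun x => ∫ y, Φ (x, y) (g y) ∂μ) x v = ∫ y, pdir Φ v (x, y) (g y) ∂μ := by
  set Ψ : E × F → (G →L[ℝ] (E →L[ℝ] H)) := fun z =>
    ((fderiv ℝ Φ z).comp (ContinuousLinearMap.inl ℝ E F)).flip with hΨ
  have hΨc : Continuous Ψ := by
    have h1 : Continuous (fun z => (fderiv ℝ Φ z).comp (ContinuousLinearMap.inl ℝ E F)) :=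
      (hΦ.continuous_fderiv (by simp)).clm_comp continuous_const
    exact (ContinuousLinearMap.flipₗᵢ ℝ E G H).continuous.comp h1
  rw [(paramC_hasFDerivAt hΦ hg hK hgK x).fderiv]
  have h1 : Integrable (fun y => Ψ (x, y) (g y)) μ := paramC_integrable hΨc hg hK hgK x
  rw [ContinuousLinearMap.integral_apply h1]
  refine integral_congr_ae (Eventually.of_forall fun y => ?_)
  simp [pdir, hΨ]

theorem paramC_contDiff_nat {μ : Measure F} {g : F → G} (hg : Integrable g μ) {K : Set F}
    (hK : Bornology.IsBounded K) (hgK : ∀ y ∉ K, g y = 0) (n : ℕ) :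
    ∀ {Φ : E × F → (G →L[ℝ] H)}, ContDiff ℝ ∞ Φ →
      ContDiff ℝ n (fun x => ∫ y, Φ (x, y) (g y) ∂μ) := by
  have : CompleteSpace H := FiniteDimensional.complete ℝ H
  induction n with
  | zero =>
    intro Φ hΦ
    refine contDiff_zero.mpr ?_
    exact (fun x => (paramC_hasFDerivAt hΦ hg hK hgK x).continuousAt : ∀ x, ContinuousAt _ x)
      |> continuous_iff_continuousAt.mpr
  | succ n ih =>
    intro Φ hΦ
    rw [Nat.cast_succ, contDiff_succ_iff_fderiv_apply]
    refine ⟨fun x => (paramC_hasFDerivAt hΦ hg hK hgK x).differentiableAt, ?_, fun v => ?_⟩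
    · intro h
      exact absurd h (WithTop.natCast_ne_top n)
    · have h1 : (fun x => fderiv ℝ (fun x => ∫ y, Φ (x, y) (g y) ∂μ) x v) =
          fun x => ∫ y, pdir Φ v (x, y) (g y) ∂μ :=
        funext fun x => paramC_fderiv_apply hΦ hg hK hgK x v
      rw [h1]
      exact ih (contDiff_pdir hΦ v)

/-- Differentiation under the integral sign, all orders.  Φ is jointly smooth, g is integrable and
vanishes outside the bounded set K.  Proof by induction on the order, using
`hasFDerivAt_integral_of_dominated_of_fderiv_le` (the derivative of x ↦ Φ (x, y) (g y) is bounded by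
C ‖g y‖ for x in a ball and y in K, by compactness), the derivative being again of the same
form with Φ replaced by its partial derivative (with values in G →L[ℝ] (E →L[ℝ] H)). -/
theorem contDiff_integral_param {μ : Measure F} (Φ : E × F → (G →L[ℝ] H)) (hΦ : ContDiff ℝ ∞ Φ)
    (g : F → G) (hg : Integrable g μ) (K : Set F) (hK : Bornology.IsBounded K)
    (hgK : ∀ y ∉ K, g y = 0) :
    ContDiff ℝ ∞ (fun x => ∫ y, Φ (x, y) (g y) ∂μ) :=
  contDiff_infty.mpr fun n => paramC_contDiff_nat hg hK hgK n hΦ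

/-- the iterated derivative of a parameter integral is the integral of the iterated derivatives -/
theorem iteratedFDeriv_integral_apply {μ : Measure F} {g : F → G} (hg : Integrable g μ) {K : Set F}
    (hK : Bornology.IsBounded K) (hgK : ∀ y ∉ K, g y = 0) (j : ℕ) :
    ∀ {Φ : E × F → (G →L[ℝ] H)}, ContDiff ℝ ∞ Φ → ∀ (x : E) (m : Fin j → E),
      iteratedFDeriv ℝ j (fun x => ∫ y, Φ (x, y) (g y) ∂μ) x m =
        ∫ y, (iteratedFDeriv ℝ j (fun x => Φ (x, y)) x m) (g y) ∂μ := by
  have : CompleteSpace H := FiniteDimensional.complete ℝ H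
  induction j with
  | zero =>
    intro Φ hΦ x m
    simp
  | succ j ih =>
    intro Φ hΦ x m
    have hI : ContDiff ℝ ∞ (fun x => ∫ y, Φ (x, y) (g y) ∂μ) :=
      contDiff_integral_param Φ hΦ g hg K hK hgK
    have hI' : ContDiff ℝ ∞ (fderiv ℝ (fun x => ∫ y, Φ (x, y) (g y) ∂μ)) :=
      hI.fderiv_right (m := ∞) (by simp)
    rw [iteratedFDeriv_succ_apply_right, ← iteratedFDeriv_clm_apply_const_apply (n := ∞) hI'
      (by exact_mod_cast le_top)]
    have h1 : (fun z => fderiv ℝ (fun x => ∫ y, Φ (x, y) (g y) ∂μ) z (m (Fin.last j))) =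
        fun x => ∫ y, pdir Φ (m (Fin.last j)) (x, y) (g y) ∂μ :=
      funext fun x => paramC_fderiv_apply hΦ hg hK hgK x _
    rw [h1, ih (contDiff_pdir hΦ _)]
    refine integral_congr_ae (Eventually.of_forall fun y => ?_)
    simp only
    have hP : ContDiff ℝ ∞ (fun x => Φ (x, y)) := hΦ.comp (by fun_prop)
    have hP' : ContDiff ℝ ∞ (fderiv ℝ (fun x => Φ (x, y))) := hP.fderiv_right (m := ∞) (by simp)
    rw [iteratedFDeriv_succ_apply_right, ← iteratedFDeriv_clm_apply_const_apply (n := ∞) hP'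
      (by exact_mod_cast le_top)]
    have h2 : (fun z => fderiv ℝ (fun x => Φ (x, y)) z (m (Fin.last j))) =
        fun x => pdir Φ (m (Fin.last j)) (x, y) :=
      funext fun x => fderiv_fst_apply hΦ x y _
    rw [h2]

/-- bound of the iterated derivatives -/
theorem norm_iteratedFDeriv_integral_le {μ : Measure F} (Φ : E × F → (G →L[ℝ] H))
    (hΦ : ContDiff ℝ ∞ Φ) (g : F → G) (hg : Integrable g μ) (K : Set F)
    (hK : Bornology.IsBounded K) (hgK : ∀ y ∉ K, g y = 0) (j : ℕ) (x : E) :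
    ‖iteratedFDeriv ℝ j (fun x => ∫ y, Φ (x, y) (g y) ∂μ) x‖ ≤
      ∫ y, ‖iteratedFDeriv ℝ j (fun x => Φ (x, y)) x‖ * ‖g y‖ ∂μ := by
  have : ProperSpace E := FiniteDimensional.proper_real E
  have : ProperSpace F := FiniteDimensional.proper_real F
  have hcont : Continuous (fun z : E × F => ‖iteratedFDeriv ℝ j Φ z‖) :=
    (hΦ.continuous_iteratedFDeriv (by exact_mod_cast le_top)).norm
  have hcont2 : Continuous (fun y : F => iteratedFDeriv ℝ j (fun x => Φ (x, y)) x) := by
    have h1 : (fun y : F => iteratedFDeriv ℝ j (fun x => Φ (x, y)) x) =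
        fun y => (ContinuousMultilinearMap.compContinuousLinearMapL
          (fun _ : Fin j => ContinuousLinearMap.inl ℝ E F)) (iteratedFDeriv ℝ j Φ (x, y)) := by
      funext y
      rw [iteratedFDeriv_partial_eq Φ hΦ]
      rfl
    rw [h1]
    exact (ContinuousLinearMap.continuous _).comp
      ((hΦ.continuous_iteratedFDeriv (m := j) (by exact_mod_cast le_top)).comp (by fun_prop))
  obtain ⟨C, hC0, hC⟩ := paramC_bound (hΦ.continuous_iteratedFDeriv (m := j)
    (by exact_mod_cast le_top)) hK x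
  have hint : Integrable (fun y => ‖iteratedFDeriv ℝ j (fun x => Φ (x, y)) x‖ * ‖g y‖) μ := by
    refine Integrable.mono' (hg.norm.const_mul C)
      (hcont2.norm.aestronglyMeasurable.mul hg.1.norm) ?_
    refine Eventually.of_forall fun y => ?_
    rw [Real.norm_of_nonneg (by positivity)]
    by_cases hy : y ∈ K
    · exact mul_le_mul_of_nonneg_right ((norm_iteratedFDeriv_partial_le Φ hΦ x y j).trans
        (hC x (Metric.mem_closedBall_self zero_le_one) y hy)) (norm_nonneg _)
    · simp [hgK y hy]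
  refine ContinuousMultilinearMap.opNorm_le_bound
    (integral_nonneg fun y => by positivity) fun m => ?_
  rw [iteratedFDeriv_integral_apply hg hK hgK j hΦ x m]
  refine (norm_integral_le_integral_norm _).trans ?_
  rw [← integral_mul_const]
  refine integral_mono_of_nonneg (Eventually.of_forall fun y => norm_nonneg _)
    (hint.mul_const _) (Eventually.of_forall fun y => ?_)
  simp only
  calc ‖(iteratedFDeriv ℝ j (fun x => Φ (x, y)) x m) (g y)‖
      ≤ ‖iteratedFDeriv ℝ j (fun x => Φ (x, y)) x m‖ * ‖g y‖ := ContinuousLinearMap.le_opNorm _ _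
    _ ≤ (‖iteratedFDeriv ℝ j (fun x => Φ (x, y)) x‖ * ∏ i, ‖m i‖) * ‖g y‖ :=
        mul_le_mul_of_nonneg_right (ContinuousMultilinearMap.le_opNorm _ _) (norm_nonneg _)
    _ = ‖iteratedFDeriv ℝ j (fun x => Φ (x, y)) x‖ * ‖g y‖ * ∏ i, ‖m i‖ := by ring

/-- the parameter integral over [0,1] of a jointly smooth function is smooth -/
theorem contDiff_intervalIntegral_param (Φ : E × ℝ → G) (hΦ : ContDiff ℝ ∞ Φ) :
    ContDiff ℝ ∞ (fun x => ∫ t in (0 : ℝ)..1, Φ (x, t)) := by
  set Ψ : E × ℝ → (ℝ →L[ℝ] G) := fun z => ContinuousLinearMap.toSpanSingleton ℝ (Φ z) with hΨ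
  have hΨc : ContDiff ℝ ∞ Ψ := by
    have h1 : Ψ = fun z => (ContinuousLinearMap.toSpanSingletonCLE (𝕜 := ℝ) (E := G)) (Φ z) := by
      rfl
    rw [h1]
    exact ((ContinuousLinearMap.toSpanSingletonCLE (𝕜 := ℝ) (E := G)).contDiff).comp hΦ
  have hg : Integrable (indicator (Ioc (0 : ℝ) 1) (fun _ => (1 : ℝ)))
      (volume.restrict (Ioc (0 : ℝ) 1)) :=
    (integrable_const (1 : ℝ)).indicator measurableSet_Ioc
  have h2 := contDiff_integral_param (μ := volume.restrict (Ioc (0 : ℝ) 1)) Ψ hΨc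
    (indicator (Ioc (0 : ℝ) 1) (fun _ => (1 : ℝ))) hg (Ioc 0 1) (Metric.isBounded_Ioc 0 1)
    (fun y hy => indicator_of_notMem hy _)
  have h3 : (fun x => ∫ t in (0 : ℝ)..1, Φ (x, t)) = fun x =>
      ∫ y, Ψ (x, y) (indicator (Ioc (0 : ℝ) 1) (fun _ => (1 : ℝ)) y)
        ∂(volume.restrict (Ioc (0 : ℝ) 1)) := by
    funext x
    rw [intervalIntegral.integral_of_le zero_le_one]
    refine setIntegral_congr_fun measurableSet_Ioc fun y hy => ?_
    simp [hΨ, indicator_of_mem hy]
  rw [h3]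
  exact h2

end

/-- Hadamard's lemma with parameters:
A (h, x) - A (0, x) = ∫_0^1 (d/dt) A (t h, x) dt = ∑ h_i ∫_0^1 (∂_i A) (t h, x) dt. -/
theorem hadamard {n : ℕ} {E G : Type*} [NormedAddCommGroup E] [NormedSpace ℝ E]
    [FiniteDimensional ℝ E] [NormedAddCommGroup G] [NormedSpace ℝ G] [FiniteDimensional ℝ G]
    (A : EN n × E → G) (hA : ContDiff ℝ ∞ A) :
    ∃ Ai : Fin n → EN n × E → G, (∀ i, ContDiff ℝ ∞ (Ai i)) ∧
      ∀ h x, A (h, x) - A (0, x) = ∑ i, h i • Ai i (h, x) := by
  have : CompleteSpace G := FiniteDimensional.complete ℝ G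
  set B : Fin n → (EN n × E) × ℝ → G := fun i z =>
    fderiv ℝ A (z.2 • z.1.1, z.1.2) (EuclideanSpace.single i (1 : ℝ), 0) with hB
  have hBs : ∀ i, ContDiff ℝ ∞ (B i) := by
    intro i
    have h1 : ContDiff ℝ ∞ (fun z : (EN n × E) × ℝ => fderiv ℝ A (z.2 • z.1.1, z.1.2)) :=
      (hA.fderiv_right (m := ∞) (by simp)).comp
        ((contDiff_snd.smul (contDiff_fst.comp contDiff_fst)).prodMk
          (contDiff_snd.comp contDiff_fst))
    exact h1.clm_apply contDiff_const
  refine ⟨fun i z => ∫ t in (0 : ℝ)..1, B i (z, t), fun i =>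
    contDiff_intervalIntegral_param (B i) (hBs i), fun h x => ?_⟩
  have hd : ∀ t : ℝ, HasDerivAt (fun t : ℝ => A (t • h, x)) (fderiv ℝ A (t • h, x) (h, 0)) t := by
    intro t
    have h1 : HasDerivAt (fun t : ℝ => (t • h, x)) ((1 : ℝ) • h, (0 : E)) t :=
      ((hasDerivAt_id t).smul_const h).prodMk (hasDerivAt_const t x)
    rw [one_smul] at h1
    exact ((hA.differentiable (by simp) (t • h, x)).hasFDerivAt).comp_hasDerivAt t h1
  have hh : ((h, 0) : EN n × E) = ∑ i, h i • ((EuclideanSpace.single i (1 : ℝ), 0) : EN n × E) := by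
    refine Prod.ext ?_ ?_
    · rw [Prod.fst_sum]
      ext k
      simp [Pi.single_apply]
    · rw [Prod.snd_sum]
      simp
  have hd2 : ∀ t : ℝ, fderiv ℝ A (t • h, x) (h, 0) = ∑ i, h i • B i ((h, x), t) := by
    intro t
    rw [hh, map_sum]
    refine Finset.sum_congr rfl fun i _ => ?_
    rw [map_smul]
  have hcB : ∀ i, Continuous (fun t : ℝ => B i ((h, x), t)) := fun i =>
    (hBs i).continuous.comp (by fun_prop)
  have hint : ∀ i, IntervalIntegrable (fun t => h i • B i ((h, x), t)) volume 0 1 := fun i =>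
    ((hcB i).const_smul (h i)).intervalIntegrable 0 1
  have h3 : ∫ t in (0 : ℝ)..1, fderiv ℝ A (t • h, x) (h, 0) = A ((1 : ℝ) • h, x) - A ((0 : ℝ) • h, x) := by
    refine intervalIntegral.integral_eq_sub_of_hasDerivAt (fun t _ => hd t) ?_
    have h4 : (fun t : ℝ => fderiv ℝ A (t • h, x) (h, 0)) = fun t => ∑ i, h i • B i ((h, x), t) :=
      funext hd2
    rw [h4]
    exact (continuous_finsetSum _ fun i _ => (hcB i).const_smul (h i)).intervalIntegrable 0 1
  rw [one_smul, zero_smul] at h3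
  rw [← h3, intervalIntegral.integral_congr (g := fun t => ∑ i, h i • B i ((h, x), t))
    (fun t _ => hd2 t), intervalIntegral.integral_finsetSum fun i _ => hint i]
  refine Finset.sum_congr rfl fun i _ => ?_
  rw [intervalIntegral.integral_smul]

end Pool.Agent.W_MP_d8b8b7_gt
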