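import Pool.Agent.W_MP_d8b8b7_gt.ExMeas
import Pool.Agent.W_MP_d8b8b7_gt.ParamC

/-!
# Smoothness and algebra of the operators `Op p A δ` and `Rb p δ`
-/

namespace Pool.Agent.W_MP_d8b8b7_gt

open MeasureTheory Set Filter Topology
open scoped ContDiff ENNReal

variable {N : ℕ}

namespace Setup

variable (S : Setup N)

/-- Change of variables y = x + δ s. -/
theorem Op_eq_integral {p : EN N → ℝ} (A : EN N → EN N → (Bil N →L[ℝ] Bil N)) {δ : ℝ} (hδ : 0 < δ)
    (b : EN N → C6) (x : EN N) :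
    S.Op p A δ b x = ∫ y, (δ⁻¹ ^ N * p (δ⁻¹ • (y - x))) • A (y - x) x (S.ex b y) := by
  have h1 : ∀ s : EN N, p s • A (δ • s) x (S.ex b (x + δ • s)) =
      (fun z : EN N => p (δ⁻¹ • z) • A z x (S.ex b (x + z))) (δ • s) := by
    intro s
    simp only [smul_smul, inv_mul_cancel₀ hδ.ne', one_smul]
  have h2 : ∫ y : EN N, (δ⁻¹ ^ N * p (δ⁻¹ • (y - x))) • A (y - x) x (S.ex b y) =
      ∫ y : EN N, (fun z : EN N => (δ⁻¹ ^ N) • (p (δ⁻¹ • z) • A z x (S.ex b (x + z)))) (y - x) := by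
    congr 1
    ext1 y
    simp only [smul_smul, add_sub_cancel]
  unfold Op
  rw [h2, integral_sub_right_eq_self (μ := (volume : Measure (EN N)))
    (fun z : EN N => (δ⁻¹ ^ N) • (p (δ⁻¹ • z) • A z x (S.ex b (x + z)))) x, integral_smul]
  simp only [h1]
  rw [Measure.integral_comp_smul (volume : Measure (EN N))
    (fun z : EN N => p (δ⁻¹ • z) • A z x (S.ex b (x + z))) δ]
  congr 1
  rw [finrank_euclideanSpace_fin, abs_of_pos (by positivity), inv_pow]

/-- `Op p A δ b` is smooth on all of R^N: change of variables and `contDiff_integral_param`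
(`ex b` is integrable and vanishes off the bounded set Ud; p is smooth). -/
theorem contDiff_Op {p : EN N → ℝ} (hp : ContDiff ℝ ∞ p)
    (A : EN N → EN N → (Bil N →L[ℝ] Bil N))
    (hA : ContDiff ℝ ∞ (fun z : EN N × EN N => A z.1 z.2)) {δ : ℝ} (hδ : 0 < δ)
    {b : EN N → C6} (hb : S.L2F b) : ContDiff ℝ ∞ (S.Op p A δ b) := by
  have h1 : S.Op p A δ b = fun x => ∫ y, ((fun z : EN N × EN N =>
      (δ⁻¹ ^ N * p (δ⁻¹ • (z.2 - z.1))) • A (z.2 - z.1) z.1) (x, y)) (S.ex b y) := by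
    ext1 x
    rw [S.Op_eq_integral A hδ b x]
    rfl
  rw [h1]
  have hsub : ContDiff ℝ ∞ (fun z : EN N × EN N => z.2 - z.1) := contDiff_snd.sub contDiff_fst
  refine contDiff_integral_param (E := EN N) (F := EN N) (G := Bil N) (H := Bil N)
    (μ := (volume : Measure (EN N))) (fun z : EN N × EN N =>
      (δ⁻¹ ^ N * p (δ⁻¹ • (z.2 - z.1))) • A (z.2 - z.1) z.1) ?_ (S.ex b) (S.integrable_ex hb)
    S.Ud S.Ud_bounded (fun y hy => S.ex_zero_of_not_mem hy)
  have hsc : ContDiff ℝ ∞ (fun z : EN N × EN N => δ⁻¹ • (z.2 - z.1)) := hsub.const_smul δ⁻¹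
  have hf : ContDiff ℝ ∞ (fun z : EN N × EN N => δ⁻¹ ^ N * p (δ⁻¹ • (z.2 - z.1))) :=
    contDiff_const.mul (hp.comp hsc)
  have hg : ContDiff ℝ ∞ (fun z : EN N × EN N => A (z.2 - z.1) z.1) :=
    hA.comp (hsub.prodMk contDiff_fst)
  exact hf.smul hg

/-- the amplitude of Rb: (h, x) ↦ pull back by D (x + h) -/
noncomputable def ampR (h x : EN N) : Bil N →L[ℝ] Bil N :=
  LinearMap.toContinuousLinearMap
    { toFun := fun β => Bil.pull (S.D (x + h)) β
      map_add' := by intro a b; ext u v; simp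
      map_smul' := by intro c a; ext u v; simp }

theorem ampR_apply (h x : EN N) (β : Bil N) : S.ampR h x β = Bil.pull (S.D (x + h)) β := rfl

theorem smooth_ampR : ContDiff ℝ ∞ (fun z : EN N × EN N => S.ampR z.1 z.2) := by
  rw [contDiff_clm_apply_iff]
  intro β
  simp only [ampR_apply]
  exact Bil.contDiff_pull contDiff_const (S.smooth_D.comp (contDiff_snd.add contDiff_fst))

theorem Rb_eq_Op (p : EN N → ℝ) (δ : ℝ) (b : EN N → C6) : S.Rb p δ b = S.Op p S.ampR δ b := by
  ext1 x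
  rfl

theorem ex_alt (b : EN N → C6) (y v : EN N) : S.ex b y v v = 0 := by
  by_cases hy : y ∈ S.Ud
  · have h1 : S.ex b y = S.rc b (S.rho y) := Set.indicator_of_mem hy _
    rw [h1]
    exact S.rc_alt b _ v
  · rw [S.ex_zero_of_not_mem hy]
    rfl

/-- `Rb p δ b` is a smooth 2-form on R^N (smooth by `contDiff_Op`, alternating because rc is) -/
theorem isForm_Rb {p : EN N → ℝ} (hp : ContDiff ℝ ∞ p) {δ : ℝ} (hδ : 0 < δ)
    {b : EN N → C6} (hb : S.L2F b) : IsForm (S.Rb p δ b) := by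
  constructor
  · rw [S.Rb_eq_Op]
    exact S.contDiff_Op hp _ S.smooth_ampR hδ hb
  · intro x v
    unfold Rb
    by_cases hint : Integrable (fun s : EN N => p s • Bil.pull (S.D (x + δ • s))
        (S.ex b (x + δ • s))) volume
    · rw [Bil.integral_apply hint]
      simp only [Bil.smul_apply, Bil.pull_apply, S.ex_alt, mul_zero, integral_zero]
    · rw [integral_undef hint]
      rfl

theorem integrable_Op {p : EN N → ℝ} (hp : ContDiff ℝ ∞ p) (hps : ∀ s, 1 ≤ ‖s‖ → p s = 0)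
    (A : EN N → EN N → (Bil N →L[ℝ] Bil N))
    (hA : ContDiff ℝ ∞ (fun z : EN N × EN N => A z.1 z.2)) {δ : ℝ} (hδ : 0 < δ)
    {b : EN N → C6} (hb : S.L2F b) (x : EN N) :
    Integrable (fun s : EN N => p s • A (δ • s) x (S.ex b (x + δ • s))) volume := by
  have hg : Integrable (fun s : EN N => S.ex b (x + δ • s)) volume := by
    have h1 : Integrable (fun z : EN N => S.ex b (x + z)) volume :=
      (S.integrable_ex hb).comp_add_left x
    exact h1.comp_smul hδ.ne'
  have hLc : Continuous (fun s : EN N => p s • A (δ • s) x) := by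
    refine hp.continuous.smul ?_
    have : Continuous (fun s : EN N => (δ • s, x)) := by fun_prop
    exact hA.continuous.comp this
  obtain ⟨C, hC⟩ := (isCompact_closedBall (0 : EN N) 1).exists_bound_of_continuousOn
    hLc.continuousOn
  have hbd : ∀ s : EN N, ‖p s • A (δ • s) x‖ ≤ max C 0 := by
    intro s
    by_cases hs : 1 ≤ ‖s‖
    · rw [hps s hs, zero_smul, norm_zero]
      exact le_max_right _ _
    · refine (hC s ?_).trans (le_max_left _ _)
      rw [mem_closedBall_zero_iff]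
      exact (not_le.1 hs).le
  refine Integrable.mono' (hg.norm.const_mul (max C 0)) ?_ (Filter.Eventually.of_forall ?_)
  · exact ContinuousLinearMap.aestronglyMeasurable_comp₂
      (ContinuousLinearMap.id ℝ (Bil N →L[ℝ] Bil N)) hLc.aestronglyMeasurable
      hg.aestronglyMeasurable
  · intro s
    have h1 := (p s • A (δ • s) x).le_opNorm (S.ex b (x + δ • s))
    exact h1.trans (mul_le_mul_of_nonneg_right (hbd s) (norm_nonneg _))

theorem Op_add {p : EN N → ℝ} (hp : ContDiff ℝ ∞ p) (hps : ∀ s, 1 ≤ ‖s‖ → p s = 0)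
    (A : EN N → EN N → (Bil N →L[ℝ] Bil N))
    (hA : ContDiff ℝ ∞ (fun z : EN N × EN N => A z.1 z.2)) {δ : ℝ} (hδ : 0 < δ)
    {b b' : EN N → C6} (hb : S.L2F b) (hb' : S.L2F b') :
    S.Op p A δ (b + b') = S.Op p A δ b + S.Op p A δ b' := by
  ext1 x
  have h1 := S.integrable_Op hp hps A hA hδ hb x
  have h2 := S.integrable_Op hp hps A hA hδ hb' x
  change (∫ s, p s • A (δ • s) x (S.ex (b + b') (x + δ • s))) =
    (∫ s, p s • A (δ • s) x (S.ex b (x + δ • s))) + ∫ s, p s • A (δ • s) x (S.ex b' (x + δ • s))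
  rw [← integral_add h1 h2]
  congr 1
  ext1 s
  rw [S.ex_add, map_add, smul_add]

theorem Op_smul (p : EN N → ℝ) (A : EN N → EN N → (Bil N →L[ℝ] Bil N)) (δ c : ℝ) (b : EN N → C6) :
    S.Op p A δ (c • b) = c • S.Op p A δ b := by
  ext1 x
  change (∫ s, p s • A (δ • s) x (S.ex (c • b) (x + δ • s))) =
    c • ∫ s, p s • A (δ • s) x (S.ex b (x + δ • s))
  rw [← integral_smul]
  congr 1
  ext1 s
  rw [S.ex_smul, map_smul, smul_comm]

end Setup

end Pool.Agent.W_MP_d8b8b7_gt
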