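import Pool.Agent.W_MP_d8b8b7_gt.Tube

/-!
# Pointwise geometry of a Setup

Notation: for x in X, `D x` is the projection on the tangent space `T_x`, `th a x v = g_x(v, f_a)`.
-/

namespace Pool.Agent.W_MP_d8b8b7_gt

open MeasureTheory Set Filter Topology
open scoped ContDiff ENNReal

variable {N : ℕ}

namespace Setup

variable (S : Setup N)

theorem pt_om_skew (x u v : EN N) : S.om x u v = - S.om x v u := by
  have h := S.om_alt x (u + v)
  rw [Bil.add_left, Bil.add_right, Bil.add_right, S.om_alt, S.om_alt] at h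
  linarith

theorem pt_skew {b : Bil N} (hb : ∀ v, b v v = 0) (u v : EN N) : b u v = - b v u := by
  have h := hb (u + v)
  rw [Bil.add_left, Bil.add_right, Bil.add_right, hb, hb] at h
  linarith

theorem pt_JD {x : EN N} (hx : x ∈ S.X) (v : EN N) : S.J x (S.D x v) = S.J x v := S.J_D x hx v

theorem pt_DJ {x : EN N} (hx : x ∈ S.X) (v : EN N) : S.D x (S.J x v) = S.J x v := S.D_J x hx v

theorem pt_JJ {x : EN N} (hx : x ∈ S.X) (v : EN N) : S.J x (S.J x v) = - S.D x v := S.J_J x hx v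

theorem pt_Dfr {x : EN N} (hx : x ∈ S.X) (a : Fin 4) : S.D x (S.fr a x) = S.fr a x :=
  S.fr_tan x hx a

theorem pt_F (x u v : EN N) :
    S.F x u v = (S.om x (S.D x u) (S.D x v) + S.om x (S.J x u) (S.J x v)) / 2 := by
  change ((1 / 2 : ℝ) • (Bil.pull (S.D x) (S.om x) + Bil.pull (S.J x) (S.om x))) u v = _
  simp only [Bil.smul_apply, Bil.add_apply, Bil.pull_apply]
  ring

/-- F is J-invariant -/
theorem pt_F_JJ {x : EN N} (hx : x ∈ S.X) (u v : EN N) :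
    S.F x (S.J x u) (S.J x v) = S.F x u v := by
  rw [S.pt_F, S.pt_F, S.pt_DJ hx, S.pt_DJ hx, S.pt_JJ hx, S.pt_JJ hx]
  simp only [Bil.neg_left, Bil.neg_right]
  ring

theorem pt_th (a : Fin 4) (x v : EN N) : S.th a x v = S.F x v (S.J x (S.fr a x)) := rfl

theorem F_apply {x : EN N} (hx : x ∈ S.X) (u v : EN N) (hu : S.Tan x u) (hv : S.Tan x v) :
    S.F x u v = (S.om x u v + S.om x (S.J x u) (S.J x v)) / 2 := by
  have h1 : S.D x u = u := hu
  have h2 : S.D x v = v := hv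
  rw [S.pt_F, h1, h2]

/-- F is alternating -/
theorem F_alt {x : EN N} (hx : x ∈ S.X) (v : EN N) : S.F x v v = 0 := by
  rw [S.pt_F, S.om_alt, S.om_alt]
  simp

/-- F is J-invariant, hence g(u,v) = F(u, Jv) is symmetric -/
theorem F_J_symm {x : EN N} (hx : x ∈ S.X) (u v : EN N) :
    S.F x u (S.J x v) = S.F x v (S.J x u) := by
  rw [S.pt_F, S.pt_F, S.pt_DJ hx, S.pt_DJ hx, S.pt_JJ hx, S.pt_JJ hx,
    S.pt_om_skew x (S.D x v) (S.J x u), S.pt_om_skew x (S.J x v) (-S.D x u)]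
  simp only [Bil.neg_left, Bil.neg_right]
  ring

theorem F_self {x : EN N} (hx : x ∈ S.X) (v : EN N) (hv : S.Tan x v) :
    S.F x v (S.J x v) = S.om x v (S.J x v) := by
  have h1 : S.D x v = v := hv
  rw [S.pt_F, S.pt_DJ hx, S.pt_JJ hx, h1, S.pt_om_skew x (S.J x v) (-v)]
  simp only [Bil.neg_left]
  ring

/-- `fr 1 = J fr 0`, `J fr 1 = - fr 0`, ... -/
theorem J_fr1 {x : EN N} (hx : x ∈ S.X) : S.J x (S.fr 1 x) = - S.fr 0 x := by
  rw [← S.fr_J0 x hx, S.pt_JJ hx, S.pt_Dfr hx]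

theorem J_fr3 {x : EN N} (hx : x ∈ S.X) : S.J x (S.fr 3 x) = - S.fr 2 x := by
  rw [← S.fr_J2 x hx, S.pt_JJ hx, S.pt_Dfr hx]

theorem th_fr {x : EN N} (hx : x ∈ S.X) (a b : Fin 4) :
    S.th a x (S.fr b x) = if a = b then 1 else 0 := by
  rw [S.pt_th, S.fr_orth x hx b a]
  simp only [eq_comm]

theorem th_D {x : EN N} (hx : x ∈ S.X) (a : Fin 4) (v : EN N) :
    S.th a x (S.D x v) = S.th a x v := by
  rw [S.pt_th, S.pt_th, S.pt_F, S.pt_F, S.D_D hx, S.pt_JD hx]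

/-- coordinates of a tangent vector in the frame -/
noncomputable def crd (x v : EN N) : EN 4 := !₂[S.th 0 x v, S.th 1 x v, S.th 2 x v, S.th 3 x v]

@[simp] theorem pt_crd0 (x v : EN N) : S.crd x v 0 = S.th 0 x v := rfl
@[simp] theorem pt_crd1 (x v : EN N) : S.crd x v 1 = S.th 1 x v := rfl
@[simp] theorem pt_crd2 (x v : EN N) : S.crd x v 2 = S.th 2 x v := rfl
@[simp] theorem pt_crd3 (x v : EN N) : S.crd x v 3 = S.th 3 x v := rfl

theorem pt_D_eq {x : EN N} (hx : x ∈ S.X) (v : EN N) :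
    S.D x v = S.th 0 x v • S.fr 0 x + S.th 1 x v • S.fr 1 x + S.th 2 x v • S.fr 2 x
      + S.th 3 x v • S.fr 3 x := by
  have h := S.fr_span x hx v
  rw [Fin.sum_univ_four] at h
  exact h

theorem pt_th_J {x : EN N} (hx : x ∈ S.X) (a : Fin 4) (v : EN N) :
    S.th a x (S.J x v) = S.F x v (S.fr a x) := by
  rw [S.pt_th, S.pt_F_JJ hx]

theorem pt_th0_J {x : EN N} (hx : x ∈ S.X) (v : EN N) : S.th 0 x (S.J x v) = - S.th 1 x v := by
  rw [S.pt_th_J hx, S.pt_th, S.J_fr1 hx, Bil.neg_right, neg_neg]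

theorem pt_th1_J {x : EN N} (hx : x ∈ S.X) (v : EN N) : S.th 1 x (S.J x v) = S.th 0 x v := by
  rw [S.pt_th_J hx, S.pt_th, S.fr_J0 x hx]

theorem pt_th2_J {x : EN N} (hx : x ∈ S.X) (v : EN N) : S.th 2 x (S.J x v) = - S.th 3 x v := by
  rw [S.pt_th_J hx, S.pt_th, S.J_fr3 hx, Bil.neg_right, neg_neg]

theorem pt_th3_J {x : EN N} (hx : x ∈ S.X) (v : EN N) : S.th 3 x (S.J x v) = S.th 2 x v := by
  rw [S.pt_th_J hx, S.pt_th, S.fr_J2 x hx]

theorem sum_crd {x : EN N} (hx : x ∈ S.X) (v : EN N) :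
    ∑ a, S.crd x v a • S.fr a x = S.D x v := by
  rw [Fin.sum_univ_four, S.pt_D_eq hx]
  rfl

/-- coordinates of J v: (-v1, v0, -v3, v2) -/
theorem crd_J {x : EN N} (hx : x ∈ S.X) (v : EN N) :
    S.crd x (S.J x v) = !₂[- S.crd x v 1, S.crd x v 0, - S.crd x v 3, S.crd x v 2] := by
  ext i
  fin_cases i
  · exact S.pt_th0_J hx v
  · exact S.pt_th1_J hx v
  · exact S.pt_th2_J hx v
  · exact S.pt_th3_J hx v

/-- every coordinate vector is attained -/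
theorem crd_sum {x : EN N} (hx : x ∈ S.X) (c : EN 4) :
    S.crd x (∑ a, c a • S.fr a x) = c := by
  have key : ∀ b : Fin 4, S.th b x (∑ a, c a • S.fr a x) = c b := by
    intro b
    rw [map_sum]
    simp only [map_smul, S.th_fr hx, smul_eq_mul, mul_ite, mul_one, mul_zero,
      Finset.sum_ite_eq, Finset.mem_univ, if_true]
  ext i
  fin_cases i
  · exact key 0
  · exact key 1
  · exact key 2
  · exact key 3

theorem norm_crd_sq {x : EN N} (hx : x ∈ S.X) (v : EN N) (hv : S.Tan x v) :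
    ‖S.crd x v‖ ^ 2 = S.om x v (S.J x v) := by
  rw [← S.F_self hx v hv, EuclideanSpace.norm_sq_eq, Fin.sum_univ_four]
  simp only [pt_crd0, pt_crd1, pt_crd2, pt_crd3, Real.norm_eq_abs, sq_abs]
  have h1 : S.D x v = v := hv
  have h2 : S.F x v (S.J x v) = S.F x (S.D x v) (S.J x v) := by rw [h1]
  rw [h2, S.pt_D_eq hx v]
  simp only [Bil.add_left, Bil.smul_left]
  rw [S.F_J_symm hx (S.fr 0 x) v, S.F_J_symm hx (S.fr 1 x) v, S.F_J_symm hx (S.fr 2 x) v,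
    S.F_J_symm hx (S.fr 3 x) v]
  simp only [← S.pt_th]
  ring

theorem rc_apply (b : EN N → C6) (x u v : EN N) :
    S.rc b x u v = b x 0 * (S.th 0 x u * S.th 1 x v - S.th 0 x v * S.th 1 x u)
      + b x 1 * (S.th 0 x u * S.th 2 x v - S.th 0 x v * S.th 2 x u)
      + b x 2 * (S.th 0 x u * S.th 3 x v - S.th 0 x v * S.th 3 x u)
      + b x 3 * (S.th 1 x u * S.th 2 x v - S.th 1 x v * S.th 2 x u)
      + b x 4 * (S.th 1 x u * S.th 3 x v - S.th 1 x v * S.th 3 x u)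
      + b x 5 * (S.th 2 x u * S.th 3 x v - S.th 2 x v * S.th 3 x u) := by
  unfold rc
  simp only [Bil.add_apply, Bil.smul_apply, Bil.asym_apply]
  ring

theorem pt_comp6_0 (b : Bil N) (f : Fin 4 → EN N) : comp6 b f 0 = b (f 0) (f 1) := rfl
theorem pt_comp6_1 (b : Bil N) (f : Fin 4 → EN N) : comp6 b f 1 = b (f 0) (f 2) := rfl
theorem pt_comp6_2 (b : Bil N) (f : Fin 4 → EN N) : comp6 b f 2 = b (f 0) (f 3) := rfl
theorem pt_comp6_3 (b : Bil N) (f : Fin 4 → EN N) : comp6 b f 3 = b (f 1) (f 2) := rfl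
theorem pt_comp6_4 (b : Bil N) (f : Fin 4 → EN N) : comp6 b f 4 = b (f 1) (f 3) := rfl
theorem pt_comp6_5 (b : Bil N) (f : Fin 4 → EN N) : comp6 b f 5 = b (f 2) (f 3) := rfl

/-- two elements of `C6` with the same components are equal -/
theorem pt_ext6 {a b : C6} (h0 : a 0 = b 0) (h1 : a 1 = b 1) (h2 : a 2 = b 2) (h3 : a 3 = b 3)
    (h4 : a 4 = b 4) (h5 : a 5 = b 5) : a = b := by
  ext i
  fin_cases i
  · exact h0
  · exact h1
  · exact h2
  · exact h3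
  · exact h4
  · exact h5

theorem cp_rc {x : EN N} (hx : x ∈ S.X) (b : EN N → C6) : S.cp (S.rc b) x = b x := by
  have h : ∀ i j : Fin 4, S.th i x (S.fr j x) = if i = j then 1 else 0 := S.th_fr hx
  apply pt_ext6
  · change S.rc b x (S.fr 0 x) (S.fr 1 x) = _
    rw [S.rc_apply]; simp [h]
  · change S.rc b x (S.fr 0 x) (S.fr 2 x) = _
    rw [S.rc_apply]; simp [h]
  · change S.rc b x (S.fr 0 x) (S.fr 3 x) = _
    rw [S.rc_apply]; simp [h]
  · change S.rc b x (S.fr 1 x) (S.fr 2 x) = _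
    rw [S.rc_apply]; simp [h]
  · change S.rc b x (S.fr 1 x) (S.fr 3 x) = _
    rw [S.rc_apply]; simp [h]
  · change S.rc b x (S.fr 2 x) (S.fr 3 x) = _
    rw [S.rc_apply]; simp [h]

theorem rc_cp {x : EN N} (hx : x ∈ S.X) (β : EN N → Bil N) (hβ : ∀ v, β x v v = 0) :
    S.rc (S.cp β) x = Bil.pull (S.D x) (β x) := by
  ext u v
  rw [S.rc_apply, Bil.pull_apply, S.pt_D_eq hx u, S.pt_D_eq hx v]
  change β x (S.fr 0 x) (S.fr 1 x) * _ + β x (S.fr 0 x) (S.fr 2 x) * _ +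
    β x (S.fr 0 x) (S.fr 3 x) * _ + β x (S.fr 1 x) (S.fr 2 x) * _ +
    β x (S.fr 1 x) (S.fr 3 x) * _ + β x (S.fr 2 x) (S.fr 3 x) * _ = _
  simp only [Bil.add_left, Bil.add_right, Bil.smul_left, Bil.smul_right, hβ]
  rw [pt_skew hβ (S.fr 1 x) (S.fr 0 x), pt_skew hβ (S.fr 2 x) (S.fr 0 x),
    pt_skew hβ (S.fr 3 x) (S.fr 0 x), pt_skew hβ (S.fr 2 x) (S.fr 1 x),
    pt_skew hβ (S.fr 3 x) (S.fr 1 x), pt_skew hβ (S.fr 3 x) (S.fr 2 x)]
  ring

theorem pull_D_rc {x : EN N} (hx : x ∈ S.X) (b : EN N → C6) :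
    Bil.pull (S.D x) (S.rc b x) = S.rc b x := by
  ext u v
  rw [Bil.pull_apply, S.rc_apply, S.rc_apply]
  simp only [S.th_D hx]

theorem rc_alt (b : EN N → C6) (x v : EN N) : S.rc b x v v = 0 := by
  rw [S.rc_apply]
  ring

theorem rc_apply_J {x : EN N} (hx : x ∈ S.X) (b : EN N → C6) (v : EN N) :
    S.rc b x v (S.J x v) = evc (b x) (S.crd x v) := by
  rw [S.rc_apply, S.pt_th0_J hx, S.pt_th1_J hx, S.pt_th2_J hx, S.pt_th3_J hx]
  unfold evc
  simp only [pt_crd0, pt_crd1, pt_crd2, pt_crd3]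
  ring

/-- value on a complex line: for an alternating form, `β(v, Jv) = evc (cp β) (crd v)` -/
theorem apply_J {x : EN N} (hx : x ∈ S.X) (β : EN N → Bil N) (hβ : ∀ v, β x v v = 0)
    (v : EN N) (hv : S.Tan x v) : β x v (S.J x v) = evc (S.cp β x) (S.crd x v) := by
  rw [← S.rc_apply_J hx (S.cp β) v, S.rc_cp hx β hβ, Bil.pull_apply, S.pt_DJ hx]
  have h1 : S.D x v = v := hv
  rw [h1]

theorem pos6_cp_iff {x : EN N} (hx : x ∈ S.X) (β : EN N → Bil N) (hβ : ∀ v, β x v v = 0) :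
    Pos6 (S.cp β x) ↔ ∀ v, S.Tan x v → 0 ≤ β x v (S.J x v) := by
  constructor
  · intro h v hv
    rw [S.apply_J hx β hβ v hv]
    exact h _
  · intro h c
    have ht : S.Tan x (∑ a, c a • S.fr a x) := by
      change S.D x _ = _
      rw [map_sum]
      simp only [map_smul, S.pt_Dfr hx]
    have h1 := h _ ht
    rwa [S.apply_J hx β hβ _ ht, S.crd_sum hx] at h1

theorem cp_inv {x : EN N} (hx : x ∈ S.X) (β : EN N → Bil N) (hβ : ∀ v, β x v v = 0) :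
    S.cp (S.inv β) x = pr1 (S.cp β x) := by
  have h : ∀ i j : Fin 4, S.inv β x (S.fr i x) (S.fr j x) =
      (β x (S.fr i x) (S.fr j x) + β x (S.J x (S.fr i x)) (S.J x (S.fr j x))) / 2 := by
    intro i j
    change ((1 / 2 : ℝ) • (Bil.pull (S.D x) (β x) + Bil.pull (S.J x) (β x))) _ _ = _
    simp only [Bil.smul_apply, Bil.add_apply, Bil.pull_apply, S.pt_Dfr hx]
    ring
  have j0 := S.fr_J0 x hx
  have j1 := S.J_fr1 hx
  have j2 := S.fr_J2 x hx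
  have j3 := S.J_fr3 hx
  apply pt_ext6
  · change S.inv β x (S.fr 0 x) (S.fr 1 x) = β x (S.fr 0 x) (S.fr 1 x)
    rw [h, j0, j1, Bil.neg_right, pt_skew hβ (S.fr 1 x) (S.fr 0 x)]
    ring
  · change S.inv β x (S.fr 0 x) (S.fr 2 x) =
      (β x (S.fr 0 x) (S.fr 2 x) + β x (S.fr 1 x) (S.fr 3 x)) / 2
    rw [h, j0, j2]
  · change S.inv β x (S.fr 0 x) (S.fr 3 x) =
      (β x (S.fr 0 x) (S.fr 3 x) - β x (S.fr 1 x) (S.fr 2 x)) / 2
    rw [h, j0, j3, Bil.neg_right]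
    ring
  · change S.inv β x (S.fr 1 x) (S.fr 2 x) =
      (β x (S.fr 1 x) (S.fr 2 x) - β x (S.fr 0 x) (S.fr 3 x)) / 2
    rw [h, j1, j2, Bil.neg_left]
    ring
  · change S.inv β x (S.fr 1 x) (S.fr 3 x) =
      (β x (S.fr 0 x) (S.fr 2 x) + β x (S.fr 1 x) (S.fr 3 x)) / 2
    rw [h, j1, j3, Bil.neg_left, Bil.neg_right]
    ring
  · change S.inv β x (S.fr 2 x) (S.fr 3 x) = β x (S.fr 2 x) (S.fr 3 x)
    rw [h, j2, j3, Bil.neg_right, pt_skew hβ (S.fr 3 x) (S.fr 2 x)]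
    ring

theorem cp_anti {x : EN N} (hx : x ∈ S.X) (β : EN N → Bil N) (hβ : ∀ v, β x v v = 0) :
    S.cp (S.anti β) x = pr2 (S.cp β x) := by
  have h : ∀ i j : Fin 4, S.anti β x (S.fr i x) (S.fr j x) =
      (β x (S.fr i x) (S.fr j x) - β x (S.J x (S.fr i x)) (S.J x (S.fr j x))) / 2 := by
    intro i j
    change ((1 / 4 : ℝ) • ((Bil.pull (S.D x) (β x) - Bil.pull (S.J x) (β x)) -
      (Bil.pull (S.D x) (β x) - Bil.pull (S.J x) (β x)).flip)) _ _ = _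
    simp only [Bil.smul_apply, Bil.sub_apply, Bil.flip_apply, Bil.pull_apply, S.pt_Dfr hx]
    rw [pt_skew hβ (S.fr j x) (S.fr i x), pt_skew hβ (S.J x (S.fr j x)) (S.J x (S.fr i x))]
    ring
  have j0 := S.fr_J0 x hx
  have j1 := S.J_fr1 hx
  have j2 := S.fr_J2 x hx
  have j3 := S.J_fr3 hx
  apply pt_ext6
  · change S.anti β x (S.fr 0 x) (S.fr 1 x) = 0
    rw [h, j0, j1, Bil.neg_right, pt_skew hβ (S.fr 1 x) (S.fr 0 x)]
    ring
  · change S.anti β x (S.fr 0 x) (S.fr 2 x) =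
      (β x (S.fr 0 x) (S.fr 2 x) - β x (S.fr 1 x) (S.fr 3 x)) / 2
    rw [h, j0, j2]
  · change S.anti β x (S.fr 0 x) (S.fr 3 x) =
      (β x (S.fr 0 x) (S.fr 3 x) + β x (S.fr 1 x) (S.fr 2 x)) / 2
    rw [h, j0, j3, Bil.neg_right]
    ring
  · change S.anti β x (S.fr 1 x) (S.fr 2 x) =
      (β x (S.fr 0 x) (S.fr 3 x) + β x (S.fr 1 x) (S.fr 2 x)) / 2
    rw [h, j1, j2, Bil.neg_left]
    ring
  · change S.anti β x (S.fr 1 x) (S.fr 3 x) =
      (β x (S.fr 1 x) (S.fr 3 x) - β x (S.fr 0 x) (S.fr 2 x)) / 2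
    rw [h, j1, j3, Bil.neg_left, Bil.neg_right]
    ring
  · change S.anti β x (S.fr 2 x) (S.fr 3 x) = 0
    rw [h, j2, j3, Bil.neg_right, pt_skew hβ (S.fr 3 x) (S.fr 2 x)]
    ring

theorem cp_F {x : EN N} (hx : x ∈ S.X) : S.cp S.F x = Fc := by
  have j0 := S.fr_J0 x hx
  have j2 := S.fr_J2 x hx
  have j3 := S.J_fr3 hx
  have o := S.fr_orth x hx
  have o3 : ∀ i : Fin 4, S.F x (S.fr i x) (S.fr 2 x) = - S.F x (S.fr i x) (S.J x (S.fr 3 x)) := by
    intro i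
    rw [j3, Bil.neg_right, neg_neg]
  apply pt_ext6
  · change S.F x (S.fr 0 x) (S.fr 1 x) = 1
    rw [← j0, o]; simp
  · change S.F x (S.fr 0 x) (S.fr 2 x) = 0
    rw [o3, o]; simp
  · change S.F x (S.fr 0 x) (S.fr 3 x) = 0
    rw [← j2, o]; simp
  · change S.F x (S.fr 1 x) (S.fr 2 x) = 0
    rw [o3, o]; simp
  · change S.F x (S.fr 1 x) (S.fr 3 x) = 0
    rw [← j2, o]; simp
  · change S.F x (S.fr 2 x) (S.fr 3 x) = 1
    rw [← j2, o]; simp

theorem cp_add (β γ : EN N → Bil N) (x : EN N) : S.cp (β + γ) x = S.cp β x + S.cp γ x := by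
  apply pt_ext6 <;> rfl

theorem cp_smul (c : ℝ) (β : EN N → Bil N) (x : EN N) : S.cp (c • β) x = c • S.cp β x := by
  apply pt_ext6 <;> rfl

end Setup

end Pool.Agent.W_MP_d8b8b7_gt
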