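import Pool.Agent.W_MP_d8b8b7_gt.Basic
import Pool.Agent.W_MP_d8b8b7_gt.DD

/-!
The a-priori inequalities (S1): a smooth exact (or closed) form with (1,1) part ≥ -F.
-/

namespace Pool.Agent.W_MP_d8b8b7_gt

open MeasureTheory Set Filter Topology
open scoped ContDiff ENNReal

/-- squared length of the anti-invariant part -/
noncomputable def hb_a2 (c : C6) : ℝ := ((c 1 - c 4) ^ 2 + (c 2 + c 3) ^ 2) / 2

/-- product of the anti-invariant parts -/
noncomputable def hb_ai (o c : C6) : ℝ := o 1 * (c 1 - c 4) + o 2 * (c 2 + c 3)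

/-- determinant of the (1,1) form T = pr1 c + F -/
noncomputable def hb_dt (c : C6) : ℝ :=
  2 * ((c 0 + 1) * (c 5 + 1) - (((c 1 + c 4) / 2) ^ 2 + ((c 2 - c 3) / 2) ^ 2))

theorem hb_wedge_self (c : C6) : wedge c c = hb_dt c - 2 * (c 0 + c 5 + 2) + 2 + hb_a2 c := by
  unfold wedge hb_dt hb_a2; ring

/-- shape of the components of om -/
def hb_OmShape (o : C6) : Prop := o 0 = 1 ∧ o 5 = 1 ∧ o 4 = - o 1 ∧ o 3 = o 2

theorem hb_wedge_om {o : C6} (ho : hb_OmShape o) (c : C6) : wedge o c = c 0 + c 5 + hb_ai o c := by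
  obtain ⟨h0, h5, h4, h3⟩ := ho
  unfold wedge hb_ai; rw [h0, h5, h4, h3]; ring

theorem hb_wedge_om_om {o : C6} (ho : hb_OmShape o) : wedge o o = 2 + hb_a2 o := by
  obtain ⟨h0, h5, h4, h3⟩ := ho
  unfold wedge hb_a2; rw [h0, h5, h4, h3]; ring

theorem hb_a2_nonneg (c : C6) : 0 ≤ hb_a2 c := by unfold hb_a2; positivity

theorem hb_ai_young {o : C6} (ho : hb_OmShape o) (c : C6) (l : ℝ) :
    0 ≤ l ^ 2 * hb_a2 o - 2 * l * hb_ai o c + hb_a2 c := by
  obtain ⟨h0, h5, h4, h3⟩ := ho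
  unfold hb_a2 hb_ai; rw [h4, h3]
  nlinarith [sq_nonneg (2 * l * o 1 - (c 1 - c 4)), sq_nonneg (2 * l * o 2 - (c 2 + c 3))]

variable {N : ℕ}

namespace Setup

variable (S : Setup N)

theorem hb_ev_ge_hom {β : EN N → Bil N} {x : EN N} (hx : x ∈ S.X) {t : ℝ}
    (h : ∀ z ∈ S.X1, t ≤ S.ev β z) {v : EN N} (hv : S.Tan x v) :
    t * S.om x v (S.J x v) ≤ β x v (S.J x v) := by
  by_cases h0 : v = 0
  · subst h0; simp
  · have hpos : 0 < S.om x v (S.J x v) := S.om_tame x hx v hv h0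
    set r := S.om x v (S.J x v) with hr
    have hs : 0 < Real.sqrt r := Real.sqrt_pos.mpr hpos
    have hsq : (Real.sqrt r)⁻¹ * (Real.sqrt r)⁻¹ = r⁻¹ := by
      rw [← mul_inv, Real.mul_self_sqrt hpos.le]
    have hmem : (x, (Real.sqrt r)⁻¹ • v) ∈ S.X1 := by
      refine ⟨hx, ?_, ?_⟩
      · show S.D x ((Real.sqrt r)⁻¹ • v) = (Real.sqrt r)⁻¹ • v
        rw [map_smul, show S.D x v = v from hv]
      · show S.om x ((Real.sqrt r)⁻¹ • v) (S.J x ((Real.sqrt r)⁻¹ • v)) = 1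
        simp only [map_smul, Bil.smul_left, Bil.smul_right]
        rw [← mul_assoc, hsq, ← hr, inv_mul_cancel₀ hpos.ne']
    have h1 := h _ hmem
    have h2 : S.ev β (x, (Real.sqrt r)⁻¹ • v) = r⁻¹ * β x v (S.J x v) := by
      show β x ((Real.sqrt r)⁻¹ • v) (S.J x ((Real.sqrt r)⁻¹ • v)) = _
      simp only [map_smul, Bil.smul_left, Bil.smul_right]
      rw [← mul_assoc, hsq]
    rw [h2] at h1
    calc t * r ≤ (r⁻¹ * β x v (S.J x v)) * r := mul_le_mul_of_nonneg_right h1 hpos.le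
      _ = β x v (S.J x v) := by field_simp

theorem hb_alt_swap {b : Bil N} (hb : ∀ v, b v v = 0) (u w : EN N) : b u w = - b w u := by
  have h := hb (u + w)
  have h1 := hb u
  have h2 := hb w
  simp only [Bil.add_left, Bil.add_right, h1, h2] at h
  linarith

theorem hb_J_fr1 {x : EN N} (hx : x ∈ S.X) : S.J x (S.fr 1 x) = - S.fr 0 x := by
  rw [← S.fr_J0 x hx, S.J_J x hx, S.fr_tan x hx]

theorem hb_J_fr3 {x : EN N} (hx : x ∈ S.X) : S.J x (S.fr 3 x) = - S.fr 2 x := by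
  rw [← S.fr_J2 x hx, S.J_J x hx, S.fr_tan x hx]

/-- value of a form on the complex line of a f0 + b f2 + d f3 -/
theorem hb_ev_comb {b : Bil N} (hb : ∀ v, b v v = 0) {x : EN N} (hx : x ∈ S.X) (s t r : ℝ) :
    b (s • S.fr 0 x + t • S.fr 2 x + r • S.fr 3 x)
      (S.J x (s • S.fr 0 x + t • S.fr 2 x + r • S.fr 3 x)) =
    s ^ 2 * b (S.fr 0 x) (S.fr 1 x) + (t ^ 2 + r ^ 2) * b (S.fr 2 x) (S.fr 3 x)
    + s * t * (b (S.fr 0 x) (S.fr 3 x) - b (S.fr 1 x) (S.fr 2 x))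
    - s * r * (b (S.fr 0 x) (S.fr 2 x) + b (S.fr 1 x) (S.fr 3 x)) := by
  have hJ : S.J x (s • S.fr 0 x + t • S.fr 2 x + r • S.fr 3 x) =
      s • S.fr 1 x + t • S.fr 3 x - r • S.fr 2 x := by
    rw [map_add, map_add, map_smul, map_smul, map_smul, S.fr_J0 x hx, S.fr_J2 x hx, S.hb_J_fr3 hx,
      smul_neg]
    abel
  rw [hJ]
  simp only [Bil.add_left, Bil.add_right, Bil.sub_right, Bil.smul_left, Bil.smul_right]
  rw [hb_alt_swap hb (S.fr 2 x) (S.fr 1 x), hb_alt_swap hb (S.fr 3 x) (S.fr 1 x), hb (S.fr 2 x),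
    hb (S.fr 3 x), hb_alt_swap hb (S.fr 3 x) (S.fr 2 x)]
  ring

theorem hb_Fswap {x : EN N} (u w : EN N) :
    S.F x u w = (1 / 2 : ℝ) * (S.om x (S.D x u) (S.D x w) + S.om x (S.J x u) (S.J x w)) := rfl

theorem hb_omShape {x : EN N} (hx : x ∈ S.X) : hb_OmShape (S.cp S.om x) := by
  have hD : ∀ a, S.D x (S.fr a x) = S.fr a x := fun a => S.fr_tan x hx a
  have halt := S.om_alt x
  have h00 := S.fr_orth x hx 0 0
  have h22 := S.fr_orth x hx 2 2
  have h03 := S.fr_orth x hx 0 3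
  have h02 := S.fr_orth x hx 0 2
  have e01 : (if (0 : Fin 4) = 0 then (1 : ℝ) else 0) = 1 := if_pos rfl
  have e22 : (if (2 : Fin 4) = 2 then (1 : ℝ) else 0) = 1 := if_pos rfl
  have e03 : (if (0 : Fin 4) = 3 then (1 : ℝ) else 0) = 0 := if_neg (by decide)
  have e02 : (if (0 : Fin 4) = 2 then (1 : ℝ) else 0) = 0 := if_neg (by decide)
  rw [e01] at h00
  rw [e22] at h22
  rw [e03] at h03
  rw [e02] at h02
  simp only [S.hb_Fswap, S.fr_J0 x hx, S.fr_J2 x hx, S.hb_J_fr1 hx, S.hb_J_fr3 hx, hD, map_neg,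
    Bil.neg_right] at h00 h22 h03 h02
  rw [hb_alt_swap halt (S.fr 1 x) (S.fr 0 x)] at h00
  rw [hb_alt_swap halt (S.fr 3 x) (S.fr 2 x)] at h22
  refine ⟨?_, ?_, ?_, ?_⟩
  · show S.om x (S.fr 0 x) (S.fr 1 x) = 1
    linarith
  · show S.om x (S.fr 2 x) (S.fr 3 x) = 1
    linarith
  · show S.om x (S.fr 1 x) (S.fr 3 x) = - S.om x (S.fr 0 x) (S.fr 2 x)
    linarith
  · show S.om x (S.fr 1 x) (S.fr 2 x) = S.om x (S.fr 0 x) (S.fr 3 x)
    linarith

theorem hb_tan_comb {x : EN N} (hx : x ∈ S.X) (s t r : ℝ) :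
    S.Tan x (s • S.fr 0 x + t • S.fr 2 x + r • S.fr 3 x) := by
  show S.D x _ = _
  have hD : ∀ a, S.D x (S.fr a x) = S.fr a x := fun a => S.fr_tan x hx a
  rw [map_add, map_add, map_smul, map_smul, map_smul, hD, hD, hD]

/-- pointwise positivity -/
theorem hb_comp_pos {β : EN N → Bil N} (hβ : IsForm β) {x : EN N} (hx : x ∈ S.X)
    (h : ∀ z ∈ S.X1, -1 ≤ S.ev β z) :
    0 ≤ S.cp β x 0 + S.cp β x 5 + 2 ∧ 0 ≤ hb_dt (S.cp β x) := by
  set c := S.cp β x with hc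
  have hQ : ∀ s t r : ℝ, 0 ≤ s ^ 2 * (c 0 + 1) + (t ^ 2 + r ^ 2) * (c 5 + 1)
      + s * t * (c 2 - c 3) - s * r * (c 1 + c 4) := by
    intro s t r
    have h1 := S.hb_ev_ge_hom hx h (S.hb_tan_comb hx s t r)
    rw [S.hb_ev_comb (hβ.alt x) hx, S.hb_ev_comb (S.om_alt x) hx] at h1
    obtain ⟨o0, o5, o4, o3⟩ := S.hb_omShape hx
    change S.om x (S.fr 0 x) (S.fr 1 x) = 1 at o0
    change S.om x (S.fr 2 x) (S.fr 3 x) = 1 at o5
    change S.om x (S.fr 1 x) (S.fr 3 x) = - S.om x (S.fr 0 x) (S.fr 2 x) at o4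
    change S.om x (S.fr 1 x) (S.fr 2 x) = S.om x (S.fr 0 x) (S.fr 3 x) at o3
    rw [o0, o5, o4, o3] at h1
    have e0 : c 0 = β x (S.fr 0 x) (S.fr 1 x) := rfl
    have e1 : c 1 = β x (S.fr 0 x) (S.fr 2 x) := rfl
    have e2 : c 2 = β x (S.fr 0 x) (S.fr 3 x) := rfl
    have e3 : c 3 = β x (S.fr 1 x) (S.fr 2 x) := rfl
    have e4 : c 4 = β x (S.fr 1 x) (S.fr 3 x) := rfl
    have e5 : c 5 = β x (S.fr 2 x) (S.fr 3 x) := rfl
    rw [e0, e1, e2, e3, e4, e5]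
    linarith
  have hT0 : 0 ≤ c 0 + 1 := by have := hQ 1 0 0; linarith
  have hT5 : 0 ≤ c 5 + 1 := by have := hQ 0 1 0; linarith
  refine ⟨by linarith, ?_⟩
  unfold hb_dt
  set p := (c 1 + c 4) / 2 with hp
  set q := (c 2 - c 3) / 2 with hq
  have hp' : c 1 + c 4 = 2 * p := by rw [hp]; ring
  have hq' : c 2 - c 3 = 2 * q := by rw [hq]; ring
  suffices h' : p ^ 2 + q ^ 2 ≤ (c 0 + 1) * (c 5 + 1) by linarith
  rcases eq_or_lt_of_le (show (0:ℝ) ≤ p ^ 2 + q ^ 2 by positivity) with h0 | h0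
  · rw [← h0]; positivity
  · have key : ∀ s t : ℝ, 0 ≤ s ^ 2 * (c 0 + 1) + t ^ 2 * (p ^ 2 + q ^ 2) * (c 5 + 1)
        - 2 * s * t * (p ^ 2 + q ^ 2) := by
      intro s t
      have := hQ s (-q * t) (p * t)
      rw [hp', hq'] at this
      nlinarith [this]
    rcases eq_or_lt_of_le hT0 with h00 | h00
    · exfalso
      have := key (c 5 + 1 + 1) 1
      rw [← h00] at this
      nlinarith
    · have := key (p ^ 2 + q ^ 2) (c 0 + 1)
      have h3 : 0 ≤ ((p ^ 2 + q ^ 2) * (c 0 + 1)) * ((c 0 + 1) * (c 5 + 1) - (p ^ 2 + q ^ 2)) := by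
        nlinarith
      have h4 : 0 < (p ^ 2 + q ^ 2) * (c 0 + 1) := by positivity
      have := nonneg_of_mul_nonneg_right h3 h4
      linarith

theorem hb_nu_pos : 0 < ∫ _x, (1 : ℝ) ∂S.nu := by
  obtain ⟨x₀, hx₀⟩ := S.neX
  obtain ⟨ψ, κ, hb_V, h, σ, hch, -⟩ := S.charts x₀ hx₀
  have h1 : 0 < S.nu hb_V := by
    have h2 := hch.lint (fun _ => 1) measurable_const
    rw [lintegral_one, Measure.restrict_apply_univ] at h2
    rw [h2]
    simp only [one_mul]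
    rw [setLIntegral_pos_iff (by
      exact ENNReal.measurable_ofReal.comp hch.smooth_h.continuous.measurable)]
    have : (Function.support fun y => ENNReal.ofReal (h y)) ∩ Metric.ball (0 : EN 4) 1 =
        Metric.ball (0 : EN 4) 1 := by
      apply inter_eq_self_of_subset_right
      intro y hy
      simp only [Function.mem_support, ne_eq, ENNReal.ofReal_eq_zero, not_le]
      exact hch.h_pos y hy
    rw [this]
    exact Metric.measure_ball_pos _ _ one_pos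
  rw [integral_const, smul_eq_mul, mul_one]
  have h3 : 0 < S.nu univ := h1.trans_le (measure_mono (subset_univ _))
  exact ENNReal.toReal_pos h3.ne' (measure_ne_top _ _)

end Setup

end Pool.Agent.W_MP_d8b8b7_gt
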