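import Pool.Agent.W_MP_d8b8b7_gt.Final

/-!
Sanity check (not part of the hand-in): integration functionals in the sense of `IsIntegral` exist on every
nonempty closed symplectic 4-manifold with a tame almost complex structure, so the quantifier over `Λ` in
`BPlusOne` is not vacuous.
-/

set_option autoImplicit false

namespace Pool.Agent.W_MP_d8b8b7_gt

open Pool.Agent.W_MP_d8b8b7_G1
open scoped Manifold ContDiff

theorem exists_isIntegral {M : Type*} [TopologicalSpace M] [ChartedSpace E4 M]
    [IsManifold 𝓘(ℝ, E4) ∞ M] [CompactSpace M] [T2Space M] [Nonempty M] {Ω : Form M 2}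
    {J : EndoField M} (hΩ : IsSymplectic Ω) (hJ : IsAlmostComplex J) (ht : Tame Ω J) :
    ∃ Λ : (M → ℝ) → ℝ, IsIntegral Ω Λ := by
  obtain ⟨N, S, e, h⟩ := exists_setup_model hΩ hJ ht
  exact ⟨Lam S e, isIntegral_Lam h hΩ⟩

end Pool.Agent.W_MP_d8b8b7_gt
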