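import Pool.Agent.W_MP_d8b8b7_gt.RbAlg

/-!
# The regularisation of SMOOTH forms: commutation with d, homotopy formula, convergence

For a smooth form β put β~ (y) = pull (D y) (β (rho y)) = (rho^* β)(y), a smooth form on R^N.  On Ud
(where rho maps to X and rho ∘ rho = rho near each point) it only depends on the restriction of β to
X.  `Geom.R p δ β x = ∫ p(s) β~ (x + δ s) ds`.
-/

namespace Pool.Agent.W_MP_d8b8b7_gt

open MeasureTheory Set Filter Topology
open scoped ContDiff ENNReal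

variable {N : ℕ}

set_option linter.unusedSectionVars false

section SmrGeneric

theorem smr_clm_comp {E B W : Type*} [NormedAddCommGroup E] [NormedSpace ℝ E]
    [NormedAddCommGroup B] [NormedSpace ℝ B] [NormedAddCommGroup W] [NormedSpace ℝ W]
    (L : B →L[ℝ] W) {f : E → B} {f' : E →L[ℝ] B} {y : E} (hf : HasFDerivAt f f' y) :
    HasFDerivAt (fun y => L (f y)) (L.comp f') y := L.hasFDerivAt.comp y hf

/-- generic trilinear derivative -/
theorem smr_trilin {E A B : Type*} [NormedAddCommGroup E] [NormedSpace ℝ E]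
    [NormedAddCommGroup A] [NormedSpace ℝ A] [NormedAddCommGroup B] [NormedSpace ℝ B]
    (L : B →L[ℝ] (A →L[ℝ] A →L[ℝ] ℝ)) {f : E → B} {f' : E →L[ℝ] B} {y : E}
    (hf : HasFDerivAt f f' y) {D : E → (E →L[ℝ] A)} {D' : E →L[ℝ] (E →L[ℝ] A)}
    (hD : HasFDerivAt D D' y) (u v w : E) :
    fderiv ℝ (fun y => L (f y) (D y v) (D y w)) y u = L (f' u) (D y v) (D y w) +
      L (f y) (D' u v) (D y w) + L (f y) (D y v) (D' u w) := by
  have h1 : HasFDerivAt (fun y => L (f y)) (L.comp f') y :=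
    smr_clm_comp (W := A →L[ℝ] A →L[ℝ] ℝ) L hf
  have h3 := h1.clm_apply (hD.clm_apply (hasFDerivAt_const v y))
  have h4 := h3.clm_apply (hD.clm_apply (hasFDerivAt_const w y))
  rw [h4.fderiv]
  simp
  abel

variable {V : Type*} [NormedAddCommGroup V] [NormedSpace ℝ V]

/-- `r ↦ r • v` as a smooth function of v -/
theorem smr_toSpan_contDiff {E : Type*} [NormedAddCommGroup E] [NormedSpace ℝ E] {Ψ : E → V}
    (hΨ : ContDiff ℝ ∞ Ψ) :
    ContDiff ℝ ∞ (fun z => ContinuousLinearMap.toSpanSingleton ℝ (Ψ z)) := by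
  have h1 : (fun z => ContinuousLinearMap.toSpanSingleton ℝ (Ψ z)) =
      fun z => (ContinuousLinearMap.toSpanSingletonCLE (𝕜 := ℝ) (E := V)) (Ψ z) := rfl
  rw [h1]
  exact ((ContinuousLinearMap.toSpanSingletonCLE (𝕜 := ℝ) (E := V)).contDiff).comp hΨ

theorem smr_toSpan_fderiv {E : Type*} [NormedAddCommGroup E] [NormedSpace ℝ E] {Ψ : E → V}
    (hΨ : ContDiff ℝ ∞ Ψ) (z w : E) (r : ℝ) :
    fderiv ℝ (fun z => ContinuousLinearMap.toSpanSingleton ℝ (Ψ z)) z w r = r • fderiv ℝ Ψ z w := by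
  have h1 : (fun z => ContinuousLinearMap.toSpanSingleton ℝ (Ψ z)) =
      fun z => (ContinuousLinearMap.toSpanSingletonCLE (𝕜 := ℝ) (E := V)) (Ψ z) := rfl
  have h2 : HasFDerivAt (fun z => (ContinuousLinearMap.toSpanSingletonCLE (𝕜 := ℝ) (E := V)) (Ψ z))
      (((ContinuousLinearMap.toSpanSingletonCLE (𝕜 := ℝ) (E := V)) :
        V →L[ℝ] (ℝ →L[ℝ] V)).comp (fderiv ℝ Ψ z)) z :=
    ((ContinuousLinearMap.toSpanSingletonCLE (𝕜 := ℝ) (E := V)) :
        V →L[ℝ] (ℝ →L[ℝ] V)).hasFDerivAt.comp z ((hΨ.differentiable (by simp)) z).hasFDerivAt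
  rw [h1, h2.fderiv]
  rfl

theorem smr_integrable {p : EN N → ℝ} (hp : ContDiff ℝ ∞ p) (hps : ∀ s, 1 ≤ ‖s‖ → p s = 0) :
    Integrable p volume := by
  refine hp.continuous.integrable_of_hasCompactSupport ?_
  refine HasCompactSupport.intro (isCompact_closedBall (0 : EN N) 1) fun s hs => ?_
  apply hps
  rw [Metric.mem_closedBall, not_le, dist_zero_right] at hs
  exact hs.le

theorem smr_zero_off {p : EN N → ℝ} (hps : ∀ s, 1 ≤ ‖s‖ → p s = 0) :
    ∀ s ∉ Metric.closedBall (0 : EN N) 1, p s = 0 := by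
  intro s hs
  apply hps
  rw [Metric.mem_closedBall, not_le, dist_zero_right] at hs
  exact hs.le

variable [FiniteDimensional ℝ V] {E : Type*} [NormedAddCommGroup E] [NormedSpace ℝ E]
  [FiniteDimensional ℝ E] {F : Type*} [NormedAddCommGroup F] [NormedSpace ℝ F]
  [FiniteDimensional ℝ F] [MeasurableSpace F] [BorelSpace F] {μ : Measure F}

theorem smr2_integrable {g : F → ℝ} (hg : Integrable g μ) {K : Set F}
    (hK : Bornology.IsBounded K) (hgK : ∀ y ∉ K, g y = 0) {Ψ : E × F → V} (hΨ : ContDiff ℝ ∞ Ψ)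
    (x : E) : Integrable (fun y => g y • Ψ (x, y)) μ :=
  paramC_integrable (Φ := fun z => ContinuousLinearMap.toSpanSingleton ℝ (Ψ z))
    (smr_toSpan_contDiff hΨ).continuous hg hK hgK x

theorem smr2_contDiff {g : F → ℝ} (hg : Integrable g μ) {K : Set F}
    (hK : Bornology.IsBounded K) (hgK : ∀ y ∉ K, g y = 0) {Ψ : E × F → V} (hΨ : ContDiff ℝ ∞ Ψ) :
    ContDiff ℝ ∞ (fun x => ∫ y, g y • Ψ (x, y) ∂μ) :=
  contDiff_integral_param (μ := μ)
    (fun z => ContinuousLinearMap.toSpanSingleton ℝ (Ψ z)) (smr_toSpan_contDiff hΨ) g hg K hK hgK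

theorem smr2_fderiv {g : F → ℝ} (hg : Integrable g μ) {K : Set F}
    (hK : Bornology.IsBounded K) (hgK : ∀ y ∉ K, g y = 0) {Ψ : E × F → V} (hΨ : ContDiff ℝ ∞ Ψ)
    (x v : E) :
    fderiv ℝ (fun x => ∫ y, g y • Ψ (x, y) ∂μ) x v =
      ∫ y, g y • fderiv ℝ (fun x => Ψ (x, y)) x v ∂μ := by
  have : CompleteSpace V := FiniteDimensional.complete ℝ V
  have h := paramC_fderiv_apply (μ := μ)
    (Φ := fun z => ContinuousLinearMap.toSpanSingleton ℝ (Ψ z)) (smr_toSpan_contDiff hΨ)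
    hg hK hgK x v
  refine h.trans ?_
  refine integral_congr_ae (Eventually.of_forall fun y => ?_)
  have h1 := fderiv_fst_apply hΨ x y v
  simp only
  rw [h1]
  exact smr_toSpan_fderiv hΨ (x, y) (v, 0) (g y)

theorem smr_integrable_smul {p : EN N → ℝ} (hp : ContDiff ℝ ∞ p)
    (hps : ∀ s, 1 ≤ ‖s‖ → p s = 0) {Ψ : E × EN N → V} (hΨ : ContDiff ℝ ∞ Ψ) (x : E) :
    Integrable (fun s => p s • Ψ (x, s)) volume :=
  smr2_integrable (smr_integrable hp hps) Metric.isBounded_closedBall (smr_zero_off hps) hΨ x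

/-- parameter integrals against a bump function are smooth -/
theorem smr_contDiff {p : EN N → ℝ} (hp : ContDiff ℝ ∞ p) (hps : ∀ s, 1 ≤ ‖s‖ → p s = 0)
    {Ψ : E × EN N → V} (hΨ : ContDiff ℝ ∞ Ψ) :
    ContDiff ℝ ∞ (fun x => ∫ s, p s • Ψ (x, s)) :=
  smr2_contDiff (smr_integrable hp hps) Metric.isBounded_closedBall (smr_zero_off hps) hΨ

theorem smr_shift_smooth {c : EN N → V} (hc : ContDiff ℝ ∞ c) (δ : ℝ) :
    ContDiff ℝ ∞ (fun z : EN N × EN N => c (z.1 + δ • z.2)) :=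
  hc.comp (contDiff_fst.add (contDiff_snd.const_smul δ))

theorem smr_fderiv {p : EN N → ℝ} (hp : ContDiff ℝ ∞ p) (hps : ∀ s, 1 ≤ ‖s‖ → p s = 0)
    {c : EN N → V} (hc : ContDiff ℝ ∞ c) (δ : ℝ) (x v : EN N) :
    fderiv ℝ (fun x => ∫ s, p s • c (x + δ • s)) x v = ∫ s, p s • fderiv ℝ c (x + δ • s) v := by
  have h := smr2_fderiv (smr_integrable hp hps) Metric.isBounded_closedBall (smr_zero_off hps)
    (smr_shift_smooth hc δ) x v
  refine h.trans ?_
  refine integral_congr_ae (Eventually.of_forall fun s => ?_)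
  simp only
  rw [fderiv_comp_add_right]

/-- first order expansion of a mollification, uniformly smooth in the scale -/
theorem smr_expand {p : EN N → ℝ} (hp : ContDiff ℝ ∞ p) (hps : ∀ s, 1 ≤ ‖s‖ → p s = 0)
    {c : EN N → V} (hc : ContDiff ℝ ∞ c) :
    ∃ W : EN N × ℝ → V, ContDiff ℝ ∞ W ∧
      ∀ z δ, ∫ s, p s • (c (z + δ • s) - c z) = δ • W (z, δ) := by
  obtain ⟨Ai, hAi, hA⟩ := hadamard (fun z : EN N × EN N => c (z.2 + z.1))
    (hc.comp (contDiff_snd.add contDiff_fst))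
  refine ⟨fun y => ∫ s, p s • (fun z : (EN N × ℝ) × EN N =>
    ∑ i, z.2 i • Ai i (z.1.2 • z.2, z.1.1)) (y, s), ?_, ?_⟩
  · refine smr_contDiff (E := EN N × ℝ) (V := V) hp hps (Ψ := fun z : (EN N × ℝ) × EN N =>
      ∑ i, z.2 i • Ai i (z.1.2 • z.2, z.1.1)) ?_
    refine ContDiff.sum fun i _ => ?_
    have h1 : ContDiff ℝ ∞ (fun z : (EN N × ℝ) × EN N => z.2 i) :=
      (EuclideanSpace.proj i : EN N →L[ℝ] ℝ).contDiff.comp contDiff_snd
    refine h1.smul ((hAi i).comp (ContDiff.prodMk ?_ (contDiff_fst.comp contDiff_fst)))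
    exact (contDiff_snd.comp contDiff_fst).smul contDiff_snd
  · intro z δ
    change _ = δ • ∫ s, p s • ∑ i, s i • Ai i (δ • s, z)
    rw [← integral_smul]
    refine integral_congr_ae (Eventually.of_forall fun s => ?_)
    simp only
    have h1 := hA (δ • s) z
    simp only [add_zero] at h1
    rw [h1, smul_comm δ (p s), Finset.smul_sum (r := δ)]
    congr 1
    refine Finset.sum_congr rfl fun i _ => ?_
    rw [smul_smul]
    rfl

end SmrGeneric

namespace Setup

variable (S : Setup N)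

/-- rho^* β -/
noncomputable def rs (β : EN N → Bil N) (y : EN N) : Bil N := Bil.pull (S.D y) (β (S.rho y))

theorem smooth_rs {β : EN N → Bil N} (hβ : ContDiff ℝ ∞ β) : ContDiff ℝ ∞ (S.rs β) :=
  Bil.contDiff_pull (hβ.comp S.smooth_rho) S.smooth_D

/-- on X the form rho^* β agrees with β on tangent vectors -/
theorem tanEq_rs (β : EN N → Bil N) : S.TanEq (S.rs β) β := by
  intro x hx u v hu hv
  have h1 : S.D x u = u := hu
  have h2 : S.D x v = v := hv
  change β (S.rho x) (S.D x u) (S.D x v) = _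
  rw [h1, h2, S.rho_fix x hx]

/-- `Bil.toCLM` as a continuous linear map -/
noncomputable def _root_.Pool.Agent.W_MP_d8b8b7_gt.smrL (N : ℕ) :
    Bil N →L[ℝ] (EN N →L[ℝ] EN N →L[ℝ] ℝ) :=
  ((Bil.toCLM (N := N)).toContinuousLinearEquiv : Bil N →L[ℝ] (EN N →L[ℝ] EN N →L[ℝ] ℝ))

/-- the second derivative of rho is symmetric -/
theorem smr_symm (y u v : EN N) : fderiv ℝ S.D y u v = fderiv ℝ S.D y v u := by
  have h : IsSymmSndFDerivAt ℝ S.rho y :=
    (S.smooth_rho.contDiffAt (x := y)).isSymmSndFDerivAt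
      (by rw [minSmoothness_of_isRCLikeNormedField]; exact WithTop.coe_le_coe.mpr le_top)
  exact h u v

/-- the 1-form rho^* α -/
noncomputable def smrOne (α : EN N → Cov N) (y : EN N) : Cov N := (α (S.rho y)).comp (S.D y)

theorem smrOne_smooth {α : EN N → Cov N} (hα : IsOne α) : ContDiff ℝ ∞ (S.smrOne α) :=
  ContDiff.clm_comp (hα.comp S.smooth_rho) S.smooth_D

theorem smrOne_fderiv {α : EN N → Cov N} (hα : IsOne α) (y u v : EN N) :
    fderiv ℝ (S.smrOne α) y u v =
      fderiv ℝ α (S.rho y) (S.D y u) (S.D y v) + α (S.rho y) (fderiv ℝ S.D y u v) := by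
  have hα' : ContDiff ℝ ∞ α := hα
  have h1 : HasFDerivAt (fun y => α (S.rho y)) ((fderiv ℝ α (S.rho y)).comp (S.D y)) y :=
    ((hα'.differentiable (by simp)) (S.rho y)).hasFDerivAt.comp y
      ((S.smooth_rho.differentiable (by simp)) y).hasFDerivAt
  have h2 : HasFDerivAt S.D (fderiv ℝ S.D y) y :=
    ((S.smooth_D.differentiable (by simp)) y).hasFDerivAt
  have h3 := h1.clm_comp h2
  have h4 : fderiv ℝ (S.smrOne α) y = _ := h3.fderiv
  rw [h4]
  simp [add_comm]

/-- pull back commutes with d: d(rho^* α) = rho^* dα, rho^*α (y) = α(rho y) ∘ D y; symmetry of the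
second derivative of rho -/
theorem rs_dOne {α : EN N → Cov N} (hα : IsOne α) (y : EN N) :
    dOne (fun y => (α (S.rho y)).comp (S.D y)) y = S.rs (dOne α) y := by
  ext u v
  rw [dOne_apply]
  change fderiv ℝ (S.smrOne α) y u v - fderiv ℝ (S.smrOne α) y v u =
    dOne α (S.rho y) (S.D y u) (S.D y v)
  rw [S.smrOne_fderiv hα, S.smrOne_fderiv hα, dOne_apply, S.smr_symm y u v]
  ring

/-- the derivative of rho^* β -/
theorem rs_fderiv {β : EN N → Bil N} (hβ : ContDiff ℝ ∞ β) (y u v w : EN N) :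
    fderiv ℝ (S.rs β) y u v w = fderiv ℝ β (S.rho y) (S.D y u) (S.D y v) (S.D y w) +
      β (S.rho y) (fderiv ℝ S.D y u v) (S.D y w) + β (S.rho y) (S.D y v) (fderiv ℝ S.D y u w) := by
  have hd : DifferentiableAt ℝ (S.rs β) y := (S.smooth_rs hβ).differentiable (by simp) y
  rw [← Bil.fderiv_apply hd u v w]
  have h0 : HasFDerivAt (fun y => β (S.rho y)) ((fderiv ℝ β (S.rho y)).comp (S.D y)) y :=
    ((hβ.differentiable (by simp)) (S.rho y)).hasFDerivAt.comp y
        ((S.smooth_rho.differentiable (by simp)) y).hasFDerivAt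
  have h2 : HasFDerivAt S.D (fderiv ℝ S.D y) y :=
    ((S.smooth_D.differentiable (by simp)) y).hasFDerivAt
  exact smr_trilin (smrL N) h0 h2 u v w

/-- for a form which is closed on X the form rho^* β is closed on the open set U -/
theorem rs_closed {β : EN N → Bil N} (hβ : IsForm β) (hc : S.Closed β) {y : EN N} (hy : y ∈ S.U)
    (u v w : EN N) : dTwo (S.rs β) y u v w = 0 := by
  unfold dTwo
  rw [S.rs_fderiv hβ.smooth, S.rs_fderiv hβ.smooth, S.rs_fderiv hβ.smooth, S.smr_symm y v u,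
    S.smr_symm y w u, S.smr_symm y w v]
  have h1 := hc (S.rho y) (S.rho_mem y hy) (S.D y u) (S.D y v) (S.D y w) (S.D_rho_D hy u)
    (S.D_rho_D hy v) (S.D_rho_D hy w)
  unfold dTwo at h1
  rw [pt_skew (hβ.alt (S.rho y)) (fderiv ℝ S.D y u w) (S.D y v)]
  linarith

theorem smr_pull_pull {y : EN N} (hy : y ∈ S.U) (b : Bil N) :
    Bil.pull (S.D y) (Bil.pull (S.D (S.rho y)) b) = Bil.pull (S.D y) b := by
  ext u v
  simp only [Bil.pull_apply]
  rw [S.D_rho_D hy, S.D_rho_D hy]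

/-- `Rb p δ (cp β) = R p δ β` at points of X (the field `rc (cp β) (rho y) = pull (D (rho y)) (β (rho y))`
and D (rho y) ∘ D y = D y for y in Ud) -/
theorem Rb_cp {β : EN N → Bil N} (hβ : IsForm β) {p : EN N → ℝ}
    (hps : ∀ s, 1 ≤ ‖s‖ → p s = 0) {δ : ℝ} (hδ : 0 < δ) (hδ' : δ ≤ S.d0 / 2) {x : EN N}
    (hx : x ∈ S.X) : S.Rb p δ (S.cp β) x = ∫ s, p s • S.rs β (x + δ • s) := by
  unfold Rb
  refine integral_congr_ae (Eventually.of_forall fun s => ?_)
  simp only
  rcases lt_or_ge ‖s‖ 1 with hs | hs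
  · have hy := S.rbAlg_mem_Ud hx hδ hδ' hs
    have h2 : S.ex (S.cp β) (x + δ • s) = S.rc (S.cp β) (S.rho (x + δ • s)) :=
      Set.indicator_of_mem hy _
    rw [h2, S.rc_cp (S.rho_mem_X hy) β (hβ.alt _), S.smr_pull_pull (S.Ud_subset_U hy)]
    rfl
  · rw [hps s hs, zero_smul, zero_smul]

/-- smoothness of the regularised 1-form -/
theorem isOne_Rone {α : EN N → Cov N} (hα : IsOne α) {p : EN N → ℝ} (hp : ContDiff ℝ ∞ p)
    (hps : ∀ s, 1 ≤ ‖s‖ → p s = 0) {δ : ℝ} (hδ : 0 < δ) : IsOne (S.Rone p δ α) :=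
  smr_contDiff hp hps (smr_shift_smooth (S.smrOne_smooth hα) δ)

theorem smr_isForm_dOne {α : EN N → Cov N} (hα : IsOne α) : IsForm (dOne α) := by
  have hα' : ContDiff ℝ ∞ (fderiv ℝ α) := ContDiff.fderiv_right (m := ∞) hα (by simp)
  refine ⟨?_, fun x v => ?_⟩
  · rw [Bil.contDiff_iff]
    intro u v
    simp only [dOne_apply]
    exact ((hα'.clm_apply contDiff_const).clm_apply contDiff_const).sub
      ((hα'.clm_apply contDiff_const).clm_apply contDiff_const)
  · rw [dOne_apply, sub_self]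

/-- Commutation with d.  Differentiate under the integral sign and use `rs_dOne`. -/
theorem Rb_dOne {α : EN N → Cov N} (hα : IsOne α) {p : EN N → ℝ} (hp : ContDiff ℝ ∞ p)
    (hps : ∀ s, 1 ≤ ‖s‖ → p s = 0) {δ : ℝ} (hδ : 0 < δ) (hδ' : δ ≤ S.d0 / 2) :
    S.TanEq (S.Rb p δ (S.cp (dOne α))) (dOne (S.Rone p δ α)) := by
  intro x hx u v _ _
  have hF := smr_isForm_dOne hα
  have hs1 := S.smrOne_smooth hα
  have hs2 : ContDiff ℝ ∞ (fderiv ℝ (S.smrOne α)) := ContDiff.fderiv_right (m := ∞) hs1 (by simp)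
  rw [S.Rb_cp hF hps hδ hδ' hx,
    Bil.integral_apply (smr_integrable_smul hp hps (smr_shift_smooth (S.smooth_rs hF.smooth) δ) x)]
  have key : ∀ u v : EN N, fderiv ℝ (S.Rone p δ α) x u v =
      ∫ s, p s * fderiv ℝ (S.smrOne α) (x + δ • s) u v := by
    intro u v
    have h1 : fderiv ℝ (S.Rone p δ α) x u = ∫ s, p s • fderiv ℝ (S.smrOne α) (x + δ • s) u :=
      smr_fderiv hp hps hs1 δ x u
    rw [h1, ContinuousLinearMap.integral_apply]
    · rfl
    · exact smr_integrable_smul hp hps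
        (smr_shift_smooth (hs2.clm_apply contDiff_const : ContDiff ℝ ∞
          (fun y => fderiv ℝ (S.smrOne α) y u)) δ) x
  have hint : ∀ u v : EN N, Integrable (fun s => p s * fderiv ℝ (S.smrOne α) (x + δ • s) u v)
      volume := by
    intro u v
    exact smr_integrable_smul (V := ℝ) hp hps
        (smr_shift_smooth ((hs2.clm_apply contDiff_const).clm_apply contDiff_const :
          ContDiff ℝ ∞ (fun y => fderiv ℝ (S.smrOne α) y u v)) δ) x
  rw [dOne_apply, key, key, ← integral_sub (hint u v) (hint v u)]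
  refine integral_congr_ae (Eventually.of_forall fun s => ?_)
  simp only [Bil.smul_apply]
  rw [← S.rs_dOne hα]
  change _ = _
  rw [dOne_apply]
  change p s * (fderiv ℝ (S.smrOne α) (x + δ • s) u v - fderiv ℝ (S.smrOne α) (x + δ • s) v u) = _
  ring

/-- insertion in the first slot as a continuous linear map of the form -/
noncomputable def smrLeft (w : EN N) : Bil N →L[ℝ] Cov N :=
  LinearMap.toContinuousLinearMap
    { toFun := fun b => b.left w, map_add' := fun _ _ => rfl, map_smul' := fun _ _ => rfl }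

/-- the integrand of the homotopy operator -/
noncomputable def smrH (c : EN N → Bil N) (δ : ℝ) (z : EN N × (EN N × ℝ)) : Cov N :=
  (c (z.1 + (z.2.2 * δ) • z.2.1)).left (δ • z.2.1)

theorem smrH_smooth {c : EN N → Bil N} (hc : ContDiff ℝ ∞ c) (δ : ℝ) :
    ContDiff ℝ ∞ (smrH c δ) := by
  have h1 : ContDiff ℝ ∞ (fun z : EN N × (EN N × ℝ) => z.1 + (z.2.2 * δ) • z.2.1) :=
    contDiff_fst.add (((contDiff_snd.comp contDiff_snd).mul contDiff_const).smul
      (contDiff_fst.comp contDiff_snd))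
  have h2 : ContDiff ℝ ∞ (fun z : EN N × (EN N × ℝ) => δ • z.2.1) :=
    (contDiff_fst.comp contDiff_snd).const_smul δ
  exact (Bil.contDiff_toCLM.mp (hc.comp h1)).clm_apply h2

theorem smrH_fderiv {c : EN N → Bil N} (hc : ContDiff ℝ ∞ c) (δ : ℝ) (x u v : EN N)
    (z : EN N × ℝ) : fderiv ℝ (fun x => smrH c δ (x, z)) x u v =
      fderiv ℝ c (x + (z.2 * δ) • z.1) u (δ • z.1) v := by
  have h1 : (fun x => smrH c δ (x, z)) =
      fun x => (smrLeft (δ • z.1)) (c (x + (z.2 * δ) • z.1)) := rfl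
  have h2 : HasFDerivAt (fun x => c (x + (z.2 * δ) • z.1))
      (fderiv ℝ c (x + (z.2 * δ) • z.1)) x := by
    rw [hasFDerivAt_comp_add_right]
    exact (hc.differentiable (by simp) _).hasFDerivAt
  rw [h1, (smr_clm_comp (smrLeft (δ • z.1)) h2).fderiv]
  rfl

/-- the weight of the homotopy operator -/
noncomputable def smrG (p : EN N → ℝ) (z : EN N × ℝ) : ℝ :=
  p z.1 * (Ioc (0 : ℝ) 1).indicator (fun _ => 1) z.2

/-- the measure of the homotopy operator -/
noncomputable def smrMu (N : ℕ) : Measure (EN N × ℝ) :=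
  (volume : Measure (EN N)).prod (volume.restrict (Ioc (0 : ℝ) 1))

theorem smrG_integrable {p : EN N → ℝ} (hp : ContDiff ℝ ∞ p) (hps : ∀ s, 1 ≤ ‖s‖ → p s = 0) :
    Integrable (smrG p) (smrMu N) := by
  have h1 := smr_integrable hp hps
  have h2 : Integrable ((Ioc (0 : ℝ) 1).indicator (fun _ => (1 : ℝ)))
      (volume.restrict (Ioc (0 : ℝ) 1)) := (integrable_const (1 : ℝ)).indicator measurableSet_Ioc
  exact h1.mul_prod h2

theorem smrG_bounded : Bornology.IsBounded (Metric.closedBall (0 : EN N) 1 ×ˢ Ioc (0 : ℝ) 1) :=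
  Metric.isBounded_closedBall.prod (Metric.isBounded_Ioc 0 1)

theorem smrG_zero {p : EN N → ℝ} (hps : ∀ s, 1 ≤ ‖s‖ → p s = 0) :
    ∀ z ∉ Metric.closedBall (0 : EN N) 1 ×ˢ Ioc (0 : ℝ) 1, smrG p z = 0 := by
  intro z hz
  unfold smrG
  by_cases h1 : z.1 ∈ Metric.closedBall (0 : EN N) 1
  · have h2 : z.2 ∉ Ioc (0 : ℝ) 1 := fun h => hz ⟨h1, h⟩
    rw [indicator_of_notMem h2, mul_zero]
  · rw [smr_zero_off hps z.1 h1, zero_mul]

/-- Homotopy formula.  With c~ = rho^* β closed on U and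
κ(x) = ∫ p(s) ∫_0^1 c~(x + t δ s)(δ s, ·) dt ds one has, for x near X,
dκ = ∫ p(s) (c~(x + δ s) - c~(x)) ds, because (d/dt) c~(x + t h)(u, v) = (D c~)(h)(u, v)
= (D c~)(u)(h, v) - (D c~)(v)(h, u) (closedness), which is the derivative of t-integrand:
d(x ↦ c~(x + t h)(h, ·))(u, v) = (D c~)(u)(h, v) - (D c~)(v)(h, u). -/
theorem homotopy {β : EN N → Bil N} (hβ : IsForm β) (hc : S.Closed β) {p : EN N → ℝ}
    (hp : ContDiff ℝ ∞ p) (hps : ∀ s, 1 ≤ ‖s‖ → p s = 0) {δ : ℝ} (hδ : 0 < δ)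
    (hδ' : δ ≤ S.d0 / 2) : ∃ κ : EN N → Cov N, IsOne κ ∧
      S.TanEq (S.Rb p δ (S.cp β)) (fun x => (∫ s, p s) • β x + dOne κ x) := by
  set c : EN N → Bil N := S.rs β with hcdef
  have hcs : ContDiff ℝ ∞ c := S.smooth_rs hβ.smooth
  have hcs' : ContDiff ℝ ∞ (fderiv ℝ c) := hcs.fderiv_right (m := ∞) (by simp)
  have hG := smrG_integrable hp hps
  have hH := smrH_smooth hcs δ
  refine ⟨fun x => ∫ z, smrG p z • smrH c δ (x, z) ∂(smrMu N),
    smr2_contDiff hG smrG_bounded (smrG_zero hps) hH, ?_⟩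
  intro x hx u v hu hv
  have key : ∀ u v : EN N, fderiv ℝ (fun x => ∫ z, smrG p z • smrH c δ (x, z) ∂(smrMu N)) x u v =
      ∫ z, smrG p z * fderiv ℝ c (x + (z.2 * δ) • z.1) u (δ • z.1) v ∂(smrMu N) := by
    intro u v
    rw [smr2_fderiv hG smrG_bounded (smrG_zero hps) hH x u, ContinuousLinearMap.integral_apply]
    · refine integral_congr_ae (Eventually.of_forall fun z => ?_)
      simp only
      rw [← smrH_fderiv hcs δ x u v z]
      rfl
    · have h2 : ContDiff ℝ ∞ (fun z : EN N × (EN N × ℝ) => pdir (smrH c δ) u z) :=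
        contDiff_pdir hH u
      refine (smr2_integrable hG smrG_bounded (smrG_zero hps) h2 x).congr ?_
      refine Eventually.of_forall fun z => ?_
      simp only
      rw [fderiv_fst_apply hH x z u]
  have hsh : ContDiff ℝ ∞ (fun z : EN N × (EN N × ℝ) => z.1 + (z.2.2 * δ) • z.2.1) :=
    contDiff_fst.add (((contDiff_snd.comp contDiff_snd).mul contDiff_const).smul
      (contDiff_fst.comp contDiff_snd))
  have hds : ContDiff ℝ ∞ (fun z : EN N × (EN N × ℝ) => δ • z.2.1) :=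
    (contDiff_fst.comp contDiff_snd).const_smul δ
  have hint : ∀ u v : EN N, Integrable (fun z => smrG p z *
      fderiv ℝ c (x + (z.2 * δ) • z.1) u (δ • z.1) v) (smrMu N) := by
    intro u v
    refine smr2_integrable (V := ℝ) hG smrG_bounded (smrG_zero hps)
      (Ψ := fun z : EN N × (EN N × ℝ) => fderiv ℝ c (z.1 + (z.2.2 * δ) • z.2.1) u (δ • z.2.1) v)
      ?_ x
    exact Bil.contDiff_apply ((hcs'.comp hsh).clm_apply contDiff_const) hds contDiff_const
  have hint2 : Integrable (fun z => smrG p z *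
      fderiv ℝ c (x + (z.2 * δ) • z.1) (δ • z.1) u v) (smrMu N) := by
    refine smr2_integrable (V := ℝ) hG smrG_bounded (smrG_zero hps)
      (Ψ := fun z : EN N × (EN N × ℝ) => fderiv ℝ c (z.1 + (z.2.2 * δ) • z.2.1) (δ • z.2.1) u v)
      ?_ x
    exact Bil.contDiff_apply ((hcs'.comp hsh).clm_apply hds) contDiff_const contDiff_const
  have hcx : c x u v = β x u v := S.tanEq_rs β x hx u v hu hv
  -- closedness
  have hstep1 : ∫ z, smrG p z * fderiv ℝ c (x + (z.2 * δ) • z.1) u (δ • z.1) v ∂(smrMu N) -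
      ∫ z, smrG p z * fderiv ℝ c (x + (z.2 * δ) • z.1) v (δ • z.1) u ∂(smrMu N) =
      ∫ z, smrG p z * fderiv ℝ c (x + (z.2 * δ) • z.1) (δ • z.1) u v ∂(smrMu N) := by
    rw [← integral_sub (hint u v) (hint v u)]
    refine integral_congr_ae (Eventually.of_forall fun z => ?_)
    simp only
    by_cases hz : z ∈ Metric.closedBall (0 : EN N) 1 ×ˢ Ioc (0 : ℝ) 1
    · rcases lt_or_ge ‖z.1‖ 1 with hs | hs
      · have ht : |z.2 * δ| ≤ δ := by
          rw [abs_of_pos (mul_pos hz.2.1 hδ)]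
          nlinarith [hz.2.2]
        have hU : x + (z.2 * δ) • z.1 ∈ S.U := by
          refine S.Ud_subset_U (S.add_mem_Ud hx ?_)
          rw [norm_smul, Real.norm_eq_abs]
          have h3 : |z.2 * δ| * ‖z.1‖ ≤ δ * ‖z.1‖ := mul_le_mul_of_nonneg_right ht (norm_nonneg _)
          nlinarith
        have h4 := S.rs_closed hβ hc hU (δ • z.1) u v
        unfold dTwo at h4
        change fderiv ℝ c _ _ _ _ - fderiv ℝ c _ _ _ _ + fderiv ℝ c _ _ _ _ = 0 at h4
        have h5 : fderiv ℝ c (x + (z.2 * δ) • z.1) (δ • z.1) u v =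
          fderiv ℝ c (x + (z.2 * δ) • z.1) u (δ • z.1) v -
            fderiv ℝ c (x + (z.2 * δ) • z.1) v (δ • z.1) u := by linarith
        rw [h5]
        ring
      · unfold smrG
        rw [hps z.1 hs]
        ring
    · rw [smrG_zero hps z hz]
      ring
  -- Fubini and the fundamental theorem of calculus
  have hstep2 : ∫ z, smrG p z * fderiv ℝ c (x + (z.2 * δ) • z.1) (δ • z.1) u v ∂(smrMu N) =
      ∫ s, p s * (c (x + δ • s) u v - c x u v) := by
    unfold smrMu at hint2 ⊢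
    rw [integral_prod _ hint2]
    refine integral_congr_ae (Eventually.of_forall fun s => ?_)
    simp only
    have hφ : ∀ t : ℝ, HasDerivAt (fun t : ℝ => c (x + (t * δ) • s) u v)
        (fderiv ℝ c (x + (t * δ) • s) (δ • s) u v) t := by
      intro t
      have h1 : HasDerivAt (fun t : ℝ => x + (t * δ) • s) (δ • s) t := by
        have h2 : HasDerivAt (fun t : ℝ => t * δ) δ t := by
          simpa using (hasDerivAt_id t).mul_const δ
        exact (h2.smul_const s).const_add x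
      have h3 := Bil.hasFDerivAt_apply ((hcs.differentiable (by simp)
        (x + (t * δ) • s)).hasFDerivAt) u v
      exact h3.comp_hasDerivAt t h1
    have hcont : Continuous (fun t : ℝ => fderiv ℝ c (x + (t * δ) • s) (δ • s) u v) := by
      have h1 : Continuous (fun t : ℝ => fderiv ℝ c (x + (t * δ) • s)) :=
        hcs'.continuous.comp (by fun_prop)
      have h2 : Continuous (fun t : ℝ => fderiv ℝ c (x + (t * δ) • s) (δ • s)) :=
        h1.clm_apply continuous_const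
      exact (Bil.app u v).continuous.comp h2
    have h4 : ∫ t in (0 : ℝ)..1, fderiv ℝ c (x + (t * δ) • s) (δ • s) u v =
        c (x + ((1 : ℝ) * δ) • s) u v - c (x + ((0 : ℝ) * δ) • s) u v :=
      intervalIntegral.integral_eq_sub_of_hasDerivAt (fun t _ => hφ t)
        (hcont.intervalIntegrable 0 1)
    rw [one_mul, zero_mul, zero_smul, add_zero, intervalIntegral.integral_of_le zero_le_one] at h4
    rw [← h4, ← integral_const_mul]
    refine setIntegral_congr_fun measurableSet_Ioc fun t ht => ?_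
    simp only [smrG, indicator_of_mem ht, mul_one]
  have hi1 : Integrable (fun s => p s * c (x + δ • s) u v) volume :=
    smr_integrable_smul (V := ℝ) hp hps (Ψ := fun z : EN N × EN N => c (z.1 + δ • z.2) u v)
      (Bil.contDiff_apply (smr_shift_smooth hcs δ) contDiff_const contDiff_const) x
  have hi2 : Integrable (fun s => p s * c x u v) volume := (smr_integrable hp hps).mul_const _
  rw [S.Rb_cp hβ hps hδ hδ' hx,
    Bil.integral_apply (smr_integrable_smul hp hps (smr_shift_smooth hcs δ) x)]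
  change _ = ((∫ s, p s) • β x + dOne _ x) u v
  rw [Bil.add_apply, Bil.smul_apply, dOne_apply, key, key, hstep1, hstep2, ← hcx]
  have h6 : ∫ s, p s * (c (x + δ • s) u v - c x u v) =
      (∫ s, p s * c (x + δ • s) u v) - ∫ s, p s * c x u v := by
    rw [← integral_sub hi1 hi2]
    refine integral_congr_ae (Eventually.of_forall fun s => ?_)
    simp only
    ring
  rw [h6, integral_mul_const]
  simp only [Bil.smul_apply]
  ring

theorem smr_antiB_sub (x : EN N) (a b : Bil N) :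
    S.antiB x (a - b) = S.antiB x a - S.antiB x b := by
  unfold Geom.antiB
  ext u v
  simp only [Bil.smul_apply, Bil.sub_apply, Bil.flip_apply, Bil.pull_apply]
  ring

theorem smr_antiB_smul (x : EN N) (t : ℝ) (a : Bil N) :
    S.antiB x (t • a) = t • S.antiB x a := by
  unfold Geom.antiB
  ext u v
  simp only [Bil.smul_apply, Bil.sub_apply, Bil.flip_apply, Bil.pull_apply]
  ring

/-- smoothness of the anti-invariant part -/
theorem smr_antiB_smooth {E : Type*} [NormedAddCommGroup E] [NormedSpace ℝ E] {f : E → Bil N}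
    (hf : ContDiff ℝ ∞ f) {a : E → EN N} (ha : ContDiff ℝ ∞ a) :
    ContDiff ℝ ∞ (fun z => S.antiB (a z) (f z)) := by
  have h1 : ContDiff ℝ ∞ (fun z => Bil.pull (S.D (a z)) (f z)) :=
    Bil.contDiff_pull hf (S.smooth_D.comp ha)
  have h2 : ContDiff ℝ ∞ (fun z => Bil.pull (S.J (a z)) (f z)) :=
    Bil.contDiff_pull hf (S.smooth_J.comp ha)
  have h3 := h1.sub h2
  have h4 : ContDiff ℝ ∞ (fun z => Bil.flipL
      (Bil.pull (S.D (a z)) (f z) - Bil.pull (S.J (a z)) (f z))) :=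
    (Bil.flipL (N := N)).contDiff.comp h3
  exact (h3.sub h4).const_smul (1 / 4 : ℝ)

/-- the anti-invariant part of the error at points near X -/
theorem smr_error {β : EN N → Bil N} (hβ : IsForm β) {p : EN N → ℝ}
    (hp : ContDiff ℝ ∞ p) (hps : ∀ s, 1 ≤ ‖s‖ → p s = 0) {W : EN N × ℝ → Bil N}
    (hW : ∀ z δ, ∫ s, p s • (S.rs β (z + δ • s) - S.rs β z) = δ • W (z, δ)) {δ : ℝ} (hδ : 0 < δ)
    (hδ' : δ ≤ S.d0 / 2) {z : EN N} (hz : z ∈ S.X) :
    S.anti (fun x => S.Rb p δ (S.cp β) x - (∫ s, p s) • β x) z =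
      δ • S.antiB z (W (z, δ)) := by
  have hcs : ContDiff ℝ ∞ (S.rs β) := S.smooth_rs hβ.smooth
  have h1 : S.Rb p δ (S.cp β) z - (∫ s, p s) • S.rs β z = δ • W (z, δ) := by
    rw [← hW, S.Rb_cp hβ hps hδ hδ' hz, ← integral_smul_const,
      ← integral_sub (smr_integrable_smul hp hps (smr_shift_smooth hcs δ) z)
        ((smr_integrable hp hps).smul_const _)]
    refine integral_congr_ae (Eventually.of_forall fun s => ?_)
    simp only
    rw [smul_sub]
  have h2 : S.antiB z (β z) = S.antiB z (S.rs β z) := by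
    have h3 : S.antiB z (S.rs β z - β z) = 0 := by
      refine S.rbAlg_antiB_zero hz fun u v hu hv => ?_
      rw [Bil.sub_apply, S.tanEq_rs β z hz u v hu hv, sub_self]
    rw [S.smr_antiB_sub, sub_eq_zero] at h3
    exact h3.symm
  change S.antiB z (S.Rb p δ (S.cp β) z - (∫ s, p s) • β z) = _
  rw [S.smr_antiB_sub, S.smr_antiB_smul, h2, ← S.smr_antiB_smul, ← S.smr_antiB_sub, h1,
    S.smr_antiB_smul]

/-- Convergence in C^k: the j-th derivatives of x ↦ ∫ p(s) (β~(x + δ s) - β~(x)) ds at x in X are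
∫ p(s) (D^jβ~(x + δ s) - D^jβ~(x)) ds = O(δ) (β~ is smooth, so D^jβ~ is Lipschitz on a
neighbourhood of the compact set X); then compose with rho and antiL (a fixed smooth linear
operation). -/
theorem antiLe_Rb_sub (k : ℕ) {β : EN N → Bil N} (hβ : IsForm β) {p : EN N → ℝ}
    (hp : ContDiff ℝ ∞ p) (hps : ∀ s, 1 ≤ ‖s‖ → p s = 0) :
    ∃ C : ℝ, 0 ≤ C ∧ ∀ δ : ℝ, 0 < δ → δ ≤ S.d0 / 4 →
      S.AntiLe k (fun x => S.Rb p δ (S.cp β) x - (∫ s, p s) • β x) (C * δ) := by
  obtain ⟨W, hWs, hW⟩ := smr_expand hp hps (S.smooth_rs hβ.smooth)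
  set Θ : EN N × ℝ → Bil N := fun y => S.antiB (S.rho y.1) (W (S.rho y.1, y.2)) with hΘ
  have hrho : ContDiff ℝ ∞ (fun y : EN N × ℝ => S.rho y.1) := S.smooth_rho.comp contDiff_fst
  have hΘs : ContDiff ℝ ∞ Θ := S.smr_antiB_smooth (hWs.comp (hrho.prodMk contDiff_snd)) hrho
  have hb : ∀ j : ℕ, ∃ C : ℝ, 0 ≤ C ∧ ∀ x ∈ S.X, ∀ δ : ℝ, 0 < δ → δ ≤ S.d0 / 4 →
      ‖iteratedFDeriv ℝ j Θ (x, δ)‖ ≤ C := by
    intro j
    obtain ⟨C, hC⟩ := (S.cptX.prod (isCompact_Icc (a := (0 : ℝ)) (b := S.d0))).exists_bound_of_continuousOn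
      (hΘs.continuous_iteratedFDeriv (m := j) (by exact_mod_cast le_top)).continuousOn
    refine ⟨|C|, abs_nonneg C, fun x hx δ hδ hδ' => (hC (x, δ) ⟨hx, hδ.le, ?_⟩).trans (le_abs_self C)⟩
    have := S.d0_pos
    simp only
    linarith
  choose C hC0 hC using hb
  refine ⟨∑ j ∈ Finset.range (k + 1), C j, Finset.sum_nonneg fun j _ => hC0 j, ?_⟩
  intro δ hδ hδ' x hx j hj
  have hd := S.d0_pos
  have heq : (fun y => S.anti (fun x => S.Rb p δ (S.cp β) x - (∫ s, p s) • β x) (S.rho y))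
      =ᶠ[𝓝 x] fun y => δ • Θ (y, δ) := by
    filter_upwards [S.openU.mem_nhds (S.subU hx)] with y hy
    exact S.smr_error hβ hp hps hW hδ (by linarith) (S.rho_mem y hy)
  have h1 : iteratedFDeriv ℝ j
      (fun y => S.anti (fun x => S.Rb p δ (S.cp β) x - (∫ s, p s) • β x) (S.rho y)) x =
      iteratedFDeriv ℝ j (fun y => δ • Θ (y, δ)) x := (heq.iteratedFDeriv ℝ j).eq_of_nhds
  have hΘ1 : ContDiff ℝ ∞ (fun y => Θ (y, δ)) := hΘs.comp (contDiff_id.prodMk contDiff_const)
  have h2 : iteratedFDeriv ℝ j (fun y => δ • Θ (y, δ)) x =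
      δ • iteratedFDeriv ℝ j (fun y => Θ (y, δ)) x := by
    have h3 : (fun y => δ • Θ (y, δ)) = δ • fun y => Θ (y, δ) := rfl
    rw [h3]
    exact iteratedFDeriv_const_smul_apply (hΘ1.contDiffAt.of_le (by exact_mod_cast le_top))
  rw [h1, h2, norm_smul, Real.norm_eq_abs, abs_of_pos hδ, mul_comm]
  refine mul_le_mul_of_nonneg_right ?_ hδ.le
  refine (norm_iteratedFDeriv_partial_le Θ hΘs x δ j).trans ((hC j x hx δ hδ hδ').trans ?_)
  exact Finset.single_le_sum (f := C) (fun i _ => hC0 i) (Finset.mem_range.mpr (by omega))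

end Setup

end Pool.Agent.W_MP_d8b8b7_gt
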