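import Pool.Agent.W_MP_d8b8b7_gt.RbAlg
import Pool.Agent.W_MP_d8b8b7_gt.SmoothR
import Pool.Agent.W_MP_d8b8b7_gt.MeasA

/-!
# Pairs (m, T) killing exact forms / a space W of closed forms
-/

namespace Pool.Agent.W_MP_d8b8b7_gt

open MeasureTheory Set Filter Topology
open scoped ContDiff ENNReal

variable {N : ℕ}

/-- the exterior derivative of a smooth 1-form is smooth -/
theorem Test_smooth_dOne {α : EN N → Cov N} (hα : IsOne α) : ContDiff ℝ ∞ (dOne α) := by
  have h1 : ContDiff ℝ ∞ (fderiv ℝ α) := ContDiff.fderiv_right hα (by simp)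
  rw [Bil.contDiff_iff]
  intro u v
  have h2 : ∀ a b : EN N, ContDiff ℝ ∞ (fun x => fderiv ℝ α x a b) := fun a b =>
    (h1.clm_apply contDiff_const).clm_apply contDiff_const
  exact (h2 u v).sub (h2 v u)

/-- the alternating part of a field of bilinear forms -/
noncomputable def Test_alt (β : EN N → Bil N) (x : EN N) : Bil N :=
  (1 / 2 : ℝ) • (β x - (β x).flip)

theorem Test_alt_apply (β : EN N → Bil N) (x u v : EN N) :
    Test_alt β x u v = (β x u v - β x v u) / 2 := by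
  have h : Test_alt β x u v = (1 / 2 : ℝ) * (β x u v - β x v u) := rfl
  rw [h]
  ring

theorem Test_alt_alt (β : EN N → Bil N) (x v : EN N) : Test_alt β x v v = 0 := by
  rw [Test_alt_apply]
  ring

theorem Test_alt_smooth {β : EN N → Bil N} (hβ : ContDiff ℝ ∞ β) : ContDiff ℝ ∞ (Test_alt β) := by
  rw [Bil.contDiff_iff] at hβ ⊢
  intro u v
  have h : (fun x => Test_alt β x u v) = fun x => (β x u v - β x v u) / 2 := by
    funext x
    exact Test_alt_apply β x u v
  rw [h]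
  exact ((hβ u v).sub (hβ v u)).div_const 2

theorem Test_alt_add (β γ : EN N → Bil N) : Test_alt (β + γ) = Test_alt β + Test_alt γ := by
  funext x
  ext u v
  have h : (Test_alt β + Test_alt γ) x u v = Test_alt β x u v + Test_alt γ x u v := rfl
  rw [h, Test_alt_apply, Test_alt_apply, Test_alt_apply]
  have h2 : ∀ a b, (β + γ) x a b = β x a b + γ x a b := fun _ _ => rfl
  rw [h2, h2]
  ring

theorem Test_alt_smul (c : ℝ) (β : EN N → Bil N) : Test_alt (c • β) = c • Test_alt β := by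
  funext x
  ext u v
  have h : (c • Test_alt β) x u v = c * Test_alt β x u v := rfl
  rw [h, Test_alt_apply, Test_alt_apply]
  have h2 : ∀ a b, (c • β) x a b = c * β x a b := fun _ _ => rfl
  rw [h2, h2]
  ring

namespace Setup

variable (S : Setup N)

/-- (m, T) is a pair (positive current, anti-invariant current of order k) with m + T = 0 on exact
forms -/
structure ExPair (k : ℕ) (K : ℝ) (m : Measure (EN N × EN N)) (T : (EN N → Bil N) → ℝ) :
    Prop where
  pos : S.IsPos m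
  cur : S.IsCur k K T
  exact : ∀ α, IsOne α → S.Pm m (dOne α) + T (dOne α) = 0

/-- (m, T) kills a set W of closed forms containing the exact forms, and B is nonpositive on the
orthogonal complement of W -/
structure TestPair (k : ℕ) (K : ℝ) (m : Measure (EN N × EN N)) (T : (EN N → Bil N) → ℝ)
    (W : Set (EN N → Bil N)) : Prop where
  pos : S.IsPos m
  cur : S.IsCur k K T
  form : ∀ w ∈ W, IsForm w ∧ S.Closed w
  ex_mem : ∀ α, IsOne α → dOne α ∈ W
  kill : ∀ w ∈ W, S.Pm m w + T w = 0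
  neg : ∀ u, S.L2F u → (∀ w ∈ W, S.B u (S.cp w) = 0) → S.B u u ≤ 0

theorem TestPair.toExPair {k : ℕ} {K : ℝ} {m : Measure (EN N × EN N)} {T : (EN N → Bil N) → ℝ}
    {W : Set (EN N → Bil N)} (h : S.TestPair k K m T W) : S.ExPair k K m T := by
  exact ⟨h.pos, h.cur, fun α hα => h.kill _ (h.ex_mem α hα)⟩

/-- a pair killing exact forms also kills regularised exact forms (`Rb_dOne`, congruence on tangent
vectors `IsCur.congr`, `Pm_congr`) -/
theorem ExPair.kill_Rb {k : ℕ} {K : ℝ} {m : Measure (EN N × EN N)} {T : (EN N → Bil N) → ℝ}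
    (h : S.ExPair k K m T) {q : EN N → ℝ} (hq : ContDiff ℝ ∞ q) (hqs : ∀ s, 1 ≤ ‖s‖ → q s = 0)
    {δ : ℝ} (hδ : 0 < δ) (hδ' : δ ≤ S.d0 / 2) {α : EN N → Cov N} (hα : IsOne α) :
    S.Pm m (S.Rb q δ (S.cp (dOne α))) + T (S.Rb q δ (S.cp (dOne α))) = 0 := by
  have hs : ContDiff ℝ ∞ (dOne α) := Test_smooth_dOne hα
  have hR : IsOne (S.Rone q δ α) := S.isOne_Rone hα hq hqs hδ
  have hb : ContDiff ℝ ∞ (S.Rb q δ (S.cp (dOne α))) :=
    (S.isForm_Rb hq hδ (S.L2F_cp hs.continuous)).smooth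
  have ht := S.Rb_dOne hα hq hqs hδ hδ'
  rw [S.Pm_congr h.pos ht, IsCur.congr S h.cur hb (Test_smooth_dOne hR) ht]
  exact h.exact _ hR

/-- a pair killing W also kills regularised elements of W (`homotopy`) -/
theorem TestPair.kill_Rb {k : ℕ} {K : ℝ} {m : Measure (EN N × EN N)} {T : (EN N → Bil N) → ℝ}
    {W : Set (EN N → Bil N)} (h : S.TestPair k K m T W) {q : EN N → ℝ} (hq : ContDiff ℝ ∞ q)
    (hqs : ∀ s, 1 ≤ ‖s‖ → q s = 0) {δ : ℝ} (hδ : 0 < δ) (hδ' : δ ≤ S.d0 / 2)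
    {w : EN N → Bil N} (hw : w ∈ W) :
    S.Pm m (S.Rb q δ (S.cp w)) + T (S.Rb q δ (S.cp w)) = 0 := by
  obtain ⟨hf, hc⟩ := h.form w hw
  obtain ⟨κ, hκ, ht⟩ := S.homotopy hf hc hq hqs hδ hδ'
  have hd : ContDiff ℝ ∞ (dOne κ) := Test_smooth_dOne hκ
  have hb : ContDiff ℝ ∞ (S.Rb q δ (S.cp w)) :=
    (S.isForm_Rb hq hδ (S.L2F_cp hf.smooth.continuous)).smooth
  have hcw : ContDiff ℝ ∞ ((∫ s, q s) • w) := contDiff_const.smul hf.smooth
  have he : (fun x => (∫ s, q s) • w x + dOne κ x) = (∫ s, q s) • w + dOne κ := rfl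
  rw [he] at ht
  have hsum : ContDiff ℝ ∞ ((∫ s, q s) • w + dOne κ) := hcw.add hd
  have hT := IsCur.congr S h.cur hb hsum ht
  rw [S.Pm_congr h.pos ht, hT,
    S.Pm_add h.pos hcw.continuous hd.continuous, S.Pm_smul, h.cur.add _ _ hcw hd,
    h.cur.smul _ _ hf.smooth]
  have h1 := h.kill w hw
  have h2 := h.kill _ (h.ex_mem κ hκ)
  have h3 : (∫ s, q s) * S.Pm m w + S.Pm m (dOne κ) + ((∫ s, q s) * T w + T (dOne κ)) =
      (∫ s, q s) * (S.Pm m w + T w) + (S.Pm m (dOne κ) + T (dOne κ)) := by ring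
  rw [h3, h1, h2]
  ring

/-- if (m, 0) kills exact forms: T = 0 is a current of order k with constant 0 -/
theorem isCur_zero (k : ℕ) : S.IsCur k 0 (fun _ => 0) := by
  refine ⟨le_refl 0, fun _ _ _ _ => by ring, fun _ _ _ => by ring, fun _ c _ _ => ?_⟩
  simp

theorem Test_antiB_alt (β : EN N → Bil N) (x : EN N) :
    S.anti (Test_alt β) x = S.anti β x := by
  ext u v
  have h : ∀ γ : EN N → Bil N, S.anti γ x u v = (1 / 4 : ℝ) *
      ((γ x (S.D x u) (S.D x v) - γ x (S.J x u) (S.J x v)) -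
        (γ x (S.D x v) (S.D x u) - γ x (S.J x v) (S.J x u))) := fun _ => rfl
  rw [h, h]
  simp only [Test_alt_apply]
  ring

/-- an L2 anti-invariant field defines a current of order 0, hence of every order k -/
theorem isCur_B {t : EN N → C6} (ht : S.L2F t) (ht1 : ∀ x, pr1 (t x) = 0) (k : ℕ) :
    ∃ K : ℝ, S.IsCur k K (fun β => S.B t (S.cp (fun x => (1 / 2 : ℝ) • (β x - (β x).flip)))) := by
  obtain ⟨C, hC1, hC, -, -⟩ := S.exists_bound
  have hC0 : 0 ≤ C := by linarith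
  have hint : Integrable (fun x => ‖t x‖) S.nu := (ht.memLp.integrable one_le_two).norm
  have hL : ∀ β : EN N → Bil N, ContDiff ℝ ∞ β → S.L2F (S.cp (Test_alt β)) := fun β hβ =>
    S.L2F_cp (Test_alt_smooth hβ).continuous
  refine ⟨C * ∫ x, ‖t x‖ ∂S.nu, ?_, ?_, ?_, ?_⟩
  · exact mul_nonneg hC0 (integral_nonneg fun x => norm_nonneg _)
  · intro β γ hβ hγ
    change S.B t (S.cp (Test_alt (β + γ))) = S.B t (S.cp (Test_alt β)) + S.B t (S.cp (Test_alt γ))
    have h1 : S.cp (Test_alt (β + γ)) = S.cp (Test_alt β) + S.cp (Test_alt γ) := by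
      funext x
      rw [Test_alt_add, S.cp_add]
      rfl
    rw [h1, S.B_comm, S.B_add_left (hL β hβ) (hL γ hγ) ht, S.B_comm _ t, S.B_comm _ t]
  · intro c β hβ
    change S.B t (S.cp (Test_alt (c • β))) = c * S.B t (S.cp (Test_alt β))
    have h1 : S.cp (Test_alt (c • β)) = c • S.cp (Test_alt β) := by
      funext x
      rw [Test_alt_smul, S.cp_smul]
      rfl
    rw [h1, S.B_comm, S.B_smul_left, S.B_comm]
  · intro β c hβ hc
    change |∫ x, wedge (t x) (S.cp (Test_alt β) x) ∂S.nu| ≤ C * (∫ x, ‖t x‖ ∂S.nu) * c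
    have hb : ∀ᵐ x ∂S.nu, ‖wedge (t x) (S.cp (Test_alt β) x)‖ ≤ (C * c) * ‖t x‖ := by
      filter_upwards [S.ae_mem_X] with x hx
      have h1 : t x = pr2 (t x) := by
        have h2 := pr1_add_pr2 (t x)
        rw [ht1 x, zero_add] at h2
        exact h2.symm
      have h3 : wedge (t x) (S.cp (Test_alt β) x) = wedge (t x) (S.cp (S.anti β) x) := by
        rw [h1, wedge_pr2_left, ← S.cp_anti hx (Test_alt β) (Test_alt_alt β x)]
        have h4 : S.cp (S.anti (Test_alt β)) x = S.cp (S.anti β) x := by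
          unfold cp
          rw [S.Test_antiB_alt β x]
        rw [h4]
      have h5 : ‖S.anti β x‖ ≤ c := by
        have h6 := hc x hx 0 (Nat.zero_le k)
        rw [norm_iteratedFDeriv_zero] at h6
        have h7 : S.rho x = x := S.rho_fix x hx
        rwa [h7] at h6
      have h8 : ‖S.cp (S.anti β) x‖ ≤ C * c :=
        ((hC x hx).2.2.2.2.2 _).trans (mul_le_mul_of_nonneg_left h5 hC0)
      rw [h3, Real.norm_eq_abs]
      calc |wedge (t x) (S.cp (S.anti β) x)| ≤ ‖t x‖ * ‖S.cp (S.anti β) x‖ := abs_wedge_le _ _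
        _ ≤ ‖t x‖ * (C * c) := mul_le_mul_of_nonneg_left h8 (norm_nonneg _)
        _ = (C * c) * ‖t x‖ := by ring
    have h9 := norm_integral_le_of_norm_le (hint.const_mul (C * c)) hb
    rw [integral_const_mul, Real.norm_eq_abs] at h9
    calc |∫ x, wedge (t x) (S.cp (Test_alt β) x) ∂S.nu| ≤ C * c * ∫ x, ‖t x‖ ∂S.nu := h9
      _ = C * (∫ x, ‖t x‖ ∂S.nu) * c := by ring

end Setup

end Pool.Agent.W_MP_d8b8b7_gt
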