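import Pool.Agent.W_MP_d8b8b7_gt.AlgPos

/-!
# Elementary facts on rho, D and the neighbourhood Ud

Notation: for x in X, `D x` is the projection on the tangent space `T_x`, `th a x v = g_x(v, f_a)`.
-/

namespace Pool.Agent.W_MP_d8b8b7_gt

open MeasureTheory Set Filter Topology
open scoped ContDiff ENNReal

variable {N : ℕ}

namespace Setup

variable (S : Setup N)

/-- `rho ∘ rho = rho` on the open set `U`; differentiate (chain rule). -/
theorem D_rho_D {y : EN N} (hy : y ∈ S.U) (v : EN N) : S.D (S.rho y) (S.D y v) = S.D y v := by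
  have hyX : S.rho y ∈ S.X := S.rho_mem y hy
  have hd : Differentiable ℝ S.rho := S.smooth_rho.differentiable (by simp)
  have he : (S.rho ∘ S.rho) =ᶠ[𝓝 y] S.rho := by
    filter_upwards [S.openU.mem_nhds hy] with z hz
    exact S.rho_fix _ (S.rho_mem z hz)
  have h1 : fderiv ℝ (S.rho ∘ S.rho) y = fderiv ℝ S.rho y := he.fderiv_eq
  rw [fderiv_comp y (hd _) (hd _)] at h1
  exact congrArg (fun L : EN N →L[ℝ] EN N => L v) h1

theorem D_D {x : EN N} (hx : x ∈ S.X) (v : EN N) : S.D x (S.D x v) = S.D x v := by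
  have h := S.D_rho_D (S.subU hx) v
  rwa [S.rho_fix x hx] at h

theorem tan_D {x : EN N} (hx : x ∈ S.X) (v : EN N) : S.Tan x (S.D x v) := by
  exact S.D_D hx v

theorem tan_J {x : EN N} (hx : x ∈ S.X) (v : EN N) : S.Tan x (S.J x v) := by
  exact S.D_J x hx v

theorem Ud_open : IsOpen S.Ud := by
  exact isOpen_lt (Metric.continuous_infDist_pt _) continuous_const

theorem X_subset_Ud : S.X ⊆ S.Ud := by
  intro x hx
  change Metric.infDist x S.X < S.d0 / 2
  rw [Metric.infDist_zero_of_mem hx]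
  exact half_pos S.d0_pos

/-- a point of Ud is x + s with x in X and ‖s‖ < d0 / 2 (X is compact) -/
theorem exists_of_mem_Ud {y : EN N} (hy : y ∈ S.Ud) :
    ∃ x ∈ S.X, ∃ s : EN N, ‖s‖ < S.d0 / 2 ∧ y = x + s := by
  obtain ⟨x, hx, he⟩ := S.cptX.exists_infDist_eq_dist S.neX y
  refine ⟨x, hx, y - x, ?_, by abel⟩
  have h : Metric.infDist y S.X < S.d0 / 2 := hy
  rwa [he, dist_eq_norm] at h

theorem Ud_subset_U : S.Ud ⊆ S.U := by
  intro y hy
  obtain ⟨x, hx, s, hs, rfl⟩ := S.exists_of_mem_Ud hy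
  exact S.tube x hx s (hs.le.trans (by linarith [S.d0_pos]))

theorem rho_mem_X {y : EN N} (hy : y ∈ S.Ud) : S.rho y ∈ S.X := by
  exact S.rho_mem y (S.Ud_subset_U hy)

theorem Ud_bounded : Bornology.IsBounded S.Ud := by
  refine (S.cptX.isBounded.thickening (δ := S.d0)).subset ?_
  intro y hy
  obtain ⟨x, hx, s, hs, rfl⟩ := S.exists_of_mem_Ud hy
  rw [Metric.mem_thickening_iff]
  refine ⟨x, hx, ?_⟩
  rw [dist_eq_norm, add_sub_cancel_left]
  linarith [S.d0_pos]

theorem add_mem_Ud {x s : EN N} (hx : x ∈ S.X) (hs : ‖s‖ < S.d0 / 2) : x + s ∈ S.Ud := by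
  have h := Metric.infDist_le_dist_of_mem (x := x + s) hx
  rw [dist_eq_norm, add_sub_cancel_left] at h
  exact lt_of_le_of_lt h hs

/-- near a point x of X and for ‖h‖ < d0 / 2 the point y + h stays in Ud -/
theorem eventually_add_mem_Ud {x h : EN N} (hx : x ∈ S.X) (hs : ‖h‖ < S.d0 / 2) :
    ∀ᶠ y in 𝓝 x, y + h ∈ S.Ud := by
  have hc : Continuous (fun y : EN N => y + h) := continuous_id.add continuous_const
  exact (hc.tendsto x).eventually (S.Ud_open.mem_nhds (S.add_mem_Ud hx hs))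

end Setup

end Pool.Agent.W_MP_d8b8b7_gt
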