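import Pool.Agent.W_MP_d8b8b7_gt.Test

/-!
# Pairs (m, T) killing exact forms with an upper bound for the square of their smoothings
-/

namespace Pool.Agent.W_MP_d8b8b7_gt

open MeasureTheory Set Filter Topology
open scoped ContDiff ENNReal

variable {N : ℕ}

namespace Setup

variable (S : Setup N)

/-- (m, T) kills exact forms, and every u in L2 whose pairing with closed smooth forms w is
c (Pm m w + T w) satisfies B u u ≤ κ c² (for instance κ = 0 if (m, T) kills closed forms; under the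
light cone inequality κ = (Pm m om + T om)² / pair om om). -/
structure UpPair (k : ℕ) (K κ : ℝ) (m : Measure (EN N × EN N)) (T : (EN N → Bil N) → ℝ) :
    Prop where
  pos : S.IsPos m
  cur : S.IsCur k K T
  exact : ∀ α, IsOne α → S.Pm m (dOne α) + T (dOne α) = 0
  kap_nonneg : 0 ≤ κ
  upper : ∀ (c : ℝ) (u : EN N → C6), S.L2F u →
    (∀ w, IsForm w → S.Closed w → S.B u (S.cp w) = c * (S.Pm m w + T w)) → S.B u u ≤ κ * c ^ 2

theorem UpPair.toExPair {k : ℕ} {K κ : ℝ} {m : Measure (EN N × EN N)} {T : (EN N → Bil N) → ℝ}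
    (h : S.UpPair k K κ m T) : S.ExPair k K m T := ⟨h.pos, h.cur, h.exact⟩

/-- value on regularised closed forms, from `homotopy` (the regularised form is
(∫ q) w + dκ on tangent vectors) -/
theorem ExPair.Rb_closed {k : ℕ} {K : ℝ} {m : Measure (EN N × EN N)} {T : (EN N → Bil N) → ℝ}
    (h : S.ExPair k K m T) {q : EN N → ℝ} (hq : ContDiff ℝ ∞ q) (hqs : ∀ s, 1 ≤ ‖s‖ → q s = 0)
    {δ : ℝ} (hδ : 0 < δ) (hδ' : δ ≤ S.d0 / 2) {w : EN N → Bil N} (hw : IsForm w)
    (hc : S.Closed w) :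
    S.Pm m (S.Rb q δ (S.cp w)) + T (S.Rb q δ (S.cp w)) = (∫ s, q s) * (S.Pm m w + T w) := by
  obtain ⟨κ, hκ, ht⟩ := S.homotopy hw hc hq hqs hδ hδ'
  have hd : ContDiff ℝ ∞ (dOne κ) := Test_smooth_dOne hκ
  have hb : ContDiff ℝ ∞ (S.Rb q δ (S.cp w)) :=
    (S.isForm_Rb hq hδ (S.L2F_cp hw.smooth.continuous)).smooth
  have hcw : ContDiff ℝ ∞ ((∫ s, q s) • w) := contDiff_const.smul hw.smooth
  have he : (fun x => (∫ s, q s) • w x + dOne κ x) = (∫ s, q s) • w + dOne κ := rfl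
  rw [he] at ht
  have hsum : ContDiff ℝ ∞ ((∫ s, q s) • w + dOne κ) := hcw.add hd
  have hT := IsCur.congr S h.cur hb hsum ht
  rw [S.Pm_congr h.pos ht, hT,
    S.Pm_add h.pos hcw.continuous hd.continuous, S.Pm_smul, h.cur.add _ _ hcw hd,
    h.cur.smul _ _ hw.smooth]
  have h2 := h.exact κ hκ
  have h3 : (∫ s, q s) * S.Pm m w + S.Pm m (dOne κ) + ((∫ s, q s) * T w + T (dOne κ)) =
      (∫ s, q s) * (S.Pm m w + T w) + (S.Pm m (dOne κ) + T (dOne κ)) := by ring
  rw [h3, h2]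
  ring

end Setup

end Pool.Agent.W_MP_d8b8b7_gt
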